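import Pool.Agent.Work.MP_f1a024_nt.RW.Stmts

/-!
# Block RW: better threshold for `H`

The condition `2^((d+1)n/2) ≤ H` is replaced by `θ^n ≤ H`, where `q^d ≤ θ^d ∏_{p < q} p` for all
primes `q` (`θ_1 = 2`, `θ_2 = 2.12..`, `θ_3 = 2.75..`, `θ_d ~ d/e`). No Bertrand (Z3 is not needed).
-/

namespace Pool.Agent.Work.MP_f1a024_nt.RW

open Finset MvPolynomial Filter
open Pool.Agent.Work.MP_f1a024_nt.AH (tau PG val D1 D2 D4 D10a D10b)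

/-- the product of the primes below `q` -/
noncomputable def pb (q : ℕ) : ℝ := ∏ p ∈ (range q).filter Nat.Prime, (p : ℝ)

/-- Z4q (MEDIUM, replaces Z4): the bound for `k₃`. Let `κ` be an exponent with `h1`, `h2` of Z2 (the
smallest `nn` in the union of the supports), `m₀ = N(κ)`. A prime `p` outside the support of `up u`
(infinitely many primes) satisfies `up u p = 0 = κ p` (`κ ≤ up u`), so by Z2 some
`uv u (m₀ p^e) ≠ 0`; let `k₃` be the smallest `k` with `uv u k ≠ 0` (`Nat.find`). For a prime `p` with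
`m₀ p^r < k₃`, Z2 shows `up u p ≠ κ p`, so `up u p ≥ κ p + 1`. If `r = 0`: if `m₀ < k₃`
then this would hold for all primes `p`, impossible (finite support); so `k₃ ≤ m₀ ≤ N(up u)` and we
take `q = 2` (`pb 2 = 1`). If `r ≥ 1`: let `q` be the smallest prime with `k₃ ≤ m₀ q^r`
(there are infinitely many primes). For all primes `p < q`: `m₀ p^r < k₃`, so
`up u p ≥ κ p + 1`; so `κ + ∑_{p < q} single p 1 ≤ up u` and `N(up u) ≥ m₀ pb q` (NB). So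
`k₃ pb q ≤ m₀ q^r pb q ≤ q^r N(up u)`. -/
def Z4q : Prop :=
  ∀ (d r m : ℕ) (u : Fin (d + 1) → Rg) (a : Fin m → Fin (d + 1) → ℤ), (∃ i, u i ≠ 0) →
    (∀ p : Nat.Primes, ∀ z : Fin (d + 1) → ℚ,
      (∀ e ≤ r, ∑ i, z i * (tau ^ (i : ℕ)) ((p : ℕ) ^ e) = 0) →
      (∀ l, ∑ i, z i * (a l i : ℚ) = 0) → z = 0) →
    (∀ l, dt u (a l) = 0) →
    ∃ k₃ q : ℕ, q.Prime ∧ uv u k₃ ≠ 0 ∧ (∀ k < k₃, uv u k = 0) ∧
      (k₃ : ℝ) * pb q ≤ (q : ℝ) ^ r * nn (up u)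

/-- CRq (MEDIUM, replaces CR): the core. Suppose not; then (`𝒰` is an ultrafilter) for almost all
`n` `|∑ x_n(i) val (tau^i) n| < e^(-εn) H_n^(-d)`. `x n ≠ 0` gives `H_n ≥ 1`. WS gives `W`, P6
gives `D : PD d W`, `r = D.r`, `m = D.m`, `m + r = d`; Z4q (with `a l = D.y l.succ.succ`) gives
`k₃, q` with `k₃ pb q ≤ q^r N(up u)`; `k₃ > 0` (`uv u 0 = 0`). `H_n ≤ B₁^n` with
`B₁ = max |B| 1`. Choose `Y > k₃` with `Y ≥ e^ε · 2 · B₁^(d+1)`. By F1a, for large `n`,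
`|∑ ev n (vb Y i) x_n i| ≤ e^(-εn) H_n^(-d) + (d+1) C B₁^n Y^(-n) ≤ (1 + (d+1) C) e^(-εn) H_n^(-d)`,
because `B₁^n Y^(-n) ≤ e^(-εn) B₁^(-dn) ≤ e^(-εn) H_n^(-d)`. By CU with `ε/2`:
`e^(-εn/2) (N(up u)/k₃)^n H_n^(-m) ≤ C' |∑ ev n (vb Y i) x_n i| ≤ C'' e^(-εn) H_n^(-d)`, and
`N(up u)/k₃ ≥ pb q / q^r`, so `H_n^r ≤ C'' e^(-εn/2) (q^r / pb q)^n` (`d = m + r`). But
`H_n^r ≥ (q^r / pb q)^n`: if `r = 0` clear (`pb q ≥ 1`). In general, from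
`q^(dn) ≤ H_n^d (pb q)^n` we get `(q^(rn))^d = (q^(dn))^r ≤ H_n^(dr) (pb q)^(nr) ≤
(H_n^r (pb q)^n)^d` (`pb q ≥ 1`, `r ≤ d`), so `q^(rn) ≤ H_n^r (pb q)^n` if `d ≥ 1`
(`pow_le_pow_iff_left₀`). So `1 ≤ C'' e^(-εn/2)` for almost all `n`, impossible since
`𝒰 ≤ atTop`. -/
def CRq : Prop :=
  ∀ (d : ℕ) (𝒰 : Ultrafilter ℕ) (x : ℕ → Fin (d + 1) → ℤ) (H : ℕ → ℝ) (B ε : ℝ),
    (𝒰 : Filter ℕ) ≤ atTop → 0 < ε →
    (∀ᶠ n : ℕ in (𝒰 : Filter ℕ), x n ≠ 0 ∧ (∀ i, |(x n i : ℝ)| ≤ H n) ∧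
      (∀ q : ℕ, q.Prime → (q : ℝ) ^ (d * n) ≤ H n ^ d * pb q ^ n) ∧ H n ≤ B ^ n) →
    ∀ᶠ n : ℕ in (𝒰 : Filter ℕ),
      Real.exp (-(ε * n)) * (H n ^ d)⁻¹ ≤ |∑ i, (x n i : ℝ) * val (tau ^ (i : ℕ)) n|

/-- MRq (EASY, replaces MR): the real form. Suppose it fails: for every `M` there are `n ≥ M`, `x`,
`H` which violate the bound; the set of the `n` for which there are such `x`, `H` is infinite. Choose
`x n`, `H n` for these `n` (anything for other `n`), and an ultrafilter `𝒰 ≤ atTop ⊓ 𝓟 (this set)`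
(this filter is `NeBot`: `Filter.frequently_atTop`, `Ultrafilter.exists_le`). CRq contradicts the
choice. -/
def MRq : Prop :=
  ∀ (d : ℕ) (B ε : ℝ), 0 < ε → ∃ M : ℕ, ∀ n ≥ M, ∀ (x : Fin (d + 1) → ℤ) (H : ℝ), x ≠ 0 →
    (∀ i, |(x i : ℝ)| ≤ H) → (∀ q : ℕ, q.Prime → (q : ℝ) ^ (d * n) ≤ H ^ d * pb q ^ n) →
    H ≤ B ^ n →
    Real.exp (-(ε * n)) * (H ^ d)⁻¹ ≤ |∑ i, (x i : ℝ) * val (tau ^ (i : ℕ)) n|

/-- MTq (EASY-MEDIUM, replaces MT): THEOREM W. From MRq with `x i = P.coeff i`. For large `n`,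
`val (tau ^ i) n = (val tau n) ^ i` for all `i ≤ d` (induction from D2, third part, and `PG (tau^i)`
from D1; `val 1 n = 1`), and `val tau n = ζ(2n)/ζ(n)^2` (D10a). `P(t) = ∑_{i ≤ d} x_i t^i`
(`Polynomial.eval_eq_sum_range'`, `natDegree ≤ d`), and the norm of a real number as a complex number
is its absolute value. The condition on `H`: `q^(dn) = (q^d)^n ≤ (θ^d pb q)^n = (θ^n)^d (pb q)^n ≤
H^d (pb q)^n`. -/
def MTq : Prop :=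
  ∀ (d : ℕ) (θ B ε : ℝ), 0 < θ → (∀ q : ℕ, q.Prime → (q : ℝ) ^ d ≤ θ ^ d * pb q) → 0 < ε →
    ∃ M : ℕ, ∀ n ≥ M, ∀ (P : Polynomial ℤ) (H : ℝ), P ≠ 0 → P.natDegree ≤ d →
    (∀ i, |(P.coeff i : ℝ)| ≤ H) → θ ^ n ≤ H → H ≤ B ^ n →
    Real.exp (-(ε * n)) * (H ^ d)⁻¹ ≤
      ‖(P.map (Int.castRingHom ℂ)).eval (riemannZeta (2 * n) / riemannZeta n ^ 2)‖

end Pool.Agent.Work.MP_f1a024_nt.RW
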