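import Pool.Agent.Work.MP_f1a024_nt.AH.Final
import Pool.Agent.Work.MP_f1a024_nt.RW.Stmts2

/-!
# Block RW: two corollaries of THEOREM W
-/

namespace Pool.Agent.Work.MP_f1a024_nt.RW

open Finset
open Pool.Agent.Work.MP_f1a024_nt.AH (tt)

/-- the condition on `θ` holds for `θ = 2^((d+1)/2)` -/
theorem Cor_theta (hZ3 : Z3) (d : ℕ) (hd : 1 ≤ d) (q : ℕ) (hq : q.Prime) :
    (q : ℝ) ^ d ≤ ((2 : ℝ) ^ (((d : ℝ) + 1) / 2)) ^ d * pb q := by
  have h := hZ3 d (q ^ d) 1 hd one_pos (Nat.one_le_pow _ _ hq.pos)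
  have e1 : (range (q ^ d)).filter (fun p => p.Prime ∧ 1 * p ^ d < q ^ d) =
      (range q).filter Nat.Prime := by
    ext p
    simp only [mem_filter, mem_range, one_mul]
    constructor
    · rintro ⟨-, hp, hlt⟩
      exact ⟨lt_of_pow_lt_pow_left₀ d (Nat.zero_le q) hlt, hp⟩
    · rintro ⟨hlt, hp⟩
      have h1 : p ^ d < q ^ d := Nat.pow_lt_pow_left hlt (by omega)
      exact ⟨lt_of_le_of_lt (Nat.le_self_pow (by omega) p) h1, hp, h1⟩
  rw [e1] at h
  have e2 : ((2 : ℝ) ^ (((d : ℝ) + 1) / 2)) ^ d = 2 ^ (d * (d + 1) / 2) := by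
    rw [← Real.rpow_natCast, ← Real.rpow_mul (by norm_num), ← Real.rpow_natCast]
    congr 1
    obtain ⟨k, hk⟩ : 2 ∣ d * (d + 1) := (Nat.even_mul_succ_self d).two_dvd
    rw [hk, Nat.mul_div_cancel_left _ (by norm_num)]
    have : (d : ℝ) * (d + 1) = 2 * k := by exact_mod_cast hk
    linarith
  rw [e2]
  have h3 : ((q ^ d : ℕ) : ℝ) = (q : ℝ) ^ d := by push_cast; ring
  rw [h3] at h
  simpa [pb] using h

/-- the condition on `θ` for `d = 1` -/
theorem Cor_theta1 (hZ3 : Z3) (q : ℕ) (hq : q.Prime) : (q : ℝ) ^ 1 ≤ (2 : ℝ) ^ 1 * pb q := by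
  have h := Cor_theta hZ3 1 le_rfl q hq
  norm_num at h ⊢
  exact h

/-- rational approximations -/
theorem Cor_rational (hZ3 : Z3) (hMT : MTq) (B ε : ℝ) (hε : 0 < ε) : ∃ M : ℕ, ∀ n ≥ M,
    ∀ a b : ℤ, 0 < b → (b : ℝ) ≤ B ^ n →
      Real.exp (-(ε * n)) / (b * max (b : ℝ) (2 ^ n)) ≤ ‖tt n - (a : ℂ) / b‖ := by
  obtain ⟨C, M₁, hC, h1⟩ := Pool.Agent.Work.MP_f1a024_nt.AH.bounded
  set B₁ : ℝ := max |B| 2 with hB₁
  have hB2 : 2 ≤ B₁ := le_max_right _ _
  obtain ⟨M₂, h2⟩ := hMT 1 2 ((1 + C) * B₁) (ε / 2) two_pos (Cor_theta1 hZ3) (half_pos hε)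
  -- `1 + C ≤ exp (ε n / 2)` for large `n`
  obtain ⟨M₃, hM₃⟩ := exists_nat_ge (Real.log (1 + C) / (ε / 2))
  refine ⟨max 1 (max M₁ (max M₂ M₃)), fun n hn a b hb hbB => ?_⟩
  have hn1 : 1 ≤ n := (le_max_left _ _).trans hn
  have hnM₁ : M₁ ≤ n := ((le_max_left _ _).trans (le_max_right _ _)).trans hn
  have hnM₂ : M₂ ≤ n :=
    (((le_max_left _ _).trans (le_max_right _ _)).trans (le_max_right _ _)).trans hn
  have hnM₃ : M₃ ≤ n :=
    (((le_max_right _ _).trans (le_max_right _ _)).trans (le_max_right _ _)).trans hn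
  have hb' : (0 : ℝ) < b := by exact_mod_cast hb
  have hb1 : (1 : ℝ) ≤ b := by exact_mod_cast hb
  have h2n : (1 : ℝ) ≤ 2 ^ n := one_le_pow₀ (by norm_num)
  have hmax : (1 : ℝ) ≤ max (b : ℝ) (2 ^ n) := h2n.trans (le_max_right _ _)
  have hexp1 : Real.exp (-(ε * n)) ≤ 1 := by
    rw [Real.exp_le_one_iff]; have : 0 ≤ ε * n := by positivity
    linarith
  have hexpC : (1 + C) * Real.exp (-(ε * n)) ≤ Real.exp (-(ε / 2 * n)) := by
    have h3 : Real.log (1 + C) ≤ ε / 2 * n := by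
      have h4 : Real.log (1 + C) / (ε / 2) ≤ n := hM₃.trans (by exact_mod_cast hnM₃)
      rw [div_le_iff₀ (half_pos hε)] at h4
      linarith
    have h5 : (1 + C) ≤ Real.exp (ε / 2 * n) := by
      rw [← Real.log_le_iff_le_exp (by positivity)]; exact h3
    calc (1 + C) * Real.exp (-(ε * n)) ≤ Real.exp (ε / 2 * n) * Real.exp (-(ε * n)) :=
          mul_le_mul_of_nonneg_right h5 (Real.exp_pos _).le
      _ = Real.exp (-(ε / 2 * n)) := by rw [← Real.exp_add]; congr 1; ring
  have hbC : ‖(b : ℂ)‖ = b := by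
    rw [Complex.norm_intCast, abs_of_pos hb']
  have hb0 : (b : ℂ) ≠ 0 := by exact_mod_cast hb.ne'
  have hsplit : ‖(b : ℂ) * tt n - a‖ = b * ‖tt n - (a : ℂ) / b‖ := by
    rw [← hbC, ← norm_mul]
    congr 1
    field_simp
  have hco0 : (Polynomial.C b * Polynomial.X - Polynomial.C a : Polynomial ℤ).coeff 0 = -a := by
    rw [Polynomial.coeff_sub, Polynomial.coeff_C_mul, Polynomial.coeff_X, Polynomial.coeff_C]
    simp
  have hco1 : (Polynomial.C b * Polynomial.X - Polynomial.C a : Polynomial ℤ).coeff (0 + 1) = b := by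
    rw [Polynomial.coeff_sub, Polynomial.coeff_C_mul, Polynomial.coeff_X, Polynomial.coeff_C]
    simp
  by_cases ha : |(a : ℝ)| ≤ (1 + C) * b
  · set H : ℝ := (1 + C) * max (b : ℝ) (2 ^ n) with hH
    have hHpos : 0 < H := by positivity
    have hP : (Polynomial.C b * Polynomial.X - Polynomial.C a : Polynomial ℤ) ≠ 0 := by
      intro h0
      rw [h0, Polynomial.coeff_zero] at hco1
      omega
    have hdeg : (Polynomial.C b * Polynomial.X - Polynomial.C a : Polynomial ℤ).natDegree ≤ 1 := by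
      refine (Polynomial.natDegree_sub_le _ _).trans (max_le ?_ ?_)
      · exact (Polynomial.natDegree_C_mul_le _ _).trans Polynomial.natDegree_X_le
      · simp
    have hcoeff : ∀ i, |(((Polynomial.C b * Polynomial.X - Polynomial.C a :
        Polynomial ℤ).coeff i : ℤ) : ℝ)| ≤ H := by
      intro i
      rcases i with _ | _ | i
      · rw [hco0, Int.cast_neg, abs_neg]
        exact ha.trans (mul_le_mul_of_nonneg_left (le_max_left _ _) (by positivity))
      · rw [hco1, abs_of_pos hb']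
        calc (b : ℝ) ≤ max (b : ℝ) (2 ^ n) := le_max_left _ _
          _ ≤ H := le_mul_of_one_le_left (by positivity) (by linarith)
      · have h5 : (Polynomial.C b * Polynomial.X - Polynomial.C a : Polynomial ℤ).coeff
            (i + 1 + 1) = 0 := by
          rw [Polynomial.coeff_sub, Polynomial.coeff_C_mul, Polynomial.coeff_X,
            Polynomial.coeff_C]
          simp
        rw [h5]
        simpa using hHpos.le
    have hθH : (2 : ℝ) ^ n ≤ H :=
      (le_max_right _ _).trans (le_mul_of_one_le_left (by positivity) (by linarith))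
    have hHB : H ≤ ((1 + C) * B₁) ^ n := by
      rw [mul_pow]
      refine mul_le_mul (le_self_pow₀ (by linarith) (by omega)) (max_le ?_ ?_) (by positivity)
        (by positivity)
      · refine hbB.trans ((le_abs_self _).trans ?_)
        rw [abs_pow]
        exact pow_le_pow_left₀ (abs_nonneg _) (le_max_left _ _) n
      · exact pow_le_pow_left₀ (by norm_num) hB2 n
    have h3 := h2 n hnM₂ _ H hP hdeg hcoeff hθH hHB
    have h4 : ((Polynomial.C b * Polynomial.X - Polynomial.C a : Polynomial ℤ).map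
        (Int.castRingHom ℂ)).eval (riemannZeta (2 * n) / riemannZeta n ^ 2) =
        (b : ℂ) * tt n - a := by
      simp [tt]
    rw [h4, hsplit, pow_one] at h3
    rw [div_le_iff₀ (by positivity)]
    have h6 : Real.exp (-(ε / 2 * n)) ≤ b * ‖tt n - (a : ℂ) / b‖ * H := by
      rw [← div_eq_mul_inv, div_le_iff₀ hHpos] at h3
      exact h3
    have h7 : (1 + C) * Real.exp (-(ε * n)) ≤
        (1 + C) * (‖tt n - (a : ℂ) / b‖ * (b * max (b : ℝ) (2 ^ n))) := by
      refine (hexpC.trans h6).trans (le_of_eq ?_)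
      rw [hH]; ring
    exact le_of_mul_le_mul_left h7 (by linarith)
  · push Not at ha
    have h6 : 1 < ‖tt n - (a : ℂ) / b‖ := by
      have h7 : ‖(a : ℂ) / b‖ ≤ ‖tt n - (a : ℂ) / b‖ + ‖tt n‖ := by
        have := norm_sub_le (tt n) (tt n - (a : ℂ) / b)
        rw [sub_sub_cancel] at this
        linarith
      have h8 : ‖(a : ℂ) / b‖ = |(a : ℝ)| / b := by
        rw [norm_div, hbC, Complex.norm_intCast]
      have h9 : (1 + C) < |(a : ℝ)| / b := by
        rw [lt_div_iff₀ hb']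
        exact ha
      have h10 := h1 n hnM₁
      rw [h8] at h7
      linarith
    refine le_trans ?_ h6.le
    rw [div_le_one (by positivity)]
    exact hexp1.trans (one_le_mul_of_one_le_of_one_le hb1 hmax)

end Pool.Agent.Work.MP_f1a024_nt.RW
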