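import Pool.Agent.Work.MP_f1a024_nt.RW.Stmts

/-!
# Block RW, item Z3: powers and products of primes (Bertrand's postulate)
-/

namespace Pool.Agent.Work.MP_f1a024_nt.RW

open Finset

/-- the product of the primes below `x` -/
noncomputable def Z3_P (x : ℝ) : ℕ := ∏ p ∈ (range ⌈x⌉₊).filter Nat.Prime, p

theorem Z3_P_pos (x : ℝ) : 0 < Z3_P x :=
  Finset.prod_pos fun _ hp => (Finset.mem_filter.1 hp).2.pos

theorem Z3_mem (x : ℝ) (p : ℕ) :
    p ∈ (range ⌈x⌉₊).filter Nat.Prime ↔ p.Prime ∧ (p : ℝ) < x := by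
  rw [Finset.mem_filter, Finset.mem_range, Nat.lt_ceil, and_comm]

theorem Z3_step (x : ℝ) (hx : 2 < x) : (x / 2) * (Z3_P (x / 2) : ℝ) ≤ (Z3_P x : ℝ) := by
  have hz : 1 < x / 2 := by linarith
  obtain ⟨n, hn⟩ : ∃ n : ℕ, ⌈x / 2⌉₊ = n + 1 := by
    have h1 : 0 < ⌈x / 2⌉₊ := Nat.ceil_pos.2 (by linarith)
    exact ⟨⌈x / 2⌉₊ - 1, by omega⟩
  have hn1 : (n : ℝ) < x / 2 := by
    rw [← Nat.lt_ceil, hn]
    exact Nat.lt_succ_self n
  have hn2 : x / 2 ≤ (n : ℝ) + 1 := by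
    have := Nat.le_ceil (x / 2)
    rw [hn] at this
    exact_mod_cast this
  have hn0 : n ≠ 0 := by
    rintro rfl
    rw [Nat.cast_zero, zero_add] at hn2
    linarith
  obtain ⟨p, hp, hp1, hp2⟩ := Nat.exists_prime_lt_and_le_two_mul n hn0
  have hpz : x / 2 ≤ (p : ℝ) := by
    have h1 : ((n + 1 : ℕ) : ℝ) ≤ (p : ℝ) := by exact_mod_cast hp1
    push_cast at h1
    linarith
  have hpx : (p : ℝ) < x := by
    have h1 : (p : ℝ) ≤ ((2 * n : ℕ) : ℝ) := by exact_mod_cast hp2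
    push_cast at h1
    linarith
  have hnot : p ∉ (range ⌈x / 2⌉₊).filter Nat.Prime := by
    rw [Z3_mem]
    rintro ⟨-, h⟩
    linarith
  have hsub : insert p ((range ⌈x / 2⌉₊).filter Nat.Prime) ⊆ (range ⌈x⌉₊).filter Nat.Prime := by
    intro q hq
    rw [Z3_mem]
    rcases Finset.mem_insert.1 hq with rfl | hq
    · exact ⟨hp, hpx⟩
    · rw [Z3_mem] at hq
      exact ⟨hq.1, by linarith [hq.2]⟩
  have hdvd := Finset.prod_dvd_prod_of_subset _ _ (fun q : ℕ => q) hsub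
  rw [Finset.prod_insert hnot] at hdvd
  have hle : p * Z3_P (x / 2) ≤ Z3_P x := Nat.le_of_dvd (Z3_P_pos x) hdvd
  have hle' : (p : ℝ) * (Z3_P (x / 2) : ℝ) ≤ (Z3_P x : ℝ) := by exact_mod_cast hle
  exact (mul_le_mul_of_nonneg_right hpz (Nat.cast_nonneg _)).trans hle'

theorem Z3_tri (i : ℕ) : (i + 1) * (i + 1 + 1) / 2 = i * (i + 1) / 2 + (i + 1) := by
  have h : (i + 1) * (i + 1 + 1) = i * (i + 1) + 2 * (i + 1) := by ring
  rw [h, Nat.add_mul_div_left _ _ (by norm_num)]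

theorem Z3_pow (i : ℕ) : ∀ x : ℝ, 0 < x → x ^ i ≤ 2 ^ (i * (i + 1) / 2) * (Z3_P x : ℝ) := by
  induction i with
  | zero =>
    intro x _
    have h1 : (1 : ℝ) ≤ (Z3_P x : ℝ) := by exact_mod_cast Z3_P_pos x
    simpa using h1
  | succ i ih =>
    intro x hx
    have h1 : (1 : ℝ) ≤ (Z3_P x : ℝ) := by exact_mod_cast Z3_P_pos x
    rw [Z3_tri]
    rcases le_or_gt x 2 with h2 | h2
    · calc x ^ (i + 1) ≤ 2 ^ (i + 1) := pow_le_pow_left₀ hx.le h2 _
        _ ≤ 2 ^ (i * (i + 1) / 2 + (i + 1)) :=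
            pow_le_pow_right₀ (by norm_num) (Nat.le_add_left _ _)
        _ ≤ 2 ^ (i * (i + 1) / 2 + (i + 1)) * (Z3_P x : ℝ) :=
            le_mul_of_one_le_right (by positivity) h1
    · have h3 := ih (x / 2) (by linarith)
      have h4 := Z3_step x h2
      have h5 : x ^ (i + 1) = 2 ^ (i + 1) * ((x / 2) ^ i * (x / 2)) := by
        rw [← pow_succ, ← mul_pow]
        congr 1
        ring
      rw [h5, pow_add (2 : ℝ) (i * (i + 1) / 2) (i + 1)]
      have h6 : (x / 2) ^ i * (x / 2) ≤ 2 ^ (i * (i + 1) / 2) * (Z3_P x : ℝ) := by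
        calc (x / 2) ^ i * (x / 2) ≤ 2 ^ (i * (i + 1) / 2) * (Z3_P (x / 2) : ℝ) * (x / 2) :=
              mul_le_mul_of_nonneg_right h3 (by linarith)
          _ = 2 ^ (i * (i + 1) / 2) * (x / 2 * (Z3_P (x / 2) : ℝ)) := by ring
          _ ≤ 2 ^ (i * (i + 1) / 2) * (Z3_P x : ℝ) :=
              mul_le_mul_of_nonneg_left h4 (by positivity)
      calc (2 : ℝ) ^ (i + 1) * ((x / 2) ^ i * (x / 2)) ≤
            2 ^ (i + 1) * (2 ^ (i * (i + 1) / 2) * (Z3_P x : ℝ)) :=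
            mul_le_mul_of_nonneg_left h6 (by positivity)
        _ = 2 ^ (i * (i + 1) / 2) * 2 ^ (i + 1) * (Z3_P x : ℝ) := by ring

theorem prfZ3 : Z3 := by
  intro r k m hr hm hmk
  have hm' : (0 : ℝ) < m := by exact_mod_cast hm
  have hk' : (0 : ℝ) < k := by exact_mod_cast lt_of_lt_of_le hm hmk
  have hr0 : r ≠ 0 := by omega
  obtain ⟨x, hx⟩ : ∃ x : ℝ, x = ((k : ℝ) / m) ^ ((r : ℝ)⁻¹) := ⟨_, rfl⟩
  have hx0 : 0 < x := by
    rw [hx]
    positivity
  have hxr : x ^ r = (k : ℝ) / m := by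
    rw [hx]
    exact Real.rpow_inv_natCast_pow (by positivity) hr0
  have hset : (range k).filter (fun p => p.Prime ∧ m * p ^ r < k) =
      (range ⌈x⌉₊).filter Nat.Prime := by
    ext p
    rw [Z3_mem, Finset.mem_filter, Finset.mem_range]
    have h1 : (p : ℝ) < x ↔ m * p ^ r < k := by
      rw [← pow_lt_pow_iff_left₀ (Nat.cast_nonneg p) hx0.le hr0, hxr, lt_div_iff₀ hm']
      constructor
      · intro h
        have h2 : ((m * p ^ r : ℕ) : ℝ) < (k : ℝ) := by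
          push_cast
          linarith
        exact_mod_cast h2
      · intro h
        have h2 : ((m * p ^ r : ℕ) : ℝ) < (k : ℝ) := by exact_mod_cast h
        push_cast at h2
        linarith
    rw [h1]
    constructor
    · rintro ⟨-, h⟩
      exact h
    · rintro ⟨h2, h3⟩
      refine ⟨?_, h2, h3⟩
      calc p ≤ p ^ r := Nat.le_self_pow hr0 p
        _ ≤ m * p ^ r := Nat.le_mul_of_pos_left _ hm
        _ < k := h3
  rw [hset]
  have h1 := Z3_pow r x hx0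
  rw [hxr, div_le_iff₀ hm'] at h1
  unfold Z3_P at h1
  rw [Nat.cast_prod] at h1
  linarith

end Pool.Agent.Work.MP_f1a024_nt.RW
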