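import Pool.Agent.Work.MP_f1a024_nt.RW.StmtsJ

/-!
# Block WJ, item VLJ: values of the family (helper34)
-/

set_option autoImplicit false

namespace Pool.Agent.Work.MP_f1a024_nt.RW

open Finset MvPolynomial Filter
open Pool.Agent.Work.MP_f1a024_nt.AH (tau PG val D1 D2 D4 D10a D10b)

theorem VLJ_ft_apply (s m : ℕ) : ft s m = tau m / (m : ℚ) ^ s := rfl

theorem VLJ_pg_ft (h : PG tau) (s : ℕ) : PG (ft s) := by
  obtain ⟨C, A, hC⟩ := h
  refine ⟨C, A, fun m => le_trans ?_ (hC m)⟩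
  rw [VLJ_ft_apply]
  push_cast
  rw [abs_div]
  rcases Nat.eq_zero_or_pos m with rfl | hm
  · simp
  · have h1 : (1 : ℝ) ≤ |(m : ℝ) ^ s| := by
      rw [abs_of_nonneg (by positivity)]
      exact one_le_pow₀ (by exact_mod_cast hm)
    exact div_le_self (abs_nonneg _) h1

theorem VLJ_val_ft (s n : ℕ) : val (ft s) n = val tau (n + s) := by
  unfold Pool.Agent.Work.MP_f1a024_nt.AH.val
  refine tsum_congr fun m => ?_
  rw [VLJ_ft_apply]
  push_cast
  rw [div_div, pow_add, mul_comm ((m : ℝ) ^ s)]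

theorem VLJ_val_one (n : ℕ) : val 1 n = 1 := by
  unfold Pool.Agent.Work.MP_f1a024_nt.AH.val
  rw [tsum_eq_single 1]
  · simp
  · intro k hk
    rw [ArithmeticFunction.one_apply_ne hk]
    simp

theorem VLJ_prod (hD1 : D1) (hD2 : D2) {ι : Type} (t : Finset ι) (g : ι → ArithmeticFunction ℚ)
    (hg : ∀ j, PG (g j)) : PG (∏ j ∈ t, g j) ∧
      ∃ M : ℕ, ∀ m ≥ M, val (∏ j ∈ t, g j) m = ∏ j ∈ t, val (g j) m := by
  induction t using Finset.cons_induction with
  | empty =>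
    refine ⟨?_, 0, fun m _ => ?_⟩
    · rw [Finset.prod_empty]
      exact hD1.2.2.1 _ hD1.2.2.2.2.2
    · rw [Finset.prod_empty, Finset.prod_empty]
      exact VLJ_val_one m
  | cons a t ha ih =>
    obtain ⟨h1, M, hM⟩ := ih
    obtain ⟨M', hM'⟩ := hD2.2.2 (g a) (∏ j ∈ t, g j) (hg a) h1
    refine ⟨?_, max M M', fun m hm => ?_⟩
    · rw [Finset.prod_cons]
      exact hD1.1 _ _ (hg a) h1
    · rw [Finset.prod_cons, Finset.prod_cons, hM' m (le_trans (le_max_right _ _) hm),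
        hM m (le_trans (le_max_left _ _) hm)]

theorem VLJ_pow (hD1 : D1) (hD2 : D2) (g : ArithmeticFunction ℚ) (hg : PG g) (i : ℕ) :
    PG (g ^ i) ∧ ∃ M : ℕ, ∀ m ≥ M, val (g ^ i) m = val g m ^ i := by
  have h := VLJ_prod hD1 hD2 (Finset.range i) (fun _ => g) (fun _ => hg)
  simpa only [Finset.prod_const, Finset.card_range] using h

/-- item VLJ -/
theorem prfVLJ : VLJ := by
  intro hD1 hD2 hD10a k D d s A
  have hft : ∀ j, PG (ft (s j)) := fun j => VLJ_pg_ft hD10a.1 (s j)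
  have hpw : ∀ (i : Fin (d + 1)) (j : Fin (k + 1)), PG (ft (s j) ^ (A i j : ℕ)) :=
    fun i j => (VLJ_pow hD1 hD2 _ (hft j) _).1
  refine ⟨fun i => (VLJ_prod hD1 hD2 univ (fun j => ft (s j) ^ (A i j : ℕ)) (hpw i)).1, ?_⟩
  have h1 : ∀ i : Fin (d + 1), ∃ M : ℕ, ∀ m ≥ M,
      val (fI s A i) m = ∏ j, val (ft (s j) ^ (A i j : ℕ)) m :=
    fun i => (VLJ_prod hD1 hD2 univ (fun j => ft (s j) ^ (A i j : ℕ)) (hpw i)).2
  have h2 : ∀ (i : Fin (d + 1)) (j : Fin (k + 1)), ∃ M : ℕ, ∀ m ≥ M,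
      val (ft (s j) ^ (A i j : ℕ)) m = val (ft (s j)) m ^ (A i j : ℕ) :=
    fun i j => (VLJ_pow hD1 hD2 _ (hft j) _).2
  obtain ⟨M₀, hM₀⟩ := hD10a.2
  choose a ha using h1
  choose b hb using h2
  refine ⟨max M₀ (max (univ.sup a) (univ.sup fun i => univ.sup (b i))), ?_⟩
  intro n hn i
  have hn0 : M₀ ≤ n := le_trans (le_max_left _ _) hn
  have hn1 : a i ≤ n := le_trans (Finset.le_sup (f := a) (mem_univ i))
    (le_trans (le_trans (le_max_left _ _) (le_max_right _ _)) hn)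
  have hn2 : ∀ j, b i j ≤ n := fun j => le_trans (Finset.le_sup (f := b i) (mem_univ j))
    (le_trans (Finset.le_sup (f := fun i => univ.sup (b i)) (mem_univ i))
      (le_trans (le_trans (le_max_right _ _) (le_max_right _ _)) hn))
  rw [ha i n hn1, Complex.ofReal_prod]
  refine Finset.prod_congr rfl fun j _ => ?_
  rw [hb i j n (hn2 j), Complex.ofReal_pow, VLJ_val_ft,
    hM₀ (n + s j) (le_trans hn0 (Nat.le_add_right _ _))]

end Pool.Agent.Work.MP_f1a024_nt.RW
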