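import Pool.Agent.Work.MP_f1a024_nt.RW.Stmts

/-!
# Block RW, item Z2: the zero estimate
-/

namespace Pool.Agent.Work.MP_f1a024_nt.RW

open Finset MvPolynomial Filter
open Pool.Agent.Work.MP_f1a024_nt.AH (tau PG val D1 D2 D4 D10a D10b)

theorem Z2_coeff_dt {d : ℕ} (u : Fin (d + 1) → Rg) (y : Fin (d + 1) → ℤ) (κ : Ex) :
    (dt u y).coeff κ = ∑ i, (u i).coeff κ * (y i : ℚ) := by
  unfold dt
  rw [MvPolynomial.coeff_sum]
  refine Finset.sum_congr rfl fun i _ => ?_
  have h : ((y i : ℤ) : Rg) = MvPolynomial.C (y i : ℚ) := by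
    rw [map_intCast]
  rw [h, mul_comm, MvPolynomial.coeff_C_mul, mul_comm]

theorem Z2_uv (hNB : NB) (hUB : UB) {d : ℕ} (u : Fin (d + 1) → Rg) (κ : Ex) (p : Nat.Primes)
    (h2 : ∀ i, ∀ b ∈ (u i).support, nn κ ≤ nn b) (h3 : up u p = κ p) (e : ℕ) :
    uv u (nn κ * (p : ℕ) ^ e) = ∑ i, (u i).coeff κ * (tau ^ (i : ℕ)) ((p : ℕ) ^ e) := by
  obtain ⟨-, hadd, hpos, -, hnnex, hexnn, hle, -, hsing, -, -⟩ := hNB
  obtain ⟨-, -, hup1, -, hup, -, -⟩ := hUB
  have hppos : 0 < (p : ℕ) ^ e := pow_pos p.2.pos e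
  unfold uv
  rw [Finset.sum_eq_single (nn κ, (p : ℕ) ^ e)]
  · simp only [hexnn]
  · rintro ⟨m₁, m₂⟩ hmem hne
    rw [Nat.mem_divisorsAntidiagonal] at hmem
    obtain ⟨hprod, hnz⟩ := hmem
    have hprod' : m₁ * m₂ = nn κ * (p : ℕ) ^ e := hprod
    have hm₁ : 0 < m₁ := by
      rcases Nat.eq_zero_or_pos m₁ with h | h
      · subst h
        rw [Nat.zero_mul] at hprod'
        exact absurd hprod'.symm hnz
      · exact h
    refine Finset.sum_eq_zero fun i _ => ?_
    by_cases hc : (u i).coeff (ex m₁) = 0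
    · show (u i).coeff (ex m₁) * _ = 0
      rw [hc, zero_mul]
    · exfalso
      have hs : ex m₁ ∈ (u i).support := MvPolynomial.mem_support_iff.mpr hc
      have h4 : nn κ ≤ m₁ := by
        have := h2 i _ hs
        rwa [hnnex m₁ hm₁] at this
      have h5 : ex m₁ ≤ up u := le_trans (hup1 _ _ hs) (hup _ u i)
      have h6 : ex m₁ ≤ κ + Finsupp.single p e := by
        rw [hle, hnnex m₁ hm₁, hadd, hsing]
        exact ⟨m₂, hprod'.symm⟩
      have h7 : ex m₁ ≤ κ := by
        intro q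
        by_cases hq : q = p
        · subst hq
          rw [← h3]
          exact h5 q
        · have := h6 q
          rw [Finsupp.add_apply, Finsupp.single_eq_of_ne hq, add_zero] at this
          exact this
      have h8 : m₁ ∣ nn κ := by
        have := (hle _ _).mp h7
        rwa [hnnex m₁ hm₁] at this
      have h9 : m₁ = nn κ := le_antisymm (Nat.le_of_dvd (hpos κ) h8) h4
      have h10 : m₂ = (p : ℕ) ^ e := by
        rw [h9] at hprod'
        exact Nat.eq_of_mul_eq_mul_left (hpos κ) hprod'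
      exact hne (by rw [h9, h10])
  · intro h
    exfalso
    apply h
    rw [Nat.mem_divisorsAntidiagonal]
    exact ⟨rfl, (Nat.mul_pos (hpos κ) hppos).ne'⟩

/-- item Z2 -/
theorem prfZ2 (hNB : NB) (hUB : UB) : Z2 := by
  intro d r m u a κ p h1 h2 h3 h4 h5
  by_contra hcon
  push Not at hcon
  have hz := h4 (fun i => (u i).coeff κ)
    (fun e he => by rw [← Z2_uv hNB hUB u κ p h2 h3 e]; exact hcon e he)
    (fun l => by rw [← Z2_coeff_dt, h5 l, MvPolynomial.coeff_zero])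
  obtain ⟨i, hi⟩ := h1
  exact (MvPolynomial.mem_support_iff.mp hi) (congrFun hz i)

end Pool.Agent.Work.MP_f1a024_nt.RW
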