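import Pool.Agent.Work.MP_f1a024_nt.RW.StmtsK

/-! # Item AKU of block WJ: the coefficients of a combination by exponents -/

set_option autoImplicit false

namespace Pool.Agent.Work.MP_f1a024_nt.RW

open Finset MvPolynomial Filter
open Pool.Agent.Work.MP_f1a024_nt.AH (tau PG val D1 D2 D4 D10a D10b)

/-- the two factors of a positive number are positive -/
theorem AKU_pos {m : ℕ} {ab : ℕ × ℕ} (h : ab ∈ m.divisorsAntidiagonal) :
    0 < ab.1 ∧ 0 < ab.2 := by
  rw [Nat.mem_divisorsAntidiagonal] at h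
  obtain ⟨h1, h2⟩ := h
  constructor
  · apply Nat.pos_of_ne_zero
    intro e
    rw [e, zero_mul] at h1
    exact h2 h1.symm
  · apply Nat.pos_of_ne_zero
    intro e
    rw [e, mul_zero] at h1
    exact h2 h1.symm

/-- AKU -/
theorem prfAKU (h : NB) : AKU := by
  obtain ⟨h0, hadd, hpos, hinj, hnnex, hexnn, -, -, -, hexmul, -⟩ := h
  intro d f u x
  unfold uvJ AK
  rw [Finset.sum_comm (s := (univ : Finset (Fin (d + 1))))]
  refine Finset.sum_nbij' (fun ab => (ex ab.1, ex ab.2)) (fun y => (nn y.1, nn y.2))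
    ?_ ?_ ?_ ?_ ?_
  · intro ab hab
    obtain ⟨p1, p2⟩ := AKU_pos hab
    rw [Nat.mem_divisorsAntidiagonal] at hab
    rw [Finset.HasAntidiagonal.mem_antidiagonal]
    show ex ab.1 + ex ab.2 = x
    rw [← hexmul _ _ p1 p2, hab.1, hexnn]
  · intro y hy
    rw [Finset.HasAntidiagonal.mem_antidiagonal] at hy
    rw [Nat.mem_divisorsAntidiagonal]
    refine ⟨?_, (hpos x).ne'⟩
    show nn y.1 * nn y.2 = nn x
    rw [← hadd, hy]
  · intro ab hab
    obtain ⟨p1, p2⟩ := AKU_pos hab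
    show (nn (ex ab.1), nn (ex ab.2)) = ab
    rw [hnnex _ p1, hnnex _ p2]
  · intro y _
    show (ex (nn y.1), ex (nn y.2)) = y
    rw [hexnn, hexnn]
  · intro ab hab
    obtain ⟨p1, p2⟩ := AKU_pos hab
    refine Finset.sum_congr rfl fun i _ => ?_
    show (u i).coeff (ex ab.1) * f i ab.2 = (u i).coeff (ex ab.1) * f i (nn (ex ab.2))
    rw [hnnex _ p2]

end Pool.Agent.Work.MP_f1a024_nt.RW
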