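import Pool.Agent.Work.MP_f1a024_nt.RW.StmtsK

/-! # Block WJ, second round, item ARK: the primes `P B` -/

set_option autoImplicit false

namespace Pool.Agent.Work.MP_f1a024_nt.RW

open Finset MvPolynomial Filter
open Pool.Agent.Work.MP_f1a024_nt.AH (tau PG val D1 D2 D4 D10a D10b)

/-- the primes below `P` -/
def ARK_T (P : ℕ) : Finset Nat.Primes :=
  Finset.subtype (fun p : ℕ => p.Prime) ((range P).filter Nat.Prime)

theorem ARK_memT (P : ℕ) (q : Nat.Primes) : q ∈ ARK_T P ↔ (q : ℕ) < P := by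
  have h0 : q ∈ ARK_T P ↔ (q : ℕ) ∈ (range P).filter Nat.Prime := Finset.mem_subtype
  rw [h0, Finset.mem_filter, Finset.mem_range]
  exact ⟨fun h => h.1, fun h => ⟨h, q.2⟩⟩

theorem ARK_nn_sum (hNB : NB) (T : Finset Nat.Primes) :
    nn (∑ q ∈ T, Finsupp.single q 1) = ∏ q ∈ T, (q : ℕ) := by
  classical
  obtain ⟨h0, h1, -, -, -, -, -, -, h2, -⟩ := hNB
  induction T using Finset.induction_on with
  | empty => rw [Finset.sum_empty, Finset.prod_empty, h0]
  | insert q T hq ih =>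
    rw [Finset.sum_insert hq, Finset.prod_insert hq, h1, ih, h2, pow_one]

theorem ARK_sum_single (T : Finset Nat.Primes) (q : Nat.Primes) :
    (∑ q' ∈ T, Finsupp.single q' 1 : Ex) q = if q ∈ T then 1 else 0 := by
  classical
  rw [Finsupp.finsetSum_apply]
  simp only [Finsupp.single_apply]
  rw [Finset.sum_ite_eq']

theorem ARK_nn_fsum (hNB : NB) (S : Finset ℕ) (E : ℕ → Ex) :
    nn (∑ B ∈ S, E B) = ∏ B ∈ S, nn (E B) := by
  classical
  obtain ⟨h0, h1, -⟩ := hNB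
  induction S using Finset.induction_on with
  | empty => rw [Finset.sum_empty, Finset.prod_empty, h0]
  | insert q T hq ih =>
    rw [Finset.sum_insert hq, Finset.prod_insert hq, h1, ih]

/-- Bertrand -/
theorem ARK_bertrand (P : ℕ) (hP : P.Prime) : P ≤ 2 * ∏ q ∈ ARK_T P, (q : ℕ) := by
  have hpos : 0 < ∏ q ∈ ARK_T P, (q : ℕ) := Finset.prod_pos fun q _ => q.2.pos
  obtain ⟨p, hp, h1, h2⟩ := Nat.exists_prime_lt_and_le_two_mul _ hpos.ne'
  refine le_trans ?_ h2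
  by_contra hlt
  push Not at hlt
  have h3 : (⟨p, hp⟩ : Nat.Primes) ∈ ARK_T P := (ARK_memT P ⟨p, hp⟩).2 hlt
  have h4 : ((⟨p, hp⟩ : Nat.Primes) : ℕ) ∣ ∏ q ∈ ARK_T P, (q : ℕ) :=
    Finset.dvd_prod_of_mem (fun q : Nat.Primes => (q : ℕ)) h3
  have h5 : p ≤ ∏ q ∈ ARK_T P, (q : ℕ) := Nat.le_of_dvd hpos h4
  omega

theorem prfARK (hNB : NB) : ARK := by
  classical
  intro κ U hκU
  have hex : ∀ B : ℕ, ∃ q : ℕ, ∃ hq : q.Prime, U ⟨q, hq⟩ - κ ⟨q, hq⟩ < max B 1 := by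
    intro B
    obtain ⟨p0, hp0⟩ := Infinite.exists_notMem_finset U.support
    refine ⟨p0, p0.2, ?_⟩
    have h1 : U p0 = 0 := Finsupp.notMem_support_iff.1 hp0
    have h2 : U ⟨(p0 : ℕ), p0.2⟩ = 0 := h1
    rw [h2, Nat.zero_sub]
    exact lt_of_lt_of_le Nat.zero_lt_one (le_max_right _ _)
  have hspec := fun B => Nat.find_spec (hex B)
  set Pn : ℕ → ℕ := fun B => Nat.find (hex B) with hPn
  have hmin : ∀ B : ℕ, ∀ q : Nat.Primes, (q : ℕ) < Pn B → max B 1 ≤ U q - κ q := by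
    intro B q hq
    by_contra hcon
    push Not at hcon
    exact Nat.find_min (hex B) hq ⟨q.2, hcon⟩
  have hprime : ∀ B, (Pn B).Prime := fun B => (hspec B).1
  refine ⟨fun B => ⟨Pn B, hprime B⟩, ?_, ?_, ?_⟩
  · intro B hB
    obtain ⟨hq, h1⟩ := hspec B
    exact lt_of_lt_of_eq h1 (max_eq_left hB)
  · intro B B' hBB'
    show Pn B' ≤ Pn B
    refine Nat.find_min' (hex B') ?_
    obtain ⟨hq, h1⟩ := hspec B
    exact ⟨hq, lt_of_lt_of_le h1 (max_le_max hBB' le_rfl)⟩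
  · intro r
    show nn κ * ∏ B ∈ Finset.Icc 1 r, Pn B ≤ 2 ^ r * nn U
    obtain ⟨-, hadd, hpos, -, -, -, hdvd, -⟩ := id hNB
    have h1 : ∏ B ∈ Finset.Icc 1 r, Pn B ≤
        ∏ B ∈ Finset.Icc 1 r, (2 * ∏ q ∈ ARK_T (Pn B), (q : ℕ)) :=
      Finset.prod_le_prod (fun _ _ => Nat.zero_le _) fun B _ => ARK_bertrand _ (hprime B)
    rw [Finset.prod_mul_distrib, Finset.prod_const, Nat.card_Icc, Nat.add_sub_cancel] at h1
    set E : ℕ → Ex := fun B => ∑ q ∈ ARK_T (Pn B), Finsupp.single q 1 with hE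
    have h2 : ∏ B ∈ Finset.Icc 1 r, ∏ q ∈ ARK_T (Pn B), (q : ℕ) =
        nn (∑ B ∈ Finset.Icc 1 r, E B) := by
      rw [ARK_nn_fsum hNB]
      refine Finset.prod_congr rfl fun B _ => ?_
      exact (ARK_nn_sum hNB _).symm
    have h3 : κ + ∑ B ∈ Finset.Icc 1 r, E B ≤ U := by
      intro q
      rw [Finsupp.add_apply, Finsupp.finsetSum_apply]
      have h4 : ∑ B ∈ Finset.Icc 1 r, E B q =
          ((Finset.Icc 1 r).filter fun B => (q : ℕ) < Pn B).card := by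
        rw [Finset.card_filter]
        refine Finset.sum_congr rfl fun B _ => ?_
        show (∑ q' ∈ ARK_T (Pn B), Finsupp.single q' 1 : Ex) q = _
        rw [ARK_sum_single]
        by_cases hq : (q : ℕ) < Pn B
        · rw [if_pos hq, if_pos ((ARK_memT _ _).2 hq)]
        · rw [if_neg hq, if_neg fun h => hq ((ARK_memT _ _).1 h)]
      rw [h4]
      have h5 : ((Finset.Icc 1 r).filter fun B => (q : ℕ) < Pn B) ⊆
          Finset.Icc 1 (U q - κ q) := by
        intro B hB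
        rw [Finset.mem_filter, Finset.mem_Icc] at hB
        rw [Finset.mem_Icc]
        exact ⟨hB.1.1, (le_max_left _ _).trans (hmin B q hB.2)⟩
      have h6 := Finset.card_le_card h5
      rw [Nat.card_Icc, Nat.add_sub_cancel] at h6
      have h7 := hκU q
      omega
    have h8 : nn κ * nn (∑ B ∈ Finset.Icc 1 r, E B) ≤ nn U := by
      rw [← hadd]
      exact Nat.le_of_dvd (hpos _) ((hdvd _ _).1 h3)
    calc nn κ * ∏ B ∈ Finset.Icc 1 r, Pn B
        ≤ nn κ * (2 ^ r * ∏ B ∈ Finset.Icc 1 r, ∏ q ∈ ARK_T (Pn B), (q : ℕ)) :=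
          Nat.mul_le_mul_left _ h1
      _ = 2 ^ r * (nn κ * nn (∑ B ∈ Finset.Icc 1 r, E B)) := by
          rw [h2]
          ring
      _ ≤ 2 ^ r * nn U := Nat.mul_le_mul_left _ h8

end Pool.Agent.Work.MP_f1a024_nt.RW
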