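import Pool.Agent.Work.MP_f1a024_nt.RW.Stmts

/-!
# Block RW: item AVD (integer vectors avoiding finitely many proper subspaces)
-/

set_option autoImplicit false

namespace Pool.Agent.Work.MP_f1a024_nt.RW

open Finset MvPolynomial Filter

theorem prfAVD : AVD := by
  intro N k V hV
  have h1 : (⋃ i, (V i : Set (Fin N → ℚ))) ≠ Set.univ := by
    intro h
    obtain ⟨i, hi⟩ := Subspace.exists_eq_top_of_iUnion_eq_univ h
    exact hV i hi
  obtain ⟨y, hy⟩ := (Set.ne_univ_iff_exists_notMem _).1 h1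
  rw [Set.mem_iUnion, not_exists] at hy
  obtain ⟨D, hD⟩ := IsLocalization.exist_integer_multiples_of_finite (nonZeroDivisors ℤ) y
  choose b hb using hD
  refine ⟨b, fun i hi => hy i ?_⟩
  have hD0 : ((D : ℤ) : ℚ) ≠ 0 := by
    exact_mod_cast nonZeroDivisors.ne_zero D.2
  have h2 : y = ((D : ℤ) : ℚ)⁻¹ • (fun j => (b j : ℚ)) := by
    funext j
    have h3 : (b j : ℚ) = ((D : ℤ) : ℚ) * y j := by
      have := hb j
      rw [zsmul_eq_mul] at this
      exact this
    rw [Pi.smul_apply, smul_eq_mul, h3, ← mul_assoc, inv_mul_cancel₀ hD0, one_mul]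
  rw [h2]
  exact (V i).smul_mem _ hi

end Pool.Agent.Work.MP_f1a024_nt.RW
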