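import Pool.Agent.Work.MP_f1a024_nt.RW.StmtsJ

/-!
# Item BIJ: the vectors of products of binomial coefficients are linearly independent
-/

namespace Pool.Agent.Work.MP_f1a024_nt.RW

open Finset MvPolynomial Filter
open Pool.Agent.Work.MP_f1a024_nt.AH (tau PG val D1 D2 D4 D10a D10b)

theorem prfBIJ : BIJ := by
  classical
  intro k D lam h
  by_contra hc
  push Not at hc
  obtain ⟨a0, ha0⟩ := hc
  obtain ⟨a, ha, hmin⟩ := Finset.exists_min_image
    (univ.filter fun α : Fin (k + 1) → Fin (D + 1) => lam α ≠ 0) wt ⟨a0, by simp [ha0]⟩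
  have hla : lam a ≠ 0 := by simpa using ha
  have hI := h a
  rw [Finset.sum_eq_single a] at hI
  · have hb : bi a a = 1 := by simp [bi]
    rw [hb, mul_one] at hI
    exact hla hI
  · intro b _ hb
    by_contra hne
    have h1 : lam b ≠ 0 := left_ne_zero_of_mul hne
    have h2 : bi b a ≠ 0 := right_ne_zero_of_mul hne
    have h3 : ∀ j, (b j : ℕ) ≤ (a j : ℕ) := by
      intro j
      by_contra hlt
      rw [not_le] at hlt
      apply h2
      unfold bi
      apply Finset.prod_eq_zero (Finset.mem_univ j)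
      rw [Nat.choose_eq_zero_of_lt hlt, Nat.cast_zero]
    have h4 : wt a ≤ wt b := hmin b (by simp [h1])
    have h5 : wt b ≤ wt a := Finset.sum_le_sum fun j _ => h3 j
    have h6 : ∀ j ∈ (univ : Finset (Fin (k + 1))), (b j : ℕ) = a j :=
      (Finset.sum_eq_sum_iff_of_le (fun j _ => h3 j)).mp (le_antisymm h5 h4)
    exact hb (funext fun j => Fin.ext (h6 j (Finset.mem_univ j)))
  · simp

end Pool.Agent.Work.MP_f1a024_nt.RW
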