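import Pool.Agent.Work.MP_f1a024_nt.RW.StmtsS

/-!
# Block WS, item CDS: the number of the exponents
-/

set_option autoImplicit false

namespace Pool.Agent.Work.MP_f1a024_nt.RW

open Finset

theorem prfCDS : CDS := by
  classical
  intro k D
  have h1 : (finsuppAntidiag (univ : Finset (Fin (k + 2))) D).card = (k + 2 + D - 1).choose D := by
    rw [card_finsuppAntidiag_nat_eq_choose, Finset.card_univ, Fintype.card_fin]
  have h2 : (D + k + 1).choose (k + 1) = (k + 2 + D - 1).choose D := by
    have e1 : k + 2 + D - 1 = D + (k + 1) := by omega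
    rw [e1, show D + k + 1 = D + (k + 1) by omega]
    exact (Nat.choose_symm_add).symm
  rw [h2, ← h1, ← Finset.card_univ]
  refine Finset.card_bij
    (fun α _ => Finsupp.equivFunOnFinite.symm
      (Fin.cons (D - wt α.1) (fun j => ((α.1 j : Fin (D + 1)) : ℕ)) : Fin (k + 2) → ℕ)) ?_ ?_ ?_
  · intro α _
    rw [mem_finsuppAntidiag]
    refine ⟨?_, subset_univ _⟩
    show ∑ i, (Fin.cons (D - wt α.1) (fun j => ((α.1 j : Fin (D + 1)) : ℕ)) : Fin (k + 2) → ℕ) i = D
    rw [Fin.sum_univ_succ]
    simp only [Fin.cons_zero, Fin.cons_succ]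
    have h3 := α.2
    have h4 : ∑ j, ((α.1 j : Fin (D + 1)) : ℕ) = wt α.1 := rfl
    rw [h4]
    omega
  · intro α _ β _ h
    have h3 := Finsupp.equivFunOnFinite.symm.injective h
    apply Subtype.ext
    funext j
    have h4 := congrFun h3 j.succ
    simp only [Fin.cons_succ] at h4
    exact Fin.ext h4
  · intro f hf
    rw [mem_finsuppAntidiag] at hf
    have h3 : f 0 + ∑ j : Fin (k + 1), f j.succ = D := by
      rw [← Fin.sum_univ_succ]
      exact hf.1
    have h4 : ∀ j : Fin (k + 1), f j.succ ≤ D := by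
      intro j
      have := Finset.single_le_sum (f := fun j : Fin (k + 1) => f j.succ)
        (fun _ _ => Nat.zero_le _) (Finset.mem_univ j)
      omega
    have h5 : wt (fun j : Fin (k + 1) => (⟨f j.succ, Nat.lt_succ_of_le (h4 j)⟩ : Fin (D + 1))) =
        ∑ j : Fin (k + 1), f j.succ := rfl
    refine ⟨⟨fun j => ⟨f j.succ, Nat.lt_succ_of_le (h4 j)⟩, ?_⟩, mem_univ _, ?_⟩
    · rw [h5]; omega
    · ext i
      show (Fin.cons (D - wt (fun j : Fin (k + 1) =>
        (⟨f j.succ, Nat.lt_succ_of_le (h4 j)⟩ : Fin (D + 1)))) (fun j => f j.succ) :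
          Fin (k + 2) → ℕ) i = f i
      refine Fin.cases ?_ (fun j => ?_) i
      · rw [Fin.cons_zero, h5]; omega
      · rw [Fin.cons_succ]

end Pool.Agent.Work.MP_f1a024_nt.RW
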