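import Pool.Agent.Work.MP_f1a024_nt.RW.StmtsK

/-!
# Block WJ, item CLK: the induction for the sharp zero estimate
-/

set_option autoImplicit false

namespace Pool.Agent.Work.MP_f1a024_nt.RW

open Finset MvPolynomial Filter
open Pool.Agent.Work.MP_f1a024_nt.AH (tau PG val D1 D2 D4 D10a D10b)

theorem CLK_prod (P : ℕ → ℕ) (q j b : ℕ) (hjb : j ≤ b) (hq : ∀ B ≤ b, q ≤ P B) :
    (∏ B ∈ Finset.Icc 1 j, P B) * q ^ (b - j) ≤ ∏ B ∈ Finset.Icc 1 b, P B := by
  induction b, hjb using Nat.le_induction with
  | base => simp
  | succ b hb ih =>
    have h1 := ih (fun B hB => hq B (by omega))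
    rw [Finset.prod_Icc_succ_top (by omega), show b + 1 - j = (b - j) + 1 by omega, pow_succ,
      ← mul_assoc]
    exact Nat.mul_le_mul h1 (hq (b + 1) le_rfl)

theorem prfCLK (hNB : NB) (h1 : AKU) (h2 : STK) : CLK := by
  classical
  intro d s σ u κ P k₃ hKM hP1 hP2 huv
  obtain ⟨n0, nadd, npos, ninj, nex, -, nle, nfac, nsing, -⟩ := id hNB
  intro b
  induction b using Nat.strong_induction_on with
  | _ b ih =>
    intro j hj m hm hlt
    rcases Nat.lt_or_ge j b with hjb | hjb
    · refine ih j hjb j le_rfl m (fun B hB q hq => hm B ?_ q hq) (lt_of_le_of_lt ?_ hlt)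
      · rw [Finset.mem_Icc] at hB ⊢
        omega
      · refine Nat.mul_le_mul_left _ ?_
        have h3 := CLK_prod (fun B => (P B : ℕ)) 1 j b hjb.le (fun B _ => (P B).2.pos)
        rwa [one_pow, mul_one] at h3
    · obtain rfl : j = b := le_antisymm hj hjb
      rcases Nat.eq_zero_or_pos j with h0 | h0
      · subst h0
        simp only [pow_zero, one_mul]
        rw [← h1]
        apply huv
        rw [nadd]
        simpa using hlt
      · set p := P j with hp
        set m' : Ex := m.erase p with hm'def
        have hm' : m' + Finsupp.single p (m p) = m := Finsupp.erase_add_single p m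
        have hm'p : m' p = 0 := by rw [hm'def]; simp
        have hsup : ∀ q ∈ m.support, (q : ℕ) ≤ p := hm j (Finset.mem_Icc.2 ⟨h0, le_rfl⟩)
        have hsup' : ∀ q, m' q ≠ 0 → q ∈ m.support := by
          intro q hq
          rw [Finsupp.mem_support_iff]
          intro h3
          apply hq
          by_cases hqp : q = p
          · rw [hqp]; exact hm'p
          · rw [hm'def, Finsupp.erase_ne hqp]; exact h3
        have key := h2 d s σ u κ m' p j (m p) hm'p (hP1 j h0) ?_ ?_
        · rw [add_assoc, hm'] at key
          exact key
        · intro i y hy hyq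
          by_contra hlt'
          rw [not_le] at hlt'
          have hne : y ≠ κ := by
            rintro rfl
            exact lt_irrefl _ hlt'
          obtain ⟨π, hπ1, hπ2⟩ := hKM i y hy hne
          have hπp : π ≠ p := by
            rintro rfl
            omega
          rcases Nat.lt_or_ge (π : ℕ) p with hlt2 | hge
          · have := hπ2 p hlt2
            omega
          · have hne2 : (π : ℕ) ≠ p := fun h => hπp (Subtype.ext h)
            have hm0 : m' π = 0 := by
              by_contra h3
              have := hsup π (hsup' π h3)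
              omega
            have := hyq π hπp
            omega
        · intro j' a' hj' ha'
          rw [add_assoc]
          refine ih j' hj' j' le_rfl (m' + Finsupp.single p a') ?_ ?_
          · intro B hB q hq
            rw [Finset.mem_Icc] at hB
            have hPB : (p : ℕ) ≤ P B := hP2 B j (by omega)
            refine le_trans ?_ hPB
            rw [Finsupp.mem_support_iff, Finsupp.add_apply] at hq
            by_cases hqp : q = p
            · rw [hqp]
            · rw [Finsupp.single_eq_of_ne hqp, add_zero] at hq
              exact hsup q (hsup' q hq)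
          · refine lt_of_le_of_lt ?_ hlt
            rw [mul_assoc, mul_assoc]
            refine Nat.mul_le_mul_left _ ?_
            have h4 : nn m = nn m' * (p : ℕ) ^ (m p) := by
              rw [← nsing, ← nadd, hm']
            rw [nadd, nsing, h4, mul_assoc, mul_assoc]
            refine Nat.mul_le_mul_left _ ?_
            have h5 := CLK_prod (fun B => (P B : ℕ)) p j' j hj'.le
              (fun B hB => hP2 B j hB)
            have hpp : 0 < (p : ℕ) := p.2.pos
            calc (p : ℕ) ^ a' * ∏ B ∈ Finset.Icc 1 j', (P B : ℕ)
                ≤ (p : ℕ) ^ (m p + (j - j')) * ∏ B ∈ Finset.Icc 1 j', (P B : ℕ) :=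
                  Nat.mul_le_mul_right _ (Nat.pow_le_pow_right hpp (by omega))
              _ = (p : ℕ) ^ (m p) * ((∏ B ∈ Finset.Icc 1 j', (P B : ℕ)) * (p : ℕ) ^ (j - j')) := by
                  rw [pow_add]; ring
              _ ≤ (p : ℕ) ^ (m p) * ∏ B ∈ Finset.Icc 1 j, (P B : ℕ) :=
                  Nat.mul_le_mul_left _ h5

end Pool.Agent.Work.MP_f1a024_nt.RW
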