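import Pool.Agent.Work.MP_f1a024_nt.RW.Stmts

/-!
# Block RW, item CNT (helper85): boxes
-/

set_option autoImplicit false

namespace Pool.Agent.Work.MP_f1a024_nt.RW

open Finset MvPolynomial Filter

theorem CNT_card (PP : Finset Nat.Primes) (f : Ex) (hf : ∀ p, p ∉ PP → f p = 0) :
    (Iic f).card = ∏ p ∈ PP, (f p + 1) := by
  rw [Finsupp.card_Iic]
  have h1 : ∏ i ∈ f.support, (Iic (f i)).card = ∏ i ∈ f.support, (f i + 1) :=
    Finset.prod_congr rfl fun i _ => Nat.card_Iic (f i)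
  rw [h1]
  refine Finset.prod_subset (fun p hp => ?_) fun p _ hp => ?_
  · by_contra h
    exact (Finsupp.mem_support_iff.1 hp) (hf p h)
  · rw [Finsupp.notMem_support_iff.1 hp, zero_add]

theorem CNT_real (P g D : ℕ) (η : ℝ) (hD : g ≤ D) (h : (P : ℝ) * g ≤ η * ((D : ℝ) + 1)) :
    (1 - η) * ((D : ℝ) + 1) ^ P ≤ ((D : ℝ) + 1 - g) ^ P := by
  have hD1 : (0 : ℝ) < (D : ℝ) + 1 := by positivity
  have hgD : (g : ℝ) ≤ D := by exact_mod_cast hD
  have ha : (-2 : ℝ) ≤ -((g : ℝ) / ((D : ℝ) + 1)) := by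
    have : (g : ℝ) / ((D : ℝ) + 1) ≤ 1 := (div_le_one hD1).2 (by linarith)
    linarith
  have h1 := one_add_mul_le_pow ha P
  have h2 : (P : ℝ) * ((g : ℝ) / ((D : ℝ) + 1)) ≤ η := by
    rw [← mul_div_assoc, div_le_iff₀ hD1]
    exact h
  have h3 : 1 - η ≤ (1 + -((g : ℝ) / ((D : ℝ) + 1))) ^ P := by
    refine le_trans ?_ h1
    linarith
  calc (1 - η) * ((D : ℝ) + 1) ^ P
      ≤ (1 + -((g : ℝ) / ((D : ℝ) + 1))) ^ P * ((D : ℝ) + 1) ^ P :=
        mul_le_mul_of_nonneg_right h3 (by positivity)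
    _ = ((D : ℝ) + 1 - g) ^ P := by
        rw [← mul_pow]
        congr 1
        field_simp
        ring

theorem CNT_one (PP : Finset Nat.Primes) (γ δ : Ex) (g D : ℕ) (η : ℝ) (hD : g ≤ D)
    (h : (PP.card : ℝ) * g ≤ η * ((D : ℝ) + 1)) (hδ : ∀ p ∈ PP, δ p = D)
    (hδ' : ∀ p, p ∉ PP → δ p = 0) (hγ : ∀ p, γ p ≤ g) :
    (1 - η) * ((Iic δ).card : ℝ) ≤ ((Iic (δ - γ)).card : ℝ) := by
  rw [CNT_card PP δ hδ', CNT_card PP (δ - γ) fun p hp => by
    rw [Finsupp.tsub_apply, hδ' p hp, Nat.zero_sub]]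
  have h1 : ∏ p ∈ PP, (δ p + 1) = (D + 1) ^ PP.card := by
    rw [Finset.prod_congr rfl fun p hp => by rw [hδ p hp], Finset.prod_const]
  rw [h1]
  push_cast
  refine (CNT_real PP.card g D η hD h).trans ?_
  rw [← Finset.prod_const]
  have hgD : (g : ℝ) ≤ D := by exact_mod_cast hD
  refine Finset.prod_le_prod (fun p _ => by linarith) fun p hp => ?_
  have h2 : (D : ℝ) ≤ (((⇑δ - ⇑γ) p : ℕ) : ℝ) + g := by
    have h3 : D ≤ (⇑δ - ⇑γ) p + g := by
      rw [Pi.sub_apply, hδ p hp]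
      have := hγ p
      omega
    exact_mod_cast h3
  linarith

theorem prfCNT : CNT := by
  classical
  intro γ₁ γ₂ η hη
  set p2 : Nat.Primes := ⟨2, Nat.prime_two⟩ with hp2
  set PP : Finset Nat.Primes := insert p2 (γ₁.support ∪ γ₂.support) with hPP
  set g : ℕ := ∑ p ∈ PP, (γ₁ p + γ₂ p) with hg
  have hb : ∀ p, γ₁ p + γ₂ p ≤ g := by
    intro p
    by_cases hp : p ∈ PP
    · exact Finset.single_le_sum (f := fun p => γ₁ p + γ₂ p) (fun _ _ => Nat.zero_le _) hp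
    · have h1 : p ∉ γ₁.support := fun h => hp (Finset.mem_insert_of_mem (Finset.mem_union_left _ h))
      have h2 : p ∉ γ₂.support := fun h => hp (Finset.mem_insert_of_mem (Finset.mem_union_right _ h))
      rw [Finsupp.notMem_support_iff.1 h1, Finsupp.notMem_support_iff.1 h2]
      exact Nat.zero_le _
  obtain ⟨D₀, hD₀⟩ := exists_nat_ge ((PP.card : ℝ) * g / η)
  set D : ℕ := D₀ + g + 1 with hD
  have hcond : (PP.card : ℝ) * g ≤ η * ((D : ℝ) + 1) := by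
    rw [div_le_iff₀ hη] at hD₀
    have : (D₀ : ℝ) ≤ (D : ℝ) + 1 := by
      have : D₀ ≤ D + 1 := by omega
      exact_mod_cast this
    nlinarith
  let δ : Ex := Finsupp.onFinset PP (fun p => if p ∈ PP then D else 0) fun p hp => by
    by_contra h
    exact hp (if_neg h)
  have hδ : ∀ p ∈ PP, δ p = D := fun p hp => if_pos hp
  have hδ' : ∀ p, p ∉ PP → δ p = 0 := fun p hp => if_neg hp
  have hle : ∀ γ : Ex, (∀ p, p ∉ PP → γ p = 0) → (∀ p, γ p ≤ g) → γ ≤ δ := by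
    intro γ h0 h1 p
    by_cases hp : p ∈ PP
    · rw [hδ p hp]
      have := h1 p
      omega
    · rw [h0 p hp]
      exact Nat.zero_le _
  have hγ₁ : ∀ p, γ₁ p ≤ g := fun p => (Nat.le_add_right _ _).trans (hb p)
  have hγ₂ : ∀ p, γ₂ p ≤ g := fun p => (Nat.le_add_left _ _).trans (hb p)
  refine ⟨δ, ?_, hle γ₁ (fun p hp => ?_) hγ₁, hle γ₂ (fun p hp => ?_) hγ₂,
    CNT_one PP γ₁ δ g D η (by omega) hcond hδ hδ' hγ₁,
    CNT_one PP γ₂ δ g D η (by omega) hcond hδ hδ' hγ₂⟩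
  · intro h
    have h1 := hδ p2 (Finset.mem_insert_self _ _)
    rw [h] at h1
    have h2 : (0 : Ex) p2 = 0 := rfl
    omega
  · exact Finsupp.notMem_support_iff.1 fun h =>
      hp (Finset.mem_insert_of_mem (Finset.mem_union_left _ h))
  · exact Finsupp.notMem_support_iff.1 fun h =>
      hp (Finset.mem_insert_of_mem (Finset.mem_union_right _ h))

end Pool.Agent.Work.MP_f1a024_nt.RW
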