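import Pool.Agent.Work.MP_f1a024_nt.RW.Stmts

/-!
# Block RW, item CR (helper44): the core
-/

set_option autoImplicit false

namespace Pool.Agent.Work.MP_f1a024_nt.RW

open Finset MvPolynomial Filter
open Pool.Agent.Work.MP_f1a024_nt.AH (tau PG val D1 D2 D4 D10a D10b)

theorem CR_uv_zero {d : ℕ} (u : Fin (d + 1) → Rg) : uv u 0 = 0 := by
  unfold uv
  rw [Nat.divisorsAntidiagonal_zero, Finset.sum_empty]

/-- the exact power of two -/
theorem CR_pow (r n : ℕ) : ((2 : ℝ) ^ (r * (r + 1) / 2)) ^ n =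
    (2 : ℝ) ^ (((r : ℝ) + 1) * n / 2 * r) := by
  obtain ⟨t, ht⟩ := Nat.even_mul_succ_self r
  have h1 : r * (r + 1) / 2 = t := by omega
  have h2 : (r : ℝ) * (r + 1) = 2 * t := by
    have h3 : ((r * (r + 1) : ℕ) : ℝ) = ((t + t : ℕ) : ℝ) := by rw [ht]
    push_cast at h3
    linarith
  rw [h1, ← pow_mul, ← Real.rpow_natCast]
  congr 1
  push_cast
  have h4 : ((r : ℝ) + 1) * n / 2 * r = (r * (r + 1)) * n / 2 := by ring
  rw [h4, h2]
  ring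

/-- the lower bound for the main term -/
theorem CR_main (r d n k N : ℕ) (hr : r ≤ d) (hk : 0 < k) (H : ℝ)
    (hkN : (k : ℝ) ≤ 2 ^ (r * (r + 1) / 2) * N)
    (hH : (2 : ℝ) ^ (((d : ℝ) + 1) * n / 2) ≤ H) : 1 ≤ ((N : ℝ) / k) ^ n * H ^ r := by
  have hk' : (0 : ℝ) < k := by exact_mod_cast hk
  have hP : (0 : ℝ) < 2 ^ (r * (r + 1) / 2) := by positivity
  have h1 : ((2 : ℝ) ^ (r * (r + 1) / 2))⁻¹ ≤ (N : ℝ) / k := by
    rw [inv_le_comm₀ hP (by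
      rcases Nat.eq_zero_or_pos N with h0 | h0
      · rw [h0] at hkN
        simp only [Nat.cast_zero, mul_zero] at hkN
        linarith
      · have : (0 : ℝ) < N := by exact_mod_cast h0
        positivity)]
    rw [inv_div]
    rcases Nat.eq_zero_or_pos N with h0 | h0
    · rw [h0] at hkN
      simp only [Nat.cast_zero, mul_zero] at hkN
      linarith
    · have : (0 : ℝ) < N := by exact_mod_cast h0
      rw [div_le_iff₀ this]
      exact hkN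
  have h2 : (((2 : ℝ) ^ (r * (r + 1) / 2))⁻¹) ^ n ≤ ((N : ℝ) / k) ^ n :=
    pow_le_pow_left₀ (by positivity) h1 n
  have h3 : (2 : ℝ) ^ (((r : ℝ) + 1) * n / 2) ≤ H := by
    refine le_trans ?_ hH
    apply Real.rpow_le_rpow_of_exponent_le (by norm_num)
    have : (r : ℝ) ≤ d := by exact_mod_cast hr
    have hn : (0 : ℝ) ≤ n := Nat.cast_nonneg n
    nlinarith
  have h4 : ((2 : ℝ) ^ (((r : ℝ) + 1) * n / 2)) ^ r ≤ H ^ r :=
    pow_le_pow_left₀ (by positivity) h3 r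
  have h5 : (((2 : ℝ) ^ (r * (r + 1) / 2))⁻¹) ^ n * ((2 : ℝ) ^ (((r : ℝ) + 1) * n / 2)) ^ r = 1 := by
    rw [inv_pow, CR_pow, ← Real.rpow_natCast ((2 : ℝ) ^ (((r : ℝ) + 1) * n / 2)) r,
      ← Real.rpow_mul (by norm_num)]
    exact inv_mul_cancel₀ (by positivity)
  rw [← h5]
  exact mul_le_mul h2 h4 (by positivity) (by positivity)

/-- the truncation -/
theorem CR_trunc (d n : ℕ) (x : Fin (d + 1) → ℤ) (H B₁ ε C : ℝ) (Y : ℕ) (v : Fin (d + 1) → ℝ)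
    (e : Fin (d + 1) → ℚ) (hC : 0 ≤ C) (hH1 : 1 ≤ H) (hHB : H ≤ B₁ ^ n) (hx : ∀ i, |(x i : ℝ)| ≤ H)
    (hB : 1 ≤ B₁) (hY : Real.exp ε * B₁ ^ (d + 1) ≤ Y)
    (he : ∀ i, |v i - (e i : ℝ)| ≤ C * (1 / (Y : ℝ)) ^ n)
    (hs : |∑ i, (x i : ℝ) * v i| < Real.exp (-(ε * n)) * (H ^ d)⁻¹) :
    |((∑ i, e i * (x i : ℚ) : ℚ) : ℝ)| ≤
      (1 + (d + 1) * C) * (Real.exp (-(ε * n)) * (H ^ d)⁻¹) := by
  have hY0 : (0 : ℝ) < Y := lt_of_lt_of_le (by positivity) hY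
  have hH0 : 0 < H := by linarith
  have key : H * (1 / (Y : ℝ)) ^ n ≤ Real.exp (-(ε * n)) * (H ^ d)⁻¹ := by
    have h1 : (Real.exp ε * B₁ ^ (d + 1)) ^ n ≤ (Y : ℝ) ^ n := pow_le_pow_left₀ (by positivity) hY n
    have h2 : H ^ (d + 1) ≤ (B₁ ^ n) ^ (d + 1) := pow_le_pow_left₀ hH0.le hHB _
    have h3 : Real.exp (ε * n) * H ^ (d + 1) ≤ (Y : ℝ) ^ n := by
      refine le_trans ?_ h1
      rw [mul_pow, ← Real.exp_nat_mul, ← pow_mul, Nat.mul_comm (d + 1) n, pow_mul,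
        mul_comm (n : ℝ) ε]
      exact mul_le_mul_of_nonneg_left h2 (Real.exp_pos _).le
    rw [Real.exp_neg, ← mul_inv, one_div, inv_pow, ← div_eq_mul_inv, div_le_iff₀ (by positivity)]
    rw [inv_mul_eq_div, le_div_iff₀ (by positivity)]
    calc H * (Real.exp (ε * n) * H ^ d) = Real.exp (ε * n) * H ^ (d + 1) := by ring
      _ ≤ (Y : ℝ) ^ n := h3
  have hcast : ((∑ i, e i * (x i : ℚ) : ℚ) : ℝ) = ∑ i, (x i : ℝ) * (e i : ℝ) := by
    push_cast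
    exact Finset.sum_congr rfl fun i _ => mul_comm _ _
  have hdiff : |∑ i, (x i : ℝ) * (e i : ℝ) - ∑ i, (x i : ℝ) * v i| ≤
      (d + 1) * (C * (H * (1 / (Y : ℝ)) ^ n)) := by
    rw [← Finset.sum_sub_distrib]
    refine (Finset.abs_sum_le_sum_abs _ _).trans ?_
    have h1 : ∀ i ∈ (univ : Finset (Fin (d + 1))), |(x i : ℝ) * (e i : ℝ) - (x i : ℝ) * v i| ≤
        C * (H * (1 / (Y : ℝ)) ^ n) := by
      intro i _
      rw [← mul_sub, abs_mul, abs_sub_comm]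
      calc |(x i : ℝ)| * |v i - (e i : ℝ)| ≤ H * (C * (1 / (Y : ℝ)) ^ n) :=
            mul_le_mul (hx i) (he i) (abs_nonneg _) hH0.le
        _ = C * (H * (1 / (Y : ℝ)) ^ n) := by ring
    refine (Finset.sum_le_sum h1).trans ?_
    rw [Finset.sum_const, Finset.card_univ, Fintype.card_fin, nsmul_eq_mul]
    push_cast
    exact le_refl _
  rw [hcast]
  have h6 : |∑ i, (x i : ℝ) * (e i : ℝ)| ≤ |∑ i, (x i : ℝ) * v i| +
      |∑ i, (x i : ℝ) * (e i : ℝ) - ∑ i, (x i : ℝ) * v i| := by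
    have := abs_add_le (∑ i, (x i : ℝ) * v i) (∑ i, (x i : ℝ) * (e i : ℝ) - ∑ i, (x i : ℝ) * v i)
    rwa [add_sub_cancel] at this
  have h7 : (d + 1) * (C * (H * (1 / (Y : ℝ)) ^ n)) ≤
      (d + 1) * (C * (Real.exp (-(ε * n)) * (H ^ d)⁻¹)) :=
    mul_le_mul_of_nonneg_left (mul_le_mul_of_nonneg_left key hC) (by positivity)
  calc |∑ i, (x i : ℝ) * (e i : ℝ)| ≤ Real.exp (-(ε * n)) * (H ^ d)⁻¹ +
        (d + 1) * (C * (Real.exp (-(ε * n)) * (H ^ d)⁻¹)) := by linarith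
    _ = _ := by ring

theorem prfCR (hD1 : D1) (hD4 : D4) (hD10a : D10a) (hWS : WS) (hP6 : P6) (hZ4 : Z4) (hF1a : F1a)
    (hCU : CU) : CR := by
  intro d 𝒰 x H B ε hU hε hx
  by_contra hcon
  rw [← Ultrafilter.eventually_not] at hcon
  obtain ⟨W, hW, hWt, hWs⟩ := hWS d 𝒰 x hU (hx.mono fun n h => h.1)
  obtain ⟨D⟩ := hP6 d W hWt hWs
  obtain ⟨k₃, hk1, hk2, hk3⟩ := hZ4 d D.r D.m D.u (fun l => D.y l.succ.succ) D.hu D.hspan D.hua
  have hk0 : 0 < k₃ := by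
    rcases Nat.eq_zero_or_pos k₃ with h0 | h0
    · rw [h0] at hk1
      exact absurd (CR_uv_zero D.u) hk1
    · exact h0
  have hB₁ : (1 : ℝ) ≤ max |B| 1 := le_max_right _ _
  obtain ⟨Y, hY⟩ := exists_nat_ge (max ((k₃ : ℝ) + 1) (Real.exp ε * (max |B| 1) ^ (d + 1)))
  have hYk : k₃ < Y := by
    have h1 : (k₃ : ℝ) + 1 ≤ Y := (le_max_left _ _).trans hY
    have h2 : ((k₃ + 1 : ℕ) : ℝ) ≤ Y := by
      push_cast
      exact h1
    exact_mod_cast h2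
  have hY2 : Real.exp ε * (max |B| 1) ^ (d + 1) ≤ Y := (le_max_right _ _).trans hY
  obtain ⟨C, M, hC0, hC⟩ := hF1a hD1 hD4 hD10a d Y (by omega)
  have hH : ∀ᶠ n : ℕ in (𝒰 : Filter ℕ), 1 ≤ H n ∧ H n ≤ B ^ n ∧ ∀ i, |(x n i : ℝ)| ≤ H n := by
    filter_upwards [hx] with n hn
    refine ⟨le_trans (Real.one_le_rpow (by norm_num) (by positivity)) hn.2.2.1, hn.2.2.2, hn.2.1⟩
  obtain ⟨C', hC'0, hC'⟩ := hCU d 𝒰 x H B (ε / 2) W D k₃ Y hU hH hW hk1 hk2 hYk (half_pos hε)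
  have hbig : ∀ᶠ n : ℕ in (𝒰 : Filter ℕ), C' * (1 + (d + 1) * C) < Real.exp (ε / 2 * n) := by
    apply hU
    have h1 : Tendsto (fun n : ℕ => Real.exp (ε / 2 * n)) atTop atTop :=
      Real.tendsto_exp_atTop.comp
        (tendsto_natCast_atTop_atTop.const_mul_atTop (half_pos hε))
    exact h1.eventually_gt_atTop _
  have hM : ∀ᶠ n : ℕ in (𝒰 : Filter ℕ), M ≤ n := hU (eventually_ge_atTop M)
  obtain ⟨n, hxn, hbad, hHn, hCn, hbn, hMn⟩ :=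
    (hx.and (hcon.and (hH.and (hC'.and (hbig.and hM))))).exists
  rw [not_le] at hbad
  have hH0 : 0 < H n := by linarith [hHn.1]
  have hHB : H n ≤ (max |B| 1) ^ n := by
    refine hHn.2.1.trans ((le_abs_self _).trans ?_)
    rw [abs_pow]
    exact pow_le_pow_left₀ (abs_nonneg _) (le_max_left _ _) n
  have h1 := CR_trunc d n (x n) (H n) (max |B| 1) ε C Y (fun i => val (tau ^ (i : ℕ)) n)
    (fun i => ev n (vb Y (i : ℕ))) hC0 hHn.1 hHB hHn.2.2 hB₁ hY2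
    (fun i => hC n hMn i (Nat.lt_succ_iff.1 i.2)) hbad
  have h2 := CR_main D.r d n k₃ (nn (up D.u)) (by have := D.hmr; omega) hk0 (H n) hk3 hxn.2.2.1
  have h3 : Real.exp (-(ε / 2 * n)) * ((nn (up D.u) : ℝ) / k₃) ^ n * (H n ^ D.m)⁻¹ ≤
      C' * ((1 + (d + 1) * C) * (Real.exp (-(ε * n)) * (H n ^ d)⁻¹)) :=
    hCn.trans (mul_le_mul_of_nonneg_left h1 hC'0.le)
  have hdm : H n ^ d = H n ^ D.m * H n ^ D.r := by
    rw [← pow_add, D.hmr]
  have h4 : Real.exp (-(ε / 2 * n)) * (((nn (up D.u) : ℝ) / k₃) ^ n * H n ^ D.r) ≤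
      C' * (1 + (d + 1) * C) * Real.exp (-(ε * n)) := by
    have h5 := mul_le_mul_of_nonneg_right h3 (by positivity : (0 : ℝ) ≤ H n ^ d)
    have e1 : Real.exp (-(ε / 2 * n)) * ((nn (up D.u) : ℝ) / k₃) ^ n * (H n ^ D.m)⁻¹ * H n ^ d =
        Real.exp (-(ε / 2 * n)) * (((nn (up D.u) : ℝ) / k₃) ^ n * H n ^ D.r) := by
      rw [hdm]
      field_simp
    have e2 : C' * ((1 + (d + 1) * C) * (Real.exp (-(ε * n)) * (H n ^ d)⁻¹)) * H n ^ d =
        C' * (1 + (d + 1) * C) * Real.exp (-(ε * n)) := by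
      field_simp
    rw [e1, e2] at h5
    exact h5
  have h6 : Real.exp (-(ε / 2 * n)) ≤ C' * (1 + (d + 1) * C) * Real.exp (-(ε * n)) := by
    refine le_trans ?_ h4
    have := mul_le_mul_of_nonneg_left h2 (Real.exp_pos (-(ε / 2 * n))).le
    rwa [mul_one] at this
  have h7 : Real.exp (-(ε / 2 * n)) = Real.exp (ε / 2 * n) * Real.exp (-(ε * n)) := by
    rw [← Real.exp_add]
    congr 1
    ring
  rw [h7] at h6
  have h8 := le_of_mul_le_mul_right h6 (Real.exp_pos _)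
  linarith

end Pool.Agent.Work.MP_f1a024_nt.RW
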