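import Pool.Agent.Work.MP_f1a024_nt.RW.StmtsJ
import Pool.Agent.Work.MP_f1a024_nt.RW.CR

/-!
# Block WJ, item CRJ (helper48): the core, for a general family

Adapted from items CR (helper44) and CRq (helper95).
-/

set_option autoImplicit false

namespace Pool.Agent.Work.MP_f1a024_nt.RW

open Finset MvPolynomial Filter
open Pool.Agent.Work.MP_f1a024_nt.AH (tau PG val D1 D2 D4 D10a D10b)

theorem CRJ_uv_zero {d : ℕ} (f : Fin (d + 1) → ArithmeticFunction ℚ) (u : Fin (d + 1) → Rg) :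
    uvJ f u 0 = 0 := by
  unfold uvJ
  rw [Nat.divisorsAntidiagonal_zero, Finset.sum_empty]

/-- the lower bound for the main term -/
theorem CRJ_main (r c' k n k₃ N q : ℕ) (hk : 0 < k₃) (hq : q.Prime) (H : ℝ) (hH1 : 1 ≤ H)
    (h0 : c' = 0 → k₃ ≤ N) (h1 : 1 ≤ c' → (k₃ : ℝ) * pb q ≤ (q : ℝ) ^ (c' + k) * N)
    (hH : 1 ≤ c' → (q : ℝ) ^ ((c' + k) * n) ≤ H ^ r * pb q ^ n) :
    1 ≤ ((N : ℝ) / k₃) ^ n * H ^ r := by
  have hk' : (0 : ℝ) < k₃ := by exact_mod_cast hk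
  have hq' : (0 : ℝ) < q := by exact_mod_cast hq.pos
  have hHr : 1 ≤ H ^ r := one_le_pow₀ hH1
  rcases Nat.eq_zero_or_pos c' with hc | hc
  · have h2 : (k₃ : ℝ) ≤ N := by exact_mod_cast h0 hc
    have h3 : 1 ≤ ((N : ℝ) / k₃) ^ n := one_le_pow₀ ((one_le_div hk').2 h2)
    nlinarith
  · have hpb0 : 0 < pb q := by
      unfold pb
      refine Finset.prod_pos fun p hp => ?_
      exact_mod_cast (Finset.mem_filter.1 hp).2.pos
    have hqr : (0 : ℝ) < (q : ℝ) ^ (c' + k) := by positivity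
    have h2 : pb q / (q : ℝ) ^ (c' + k) ≤ (N : ℝ) / k₃ := by
      rw [div_le_div_iff₀ hqr hk']
      linarith [h1 hc]
    have h3 : (pb q / (q : ℝ) ^ (c' + k)) ^ n ≤ ((N : ℝ) / k₃) ^ n :=
      pow_le_pow_left₀ (by positivity) h2 n
    calc (1 : ℝ) = ((q : ℝ) ^ ((c' + k) * n)) / (q : ℝ) ^ ((c' + k) * n) := by
          rw [div_self (by positivity)]
      _ ≤ (H ^ r * pb q ^ n) / (q : ℝ) ^ ((c' + k) * n) := by
          have := hH hc
          gcongr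
      _ = (pb q / (q : ℝ) ^ (c' + k)) ^ n * H ^ r := by
          rw [div_pow, ← pow_mul]
          ring
      _ ≤ ((N : ℝ) / k₃) ^ n * H ^ r := by gcongr

theorem prfCRJ (hD4 : D4) (hWS : WS) (hP6 : P6J) (hZ4 : Z4J) (hF1a : F1aJ) (hCU : CUJ) : CRJ := by
  intro k d f T c hf hT hZL 𝒰 x H B ε hU hε hx
  by_contra hcon
  rw [← Ultrafilter.eventually_not] at hcon
  obtain ⟨W, hW, hWt, hWs⟩ := hWS d 𝒰 x hU (hx.mono fun n h => h.1)
  obtain ⟨D⟩ := hP6 d T W hT hWt hWs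
  have hrd : D.r ≤ d := by have := D.hmr; omega
  obtain ⟨k₃, q, hqp, hk1, hk2, hk3, hk4⟩ :=
    hZ4 k d f T c hZL D.r D.m D.u (fun l => D.y l.succ.succ) hrd D.hu D.hspan D.hua
  have hk0 : 0 < k₃ := by
    rcases Nat.eq_zero_or_pos k₃ with h0 | h0
    · rw [h0] at hk1
      exact absurd (CRJ_uv_zero f D.u) hk1
    · exact h0
  have hB₁ : (1 : ℝ) ≤ max |B| 1 := le_max_right _ _
  obtain ⟨Y, hY⟩ := exists_nat_ge (max ((k₃ : ℝ) + 1) (Real.exp ε * (max |B| 1) ^ (d + 1)))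
  have hYk : k₃ < Y := by
    have h1 : (k₃ : ℝ) + 1 ≤ Y := (le_max_left _ _).trans hY
    have h2 : ((k₃ + 1 : ℕ) : ℝ) ≤ Y := by
      push_cast
      exact h1
    exact_mod_cast h2
  have hY2 : Real.exp ε * (max |B| 1) ^ (d + 1) ≤ Y := (le_max_right _ _).trans hY
  obtain ⟨C, M, hC0, hC⟩ := hF1a hD4 d Y f hf (by omega)
  have hH : ∀ᶠ n : ℕ in (𝒰 : Filter ℕ), 1 ≤ H n ∧ H n ≤ B ^ n ∧ ∀ i, |(x n i : ℝ)| ≤ H n := by
    filter_upwards [hx] with n hn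
    refine ⟨?_, hn.2.2.2, hn.2.1⟩
    obtain ⟨i, hi⟩ := Function.ne_iff.1 hn.1
    have h1 : (1 : ℤ) ≤ |x n i| := Int.one_le_abs hi
    have h2 : (1 : ℝ) ≤ |(x n i : ℝ)| := by exact_mod_cast h1
    exact h2.trans (hn.2.1 i)
  obtain ⟨C', hC'0, hC'⟩ := hCU d f T 𝒰 x H B (ε / 2) W D k₃ Y hU hH hW hk1 hk2 hYk (half_pos hε)
  have hbig : ∀ᶠ n : ℕ in (𝒰 : Filter ℕ), C' * (1 + (d + 1) * C) < Real.exp (ε / 2 * n) := by
    apply hU
    have h1 : Tendsto (fun n : ℕ => Real.exp (ε / 2 * n)) atTop atTop :=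
      Real.tendsto_exp_atTop.comp
        (tendsto_natCast_atTop_atTop.const_mul_atTop (half_pos hε))
    exact h1.eventually_gt_atTop _
  have hM : ∀ᶠ n : ℕ in (𝒰 : Filter ℕ), M ≤ n := hU (eventually_ge_atTop M)
  obtain ⟨n, hxn, hbad, hHn, hCn, hbn, hMn⟩ :=
    (hx.and (hcon.and (hH.and (hC'.and (hbig.and hM))))).exists
  rw [not_le] at hbad
  have hH0 : 0 < H n := by linarith [hHn.1]
  have hHB : H n ≤ (max |B| 1) ^ n := by
    refine hHn.2.1.trans ((le_abs_self _).trans ?_)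
    rw [abs_pow]
    exact pow_le_pow_left₀ (abs_nonneg _) (le_max_left _ _) n
  have h1 := CR_trunc d n (x n) (H n) (max |B| 1) ε C Y (fun i => val (f i) n)
    (fun i => ev n (vbJ Y (f i))) hC0 hHn.1 hHB hHn.2.2 hB₁ hY2
    (fun i => hC n hMn i) hbad
  have h2 := CRJ_main D.r (c D.r) k n k₃ (nn (up D.u)) q hk0 hqp (H n) hHn.1 hk3 hk4
    (fun hc => hxn.2.2.1 D.r hrd q hc hqp)
  have h3 : Real.exp (-(ε / 2 * n)) * ((nn (up D.u) : ℝ) / k₃) ^ n * (H n ^ D.m)⁻¹ ≤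
      C' * ((1 + (d + 1) * C) * (Real.exp (-(ε * n)) * (H n ^ d)⁻¹)) :=
    hCn.trans (mul_le_mul_of_nonneg_left h1 hC'0.le)
  have hdm : H n ^ d = H n ^ D.m * H n ^ D.r := by
    rw [← pow_add, D.hmr]
  have h4 : Real.exp (-(ε / 2 * n)) * (((nn (up D.u) : ℝ) / k₃) ^ n * H n ^ D.r) ≤
      C' * (1 + (d + 1) * C) * Real.exp (-(ε * n)) := by
    have h5 := mul_le_mul_of_nonneg_right h3 (by positivity : (0 : ℝ) ≤ H n ^ d)
    have e1 : Real.exp (-(ε / 2 * n)) * ((nn (up D.u) : ℝ) / k₃) ^ n * (H n ^ D.m)⁻¹ * H n ^ d =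
        Real.exp (-(ε / 2 * n)) * (((nn (up D.u) : ℝ) / k₃) ^ n * H n ^ D.r) := by
      rw [hdm]
      field_simp
    have e2 : C' * ((1 + (d + 1) * C) * (Real.exp (-(ε * n)) * (H n ^ d)⁻¹)) * H n ^ d =
        C' * (1 + (d + 1) * C) * Real.exp (-(ε * n)) := by
      field_simp
    rw [e1, e2] at h5
    exact h5
  have h6 : Real.exp (-(ε / 2 * n)) ≤ C' * (1 + (d + 1) * C) * Real.exp (-(ε * n)) := by
    refine le_trans ?_ h4
    have := mul_le_mul_of_nonneg_left h2 (Real.exp_pos (-(ε / 2 * n))).le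
    rwa [mul_one] at this
  have h7 : Real.exp (-(ε / 2 * n)) = Real.exp (ε / 2 * n) * Real.exp (-(ε * n)) := by
    rw [← Real.exp_add]
    congr 1
    ring
  rw [h7] at h6
  have h8 := le_of_mul_le_mul_right h6 (Real.exp_pos _)
  linarith

end Pool.Agent.Work.MP_f1a024_nt.RW
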