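import Pool.Agent.Work.MP_f1a024_nt.RW.StmtsJ

/-!
# Block WJ, item CUJ: application of Proposition U (helper26, after RW/CU.lean of helper99)
-/

namespace Pool.Agent.Work.MP_f1a024_nt.RW

open Finset MvPolynomial Filter
open Pool.Agent.Work.MP_f1a024_nt.AH (tau PG val D1 D2 D4 D10a D10b)

lemma CUJ_sum {d m : ℕ} (y : Fin m → Fin (d + 1) → ℤ) (c : Fin m → Rg) (n : ℕ)
    (x : Fin (d + 1) → ℤ) :
    ∑ k, ev n (c k) * ((∑ i, y k i * x i : ℤ) : ℚ) = ∑ i, ev n (cb y c i) * (x i : ℚ) := by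
  have h1 : ∀ i, ev n (cb y c i) * (x i : ℚ) = ∑ k, ev n (c k) * ((y k i : ℚ) * (x i : ℚ)) := by
    intro i
    unfold cb
    rw [map_sum, Finset.sum_mul]
    refine Finset.sum_congr rfl fun k _ => ?_
    rw [map_mul, map_intCast, mul_assoc]
  rw [Finset.sum_congr rfl fun i _ => h1 i, Finset.sum_comm]
  refine Finset.sum_congr rfl fun k _ => ?_
  push_cast
  rw [Finset.mul_sum]

lemma CUJ_bound {d m : ℕ} (y : Fin m → Fin (d + 1) → ℤ) (x : Fin (d + 1) → ℤ) (H : ℝ)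
    (hH : 0 ≤ H) (hx : ∀ i, |(x i : ℝ)| ≤ H) (k : Fin m) :
    |((∑ i, y k i * x i : ℤ) : ℝ)| ≤ (1 + ∑ k, ∑ i, |(y k i : ℝ)|) * H := by
  push_cast
  calc |∑ i, (y k i : ℝ) * (x i : ℝ)| ≤ ∑ i, |(y k i : ℝ) * (x i : ℝ)| :=
        Finset.abs_sum_le_sum_abs _ _
    _ ≤ ∑ i, |(y k i : ℝ)| * H := Finset.sum_le_sum fun i _ => by
        rw [abs_mul]
        exact mul_le_mul_of_nonneg_left (hx i) (abs_nonneg _)
    _ = (∑ i, |(y k i : ℝ)|) * H := by rw [Finset.sum_mul]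
    _ ≤ (1 + ∑ k, ∑ i, |(y k i : ℝ)|) * H := by
        refine mul_le_mul_of_nonneg_right ?_ hH
        have h1 : (∑ i, |(y k i : ℝ)|) ≤ ∑ k, ∑ i, |(y k i : ℝ)| :=
          Finset.single_le_sum (f := fun k => ∑ i, |(y k i : ℝ)|)
            (fun k _ => Finset.sum_nonneg fun i _ => abs_nonneg _) (Finset.mem_univ k)
        linarith

theorem prfCUJ (hNB : NB) (hLB : LB) (hUB : UB) (hEB : EB) (hPU : PU) (hF1b : F1bJ) : CUJ := by
  intro d f T 𝒰 x H B ε W D k₃ Y h𝒰 hH hW hk₃ hk₃' hY hε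
  obtain ⟨-, hnadd, hnpos, -, hnex, -, hdvd, -⟩ := hNB
  obtain ⟨hL1, hL2, hL3, hL4⟩ := hLB
  obtain ⟨-, hU2, -, -, hU5, -, hU7⟩ := hUB
  have hk₃0 : 0 < k₃ := by
    rcases Nat.eq_zero_or_pos k₃ with h | h
    · exfalso
      apply hk₃
      rw [h]
      simp [uvJ]
    · exact h
  -- the points
  set x' : ℕ → Fin (D.m + 2) → ℤ := fun n k => ∑ i, D.y k i * x n i with hx'
  set C₁ : ℝ := 1 + ∑ k, ∑ i, |(D.y k i : ℝ)| with hC₁
  have hC₁1 : 1 ≤ C₁ := by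
    have : 0 ≤ ∑ k, ∑ i, |(D.y k i : ℝ)| :=
      Finset.sum_nonneg fun k _ => Finset.sum_nonneg fun i _ => abs_nonneg _
    linarith
  have hH' : ∀ᶠ n : ℕ in (𝒰 : Filter ℕ), 1 ≤ C₁ * H n ∧ C₁ * H n ≤ (C₁ * |B|) ^ n ∧
      ∀ k, |(x' n k : ℝ)| ≤ C₁ * H n := by
    filter_upwards [hH, h𝒰 (eventually_ge_atTop 1)] with n hn hn1
    obtain ⟨h1, h2, h3⟩ := hn
    refine ⟨?_, ?_, ?_⟩
    · nlinarith
    · rw [mul_pow]
      have h4 : H n ≤ |B| ^ n := h2.trans (by rw [← abs_pow]; exact le_abs_self _)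
      have h5 : C₁ ≤ C₁ ^ n := le_self_pow₀ hC₁1 (by omega)
      exact mul_le_mul h5 h4 (by linarith) (by positivity)
    · intro k
      exact CUJ_bound D.y (x n) (H n) (by linarith) h3 k
  have hrel : ∀ c : Fin (D.m + 2) → Rg, Rel 𝒰 x' c ↔ cb D.y c ∈ W := by
    intro c
    rw [hW]
    unfold Rel
    refine eventually_congr (Eventually.of_forall fun n => ?_)
    rw [← CUJ_sum D.y c n (x n)]
  -- the lowest exponents
  set v : Rg := ∑ i, D.u i * vbJ Y (f i) with hv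
  have hvlow : IsLow v (ex k₃) := hF1b d Y k₃ f D.u hk₃ hk₃' hY
  have hv0 : v ≠ 0 := hL4 _ _ hvlow
  set g : Rg := dt D.u (D.y 1) with hg
  obtain ⟨κg, hκg⟩ := hL1 g D.hu1
  obtain ⟨κs, hκs⟩ := hL1 D.s D.hs
  obtain ⟨κq, hκq⟩ := hL1 D.q D.hq
  set l : Fin (D.m + 2) → Rg := fun k => ∑ i : Fin (d + 1), vbJ Y (f i) * D.μ i k with hl
  have hl0 : l 0 = 0 := by
    simp only [hl]
    refine Finset.sum_eq_zero fun i _ => ?_
    rw [D.hμ0 i, mul_zero]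
  have hl1 : l 1 * g = D.q * v := by
    simp only [hl, hv]
    rw [Finset.sum_mul, Finset.mul_sum]
    refine Finset.sum_congr rfl fun i _ => ?_
    have := D.hqu i
    rw [← hg] at this
    calc vbJ Y (f i) * D.μ i 1 * g = vbJ Y (f i) * (D.μ i 1 * g) := by ring
      _ = D.q * (D.u i * vbJ Y (f i)) := by rw [← this]; ring
  have hl1' : l 1 ≠ 0 := by
    intro h
    rw [h, zero_mul] at hl1
    exact mul_ne_zero D.hq hv0 hl1.symm
  obtain ⟨κ1, hκ1⟩ := hL1 (l 1) hl1'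
  have hκ : κ1 + κg = κq + ex k₃ := by
    refine hL2 _ _ _ (hL3 _ _ _ _ hκ1 hκg) ?_
    rw [hl1]
    exact hL3 _ _ _ _ hκq hvlow
  have hw0 : IsLow (D.w 0) (κs + κg) := by
    rw [D.hw0]
    exact hL3 _ _ _ _ hκs hκg
  -- the sizes
  have hsz : nn κs * nn (up D.u) ≤ nn (up D.w) := by
    have h1 : up1 (D.w 0) = up1 D.s + up D.u := by
      rw [D.hw0, hU2 _ _ D.hs D.hu1, D.hdeg]
    have h2 := hU5 (Fin (D.m + 2)) D.w 0
    rw [h1, hdvd, hnadd] at h2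
    refine le_trans ?_ (Nat.le_of_dvd (hnpos _) h2)
    exact Nat.mul_le_mul_right _ (hU7 D.s κs hκs.1)
  have hprod : nn (κs + κg) * nn κ1 = nn κs * (nn κq * k₃) := by
    have h1 : nn (κ1 + κg) = nn (κq + ex k₃) := by rw [hκ]
    rw [hnadd, hnadd, hnex k₃ hk₃0] at h1
    rw [hnadd]
    calc nn κs * nn κg * nn κ1 = nn κs * (nn κ1 * nn κg) := by ring
      _ = nn κs * (nn κq * k₃) := by rw [h1]
  have hq : ((nn (up D.u) : ℝ) / ((nn κq : ℝ) * k₃)) ≤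
      (nn (up D.w) : ℝ) / ((nn (κs + κg) : ℝ) * (nn κ1 : ℝ)) := by
    have h1 : ((nn (κs + κg) : ℝ) * (nn κ1 : ℝ)) = (nn κs : ℝ) * ((nn κq : ℝ) * k₃) := by
      exact_mod_cast hprod
    have p1 : (0 : ℝ) < nn κs := by exact_mod_cast hnpos κs
    have p2 : (0 : ℝ) < nn κq := by exact_mod_cast hnpos κq
    have p3 : (0 : ℝ) < k₃ := by exact_mod_cast hk₃0
    have h2 : (nn κs : ℝ) * nn (up D.u) ≤ nn (up D.w) := by exact_mod_cast hsz
    rw [h1, div_le_div_iff₀ (by positivity) (by positivity)]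
    calc (nn (up D.u) : ℝ) * ((nn κs : ℝ) * ((nn κq : ℝ) * k₃))
        = ((nn κs : ℝ) * nn (up D.u)) * ((nn κq : ℝ) * k₃) := by ring
      _ ≤ nn (up D.w) * ((nn κq : ℝ) * k₃) := mul_le_mul_of_nonneg_right h2 (by positivity)
  -- Proposition U
  have hP := hPU D.m 𝒰 x' (fun n => C₁ * H n) (C₁ * |B|) D.w l (κs + κg) κ1 ε hH'
    ((hrel _).2 D.hw) (fun c hc => D.hsat c ((hrel c).1 hc)) hw0 hl0 hκ1 hε
  -- the linear forms
  have hlin : ∀ᶠ n : ℕ in (𝒰 : Filter ℕ), ∑ k, ev n (l k) * (x' n k : ℚ) =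
      ev n D.q * ∑ i : Fin (d + 1), ev n (vbJ Y (f i)) * (x n i : ℚ) := by
    have h1 : ∀ᶠ n : ℕ in (𝒰 : Filter ℕ), ∀ i : Fin (d + 1),
        ev n D.q * (x n i : ℚ) = ∑ k, ev n (D.μ i k) * (x' n k : ℚ) := by
      rw [eventually_all]
      intro i
      have h2 := (hW _).1 (D.hμ i)
      unfold Rel at h2
      filter_upwards [h2] with n hn
      simp only [map_sub, sub_mul, Finset.sum_sub_distrib] at hn
      rw [CUJ_sum D.y (D.μ i) n (x n), ← sub_eq_zero, ← hn]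
      congr 1
      rw [Finset.sum_eq_single i]
      · rw [if_pos rfl, mul_one]
      · intro j _ hj
        rw [if_neg hj, mul_zero, map_zero, zero_mul]
      · intro h3
        exact absurd (Finset.mem_univ _) h3
    filter_upwards [h1] with n hn
    rw [Finset.mul_sum]
    have h3 : ∀ i : Fin (d + 1), ev n D.q * (ev n (vbJ Y (f i)) * (x n i : ℚ)) =
        ∑ k, ev n (vbJ Y (f i)) * (ev n (D.μ i k) * (x' n k : ℚ)) := by
      intro i
      rw [← Finset.mul_sum, ← hn i]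
      ring
    rw [Finset.sum_congr rfl fun i _ => h3 i, Finset.sum_comm]
    refine Finset.sum_congr rfl fun k _ => ?_
    simp only [hl]
    rw [map_sum, Finset.sum_mul]
    refine Finset.sum_congr rfl fun i _ => ?_
    rw [map_mul, mul_assoc]
  obtain ⟨C, M, hC, hEq⟩ := hEB.2 D.q κq hκq
  refine ⟨C * C₁ ^ D.m, by positivity, ?_⟩
  filter_upwards [hP, hlin, hH, h𝒰 (eventually_ge_atTop M)] with n h1 h2 h3 h4
  obtain ⟨-, hE⟩ := hEq n h4
  rw [h2] at h1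
  push_cast at h1 ⊢
  rw [abs_mul] at h1
  set SS : ℝ := |∑ i : Fin (d + 1), ((ev n (vbJ Y (f i)) : ℚ) : ℝ) * (x n i : ℝ)| with hSS
  have hSS0 : 0 ≤ SS := abs_nonneg _
  have hHn : 0 < H n := by linarith [h3.1]
  have p2 : (0 : ℝ) < nn κq := by exact_mod_cast hnpos κq
  have p3 : (0 : ℝ) < k₃ := by exact_mod_cast hk₃0
  have p4 : (0 : ℝ) < nn (up D.u) := by exact_mod_cast hnpos _
  have h5 : Real.exp (-(ε * n)) * ((nn (up D.u) : ℝ) / ((nn κq : ℝ) * k₃)) ^ n *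
      ((C₁ * H n) ^ D.m)⁻¹ ≤ C * ((nn κq : ℝ) ^ n)⁻¹ * SS := by
    refine le_trans ?_ (h1.trans (mul_le_mul_of_nonneg_right hE hSS0))
    refine mul_le_mul_of_nonneg_right (mul_le_mul_of_nonneg_left ?_ (Real.exp_pos _).le)
      (by positivity)
    exact pow_le_pow_left₀ (by positivity) hq n
  have h6 : Real.exp (-(ε * n)) * ((nn (up D.u) : ℝ) / k₃) ^ n * (H n ^ D.m)⁻¹ =
      (Real.exp (-(ε * n)) * ((nn (up D.u) : ℝ) / ((nn κq : ℝ) * k₃)) ^ n *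
      ((C₁ * H n) ^ D.m)⁻¹) * ((nn κq : ℝ) ^ n * C₁ ^ D.m) := by
    have e1 : ((nn (up D.u) : ℝ) / k₃) ^ n =
        ((nn (up D.u) : ℝ) / ((nn κq : ℝ) * k₃)) ^ n * (nn κq : ℝ) ^ n := by
      rw [← mul_pow]
      congr 1
      field_simp
    have e2 : (H n ^ D.m)⁻¹ = ((C₁ * H n) ^ D.m)⁻¹ * C₁ ^ D.m := by
      rw [mul_pow]
      have : C₁ ^ D.m ≠ 0 := by positivity
      have : H n ^ D.m ≠ 0 := by positivity
      field_simp
    rw [e1, e2]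
    ring
  rw [h6]
  calc _ ≤ (C * ((nn κq : ℝ) ^ n)⁻¹ * SS) * ((nn κq : ℝ) ^ n * C₁ ^ D.m) :=
        mul_le_mul_of_nonneg_right h5 (by positivity)
    _ = C * C₁ ^ D.m * SS := by
        have : (nn κq : ℝ) ^ n ≠ 0 := by positivity
        field_simp

end Pool.Agent.Work.MP_f1a024_nt.RW
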