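import Pool.Agent.Work.MP_f1a024_nt.RW.StmtsJ

/-!
# Block WJ, item DEJ: Descartes' rule of signs for polynomials with few terms
-/

namespace Pool.Agent.Work.MP_f1a024_nt.RW

open Finset

theorem DEJ_sv : ∀ (n : ℕ) (P : Polynomial ℚ), P.support.card = n + 1 → P.signVariations ≤ n := by
  intro n
  induction n with
  | zero =>
    intro P hP
    have h0 : P.eraseLead.support.card = 0 := Polynomial.card_support_eraseLead' hP
    have h1 : P.eraseLead = 0 := by
      rw [Finset.card_eq_zero, Polynomial.support_eq_empty] at h0
      exact h0
    have h2 := Polynomial.eraseLead_add_monomial_natDegree_leadingCoeff P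
    rw [h1, zero_add] at h2
    rw [← h2, Polynomial.signVariations_monomial]
  | succ n ih =>
    intro P hP
    have h0 : P.eraseLead.support.card = n + 1 := Polynomial.card_support_eraseLead' hP
    have h1 := ih P.eraseLead h0
    have h2 := Polynomial.signVariations_le_eraseLead_succ P
    omega

theorem prfDEJ : DEJ := by
  intro k P x hP hcard hx hpos
  by_contra hcon
  have hroot : ∀ i, P.eval (x i) = 0 := by
    intro i
    by_contra h
    exact hcon ⟨i, h⟩
  obtain ⟨n, hn⟩ : ∃ n, P.support.card = n + 1 := by
    refine ⟨P.support.card - 1, ?_⟩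
    have h : P.support.card ≠ 0 := by
      rw [Finset.card_ne_zero, Polynomial.nonempty_support_iff]
      exact hP
    omega
  have h1 := DEJ_sv n P hn
  have h2 := Polynomial.roots_countP_pos_le_signVariations P
  have h3 : (Finset.univ.image x).val ≤ P.roots.filter (0 < ·) := by
    rw [Multiset.le_iff_subset (Finset.univ.image x).nodup]
    intro y hy
    rw [Finset.mem_val, Finset.mem_image] at hy
    obtain ⟨i, -, rfl⟩ := hy
    rw [Multiset.mem_filter, Polynomial.mem_roots hP]
    exact ⟨hroot i, hpos i⟩
  have h4 := Multiset.card_le_card h3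
  rw [← Multiset.countP_eq_card_filter] at h4
  have h5 : Multiset.card (Finset.univ.image x).val = k + 1 := by
    rw [Finset.card_val, Finset.card_image_of_injective _ hx, Finset.card_univ, Fintype.card_fin]
  omega

end Pool.Agent.Work.MP_f1a024_nt.RW
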