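import Pool.Agent.Work.MP_f1a024_nt.RW.StmtsJ

/-!
# Block WJ, item DIJ: the dimension of the flag
-/

namespace Pool.Agent.Work.MP_f1a024_nt.RW

open Finset MvPolynomial Filter
open Pool.Agent.Work.MP_f1a024_nt.AH (tau PG val D1 D2 D4 D10a D10b)

theorem DIJ_range {k D d r : ℕ} (A : Fin (d + 1) ≃ (Fin (k + 1) → Fin (D + 1))) (hr : r ≤ d) :
    Set.range (fun l : Fin (r + 1) => fun i : Fin (d + 1) =>
      bi (A (Fin.castLE (Nat.succ_le_succ hr) l)) (A i)) =
      {t | ∃ l : Fin (d + 1), (l : ℕ) ≤ r ∧ t = fun i => bi (A l) (A i)} := by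
  ext t
  constructor
  · rintro ⟨l, rfl⟩
    exact ⟨Fin.castLE (Nat.succ_le_succ hr) l, Nat.le_of_lt_succ l.2, rfl⟩
  · rintro ⟨l, hl, rfl⟩
    exact ⟨⟨l, Nat.lt_succ_of_le hl⟩, rfl⟩

theorem DIJ_indep (h : BIJ) {k D d r : ℕ} (A : Fin (d + 1) ≃ (Fin (k + 1) → Fin (D + 1)))
    (hr : r ≤ d) :
    LinearIndependent ℚ (fun l : Fin (r + 1) => fun i : Fin (d + 1) =>
      bi (A (Fin.castLE (Nat.succ_le_succ hr) l)) (A i)) := by
  rw [Fintype.linearIndependent_iff]
  intro g hg
  set e : Fin (r + 1) → (Fin (k + 1) → Fin (D + 1)) :=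
    fun l => A (Fin.castLE (Nat.succ_le_succ hr) l) with he
  have heinj : Function.Injective e :=
    A.injective.comp (Fin.castLE_injective (Nat.succ_le_succ hr))
  let lam : (Fin (k + 1) → Fin (D + 1)) → ℚ := fun α =>
    if hα : ((A.symm α : Fin (d + 1)) : ℕ) < r + 1 then g ⟨A.symm α, hα⟩ else 0
  have hlam : ∀ l, lam (e l) = g l := by
    intro l
    have h1 : A.symm (e l) = Fin.castLE (Nat.succ_le_succ hr) l := A.symm_apply_apply _
    have h2 : ((A.symm (e l) : Fin (d + 1)) : ℕ) < r + 1 := by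
      rw [h1]
      exact l.2
    have h3 : lam (e l) = g ⟨A.symm (e l), h2⟩ := dif_pos h2
    rw [h3]
    congr 1
    apply Fin.ext
    show ((A.symm (e l) : Fin (d + 1)) : ℕ) = l
    rw [h1]
    rfl
  have hzero : ∀ α ∉ Set.range e, lam α = 0 := by
    intro α hα
    have h2 : ¬ ((A.symm α : Fin (d + 1)) : ℕ) < r + 1 := by
      intro h2
      apply hα
      refine ⟨⟨A.symm α, h2⟩, ?_⟩
      show A (Fin.castLE (Nat.succ_le_succ hr) ⟨A.symm α, h2⟩) = α
      have h3 : Fin.castLE (Nat.succ_le_succ hr) ⟨A.symm α, h2⟩ = A.symm α := Fin.ext rfl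
      rw [h3, A.apply_symm_apply]
    exact dif_neg h2
  have hall := h k D lam (by
    intro I
    have hs : ∑ l : Fin (r + 1), g l * bi (e l) I = ∑ α, lam α * bi α I := by
      refine Fintype.sum_of_injective e heinj _ _ ?_ ?_
      · intro α hα
        rw [hzero α hα, zero_mul]
      · intro l
        rw [hlam]
    rw [← hs]
    have hI := congrFun hg (A.symm I)
    rw [Finset.sum_apply] at hI
    simp only [Pi.smul_apply, smul_eq_mul, A.apply_symm_apply, Pi.zero_apply] at hI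
    exact hI)
  intro l
  rw [← hlam l]
  exact hall _

theorem prfDIJ (h : BIJ) : DIJ := by
  intro k D d A r hr
  unfold TJ
  rw [← DIJ_range A hr, finrank_span_eq_card (DIJ_indep h A hr), Fintype.card_fin]

end Pool.Agent.Work.MP_f1a024_nt.RW
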