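import Pool.Agent.Work.MP_f1a024_nt.RW.StmtsJ

/-!
# Block WJ, item DVJ (helper66): factorisations of a product of prime powers
-/

namespace Pool.Agent.Work.MP_f1a024_nt.RW

open Finset MvPolynomial Filter
open Pool.Agent.Work.MP_f1a024_nt.AH (tau)

theorem DVJ_ne {k : ℕ} {S : Fin (k + 1) → ℕ} (hp : ∀ j, (S j).Prime) (e : Fin (k + 1) → ℕ) :
    ∏ j, S j ^ e j ≠ 0 :=
  Finset.prod_ne_zero_iff.2 fun j _ => pow_ne_zero _ (hp j).ne_zero

theorem DVJ_fact {k : ℕ} {S : Fin (k + 1) → ℕ} (hS : Function.Injective S)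
    (hp : ∀ j, (S j).Prime) (e : Fin (k + 1) → ℕ) (i : Fin (k + 1)) :
    (∏ j, S j ^ e j).factorization (S i) = e i := by
  rw [Nat.factorization_prod (fun j _ => pow_ne_zero _ (hp j).ne_zero), Finsupp.finset_sum_apply,
    Finset.sum_eq_single i]
  · rw [Nat.Prime.factorization_pow (hp i), Finsupp.single_eq_same]
  · intro j _ hj
    rw [Nat.Prime.factorization_pow (hp j), Finsupp.single_apply, if_neg]
    exact fun h => hj (hS h)
  · intro h
    exact absurd (Finset.mem_univ i) h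

theorem DVJ_self {k : ℕ} {S : Fin (k + 1) → ℕ} (hS : Function.Injective S)
    (hp : ∀ j, (S j).Prime) (e : Fin (k + 1) → ℕ) {a : ℕ} (ha : a ∣ ∏ j, S j ^ e j) :
    ∏ j, S j ^ a.factorization (S j) = a := by
  have ha0 : a ≠ 0 := ne_zero_of_dvd_ne_zero (DVJ_ne hp e) ha
  apply Nat.eq_of_factorization_eq (DVJ_ne hp _) ha0
  intro p
  by_cases hpp : p.Prime
  · by_cases hi : ∃ i, S i = p
    · obtain ⟨i, rfl⟩ := hi
      exact DVJ_fact hS hp _ i
    · have key : ∀ e' : Fin (k + 1) → ℕ, ¬ p ∣ ∏ j, S j ^ e' j := by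
        intro e' hd
        obtain ⟨j, -, hj⟩ := (hpp.prime.dvd_finset_prod_iff _).1 hd
        exact hi ⟨j, ((Nat.prime_dvd_prime_iff_eq hpp (hp j)).1 (hpp.dvd_of_dvd_pow hj)).symm⟩
      rw [Nat.factorization_eq_zero_of_not_dvd (key _),
        Nat.factorization_eq_zero_of_not_dvd (fun h => key e (h.trans ha))]
  · rw [Nat.factorization_eq_zero_of_not_prime _ hpp, Nat.factorization_eq_zero_of_not_prime _ hpp]

/-- Item DVJ. -/
theorem prfDVJ : DVJ := by
  intro k S hS hp e F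
  symm
  refine Finset.sum_nbij' (fun e' => (∏ j, S j ^ e' j, ∏ j, S j ^ (e j - e' j)))
    (fun ab j => ab.1.factorization (S j)) ?_ ?_ ?_ ?_ ?_
  · intro e' he'
    rw [Finset.mem_Iic] at he'
    rw [Nat.mem_divisorsAntidiagonal]
    refine ⟨?_, DVJ_ne hp e⟩
    rw [← Finset.prod_mul_distrib]
    apply Finset.prod_congr rfl
    intro j _
    rw [← pow_add, Nat.add_sub_cancel' (he' j)]
  · intro ab hab
    rw [Nat.mem_divisorsAntidiagonal] at hab
    have hd : ab.1 ∣ ∏ j, S j ^ e j := ⟨ab.2, hab.1.symm⟩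
    have ha0 : ab.1 ≠ 0 := ne_zero_of_dvd_ne_zero (DVJ_ne hp e) hd
    rw [Finset.mem_Iic]
    intro j
    have h1 := (Nat.factorization_le_iff_dvd ha0 (DVJ_ne hp e)).2 hd (S j)
    rw [DVJ_fact hS hp] at h1
    exact h1
  · intro e' _
    funext i
    exact DVJ_fact hS hp e' i
  · intro ab hab
    rw [Nat.mem_divisorsAntidiagonal] at hab
    have hd : ab.1 ∣ ∏ j, S j ^ e j := ⟨ab.2, hab.1.symm⟩
    have ha0 : ab.1 ≠ 0 := ne_zero_of_dvd_ne_zero (DVJ_ne hp e) hd
    have h1 : ∏ j, S j ^ ab.1.factorization (S j) = ab.1 := DVJ_self hS hp e hd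
    have hle : ∀ j, ab.1.factorization (S j) ≤ e j := by
      intro j
      have h2 := (Nat.factorization_le_iff_dvd ha0 (DVJ_ne hp e)).2 hd (S j)
      rw [DVJ_fact hS hp] at h2
      exact h2
    have h4 : (∏ j, S j ^ ab.1.factorization (S j)) *
        ∏ j, S j ^ (e j - ab.1.factorization (S j)) = ∏ j, S j ^ e j := by
      rw [← Finset.prod_mul_distrib]
      apply Finset.prod_congr rfl
      intro j _
      rw [← pow_add, Nat.add_sub_cancel' (hle j)]
    have h3 : ab.1 * ∏ j, S j ^ (e j - ab.1.factorization (S j)) = ab.1 * ab.2 := by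
      rw [h1] at h4
      rw [h4, hab.1]
    exact Prod.ext h1 (Nat.eq_of_mul_eq_mul_left (Nat.pos_of_ne_zero ha0) h3)
  · intro e' _
    rfl

end Pool.Agent.Work.MP_f1a024_nt.RW
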