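import Mathlib
import Pool.Agent.Work.Tools.Subspace.Stmts3
import Pool.Agent.Work.MP_f1a024_nt.AH.Stmts

/-!
# Block RW: definitions

Dirichlet polynomials `∑ f_m m^(-s)` with rational coefficients are written as polynomials in the
variables `z_p` (`p` prime): the exponent `a` stands for the integer `nn a = ∏ p ^ a_p`, and
`ev n f` is the value at `s = n`.
-/

namespace Pool.Agent.Work.MP_f1a024_nt.RW

open Finset MvPolynomial Filter
open Pool.Agent.Work.MP_f1a024_nt.AH (tau)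

/-- exponents -/
abbrev Ex : Type := Nat.Primes →₀ ℕ

/-- Dirichlet polynomials, as polynomials in the variables `z_p`, `p` prime -/
abbrev Rg : Type := MvPolynomial Nat.Primes ℚ

/-- the integer of an exponent -/
noncomputable def nn (a : Ex) : ℕ := a.prod fun p k => (p : ℕ) ^ k

/-- the exponent of an integer -/
noncomputable def ex (m : ℕ) : Ex :=
  m.factorization.comapDomain (fun p : Nat.Primes => (p : ℕ)) Subtype.val_injective.injOn

/-- the value of a Dirichlet polynomial at `n`, that is at `z_p = p ^ (-n)` -/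
noncomputable def ev (n : ℕ) : Rg →ₐ[ℚ] ℚ :=
  MvPolynomial.aeval fun p : Nat.Primes => (((p : ℕ) : ℚ) ^ n)⁻¹

/-- `κ` is the exponent of `f` with the smallest integer -/
def IsLow (f : Rg) (κ : Ex) : Prop := κ ∈ f.support ∧ ∀ b ∈ f.support, nn κ ≤ nn b

/-- the supremum of the exponents of `f`: `(up1 f) p` is the degree of `f` in `z_p` -/
noncomputable def up1 (f : Rg) : Ex := f.support.sup id

/-- the supremum of the exponents of all `w k` -/
noncomputable def up {ι : Type} [Fintype ι] (w : ι → Rg) : Ex := univ.sup fun k => up1 (w k)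

/-- the box -/
noncomputable def bx (ι : Type) [Fintype ι] (δ : Ex) : Finset (ι × Ex) := univ ×ˢ Iic δ

/-- the shift of `w` by the exponent `a`, as a functional on the functions on the box -/
noncomputable def sh {ι : Type} (w : ι → Rg) (a : Ex) (i : ι × Ex) : ℚ :=
  if a ≤ i.2 then (w i.1).coeff (i.2 - a) else 0

/-- the point `(x_k / N(b)^n)` -/
noncomputable def pt {ι : Type} (n : ℕ) (x : ι → ℤ) (i : ι × Ex) : ℚ :=
  (x i.1 : ℚ) / (nn i.2 : ℚ) ^ n

/-- the excluded coordinates `(k, a + κ)`, `a ≤ δ'` -/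
noncomputable def ee {ι : Type} [DecidableEq ι] (k : ι) (κ δ' : Ex) : Finset (ι × Ex) :=
  (Iic δ').image fun a => (k, a + κ)

/-- the forms at the infinite place: the shifts of `l` at the coordinates in `ee k κ δ'`, the
coordinates themselves elsewhere -/
noncomputable def lf {ι : Type} [DecidableEq ι] (l : ι → Rg) (k : ι) (κ δ' : Ex)
    (i j : ι × Ex) : ℚ :=
  if i ∈ ee k κ δ' then sh l (i.2 - κ) j else if i = j then 1 else 0

/-- `c` is a relation of the points `x n` for almost all `n` -/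
def Rel (𝒰 : Ultrafilter ℕ) {ι : Type} [Fintype ι] (x : ℕ → ι → ℤ) (c : ι → Rg) : Prop :=
  ∀ᶠ n : ℕ in (𝒰 : Filter ℕ), ∑ k, ev n (c k) * (x n k : ℚ) = 0

/-- the linear combination `∑ c_k y_k` -/
def cb {R : Type} [CommRing R] {m N : ℕ} (y : Fin m → Fin N → ℤ) (c : Fin m → R) : Fin N → R :=
  fun i => ∑ k, c k * ((y k i : ℤ) : R)

/-- the product `u ⋅ y` -/
def dt {R : Type} [CommRing R] {N : ℕ} (u : Fin N → R) (y : Fin N → ℤ) : R :=
  ∑ i, u i * ((y i : ℤ) : R)

/-- the span of the vectors `(C(i, l))_i`, `l ≤ r` -/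
def TT (d r : ℕ) : Submodule ℚ (Fin (d + 1) → ℚ) :=
  Submodule.span ℚ {t | ∃ l ≤ r, t = fun i : Fin (d + 1) => (((i : ℕ).choose l : ℕ) : ℚ)}

/-- the coefficients of the Dirichlet series `∑ u_i t ^ i` -/
noncomputable def uv {d : ℕ} (u : Fin (d + 1) → Rg) (m : ℕ) : ℚ :=
  ∑ ab ∈ m.divisorsAntidiagonal, ∑ i, (u i).coeff (ex ab.1) * (tau ^ (i : ℕ)) ab.2

/-- the Dirichlet series of `t ^ i`, cut off at `Y` -/
noncomputable def vb (Y i : ℕ) : Rg := ∑ m ∈ Finset.Ico 1 Y, monomial (ex m) ((tau ^ i) m)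

/-- the data of Part II -/
structure PD (d : ℕ) (W : Submodule Rg (Fin (d + 1) → Rg)) where
  /-- the rank -/
  r : ℕ
  /-- the number of vectors -/
  m : ℕ
  hmr : m + r = d
  /-- the vectors `b_0, b_1, a_1, ..., a_m` -/
  y : Fin (m + 2) → Fin (d + 1) → ℤ
  /-- the normal vector -/
  u : Fin (d + 1) → Rg
  hu : ∃ i, u i ≠ 0
  hua : ∀ l : Fin m, dt u (y l.succ.succ) = 0
  hspan : ∀ p : Nat.Primes, ∀ z : Fin (d + 1) → ℚ,
    (∀ e ≤ r, ∑ i, z i * (tau ^ (i : ℕ)) ((p : ℕ) ^ e) = 0) →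
    (∀ l : Fin m, ∑ i, z i * (y l.succ.succ i : ℚ) = 0) → z = 0
  hu1 : dt u (y 1) ≠ 0
  hdeg : up1 (dt u (y 1)) = up u
  /-- the denominator -/
  s : Rg
  hs : s ≠ 0
  /-- the relation -/
  w : Fin (m + 2) → Rg
  hw0 : w 0 = s * dt u (y 1)
  hw : cb y w ∈ W
  hsat : ∀ c : Fin (m + 2) → Rg, cb y c ∈ W → ∃ t, ∀ k, c k = t * w k
  /-- the common denominator -/
  q : Rg
  hq : q ≠ 0
  /-- the coordinates -/
  μ : Fin (d + 1) → Fin (m + 2) → Rg
  hμ0 : ∀ i, μ i 0 = 0
  hμ : ∀ i, (fun i' => q * (if i' = i then 1 else 0) - cb y (μ i) i') ∈ W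
  hqu : ∀ i, q * u i = μ i 1 * dt u (y 1)

end Pool.Agent.Work.MP_f1a024_nt.RW
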