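import Pool.Agent.Work.MP_f1a024_nt.RW.Stmts2

/-!
# Block WJ: definitions (THEOREM W jointly for `t(n + s_0), ..., t(n + s_k)`)

Part G (general): a family `f_i`, `i ≤ d`, of arithmetic functions takes the place of the powers
`tau ^ i`. Part F: the family of all products `∏_j (f_{s_j}) ^ {I_j}`, where `f_s(m) = τ(m) m^(-s)`.
-/

namespace Pool.Agent.Work.MP_f1a024_nt.RW

open Finset MvPolynomial Filter
open Pool.Agent.Work.MP_f1a024_nt.AH (tau)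

/-- the coefficients of the Dirichlet series `∑ u_i f_i` -/
noncomputable def uvJ {d : ℕ} (f : Fin (d + 1) → ArithmeticFunction ℚ) (u : Fin (d + 1) → Rg)
    (m : ℕ) : ℚ :=
  ∑ ab ∈ m.divisorsAntidiagonal, ∑ i, (u i).coeff (ex ab.1) * f i ab.2

/-- the Dirichlet series of `g`, cut off at `Y` -/
noncomputable def vbJ (Y : ℕ) (g : ArithmeticFunction ℚ) : Rg :=
  ∑ m ∈ Finset.Ico 1 Y, monomial (ex m) (g m)

/-- the data of Part II, for a flag `T` -/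
structure PDJ (d : ℕ) (T : ℕ → Submodule ℚ (Fin (d + 1) → ℚ))
    (W : Submodule Rg (Fin (d + 1) → Rg)) where
  /-- the rank -/
  r : ℕ
  /-- the number of vectors -/
  m : ℕ
  hmr : m + r = d
  /-- the vectors `b_0, b_1, a_1, ..., a_m` -/
  y : Fin (m + 2) → Fin (d + 1) → ℤ
  /-- the normal vector -/
  u : Fin (d + 1) → Rg
  hu : ∃ i, u i ≠ 0
  hua : ∀ l : Fin m, dt u (y l.succ.succ) = 0
  hspan : ∀ z : Fin (d + 1) → ℚ, (∀ t ∈ T r, ∑ i, z i * t i = 0) →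
    (∀ l : Fin m, ∑ i, z i * (y l.succ.succ i : ℚ) = 0) → z = 0
  hu1 : dt u (y 1) ≠ 0
  hdeg : up1 (dt u (y 1)) = up u
  /-- the denominator -/
  s : Rg
  hs : s ≠ 0
  /-- the relation -/
  w : Fin (m + 2) → Rg
  hw0 : w 0 = s * dt u (y 1)
  hw : cb y w ∈ W
  hsat : ∀ c : Fin (m + 2) → Rg, cb y c ∈ W → ∃ t, ∀ k, c k = t * w k
  /-- the common denominator -/
  q : Rg
  hq : q ≠ 0
  /-- the coordinates -/
  μ : Fin (d + 1) → Fin (m + 2) → Rg
  hμ0 : ∀ i, μ i 0 = 0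
  hμ : ∀ i, (fun i' => q * (if i' = i then 1 else 0) - cb y (μ i) i') ∈ W
  hqu : ∀ i, q * u i = μ i 1 * dt u (y 1)

/-- the local condition for the zero estimate: if `∑ z_i f_i` vanishes at all products of at most
`c r` primes out of `k + 1` given primes then `z` is orthogonal to `T r` -/
def ZL (k d : ℕ) (f : Fin (d + 1) → ArithmeticFunction ℚ)
    (T : ℕ → Submodule ℚ (Fin (d + 1) → ℚ)) (c : ℕ → ℕ) : Prop :=
  ∀ r ≤ d, ∀ S : Fin (k + 1) → ℕ, Function.Injective S → (∀ j, (S j).Prime) →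
    ∀ z : Fin (d + 1) → ℚ,
      (∀ e : Fin (k + 1) → ℕ, ∑ j, e j ≤ c r → ∑ i, z i * f i (∏ j, S j ^ e j) = 0) →
      ∀ t ∈ T r, ∑ i, z i * t i = 0

/-! ## the family -/

/-- the coefficients `τ(m) m^(-s)` of `t(n + s)` -/
noncomputable def ft (s : ℕ) : ArithmeticFunction ℚ := ⟨fun m => tau m / (m : ℚ) ^ s, by simp⟩

/-- the products `∏_j (f_{s_j}) ^ {I_j}`; `A` numbers the exponents `I ∈ {0..D}^(k+1)` -/
noncomputable def fI {k D d : ℕ} (s : Fin (k + 1) → ℕ)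
    (A : Fin (d + 1) ≃ (Fin (k + 1) → Fin (D + 1))) (i : Fin (d + 1)) : ArithmeticFunction ℚ :=
  ∏ j, ft (s j) ^ (A i j : ℕ)

/-- the weight `|α|` -/
def wt {k D : ℕ} (α : Fin (k + 1) → Fin (D + 1)) : ℕ := ∑ j, (α j : ℕ)

/-- the number of `α` with `|α| < c` -/
def nu (k D c : ℕ) : ℕ := (univ.filter fun α : Fin (k + 1) → Fin (D + 1) => wt α < c).card

/-- the product `∏_j C(I_j, α_j)` of binomial coefficients -/
def bi {k D : ℕ} (α I : Fin (k + 1) → Fin (D + 1)) : ℚ :=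
  ∏ j, (((I j : ℕ).choose (α j : ℕ) : ℕ) : ℚ)

/-- the flag: the span of the vectors `(∏_j C((A i)_j, (A l)_j))_i`, `l ≤ r` -/
def TJ {k D d : ℕ} (A : Fin (d + 1) ≃ (Fin (k + 1) → Fin (D + 1))) (r : ℕ) :
    Submodule ℚ (Fin (d + 1) → ℚ) :=
  Submodule.span ℚ {t | ∃ l : Fin (d + 1), (l : ℕ) ≤ r ∧ t = fun i => bi (A l) (A i)}

/-- the weight of `A r` -/
def cJ {k D d : ℕ} (A : Fin (d + 1) ≃ (Fin (k + 1) → Fin (D + 1))) (r : ℕ) : ℕ :=
  if h : r < d + 1 then wt (A ⟨r, h⟩) else 0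

/-- the condition on the threshold `θ` -/
def Th (k D : ℕ) (θ : ℝ) : Prop :=
  ∀ c q : ℕ, 1 ≤ c → c ≤ (k + 1) * D → q.Prime → (q : ℝ) ^ (c + k) ≤ θ ^ nu k D c * pb q

end Pool.Agent.Work.MP_f1a024_nt.RW
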