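import Pool.Agent.Work.MP_f1a024_nt.RW.Stmts

/-!
# Block RW, item EB: values of Dirichlet polynomials
-/

namespace Pool.Agent.Work.MP_f1a024_nt.RW

open Finset MvPolynomial Filter

theorem EB_mon (a : Ex) (n : ℕ) :
    ∏ i ∈ a.support, (((((i : Nat.Primes) : ℕ) : ℚ) ^ n)⁻¹) ^ a i = ((nn a : ℚ) ^ n)⁻¹ := by
  unfold nn Finsupp.prod
  rw [Nat.cast_prod, ← Finset.prod_pow, ← Finset.prod_inv_distrib]
  refine Finset.prod_congr rfl fun p _ => ?_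
  rw [inv_pow, Nat.cast_pow, ← pow_mul, ← pow_mul, mul_comm n (a p)]

theorem EB_val (f : Rg) (n : ℕ) :
    ev n f = ∑ a ∈ f.support, f.coeff a * ((nn a : ℚ) ^ n)⁻¹ := by
  unfold ev
  rw [MvPolynomial.aeval_def, MvPolynomial.eval₂_eq]
  refine Finset.sum_congr rfl fun a _ => ?_
  rw [EB_mon]
  rfl

theorem EB_valR (f : Rg) (n : ℕ) :
    ((ev n f : ℚ) : ℝ) = ∑ a ∈ f.support, ((f.coeff a : ℚ) : ℝ) * ((nn a : ℝ) ^ n)⁻¹ := by
  rw [EB_val]
  push_cast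
  rfl

theorem EB_tend (hpos : ∀ a, 0 < nn a) (hinj : Function.Injective nn) (f : Rg) (κ : Ex)
    (hκ : IsLow f κ) :
    Tendsto (fun n : ℕ => ((ev n f : ℚ) : ℝ) * (nn κ : ℝ) ^ n) atTop
      (nhds ((f.coeff κ : ℚ) : ℝ)) := by
  have h1 : ∀ n : ℕ, ((ev n f : ℚ) : ℝ) * (nn κ : ℝ) ^ n =
      ∑ a ∈ f.support, ((f.coeff a : ℚ) : ℝ) * ((nn κ : ℝ) / nn a) ^ n := by
    intro n
    rw [EB_valR, Finset.sum_mul]
    refine Finset.sum_congr rfl fun a _ => ?_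
    rw [div_pow, mul_assoc, div_eq_inv_mul]
  have h2 : ((f.coeff κ : ℚ) : ℝ) = ∑ a ∈ f.support, if a = κ then ((f.coeff κ : ℚ) : ℝ) else 0 := by
    rw [Finset.sum_ite_eq' f.support κ]
    rw [if_pos hκ.1]
  rw [h2]
  refine Tendsto.congr (fun n => (h1 n).symm) ?_
  refine tendsto_finsetSum _ fun a ha => ?_
  have hna : (0 : ℝ) < nn a := by exact_mod_cast hpos a
  have hnk : (0 : ℝ) < nn κ := by exact_mod_cast hpos κ
  by_cases h : a = κ
  · subst h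
    rw [if_pos rfl]
    have : ∀ n : ℕ, ((f.coeff a : ℚ) : ℝ) * ((nn a : ℝ) / nn a) ^ n = ((f.coeff a : ℚ) : ℝ) := by
      intro n
      rw [div_self hna.ne', one_pow, mul_one]
    exact Tendsto.congr (fun n => (this n).symm) tendsto_const_nhds
  · rw [if_neg h]
    have hlt : nn κ < nn a := lt_of_le_of_ne (hκ.2 a ha) fun e => h (hinj e).symm
    have hlt' : (nn κ : ℝ) / nn a < 1 := by
      rw [div_lt_one hna]
      exact_mod_cast hlt
    have h3 := tendsto_pow_atTop_nhds_zero_of_lt_one (div_pos hnk hna).le hlt'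
    have h4 := h3.const_mul ((f.coeff a : ℚ) : ℝ)
    rw [mul_zero] at h4
    exact h4

theorem prfEB (hNB : NB) : EB := by
  refine ⟨EB_val, ?_⟩
  intro f κ hκ
  have hpos := hNB.2.2.1
  have hinj := hNB.2.2.2.1
  have ht := (EB_tend hpos hinj f κ hκ).abs
  have hc : (0 : ℝ) < |((f.coeff κ : ℚ) : ℝ)| := by
    rw [abs_pos]
    have := MvPolynomial.mem_support_iff.1 hκ.1
    exact_mod_cast this
  set c : ℝ := |((f.coeff κ : ℚ) : ℝ)| with hcdef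
  have e1 : ∀ᶠ n : ℕ in atTop, c / 2 < |((ev n f : ℚ) : ℝ) * (nn κ : ℝ) ^ n| :=
    ht.eventually (eventually_gt_nhds (by linarith))
  have e2 : ∀ᶠ n : ℕ in atTop, |((ev n f : ℚ) : ℝ) * (nn κ : ℝ) ^ n| < 2 * c :=
    ht.eventually (eventually_lt_nhds (by linarith))
  obtain ⟨M, hM⟩ := eventually_atTop.1 (e1.and e2)
  refine ⟨max (2 * c) (2 / c), M, lt_max_of_lt_left (by linarith), fun n hn => ?_⟩
  obtain ⟨g1, g2⟩ := hM n hn
  have hnk : (0 : ℝ) < (nn κ : ℝ) ^ n := pow_pos (by exact_mod_cast hpos κ) n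
  rw [abs_mul, abs_of_pos hnk] at g1 g2
  have hev : |((ev n f : ℚ) : ℝ)| =
      |((ev n f : ℚ) : ℝ)| * (nn κ : ℝ) ^ n * ((nn κ : ℝ) ^ n)⁻¹ := by
    rw [mul_assoc, mul_inv_cancel₀ hnk.ne', mul_one]
  have hinv : (0 : ℝ) < ((nn κ : ℝ) ^ n)⁻¹ := inv_pos.2 hnk
  constructor
  · rw [hev]
    refine mul_le_mul_of_nonneg_right ?_ hinv.le
    have h5 : (max (2 * c) (2 / c))⁻¹ ≤ (2 / c)⁻¹ :=
      inv_anti₀ (by positivity) (le_max_right _ _)
    have h6 : (2 / c)⁻¹ = c / 2 := inv_div 2 c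
    linarith
  · rw [hev]
    refine mul_le_mul_of_nonneg_right ?_ hinv.le
    exact g2.le.trans (le_max_left _ _)

end Pool.Agent.Work.MP_f1a024_nt.RW
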