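import Pool.Agent.Work.MP_f1a024_nt.RW.Stmts

/-!
# Block RW, item EE: the excluded sets
-/

namespace Pool.Agent.Work.MP_f1a024_nt.RW

open Finset MvPolynomial Filter

theorem EE_inj {ι : Type} (k : ι) (κ : Ex) :
    Function.Injective (fun a : Ex => ((k, a + κ) : ι × Ex)) := by
  intro a b hab
  exact add_right_cancel (Prod.ext_iff.1 hab).2

theorem prfEE (hNB : NB) : EE := by
  intro ι _ _ k κ δ' δ
  refine ⟨Finset.card_image_of_injective _ (EE_inj k κ), ?_, ?_⟩
  · intro h i hi
    obtain ⟨a, ha, rfl⟩ := Finset.mem_image.1 hi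
    exact Finset.mem_product.2 ⟨Finset.mem_univ _,
      Finset.mem_Iic.2 ((add_le_add_left (Finset.mem_Iic.1 ha) κ).trans h)⟩
  · unfold ee
    rw [Finset.prod_image fun a _ b _ hab => EE_inj k κ hab]
    rw [Finset.prod_congr rfl fun a _ => hNB.2.1 a κ, Finset.prod_mul_distrib,
      Finset.prod_const]

end Pool.Agent.Work.MP_f1a024_nt.RW
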