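import Pool.Agent.Work.MP_f1a024_nt.RW.Stmts

/-! Block RW, item EXC: the exceptional functionals vanish. -/

namespace Pool.Agent.Work.MP_f1a024_nt.RW

open Finset MvPolynomial Filter

/-- coefficients of a product, summed over the support of the first factor -/
lemma EXC_coeff_mul (t f : Rg) (b : Ex) :
    (t * f).coeff b = ∑ a ∈ t.support, t.coeff a * (if a ≤ b then f.coeff (b - a) else 0) := by
  conv_lhs => rw [MvPolynomial.as_sum t]
  rw [Finset.sum_mul, MvPolynomial.coeff_sum]
  refine Finset.sum_congr rfl fun a _ => ?_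
  rw [MvPolynomial.coeff_monomial_mul']
  split_ifs with h
  · rfl
  · rw [mul_zero]

/-- value of a monomial -/
lemma EXC_ev_monomial (hEB : EB) (n : ℕ) (b : Ex) (r : ℚ) :
    ev n (monomial b r) = r * ((nn b : ℚ) ^ n)⁻¹ := by
  by_cases hr : r = 0
  · rw [hr, monomial_zero, map_zero, zero_mul]
  · rw [hEB.1, MvPolynomial.support_monomial, if_neg hr, Finset.sum_singleton,
      MvPolynomial.coeff_monomial, if_pos rfl]

/-- the polynomial of a functional on the box -/
noncomputable def EXC_hat {ι : Type} (c : ι × Ex → ℚ) (δ : Ex) (k : ι) : Rg :=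
  ∑ b ∈ Iic δ, monomial b (c (k, b))

lemma EXC_coeff_hat {ι : Type} (c : ι × Ex → ℚ) (δ : Ex) (k : ι) (b : Ex) :
    (EXC_hat c δ k).coeff b = if b ≤ δ then c (k, b) else 0 := by
  unfold EXC_hat
  rw [MvPolynomial.coeff_sum]
  simp only [MvPolynomial.coeff_monomial]
  rw [Finset.sum_ite_eq' (Iic δ) b (fun a => c (k, a))]
  simp only [Finset.mem_Iic]

lemma EXC_ev_hat (hEB : EB) {ι : Type} (c : ι × Ex → ℚ) (δ : Ex) (k : ι) (n : ℕ) :
    ev n (EXC_hat c δ k) = ∑ b ∈ Iic δ, c (k, b) * ((nn b : ℚ) ^ n)⁻¹ := by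
  unfold EXC_hat
  rw [map_sum]
  exact Finset.sum_congr rfl fun b _ => EXC_ev_monomial hEB n b _

lemma EXC_up_hat {ι : Type} (c : ι × Ex → ℚ) (δ : Ex) (k : ι) : up1 (EXC_hat c δ k) ≤ δ := by
  unfold up1
  refine Finset.sup_le fun b hb => ?_
  rw [MvPolynomial.mem_support_iff, EXC_coeff_hat] at hb
  by_contra h
  exact hb (if_neg h)

theorem prfEXC (hUB : UB) (hEB : EB) : EXC := by
  obtain ⟨_, hmul, hle, _, hk, hex, _⟩ := hUB
  intro m 𝒰 x w δ hw0 hrel hup c hc y hy
  have hR : Rel 𝒰 x (fun k => EXC_hat c δ k) := by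
    unfold Rel
    filter_upwards [hc] with n hn
    rw [← hn]
    unfold bx
    rw [Finset.sum_product]
    refine Finset.sum_congr rfl fun k _ => ?_
    rw [EXC_ev_hat hEB, Finset.sum_mul]
    refine Finset.sum_congr rfl fun b _ => ?_
    unfold pt
    rw [div_eq_mul_inv]
    ring
  obtain ⟨t, ht⟩ := hrel _ hR
  have hcoe : ∀ i ∈ bx (Fin (m + 2)) δ, c i = ∑ a ∈ t.support, t.coeff a * sh w a i := by
    intro i hi
    obtain ⟨k, b⟩ := i
    unfold bx at hi
    rw [Finset.mem_product, Finset.mem_Iic] at hi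
    have hb : b ≤ δ := hi.2
    have h1 : (EXC_hat c δ k).coeff b = (t * w k).coeff b := by rw [← ht k]
    rw [EXC_coeff_hat, if_pos hb, EXC_coeff_mul] at h1
    rw [h1]
    rfl
  have hsum : ∑ i ∈ bx (Fin (m + 2)) δ, c i * y i =
      ∑ a ∈ t.support, t.coeff a * ∑ i ∈ bx (Fin (m + 2)) δ, sh w a i * y i := by
    rw [Finset.sum_congr rfl fun i hi => by rw [hcoe i hi, Finset.sum_mul], Finset.sum_comm]
    refine Finset.sum_congr rfl fun a _ => ?_
    rw [Finset.mul_sum]
    exact Finset.sum_congr rfl fun i _ => by ring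
  rw [hsum]
  refine Finset.sum_eq_zero fun a ha => ?_
  have ht0 : t ≠ 0 := by
    intro h
    rw [h, MvPolynomial.support_zero] at ha
    simp at ha
  have hkey : ∀ k : Fin (m + 2), w k ≠ 0 → up1 t + up1 (w k) ≤ δ := by
    intro k hwk
    rw [← hmul t (w k) ht0 hwk, ← ht k]
    exact EXC_up_hat c δ k
  have htw : up1 t + up w ≤ δ := by
    intro p
    obtain ⟨k, hkp⟩ := hex (Fin (m + 2)) w p
    have h0 := hkey 0 hw0 p
    rw [Finsupp.add_apply] at h0 ⊢
    by_cases hwk : w k = 0
    · have : up w p = 0 := by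
        rw [hkp, hwk]
        unfold up1
        rw [MvPolynomial.support_zero, Finset.sup_empty]
        rfl
      rw [this]
      omega
    · have h1 := hkey k hwk p
      rw [Finsupp.add_apply] at h1
      rw [hkp]
      exact h1
  have haδ : a ≤ δ - up w := by
    have h1 : a ≤ up1 t := hle t a ha
    intro p
    have h2 := h1 p
    have h3 := htw p
    rw [Finsupp.add_apply] at h3
    rw [Finsupp.tsub_apply]
    omega
  rw [hy a (Finset.mem_Iic.mpr haδ), mul_zero]

end Pool.Agent.Work.MP_f1a024_nt.RW
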