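import Pool.Agent.Work.MP_f1a024_nt.RW.StmtsJ

/-!
# Block WJ: item EXJ (the expansion of a sum of products of powers of `1 + X K_j`)
-/

namespace Pool.Agent.Work.MP_f1a024_nt.RW

open Finset MvPolynomial Filter
open Pool.Agent.Work.MP_f1a024_nt.AH (tau PG val D1 D2 D4 D10a D10b)

/-- one factor -/
theorem EXJ_pow (D : ℕ) (K : PowerSeries ℚ) (i : Fin (D + 1)) :
    (1 + PowerSeries.X * K) ^ (i : ℕ) =
      ∑ a : Fin (D + 1), PowerSeries.C (((i : ℕ).choose (a : ℕ) : ℕ) : ℚ) *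
        (PowerSeries.X ^ (a : ℕ) * K ^ (a : ℕ)) := by
  rw [add_comm, add_pow]
  have h1 : ∑ m ∈ Finset.range ((i : ℕ) + 1), (PowerSeries.X * K) ^ m * 1 ^ ((i : ℕ) - m) *
      (((i : ℕ).choose m : ℕ) : PowerSeries ℚ) =
      ∑ m ∈ Finset.range (D + 1), (PowerSeries.X * K) ^ m * 1 ^ ((i : ℕ) - m) *
      (((i : ℕ).choose m : ℕ) : PowerSeries ℚ) := by
    refine Finset.sum_subset ?_ ?_
    · intro m hm
      rw [Finset.mem_range] at hm ⊢
      have := i.2
      omega
    · intro m _ hm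
      rw [Finset.mem_range, not_lt] at hm
      rw [Nat.choose_eq_zero_of_lt (by omega)]
      simp
  rw [h1, Finset.sum_range]
  refine Finset.sum_congr rfl fun a _ => ?_
  rw [one_pow, mul_one, mul_pow, mul_comm, map_natCast]

/-- the product -/
theorem EXJ_prod (k D : ℕ) (K : Fin (k + 1) → PowerSeries ℚ) (I : Fin (k + 1) → Fin (D + 1)) :
    ∏ j, (1 + PowerSeries.X * K j) ^ (I j : ℕ) =
      ∑ α : Fin (k + 1) → Fin (D + 1), PowerSeries.C (bi α I) *
        (PowerSeries.X ^ (wt α) * ∏ j, K j ^ (α j : ℕ)) := by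
  have h1 : ∀ j, (1 + PowerSeries.X * K j) ^ (I j : ℕ) =
      ∑ a ∈ (Finset.univ : Finset (Fin (D + 1))),
        PowerSeries.C (((I j : ℕ).choose (a : ℕ) : ℕ) : ℚ) *
        (PowerSeries.X ^ (a : ℕ) * K j ^ (a : ℕ)) := fun j => EXJ_pow D (K j) (I j)
  rw [Finset.prod_congr rfl fun j _ => h1 j, Finset.prod_univ_sum, Fintype.piFinset_univ]
  refine Finset.sum_congr rfl fun α _ => ?_
  rw [Finset.prod_mul_distrib, Finset.prod_mul_distrib, Finset.prod_pow_eq_pow_sum]
  unfold bi wt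
  rw [map_prod]

theorem prfEXJ : EXJ := by
  intro k D n K z hz
  have h1 : ∑ I : Fin (k + 1) → Fin (D + 1),
      PowerSeries.C (z I) * ∏ j, (1 + PowerSeries.X * K j) ^ (I j : ℕ) =
      ∑ α : Fin (k + 1) → Fin (D + 1), PowerSeries.C (∑ I, z I * bi α I) *
        (PowerSeries.X ^ (wt α) * ∏ j, K j ^ (α j : ℕ)) := by
    have h2 : ∀ I : Fin (k + 1) → Fin (D + 1),
        PowerSeries.C (z I) * ∏ j, (1 + PowerSeries.X * K j) ^ (I j : ℕ) =
        ∑ α : Fin (k + 1) → Fin (D + 1), PowerSeries.C (z I * bi α I) *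
          (PowerSeries.X ^ (wt α) * ∏ j, K j ^ (α j : ℕ)) := by
      intro I
      rw [EXJ_prod, Finset.mul_sum]
      refine Finset.sum_congr rfl fun α _ => ?_
      rw [map_mul, mul_assoc]
    rw [Finset.sum_congr rfl fun I _ => h2 I, Finset.sum_comm]
    refine Finset.sum_congr rfl fun α _ => ?_
    rw [← Finset.sum_mul, ← map_sum]
  rw [h1, map_sum, Finset.sum_filter]
  refine Finset.sum_congr rfl fun α _ => ?_
  rw [PowerSeries.coeff_C_mul, PowerSeries.coeff_X_pow_mul']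
  rcases lt_trichotomy (wt α) n with h | h | h
  · rw [hz α h, zero_mul, if_neg (by omega)]
  · rw [if_pos h.le, if_pos h, h, Nat.sub_self, PowerSeries.coeff_zero_eq_constantCoeff,
      map_prod]
    simp only [map_pow]
  · rw [if_neg (by omega), if_neg (by omega), mul_zero]

end Pool.Agent.Work.MP_f1a024_nt.RW
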