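import Pool.Agent.Work.MP_f1a024_nt.RW.Stmts

/-!
# Block RW, item F1a: truncation (helper64)
-/

namespace Pool.Agent.Work.MP_f1a024_nt.RW

open Finset MvPolynomial Filter
open Pool.Agent.Work.MP_f1a024_nt.AH (tau PG val D1 D2 D4 D10a D10b)

theorem F1a_ev_monomial (n : ℕ) (a : Ex) (c : ℚ) :
    ev n (monomial a c) = c * ((nn a : ℚ) ^ n)⁻¹ := by
  unfold ev
  rw [MvPolynomial.aeval_monomial]
  have h1 : (algebraMap ℚ ℚ) c = c := rfl
  rw [h1]
  congr 1
  simp only [nn, Finsupp.prod, Nat.cast_prod, Nat.cast_pow]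
  rw [← Finset.prod_pow, ← Finset.prod_inv_distrib]
  refine Finset.prod_congr rfl fun p _ => ?_
  rw [inv_pow, ← pow_mul, ← pow_mul, mul_comm]

theorem F1a_pg (h1 : D1) (h10 : D10a) (i : ℕ) : PG (tau ^ i) := by
  induction i with
  | zero =>
    rw [pow_zero]
    exact h1.2.2.1 _ h1.2.2.2.2.2
  | succ i ih =>
    rw [pow_succ]
    exact h1.1 _ _ ih h10.1

theorem F1a_ev (hNB : NB) (Y i n : ℕ) (hY : 0 < Y) :
    ((ev n (vb Y i) : ℚ) : ℝ) =
      ∑ k ∈ Finset.range Y, (((tau ^ i) k : ℚ) : ℝ) / (k : ℝ) ^ n := by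
  rw [Finset.range_eq_Ico, Finset.sum_eq_sum_Ico_succ_bot hY, ArithmeticFunction.map_zero,
    Rat.cast_zero, zero_div, zero_add, zero_add]
  unfold vb
  rw [map_sum, Rat.cast_sum]
  refine Finset.sum_congr rfl fun k hk => ?_
  have hk0 : 0 < k := (Finset.mem_Ico.1 hk).1
  rw [F1a_ev_monomial, hNB.2.2.2.2.1 k hk0, Rat.cast_mul, Rat.cast_inv, Rat.cast_pow,
    Rat.cast_natCast, div_eq_mul_inv]

theorem prfF1a (hNB : NB) : F1a := by
  intro h1 h4 h10 d Y hY
  choose C M hC hM using fun i : ℕ => h4 (tau ^ i) (F1a_pg h1 h10 i) Y hY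
  refine ⟨∑ i ∈ Finset.range (d + 1), C i, (Finset.range (d + 1)).sup M,
    Finset.sum_nonneg fun i _ => hC i, fun n hn i hi => ?_⟩
  have hi1 : i ∈ Finset.range (d + 1) := Finset.mem_range.2 (by omega)
  rw [F1a_ev hNB Y i n hY]
  refine (hM i n ((Finset.le_sup hi1).trans hn)).trans ?_
  refine mul_le_mul_of_nonneg_right ?_ (by positivity)
  exact Finset.single_le_sum (f := C) (fun j _ => hC j) hi1

end Pool.Agent.Work.MP_f1a024_nt.RW
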