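import Pool.Agent.Work.MP_f1a024_nt.RW.StmtsJ
import Pool.Agent.Work.MP_f1a024_nt.RW.F1a

/-!
# Block WJ, item F1aJ: truncation
-/

namespace Pool.Agent.Work.MP_f1a024_nt.RW

open Finset MvPolynomial Filter
open Pool.Agent.Work.MP_f1a024_nt.AH (tau PG val D1 D2 D4 D10a D10b)

theorem F1aJ_ev (hNB : NB) (Y n : ℕ) (g : ArithmeticFunction ℚ) (hY : 0 < Y) :
    ((ev n (vbJ Y g) : ℚ) : ℝ) =
      ∑ k ∈ Finset.range Y, ((g k : ℚ) : ℝ) / (k : ℝ) ^ n := by
  rw [Finset.range_eq_Ico, Finset.sum_eq_sum_Ico_succ_bot hY, ArithmeticFunction.map_zero,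
    Rat.cast_zero, zero_div, zero_add, zero_add]
  unfold vbJ
  rw [map_sum, Rat.cast_sum]
  refine Finset.sum_congr rfl fun k hk => ?_
  have hk0 : 0 < k := (Finset.mem_Ico.1 hk).1
  rw [F1a_ev_monomial, hNB.2.2.2.2.1 k hk0, Rat.cast_mul, Rat.cast_inv, Rat.cast_pow,
    Rat.cast_natCast, div_eq_mul_inv]

theorem prfF1aJ (hNB : NB) : F1aJ := by
  intro h4 d Y f hf hY
  choose C M hC hM using fun i : Fin (d + 1) => h4 (f i) (hf i) Y hY
  refine ⟨∑ i, C i, Finset.univ.sup M,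
    Finset.sum_nonneg fun i _ => hC i, fun n hn i => ?_⟩
  rw [F1aJ_ev hNB Y n (f i) hY]
  refine (hM i n ((Finset.le_sup (Finset.mem_univ i)).trans hn)).trans ?_
  refine mul_le_mul_of_nonneg_right ?_ (by positivity)
  exact Finset.single_le_sum (f := C) (fun j _ => hC j) (Finset.mem_univ i)

end Pool.Agent.Work.MP_f1a024_nt.RW
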