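import Pool.Agent.Work.MP_f1a024_nt.RW.StmtsJ

/-!
# Block WJ, item F1bJ: coefficients
-/

namespace Pool.Agent.Work.MP_f1a024_nt.RW

open Finset MvPolynomial Filter
open Pool.Agent.Work.MP_f1a024_nt.AH (tau PG val D1 D2 D4 D10a D10b)

lemma F1bJ_vb (hNB : NB) (Y : ℕ) (g : ArithmeticFunction ℚ) (b : Ex) (hb : nn b < Y) :
    (vbJ Y g).coeff b = g (nn b) := by
  obtain ⟨-, -, hpos, -, hnex, hexn, -⟩ := hNB
  unfold vbJ
  rw [MvPolynomial.coeff_sum, Finset.sum_eq_single (nn b)]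
  · rw [MvPolynomial.coeff_monomial, if_pos (hexn b)]
  · intro m hm hmb
    rw [Finset.mem_Ico] at hm
    rw [MvPolynomial.coeff_monomial, if_neg]
    intro h
    apply hmb
    rw [← h, hnex m (by omega)]
  · intro h
    exact absurd (Finset.mem_Ico.2 ⟨hpos b, hb⟩) h

lemma F1bJ_coeff (hNB : NB) (d Y k : ℕ) (f : Fin (d + 1) → ArithmeticFunction ℚ)
    (u : Fin (d + 1) → Rg) (hk : 0 < k) (hkY : k < Y) :
    (∑ i, u i * vbJ Y (f i)).coeff (ex k) = uvJ f u k := by
  have hvb := fun g b hb => F1bJ_vb hNB Y g b hb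
  obtain ⟨-, hadd, hpos, -, hnex, hexn, -, -, -, hexm, -⟩ := hNB
  rw [MvPolynomial.coeff_sum]
  unfold uvJ
  rw [Finset.sum_comm]
  refine Finset.sum_congr rfl fun i _ => ?_
  rw [MvPolynomial.coeff_mul]
  symm
  refine Finset.sum_nbij' (fun ab => (ex ab.1, ex ab.2)) (fun ab => (nn ab.1, nn ab.2))
    ?_ ?_ ?_ ?_ ?_
  · rintro ⟨a, b⟩ hab
    rw [Nat.mem_divisorsAntidiagonal] at hab
    have ha : 0 < a := Nat.pos_of_ne_zero fun h => hab.2 (by rw [← hab.1, h, zero_mul])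
    have hb : 0 < b := Nat.pos_of_ne_zero fun h => hab.2 (by rw [← hab.1, h, mul_zero])
    rw [HasAntidiagonal.mem_antidiagonal]
    show ex a + ex b = ex k
    rw [← hexm a b ha hb, hab.1]
  · rintro ⟨a, b⟩ hab
    rw [HasAntidiagonal.mem_antidiagonal] at hab
    rw [Nat.mem_divisorsAntidiagonal]
    refine ⟨?_, hk.ne'⟩
    show nn a * nn b = k
    rw [← hadd, hab, hnex k hk]
  · rintro ⟨a, b⟩ hab
    rw [Nat.mem_divisorsAntidiagonal] at hab
    have ha : 0 < a := Nat.pos_of_ne_zero fun h => hab.2 (by rw [← hab.1, h, zero_mul])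
    have hb : 0 < b := Nat.pos_of_ne_zero fun h => hab.2 (by rw [← hab.1, h, mul_zero])
    show (nn (ex a), nn (ex b)) = (a, b)
    rw [hnex a ha, hnex b hb]
  · rintro ⟨a, b⟩ _
    show (ex (nn a), ex (nn b)) = (a, b)
    rw [hexn, hexn]
  · rintro ⟨a, b⟩ hab
    rw [Nat.mem_divisorsAntidiagonal] at hab
    have hb : 0 < b := Nat.pos_of_ne_zero fun h => hab.2 (by rw [← hab.1, h, mul_zero])
    have hbk : b ≤ k := Nat.le_of_dvd hk ⟨a, by rw [← hab.1]; exact mul_comm a b⟩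
    show (u i).coeff (ex a) * f i b = (u i).coeff (ex a) * (vbJ Y (f i)).coeff (ex b)
    rw [hvb (f i) (ex b) (by rw [hnex b hb]; omega), hnex b hb]

theorem prfF1bJ (hNB : NB) : F1bJ := by
  intro d Y k₃ f u h3 hlt hY
  have h0 : 0 < k₃ := by
    rcases Nat.eq_zero_or_pos k₃ with h | h
    · subst h
      exact absurd (by unfold uvJ; rw [Nat.divisorsAntidiagonal_zero, Finset.sum_empty]) h3
    · exact h
  have hco := fun k hk hkY => F1bJ_coeff hNB d Y k f u hk hkY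
  obtain ⟨-, -, hpos, -, hnex, hexn, -⟩ := hNB
  constructor
  · rw [MvPolynomial.mem_support_iff, hco k₃ h0 hY]
    exact h3
  · intro b hb
    rw [hnex k₃ h0]
    by_contra hc
    rw [not_le] at hc
    rw [MvPolynomial.mem_support_iff] at hb
    apply hb
    rw [← hexn b, hco (nn b) (hpos b) (hc.trans hY)]
    exact hlt _ hc

end Pool.Agent.Work.MP_f1a024_nt.RW
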