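import Pool.Agent.Work.MP_f1a024_nt.RW.StmtsK

/-!
# Block WJ, item FAK: factorisation at one prime
-/

set_option autoImplicit false

namespace Pool.Agent.Work.MP_f1a024_nt.RW

open Finset MvPolynomial Filter
open Pool.Agent.Work.MP_f1a024_nt.AH (tau PG val D1 D2 D4 D10a D10b)

theorem FAK_erase_eq (x : Ex) (p : Nat.Primes) (h : x p = 0) : x.erase p = x := by
  ext q
  by_cases hq : q = p
  · subst hq; simp [h]
  · rw [Finsupp.erase_ne hq]

/-- the antidiagonal, one prime separated -/
theorem FAK_anti (x : Ex) (p : Nat.Primes) (hx : x p = 0) (n : ℕ) (F : Ex → Ex → ℚ) :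
    ∑ y ∈ HasAntidiagonal.antidiagonal (x + Finsupp.single p n), F y.1 y.2 =
      ∑ b ∈ HasAntidiagonal.antidiagonal n, ∑ y ∈ HasAntidiagonal.antidiagonal x,
        F (y.1 + Finsupp.single p b.1) (y.2 + Finsupp.single p b.2) := by
  classical
  rw [← Finset.sum_product']
  refine Finset.sum_nbij' (fun y => ((y.1 p, y.2 p), (y.1.erase p, y.2.erase p)))
    (fun z => (z.2.1 + Finsupp.single p z.1.1, z.2.2 + Finsupp.single p z.1.2)) ?_ ?_ ?_ ?_ ?_
  · rintro ⟨y1, y2⟩ hy
    rw [HasAntidiagonal.mem_antidiagonal] at hy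
    simp only [mem_product, HasAntidiagonal.mem_antidiagonal]
    constructor
    · have := DFunLike.congr_fun hy p
      simpa [hx] using this
    · rw [← Finsupp.erase_add, hy, Finsupp.erase_add, FAK_erase_eq x p hx, Finsupp.erase_single,
        add_zero]
  · rintro ⟨⟨b1, b2⟩, ⟨y1, y2⟩⟩ hz
    simp only [mem_product, HasAntidiagonal.mem_antidiagonal] at hz
    simp only [HasAntidiagonal.mem_antidiagonal]
    rw [← hz.1, ← hz.2, Finsupp.single_add]
    abel
  · rintro ⟨y1, y2⟩ _
    simp only [Finsupp.erase_add_single]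
  · rintro ⟨⟨b1, b2⟩, ⟨y1, y2⟩⟩ hz
    simp only [mem_product, HasAntidiagonal.mem_antidiagonal] at hz
    have h0 : y1 p + y2 p = 0 := by
      have := DFunLike.congr_fun hz.2 p
      simpa [hx] using this
    have h1 : y1 p = 0 := by omega
    have h2 : y2 p = 0 := by omega
    simp only [Finsupp.add_apply, Finsupp.single_eq_same, h1, h2, zero_add, Finsupp.erase_add,
      Finsupp.erase_single, add_zero, FAK_erase_eq y1 p h1, FAK_erase_eq y2 p h2]
  · rintro ⟨y1, y2⟩ _
    simp only [Finsupp.erase_add_single]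

/-- the shift of an antidiagonal -/
theorem FAK_shift (n a : ℕ) (G : ℕ → ℕ → ℚ) (h : ∀ b c, b < n → G b c = 0) :
    ∑ b ∈ HasAntidiagonal.antidiagonal (n + a), G b.1 b.2 =
      ∑ c ∈ HasAntidiagonal.antidiagonal a, G (n + c.1) c.2 := by
  symm
  refine Finset.sum_of_injOn (fun c => (n + c.1, c.2)) ?_ ?_ ?_ ?_
  · rintro ⟨c1, c2⟩ _ ⟨c1', c2'⟩ _ hc
    simp only [Prod.mk.injEq] at hc
    ext
    · simp only; omega
    · simp only; omega
  · rintro ⟨c1, c2⟩ hc
    rw [mem_coe, HasAntidiagonal.mem_antidiagonal] at hc ⊢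
    simp only at hc ⊢
    omega
  · rintro ⟨b1, b2⟩ hb hb'
    apply h
    by_contra hlt
    apply hb'
    rw [HasAntidiagonal.mem_antidiagonal] at hb
    simp only at hb
    refine ⟨(b1 - n, b2), ?_, ?_⟩
    · rw [mem_coe, HasAntidiagonal.mem_antidiagonal]
      simp only
      omega
    · simp only [Prod.mk.injEq, and_true]; omega
  · rintro ⟨c1, c2⟩ _
    rfl

theorem prfFAK (hNB : NB) (hUB : UB) : FAK := by
  classical
  intro d f u κ m p hf hmp hκ
  obtain ⟨n0, nadd, npos, ninj, nex, -, nle, nfac, nsing, -⟩ := id hNB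
  obtain ⟨-, -, u3, -, u5, -, -⟩ := hUB
  set x' : Ex := (κ + m).erase p with hx'
  have hx0 : x' p = 0 := by rw [hx']; simp
  have hx1 : ∀ q, q ≠ p → x' q = κ q + m q := by
    intro q hq
    rw [hx', Finsupp.erase_ne hq, Finsupp.add_apply]
  have hx2 : ∀ a, κ + m + Finsupp.single p a = x' + Finsupp.single p (κ p + a) := by
    intro a
    ext q
    by_cases hq : q = p
    · subst hq
      simp [hx0, hmp]
    · rw [Finsupp.add_apply, Finsupp.add_apply, Finsupp.add_apply, Finsupp.single_eq_of_ne hq,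
        Finsupp.single_eq_of_ne hq, hx1 q hq]
  let W : Fin (d + 1) → ℕ → ℚ := fun i b =>
    ∑ y ∈ HasAntidiagonal.antidiagonal x', (u i).coeff (y.1 + Finsupp.single p b) * f i (nn y.2)
  have hmul : ∀ i (y : Ex) b, y p = 0 → f i (nn (y + Finsupp.single p b)) =
      f i (nn y) * f i ((p : ℕ) ^ b) := by
    intro i y b hy
    rw [nadd, nsing]
    refine (hf i).map_mul_of_coprime ?_
    refine Nat.Coprime.pow_right _ (Nat.Coprime.symm ((Nat.Prime.coprime_iff_not_dvd p.2).2 ?_))
    intro hdvd
    have h1 := (Nat.Prime.dvd_iff_one_le_factorization p.2 (npos y).ne').1 hdvd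
    rw [nfac] at h1
    omega
  have hA : ∀ i a, AK f u i (κ + m + Finsupp.single p a) =
      ∑ b ∈ HasAntidiagonal.antidiagonal (κ p + a), W i b.1 * f i ((p : ℕ) ^ b.2) := by
    intro i a
    unfold AK
    rw [hx2 a, FAK_anti x' p hx0 (κ p + a) (fun y1 y2 => (u i).coeff y1 * f i (nn y2))]
    refine Finset.sum_congr rfl fun b _ => ?_
    simp only [W]
    rw [Finset.sum_mul]
    refine Finset.sum_congr rfl fun y hy => ?_
    rw [HasAntidiagonal.mem_antidiagonal] at hy
    have hy2 : y.2 p = 0 := by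
      have := DFunLike.congr_fun hy p
      rw [Finsupp.add_apply, hx0] at this
      omega
    rw [hmul i y.2 b.2 hy2]
    ring
  have hW1 : ∀ i b, b < κ p → W i b = 0 := by
    intro i b hb
    refine Finset.sum_eq_zero fun y hy => ?_
    rw [HasAntidiagonal.mem_antidiagonal] at hy
    have hy1 : y.1 p = 0 := by
      have := DFunLike.congr_fun hy p
      rw [Finsupp.add_apply, hx0] at this
      omega
    by_cases hc : (u i).coeff (y.1 + Finsupp.single p b) = 0
    · rw [hc, zero_mul]
    · exfalso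
      have h1 := hκ i _ (MvPolynomial.mem_support_iff.2 hc) (fun q hq => by
        rw [Finsupp.add_apply, Finsupp.single_eq_of_ne hq, add_zero, ← hx1 q hq, ← hy,
          Finsupp.add_apply]
        omega)
      rw [Finsupp.add_apply, hy1, Finsupp.single_eq_same] at h1
      omega
  have hW2 : ∀ i b, up u p < b → W i b = 0 := by
    intro i b hb
    refine Finset.sum_eq_zero fun y hy => ?_
    rw [HasAntidiagonal.mem_antidiagonal] at hy
    have hy1 : y.1 p = 0 := by
      have := DFunLike.congr_fun hy p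
      rw [Finsupp.add_apply, hx0] at this
      omega
    by_cases hc : (u i).coeff (y.1 + Finsupp.single p b) = 0
    · rw [hc, zero_mul]
    · exfalso
      have h1 : y.1 + Finsupp.single p b ≤ up u :=
        (u3 _ _ (MvPolynomial.mem_support_iff.2 hc)).trans (u5 _ u i)
      have h2 := h1 p
      rw [Finsupp.add_apply, hy1, Finsupp.single_eq_same] at h2
      omega
  refine ⟨fun i => PowerSeries.mk fun c => W i (κ p + c), ?_, ?_⟩
  · intro i a ha
    rw [PowerSeries.coeff_mk]
    exact hW2 i _ (by omega)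
  · intro i a
    rw [hA i a, FAK_shift (κ p) a (fun b1 b2 => W i b1 * f i ((p : ℕ) ^ b2))
      (fun b c hb => by simp only [hW1 i b hb, zero_mul]), PowerSeries.coeff_mul]
    refine Finset.sum_congr rfl fun c _ => ?_
    rw [PowerSeries.coeff_mk, PowerSeries.coeff_mk]

end Pool.Agent.Work.MP_f1a024_nt.RW
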