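import Pool.Agent.Work.MP_f1a024_nt.RW.StmtsS

/-!
# Block WS, item FRS: the dimension of the flag
-/

namespace Pool.Agent.Work.MP_f1a024_nt.RW

open Finset MvPolynomial Filter
open Pool.Agent.Work.MP_f1a024_nt.AH (tau PG val D1 D2 D4 D10a D10b)

/-- the square matrix of the values at the numbers `∏ q_j^((A l)_j)` -/
noncomputable def FRS_mat {k D d : ℕ} (s : Fin (k + 1) → ℕ) (A : Fin (d + 1) ≃ SX k D)
    (q : Fin (k + 1) → ℕ) : Matrix (Fin (d + 1)) (Fin (d + 1)) ℚ :=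
  fun l i => fS s A i (∏ j, q j ^ ((A l).1 j : ℕ))

theorem FRS_exists {k D d : ℕ} (A : Fin (d + 1) ≃ SX k D) (e : Fin (k + 1) → ℕ)
    (he : ∑ j, e j ≤ D) : ∃ l : Fin (d + 1), ∀ j, ((A l).1 j : ℕ) = e j := by
  have h1 : ∀ j, e j < D + 1 := fun j => Nat.lt_succ_of_le
    ((Finset.single_le_sum (fun i _ => Nat.zero_le (e i)) (Finset.mem_univ j)).trans he)
  refine ⟨A.symm ⟨fun j => ⟨e j, h1 j⟩, he⟩, fun j => ?_⟩
  rw [Equiv.apply_symm_apply]

theorem FRS_range {k D d r : ℕ} (s : Fin (k + 1) → ℕ) (A : Fin (d + 1) ≃ SX k D)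
    (q : Fin (k + 1) → ℕ) (hr : r ≤ d) :
    Set.range (fun l : Fin (r + 1) => FRS_mat s A q (Fin.castLE (Nat.succ_le_succ hr) l)) =
      {t | ∃ l : Fin (d + 1), (l : ℕ) ≤ r ∧
        t = fun i => fS s A i (∏ j, q j ^ ((A l).1 j : ℕ))} := by
  ext t
  constructor
  · rintro ⟨l, rfl⟩
    exact ⟨Fin.castLE (Nat.succ_le_succ hr) l, Nat.le_of_lt_succ l.2, rfl⟩
  · rintro ⟨l, hl, rfl⟩
    exact ⟨⟨l, Nat.lt_succ_of_le hl⟩, rfl⟩

theorem prfFRS (h : LLS) : FRS := by
  intro hD k D d s A hs q hq hpr r hr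
  have hinj : Function.Injective (FRS_mat s A q).mulVec := by
    have h0 : ∀ z, (FRS_mat s A q).mulVecLin z = 0 → z = 0 := by
      intro z hz
      refine h hD k D d s A hs q hq hpr z fun e he => ?_
      obtain ⟨l, hl⟩ := FRS_exists A e he
      have h1 := congrFun hz l
      rw [Matrix.mulVecLin_apply] at h1
      have h2 : ∑ i, FRS_mat s A q l i * z i = 0 := h1
      have h3 : (∏ j, q j ^ e j) = ∏ j, q j ^ ((A l).1 j : ℕ) :=
        Finset.prod_congr rfl fun j _ => by rw [hl j]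
      rw [h3, ← h2]
      exact Finset.sum_congr rfl fun i _ => mul_comm _ _
    exact (injective_iff_map_eq_zero (FRS_mat s A q).mulVecLin).2 h0
  have hunit : IsUnit (FRS_mat s A q) := Matrix.mulVec_injective_iff_isUnit.1 hinj
  have hrow : LinearIndependent ℚ (fun l => FRS_mat s A q l) :=
    Matrix.linearIndependent_rows_iff_isUnit.2 hunit
  have hsub : LinearIndependent ℚ
      (fun l : Fin (r + 1) => FRS_mat s A q (Fin.castLE (Nat.succ_le_succ hr) l)) :=
    hrow.comp _ (Fin.castLE_injective _)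
  unfold TS
  rw [← FRS_range s A q hr, finrank_span_eq_card hsub, Fintype.card_fin]

end Pool.Agent.Work.MP_f1a024_nt.RW
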