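import Pool.Agent.Work.MP_f1a024_nt.RW.Stmts

/-!
# Block RW, item LB (helper15): lowest exponents
-/

set_option autoImplicit false

namespace Pool.Agent.Work.MP_f1a024_nt.RW

open Finset MvPolynomial Filter

theorem LB_mul (hinj : Function.Injective nn) (hadd : ∀ a b, nn (a + b) = nn a * nn b)
    (hpos : ∀ a, 0 < nn a) (f g : Rg) (κ κ' : Ex) (hf : IsLow f κ) (hg : IsLow g κ') :
    IsLow (f * g) (κ + κ') := by
  classical
  have hcoeff : (f * g).coeff (κ + κ') = f.coeff κ * g.coeff κ' := by
    rw [MvPolynomial.coeff_mul]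
    refine Finset.sum_eq_single (κ, κ') ?_ ?_
    · rintro ⟨a, b⟩ hab hne
      rw [HasAntidiagonal.mem_antidiagonal] at hab
      by_contra h0
      have ha : f.coeff a ≠ 0 := fun h => h0 (by simp only; rw [h, zero_mul])
      have hb : g.coeff b ≠ 0 := fun h => h0 (by simp only; rw [h, mul_zero])
      have h1 := hf.2 a (MvPolynomial.mem_support_iff.2 ha)
      have h2 := hg.2 b (MvPolynomial.mem_support_iff.2 hb)
      have h3 : nn a * nn b = nn κ * nn κ' := by
        rw [← hadd, ← hadd]
        exact congrArg nn hab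
      have h4 : nn κ = nn a := by
        by_contra h5
        have h6 : nn κ < nn a := lt_of_le_of_ne h1 h5
        have h7 : nn κ * nn κ' < nn a * nn b :=
          Nat.mul_lt_mul_of_lt_of_le h6 h2 (hpos b)
        omega
      have h5 : nn κ' = nn b := by
        rw [← h4] at h3
        exact (Nat.eq_of_mul_eq_mul_left (hpos κ) h3).symm
      exact hne (Prod.ext (hinj h4).symm (hinj h5).symm)
    · intro h
      refine absurd ?_ h
      rw [HasAntidiagonal.mem_antidiagonal]
  refine ⟨?_, ?_⟩
  · rw [MvPolynomial.mem_support_iff, hcoeff]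
    exact mul_ne_zero (MvPolynomial.mem_support_iff.1 hf.1) (MvPolynomial.mem_support_iff.1 hg.1)
  · intro b hb
    obtain ⟨a, ha, c, hc, rfl⟩ := Finset.mem_add.1 (MvPolynomial.support_mul f g hb)
    rw [hadd, hadd]
    exact Nat.mul_le_mul (hf.2 a ha) (hg.2 c hc)

theorem prfLB (hNB : NB) : LB := by
  obtain ⟨-, hadd, hpos, hinj, -⟩ := hNB
  refine ⟨?_, ?_, ?_, ?_⟩
  · intro f hf
    obtain ⟨κ, hκ, hmin⟩ := Finset.exists_min_image f.support nn
      (MvPolynomial.support_nonempty.2 hf)
    exact ⟨κ, hκ, hmin⟩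
  · intro f κ κ' h h'
    exact hinj (le_antisymm (h.2 κ' h'.1) (h'.2 κ h.1))
  · intro f g κ κ' hf hg
    exact LB_mul hinj hadd hpos f g κ κ' hf hg
  · intro f κ h h0
    have h1 := h.1
    rw [h0] at h1
    simp at h1

end Pool.Agent.Work.MP_f1a024_nt.RW
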