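import Pool.Agent.Work.MP_f1a024_nt.RW.Stmts2

/-!
Item MRq of block RW: the real form of the core statement, better threshold.
-/

namespace Pool.Agent.Work.MP_f1a024_nt.RW

open Finset MvPolynomial Filter
open Pool.Agent.Work.MP_f1a024_nt.AH (tau PG val D1 D2 D4 D10a D10b)

/-- If a set of natural numbers is unbounded, there is an ultrafilter on it below `atTop`. -/
theorem MRq_ultra (p : ℕ → Prop) (h : ∀ M : ℕ, ∃ n ≥ M, p n) :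
    ∃ 𝒰 : Ultrafilter ℕ, (𝒰 : Filter ℕ) ≤ atTop ∧ ∀ᶠ n : ℕ in (𝒰 : Filter ℕ), p n := by
  have hf : ∃ᶠ n in (atTop : Filter ℕ), p n := by
    rw [Filter.frequently_atTop]
    exact h
  have hne : (atTop ⊓ Filter.principal {n | p n} : Filter ℕ).NeBot := by
    rw [← Filter.frequently_mem_iff_neBot]
    exact hf
  obtain ⟨𝒰, h𝒰⟩ := @Ultrafilter.exists_le ℕ (atTop ⊓ Filter.principal {n | p n}) hne
  refine ⟨𝒰, h𝒰.trans inf_le_left, ?_⟩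
  have h2 : (𝒰 : Filter ℕ) ≤ Filter.principal {n | p n} := h𝒰.trans inf_le_right
  rw [Filter.le_principal_iff] at h2
  exact h2

theorem prfMRq (hCR : CRq) : MRq := by
  intro d B ε hε
  by_contra hcon
  push Not at hcon
  obtain ⟨𝒰, h𝒰, hp⟩ := MRq_ultra (fun n => ∃ (x : Fin (d + 1) → ℤ) (H : ℝ), x ≠ 0 ∧
    (∀ i, |(x i : ℝ)| ≤ H) ∧ (∀ q : ℕ, q.Prime → (q : ℝ) ^ (d * n) ≤ H ^ d * pb q ^ n) ∧
    H ≤ B ^ n ∧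
    |∑ i, (x i : ℝ) * val (tau ^ (i : ℕ)) n| < Real.exp (-(ε * n)) * (H ^ d)⁻¹) hcon
  have hch : ∀ n : ℕ, ∃ (x : Fin (d + 1) → ℤ) (H : ℝ),
      (∃ (x : Fin (d + 1) → ℤ) (H : ℝ), x ≠ 0 ∧
        (∀ i, |(x i : ℝ)| ≤ H) ∧ (∀ q : ℕ, q.Prime → (q : ℝ) ^ (d * n) ≤ H ^ d * pb q ^ n) ∧
        H ≤ B ^ n ∧
        |∑ i, (x i : ℝ) * val (tau ^ (i : ℕ)) n| < Real.exp (-(ε * n)) * (H ^ d)⁻¹) →
      (x ≠ 0 ∧
        (∀ i, |(x i : ℝ)| ≤ H) ∧ (∀ q : ℕ, q.Prime → (q : ℝ) ^ (d * n) ≤ H ^ d * pb q ^ n) ∧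
        H ≤ B ^ n ∧
        |∑ i, (x i : ℝ) * val (tau ^ (i : ℕ)) n| < Real.exp (-(ε * n)) * (H ^ d)⁻¹) := by
    intro n
    by_cases h : ∃ (x : Fin (d + 1) → ℤ) (H : ℝ), x ≠ 0 ∧
        (∀ i, |(x i : ℝ)| ≤ H) ∧ (∀ q : ℕ, q.Prime → (q : ℝ) ^ (d * n) ≤ H ^ d * pb q ^ n) ∧
        H ≤ B ^ n ∧
        |∑ i, (x i : ℝ) * val (tau ^ (i : ℕ)) n| < Real.exp (-(ε * n)) * (H ^ d)⁻¹
    · obtain ⟨x, H, h1⟩ := h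
      exact ⟨x, H, fun _ => h1⟩
    · exact ⟨0, 0, fun h1 => absurd h1 h⟩
  choose x H hxH using hch
  have hev : ∀ᶠ n : ℕ in (𝒰 : Filter ℕ), x n ≠ 0 ∧ (∀ i, |(x n i : ℝ)| ≤ H n) ∧
      (∀ q : ℕ, q.Prime → (q : ℝ) ^ (d * n) ≤ H n ^ d * pb q ^ n) ∧ H n ≤ B ^ n ∧
      |∑ i, (x n i : ℝ) * val (tau ^ (i : ℕ)) n| < Real.exp (-(ε * n)) * (H n ^ d)⁻¹ :=
    hp.mono fun n hn => hxH n hn
  have h1 := hCR d 𝒰 x H B ε h𝒰 hε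
    (hev.mono fun n hn => ⟨hn.1, hn.2.1, hn.2.2.1, hn.2.2.2.1⟩)
  obtain ⟨n, hn1, hn2⟩ := (h1.and hev).exists
  exact absurd hn1 (not_le.mpr hn2.2.2.2.2)

end Pool.Agent.Work.MP_f1a024_nt.RW
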