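import Pool.Agent.Work.MP_f1a024_nt.RW.Stmts2

/-!
# Block RW, item MTq: THEOREM W from the real form, better threshold (adapted from MT.lean)
-/

set_option autoImplicit false

namespace Pool.Agent.Work.MP_f1a024_nt.RW

open Finset MvPolynomial Filter
open Pool.Agent.Work.MP_f1a024_nt.AH (tau PG val D1 D2 D4 D10a D10b)

theorem MTq_pg (hD1 : D1) (hD10a : D10a) (i : ℕ) : PG (tau ^ i) := by
  induction i with
  | zero =>
    rw [pow_zero]
    exact hD1.2.2.1 _ hD1.2.2.2.2.2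
  | succ i ih =>
    rw [pow_succ]
    exact hD1.1 _ _ ih hD10a.1

theorem MTq_one (n : ℕ) : val 1 n = 1 := by
  unfold Pool.Agent.Work.MP_f1a024_nt.AH.val
  rw [tsum_eq_single 1]
  · simp
  · intro k hk
    rw [ArithmeticFunction.one_apply_ne hk]
    simp

theorem MTq_pow (hD1 : D1) (hD2 : D2) (hD10a : D10a) (i : ℕ) :
    ∃ M : ℕ, ∀ m ≥ M, val (tau ^ i) m = val tau m ^ i := by
  induction i with
  | zero =>
    refine ⟨0, fun m _ => ?_⟩
    rw [pow_zero, pow_zero]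
    exact MTq_one m
  | succ i ih =>
    obtain ⟨M, hM⟩ := ih
    obtain ⟨M', hM'⟩ := hD2.2.2 (tau ^ i) tau (MTq_pg hD1 hD10a i) hD10a.1
    refine ⟨max M M', fun m hm => ?_⟩
    rw [pow_succ, pow_succ, hM' m (le_trans (le_max_right _ _) hm),
      hM m (le_trans (le_max_left _ _) hm)]

theorem MTq_pb (q : ℕ) : 0 < pb q := by
  unfold pb
  refine Finset.prod_pos fun p hp => ?_
  have h : p.Prime := (Finset.mem_filter.1 hp).2
  exact_mod_cast h.pos

theorem MTq_thr (d n q : ℕ) (θ H : ℝ) (hθ : 0 < θ) (h : (q : ℝ) ^ d ≤ θ ^ d * pb q)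
    (hH : θ ^ n ≤ H) : (q : ℝ) ^ (d * n) ≤ H ^ d * pb q ^ n := by
  have h1 : ((q : ℝ) ^ d) ^ n ≤ (θ ^ d * pb q) ^ n := pow_le_pow_left₀ (by positivity) h n
  have h2 : (θ ^ n) ^ d ≤ H ^ d := pow_le_pow_left₀ (by positivity) hH d
  have h3 : (θ ^ d * pb q) ^ n = (θ ^ n) ^ d * pb q ^ n := by
    rw [mul_pow, ← pow_mul, ← pow_mul, mul_comm d n]
  rw [pow_mul]
  calc ((q : ℝ) ^ d) ^ n ≤ (θ ^ d * pb q) ^ n := h1
    _ = (θ ^ n) ^ d * pb q ^ n := h3
    _ ≤ H ^ d * pb q ^ n := mul_le_mul_of_nonneg_right h2 (pow_nonneg (MTq_pb q).le n)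

/-- item MTq -/
theorem prfMTq (hD1 : D1) (hD2 : D2) (hD10a : D10a) (hMR : MRq) : MTq := by
  intro d θ B ε hθ hq hε
  obtain ⟨M₁, hM₁⟩ := hMR d B ε hε
  obtain ⟨M₂, hM₂⟩ := hD10a.2
  choose f hf using MTq_pow hD1 hD2 hD10a
  refine ⟨max (max M₁ M₂) ((Finset.range (d + 1)).sup f), ?_⟩
  intro n hn P H hP hdeg hco hH1 hH2
  have h1 : M₁ ≤ n := le_trans (le_trans (le_max_left _ _) (le_max_left _ _)) hn
  have h2 : M₂ ≤ n := le_trans (le_trans (le_max_right _ _) (le_max_left _ _)) hn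
  have h3 : ∀ i : Fin (d + 1), val (tau ^ (i : ℕ)) n = val tau n ^ (i : ℕ) := by
    intro i
    apply hf
    refine le_trans ?_ (le_trans (le_max_right _ _) hn)
    exact Finset.le_sup (f := f) (Finset.mem_range.2 i.2)
  have hx : (fun i : Fin (d + 1) => P.coeff i) ≠ 0 := by
    intro h
    apply hP
    rw [← Polynomial.leadingCoeff_eq_zero]
    have h4 := congrFun h ⟨P.natDegree, by omega⟩
    exact h4
  have h5 := hM₁ n h1 (fun i : Fin (d + 1) => P.coeff i) H hx (fun i => hco i)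
    (fun q hqp => MTq_thr d n q θ H hθ (hq q hqp) hH1) hH2
  refine le_trans h5 (le_of_eq ?_)
  rw [← hM₂ n h2]
  have h6 : (P.map (Int.castRingHom ℂ)).natDegree < d + 1 :=
    lt_of_le_of_lt Polynomial.natDegree_map_le (by omega)
  rw [Polynomial.eval_eq_sum_range' h6, Finset.sum_range]
  have h7 : ∑ i : Fin (d + 1), (P.map (Int.castRingHom ℂ)).coeff i * (val tau n : ℂ) ^ (i : ℕ) =
      ((∑ i : Fin (d + 1), (P.coeff i : ℝ) * val (tau ^ (i : ℕ)) n : ℝ) : ℂ) := by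
    push_cast
    refine Finset.sum_congr rfl fun i _ => ?_
    rw [Polynomial.coeff_map, h3 i]
    simp
  rw [h7, Complex.norm_real, Real.norm_eq_abs]

end Pool.Agent.Work.MP_f1a024_nt.RW
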