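import Pool.Agent.Work.MP_f1a024_nt.RW.Stmts

/-!
# Block RW, item NB: unique factorisation in terms of exponents
-/

namespace Pool.Agent.Work.MP_f1a024_nt.RW

open Finset MvPolynomial Filter

/-- the embedding of the primes into the natural numbers -/
def NB_emb : Nat.Primes ↪ ℕ := ⟨fun p => (p : ℕ), Subtype.val_injective⟩

theorem NB_nn_eq (a : Ex) : nn a = (a.embDomain NB_emb).prod fun p k => p ^ k := by
  unfold nn
  rw [Finsupp.prod_embDomain]
  rfl

theorem NB_fac (a : Ex) : (nn a).factorization = a.embDomain NB_emb := by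
  rw [NB_nn_eq]
  refine Nat.prod_pow_factorization_eq_self ?_
  intro p hp
  rw [Finsupp.support_embDomain, Finset.mem_map] at hp
  obtain ⟨q, -, rfl⟩ := hp
  exact q.2

theorem NB_fac_apply (a : Ex) (p : Nat.Primes) : (nn a).factorization p = a p := by
  rw [NB_fac]
  exact Finsupp.embDomain_apply_self NB_emb a p

theorem NB_zero : nn 0 = 1 := by
  unfold nn
  exact Finsupp.prod_zero_index

theorem NB_add (a b : Ex) : nn (a + b) = nn a * nn b := by
  unfold nn
  exact Finsupp.prod_add_index' (fun _ => pow_zero _) (fun _ _ _ => pow_add _ _ _)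

theorem NB_pos (a : Ex) : 0 < nn a := by
  unfold nn
  refine Finset.prod_pos fun p _ => ?_
  exact pow_pos p.2.pos _

theorem NB_inj : Function.Injective nn := by
  intro a b h
  refine Finsupp.ext fun p => ?_
  rw [← NB_fac_apply a p, ← NB_fac_apply b p, h]

theorem NB_ex_apply (m : ℕ) (p : Nat.Primes) : ex m p = m.factorization p := rfl

theorem NB_ex_nn (a : Ex) : ex (nn a) = a := by
  refine Finsupp.ext fun p => ?_
  rw [NB_ex_apply, NB_fac_apply]

theorem NB_nn_ex (m : ℕ) (hm : 0 < m) : nn (ex m) = m := by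
  refine Nat.eq_of_factorization_eq (NB_pos _).ne' hm.ne' fun p => ?_
  by_cases hp : p.Prime
  · exact (NB_fac_apply (ex m) ⟨p, hp⟩).trans (NB_ex_apply m ⟨p, hp⟩)
  · rw [Nat.factorization_eq_zero_of_not_prime _ hp, Nat.factorization_eq_zero_of_not_prime _ hp]

theorem NB_le (a b : Ex) : a ≤ b ↔ nn a ∣ nn b := by
  rw [← Nat.factorization_le_iff_dvd (NB_pos a).ne' (NB_pos b).ne']
  constructor
  · intro h p
    by_cases hp : p.Prime
    · have h1 := NB_fac_apply a ⟨p, hp⟩
      have h2 := NB_fac_apply b ⟨p, hp⟩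
      have h3 := h ⟨p, hp⟩
      rw [← h1, ← h2] at h3
      exact h3
    · rw [Nat.factorization_eq_zero_of_not_prime _ hp, Nat.factorization_eq_zero_of_not_prime _ hp]
  · intro h p
    rw [← NB_fac_apply a p, ← NB_fac_apply b p]
    exact h p

theorem NB_single (p : Nat.Primes) (k : ℕ) : nn (Finsupp.single p k) = (p : ℕ) ^ k := by
  unfold nn
  exact Finsupp.prod_single_index (pow_zero _)

/-- [NB] the integer of an exponent -/
theorem prfNB : NB := by
  refine ⟨NB_zero, NB_add, NB_pos, NB_inj, NB_nn_ex, NB_ex_nn, NB_le, NB_fac_apply, NB_single,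
    ?_, ?_⟩
  · intro m m' hm hm'
    apply NB_inj
    rw [NB_add, NB_nn_ex m hm, NB_nn_ex m' hm', NB_nn_ex _ (Nat.mul_pos hm hm')]
  · intro p k
    rw [← NB_single, NB_ex_nn]

end Pool.Agent.Work.MP_f1a024_nt.RW
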