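import Pool.Agent.Work.MP_f1a024_nt.RW.Stmts

/-!
# Block RW, item P0: the subspace of `F^N` spanned by a saturated module
-/

namespace Pool.Agent.Work.MP_f1a024_nt.RW

/-- the subspace spanned by `W` -/
def P0_V (R F : Type) [CommRing R] [IsDomain R] [Field F] [Algebra R F] [IsFractionRing R F]
    (N : ℕ) (W : Submodule R (Fin N → R)) : Submodule F (Fin N → F) where
  carrier := {y | ∃ t : R, t ≠ 0 ∧ ∃ c ∈ W, ∀ i, algebraMap R F t * y i = algebraMap R F (c i)}
  zero_mem' := ⟨1, one_ne_zero, 0, W.zero_mem, fun i => by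
    rw [Pi.zero_apply, Pi.zero_apply, mul_zero, map_zero]⟩
  add_mem' := by
    rintro y y' ⟨t, ht, c, hc, h⟩ ⟨t', ht', c', hc', h'⟩
    refine ⟨t * t', mul_ne_zero ht ht', t' • c + t • c',
      W.add_mem (W.smul_mem t' hc) (W.smul_mem t hc'), fun i => ?_⟩
    rw [Pi.add_apply, Pi.add_apply, Pi.smul_apply, Pi.smul_apply, smul_eq_mul, smul_eq_mul,
      map_add, map_mul, map_mul, map_mul, ← h i, ← h' i]
    ring
  smul_mem' := by
    rintro x y ⟨t, ht, c, hc, h⟩
    obtain ⟨a, b, hb, rfl⟩ := IsFractionRing.div_surjective (A := R) x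
    have hb0 : b ≠ 0 := nonZeroDivisors.ne_zero hb
    have hb1 : algebraMap R F b ≠ 0 := by
      intro h0
      exact hb0 ((IsFractionRing.injective R F) (by rw [h0, map_zero]))
    refine ⟨b * t, mul_ne_zero hb0 ht, a • c, W.smul_mem a hc, fun i => ?_⟩
    rw [Pi.smul_apply, Pi.smul_apply, smul_eq_mul, smul_eq_mul, map_mul, map_mul, ← h i]
    field_simp

theorem prfP0 : P0 := by
  intro R F _ _ _ _ _ N W hW
  refine ⟨P0_V R F N W, fun c => ?_⟩
  constructor
  · rintro ⟨t, ht, c', hc', h⟩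
    apply hW t c ht
    have h1 : t • c = c' := by
      funext i
      apply IsFractionRing.injective R F
      rw [Pi.smul_apply, smul_eq_mul, map_mul]
      exact h i
    rw [h1]
    exact hc'
  · intro hc
    refine ⟨1, one_ne_zero, c, hc, fun i => ?_⟩
    rw [map_one, one_mul]

end Pool.Agent.Work.MP_f1a024_nt.RW
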