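import Pool.Agent.Work.MP_f1a024_nt.RW.Stmts

/-!
# Block RW, item P1: choice of the vectors
-/

namespace Pool.Agent.Work.MP_f1a024_nt.RW

open Finset MvPolynomial Filter

/-- a vector outside `U + span a` can be added -/
theorem P1_step {K : Type} [Field K] {N j : ℕ} (U : Submodule K (Fin N → K))
    (a : Fin j → Fin N → K) (b : Fin N → K) (ha : ∀ c : Fin j → K, (∑ l, c l • a l) ∈ U → c = 0)
    (hb : b ∉ U ⊔ Submodule.span K (Set.range a)) (c : Fin (j + 1) → K)
    (hc : (∑ l : Fin j, c l.castSucc • a l) + c (Fin.last j) • b ∈ U) : c = 0 := by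
  have hlast : c (Fin.last j) = 0 := by
    by_contra h0
    apply hb
    have h1 : (∑ l : Fin j, c l.castSucc • a l) ∈ Submodule.span K (Set.range a) :=
      Submodule.sum_mem _ fun l _ => Submodule.smul_mem _ _ (Submodule.subset_span ⟨l, rfl⟩)
    have h2 : c (Fin.last j) • b ∈ U ⊔ Submodule.span K (Set.range a) := by
      have h3 : c (Fin.last j) • b = ((∑ l : Fin j, c l.castSucc • a l) + c (Fin.last j) • b) -
          ∑ l : Fin j, c l.castSucc • a l := by rw [add_sub_cancel_left]
      rw [h3]
      exact Submodule.sub_mem _ (Submodule.mem_sup_left hc) (Submodule.mem_sup_right h1)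
    have h4 := Submodule.smul_mem (U ⊔ Submodule.span K (Set.range a)) (c (Fin.last j))⁻¹ h2
    rwa [smul_smul, inv_mul_cancel₀ h0, one_smul] at h4
  rw [hlast, zero_smul, add_zero] at hc
  have h5 := ha (fun l => c l.castSucc) hc
  funext l
  refine Fin.lastCases ?_ (fun l => ?_) l
  · exact hlast
  · exact congrFun h5 l

/-- the dimension of `U + span a` -/
theorem P1_dim {K : Type} [Field K] {N j : ℕ} (U : Submodule K (Fin N → K))
    (a : Fin j → Fin N → K) (h : Module.finrank K U + j < N) :
    U ⊔ Submodule.span K (Set.range a) ≠ ⊤ := by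
  intro htop
  have h1 := Submodule.finrank_add_le_finrank_add_finrank U (Submodule.span K (Set.range a))
  have h2 : Module.finrank K (Submodule.span K (Set.range a)) ≤ j := by
    have := finrank_range_le_card (R := K) a
    rwa [Fintype.card_fin] at this
  rw [htop, finrank_top, Module.finrank_fin_fun] at h1
  omega

/-- the rational vectors of a subspace over a field of characteristic zero -/
def P1_rat {F : Type} [Field F] [CharZero F] {N : ℕ} (U : Submodule F (Fin N → F)) :
    Submodule ℚ (Fin N → ℚ) where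
  carrier := {y | (fun i => ((y i : ℚ) : F)) ∈ U}
  add_mem' := by
    intro x y hx hy
    have h : (fun i => (((x + y) i : ℚ) : F)) =
        (fun i => ((x i : ℚ) : F)) + fun i => ((y i : ℚ) : F) := by
      funext i
      simp
    show (fun i => (((x + y) i : ℚ) : F)) ∈ U
    rw [h]
    exact U.add_mem hx hy
  zero_mem' := by
    have h : (fun i => (((0 : Fin N → ℚ) i : ℚ) : F)) = 0 := by
      funext i
      simp
    show (fun i => (((0 : Fin N → ℚ) i : ℚ) : F)) ∈ U
    rw [h]
    exact U.zero_mem
  smul_mem' := by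
    intro c x hx
    have h : (fun i => (((c • x) i : ℚ) : F)) = (c : F) • fun i => ((x i : ℚ) : F) := by
      funext i
      simp
    show (fun i => (((c • x) i : ℚ) : F)) ∈ U
    rw [h]
    exact U.smul_mem _ hx

theorem P1_rat_ne_top {F : Type} [Field F] [CharZero F] {N : ℕ} (U : Submodule F (Fin N → F))
    (hU : U ≠ ⊤) : P1_rat U ≠ ⊤ := by
  intro htop
  apply hU
  rw [eq_top_iff]
  intro y _
  have h1 : ∀ i : Fin N, (Pi.single i (1 : F) : Fin N → F) ∈ U := by
    intro i
    have h2 : (Pi.single i (1 : ℚ) : Fin N → ℚ) ∈ P1_rat U := by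
      rw [htop]
      exact Submodule.mem_top
    have h3 : (fun k => (((Pi.single i (1 : ℚ) : Fin N → ℚ) k : ℚ) : F)) ∈ U := h2
    have h4 : (fun k => (((Pi.single i (1 : ℚ) : Fin N → ℚ) k : ℚ) : F)) =
        (Pi.single i (1 : F) : Fin N → F) := by
      funext k
      by_cases hk : k = i
      · subst hk
        simp
      · simp [Pi.single_eq_of_ne hk]
    rwa [h4] at h3
  have h5 : y = ∑ i, y i • (Pi.single i (1 : F) : Fin N → F) := by
    funext k
    rw [Finset.sum_apply, Finset.sum_eq_single k]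
    · simp
    · intro i _ hik
      simp [Pi.single_eq_of_ne hik.symm]
    · intro h
      exact absurd (Finset.mem_univ k) h
  rw [h5]
  exact Submodule.sum_mem _ fun i _ => Submodule.smul_mem _ _ (h1 i)

/-- the vectors, by induction on their number -/
theorem P1_ind (hAVD : AVD) {F : Type} [Field F] [CharZero F] (d : ℕ)
    (V : Submodule F (Fin (d + 1) → F)) (T : Submodule ℚ (Fin (d + 1) → ℚ))
    (hT : Module.finrank ℚ T = Module.finrank F V + 1) :
    ∀ j : ℕ, Module.finrank F V + j ≤ d → ∃ a : Fin j → Fin (d + 1) → ℤ,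
      (∀ c : Fin j → F, (∑ l, c l • (fun i => ((a l i : ℤ) : F))) ∈ V → c = 0) ∧
      ∀ c : Fin j → ℚ, (∑ l, c l • (fun i => ((a l i : ℤ) : ℚ))) ∈ T → c = 0 := by
  intro j
  induction j with
  | zero =>
    intro _
    exact ⟨fun l => l.elim0, fun c _ => Subsingleton.elim _ _, fun c _ => Subsingleton.elim _ _⟩
  | succ j ih =>
    intro hj
    obtain ⟨a, ha1, ha2⟩ := ih (by omega)
    have hV1 := P1_rat_ne_top _ (P1_dim V (fun l => (fun i => ((a l i : ℤ) : F))) (by omega))
    have hV2 := P1_dim T (fun l => (fun i => ((a l i : ℤ) : ℚ))) (by omega)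
    obtain ⟨b, hb⟩ := hAVD (d + 1) 2 ![P1_rat (V ⊔ Submodule.span F
      (Set.range fun l => (fun i => ((a l i : ℤ) : F)))), T ⊔ Submodule.span ℚ
      (Set.range fun l => (fun i => ((a l i : ℤ) : ℚ)))] (by
        intro i
        refine Fin.cases ?_ (fun i => ?_) i
        · exact hV1
        · refine Fin.cases ?_ (fun i => i.elim0) i
          exact hV2)
    have hb1 : (fun i => ((b i : ℤ) : F)) ∉ V ⊔ Submodule.span F
        (Set.range fun l => (fun i => ((a l i : ℤ) : F))) := by
      intro h
      refine hb 0 ?_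
      show (fun i => ((((b i : ℤ) : ℚ)) : F)) ∈ V ⊔ Submodule.span F
        (Set.range fun l => (fun i => ((a l i : ℤ) : F)))
      have h1 : (fun i => ((((b i : ℤ) : ℚ)) : F)) = fun i => ((b i : ℤ) : F) := by
        funext i
        exact Rat.cast_intCast _
      rw [h1]
      exact h
    have hb2 : (fun i => ((b i : ℤ) : ℚ)) ∉ T ⊔ Submodule.span ℚ
        (Set.range fun l => (fun i => ((a l i : ℤ) : ℚ))) := hb 1
    refine ⟨Fin.snoc (α := fun _ => Fin (d + 1) → ℤ) a b, fun c hc => ?_, fun c hc => ?_⟩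
    · refine P1_step V _ _ ha1 hb1 c ?_
      rw [Fin.sum_univ_castSucc] at hc
      simp only [Fin.snoc_castSucc, Fin.snoc_last] at hc
      exact hc
    · refine P1_step T _ _ ha2 hb2 c ?_
      rw [Fin.sum_univ_castSucc] at hc
      simp only [Fin.snoc_castSucc, Fin.snoc_last] at hc
      exact hc

theorem P1_sum {K : Type} [Field K] {N m : ℕ} (c : Fin m → K) (a : Fin m → Fin N → ℤ) :
    (fun i => ∑ l, c l * ((a l i : ℤ) : K)) = ∑ l, c l • (fun i => ((a l i : ℤ) : K)) := by
  funext i
  rw [Finset.sum_apply]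
  rfl

theorem prfP1 (hAVD : AVD) : P1 := by
  intro F _ _ d V T hV hT
  have hr : Module.finrank F V ≤ d := by
    have := Submodule.finrank_lt hV
    rw [Module.finrank_fin_fun] at this
    omega
  obtain ⟨a, ha1, ha2⟩ := P1_ind hAVD d V (T (Module.finrank F V)) (hT _ hr)
    (d - Module.finrank F V) (by omega)
  refine ⟨d - Module.finrank F V, Module.finrank F V, a, by omega, rfl, fun c hc => ?_,
    fun z hz1 hz2 => ?_⟩
  · rw [P1_sum] at hc
    exact ha1 c hc
  · -- the map `(t, c) ↦ t + ∑ c_l a_l`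
    let Φ : (T (Module.finrank F V) × (Fin (d - Module.finrank F V) → ℚ)) →ₗ[ℚ]
        (Fin (d + 1) → ℚ) :=
      (Submodule.subtype _).comp (LinearMap.fst ℚ _ _) +
        (Fintype.linearCombination ℚ (fun l => (fun i => ((a l i : ℤ) : ℚ)))).comp
          (LinearMap.snd ℚ _ _)
    have hΦ : ∀ x, Φ x = (x.1 : Fin (d + 1) → ℚ) +
        ∑ l, x.2 l • (fun i => ((a l i : ℤ) : ℚ)) := fun x => rfl
    have hinj : Function.Injective Φ := by
      rw [← LinearMap.ker_eq_bot, LinearMap.ker_eq_bot']
      rintro ⟨t, c⟩ h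
      rw [hΦ] at h
      have h1 : (∑ l, c l • (fun i => ((a l i : ℤ) : ℚ))) = -(t : Fin (d + 1) → ℚ) :=
        eq_neg_of_add_eq_zero_right h
      have h2 : c = 0 := ha2 c (by
        rw [h1]
        exact Submodule.neg_mem _ t.2)
      have h3 : (t : Fin (d + 1) → ℚ) = 0 := by
        rw [h2] at h1
        simp only [Pi.zero_apply, zero_smul, Finset.sum_const_zero] at h1
        exact neg_eq_zero.1 h1.symm
      rw [Prod.mk_eq_zero]
      exact ⟨Subtype.ext h3, h2⟩
    have hfin : Module.finrank ℚ (T (Module.finrank F V) × (Fin (d - Module.finrank F V) → ℚ)) =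
        Module.finrank ℚ (Fin (d + 1) → ℚ) := by
      rw [Module.finrank_prod, hT _ hr, Module.finrank_fin_fun, Module.finrank_fin_fun]
      omega
    have hsurj : Function.Surjective Φ :=
      (LinearMap.injective_iff_surjective_of_finrank_eq_finrank hfin).1 hinj
    have hall : ∀ y : Fin (d + 1) → ℚ, ∑ i, z i * y i = 0 := by
      intro y
      obtain ⟨⟨t, c⟩, rfl⟩ := hsurj y
      have h1 : ∀ i, z i * Φ (t, c) i = z i * (t : Fin (d + 1) → ℚ) i +
          ∑ l, c l * (z i * ((a l i : ℤ) : ℚ)) := by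
        intro i
        rw [hΦ, Pi.add_apply, Finset.sum_apply, mul_add, Finset.mul_sum]
        congr 1
        refine Finset.sum_congr rfl fun l _ => ?_
        show z i * (c l * ((a l i : ℤ) : ℚ)) = c l * (z i * ((a l i : ℤ) : ℚ))
        ring
      rw [Finset.sum_congr rfl fun i _ => h1 i, Finset.sum_add_distrib, hz1 t t.2, zero_add,
        Finset.sum_comm]
      refine Finset.sum_eq_zero fun l _ => ?_
      rw [← Finset.mul_sum, hz2 l, mul_zero]
    funext i
    have h := hall (Pi.single i 1)
    rw [Finset.sum_eq_single i] at h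
    · rwa [Pi.single_eq_same, mul_one] at h
    · intro k _ hk
      rw [Pi.single_eq_of_ne hk, mul_zero]
    · intro hi
      exact absurd (Finset.mem_univ i) hi

end Pool.Agent.Work.MP_f1a024_nt.RW
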