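import Pool.Agent.Work.MP_f1a024_nt.RW.Stmts

/-!
# Block RW, item P2: the normal vector
-/

set_option autoImplicit false

namespace Pool.Agent.Work.MP_f1a024_nt.RW

open Finset

/-- the map `c ↦ ∑ c_l a_l` -/
noncomputable def P2_map {F : Type} [Field F] {d m : ℕ} (a : Fin m → Fin (d + 1) → ℤ) :
    (Fin m → F) →ₗ[F] (Fin (d + 1) → F) where
  toFun c := fun i => ∑ l, c l * ((a l i : ℤ) : F)
  map_add' c c' := by
    funext i
    change ∑ l, (c l + c' l) * ((a l i : ℤ) : F) = ∑ l, c l * ((a l i : ℤ) : F) +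
      ∑ l, c' l * ((a l i : ℤ) : F)
    rw [← Finset.sum_add_distrib]
    exact Finset.sum_congr rfl (fun l _ => add_mul _ _ _)
  map_smul' t c := by
    funext i
    change ∑ l, (t * c l) * ((a l i : ℤ) : F) = t * ∑ l, c l * ((a l i : ℤ) : F)
    rw [Finset.mul_sum]
    exact Finset.sum_congr rfl (fun l _ => mul_assoc _ _ _)

theorem P2_map_apply {F : Type} [Field F] {d m : ℕ} (a : Fin m → Fin (d + 1) → ℤ) (c : Fin m → F) :
    P2_map a c = fun i => ∑ l, c l * ((a l i : ℤ) : F) := rfl

/-- a linear form with the kernel `V + span a` -/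
theorem P2_form {F : Type} [Field F] {d m : ℕ} (V : Submodule F (Fin (d + 1) → F))
    (a : Fin m → Fin (d + 1) → ℤ) (hd : m + Module.finrank F V = d)
    (hc : ∀ c : Fin m → F, P2_map a c ∈ V → c = 0) :
    ∃ φ : (Fin (d + 1) → F) →ₗ[F] F, φ ≠ 0 ∧ ∀ z, φ z = 0 ↔
      ∃ c : Fin m → F, z - P2_map a c ∈ V := by
  have hinj : Function.Injective (P2_map (F := F) a) := by
    rw [injective_iff_map_eq_zero]
    intro c h
    exact hc c (by rw [h]; exact V.zero_mem)
  have hr : Module.finrank F (LinearMap.range (P2_map (F := F) a)) = m := by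
    rw [LinearMap.finrank_range_of_inj hinj, Module.finrank_fin_fun]
  have hinf : V ⊓ LinearMap.range (P2_map (F := F) a) = ⊥ := by
    rw [eq_bot_iff]
    rintro z ⟨hz, c, rfl⟩
    have := hc c hz
    subst this
    simp
  have h1 := Submodule.finrank_sup_add_finrank_inf_eq V (LinearMap.range (P2_map (F := F) a))
  rw [hinf, finrank_bot, add_zero, hr] at h1
  have h2 := Submodule.finrank_quotient_add_finrank (V ⊔ LinearMap.range (P2_map (F := F) a))
  rw [Module.finrank_fin_fun, h1] at h2
  have h3 : Module.finrank F ((Fin (d + 1) → F) ⧸ (V ⊔ LinearMap.range (P2_map (F := F) a))) =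
      Module.finrank F F := by
    rw [Module.finrank_self]
    omega
  let e := LinearEquiv.ofFinrankEq _ _ h3
  let φ : (Fin (d + 1) → F) →ₗ[F] F :=
    e.toLinearMap.comp (V ⊔ LinearMap.range (P2_map (F := F) a)).mkQ
  have hker : ∀ z, φ z = 0 ↔ z ∈ V ⊔ LinearMap.range (P2_map (F := F) a) := by
    intro z
    change e ((V ⊔ LinearMap.range (P2_map (F := F) a)).mkQ z) = 0 ↔ _
    rw [LinearEquiv.map_eq_zero_iff, Submodule.mkQ_apply, Submodule.Quotient.mk_eq_zero]
  refine ⟨φ, ?_, fun z => ?_⟩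
  · intro h0
    have htop : V ⊔ LinearMap.range (P2_map (F := F) a) = ⊤ := by
      rw [eq_top_iff]
      intro z _
      rw [← hker, h0]
      rfl
    rw [htop, finrank_top, Module.finrank_fin_fun] at h1
    omega
  · rw [hker, Submodule.mem_sup]
    constructor
    · rintro ⟨v, hv, w, ⟨c, rfl⟩, rfl⟩
      refine ⟨c, ?_⟩
      rw [add_sub_cancel_right]
      exact hv
    · rintro ⟨c, hc'⟩
      exact ⟨_, hc', _, ⟨c, rfl⟩, sub_add_cancel _ _⟩

/-- division by a greatest common divisor -/
theorem P2_prim {R : Type} [CommRing R] [IsDomain R] [UniqueFactorizationMonoid R] {N : ℕ}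
    (v : Fin N → R) (hv : ∃ i, v i ≠ 0) : ∃ (g : R) (u : Fin N → R), g ≠ 0 ∧
      (∀ i, v i = g * u i) ∧ (∃ i, u i ≠ 0) ∧ ∀ φ, Irreducible φ → ∃ i, ¬ φ ∣ u i := by
  let _ : NormalizationMonoid R :=
    @StrongNormalizationMonoid.toNormalizationMonoid R _
      (UniqueFactorizationMonoid.strongNormalizationMonoid (α := R))
  let _ : NormalizedGCDMonoid R := UniqueFactorizationMonoid.toNormalizedGCDMonoid R
  obtain ⟨i₀, hi₀⟩ := hv
  obtain ⟨u, hu, hu1⟩ := Finset.extract_gcd (s := (Finset.univ : Finset (Fin N))) v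
    ⟨i₀, Finset.mem_univ _⟩
  refine ⟨Finset.univ.gcd v, u, ?_, fun i => hu i (Finset.mem_univ _), ⟨i₀, ?_⟩, ?_⟩
  · intro h0
    apply hi₀
    rw [hu i₀ (Finset.mem_univ _), h0, zero_mul]
  · intro h0
    apply hi₀
    rw [hu i₀ (Finset.mem_univ _), h0, mul_zero]
  · intro φ hφ
    by_contra hcon
    push Not at hcon
    have h1 : φ ∣ Finset.univ.gcd u := Finset.dvd_gcd (fun i _ => hcon i)
    rw [hu1] at h1
    exact hφ.not_isUnit (isUnit_of_dvd_one h1)

theorem prfP2 : P2 := by
  intro R F _ _ _ _ _ _ d m r V a hmr hr hc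
  obtain ⟨φ, hφ0, hφ⟩ := P2_form V a (by rw [← hr]; exact hmr) hc
  -- the coefficients of the linear form
  have hsum : ∀ z : Fin (d + 1) → F, φ z = ∑ i, z i * φ (fun j => if i = j then 1 else 0) := by
    intro z
    rw [LinearMap.pi_apply_eq_sum_univ φ z]
    rfl
  obtain ⟨b, hb⟩ := IsLocalization.exist_integer_multiples_of_finite (nonZeroDivisors R)
    (fun i : Fin (d + 1) => φ (fun j => if i = j then 1 else 0))
  choose v hv using hb
  have hb0 : algebraMap R F (b : R) ≠ 0 :=
    IsFractionRing.to_map_ne_zero_of_mem_nonZeroDivisors b.2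
  have hv' : ∀ i, algebraMap R F (v i) =
      algebraMap R F (b : R) * φ (fun j => if i = j then 1 else 0) := by
    intro i
    rw [hv i]
    exact Algebra.smul_def _ _
  have hv0 : ∃ i, v i ≠ 0 := by
    by_contra hcon
    push Not at hcon
    apply hφ0
    refine LinearMap.ext (fun z => ?_)
    rw [hsum z]
    refine Finset.sum_eq_zero (fun i _ => ?_)
    have h1 := hv' i
    rw [hcon i, map_zero] at h1
    rcases mul_eq_zero.1 h1.symm with h | h
    · exact absurd h hb0
    · rw [h, mul_zero]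
  obtain ⟨g, u, hg, hgu, hu0, hirr⟩ := P2_prim v hv0
  refine ⟨u, hu0, hirr, fun z => ?_⟩
  have hg0 : algebraMap R F g ≠ 0 := by
    intro h
    apply hg
    exact (IsFractionRing.injective R F) (by rw [h, map_zero])
  have key : algebraMap R F g * ∑ i, algebraMap R F (u i) * z i =
      algebraMap R F (b : R) * φ z := by
    rw [hsum z, Finset.mul_sum, Finset.mul_sum]
    refine Finset.sum_congr rfl (fun i _ => ?_)
    rw [← mul_assoc, ← map_mul, ← hgu i, hv' i]
    ring
  have h1 : (∑ i, algebraMap R F (u i) * z i = 0) ↔ φ z = 0 := by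
    constructor
    · intro h
      rw [h, mul_zero] at key
      rcases mul_eq_zero.1 key.symm with h | h
      · exact absurd h hb0
      · exact h
    · intro h
      rw [h, mul_zero] at key
      rcases mul_eq_zero.1 key with h | h
      · exact absurd h hg0
      · exact h
  rw [h1, hφ z]
  rfl

end Pool.Agent.Work.MP_f1a024_nt.RW
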