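import Pool.Agent.Work.MP_f1a024_nt.RW.Stmts

/-!
# Block RW, item P3a: the vector `b_1`
-/

set_option autoImplicit false

namespace Pool.Agent.Work.MP_f1a024_nt.RW

open Finset MvPolynomial

theorem P3a_coeff (N : ℕ) (u : Fin N → Rg) (b : Fin N → ℤ) (κ : Ex) :
    (dt u b).coeff κ = ∑ i, (u i).coeff κ * (b i : ℚ) := by
  unfold dt
  rw [MvPolynomial.coeff_sum]
  apply Finset.sum_congr rfl
  intro i _
  have h : ((b i : ℤ) : Rg) = C ((b i : ℤ) : ℚ) := (map_intCast (C : ℚ →+* Rg) (b i)).symm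
  rw [h, mul_comm, coeff_C_mul, mul_comm]

/-- the functional -/
noncomputable def P3a_fun (N : ℕ) (u : Fin N → Rg) (κ : Ex) : (Fin N → ℚ) →ₗ[ℚ] ℚ :=
  ∑ i, ((u i).coeff κ) • (LinearMap.proj i : (Fin N → ℚ) →ₗ[ℚ] ℚ)

theorem P3a_fun_apply (N : ℕ) (u : Fin N → Rg) (κ : Ex) (y : Fin N → ℚ) :
    P3a_fun N u κ y = ∑ i, (u i).coeff κ * y i := by
  unfold P3a_fun
  rw [LinearMap.sum_apply]
  apply Finset.sum_congr rfl
  intro i _
  rw [LinearMap.smul_apply, LinearMap.proj_apply, smul_eq_mul]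

theorem P3a_avoid (hAVD : AVD) (N : ℕ) (u : Fin N → Rg) (S : Finset Ex)
    (hS : ∀ κ ∈ S, ∃ i, (u i).coeff κ ≠ 0) :
    ∃ b : Fin N → ℤ, ∀ κ ∈ S, (dt u b).coeff κ ≠ 0 := by
  obtain ⟨b, hb⟩ := hAVD N S.card
    (fun j => LinearMap.ker (P3a_fun N u ((S.equivFin.symm j : {x // x ∈ S}) : Ex))) (by
      intro j h
      obtain ⟨i, hi⟩ := hS _ (S.equivFin.symm j).2
      apply hi
      have h1 : (Pi.single i (1 : ℚ) : Fin N → ℚ) ∈
          LinearMap.ker (P3a_fun N u ((S.equivFin.symm j : {x // x ∈ S}) : Ex)) := by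
        rw [h]
        exact Submodule.mem_top
      rw [LinearMap.mem_ker, P3a_fun_apply, Finset.sum_eq_single i] at h1
      · rwa [Pi.single_eq_same, mul_one] at h1
      · intro l _ hl
        rw [Pi.single_eq_of_ne hl, mul_zero]
      · intro h2
        exact absurd (Finset.mem_univ i) h2)
  refine ⟨b, fun κ hκ h => ?_⟩
  apply hb (S.equivFin ⟨κ, hκ⟩)
  rw [Equiv.symm_apply_apply, LinearMap.mem_ker, P3a_fun_apply]
  rw [P3a_coeff] at h
  exact h

theorem prfP3a (hUB : UB) (hAVD : AVD) : P3a := by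
  classical
  intro N u hu
  obtain ⟨i₀, hi₀⟩ := hu
  obtain ⟨u1, -, u3, u4, u5, u6, -⟩ := hUB
  have : Nonempty (Fin N) := ⟨i₀⟩
  obtain ⟨κ₀, hκ₀, -⟩ : ∃ κ ∈ (u i₀).support, True := by
    obtain ⟨κ, hκ⟩ := MvPolynomial.support_nonempty.2 hi₀
    exact ⟨κ, hκ, trivial⟩
  have hK : ∀ p : Nat.Primes, ∃ κ : Ex, (∃ i, (u i).coeff κ ≠ 0) ∧
      (up u p ≠ 0 → κ p = up u p) := by
    intro p
    by_cases hp : up u p = 0
    · exact ⟨κ₀, ⟨i₀, MvPolynomial.mem_support_iff.1 hκ₀⟩, fun h => absurd hp h⟩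
    · obtain ⟨k, hk⟩ := u6 (Fin N) u p
      have hk0 : u k ≠ 0 := by
        intro h0
        apply hp
        rw [hk, u1, h0, degreeOf_zero]
      obtain ⟨κ, hκ, hκp⟩ := u4 (u k) p hk0
      exact ⟨κ, ⟨k, MvPolynomial.mem_support_iff.1 hκ⟩, fun _ => by rw [hκp, hk]⟩
  choose K hK1 hK2 using hK
  obtain ⟨b, hb⟩ := P3a_avoid hAVD N u (insert κ₀ ((up u).support.image K)) (by
    intro κ hκ
    rcases Finset.mem_insert.1 hκ with rfl | hκ
    · exact ⟨i₀, MvPolynomial.mem_support_iff.1 hκ₀⟩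
    · obtain ⟨p, -, rfl⟩ := Finset.mem_image.1 hκ
      exact hK1 p)
  refine ⟨b, ?_, ?_⟩
  · intro h0
    apply hb κ₀ (Finset.mem_insert_self _ _)
    rw [h0, coeff_zero]
  · apply le_antisymm
    · unfold up1
      apply Finset.sup_le
      intro κ hκ
      rw [MvPolynomial.mem_support_iff, P3a_coeff] at hκ
      obtain ⟨i, -, hi⟩ := Finset.exists_ne_zero_of_sum_ne_zero hκ
      have hi' : (u i).coeff κ ≠ 0 := fun h => hi (by rw [h, zero_mul])
      exact (u3 (u i) κ (MvPolynomial.mem_support_iff.2 hi')).trans (u5 (Fin N) u i)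
    · intro p
      by_cases hp : up u p = 0
      · rw [hp]
        exact Nat.zero_le _
      · have h1 : K p ∈ (dt u b).support := by
          rw [MvPolynomial.mem_support_iff]
          apply hb
          apply Finset.mem_insert_of_mem
          exact Finset.mem_image_of_mem _ (Finsupp.mem_support_iff.2 hp)
        have h2 := u3 (dt u b) (K p) h1 p
        rw [hK2 p hp] at h2
        exact h2

end Pool.Agent.Work.MP_f1a024_nt.RW
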