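import Pool.Agent.Work.MP_f1a024_nt.RW.Stmts

/-!
# Block RW, item P3b: the vector `b_0`
-/

namespace Pool.Agent.Work.MP_f1a024_nt.RW

/-- the rational vectors whose combination is divisible by `φ` -/
def P3b_V {R : Type} [CommRing R] [Algebra ℚ R] {N : ℕ} (u : Fin N → R) (φ : R) :
    Submodule ℚ (Fin N → ℚ) where
  carrier := {b | φ ∣ ∑ i, u i * algebraMap ℚ R (b i)}
  add_mem' := by
    intro a b ha hb
    show φ ∣ ∑ i, u i * algebraMap ℚ R ((a + b) i)
    have e : ∑ i, u i * algebraMap ℚ R ((a + b) i) =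
        ∑ i, u i * algebraMap ℚ R (a i) + ∑ i, u i * algebraMap ℚ R (b i) := by
      rw [← Finset.sum_add_distrib]
      refine Finset.sum_congr rfl fun i _ => ?_
      rw [Pi.add_apply, map_add, mul_add]
    rw [e]
    exact dvd_add ha hb
  zero_mem' := by
    show φ ∣ ∑ i, u i * algebraMap ℚ R ((0 : Fin N → ℚ) i)
    simp
  smul_mem' := by
    intro c a ha
    show φ ∣ ∑ i, u i * algebraMap ℚ R ((c • a) i)
    have e : ∑ i, u i * algebraMap ℚ R ((c • a) i) =
        algebraMap ℚ R c * ∑ i, u i * algebraMap ℚ R (a i) := by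
      rw [Finset.mul_sum]
      refine Finset.sum_congr rfl fun i _ => ?_
      rw [Pi.smul_apply, smul_eq_mul, map_mul]
      ring
    rw [e]
    exact Dvd.dvd.mul_left ha _

theorem P3b_mem {R : Type} [CommRing R] [Algebra ℚ R] {N : ℕ} (u : Fin N → R) (φ : R)
    (b : Fin N → ℚ) : b ∈ P3b_V u φ ↔ φ ∣ ∑ i, u i * algebraMap ℚ R (b i) := Iff.rfl

theorem prfP3b (hAVD : AVD) : P3b := by
  classical
  intro R _ _ _ _ N u hu g hg
  obtain ⟨b, hb⟩ := hAVD N (UniqueFactorizationMonoid.factors g).toList.length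
    (fun j => P3b_V u ((UniqueFactorizationMonoid.factors g).toList.get j)) (by
      intro j htop
      have hmem : (UniqueFactorizationMonoid.factors g).toList.get j ∈
          UniqueFactorizationMonoid.factors g := by
        rw [← Multiset.mem_toList]
        exact List.get_mem _ _
      obtain ⟨i, hi⟩ := hu _ (UniqueFactorizationMonoid.irreducible_of_factor _ hmem)
      apply hi
      have h1 : (Pi.single i (1 : ℚ) : Fin N → ℚ) ∈
          P3b_V u ((UniqueFactorizationMonoid.factors g).toList.get j) := by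
        rw [htop]
        exact Submodule.mem_top
      rw [P3b_mem, Finset.sum_eq_single i] at h1
      · rwa [Pi.single_eq_same, map_one, mul_one] at h1
      · intro k _ hk
        rw [Pi.single_eq_of_ne hk, map_zero, mul_zero]
      · intro h
        exact absurd (Finset.mem_univ i) h)
  refine ⟨b, ?_⟩
  intro x hx1 hx2
  by_contra hx
  have hx0 : x ≠ 0 := by
    rintro rfl
    exact hg (zero_dvd_iff.1 hx2)
  obtain ⟨φ, hφ, hφx⟩ := WfDvdMonoid.exists_irreducible_factor hx hx0
  obtain ⟨q, hq, hφq⟩ := UniqueFactorizationMonoid.exists_mem_factors_of_dvd hg hφ (hφx.trans hx2)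
  obtain ⟨j, hj⟩ := List.mem_iff_get.1 (Multiset.mem_toList.2 hq)
  apply hb j
  rw [P3b_mem, hj]
  have e : ∑ i, u i * algebraMap ℚ R ((b i : ℤ) : ℚ) = dt u b := by
    unfold dt
    refine Finset.sum_congr rfl fun i _ => ?_
    rw [map_intCast]
  rw [e]
  exact (hφq.symm.dvd.trans hφx).trans hx1

end Pool.Agent.Work.MP_f1a024_nt.RW
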