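import Pool.Agent.Work.MP_f1a024_nt.RW.Stmts

namespace Pool.Agent.Work.MP_f1a024_nt.RW

open Finset

theorem P4_dt {R F : Type} [CommRing R] [Field F] [Algebra R F] {N : ℕ} (u : Fin N → R)
    (v : Fin N → ℤ) :
    algebraMap R F (dt u v) = ∑ i, algebraMap R F (u i) * ((v i : ℤ) : F) := by
  simp [dt, map_sum]

theorem P4_cb {R F : Type} [CommRing R] [Field F] [Algebra R F] {m N : ℕ}
    (y : Fin (m + 2) → Fin N → ℤ) (c : Fin (m + 2) → R) (i : Fin N) :
    algebraMap R F (cb y c i) = algebraMap R F (c 0) * ((y 0 i : ℤ) : F) +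
      (algebraMap R F (c 1) * ((y 1 i : ℤ) : F) +
        ∑ l : Fin m, algebraMap R F (c l.succ.succ) * ((y l.succ.succ i : ℤ) : F)) := by
  unfold cb
  rw [Fin.sum_univ_succ, Fin.sum_univ_succ]
  simp only [map_add, map_mul, map_sum, map_intCast, Fin.succ_zero_eq_one]

theorem prfP4 (hP4a : P4a) : P4 := by
  intro R F _ _ _ _ _ _ d m W V u y hV hyp ind h1 hrp
  have hinj : Function.Injective (algebraMap R F) := IsFractionRing.injective R F
  set g0 : R := dt u (y 0) with hg0
  set g1 : R := dt u (y 1) with hg1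
  have hG0 : algebraMap R F g0 = ∑ i, algebraMap R F (u i) * ((y 0 i : ℤ) : F) := P4_dt u (y 0)
  have hG1 : algebraMap R F g1 = ∑ i, algebraMap R F (u i) * ((y 1 i : ℤ) : F) := P4_dt u (y 1)
  -- the vector z
  have hz : ∑ i, algebraMap R F (u i) *
      (algebraMap R F g1 * ((y 0 i : ℤ) : F) - algebraMap R F g0 * ((y 1 i : ℤ) : F)) = 0 := by
    have e : ∀ i, algebraMap R F (u i) *
        (algebraMap R F g1 * ((y 0 i : ℤ) : F) - algebraMap R F g0 * ((y 1 i : ℤ) : F)) =
        algebraMap R F g1 * (algebraMap R F (u i) * ((y 0 i : ℤ) : F)) -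
          algebraMap R F g0 * (algebraMap R F (u i) * ((y 1 i : ℤ) : F)) := fun i => by ring
    rw [Finset.sum_congr rfl fun i _ => e i, Finset.sum_sub_distrib, ← Finset.mul_sum,
      ← Finset.mul_sum, ← hG0, ← hG1]
    ring
  obtain ⟨c0, hc0⟩ := (hyp _).1 hz
  set g : Fin m → F := fun l => -c0 l with hg
  have hZ : (fun i => algebraMap R F g1 * ((y 0 i : ℤ) : F) - algebraMap R F g0 * ((y 1 i : ℤ) : F)
      + ∑ l : Fin m, g l * ((y l.succ.succ i : ℤ) : F)) ∈ V := by
    have e : (fun i => algebraMap R F g1 * ((y 0 i : ℤ) : F) -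
        algebraMap R F g0 * ((y 1 i : ℤ) : F) + ∑ l : Fin m, g l * ((y l.succ.succ i : ℤ) : F)) =
        fun i => algebraMap R F g1 * ((y 0 i : ℤ) : F) - algebraMap R F g0 * ((y 1 i : ℤ) : F)
          - ∑ l : Fin m, c0 l * ((y l.succ.succ i : ℤ) : F) := by
      funext i
      simp only [hg, neg_mul, Finset.sum_neg_distrib, sub_eq_add_neg]
    rw [e]
    exact hc0
  obtain ⟨s, hs0, hsg, hsmin⟩ := hP4a R F m g
  choose cc hcc using hsg
  refine ⟨s, Fin.cons (s * g1) (Fin.cons (-(s * g0)) cc), hs0, rfl, ?_, ?_⟩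
  · rw [← hV]
    have e : (fun i => algebraMap R F
        (cb y (Fin.cons (s * g1) (Fin.cons (-(s * g0)) cc) : Fin (m + 2) → R) i)) =
        algebraMap R F s • fun i => algebraMap R F g1 * ((y 0 i : ℤ) : F) -
          algebraMap R F g0 * ((y 1 i : ℤ) : F) +
            ∑ l : Fin m, g l * ((y l.succ.succ i : ℤ) : F) := by
      funext i
      rw [P4_cb]
      have e1 : (Fin.cons (s * g1) (Fin.cons (-(s * g0)) cc) : Fin (m + 2) → R) 1 = -(s * g0) :=
        rfl
      have e2 : ∀ l : Fin m,
          (Fin.cons (s * g1) (Fin.cons (-(s * g0)) cc) : Fin (m + 2) → R) l.succ.succ = cc l :=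
        fun l => rfl
      have e0 : (Fin.cons (s * g1) (Fin.cons (-(s * g0)) cc) : Fin (m + 2) → R) 0 = s * g1 := rfl
      rw [e0, e1]
      simp only [e2, ← hcc]
      simp only [Pi.smul_apply, smul_eq_mul, mul_add, Finset.mul_sum, map_mul, map_neg]
      have e3 : ∀ l : Fin m, algebraMap R F s * g l * ((y l.succ.succ i : ℤ) : F) =
          algebraMap R F s * (g l * ((y l.succ.succ i : ℤ) : F)) := fun l => by ring
      rw [Finset.sum_congr rfl fun l _ => e3 l]
      ring
    rw [e]
    exact V.smul_mem _ hZ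
  · intro c hc
    have hcV := (hV _).2 hc
    have h3 : ∑ i, algebraMap R F (u i) * algebraMap R F (cb y c i) = 0 :=
      (hyp (fun i => algebraMap R F (cb y c i))).2 ⟨0, by simpa using hcV⟩
    have h4 : ∀ l : Fin m, ∑ i, algebraMap R F (u i) * ((y l.succ.succ i : ℤ) : F) = 0 := by
      intro l
      refine (hyp (fun i => ((y l.succ.succ i : ℤ) : F))).2 ⟨Pi.single l 1, ?_⟩
      have e : (fun i => ((y l.succ.succ i : ℤ) : F) -
          ∑ l' : Fin m, (Pi.single l (1 : F) : Fin m → F) l' * ((y l'.succ.succ i : ℤ) : F)) =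
          0 := by
        funext i
        rw [Finset.sum_eq_single l]
        · simp
        · intro b _ hb
          rw [Pi.single_eq_of_ne hb, zero_mul]
        · intro h
          exact absurd (Finset.mem_univ l) h
      rw [e]
      exact V.zero_mem
    have h5 : c 0 * g0 + c 1 * g1 = 0 := by
      apply hinj
      rw [map_zero, map_add, map_mul, map_mul, hG0, hG1, ← h3]
      have e : ∀ i, algebraMap R F (u i) * algebraMap R F (cb y c i) =
          algebraMap R F (c 0) * (algebraMap R F (u i) * ((y 0 i : ℤ) : F)) +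
          (algebraMap R F (c 1) * (algebraMap R F (u i) * ((y 1 i : ℤ) : F)) +
            ∑ l : Fin m, algebraMap R F (c l.succ.succ) *
              (algebraMap R F (u i) * ((y l.succ.succ i : ℤ) : F))) := by
        intro i
        rw [P4_cb, mul_add, mul_add, Finset.mul_sum]
        congr 1
        · ring
        · congr 1
          · ring
          · exact Finset.sum_congr rfl fun l _ => by ring
      rw [Finset.sum_congr rfl fun i _ => e i, Finset.sum_add_distrib, Finset.sum_add_distrib,
        ← Finset.mul_sum, ← Finset.mul_sum, Finset.sum_comm]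
      have e2 : ∑ l : Fin m, ∑ i, algebraMap R F (c l.succ.succ) *
          (algebraMap R F (u i) * ((y l.succ.succ i : ℤ) : F)) = 0 := by
        apply Finset.sum_eq_zero
        intro l _
        rw [← Finset.mul_sum, h4 l, mul_zero]
      rw [e2, add_zero]
    have h6 : g1 ∣ c 0 * g0 := ⟨-c 1, by linear_combination h5⟩
    obtain ⟨t, ht⟩ := hrp.symm.dvd_of_dvd_mul_right h6
    have h7 : c 1 = -(t * g0) := by
      have : g1 * (c 1 + t * g0) = 0 := by
        rw [ht] at h5
        linear_combination h5
      rcases mul_eq_zero.1 this with h | h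
      · exact absurd h h1
      · linear_combination h
    have h8 := ind (fun l => algebraMap R F (c l.succ.succ) - algebraMap R F t * g l) (by
      have e : (fun i => ∑ l : Fin m, (algebraMap R F (c l.succ.succ) - algebraMap R F t * g l) *
          ((y l.succ.succ i : ℤ) : F)) =
          (fun i => algebraMap R F (cb y c i)) - algebraMap R F t •
            fun i => algebraMap R F g1 * ((y 0 i : ℤ) : F) -
              algebraMap R F g0 * ((y 1 i : ℤ) : F) +
                ∑ l : Fin m, g l * ((y l.succ.succ i : ℤ) : F) := by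
        funext i
        simp only [Pi.sub_apply, Pi.smul_apply, smul_eq_mul]
        rw [P4_cb, ht, h7]
        simp only [sub_mul, Finset.sum_sub_distrib, mul_add, Finset.mul_sum, map_mul, map_neg]
        have e3 : ∀ l : Fin m, algebraMap R F t * g l * ((y l.succ.succ i : ℤ) : F) =
            algebraMap R F t * (g l * ((y l.succ.succ i : ℤ) : F)) := fun l => by ring
        rw [Finset.sum_congr rfl fun l _ => e3 l]
        ring
      rw [e]
      exact V.sub_mem hcV (V.smul_mem _ hZ))
    have h9 : ∀ l, algebraMap R F (c l.succ.succ) = algebraMap R F t * g l := fun l =>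
      sub_eq_zero.1 (congrFun h8 l)
    obtain ⟨t', ht'⟩ := hsmin t fun l => ⟨c l.succ.succ, (h9 l).symm⟩
    refine ⟨t', fun k => ?_⟩
    refine Fin.cases ?_ (fun k => ?_) k
    · change c 0 = t' * (s * g1)
      rw [ht, ht']
      ring
    · refine Fin.cases ?_ (fun l => ?_) k
      · change c 1 = t' * (-(s * g0))
        rw [h7, ht']
        ring
      · change c l.succ.succ = t' * cc l
        apply hinj
        rw [h9 l, ht', map_mul, map_mul, ← hcc l]
        ring

end Pool.Agent.Work.MP_f1a024_nt.RW
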