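import Pool.Agent.Work.MP_f1a024_nt.RW.Stmts

/-!
# Block RW, item P4a: least common denominators in a factorial ring
-/

namespace Pool.Agent.Work.MP_f1a024_nt.RW

open Finset MvPolynomial Filter

/-- the least denominator of one fraction -/
theorem P4a_one (R F : Type) [CommRing R] [IsDomain R] [UniqueFactorizationMonoid R] [Field F]
    [Algebra R F] [IsFractionRing R F] (g : F) :
    ∃ s : R, s ≠ 0 ∧ (∃ c : R, algebraMap R F s * g = algebraMap R F c) ∧
      ∀ t : R, (∃ c : R, algebraMap R F t * g = algebraMap R F c) → s ∣ t := by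
  obtain ⟨a, b, hab, hg⟩ := IsFractionRing.exists_reduced_fraction (A := R) g
  have hb : (b : R) ≠ 0 := nonZeroDivisors.ne_zero b.2
  have h1 : algebraMap R F (b : R) * g = algebraMap R F a := by
    rw [← hg]
    exact IsLocalization.mk'_spec' F a b
  refine ⟨b, hb, ⟨a, h1⟩, ?_⟩
  rintro t ⟨c, hc⟩
  have h2 : algebraMap R F (t * a) = algebraMap R F (b * c) := by
    rw [map_mul, map_mul, ← h1, ← hc]
    ring
  have h3 : t * a = b * c := IsFractionRing.injective R F h2
  have h4 : (b : R) ∣ t * a := ⟨c, h3⟩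
  exact hab.symm.dvd_of_dvd_mul_right h4

theorem prfP4a : P4a := by
  intro R F _ _ _ _ _ _ m g
  classical
  letI := UniqueFactorizationMonoid.toGCDMonoid R
  induction m with
  | zero => exact ⟨1, one_ne_zero, fun l => l.elim0, fun t _ => one_dvd t⟩
  | succ m ih =>
    obtain ⟨s, hs0, hs1, hs2⟩ := ih (fun l => g l.castSucc)
    obtain ⟨y, hy0, hy1, hy2⟩ := P4a_one R F (g (Fin.last m))
    refine ⟨GCDMonoid.lcm s y, ?_, ?_, ?_⟩
    · rw [Ne, _root_.lcm_eq_zero_iff]
      tauto
    · intro l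
      refine Fin.lastCases ?_ (fun l => ?_) l
      · obtain ⟨c, hc⟩ := hy1
        obtain ⟨d, hd⟩ := _root_.dvd_lcm_right s y
        refine ⟨c * d, ?_⟩
        rw [hd, map_mul, map_mul, ← hc]
        ring
      · obtain ⟨c, hc⟩ := hs1 l
        obtain ⟨d, hd⟩ := _root_.dvd_lcm_left s y
        refine ⟨c * d, ?_⟩
        rw [hd, map_mul, map_mul, ← hc]
        ring
    · intro t ht
      exact _root_.lcm_dvd (hs2 t fun l => ht l.castSucc) (hy2 t (ht (Fin.last m)))

end Pool.Agent.Work.MP_f1a024_nt.RW
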