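import Pool.Agent.Work.MP_f1a024_nt.RW.Stmts

/-!
# Block RW, item P5: the coordinates
-/

namespace Pool.Agent.Work.MP_f1a024_nt.RW

open Finset MvPolynomial Filter

theorem prfP5 : P5 := by
  intro R F _ _ _ _ _ d m W V u y h1 h2 h3
  set g : R := dt u (y 1) with hg
  have hinj : Function.Injective (algebraMap R F) := IsFractionRing.injective R F
  have hgF : algebraMap R F g ≠ 0 := fun h0 => h3 (hinj (by rw [h0, map_zero]))
  have hgsum : algebraMap R F g = ∑ j, algebraMap R F (u j) * ((y 1 j : ℤ) : F) := by
    rw [hg]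
    unfold dt
    rw [map_sum]
    refine Finset.sum_congr rfl fun j _ => ?_
    rw [map_mul, map_intCast]
  have key : ∀ i : Fin (d + 1), ∃ c : Fin m → F,
      (fun i' => ((if i' = i then 1 else 0) -
        algebraMap R F (u i) / algebraMap R F g * ((y 1 i' : ℤ) : F)) -
        ∑ l : Fin m, c l * ((y l.succ.succ i' : ℤ) : F)) ∈ V := by
    intro i
    refine (h2 (fun i' => (if i' = i then 1 else 0) -
        algebraMap R F (u i) / algebraMap R F g * ((y 1 i' : ℤ) : F))).1 ?_
    have e1 : ∀ i' : Fin (d + 1), algebraMap R F (u i') * ((if i' = i then 1 else 0) -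
        algebraMap R F (u i) / algebraMap R F g * ((y 1 i' : ℤ) : F)) =
        (if i' = i then algebraMap R F (u i') else 0) -
        algebraMap R F (u i) / algebraMap R F g *
          (algebraMap R F (u i') * ((y 1 i' : ℤ) : F)) := by
      intro i'
      by_cases h : i' = i
      · rw [if_pos h, if_pos h]; ring
      · rw [if_neg h, if_neg h]; ring
    rw [Finset.sum_congr rfl fun i' _ => e1 i', Finset.sum_sub_distrib, ← Finset.mul_sum, ← hgsum,
      Finset.sum_ite_eq' Finset.univ i, if_pos (Finset.mem_univ i), div_mul_cancel₀ _ hgF, sub_self]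
  choose c hc using key
  let ν : Fin (d + 1) → Fin (m + 2) → F := fun i =>
    Fin.cons 0 (Fin.cons (algebraMap R F (u i) / algebraMap R F g) (c i))
  obtain ⟨b, hb⟩ := IsLocalization.exist_integer_multiples_of_finite (nonZeroDivisors R)
    (fun p : Fin (d + 1) × Fin (m + 2) => ν p.1 p.2)
  choose μ hμ using fun (i : Fin (d + 1)) (k : Fin (m + 2)) => hb (i, k)
  have hμ' : ∀ i k, algebraMap R F (μ i k) = algebraMap R F (b : R) * ν i k := by
    intro i k
    rw [hμ i k]
    exact Algebra.smul_def _ _
  have hν0 : ∀ i, ν i 0 = 0 := fun i => rfl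
  have hν1 : ∀ i, ν i 1 = algebraMap R F (u i) / algebraMap R F g := fun i => rfl
  have hν2 : ∀ i (l : Fin m), ν i l.succ.succ = c i l := fun i l => rfl
  refine ⟨b, μ, nonZeroDivisors.ne_zero b.2, ?_, ?_, ?_⟩
  · intro i
    apply hinj
    rw [hμ', hν0, mul_zero, map_zero]
  · intro i
    refine (h1 _).1 ?_
    have h5 := V.smul_mem (algebraMap R F (b : R)) (hc i)
    have h6 : (fun i' => algebraMap R F ((b : R) * (if i' = i then 1 else 0) - cb y (μ i) i')) =
        algebraMap R F (b : R) • (fun i' => ((if i' = i then 1 else 0) -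
        algebraMap R F (u i) / algebraMap R F g * ((y 1 i' : ℤ) : F)) -
        ∑ l : Fin m, c i l * ((y l.succ.succ i' : ℤ) : F)) := by
      funext i'
      rw [Pi.smul_apply, smul_eq_mul, map_sub, map_mul]
      unfold cb
      rw [map_sum]
      have h7 : ∀ k, algebraMap R F (μ i k * ((y k i' : ℤ) : R)) =
          algebraMap R F (b : R) * ν i k * ((y k i' : ℤ) : F) := by
        intro k
        rw [map_mul, map_intCast, hμ']
      rw [Finset.sum_congr rfl fun k _ => h7 k, Fin.sum_univ_succ, Fin.sum_univ_succ, hν0]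
      have h8 : ν i (Fin.succ 0) = algebraMap R F (u i) / algebraMap R F g := rfl
      have h9 : y (Fin.succ 0) = y 1 := rfl
      rw [h8, h9]
      have h10 : ∑ l : Fin m, algebraMap R F (b : R) * ν i l.succ.succ *
          ((y l.succ.succ i' : ℤ) : F) =
          algebraMap R F (b : R) * ∑ l : Fin m, c i l * ((y l.succ.succ i' : ℤ) : F) := by
        rw [Finset.mul_sum]
        refine Finset.sum_congr rfl fun l _ => ?_
        rw [hν2, mul_assoc]
      rw [h10]
      have h11 : algebraMap R F (if i' = i then 1 else 0) = (if i' = i then 1 else 0) := by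
        split_ifs <;> simp
      rw [h11]
      ring
    rw [h6]
    exact h5
  · intro i
    apply hinj
    rw [map_mul, map_mul, hμ', hν1]
    field_simp

end Pool.Agent.Work.MP_f1a024_nt.RW
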