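import Pool.Agent.Work.MP_f1a024_nt.RW.Stmts

/-!
# Block RW, item PLC: the finite places of the rational field are the p-adic ones
-/

set_option autoImplicit false

namespace Pool.Agent.Work.MP_f1a024_nt.RW

open NumberField IsDedekindDomain

/-- the finite place of a prime number -/
noncomputable def PLC_P : Nat.Primes ≃ FinitePlace ℚ :=
  (Rat.HeightOneSpectrum.primesEquiv (R := 𝓞 ℚ)).symm.trans
    FinitePlace.equivHeightOneSpectrum.symm

theorem PLC_apply (p : Nat.Primes) (x : ℚ) :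
    PLC_P p x = ‖FinitePlace.embedding
      ((Rat.HeightOneSpectrum.primesEquiv (R := 𝓞 ℚ)).symm p) x‖ := rfl

theorem PLC_mem (p : Nat.Primes) (m : ℕ) :
    (m : 𝓞 ℚ) ∈ ((Rat.HeightOneSpectrum.primesEquiv (R := 𝓞 ℚ)).symm p).asIdeal ↔
      (p : ℕ) ∣ m := by
  have h1 := Rat.HeightOneSpectrum.natGenerator_dvd_iff
    ((Rat.HeightOneSpectrum.primesEquiv (R := 𝓞 ℚ)).symm p) (n := m)
  have h2 : Rat.HeightOneSpectrum.natGenerator
      ((Rat.HeightOneSpectrum.primesEquiv (R := 𝓞 ℚ)).symm p) = (p : ℕ) := by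
    have h3 := (Rat.HeightOneSpectrum.primesEquiv (R := 𝓞 ℚ)).apply_symm_apply p
    exact congrArg Subtype.val h3
  rw [h2] at h1
  rw [h1]
  have h4 : ((m : ℕ) : ℤ) = Rat.IsIntegralClosure.intEquiv (𝓞 ℚ) (m : 𝓞 ℚ) := by simp
  rw [h4]
  constructor
  · intro h5
    exact Ideal.mem_map_of_mem _ h5
  · intro h5
    rw [Ideal.mem_map_iff_of_surjective _
      (Rat.IsIntegralClosure.intEquiv (𝓞 ℚ)).surjective] at h5
    obtain ⟨y, hy, hxy⟩ := h5
    have h6 : y = (m : 𝓞 ℚ) := (Rat.IsIntegralClosure.intEquiv (𝓞 ℚ)).injective hxy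
    rw [← h6]
    exact hy

theorem PLC_eq_one (p : Nat.Primes) (m : ℕ) (hm : ¬ (p : ℕ) ∣ m) : PLC_P p (m : ℚ) = 1 := by
  rw [PLC_apply]
  have h1 := (FinitePlace.norm_eq_one_iff_notMem ℚ
    ((Rat.HeightOneSpectrum.primesEquiv (R := 𝓞 ℚ)).symm p) (m : 𝓞 ℚ)).2
      (fun h => hm ((PLC_mem p m).1 h))
  rw [map_natCast] at h1
  exact h1

theorem PLC_norm (inst : Algebra ℚ ℚ) (x : ℚ) : @Algebra.norm ℚ ℚ _ _ inst x = x := by
  have h : inst = Algebra.id ℚ := Subsingleton.elim _ _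
  subst h
  rw [Algebra.norm_self, MonoidHom.id_apply]

theorem PLC_self (p : Nat.Primes) : PLC_P p ((p : ℕ) : ℚ) = (((p : ℕ) : ℝ))⁻¹ := by
  have hp0 : (((p : ℕ)) : ℚ) ≠ 0 := by exact_mod_cast p.2.ne_zero
  have h1 := FinitePlace.prod_eq_inv_abs_norm (K := ℚ) hp0
  rw [PLC_norm] at h1
  have h2 : ∏ᶠ w : FinitePlace ℚ, w ((p : ℕ) : ℚ) = PLC_P p ((p : ℕ) : ℚ) := by
    refine finprod_eq_single _ (PLC_P p) fun w hw => ?_
    obtain ⟨q, rfl⟩ := PLC_P.surjective w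
    refine PLC_eq_one q p fun hd => hw ?_
    have h3 : (q : ℕ) = (p : ℕ) := (Nat.prime_dvd_prime_iff_eq q.2 p.2).1 hd
    rw [show q = p from Subtype.ext h3]
  rw [← h2, h1]
  simp

theorem PLC_nat (p : Nat.Primes) (m : ℕ) :
    PLC_P p (m : ℚ) = ((padicNorm p (m : ℚ) : ℚ) : ℝ) := by
  have : Fact (p : ℕ).Prime := ⟨p.2⟩
  rcases Nat.eq_zero_or_pos m with rfl | hm
  · simp
  · obtain ⟨k, m', hm', rfl⟩ := Nat.exists_eq_pow_mul_and_not_dvd hm.ne' (p : ℕ) p.2.ne_one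
    rw [Nat.cast_mul, Nat.cast_pow, map_mul, map_pow, PLC_eq_one p m' hm', PLC_self,
      padicNorm.mul, padicNorm.nat_eq_one_iff m' |>.2 hm']
    have h1 : padicNorm (p : ℕ) (((p : ℕ) : ℚ) ^ k) = (((p : ℕ) : ℚ)⁻¹) ^ k := by
      clear hm
      induction k with
      | zero => simp
      | succ k ih =>
        rw [pow_succ, padicNorm.mul, ih, padicNorm.padicNorm_p_of_prime, pow_succ]
    rw [h1]
    push_cast
    ring

theorem prfPLC : PLC := by
  refine ⟨PLC_P, fun p x => ?_⟩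
  have : Fact (p : ℕ).Prime := ⟨p.2⟩
  have h1 : PLC_P p (x.num : ℚ) = ((padicNorm p (x.num : ℚ) : ℚ) : ℝ) := by
    rcases Int.natAbs_eq x.num with h | h
    · rw [h, Int.cast_natCast]
      exact PLC_nat p _
    · rw [h, Int.cast_neg, Int.cast_natCast, padicNorm.neg, map_neg_eq_map]
      exact PLC_nat p _
  have h2 : PLC_P p x = PLC_P p (x.num : ℚ) / PLC_P p (x.den : ℚ) := by
    rw [← map_div₀, Rat.num_div_den]
  have h3 : padicNorm p x = padicNorm p (x.num : ℚ) / padicNorm p (x.den : ℚ) := by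
    rw [← padicNorm.div, Rat.num_div_den]
  rw [h2, h3, h1, PLC_nat, Rat.cast_div]

end Pool.Agent.Work.MP_f1a024_nt.RW
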