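import Pool.Agent.Work.MP_f1a024_nt.RW.Stmts

/-! # Block RW: item PRI -/

namespace Pool.Agent.Work.MP_f1a024_nt.RW

open Finset MvPolynomial Filter

theorem PRI_lf_in {ι : Type} [DecidableEq ι] (l : ι → Rg) (k : ι) (κ δ' : Ex)
    (i j : ι × Ex) (h : i ∈ ee k κ δ') : lf l k κ δ' i j = sh l (i.2 - κ) j := by
  unfold lf
  rw [if_pos h]

theorem PRI_lf_out {ι : Type} [DecidableEq ι] (l : ι → Rg) (k : ι) (κ δ' : Ex)
    (i j : ι × Ex) (h : i ∉ ee k κ δ') : lf l k κ δ' i j = if i = j then 1 else 0 := by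
  unfold lf
  rw [if_neg h]

theorem prfPRI (hNB : NB) (hUB : UB) (hSH : SH) (hEE : EE) : PRI := by
  intro m n x H w l κ₀ κ₁ δ hH hx hκ₀ hκ₁ hw hl
  obtain ⟨-, -, hpos, -, -, -, -, -, -, -, -⟩ := hNB
  obtain ⟨-, -, hU3, -, hU5, -, -⟩ := hUB
  have hκ₀' : κ₀ ≤ up w := le_trans (hU3 _ _ hκ₀) (hU5 _ w 0)
  have hκ₁' : κ₁ ≤ up l := le_trans (hU3 _ _ hκ₁) (hU5 _ l 1)
  obtain ⟨hc0, hs0, hp0⟩ := hEE (Fin (m + 2)) 0 κ₀ (δ - up w) δ
  obtain ⟨hc1, hs1, hp1⟩ := hEE (Fin (m + 2)) 1 κ₁ (δ - up l) δ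
  have hs0' : ee (0 : Fin (m + 2)) κ₀ (δ - up w) ⊆ bx (Fin (m + 2)) δ := by
    apply hs0
    calc δ - up w + κ₀ ≤ δ - up w + up w := add_le_add_right hκ₀' _
      _ = δ := tsub_add_cancel_of_le hw
  have hs1' : ee (1 : Fin (m + 2)) κ₁ (δ - up l) ⊆ bx (Fin (m + 2)) δ := by
    apply hs1
    calc δ - up l + κ₁ ≤ δ - up l + up l := add_le_add_right hκ₁' _
      _ = δ := tsub_add_cancel_of_le hl
  set B := bx (Fin (m + 2)) δ with hB
  set E₀ := ee (0 : Fin (m + 2)) κ₀ (δ - up w) with hE₀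
  set E₁ := ee (1 : Fin (m + 2)) κ₁ (δ - up l) with hE₁
  have hdisj : Disjoint E₁ E₀ := by
    rw [Finset.disjoint_left]
    intro i hi hi'
    rw [hE₁, ee, Finset.mem_image] at hi
    rw [hE₀, ee, Finset.mem_image] at hi'
    obtain ⟨a, -, ha⟩ := hi
    obtain ⟨b, -, hb⟩ := hi'
    have h1 : i.1 = 1 := by rw [← ha]
    have h2 : i.1 = 0 := by rw [← hb]
    rw [h1] at h2
    exact one_ne_zero h2
  have hsub : E₁ ⊆ B \ E₀ := by
    intro i hi
    rw [Finset.mem_sdiff]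
    exact ⟨hs1' hi, fun h => (Finset.disjoint_left.mp hdisj) hi h⟩
  set R := (B \ E₀) \ E₁ with hR
  rw [← Finset.prod_sdiff hsub]
  -- the value on the coordinates of `E₁`
  set Λ : ℝ := |((∑ k, ev n (l k) * (x k : ℚ) : ℚ) : ℝ)| with hΛ
  have hΛ0 : 0 ≤ Λ := abs_nonneg _
  have hprod1 : ∏ i ∈ E₁, |((∑ j ∈ B, lf l 1 κ₁ (δ - up l) i j * pt n x j : ℚ) : ℝ)| =
      Λ ^ (Iic (δ - up l)).card * ((∏ a ∈ Iic (δ - up l), (nn a : ℝ)) ^ n)⁻¹ := by
    rw [hE₁, ee, Finset.prod_image (by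
      intro a _ b _ hab
      have := congrArg Prod.snd hab
      exact add_right_cancel this)]
    have : ∀ a ∈ Iic (δ - up l), |((∑ j ∈ B, lf l 1 κ₁ (δ - up l) (1, a + κ₁) j * pt n x j : ℚ) : ℝ)|
        = Λ * ((nn a : ℝ) ^ n)⁻¹ := by
      intro a ha
      have hmem : ((1 : Fin (m + 2)), a + κ₁) ∈ ee (1 : Fin (m + 2)) κ₁ (δ - up l) :=
        Finset.mem_image_of_mem _ ha
      have h1 : ∑ j ∈ B, lf l 1 κ₁ (δ - up l) (1, a + κ₁) j * pt n x j
          = ∑ j ∈ B, sh l a j * pt n x j := by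
        apply Finset.sum_congr rfl
        intro j _
        rw [PRI_lf_in l 1 κ₁ _ _ j hmem]
        simp only [add_tsub_cancel_right]
      have hle : a + up l ≤ δ := by
        calc a + up l ≤ δ - up l + up l := add_le_add_left (Finset.mem_Iic.mp ha) _
          _ = δ := tsub_add_cancel_of_le hl
      rw [h1, hB, hSH (Fin (m + 2)) l a δ hle n x]
      push_cast
      rw [abs_mul, abs_inv, abs_pow, Nat.abs_cast, mul_comm, hΛ]
      push_cast
      rfl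
    rw [Finset.prod_congr rfl this, Finset.prod_mul_distrib, Finset.prod_const,
      Finset.prod_inv_distrib, Finset.prod_pow]
  have hprod2 : ∏ i ∈ R, |((∑ j ∈ B, lf l 1 κ₁ (δ - up l) i j * pt n x j : ℚ) : ℝ)| ≤
      H ^ R.card * ((∏ i ∈ R, (nn i.2 : ℝ)) ^ n)⁻¹ := by
    calc ∏ i ∈ R, |((∑ j ∈ B, lf l 1 κ₁ (δ - up l) i j * pt n x j : ℚ) : ℝ)|
        ≤ ∏ i ∈ R, (H * ((nn i.2 : ℝ) ^ n)⁻¹) := by
          apply Finset.prod_le_prod
          · intro i _; exact abs_nonneg _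
          · intro i hi
            rw [hR, Finset.mem_sdiff, Finset.mem_sdiff] at hi
            obtain ⟨⟨hiB, hi0⟩, hi1⟩ := hi
            have h1 : ∑ j ∈ B, lf l 1 κ₁ (δ - up l) i j * pt n x j = pt n x i := by
              rw [Finset.sum_eq_single i]
              · rw [PRI_lf_out l 1 κ₁ _ _ i hi1, if_pos rfl, one_mul]
              · intro j _ hj
                rw [PRI_lf_out l 1 κ₁ _ _ j hi1, if_neg (fun h => hj h.symm), zero_mul]
              · intro h; exact absurd hiB h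
            rw [h1, pt]
            push_cast
            rw [abs_div, abs_pow, Nat.abs_cast, div_eq_mul_inv]
            exact mul_le_mul_of_nonneg_right (hx i.1) (by positivity)
      _ = H ^ R.card * ((∏ i ∈ R, (nn i.2 : ℝ)) ^ n)⁻¹ := by
          rw [Finset.prod_mul_distrib, Finset.prod_const, Finset.prod_inv_distrib, Finset.prod_pow]
  -- cardinalities
  have hcardB : B.card = (m + 2) * (Iic δ).card := by
    rw [hB, bx, Finset.card_product, Finset.card_univ, Fintype.card_fin]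
  have hcardR : R.card = (m + 2) * (Iic δ).card - (Iic (δ - up l)).card
      - (Iic (δ - up w)).card := by
    rw [hR, Finset.card_sdiff_of_subset hsub, Finset.card_sdiff_of_subset hs0', hc0, hc1, hcardB]
    omega
  -- products of `nn`
  have hPB : (∏ i ∈ B, (nn i.2 : ℝ)) = (∏ i ∈ R, (nn i.2 : ℝ)) *
      ((∏ a ∈ Iic (δ - up l), (nn a : ℝ)) * (nn κ₁ : ℝ) ^ (Iic (δ - up l)).card) *
      ((∏ a ∈ Iic (δ - up w), (nn a : ℝ)) * (nn κ₀ : ℝ) ^ (Iic (δ - up w)).card) := by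
    rw [← Finset.prod_sdiff hs0', ← Finset.prod_sdiff hsub]
    have e0 : ∏ i ∈ E₀, (nn i.2 : ℝ) =
        (∏ a ∈ Iic (δ - up w), (nn a : ℝ)) * (nn κ₀ : ℝ) ^ (Iic (δ - up w)).card := by
      exact_mod_cast hp0
    have e1 : ∏ i ∈ E₁, (nn i.2 : ℝ) =
        (∏ a ∈ Iic (δ - up l), (nn a : ℝ)) * (nn κ₁ : ℝ) ^ (Iic (δ - up l)).card := by
      exact_mod_cast hp1
    rw [e0, e1]
  have hposR : ∀ a : Ex, (0 : ℝ) < nn a := fun a => by exact_mod_cast hpos a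
  have hA_T : 0 < ∏ a ∈ Iic (δ - up l), (nn a : ℝ) := Finset.prod_pos fun a _ => hposR a
  have hA_W : 0 < ∏ a ∈ Iic (δ - up w), (nn a : ℝ) := Finset.prod_pos fun a _ => hposR a
  have hRp : 0 < ∏ i ∈ R, (nn i.2 : ℝ) := Finset.prod_pos fun i _ => hposR i.2
  have hk0 := hposR κ₀
  have hk1 := hposR κ₁
  have hquot : ((∏ a ∈ Iic (δ - up w), (nn a : ℝ)) * (nn κ₀ : ℝ) ^ (Iic (δ - up w)).card *
      (nn κ₁ : ℝ) ^ (Iic (δ - up l)).card) / ∏ i ∈ B, (nn i.2 : ℝ) =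
      (∏ a ∈ Iic (δ - up l), (nn a : ℝ))⁻¹ * (∏ i ∈ R, (nn i.2 : ℝ))⁻¹ := by
    rw [hPB]
    field_simp
  rw [hquot, hprod1, mul_pow, inv_pow, inv_pow, ← hcardR]
  calc _ ≤ (H ^ R.card * ((∏ i ∈ R, (nn i.2 : ℝ)) ^ n)⁻¹) *
        (Λ ^ (Iic (δ - up l)).card * ((∏ a ∈ Iic (δ - up l), (nn a : ℝ)) ^ n)⁻¹) :=
        mul_le_mul_of_nonneg_right hprod2 (by positivity)
    _ = _ := by ring

end Pool.Agent.Work.MP_f1a024_nt.RW
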