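import Pool.Agent.Work.MP_f1a024_nt.RW.Stmts

/-!
# Item PRP of block RW: the product at the finite places
-/

set_option autoImplicit false

namespace Pool.Agent.Work.MP_f1a024_nt.RW

open Finset MvPolynomial Filter

/-- membership in the box -/
theorem PRP_mem_bx {ι : Type} [Fintype ι] {δ : Ex} {i : ι × Ex} : i ∈ bx ι δ ↔ i.2 ≤ δ := by
  unfold bx
  rw [Finset.mem_product]
  simp

/-- `N(b)` is the product over the support of a larger exponent -/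
theorem PRP_nn {b δ : Ex} (h : b ≤ δ) :
    ∏ p ∈ δ.support, (((p : Nat.Primes) : ℕ) : ℝ) ^ (b p) = (nn b : ℝ) := by
  have h1 : nn b = ∏ p ∈ δ.support, ((p : Nat.Primes) : ℕ) ^ (b p) := by
    unfold nn
    exact Finsupp.prod_of_support_subset b (Finsupp.support_mono h) _ (fun p _ => pow_zero _)
  rw [h1]
  push_cast
  rfl

/-- the norm of a power -/
theorem PRP_pow (p : ℕ) [Fact p.Prime] (q : ℚ) (n : ℕ) :
    padicNorm p (q ^ n) = padicNorm p q ^ n := by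
  induction n with
  | zero => rw [pow_zero, pow_zero, padicNorm.one]
  | succ n ih => rw [pow_succ, padicNorm.mul, ih, pow_succ]

/-- the norm of one coordinate -/
theorem PRP_norm (hNB : NB) {m : ℕ} (n : ℕ) (x : Fin (m + 2) → ℤ) (p : Nat.Primes)
    (i : Fin (m + 2) × Ex) :
    ((padicNorm p (pt n x i) : ℚ) : ℝ) ≤ (((p : ℕ) : ℝ) ^ (i.2 p)) ^ n := by
  have : Fact (p : ℕ).Prime := ⟨p.2⟩
  obtain ⟨_, _, hpos, _, _, _, _, hfac, _, _, _⟩ := hNB
  have hN : (nn i.2 : ℚ) ≠ 0 := by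
    have := hpos i.2
    exact_mod_cast this.ne'
  have h1 : padicNorm p (nn i.2 : ℚ) = (((p : ℕ) : ℚ) ^ (i.2 p))⁻¹ := by
    rw [padicNorm.eq_zpow_of_nonzero hN, padicValRat.of_nat,
      ← Nat.factorization_def _ p.2, hfac i.2 p, zpow_neg, zpow_natCast]
  have h2 : padicNorm p (pt n x i) ≤ (((p : ℕ) : ℚ) ^ (i.2 p)) ^ n := by
    unfold pt
    rw [padicNorm.div]
    have h3 : padicNorm p ((nn i.2 : ℚ) ^ n) = (((((p : ℕ) : ℚ) ^ (i.2 p))⁻¹)) ^ n := by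
      rw [PRP_pow, h1]
    rw [h3, inv_pow, div_inv_eq_mul]
    have h4 : padicNorm p (x i.1 : ℚ) ≤ 1 := padicNorm.of_int (x i.1)
    have h5 : (0 : ℚ) ≤ (((p : ℕ) : ℚ) ^ (i.2 p)) ^ n := by positivity
    calc padicNorm p (x i.1 : ℚ) * (((p : ℕ) : ℚ) ^ (i.2 p)) ^ n
        ≤ 1 * (((p : ℕ) : ℚ) ^ (i.2 p)) ^ n := mul_le_mul_of_nonneg_right h4 h5
      _ = _ := one_mul _
  exact_mod_cast h2

/-- the product at one place -/
theorem PRP_place (hNB : NB) (hUB : UB) (hEE : EE) {m : ℕ} (n : ℕ) (x : Fin (m + 2) → ℤ)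
    (w : Fin (m + 2) → Rg) (δ : Ex) (k : Fin (m + 2)) (α : Ex) (p : Nat.Primes)
    (hα : α ∈ (w k).support) (hαp : α p = up w p) (hw : up w ≤ δ) :
    ∏ i ∈ bx (Fin (m + 2)) δ \ ee k α (δ - up w), ((padicNorm p (pt n x i) : ℚ) : ℝ) ≤
      ((∏ i ∈ bx (Fin (m + 2)) δ, ((p : ℕ) : ℝ) ^ (i.2 p)) /
        ((∏ a ∈ Iic (δ - up w), ((p : ℕ) : ℝ) ^ (a p)) *
          (((p : ℕ) : ℝ) ^ (up w p)) ^ (Iic (δ - up w)).card)) ^ n := by
  obtain ⟨_, _, hU3, _, hU5, _, _⟩ := hUB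
  have hp0 : (0 : ℝ) < ((p : ℕ) : ℝ) := by exact_mod_cast p.2.pos
  have hle : α ≤ up w := le_trans (hU3 (w k) α hα) (hU5 (Fin (m + 2)) w k)
  have hsub : ee k α (δ - up w) ⊆ bx (Fin (m + 2)) δ := by
    refine (hEE (Fin (m + 2)) k α (δ - up w) δ).2.1 ?_
    calc (δ - up w) + α ≤ (δ - up w) + up w := add_le_add le_rfl hle
      _ = δ := tsub_add_cancel_of_le hw
  have h1 : ∏ i ∈ bx (Fin (m + 2)) δ \ ee k α (δ - up w), ((padicNorm p (pt n x i) : ℚ) : ℝ) ≤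
      ∏ i ∈ bx (Fin (m + 2)) δ \ ee k α (δ - up w), (((p : ℕ) : ℝ) ^ (i.2 p)) ^ n := by
    refine Finset.prod_le_prod (fun i _ => ?_) fun i _ => PRP_norm hNB n x p i
    have h2 : (0 : ℚ) ≤ padicNorm p (pt n x i) := padicNorm.nonneg _
    exact_mod_cast h2
  refine le_trans h1 (le_of_eq ?_)
  rw [Finset.prod_pow]
  congr 1
  have h3 : ∏ i ∈ ee k α (δ - up w), ((p : ℕ) : ℝ) ^ (i.2 p) =
      (∏ a ∈ Iic (δ - up w), ((p : ℕ) : ℝ) ^ (a p)) *
          (((p : ℕ) : ℝ) ^ (up w p)) ^ (Iic (δ - up w)).card := by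
    unfold ee
    rw [Finset.prod_image]
    · have h4 : ∀ a ∈ Iic (δ - up w), ((p : ℕ) : ℝ) ^ ((k, a + α).2 p) =
          ((p : ℕ) : ℝ) ^ (a p) * ((p : ℕ) : ℝ) ^ (up w p) := by
        intro a _
        show ((p : ℕ) : ℝ) ^ ((a + α) p) = _
        rw [Finsupp.add_apply, hαp, pow_add]
      rw [Finset.prod_congr rfl h4, Finset.prod_mul_distrib, Finset.prod_const]
    · intro a _ b _ hab
      have h5 : a + α = b + α := (Prod.mk.inj hab).2
      exact add_right_cancel h5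
  rw [← h3]
  have h6 : (∏ i ∈ ee k α (δ - up w), ((p : ℕ) : ℝ) ^ (i.2 p)) ≠ 0 := by
    refine Finset.prod_ne_zero_iff.2 fun i _ => ?_
    exact (pow_pos hp0 _).ne'
  rw [eq_div_iff h6]
  exact Finset.prod_sdiff hsub

theorem prfPRP (hNB : NB) (hUB : UB) (hEE : EE) : PRP := by
  intro m n x w δ k α hα hw
  have h1 : ∏ p ∈ δ.support, ∏ i ∈ bx (Fin (m + 2)) δ \ ee (k p) (α p) (δ - up w),
        ((padicNorm p (pt n x i) : ℚ) : ℝ) ≤
      ∏ p ∈ δ.support, ((∏ i ∈ bx (Fin (m + 2)) δ, ((p : ℕ) : ℝ) ^ (i.2 p)) /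
        ((∏ a ∈ Iic (δ - up w), ((p : ℕ) : ℝ) ^ (a p)) *
          (((p : ℕ) : ℝ) ^ (up w p)) ^ (Iic (δ - up w)).card)) ^ n := by
    refine Finset.prod_le_prod (fun p _ => ?_) fun p _ =>
      PRP_place hNB hUB hEE n x w δ (k p) (α p) p (hα p).1 (hα p).2 hw
    refine Finset.prod_nonneg fun i _ => ?_
    have h2 : (0 : ℚ) ≤ padicNorm p (pt n x i) := padicNorm.nonneg _
    exact_mod_cast h2
  refine le_trans h1 (le_of_eq ?_)
  rw [Finset.prod_pow, Finset.prod_div_distrib, Finset.prod_mul_distrib, Finset.prod_pow,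
    Finset.prod_comm, PRP_nn hw]
  congr 2
  · refine Finset.prod_congr rfl fun i hi => ?_
    exact PRP_nn (PRP_mem_bx.1 hi)
  · congr 1
    rw [Finset.prod_comm]
    refine Finset.prod_congr rfl fun a ha => ?_
    exact PRP_nn (le_trans (Finset.mem_Iic.1 ha) tsub_le_self)

end Pool.Agent.Work.MP_f1a024_nt.RW
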