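import Pool.Agent.Work.MP_f1a024_nt.RW.Stmts

/-!
# Block RW: item PUR
-/

namespace Pool.Agent.Work.MP_f1a024_nt.RW

theorem PUR_core (m : ℕ) (ε η β a b q I T W n lam h e : ℝ) (hε : 0 < ε) (hη : 0 < η)
    (hη2 : η ≤ 1 / 2) (hK : η * ((m + 2) * β + a + q) ≤ ε / 4) (hβ : 0 ≤ β) (ha : 0 ≤ a)
    (hq : 0 ≤ q) (hI : 1 ≤ I) (hT : T ≤ I) (hW : W ≤ I) (hT2 : (1 - η) * I ≤ T)
    (hW2 : (1 - η) * I ≤ W) (hn : 0 ≤ n) (hh : 0 ≤ h) (hh2 : h ≤ n * β)
    (he : e = (m + 2) * I - T - W)
    (H : -(ε / 8 * n) ≤ T * lam + e * h + n * (W * a + T * b - W * q)) :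
    -(ε * n) + n * (q - a - b) - m * h ≤ lam := by
  have hm : (0 : ℝ) ≤ m := Nat.cast_nonneg m
  have hTp : 0 < T := by nlinarith
  have h1 : T * (-(ε * n) + n * (q - a - b) - m * h) ≤ T * lam := by
    have e1 : e - T * m ≤ (m + 2) * (η * I) := by
      rw [he]
      nlinarith
    have e0 : 0 ≤ e - T * m := by
      rw [he]
      nlinarith
    have e2 : (e - T * m) * h ≤ (m + 2) * (η * I) * (n * β) :=
      mul_le_mul e1 hh2 hh (by positivity)
    have e3 : -(η * I * (a + q)) ≤ (T - W) * (a - q) := by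
      have h2 : |T - W| ≤ η * I := by
        rw [abs_le]
        constructor <;> nlinarith
      have h3 : |a - q| ≤ a + q := by
        rw [abs_le]
        constructor <;> linarith
      have h4 : |(T - W) * (a - q)| ≤ η * I * (a + q) := by
        rw [abs_mul]
        exact mul_le_mul h2 h3 (abs_nonneg _) (by positivity)
      exact (abs_le.1 h4).1
    have e4 : ε * (I / 2) ≤ ε * T := by
      refine mul_le_mul_of_nonneg_left ?_ hε.le
      nlinarith
    have e5 : ε / 8 ≤ ε / 8 * I := by nlinarith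
    have e6 : η * ((m + 2) * β + a + q) * I ≤ ε / 4 * I :=
      mul_le_mul_of_nonneg_right hK (by linarith)
    have e7 : 0 ≤ ε * T - ε / 8 - η * I * ((m + 2) * β) - η * I * (a + q) := by nlinarith
    have e8 : 0 ≤ n * (ε * T - ε / 8 - η * I * ((m + 2) * β) - η * I * (a + q)) :=
      mul_nonneg hn e7
    have e9 : n * (-(η * I * (a + q))) ≤ n * ((T - W) * (a - q)) :=
      mul_le_mul_of_nonneg_left e3 hn
    nlinarith
  exact le_of_mul_le_mul_left h1 hTp

theorem prfPUR : PUR := by
  intro m ε B N₀ N₁ Q hε hB hN₀ hN₁ hQ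
  have hβ : 0 ≤ Real.log B := Real.log_nonneg hB
  have ha : 0 ≤ Real.log N₀ := Real.log_nonneg hN₀
  have hq : 0 ≤ Real.log Q := Real.log_nonneg hQ
  have hm : (0 : ℝ) ≤ m := Nat.cast_nonneg m
  obtain ⟨K, hKd⟩ : ∃ K : ℝ, K = (m + 2) * Real.log B + Real.log N₀ + Real.log Q := ⟨_, rfl⟩
  have hK0 : 0 ≤ K := by rw [hKd]; positivity
  refine ⟨min (1 / 2) (ε / (4 * (K + 1))), ε / 8, lt_min (by norm_num) (by positivity),
    by positivity, ?_⟩
  obtain ⟨η, hηd⟩ : ∃ η : ℝ, η = min (1 / 2) (ε / (4 * (K + 1))) := ⟨_, rfl⟩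
  rw [← hηd]
  have hη : 0 < η := by
    rw [hηd]
    exact lt_min (by norm_num) (by positivity)
  have hη2 : η ≤ 1 / 2 := by
    rw [hηd]
    exact min_le_left _ _
  have hηK : η * K ≤ ε / 4 := by
    have h1 : η ≤ ε / (4 * (K + 1)) := by
      rw [hηd]
      exact min_le_right _ _
    have h2 : η * (4 * (K + 1)) ≤ ε := by
      rwa [le_div_iff₀ (by positivity)] at h1
    nlinarith
  intro I T W hI hTI hWI hT hW n lam H hlam hH1 hHB h
  have hBp : 0 < B := by linarith
  have hN₀p : 0 < N₀ := by linarith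
  have hN₁p : 0 < N₁ := by linarith
  have hQp : 0 < Q := by linarith
  have hHp : 0 < H := by linarith
  have hI1 : (1 : ℝ) ≤ I := by exact_mod_cast hI
  have hTp : 0 < T := by
    have h1 : (0 : ℝ) < T := by nlinarith
    exact_mod_cast h1
  have hlp : 0 < lam := by
    rcases hlam.lt_or_eq with h1 | h1
    · exact h1
    · exfalso
      rw [← h1, zero_pow hTp.ne', zero_mul, zero_mul] at h
      exact absurd h (not_le.2 (Real.exp_pos _))
  have hcast : (((m + 2) * I - T - W : ℕ) : ℝ) = (m + 2) * I - T - W := by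
    have h1 : T ≤ (m + 2) * I := by nlinarith
    have h2 : W ≤ (m + 2) * I - T := by
      have : T + W ≤ (m + 2) * I := by nlinarith
      omega
    rw [Nat.cast_sub h2, Nat.cast_sub h1]
    push_cast
    ring
  have hlog : -(ε / 8 * n) ≤ T * Real.log lam + (((m + 2) * I - T - W : ℕ) : ℝ) * Real.log H +
      n * (W * Real.log N₀ + T * Real.log N₁ - W * Real.log Q) := by
    have h1 : Real.log (lam ^ T * H ^ ((m + 2) * I - T - W) * ((N₀ ^ W * N₁ ^ T) / Q ^ W) ^ n) =
        T * Real.log lam + (((m + 2) * I - T - W : ℕ) : ℝ) * Real.log H +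
          n * (W * Real.log N₀ + T * Real.log N₁ - W * Real.log Q) := by
      rw [Real.log_mul (by positivity) (by positivity),
        Real.log_mul (by positivity) (by positivity), Real.log_pow, Real.log_pow, Real.log_pow,
        Real.log_div (by positivity) (by positivity),
        Real.log_mul (by positivity) (by positivity), Real.log_pow, Real.log_pow, Real.log_pow]
    rw [← h1]
    exact (Real.le_log_iff_exp_le (by positivity)).2 h
  have hHl : Real.log H ≤ n * Real.log B := by
    have h1 := Real.log_le_log hHp hHB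
    rwa [Real.log_pow] at h1
  have hmain := PUR_core m ε η (Real.log B) (Real.log N₀) (Real.log N₁) (Real.log Q) I T W n
    (Real.log lam) (Real.log H) _ hε hη hη2 (by rw [← hKd]; exact hηK) hβ ha hq hI1
    (by exact_mod_cast hTI) (by exact_mod_cast hWI) hT hW (Nat.cast_nonneg n)
    (Real.log_nonneg hH1) hHl hcast hlog
  rw [← Real.log_le_log_iff (by positivity) hlp,
    Real.log_mul (by positivity) (by positivity), Real.log_mul (by positivity) (by positivity),
    Real.log_exp, Real.log_pow, Real.log_inv, Real.log_pow,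
    Real.log_div (by positivity) (by positivity), Real.log_mul (by positivity) (by positivity)]
  linarith

end Pool.Agent.Work.MP_f1a024_nt.RW
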