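import Pool.Agent.Work.MP_f1a024_nt.RW.Stmts

/-!
# Block RW: item SH (values of shifts)
-/

namespace Pool.Agent.Work.MP_f1a024_nt.RW

open Finset MvPolynomial Filter

theorem SH_one (hNB : NB) (hUB : UB) (hEB : EB) {ι : Type} [Fintype ι] (w : ι → Rg) (a δ : Ex)
    (h : a + up w ≤ δ) (n : ℕ) (x : ι → ℤ) (k : ι) :
    ∑ b ∈ Iic δ, sh w a (k, b) * pt n x (k, b) =
      ((nn a : ℚ) ^ n)⁻¹ * (ev n (w k) * (x k : ℚ)) := by
  have hsub : (w k).support.image (fun c => a + c) ⊆ Iic δ := by
    intro b hb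
    obtain ⟨c, hc, rfl⟩ := Finset.mem_image.mp hb
    rw [Finset.mem_Iic]
    have h1 : c ≤ up w := (hUB.2.2.1 (w k) c hc).trans (hUB.2.2.2.2.1 ι w k)
    exact (add_le_add le_rfl h1).trans h
  have hz : ∀ b ∈ Iic δ, b ∉ (w k).support.image (fun c => a + c) →
      sh w a (k, b) * pt n x (k, b) = 0 := by
    intro b _ hb
    have hs : sh w a (k, b) = 0 := by
      unfold sh
      by_cases hab : a ≤ b
      · rw [if_pos hab]
        by_contra hne
        refine hb (Finset.mem_image.mpr ⟨b - a, MvPolynomial.mem_support_iff.mpr hne, ?_⟩)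
        exact add_tsub_cancel_of_le hab
      · rw [if_neg hab]
    rw [hs, zero_mul]
  have hinj : Function.Injective (fun c : Ex => a + c) := fun c c' hcc => by
    have := congrArg (fun b => b - a) hcc
    simpa using this
  rw [← Finset.sum_subset hsub hz, Finset.sum_image (fun c _ c' _ hcc => hinj hcc),
    hEB.1, Finset.sum_mul, Finset.mul_sum]
  refine Finset.sum_congr rfl fun c _ => ?_
  unfold sh pt
  rw [if_pos (le_self_add : a ≤ a + c)]
  simp only [add_tsub_cancel_left]
  rw [hNB.2.1, Nat.cast_mul, mul_pow, div_eq_mul_inv, mul_inv]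
  ring

theorem prfSH (hNB : NB) (hUB : UB) (hEB : EB) : SH := by
  intro ι _ w a δ h n x
  unfold bx
  rw [Finset.sum_product, Finset.mul_sum]
  exact Finset.sum_congr rfl fun k _ => SH_one hNB hUB hEB w a δ h n x k

end Pool.Agent.Work.MP_f1a024_nt.RW
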