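import Pool.Agent.Work.MP_f1a024_nt.RW.Stmts
import Pool.Agent.Work.Tools.Subspace.ItemP2
import Pool.Agent.Work.Tools.Subspace.ItemU2

/-!
# Block RW, item STQ: the Subspace theorem over the rational numbers, elementary language
-/

namespace Pool.Agent.Work.MP_f1a024_nt.RW

open Finset Matrix NumberField
open Pool.Agent.Work.Tools.Subspace

theorem STQ_inf (S : Finset (FinitePlace ℚ)) (v : InfinitePlace ℚ) (x : ℚ) :
    nN S (Sum.inl v) x = |(x : ℝ)| := by
  rw [IP2.nN_inl]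
  have h : v.mult = 1 := by
    have : v.IsReal := by
      rw [Subsingleton.elim v Rat.infinitePlace]
      exact Rat.isReal_infinitePlace
    exact InfinitePlace.mult_isReal ⟨v, this⟩
  rw [h, pow_one, Rat.infinitePlace_apply, Rat.cast_abs]

theorem STQ_fin (S : Finset (FinitePlace ℚ)) (v : {v : FinitePlace ℚ // v ∈ S}) (x : ℚ) :
    nN S (Sum.inr v) x = v.val x :=
  IP2.nN_inr S v x

/-- products over the places -/
theorem STQ_prod (P : Nat.Primes ≃ FinitePlace ℚ) (PP : Finset Nat.Primes)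
    (F : NV ℚ (PP.map P.toEmbedding) → ℝ) (a : ℝ) (f : FinitePlace ℚ → ℝ)
    (h0 : ∀ v, F (Sum.inl v) = a) (h1 : ∀ v, F (Sum.inr v) = f v.val) :
    ∏ v, F v = a * ∏ p ∈ PP, f (P p) := by
  rw [Fintype.prod_sum_type, Fintype.prod_unique, h0]
  congr 1
  calc ∏ v : {v : FinitePlace ℚ // v ∈ PP.map P.toEmbedding}, F (Sum.inr v)
      = ∏ v : {v : FinitePlace ℚ // v ∈ PP.map P.toEmbedding}, f v.val :=
        Finset.prod_congr rfl fun v _ => h1 v
    _ = ∏ v ∈ PP.map P.toEmbedding, f v := Finset.prod_coe_sort _ f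
    _ = ∏ p ∈ PP, f (P p) := by
        rw [Finset.prod_map]
        rfl

theorem prfSTQ (hN1 : Pool.Agent.Work.Tools.Subspace.ClaimN1) (hPLC : PLC) : STQ := by
  intro n PP A₀ A σ hn hA₀ hA hσ
  obtain ⟨P, hP⟩ := hPLC
  have hmem : ∀ v : {v : FinitePlace ℚ // v ∈ PP.map P.toEmbedding}, P.symm v.val ∈ PP := by
    rintro ⟨v, hv⟩
    obtain ⟨p, hp, rfl⟩ := Finset.mem_map.mp hv
    show P.symm (P p) ∈ PP
    rw [Equiv.symm_apply_apply]
    exact hp
  obtain ⟨𝔸, h𝔸⟩ : ∃ 𝔸 : NV ℚ (PP.map P.toEmbedding) → Matrix (Fin n) (Fin n) ℚ,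
      𝔸 = Sum.elim (fun _ => A₀) (fun v => A (P.symm v.val)) := ⟨_, rfl⟩
  have h𝔸l : ∀ v, 𝔸 (Sum.inl v) = A₀ := fun v => by rw [h𝔸]; rfl
  have h𝔸r : ∀ v, 𝔸 (Sum.inr v) = A (P.symm v.val) := fun v => by rw [h𝔸]; rfl
  obtain ⟨T, hTf, hTp, hT⟩ := hN1 ℚ (PP.map P.toEmbedding) n 𝔸 σ hn (by
    rintro (v | v)
    · rw [h𝔸l]
      exact hA₀
    · rw [h𝔸r]
      exact hA _ (hmem v)) hσ
  have hrel : ∀ W : Submodule ℚ (Fin n → ℚ), ∃ b : Fin n → ℚ,
      W ≠ ⊤ → (b ≠ 0 ∧ ∀ y ∈ W, ∑ i, b i * y i = 0) := by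
    intro W
    by_cases h : W = ⊤
    · exact ⟨0, fun h' => absurd h h'⟩
    · obtain ⟨b, hb⟩ := IU2.exists_relation h
      exact ⟨b, fun _ => hb⟩
  choose b hb using hrel
  refine ⟨b '' T, hTf.image _, ?_, ?_⟩
  · rintro _ ⟨W, hW, rfl⟩
    exact (hb W (hTp W hW)).1
  · intro x G H g hx0 hint hG hg hGH hprod
    have hne : Nonempty (Fin n) := ⟨⟨0, by omega⟩⟩
    -- integrality
    have hO : ∀ i, x i ∈ nO (PP.map P.toEmbedding) := by
      intro i v hv
      have hq : P.symm v ∉ PP := by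
        intro h
        exact hv (Finset.mem_map.mpr ⟨P.symm v, h, P.apply_symm_apply v⟩)
      have h1 := hint (P.symm v) hq i
      have h2 := hP (P.symm v) (x i)
      rw [Equiv.apply_symm_apply] at h2
      rw [h2]
      exact_mod_cast h1
    -- the product
    have hL : ∏ v, ∏ i, nN (PP.map P.toEmbedding) v ((𝔸 v *ᵥ x) i) =
        (∏ i, |(((A₀.mulVec x) i : ℚ) : ℝ)|) *
          ∏ p ∈ PP, ∏ i, ((padicNorm p ((A p).mulVec x i) : ℚ) : ℝ) := by
      rw [STQ_prod P PP (fun v => ∏ i, nN (PP.map P.toEmbedding) v ((𝔸 v *ᵥ x) i))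
        (∏ i, |(((A₀.mulVec x) i : ℚ) : ℝ)|)
        (fun v => ∏ i, v ((A (P.symm v)).mulVec x i))]
      · congr 1
        refine Finset.prod_congr rfl fun p _ => Finset.prod_congr rfl fun i _ => ?_
        rw [Equiv.symm_apply_apply, hP]
      · intro v
        refine Finset.prod_congr rfl fun i _ => ?_
        rw [h𝔸l, STQ_inf]
      · intro v
        refine Finset.prod_congr rfl fun i _ => ?_
        rw [h𝔸r, STQ_fin]
    -- the sizes
    have hpos : ∀ v, 0 < nnrm (PP.map P.toEmbedding) v x := by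
      intro v
      obtain ⟨i, hi⟩ : ∃ i, x i ≠ 0 := by
        by_contra h
        push Not at h
        exact hx0 (funext h)
      exact lt_of_lt_of_le (IU2.nN_pos _ v hi) (IU2.nN_le_nnrm _ v x i)
    have hsize : ∏ v, nnrm (PP.map P.toEmbedding) v x ≤ H := by
      have h1 : ∏ v, nnrm (PP.map P.toEmbedding) v x ≤
          ∏ v : NV ℚ (PP.map P.toEmbedding), Sum.elim (fun _ => G) (fun v => g (P.symm v.val)) v := by
        refine Finset.prod_le_prod (fun v _ => (hpos v).le) fun v _ => ?_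
        obtain ⟨i, hi⟩ := IU2.exists_nN_eq_nnrm (PP.map P.toEmbedding) v x
        rw [hi]
        rcases v with v | v
        · rw [STQ_inf]
          exact hG i
        · rw [STQ_fin]
          have h2 := hP (P.symm v.val) (x i)
          rw [Equiv.apply_symm_apply] at h2
          rw [h2]
          exact hg _ (hmem v) i
      refine h1.trans (le_trans (le_of_eq ?_) hGH)
      rw [STQ_prod P PP (fun v => Sum.elim (fun _ => G) (fun v => g (P.symm v.val)) v) G
        (fun v => g (P.symm v)) (fun _ => rfl) (fun _ => rfl)]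
      congr 1
      refine Finset.prod_congr rfl fun p _ => ?_
      rw [Equiv.symm_apply_apply]
    have hPpos : 0 < ∏ v, nnrm (PP.map P.toEmbedding) v x := Finset.prod_pos fun v _ => hpos v
    obtain ⟨W, hW, hxW⟩ := hT x hO hx0 (by
      rw [hL]
      exact hprod.trans (Real.rpow_le_rpow_of_nonpos hPpos hsize (by linarith)))
    exact ⟨b W, ⟨W, hW, rfl⟩, (hb W (hTp W hW)).2 x hxW⟩

end Pool.Agent.Work.MP_f1a024_nt.RW
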