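import Pool.Agent.Work.MP_f1a024_nt.RW.Stmts

/-!
# Block RW, item StD: the Subspace theorem for the points `pt n (x n)`
-/

set_option autoImplicit false

namespace Pool.Agent.Work.MP_f1a024_nt.RW

open Finset MvPolynomial Filter

theorem StD_norm_nn (hNB : NB) (p : Nat.Primes) (b : Ex) :
    padicNorm p ((nn b : ℕ) : ℚ) = (((p : ℕ) : ℚ) ^ b p)⁻¹ := by
  haveI : Fact (p : ℕ).Prime := ⟨p.2⟩
  have hpos := hNB.2.2.1 b
  have hfac := hNB.2.2.2.2.2.2.2.1 b p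
  have h0 : ((nn b : ℕ) : ℚ) ≠ 0 := Nat.cast_ne_zero.2 hpos.ne'
  rw [padicNorm.eq_zpow_of_nonzero h0, padicValRat.of_nat, zpow_neg, zpow_natCast,
    ← hfac, Nat.factorization_def _ p.2]

theorem StD_norm_pt (hNB : NB) {ι : Type} (n : ℕ) (x : ι → ℤ) (p : Nat.Primes) (i : ι × Ex) :
    padicNorm p (pt n x i) ≤ ((p : ℕ) : ℚ) ^ (n * i.2 p) := by
  haveI : Fact (p : ℕ).Prime := ⟨p.2⟩
  unfold pt
  rw [padicNorm.div, IsAbsoluteValue.abv_pow (padicNorm p), StD_norm_nn hNB, inv_pow,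
    div_inv_eq_mul, ← pow_mul, mul_comm (i.2 p) n]
  have h1 : padicNorm p ((x i.1 : ℤ) : ℚ) ≤ 1 := padicNorm.of_int _
  have h2 : (0 : ℚ) ≤ ((p : ℕ) : ℚ) ^ (n * i.2 p) := by positivity
  calc padicNorm p ((x i.1 : ℤ) : ℚ) * ((p : ℕ) : ℚ) ^ (n * i.2 p) ≤
      1 * ((p : ℕ) : ℚ) ^ (n * i.2 p) := mul_le_mul_of_nonneg_right h1 h2
    _ = ((p : ℕ) : ℚ) ^ (n * i.2 p) := one_mul _

theorem StD_abs_pt (hNB : NB) {ι : Type} (n : ℕ) (x : ι → ℤ) (i : ι × Ex) :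
    |((pt n x i : ℚ) : ℝ)| ≤ |(x i.1 : ℝ)| := by
  have h0 : (1 : ℝ) ≤ (nn i.2 : ℝ) := by
    have := hNB.2.2.1 i.2
    exact_mod_cast this
  have h1 : (1 : ℝ) ≤ (nn i.2 : ℝ) ^ n := one_le_pow₀ h0
  unfold pt
  push_cast
  rw [abs_div, abs_of_pos (lt_of_lt_of_le one_pos h1)]
  exact div_le_self (abs_nonneg _) h1

theorem StD_prod (n : ℕ) (δ : Ex) :
    ∏ p ∈ δ.support, (((p : Nat.Primes) : ℕ) : ℝ) ^ (n * δ p) = (nn δ : ℝ) ^ n := by
  unfold nn Finsupp.prod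
  push_cast
  rw [← Finset.prod_pow]
  refine Finset.prod_congr rfl fun p _ => ?_
  rw [← pow_mul, mul_comm]

theorem StD_arith (T e : ℕ) (Λ H A N₀ N₁ P Q x y : ℝ) (n : ℕ) (hA : 0 < A) (hP : 0 < P)
    (hy : 0 ≤ y) (hΛ : 0 ≤ Λ) (hH : 0 ≤ H) (hN : 0 ≤ N₀ * N₁)
    (h1 : x ≤ Λ ^ T * H ^ e * ((A * N₀ * N₁) / P) ^ n) (h2 : y ≤ (P / (A * Q)) ^ n) :
    x * y ≤ Λ ^ T * H ^ e * ((N₀ * N₁) / Q) ^ n := by
  have h3 : 0 ≤ Λ ^ T * H ^ e * ((A * N₀ * N₁) / P) ^ n := by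
    have : 0 ≤ A * N₀ * N₁ := by
      rw [mul_assoc]
      exact mul_nonneg hA.le hN
    positivity
  calc x * y ≤ (Λ ^ T * H ^ e * ((A * N₀ * N₁) / P) ^ n) * (P / (A * Q)) ^ n :=
        mul_le_mul h1 h2 hy h3
    _ = Λ ^ T * H ^ e * (((A * N₀ * N₁) / P) * (P / (A * Q))) ^ n := by
        rw [mul_pow]
        ring
    _ = Λ ^ T * H ^ e * ((N₀ * N₁) / Q) ^ n := by
        congr 2
        rcases eq_or_ne Q 0 with hQ | hQ
        · rw [hQ]
          simp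
        · field_simp

theorem StD_exp (D ε : ℝ) (n : ℕ) (hD : 1 < D) :
    (D ^ n) ^ (-(ε / Real.log D)) = Real.exp (-(ε * n)) := by
  have hlog : 0 < Real.log D := Real.log_pos hD
  rw [Real.rpow_def_of_pos (by positivity), Real.log_pow]
  congr 1
  field_simp

theorem prfStD (hNB : NB) (hUB : UB) (hSH : SH) (hEE : EE) (hTX : TX) (hTI : TI) (hTP : TP)
    (hSub : SubST) (hEXC : EXC) (hPRI : PRI) (hPRP : PRP) : StD := by
  intro m 𝒰 x H B w l κ₀ κ₁ δ ε hH hrel hsat hκ₀ hl0 hκ₁ hw hl hδ hε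
  have hw0 : w 0 ≠ 0 := by
    intro h
    have h1 := hκ₀.1
    rw [h] at h1
    simp at h1
  choose k α hα1 hα2 hα3 using fun p : Nat.Primes => hTX (Fin (m + 2)) w p 0 hw0
  have hsup : ∀ (k : Fin (m + 2)) (κ : Ex), κ ∈ (w k).support → δ - up w + κ ≤ δ := by
    intro k κ hκ
    have h1 : κ ≤ up w := (hUB.2.2.1 (w k) κ hκ).trans (hUB.2.2.2.2.1 (Fin (m + 2)) w k)
    calc δ - up w + κ ≤ δ - up w + up w := add_le_add le_rfl h1
      _ = δ := tsub_add_cancel_of_le hw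
  obtain ⟨B', hB'⟩ : ∃ B' : ℝ, B' = max |B| 1 := ⟨_, rfl⟩
  have hB1 : 1 ≤ B' := by
    rw [hB']
    exact le_max_right _ _
  have hBB : |B| ≤ B' := by
    rw [hB']
    exact le_max_left _ _
  have hnn2 : 2 ≤ nn δ := by
    have h1 := hNB.2.2.1 δ
    have h2 : nn δ ≠ 1 := fun h => hδ (hNB.2.2.2.1 (h.trans hNB.1.symm))
    omega
  have hnn2' : (2 : ℝ) ≤ nn δ := by exact_mod_cast hnn2
  obtain ⟨D, hD⟩ : ∃ D : ℝ, D = B' * nn δ := ⟨_, rfl⟩
  have hD2 : 2 ≤ D := by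
    rw [hD]
    nlinarith
  have hlog : 0 < Real.log D := Real.log_pos (by linarith)
  have hcardbx : (bx (Fin (m + 2)) δ).card = (m + 2) * (Iic δ).card := by
    unfold bx
    rw [Finset.card_product, Finset.card_univ, Fintype.card_fin]
  have hcard : (Iic (δ - up w)).card + 2 ≤ (bx (Fin (m + 2)) δ).card := by
    rw [hcardbx]
    have h1 : (Iic (δ - up w)).card ≤ (Iic δ).card :=
      Finset.card_le_card (Finset.Iic_subset_Iic.2 tsub_le_self)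
    have h2 : 2 ≤ (Iic δ).card := by
      have h3 : ({0, δ} : Finset Ex) ⊆ Iic δ := by
        intro a ha
        rw [Finset.mem_insert, Finset.mem_singleton] at ha
        rw [Finset.mem_Iic]
        rcases ha with rfl | rfl
        · exact zero_le
        · exact le_rfl
      have h4 := Finset.card_le_card h3
      rwa [Finset.card_pair hδ.symm] at h4
    nlinarith
  obtain ⟨𝒢, hfin, hG1, hG2⟩ := hSub (Fin (m + 2) × Ex) Ex (bx (Fin (m + 2)) δ)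
    (Iic (δ - up w)) (sh w) δ.support (ee 0 κ₀ (δ - up w))
    (fun p => ee (k p) (α p) (δ - up w)) (lf l 1 κ₁ (δ - up l))
    (Finsupp.support_nonempty_iff.2 hδ) hcard
    ((hEE (Fin (m + 2)) 0 κ₀ (δ - up w) δ).2.1 (hsup 0 κ₀ hκ₀.1))
    ((hEE (Fin (m + 2)) 0 κ₀ (δ - up w) δ).1)
    (fun p _ => ⟨(hEE (Fin (m + 2)) (k p) (α p) (δ - up w) δ).2.1 (hsup (k p) (α p) (hα1 p)),
      (hEE (Fin (m + 2)) (k p) (α p) (δ - up w) δ).1⟩)
    (fun y h1 h2 => hTI (Fin (m + 2)) w l 0 1 κ₀ κ₁ δ Fin.zero_ne_one hκ₀ hl0 hκ₁ hw hl y h1 h2)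
    (fun p _ y h1 h2 => hTP (Fin (m + 2)) w p (k p) (α p) δ (hα1 p) (hα2 p) (hα3 p) hw y
      (fun i hi hy => by
        by_contra hcon
        exact hy (h2 i (Finset.mem_sdiff.2 ⟨hi, hcon⟩))) h1)
    (ε / Real.log D) (div_pos hε hlog)
  have hev1 : ∀ᶠ n : ℕ in (𝒰 : Filter ℕ), ∀ c ∈ 𝒢,
      ¬ (∑ i ∈ bx (Fin (m + 2)) δ, c i * pt n (x n) i = 0) := by
    rw [Filter.eventually_all_finite hfin]
    intro c hc
    refine Ultrafilter.eventually_not.2 ?_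
    intro h
    obtain ⟨y, hy1, hy2⟩ := hG1 c hc
    exact hy2 (hEXC m 𝒰 x w δ hw0 hsat hw c h y hy1)
  have hev2 : ∀ᶠ n : ℕ in (𝒰 : Filter ℕ), ∃ i, x n i ≠ 0 := by
    by_contra hcon
    have h0 := Ultrafilter.eventually_not.2 hcon
    have h1 : ∀ᶠ n : ℕ in (𝒰 : Filter ℕ), ∀ i, x n i = 0 := by
      filter_upwards [h0] with n hn
      intro i
      by_contra h
      exact hn ⟨i, h⟩
    obtain ⟨t, ht⟩ := hsat (fun k => if k = 1 then 1 else 0) (by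
      unfold Rel
      filter_upwards [h1] with n hn
      refine Finset.sum_eq_zero fun k _ => ?_
      rw [hn k]
      simp)
    have h2 := ht 0
    have h3 := ht 1
    rw [if_neg Fin.zero_ne_one] at h2
    rw [if_pos rfl] at h3
    have h4 : t = 0 := by
      rcases mul_eq_zero.1 h2.symm with h | h
      · exact h
      · exact absurd h hw0
    rw [h4, zero_mul] at h3
    exact one_ne_zero h3
  filter_upwards [hH, hrel, hev1, hev2] with n hn1 hn2 hn3 hn4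
  obtain ⟨hH1, hHB, hxH⟩ := hn1
  by_contra hcon
  rw [not_le] at hcon
  have hprod := StD_arith (Iic (δ - up l)).card
    ((m + 2) * (Iic δ).card - (Iic (δ - up l)).card - (Iic (δ - up w)).card)
    |((∑ k, ev n (l k) * (x n k : ℚ) : ℚ) : ℝ)| (H n) (∏ a ∈ Iic (δ - up w), (nn a : ℝ))
    ((nn κ₀ : ℝ) ^ (Iic (δ - up w)).card) ((nn κ₁ : ℝ) ^ (Iic (δ - up l)).card)
    (∏ i ∈ bx (Fin (m + 2)) δ, (nn i.2 : ℝ)) ((nn (up w) : ℝ) ^ (Iic (δ - up w)).card)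
    (∏ i ∈ bx (Fin (m + 2)) δ \ ee 0 κ₀ (δ - up w), |((∑ j ∈ bx (Fin (m + 2)) δ,
        lf l 1 κ₁ (δ - up l) i j * pt n (x n) j : ℚ) : ℝ)|)
    (∏ p ∈ δ.support, ∏ i ∈ bx (Fin (m + 2)) δ \ ee (k p) (α p) (δ - up w),
        ((padicNorm p (pt n (x n) i) : ℚ) : ℝ)) n
    (Finset.prod_pos fun a _ => by exact_mod_cast hNB.2.2.1 a)
    (Finset.prod_pos fun a _ => by exact_mod_cast hNB.2.2.1 a.2)
    (Finset.prod_nonneg fun p _ => Finset.prod_nonneg fun i _ => by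
      exact_mod_cast padicNorm.nonneg _)
    (abs_nonneg _) (by linarith) (by positivity)
    (hPRI m n (x n) (H n) w l κ₀ κ₁ δ hH1 hxH hκ₀.1 hκ₁.1 hw hl)
    (hPRP m n (x n) w δ k α (fun p => ⟨hα1 p, hα2 p⟩) hw)
  have hHD : H n * ∏ p ∈ δ.support, (((p : Nat.Primes) : ℕ) : ℝ) ^ (n * δ p) ≤ D ^ n := by
    rw [StD_prod, hD, mul_pow]
    refine mul_le_mul_of_nonneg_right ?_ (by positivity)
    calc H n ≤ B ^ n := hHB
      _ ≤ |B ^ n| := le_abs_self _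
      _ = |B| ^ n := abs_pow _ _
      _ ≤ B' ^ n := pow_le_pow_left₀ (abs_nonneg _) hBB n
  obtain ⟨c, hc, hc0⟩ := hG2 (pt n (x n)) (H n) (D ^ n)
    (fun p => (((p : Nat.Primes) : ℕ) : ℝ) ^ (n * δ p))
    (by
      intro a ha
      rw [Finset.mem_Iic] at ha
      rw [hSH (Fin (m + 2)) w a δ ((le_tsub_iff_right hw).1 ha) n (x n), hn2, mul_zero])
    (by
      obtain ⟨i, hi⟩ := hn4
      refine ⟨(i, 0), ?_, ?_⟩
      · unfold bx
        rw [Finset.mem_product]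
        exact ⟨Finset.mem_univ _, Finset.mem_Iic.2 (zero_le)⟩
      · unfold pt
        show (x n i : ℚ) / (nn 0 : ℚ) ^ n ≠ 0
        rw [hNB.1, Nat.cast_one, one_pow, div_one]
        exact_mod_cast hi)
    (by
      intro q hq i hi
      have h1 := StD_norm_pt hNB n (x n) q i
      have h2 : i.2 q = 0 := by
        unfold bx at hi
        rw [Finset.mem_product, Finset.mem_Iic] at hi
        have h3 := hi.2 q
        have h4 : δ q = 0 := Finsupp.notMem_support_iff.1 hq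
        omega
      rw [h2, mul_zero, pow_zero] at h1
      exact h1)
    (fun i _ => (StD_abs_pt hNB n (x n) i).trans (hxH i.1))
    (by
      intro p _ i hi
      have h1 := StD_norm_pt hNB n (x n) p i
      have h1' : ((padicNorm p (pt n (x n) i) : ℚ) : ℝ) ≤ ((p : ℕ) : ℝ) ^ (n * i.2 p) := by
        exact_mod_cast h1
      refine h1'.trans ?_
      have h2 : i.2 p ≤ δ p := by
        unfold bx at hi
        rw [Finset.mem_product, Finset.mem_Iic] at hi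
        exact hi.2 p
      have h3 : (1 : ℝ) ≤ ((p : ℕ) : ℝ) := by exact_mod_cast p.2.one_le
      exact pow_le_pow_right₀ h3 (Nat.mul_le_mul_left n h2))
    hHD
    (by
      rw [StD_exp D ε n (by linarith)]
      exact hprod.trans hcon.le)
  exact hn3 c hc hc0

end Pool.Agent.Work.MP_f1a024_nt.RW
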