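import Pool.Agent.Work.MP_f1a024_nt.RW.Stmts

/-! Item SubST of the block RW (helper29): the Subspace theorem on a subspace. -/

set_option autoImplicit false

namespace Pool.Agent.Work.MP_f1a024_nt.RW

open Finset

section

variable {ι α : Type}

/-- The subspace of the functions on `𝔹` cut out by the functionals `φ a`, `a ∈ 𝒜`. -/
noncomputable def SubST_X (𝔹 : Finset ι) (𝒜 : Finset α) (φ : α → ι → ℚ) :
    Submodule ℚ (𝔹 → ℚ) :=
  LinearMap.ker (Matrix.of fun (a : 𝒜) (i : 𝔹) => φ a i).mulVecLin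

theorem SubST_mem (𝔹 : Finset ι) (𝒜 : Finset α) (φ : α → ι → ℚ) (y : 𝔹 → ℚ) :
    y ∈ SubST_X 𝔹 𝒜 φ ↔ ∀ a ∈ 𝒜, ∑ i : 𝔹, φ a i * y i = 0 := by
  unfold SubST_X
  rw [LinearMap.mem_ker, Matrix.mulVecLin_apply]
  constructor
  · intro h a ha
    exact congrFun h ⟨a, ha⟩
  · intro h
    funext a
    exact h a a.2

theorem SubST_finrank (𝔹 : Finset ι) (𝒜 : Finset α) (φ : α → ι → ℚ) :
    𝔹.card - 𝒜.card ≤ Module.finrank ℚ (SubST_X 𝔹 𝒜 φ) := by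
  have h1 := LinearMap.finrank_range_add_finrank_ker
    (Matrix.of fun (a : 𝒜) (i : 𝔹) => φ a i).mulVecLin
  have h2 := Submodule.finrank_le
    (LinearMap.range (Matrix.of fun (a : 𝒜) (i : 𝔹) => φ a i).mulVecLin)
  rw [Module.finrank_fintype_fun_eq_card, Fintype.card_coe] at h1 h2
  unfold SubST_X
  omega

/-- The forms with the rows `e k` of `M`, on the subspace. -/
noncomputable def SubST_T (𝔹 : Finset ι) (𝒜 : Finset α) (φ : α → ι → ℚ) (n : ℕ)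
    (e : Fin n → ι) (M : ι → ι → ℚ) : SubST_X 𝔹 𝒜 φ →ₗ[ℚ] (Fin n → ℚ) :=
  (Matrix.of fun (k : Fin n) (j : 𝔹) => M (e k) j).mulVecLin ∘ₗ (SubST_X 𝔹 𝒜 φ).subtype

theorem SubST_T_apply (𝔹 : Finset ι) (𝒜 : Finset α) (φ : α → ι → ℚ) (n : ℕ)
    (e : Fin n → ι) (M : ι → ι → ℚ) (y : SubST_X 𝔹 𝒜 φ) (k : Fin n) :
    SubST_T 𝔹 𝒜 φ n e M y k = ∑ j : 𝔹, M (e k) j * (y : 𝔹 → ℚ) j := rfl

open Classical in
/-- extension by zero -/
noncomputable def SubST_ext (𝔹 : Finset ι) (y : 𝔹 → ℚ) (i : ι) : ℚ :=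
  if h : i ∈ 𝔹 then y ⟨i, h⟩ else 0

theorem SubST_ext_apply (𝔹 : Finset ι) (y : 𝔹 → ℚ) (i : 𝔹) : SubST_ext 𝔹 y i = y i := by
  unfold SubST_ext
  rw [dif_pos i.2]

theorem SubST_ext_sum (𝔹 : Finset ι) (y : 𝔹 → ℚ) (f : ι → ℚ) :
    ∑ i ∈ 𝔹, f i * SubST_ext 𝔹 y i = ∑ i : 𝔹, f i * y i := by
  rw [← Finset.sum_coe_sort]
  exact Finset.sum_congr rfl fun i _ => by rw [SubST_ext_apply]

theorem SubST_bij (𝔹 : Finset ι) (𝒜 : Finset α) (φ : α → ι → ℚ) (n : ℕ)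
    (hn : n = 𝔹.card - 𝒜.card) (C : Finset ι) (e : Fin n → ι) (he : ∀ i ∈ C, ∃ k, e k = i)
    (M : ι → ι → ℚ)
    (h : ∀ y : ι → ℚ, (∀ a ∈ 𝒜, ∑ i ∈ 𝔹, φ a i * y i = 0) →
      (∀ i ∈ C, ∑ j ∈ 𝔹, M i j * y j = 0) → ∀ i ∈ 𝔹, y i = 0) :
    Function.Bijective (SubST_T 𝔹 𝒜 φ n e M) := by
  have hinj : Function.Injective (SubST_T 𝔹 𝒜 φ n e M) := by
    rw [← LinearMap.ker_eq_bot, LinearMap.ker_eq_bot']
    intro y hy
    have h1 := h (SubST_ext 𝔹 y) (fun a ha => by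
      rw [SubST_ext_sum]
      exact (SubST_mem 𝔹 𝒜 φ y).1 y.2 a ha) (fun i hi => by
      obtain ⟨k, hk⟩ := he i hi
      rw [SubST_ext_sum, ← hk]
      exact congrFun hy k)
    ext i
    have h2 := h1 i i.2
    rw [SubST_ext_apply] at h2
    exact h2
  have h1 : Module.finrank ℚ (SubST_X 𝔹 𝒜 φ) ≤ n := by
    have := LinearMap.finrank_le_finrank_of_injective hinj
    rwa [Module.finrank_fin_fun] at this
  have h2 : Module.finrank ℚ (SubST_X 𝔹 𝒜 φ) = Module.finrank ℚ (Fin n → ℚ) := by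
    rw [Module.finrank_fin_fun]
    have := SubST_finrank 𝔹 𝒜 φ
    omega
  exact ⟨hinj, (LinearMap.injective_iff_surjective_of_finrank_eq_finrank h2).1 hinj⟩

theorem SubST_det {n : ℕ} (f : (Fin n → ℚ) →ₗ[ℚ] (Fin n → ℚ)) (hf : Function.Injective f) :
    (LinearMap.toMatrix' f).det ≠ 0 := by
  have h1 : Function.Injective (LinearMap.toMatrix' f).mulVec := by
    intro a b h
    rw [LinearMap.toMatrix'_mulVec, LinearMap.toMatrix'_mulVec] at h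
    exact hf h
  exact ((Matrix.isUnit_iff_isUnit_det _).1 (Matrix.mulVec_injective_iff_isUnit.1 h1)).ne_zero

theorem SubST_enum [DecidableEq ι] (C : Finset ι) (n : ℕ) (h : C.card = n) :
    ∃ e : Fin n → ι, Function.Injective e ∧ univ.image e = C := by
  refine ⟨fun k => ((C.equivFinOfCardEq h).symm k : ι),
    Subtype.val_injective.comp (Equiv.injective _), ?_⟩
  ext i
  simp only [mem_image, mem_univ, true_and]
  constructor
  · rintro ⟨k, rfl⟩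
    exact Subtype.property _
  · intro hi
    exact ⟨C.equivFinOfCardEq h ⟨i, hi⟩, by simp⟩

theorem SubST_prod [DecidableEq ι] (C : Finset ι) (n : ℕ) (e : Fin n → ι)
    (he : Function.Injective e) (heC : univ.image e = C) (f : ι → ℝ) :
    ∏ i ∈ C, f i = ∏ k, f (e k) := by
  rw [← heC, Finset.prod_image fun a _ b _ h => he h]

open Classical in
/-- the functional on `ι` which is `c` at the points `e k` -/
noncomputable def SubST_c {n : ℕ} (e : Fin n → ι) (c : Fin n → ℚ) (i : ι) : ℚ :=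
  ∑ k, if e k = i then c k else 0

theorem SubST_c_sum {n : ℕ} (𝔹 : Finset ι) (e : Fin n → ι) (he : ∀ k, e k ∈ 𝔹)
    (c : Fin n → ℚ) (y : ι → ℚ) :
    ∑ i ∈ 𝔹, SubST_c e c i * y i = ∑ k, c k * y (e k) := by
  classical
  unfold SubST_c
  simp only [Finset.sum_mul, ite_mul, zero_mul]
  rw [Finset.sum_comm]
  refine Finset.sum_congr rfl fun k _ => ?_
  rw [Finset.sum_ite_eq, if_pos (he k)]

end

theorem prfSubST (hSTQ : STQ) : SubST := by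
  intro ι α _ 𝔹 𝒜 φ PP E₀ E L hPP hcard hE₀ hE₀c hE hinj₀ hinjp σ hσ
  obtain ⟨p₀, hp₀⟩ := hPP
  obtain ⟨n, hn⟩ : ∃ n, n = 𝔹.card - 𝒜.card := ⟨_, rfl⟩
  have hn2 : 2 ≤ n := by omega
  have hC₀ : (𝔹 \ E₀).card = n := by
    rw [Finset.card_sdiff_of_subset hE₀, hE₀c, hn]
  have hCp : ∀ p ∈ PP, (𝔹 \ E p).card = n := by
    intro p hp
    rw [Finset.card_sdiff_of_subset (hE p hp).1, (hE p hp).2, hn]
  obtain ⟨e₀, he₀, he₀C⟩ := SubST_enum (𝔹 \ E₀) n hC₀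
  have hex : ∀ p : Nat.Primes, ∃ e : Fin n → ι, p ∈ PP →
      Function.Injective e ∧ univ.image e = 𝔹 \ E p := by
    intro p
    by_cases hp : p ∈ PP
    · obtain ⟨e, h1, h2⟩ := SubST_enum (𝔹 \ E p) n (hCp p hp)
      exact ⟨e, fun _ => ⟨h1, h2⟩⟩
    · exact ⟨e₀, fun h => absurd h hp⟩
  choose e he using hex
  set I : ι → ι → ℚ := fun i j => if i = j then 1 else 0 with hI
  have hIs : ∀ (y : ι → ℚ) (i : ι), i ∈ 𝔹 → ∑ j ∈ 𝔹, I i j * y j = y i := by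
    intro y i hi
    simp only [hI, ite_mul, one_mul, zero_mul]
    rw [Finset.sum_ite_eq, if_pos hi]
  have hb₀ : Function.Bijective (SubST_T 𝔹 𝒜 φ n e₀ L) := by
    refine SubST_bij 𝔹 𝒜 φ n hn (𝔹 \ E₀) e₀ ?_ L hinj₀
    intro i hi
    rw [← he₀C] at hi
    obtain ⟨k, -, hk⟩ := Finset.mem_image.1 hi
    exact ⟨k, hk⟩
  have hbp : ∀ p ∈ PP, Function.Bijective (SubST_T 𝔹 𝒜 φ n (e p) I) := by
    intro p hp
    refine SubST_bij 𝔹 𝒜 φ n hn (𝔹 \ E p) (e p) ?_ I ?_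
    · intro i hi
      rw [← (he p hp).2] at hi
      obtain ⟨k, -, hk⟩ := Finset.mem_image.1 hi
      exact ⟨k, hk⟩
    · intro y hy1 hy2
      refine hinjp p hp y hy1 fun i hi => ?_
      have := hy2 i hi
      rwa [hIs y i (Finset.mem_sdiff.1 hi).1] at this
  have hep : ∀ p ∈ PP, ∀ k, e p k ∈ 𝔹 := by
    intro p hp k
    have : e p k ∈ 𝔹 \ E p := by
      rw [← (he p hp).2]
      exact Finset.mem_image_of_mem _ (mem_univ k)
    exact (Finset.mem_sdiff.1 this).1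
  let Ψ : (Fin n → ℚ) ≃ₗ[ℚ] SubST_X 𝔹 𝒜 φ :=
    (LinearEquiv.ofBijective (SubST_T 𝔹 𝒜 φ n (e p₀) I) (hbp p₀ hp₀)).symm
  have hΨ : ∀ z, SubST_T 𝔹 𝒜 φ n (e p₀) I (Ψ z) = z := fun z =>
    (LinearEquiv.ofBijective (SubST_T 𝔹 𝒜 φ n (e p₀) I) (hbp p₀ hp₀)).apply_symm_apply z
  have hΨ' : ∀ y, Ψ (SubST_T 𝔹 𝒜 φ n (e p₀) I y) = y := fun y =>
    (LinearEquiv.ofBijective (SubST_T 𝔹 𝒜 φ n (e p₀) I) (hbp p₀ hp₀)).symm_apply_apply y
  obtain ⟨𝒢, hfin, hne, hG⟩ := hSTQ n PP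
    (LinearMap.toMatrix' (SubST_T 𝔹 𝒜 φ n e₀ L ∘ₗ Ψ.toLinearMap))
    (fun p => LinearMap.toMatrix' (SubST_T 𝔹 𝒜 φ n (e p) I ∘ₗ Ψ.toLinearMap)) σ hn2
    (SubST_det _ (by
      rw [LinearMap.coe_comp]
      exact hb₀.1.comp Ψ.injective))
    (fun p hp => SubST_det _ (by
      rw [LinearMap.coe_comp]
      exact (hbp p hp).1.comp Ψ.injective)) hσ
  refine ⟨SubST_c (e p₀) '' 𝒢, hfin.image _, ?_, ?_⟩
  · rintro _ ⟨c, hc, rfl⟩
    obtain ⟨k₀, hk₀⟩ : ∃ k, c k ≠ 0 := by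
      by_contra hcon
      push Not at hcon
      exact hne c hc (funext hcon)
    obtain ⟨z, hz⟩ : ∃ z : Fin n → ℚ, z = fun k => if k = k₀ then 1 else 0 := ⟨_, rfl⟩
    refine ⟨SubST_ext 𝔹 (Ψ z : 𝔹 → ℚ), fun a ha => ?_, ?_⟩
    · rw [SubST_ext_sum]
      exact (SubST_mem 𝔹 𝒜 φ _).1 (Ψ z).2 a ha
    · rw [SubST_c_sum 𝔹 (e p₀) (hep p₀ hp₀)]
      have h1 : ∀ k, SubST_ext 𝔹 (Ψ z : 𝔹 → ℚ) (e p₀ k) = z k := by
        intro k
        have h2 := congrFun (hΨ z) k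
        rw [SubST_T_apply, ← SubST_ext_sum, hIs _ _ (hep p₀ hp₀ k)] at h2
        exact h2
      have h3 : ∑ k, c k * SubST_ext 𝔹 (Ψ z : 𝔹 → ℚ) (e p₀ k) = c k₀ := by
        rw [Finset.sum_congr rfl fun k _ => by rw [h1 k]]
        simp [hz]
      rw [h3]
      exact hk₀
  · intro x G H g hx1 hx2 hx3 hx4 hx5 hx6 hx7
    let X : SubST_X 𝔹 𝒜 φ := ⟨fun i => x i, (SubST_mem 𝔹 𝒜 φ _).2 fun a ha => by
      rw [Finset.sum_coe_sort 𝔹 (fun i => φ a i * x i)]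
      exact hx1 a ha⟩
    have hTx : ∀ (e' : Fin n → ι) (M : ι → ι → ℚ) (k : Fin n),
        SubST_T 𝔹 𝒜 φ n e' M X k = ∑ j ∈ 𝔹, M (e' k) j * x j := by
      intro e' M k
      rw [SubST_T_apply]
      exact Finset.sum_coe_sort 𝔹 (fun j => M (e' k) j * x j)
    obtain ⟨z, hz⟩ : ∃ z : Fin n → ℚ, z = SubST_T 𝔹 𝒜 φ n (e p₀) I X := ⟨_, rfl⟩
    have hzk : ∀ k, z k = x (e p₀ k) := by
      intro k
      rw [hz, hTx, hIs _ _ (hep p₀ hp₀ k)]
    have hΨz : Ψ z = X := by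
      rw [hz]
      exact hΨ' X
    have hz0 : z ≠ 0 := by
      intro h0
      obtain ⟨i, hi, hxi⟩ := hx2
      apply hxi
      have h1 : X = 0 := by
        rw [← hΨz, h0, map_zero]
      have h2 := congrArg (fun Y : SubST_X 𝔹 𝒜 φ => (Y : 𝔹 → ℚ) ⟨i, hi⟩) h1
      exact h2
    obtain ⟨c, hc, hc0⟩ := hG z G H g hz0
      (fun q hq i => by
        rw [hzk i]
        exact hx3 q hq _ (hep p₀ hp₀ i))
      (fun i => by
        rw [hzk i]
        exact hx4 _ (hep p₀ hp₀ i))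
      (fun p hp i => by
        rw [hzk i]
        exact hx5 p hp _ (hep p₀ hp₀ i)) hx6 (by
        refine le_trans (le_of_eq ?_) hx7
        congr 1
        · rw [SubST_prod (𝔹 \ E₀) n e₀ he₀ he₀C]
          refine Finset.prod_congr rfl fun k _ => ?_
          rw [LinearMap.toMatrix'_mulVec, LinearMap.comp_apply]
          have : Ψ.toLinearMap z = X := hΨz
          rw [this, hTx]
        · refine Finset.prod_congr rfl fun p hp => ?_
          rw [SubST_prod (𝔹 \ E p) n (e p) (he p hp).1 (he p hp).2]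
          refine Finset.prod_congr rfl fun k _ => ?_
          rw [LinearMap.toMatrix'_mulVec, LinearMap.comp_apply]
          have : Ψ.toLinearMap z = X := hΨz
          rw [this, hTx, hIs _ _ (hep p hp k)])
    refine ⟨SubST_c (e p₀) c, ⟨c, hc, rfl⟩, ?_⟩
    rw [SubST_c_sum 𝔹 (e p₀) (hep p₀ hp₀)]
    rw [← hc0]
    exact Finset.sum_congr rfl fun k _ => by rw [hzk k]

end Pool.Agent.Work.MP_f1a024_nt.RW
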