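import Pool.Agent.Work.MP_f1a024_nt.RW.Stmts

/-!
# Item TI of block RW: independence at the infinite place
-/

set_option autoImplicit false

namespace Pool.Agent.Work.MP_f1a024_nt.RW

open Finset MvPolynomial Filter

/-- membership in the box -/
theorem TI_mem_bx {ι : Type} [Fintype ι] {δ : Ex} {i : ι × Ex} : i ∈ bx ι δ ↔ i.2 ≤ δ := by
  unfold bx
  rw [Finset.mem_product]
  simp

/-- the first coordinate of an excluded coordinate -/
theorem TI_fst_ee {ι : Type} [DecidableEq ι] {k : ι} {κ δ' : Ex} {i : ι × Ex}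
    (h : i ∈ ee k κ δ') : i.1 = k := by
  unfold ee at h
  rw [Finset.mem_image] at h
  obtain ⟨a, _, rfl⟩ := h
  rfl

/-- the forms at the coordinates which are not excluded -/
theorem TI_lf_ne {ι : Type} [Fintype ι] [DecidableEq ι] {l : ι → Rg} {k : ι} {κ δ' δ : Ex}
    {i : ι × Ex} (hi : i ∈ bx ι δ) (h : i ∉ ee k κ δ') (y : ι × Ex → ℚ) :
    ∑ j ∈ bx ι δ, lf l k κ δ' i j * y j = y i := by
  have h1 : ∀ j ∈ bx ι δ, lf l k κ δ' i j * y j = if i = j then y j else 0 := by
    intro j _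
    unfold lf
    rw [if_neg h]
    by_cases hij : i = j
    · rw [if_pos hij, if_pos hij, one_mul]
    · rw [if_neg hij, if_neg hij, zero_mul]
  rw [Finset.sum_congr rfl h1, Finset.sum_ite_eq, if_pos hi]

theorem prfTI (hUB : UB) (hTW : TW) : TI := by
  intro ι _ _ w l k₀ k₁ κ₀ κ₁ δ hk hw hl0 hl1 hwδ hlδ y hy1 hy2
  obtain ⟨_, _, hU3, _, hU5, _, _⟩ := hUB
  -- the shifts of `l`
  have hA : ∀ a ∈ Iic (δ - up l), ∑ i ∈ bx ι δ, sh l a i * y i = 0 := by
    intro a ha
    have ha' : a ≤ δ - up l := Finset.mem_Iic.1 ha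
    have hκ : κ₁ ≤ up l := le_trans (hU3 (l k₁) κ₁ hl1.1) (hU5 ι l k₁)
    have hle : a + κ₁ ≤ δ := by
      calc a + κ₁ ≤ (δ - up l) + up l := add_le_add ha' hκ
        _ = δ := tsub_add_cancel_of_le hlδ
    have hbx : ((k₁, a + κ₁) : ι × Ex) ∈ bx ι δ := TI_mem_bx.2 hle
    have hn0 : ((k₁, a + κ₁) : ι × Ex) ∉ ee k₀ κ₀ (δ - up w) := by
      intro h
      exact hk (TI_fst_ee h).symm
    have h1 : ((k₁, a + κ₁) : ι × Ex) ∈ ee k₁ κ₁ (δ - up l) := by
      unfold ee
      rw [Finset.mem_image]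
      exact ⟨a, ha, rfl⟩
    have h2 := hy2 (k₁, a + κ₁) (Finset.mem_sdiff.2 ⟨hbx, hn0⟩)
    rw [← h2]
    refine Finset.sum_congr rfl fun j _ => ?_
    congr 1
    unfold lf
    rw [if_pos h1]
    show sh l a j = sh l (a + κ₁ - κ₁) j
    rw [add_tsub_cancel_right]
  -- `y` vanishes at the coordinates with first entry different from `k₀`
  have hC : ∀ i ∈ bx ι δ, i.1 ≠ k₀ → y i = 0 := by
    have hC' := hTW ι l k₁ κ₁ δ hl1 hlδ (fun i => if i.1 = k₀ then 0 else y i) ?_ ?_
    · intro i hi hne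
      have h3 := hC' i hi
      simp only [if_neg hne] at h3
      exact h3
    · intro i hi hne
      by_cases h3 : i.1 = k₀
      · exact absurd (if_pos h3) hne
      · simp only [if_neg h3] at hne
        by_contra h4
        have hn0 : i ∉ ee k₀ κ₀ (δ - up w) := fun h => h3 (TI_fst_ee h)
        have h5 := hy2 i (Finset.mem_sdiff.2 ⟨hi, hn0⟩)
        rw [TI_lf_ne hi h4 y] at h5
        exact hne h5
    · intro a ha
      rw [← hA a ha]
      refine Finset.sum_congr rfl fun i _ => ?_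
      by_cases h3 : i.1 = k₀
      · simp only [if_pos h3]
        have h4 : sh l a i = 0 := by
          unfold sh
          rw [h3, hl0]
          simp
        rw [h4, zero_mul, zero_mul]
      · simp only [if_neg h3]
  refine hTW ι w k₀ κ₀ δ hw hwδ y ?_ hy1
  intro i hi hne
  by_contra h4
  have h3 : i.1 = k₀ := by
    by_contra h5
    exact hne (hC i hi h5)
  have h5 := hy2 i (Finset.mem_sdiff.2 ⟨hi, h4⟩)
  have h6 : i ∉ ee k₁ κ₁ (δ - up l) := fun h => hk (h3.symm.trans (TI_fst_ee h))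
  rw [TI_lf_ne hi h6 y] at h5
  exact hne h5

end Pool.Agent.Work.MP_f1a024_nt.RW
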