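import Pool.Agent.Work.MP_f1a024_nt.RW.Stmts

/-!
# Item TP of block RW: independence at the place `p`

Author: helper10.  Captain: helper39.
-/

namespace Pool.Agent.Work.MP_f1a024_nt.RW

open Finset MvPolynomial Filter

/-- TP -/
theorem prfTP (hNB : NB) (hUB : UB) (hTRI : TRI) : TP := by
  obtain ⟨-, hadd, hpos, hinj, -⟩ := hNB
  obtain ⟨-, -, hU3, -, hU5, -⟩ := hUB
  intro ι _ _ w p k α δ hα hαp hmax hup y hy1 hy2
  have hsup : ∀ c ∈ (w k).support, c ≤ up w := fun c hc => (hU3 (w k) c hc).trans (hU5 ι w k)
  refine hTRI (ι × Ex) Ex (ℕ ×ₗ ℕ)ᵒᵈ (bx ι δ) (Iic (δ - up w)) (sh w) (fun a => (k, a + α))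
    (fun a => OrderDual.toDual (toLex (a p, nn a))) ?_ ?_ ?_ y ?_ hy2
  · intro a ha
    rw [mem_Iic] at ha
    unfold bx
    rw [mem_product, mem_Iic]
    refine ⟨mem_univ _, ?_⟩
    calc a + α ≤ (δ - up w) + up w := add_le_add ha (hsup α hα)
      _ = δ := tsub_add_cancel_of_le hup
  · intro a _
    unfold sh
    rw [if_pos (show a ≤ a + α from le_self_add)]
    change (w k).coeff (a + α - a) ≠ 0
    rw [add_tsub_cancel_left]
    exact mem_support_iff.1 hα
  · intro a _ a' _ hne
    unfold sh at hne
    by_cases hle : a ≤ a' + α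
    · rw [if_pos hle] at hne
      have hc : a' + α - a ∈ (w k).support := mem_support_iff.2 hne
      have hac : a + (a' + α - a) = a' + α := add_tsub_cancel_of_le hle
      generalize a' + α - a = c at hc hac
      have hcp : c p ≤ α p := by
        rw [hαp]
        exact hsup c hc p
      have hacp : a p + c p = a' p + α p := by
        have := DFunLike.congr_fun hac p
        simpa using this
      have hnn : nn a * nn c = nn a' * nn α := by rw [← hadd, ← hadd, hac]
      rcases Nat.lt_or_ge (a' p) (a p) with h1 | h1
      · right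
        rw [OrderDual.toDual_lt_toDual, Prod.Lex.toLex_lt_toLex]
        exact Or.inl h1
      · have h2 : a' p = a p := by omega
        have h3 : c p = up w p := by omega
        have h4 : nn c ≤ nn α := hmax c hc h3
        have h5 : nn a' ≤ nn a := by
          have h6 : nn a' * nn α ≤ nn a * nn α := by
            rw [← hnn]
            exact Nat.mul_le_mul_left _ h4
          exact Nat.le_of_mul_le_mul_right h6 (hpos α)
        rcases Nat.lt_or_ge (nn a') (nn a) with h7 | h7
        · right
          rw [OrderDual.toDual_lt_toDual, Prod.Lex.toLex_lt_toLex]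
          exact Or.inr ⟨h2, h7⟩
        · left
          exact hinj (le_antisymm h5 h7)
    · rw [if_neg hle] at hne
      exact absurd rfl hne
  · intro i hi hyi
    have h1 := hy1 i hi hyi
    unfold ee at h1
    exact mem_image.1 h1

end Pool.Agent.Work.MP_f1a024_nt.RW
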