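import Pool.Agent.Work.MP_f1a024_nt.RW.Stmts

/-!
# Block RW, item TRI: triangular systems
-/

set_option autoImplicit false

namespace Pool.Agent.Work.MP_f1a024_nt.RW

open Finset

/-- TRI: triangular systems. -/
theorem prfTRI : TRI := by
  classical
  intro ι α L _ 𝔹 𝒜 φ e ρ he hd ht y hy hs i hi
  by_contra hne
  obtain ⟨a₀, ha₀, he₀⟩ := hy i hi hne
  obtain ⟨a', ha', hmax⟩ := Finset.exists_max_image (𝒜.filter fun a => y (e a) ≠ 0) ρ
    ⟨a₀, Finset.mem_filter.2 ⟨ha₀, by rwa [he₀]⟩⟩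
  obtain ⟨ha'1, ha'2⟩ := Finset.mem_filter.1 ha'
  have h1 := hs a' ha'1
  rw [Finset.sum_eq_single_of_mem (e a') (he a' ha'1)] at h1
  · rcases mul_eq_zero.1 h1 with h2 | h2
    · exact hd a' ha'1 h2
    · exact ha'2 h2
  · intro b hb hbne
    by_contra h0
    have hyb : y b ≠ 0 := fun h => h0 (by rw [h, mul_zero])
    have hφ : φ a' b ≠ 0 := fun h => h0 (by rw [h, zero_mul])
    obtain ⟨a'', ha'', hb'⟩ := hy b hb hyb
    rw [← hb'] at hφ hyb
    rcases ht a' ha'1 a'' ha'' hφ with h3 | h3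
    · rw [h3] at hb'
      exact hbne hb'.symm
    · exact absurd (hmax a'' (Finset.mem_filter.2 ⟨ha'', hyb⟩)) (not_le.2 h3)

end Pool.Agent.Work.MP_f1a024_nt.RW
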