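import Pool.Agent.Work.MP_f1a024_nt.RW.Stmts

/-!
# Block RW: item TW
-/

set_option autoImplicit false

namespace Pool.Agent.Work.MP_f1a024_nt.RW

open Finset MvPolynomial Filter

theorem prfTW (hNB : NB) (hUB : UB) (hTRI : TRI) : TW := by
  classical
  intro ι _ _ w k κ δ hκ hδ y hy hsum
  obtain ⟨-, nmul, npos, ninj, -⟩ := hNB
  have hκs : κ ∈ (w k).support := hκ.1
  have hκu : κ ≤ up w := (hUB.2.2.1 (w k) κ hκs).trans (hUB.2.2.2.2.1 ι w k)
  refine hTRI (ι × Ex) Ex ℕ (bx ι δ) (Iic (δ - up w)) (fun a => sh w a) (fun a => (k, a + κ)) nn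
    ?_ ?_ ?_ y ?_ hsum
  · intro a ha
    have ha' : a ≤ δ - up w := Finset.mem_Iic.1 ha
    refine Finset.mem_product.2 ⟨Finset.mem_univ _, Finset.mem_Iic.2 ?_⟩
    show a + κ ≤ δ
    calc a + κ ≤ (δ - up w) + up w := add_le_add ha' hκu
      _ = δ := tsub_add_cancel_of_le hδ
  · intro a _
    show sh w a (k, a + κ) ≠ 0
    unfold sh
    rw [if_pos (show a ≤ a + κ from le_self_add)]
    show (w k).coeff (a + κ - a) ≠ 0
    rw [add_tsub_cancel_left]
    exact MvPolynomial.mem_support_iff.1 hκs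
  · intro a _ a' _ h
    unfold sh at h
    split_ifs at h with hle
    · have h1 : (w k).coeff (a' + κ - a) ≠ 0 := h
      have h2 : a' + κ - a ∈ (w k).support := MvPolynomial.mem_support_iff.2 h1
      have h3 := hκ.2 _ h2
      have hle' : a ≤ a' + κ := hle
      have h4 : a + (a' + κ - a) = a' + κ := add_tsub_cancel_of_le hle'
      have h5 := congrArg nn h4
      rw [nmul, nmul] at h5
      have h6 : nn a * nn κ ≤ nn a' * nn κ := by
        rw [← h5]
        exact Nat.mul_le_mul_left _ h3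
      have h7 : nn a ≤ nn a' := Nat.le_of_mul_le_mul_right h6 (npos κ)
      rcases h7.lt_or_eq with h8 | h8
      · exact Or.inr h8
      · exact Or.inl (ninj h8.symm)
    · exact absurd rfl h
  · intro i hi hne
    obtain ⟨a, ha, hai⟩ := Finset.mem_image.1 (hy i hi hne)
    exact ⟨a, ha, hai⟩

end Pool.Agent.Work.MP_f1a024_nt.RW
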