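import Pool.Agent.Work.MP_f1a024_nt.RW.Stmts

/-!
# Block RW, item UB: highest exponents
-/

namespace Pool.Agent.Work.MP_f1a024_nt.RW

open Finset MvPolynomial Filter

lemma UB_eval {α : Type} (s : Finset α) (g : α → Ex) (p : Nat.Primes) :
    (s.sup g) p = s.sup fun a => g a p :=
  Finset.comp_sup_eq_sup_comp (fun a : Ex => a p) (fun x y => Finsupp.sup_apply x y p) rfl

lemma UB_one (f : Rg) (p : Nat.Primes) : up1 f p = degreeOf p f := by
  rw [degreeOf_eq_sup, up1, UB_eval]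
  rfl

theorem prfUB (hNB : NB) : UB := by
  have h3 : ∀ (f : Rg), ∀ κ ∈ f.support, κ ≤ up1 f := fun f κ hκ => Finset.le_sup (f := id) hκ
  refine ⟨UB_one, ?_, h3, ?_, ?_, ?_, ?_⟩
  · intro f g hf hg
    ext p
    rw [Finsupp.add_apply, UB_one, UB_one, UB_one, degreeOf_mul_eq hf hg]
  · intro f p hf
    obtain ⟨κ, hκ, h⟩ := Finset.exists_mem_eq_sup f.support
      (MvPolynomial.support_nonempty.2 hf) (fun a => (id a : Ex) p)
    refine ⟨κ, hκ, ?_⟩
    rw [up1, UB_eval]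
    exact h.symm
  · intro ι _ w k
    exact Finset.le_sup (f := fun k => up1 (w k)) (Finset.mem_univ k)
  · intro ι _ _ w p
    obtain ⟨k, _, h⟩ := Finset.exists_mem_eq_sup (Finset.univ : Finset ι)
      Finset.univ_nonempty (fun k => up1 (w k) p)
    refine ⟨k, ?_⟩
    rw [up, UB_eval]
    exact h
  · intro f κ hκ
    exact Nat.le_of_dvd (hNB.2.2.1 _) ((hNB.2.2.2.2.2.2.1 κ (up1 f)).1 (h3 f κ hκ))

end Pool.Agent.Work.MP_f1a024_nt.RW
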