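import Pool.Agent.Work.MP_f1a024_nt.RW.Stmts

/-!
# Block RW, item WS: the module of relations
-/

namespace Pool.Agent.Work.MP_f1a024_nt.RW

open Finset MvPolynomial Filter

lemma WS_nn_pos (a : Ex) : 0 < nn a := by
  unfold nn Finsupp.prod
  exact Finset.prod_pos fun p _ => pow_pos p.2.pos _

lemma WS_smul_sum {d : ℕ} (n : ℕ) (x : Fin (d + 1) → ℤ) (t : Rg) (c : Fin (d + 1) → Rg) :
    ∑ k, ev n ((t • c) k) * (x k : ℚ) = ev n t * ∑ k, ev n (c k) * (x k : ℚ) := by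
  rw [Finset.mul_sum]
  refine Finset.sum_congr rfl fun k _ => ?_
  rw [Pi.smul_apply, smul_eq_mul, map_mul, mul_assoc]

/-- the module of relations -/
noncomputable def WS_mod (d : ℕ) (𝒰 : Ultrafilter ℕ) (x : ℕ → Fin (d + 1) → ℤ) :
    Submodule Rg (Fin (d + 1) → Rg) where
  carrier := {c | Rel 𝒰 x c}
  add_mem' := by
    intro c c' hc hc'
    have hc1 : ∀ᶠ n : ℕ in (𝒰 : Filter ℕ), ∑ k, ev n (c k) * (x n k : ℚ) = 0 := hc
    have hc2 : ∀ᶠ n : ℕ in (𝒰 : Filter ℕ), ∑ k, ev n (c' k) * (x n k : ℚ) = 0 := hc'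
    show ∀ᶠ n : ℕ in (𝒰 : Filter ℕ), ∑ k, ev n ((c + c') k) * (x n k : ℚ) = 0
    filter_upwards [hc1, hc2] with n h1 h2
    have h3 : ∑ k, ev n ((c + c') k) * (x n k : ℚ) =
        ∑ k, ev n (c k) * (x n k : ℚ) + ∑ k, ev n (c' k) * (x n k : ℚ) := by
      rw [← Finset.sum_add_distrib]
      refine Finset.sum_congr rfl fun k _ => ?_
      rw [Pi.add_apply, map_add, add_mul]
    rw [h3, h1, h2, add_zero]
  zero_mem' := by
    show ∀ᶠ n : ℕ in (𝒰 : Filter ℕ),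
      ∑ k, ev n ((0 : Fin (d + 1) → Rg) k) * (x n k : ℚ) = 0
    refine Filter.Eventually.of_forall fun n => ?_
    refine Finset.sum_eq_zero fun k _ => ?_
    rw [Pi.zero_apply, map_zero, zero_mul]
  smul_mem' := by
    intro t c hc
    have hc1 : ∀ᶠ n : ℕ in (𝒰 : Filter ℕ), ∑ k, ev n (c k) * (x n k : ℚ) = 0 := hc
    show ∀ᶠ n : ℕ in (𝒰 : Filter ℕ), ∑ k, ev n ((t • c) k) * (x n k : ℚ) = 0
    filter_upwards [hc1] with n h1
    rw [WS_smul_sum, h1, mul_zero]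

theorem prfWS (hLB : LB) (hEB : EB) : WS := by
  intro d 𝒰 x h𝒰 hx
  refine ⟨WS_mod d 𝒰 x, fun c => Iff.rfl, ?_, ?_⟩
  · intro htop
    have h1 : ∀ i : Fin (d + 1), Rel 𝒰 x (Pi.single i (1 : Rg)) := by
      intro i
      have h2 : (Pi.single i (1 : Rg) : Fin (d + 1) → Rg) ∈ WS_mod d 𝒰 x := by
        rw [htop]
        exact Submodule.mem_top
      exact h2
    have h3 : ∀ᶠ n : ℕ in (𝒰 : Filter ℕ), ∀ i : Fin (d + 1),
        ∑ k, ev n ((Pi.single i (1 : Rg) : Fin (d + 1) → Rg) k) * (x n k : ℚ) = 0 :=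
      Filter.eventually_all.2 h1
    obtain ⟨n, hn1, hn2⟩ := (h3.and hx).exists
    apply hn2
    funext i
    have h4 := hn1 i
    rw [Finset.sum_eq_single i] at h4
    · rw [Pi.single_eq_same, map_one, one_mul] at h4
      exact_mod_cast h4
    · intro k _ hk
      rw [Pi.single_eq_of_ne hk, map_zero, zero_mul]
    · intro h
      exact absurd (Finset.mem_univ i) h
  · intro t c ht htc
    obtain ⟨κ, hκ⟩ := hLB.1 t ht
    obtain ⟨C, M, hC, hM⟩ := hEB.2 t κ hκ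
    have h1 : ∀ᶠ n : ℕ in (𝒰 : Filter ℕ), ∑ k, ev n ((t • c) k) * (x n k : ℚ) = 0 := htc
    show ∀ᶠ n : ℕ in (𝒰 : Filter ℕ), ∑ k, ev n (c k) * (x n k : ℚ) = 0
    filter_upwards [h1, (eventually_ge_atTop M).filter_mono h𝒰] with n hn hnM
    rw [WS_smul_sum] at hn
    rcases mul_eq_zero.1 hn with h2 | h2
    · exfalso
      have h3 := (hM n hnM).1
      rw [h2] at h3
      have h4 : (0 : ℝ) < C⁻¹ * ((nn κ : ℝ) ^ n)⁻¹ := by
        have h5 : (0 : ℝ) < (nn κ : ℝ) := by exact_mod_cast WS_nn_pos κ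
        positivity
      simp at h3
      linarith
    · exact h2

end Pool.Agent.Work.MP_f1a024_nt.RW
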