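import Pool.Agent.Work.MP_f1a024_nt.RW.Stmts

/-!
# Block RW: item Z1 (helper56)
-/

namespace Pool.Agent.Work.MP_f1a024_nt.RW

open Finset MvPolynomial Filter
open Pool.Agent.Work.MP_f1a024_nt.AH (tau PG val D1 D2 D4 D10a D10b)

/-- the binomial vectors -/
noncomputable def Z1_v (d r : ℕ) (l : Fin (r + 1)) : Fin (d + 1) → ℚ :=
  fun i => (((i : ℕ).choose l : ℕ) : ℚ)

lemma Z1_TT (d r : ℕ) : TT d r = Submodule.span ℚ (Set.range (Z1_v d r)) := by
  unfold TT
  congr 1
  ext t
  constructor
  · rintro ⟨l, hl, rfl⟩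
    exact ⟨⟨l, by omega⟩, rfl⟩
  · rintro ⟨l, rfl⟩
    exact ⟨l, by have := l.2; omega, rfl⟩

lemma Z1_indep (d r : ℕ) (hr : r ≤ d) : LinearIndependent ℚ (Z1_v d r) := by
  rw [Fintype.linearIndependent_iff]
  intro g hg
  have key : ∀ k : ℕ, ∀ (hk : k < r + 1), g ⟨k, hk⟩ = 0 := by
    intro k
    induction k using Nat.strong_induction_on with
    | _ k ih =>
      intro hk
      have h1 := congrFun hg ⟨k, by omega⟩
      rw [Finset.sum_apply] at h1
      simp only [Pi.smul_apply, Z1_v, smul_eq_mul, Pi.zero_apply] at h1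
      rw [Finset.sum_eq_single (⟨k, hk⟩ : Fin (r + 1))] at h1
      · simpa using h1
      · intro l _ hl
        rcases lt_trichotomy (l : ℕ) k with h | h | h
        · have := ih l h l.2
          rw [show (⟨(l : ℕ), l.2⟩ : Fin (r + 1)) = l from rfl] at this
          rw [this, zero_mul]
        · exact absurd (Fin.ext h) hl
        · rw [Nat.choose_eq_zero_of_lt h, Nat.cast_zero, mul_zero]
      · intro h
        exact absurd (Finset.mem_univ _) h
  intro i
  exact key i i.2

lemma Z1_choose (hZ1a : Z1a) (h10 : D10b) (d r p : ℕ) (hp : p.Prime) (z : Fin (d + 1) → ℚ)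
    (hz : ∀ e ≤ r, ∑ i, z i * (tau ^ (i : ℕ)) (p ^ e) = 0) :
    ∀ l ≤ r, ∑ i : Fin (d + 1), z i * (((i : ℕ).choose l : ℕ) : ℚ) = 0 := by
  intro l
  induction l using Nat.strong_induction_on with
  | _ l ih =>
    intro hl
    obtain ⟨h1, h2⟩ := hZ1a h10 p hp l
    have h3 := hz l hl
    have h4 : ∑ i : Fin (d + 1), z i * (tau ^ (i : ℕ)) (p ^ l) =
        ∑ l' ∈ range (l + 1), ((tau - 1) ^ l') (p ^ l) *
          ∑ i : Fin (d + 1), z i * (((i : ℕ).choose l' : ℕ) : ℚ) := by
      have h5 : ∀ i : Fin (d + 1), z i * (tau ^ (i : ℕ)) (p ^ l) =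
          ∑ l' ∈ range (l + 1), ((tau - 1) ^ l') (p ^ l) *
            (z i * (((i : ℕ).choose l' : ℕ) : ℚ)) := by
        intro i
        rw [h2 i, Finset.mul_sum]
        refine Finset.sum_congr rfl fun l' _ => ?_
        ring
      rw [Finset.sum_congr rfl fun i _ => h5 i, Finset.sum_comm]
      refine Finset.sum_congr rfl fun l' _ => ?_
      rw [Finset.mul_sum]
    rw [h4, Finset.sum_range_succ, h1] at h3
    have h6 : ∑ l' ∈ range l, ((tau - 1) ^ l') (p ^ l) *
        ∑ i : Fin (d + 1), z i * (((i : ℕ).choose l' : ℕ) : ℚ) = 0 := by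
      refine Finset.sum_eq_zero fun l' hl' => ?_
      rw [Finset.mem_range] at hl'
      rw [ih l' hl' (by omega), mul_zero]
    rw [h6, zero_add] at h3
    rcases mul_eq_zero.1 h3 with h | h
    · exact absurd h (pow_ne_zero _ (by norm_num))
    · exact h

theorem prfZ1 (hZ1a : Z1a) : Z1 := by
  constructor
  · intro d r hr
    rw [Z1_TT, finrank_span_eq_card (Z1_indep d r hr), Fintype.card_fin]
  · intro h10 d r p hp z hz t ht
    have hc := Z1_choose hZ1a h10 d r p hp z hz
    unfold TT at ht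
    induction ht using Submodule.span_induction with
    | mem t h =>
      obtain ⟨l, hl, rfl⟩ := h
      exact hc l hl
    | zero => simp
    | add a b _ _ ha hb =>
      simp only [Pi.add_apply, mul_add, Finset.sum_add_distrib, ha, hb, add_zero]
    | smul q a _ ha =>
      have : ∑ i, z i * (q • a) i = q * ∑ i, z i * a i := by
        rw [Finset.mul_sum]
        refine Finset.sum_congr rfl fun i _ => ?_
        rw [Pi.smul_apply, smul_eq_mul]
        ring
      rw [this, ha, mul_zero]

end Pool.Agent.Work.MP_f1a024_nt.RW
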