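import Pool.Agent.Work.MP_f1a024_nt.RW.Stmts2

/-! # Block RW, item Z4q: the bound for `k₃` (helper85, adapted from `RW/Z4.lean`) -/

set_option autoImplicit false

namespace Pool.Agent.Work.MP_f1a024_nt.RW

open Finset MvPolynomial Filter
open Pool.Agent.Work.MP_f1a024_nt.AH (tau PG val D1 D2 D4 D10a D10b)

theorem Z4q_nn_sum (hNB : NB) (T : Finset Nat.Primes) :
    nn (∑ q ∈ T, Finsupp.single q 1) = ∏ q ∈ T, (q : ℕ) := by
  classical
  obtain ⟨h0, h1, -, -, -, -, -, -, h2, -⟩ := hNB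
  induction T using Finset.induction_on with
  | empty => rw [Finset.sum_empty, Finset.prod_empty, h0]
  | insert q T hq ih =>
    rw [Finset.sum_insert hq, Finset.prod_insert hq, h1, ih, h2, pow_one]

theorem Z4q_sum_single (T : Finset Nat.Primes) (q : Nat.Primes) :
    (∑ q' ∈ T, Finsupp.single q' 1 : Ex) q = if q ∈ T then 1 else 0 := by
  classical
  rw [Finsupp.finsetSum_apply]
  simp only [Finsupp.single_apply]
  rw [Finset.sum_ite_eq']

theorem prfZ4q (hNB : NB) (hUB : UB) (hZ2 : Z2) : Z4q := by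
  classical
  intro d r m u a hu hspan hdt
  obtain ⟨n0, nadd, npos, ninj, nex, -, nle, -, -, -⟩ := id hNB
  obtain ⟨-, -, u3, -, u5, -, -⟩ := hUB
  -- the lowest exponent
  obtain ⟨i0, hi0⟩ := hu
  set S : Finset Ex := univ.biUnion fun i => (u i).support with hS
  have hSne : S.Nonempty := by
    obtain ⟨b, hb⟩ := MvPolynomial.support_nonempty.2 hi0
    exact ⟨b, Finset.mem_biUnion.2 ⟨i0, Finset.mem_univ _, hb⟩⟩
  obtain ⟨κ, hκ, hκmin⟩ := Finset.exists_min_image S nn hSne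
  obtain ⟨i1, -, hi1⟩ := Finset.mem_biUnion.1 hκ
  have h1 : ∃ i, κ ∈ (u i).support := ⟨i1, hi1⟩
  have h2 : ∀ i, ∀ b ∈ (u i).support, nn κ ≤ nn b := fun i b hb =>
    hκmin b (Finset.mem_biUnion.2 ⟨i, Finset.mem_univ _, hb⟩)
  have hκup : κ ≤ up u := (u3 (u i1) κ hi1).trans (u5 _ u i1)
  have hz : ∀ p : Nat.Primes, up u p = κ p → ∃ e ≤ r, uv u (nn κ * (p : ℕ) ^ e) ≠ 0 := fun p hp =>
    hZ2 d r m u a κ p h1 h2 hp (hspan p) hdt
  -- a prime outside the support
  obtain ⟨p0, hp0⟩ := Infinite.exists_notMem_finset (up u).support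
  have hp0' : up u p0 = 0 := Finsupp.notMem_support_iff.1 hp0
  have hκp0 : κ p0 = 0 := Nat.le_zero.1 (hp0' ▸ hκup p0)
  obtain ⟨e0, -, he0⟩ := hz p0 (by rw [hp0', hκp0])
  have hex : ∃ k, uv u k ≠ 0 := ⟨_, he0⟩
  set k₃ := Nat.find hex with hk₃
  have hk1 : uv u k₃ ≠ 0 := Nat.find_spec hex
  have hk2 : ∀ k < k₃, uv u k = 0 := fun k hk => by
    by_contra h
    exact Nat.find_min hex hk h
  -- below `nn κ` everything vanishes
  have hlow : ∀ k < nn κ, uv u k = 0 := by
    intro k hk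
    unfold uv
    refine Finset.sum_eq_zero fun ab hab => Finset.sum_eq_zero fun i _ => ?_
    obtain ⟨h3, h4⟩ := Nat.mem_divisorsAntidiagonal.1 hab
    have hpos : 0 < ab.1 := Nat.pos_of_ne_zero fun h => h4 (by rw [← h3, h, Nat.zero_mul])
    have hle : ab.1 ≤ k := Nat.le_of_dvd (Nat.pos_of_ne_zero h4) ⟨ab.2, h3.symm⟩
    have h5 : (u i).coeff (ex ab.1) = 0 := by
      by_contra h6
      have h7 := h2 i (ex ab.1) (MvPolynomial.mem_support_iff.2 h6)
      rw [nex _ hpos] at h7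
      omega
    rw [h5, zero_mul]
  have hge : nn κ ≤ k₃ := by
    by_contra h
    exact hk1 (hlow k₃ (by omega))
  -- primes with `nn κ p^r < k₃`
  have hprime : ∀ p : Nat.Primes, nn κ * (p : ℕ) ^ r < k₃ → κ p + 1 ≤ up u p := by
    intro p hp
    have h3 : up u p ≠ κ p := by
      intro h4
      obtain ⟨e, he, hne⟩ := hz p h4
      refine hne (hk2 _ (lt_of_le_of_lt ?_ hp))
      exact Nat.mul_le_mul_left _ (Nat.pow_le_pow_right p.2.pos he)
    have h4 := hκup p
    omega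
  rcases Nat.eq_zero_or_pos r with hr | hr
  · -- `r = 0`
    refine ⟨k₃, 2, Nat.prime_two, hk1, hk2, ?_⟩
    have h3 : k₃ ≤ nn κ := by
      by_contra h4
      have h5 := hprime p0 (by rw [hr, pow_zero, Nat.mul_one]; omega)
      rw [hp0'] at h5
      omega
    have h4 : nn κ ≤ nn (up u) := Nat.le_of_dvd (npos _) ((nle _ _).1 hκup)
    have h5 : (k₃ : ℝ) ≤ nn (up u) := by exact_mod_cast h3.trans h4
    have h6 : pb 2 = 1 := by
      have h7 : (range 2).filter Nat.Prime = ∅ := by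
        refine Finset.filter_eq_empty_iff.2 fun p hp hpp => ?_
        have := Finset.mem_range.1 hp
        have := hpp.two_le
        omega
      unfold pb
      rw [h7, Finset.prod_empty]
    rw [hr, h6, mul_one, pow_zero, one_mul]
    exact h5
  · -- `r ≥ 1`
    have hexq : ∃ q : ℕ, q.Prime ∧ k₃ ≤ nn κ * q ^ r := by
      obtain ⟨q, hq1, hq2⟩ := Nat.exists_infinite_primes k₃
      refine ⟨q, hq2, ?_⟩
      calc k₃ ≤ q := hq1
        _ ≤ q ^ r := Nat.le_self_pow hr.ne' q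
        _ ≤ nn κ * q ^ r := Nat.le_mul_of_pos_left _ (npos κ)
    set q := Nat.find hexq with hq
    obtain ⟨hqp, hqk⟩ : q.Prime ∧ k₃ ≤ nn κ * q ^ r := Nat.find_spec hexq
    have hqmin : ∀ p : ℕ, p.Prime → p < q → nn κ * p ^ r < k₃ := by
      intro p hp hpq
      by_contra h
      exact Nat.find_min hexq hpq ⟨hp, by omega⟩
    refine ⟨k₃, q, hqp, hk1, hk2, ?_⟩
    set P := (range q).filter Nat.Prime with hP
    set T : Finset Nat.Primes := P.subtype (fun p => p.Prime) with hT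
    have hPT : ∏ q ∈ T, (q : ℕ) = ∏ p ∈ P, p := by
      have := Finset.prod_subtype_of_mem (s := P) (fun p : ℕ => p) (p := fun p => p.Prime)
        (fun x hx => (Finset.mem_filter.1 hx).2)
      exact this
    have hη : κ + ∑ q ∈ T, Finsupp.single q 1 ≤ up u := by
      intro p
      rw [Finsupp.add_apply, Z4q_sum_single]
      split_ifs with hp
      · have h3 : (p : ℕ) ∈ P := Finset.mem_subtype.1 hp
        exact hprime p (hqmin p p.2 (Finset.mem_range.1 (Finset.mem_filter.1 h3).1))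
      · exact hκup p
    have h3 : nn κ * ∏ p ∈ P, p ≤ nn (up u) := by
      have h4 := Nat.le_of_dvd (npos _) ((nle _ _).1 hη)
      rw [nadd, Z4q_nn_sum hNB, hPT] at h4
      exact h4
    have h5 : (nn κ : ℝ) * pb q ≤ nn (up u) := by
      have : ((nn κ * ∏ p ∈ P, p : ℕ) : ℝ) ≤ (nn (up u) : ℝ) := by exact_mod_cast h3
      rw [Nat.cast_mul, Nat.cast_prod] at this
      exact this
    have h6 : (k₃ : ℝ) ≤ nn κ * (q : ℝ) ^ r := by exact_mod_cast hqk
    have h7 : 0 ≤ pb q := Finset.prod_nonneg fun p _ => Nat.cast_nonneg p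
    calc (k₃ : ℝ) * pb q ≤ nn κ * (q : ℝ) ^ r * pb q := mul_le_mul_of_nonneg_right h6 h7
      _ = (q : ℝ) ^ r * (nn κ * pb q) := by ring
      _ ≤ (q : ℝ) ^ r * nn (up u) := mul_le_mul_of_nonneg_left h5 (by positivity)

end Pool.Agent.Work.MP_f1a024_nt.RW
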