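import Pool.Agent.Work.MP_f1a024_nt.AH.Final
import Pool.Agent.Work.MP_f1a024_nt.RW.NB
import Pool.Agent.Work.MP_f1a024_nt.RW.LB
import Pool.Agent.Work.MP_f1a024_nt.RW.UB
import Pool.Agent.Work.MP_f1a024_nt.RW.EB
import Pool.Agent.Work.MP_f1a024_nt.RW.SH
import Pool.Agent.Work.MP_f1a024_nt.RW.EE
import Pool.Agent.Work.MP_f1a024_nt.RW.TRI
import Pool.Agent.Work.MP_f1a024_nt.RW.TW
import Pool.Agent.Work.MP_f1a024_nt.RW.TP
import Pool.Agent.Work.MP_f1a024_nt.RW.TX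
import Pool.Agent.Work.MP_f1a024_nt.RW.TI
import Pool.Agent.Work.MP_f1a024_nt.RW.PLC
import Pool.Agent.Work.MP_f1a024_nt.RW.STQ
import Pool.Agent.Work.MP_f1a024_nt.RW.SubST
import Pool.Agent.Work.MP_f1a024_nt.RW.EXC
import Pool.Agent.Work.MP_f1a024_nt.RW.PRI
import Pool.Agent.Work.MP_f1a024_nt.RW.PRP
import Pool.Agent.Work.MP_f1a024_nt.RW.StD
import Pool.Agent.Work.MP_f1a024_nt.RW.CNT
import Pool.Agent.Work.MP_f1a024_nt.RW.PUR
import Pool.Agent.Work.MP_f1a024_nt.RW.PU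
import Pool.Agent.Work.MP_f1a024_nt.RW.AVD
import Pool.Agent.Work.MP_f1a024_nt.RW.P0
import Pool.Agent.Work.MP_f1a024_nt.RW.P1
import Pool.Agent.Work.MP_f1a024_nt.RW.P2
import Pool.Agent.Work.MP_f1a024_nt.RW.P3a
import Pool.Agent.Work.MP_f1a024_nt.RW.P3b
import Pool.Agent.Work.MP_f1a024_nt.RW.P4a
import Pool.Agent.Work.MP_f1a024_nt.RW.P4
import Pool.Agent.Work.MP_f1a024_nt.RW.P5
import Pool.Agent.Work.MP_f1a024_nt.RW.P6
import Pool.Agent.Work.MP_f1a024_nt.RW.Z1a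
import Pool.Agent.Work.MP_f1a024_nt.RW.Z1
import Pool.Agent.Work.MP_f1a024_nt.RW.Z2
import Pool.Agent.Work.MP_f1a024_nt.RW.Z4q
import Pool.Agent.Work.MP_f1a024_nt.RW.F1a
import Pool.Agent.Work.MP_f1a024_nt.RW.F1b
import Pool.Agent.Work.MP_f1a024_nt.RW.WS
import Pool.Agent.Work.MP_f1a024_nt.RW.CU
import Pool.Agent.Work.MP_f1a024_nt.RW.CRq
import Pool.Agent.Work.MP_f1a024_nt.RW.MRq
import Pool.Agent.Work.MP_f1a024_nt.RW.MTq

/-!
# Block RW: assembly of THEOREM W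
-/

namespace Pool.Agent.Work.MP_f1a024_nt.RW

open Pool.Agent.Work.MP_f1a024_nt.AH

theorem nb : NB := prfNB
theorem lb : LB := prfLB nb
theorem ub : UB := prfUB nb
theorem eb : EB := prfEB nb
theorem sh' : SH := prfSH nb ub eb
theorem ee' : EE := prfEE nb
theorem tw : TW := prfTW nb ub prfTRI
theorem tp : TP := prfTP nb ub prfTRI
theorem tx : TX := prfTX ub
theorem ti : TI := prfTI ub tw
theorem stq : STQ := prfSTQ Pool.Agent.Work.Tools.Subspace.subspaceN1 prfPLC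
theorem subst' : SubST := prfSubST stq
theorem exc : EXC := prfEXC ub eb
theorem pri : PRI := prfPRI nb ub sh' ee'
theorem prp : PRP := prfPRP nb ub ee'
theorem std : StD := prfStD nb ub sh' ee' tx ti tp subst' exc pri prp
theorem pu : PU := prfPU nb prfCNT prfPUR std
theorem d10a : D10a := prfD10a prfD1 prfD2
theorem z1 : Z1 := prfZ1 prfZ1a
theorem p6 : P6 := prfP6 prfD10b prfP0 (prfP1 prfAVD) prfP2 (prfP3a ub prfAVD) (prfP3b prfAVD)
  (prfP4 prfP4a) prfP5 z1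
theorem z4q : Z4q := prfZ4q nb ub (prfZ2 nb ub)
theorem cu : CU := prfCU nb lb ub eb pu (prfF1b nb)
theorem crq : CRq := prfCRq prfD1 d4 d10a (prfWS lb eb) p6 z4q (prfF1a nb) cu
theorem mrq : MRq := prfMRq crq
theorem mtq : MTq := prfMTq prfD1 prfD2 d10a mrq

end Pool.Agent.Work.MP_f1a024_nt.RW
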