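import Pool.Agent.Work.MP_f1a024_nt.RW.StmtsJ

/-!
# Block WJ, item LBJ: the local lemma
-/

namespace Pool.Agent.Work.MP_f1a024_nt.RW

open Finset MvPolynomial Filter
open Pool.Agent.Work.MP_f1a024_nt.AH (tau PG val D1 D2 D4 D10a D10b)

/-- one step: the coefficients of weight `n` vanish -/
theorem LBJ_step (h1 : PSJ) (h2 : VAJ) (h3 : EXJ) (h4 : SUJ) (h5 : POJ) (hD : D10b) (k D d : ℕ)
    (s : Fin (k + 1) → ℕ) (A : Fin (d + 1) ≃ (Fin (k + 1) → Fin (D + 1)))
    (hs : Function.Injective s) (S : Fin (k + 1) → ℕ) (hS : Function.Injective S)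
    (hSp : ∀ j, (S j).Prime) (z : Fin (d + 1) → ℚ) (n : ℕ)
    (hz : ∀ e : Fin (k + 1) → ℕ, ∑ j, e j = n → ∑ i, z i * fI s A i (∏ j, S j ^ e j) = 0)
    (hlt : ∀ α : Fin (k + 1) → Fin (D + 1), wt α < n → ∑ I, z (A.symm I) * bi α I = 0) :
    ∀ α : Fin (k + 1) → Fin (D + 1), wt α = n → ∑ I, z (A.symm I) * bi α I = 0 := by
  have key := h5 k D (fun α => ∑ I, z (A.symm I) * bi α I)
    (univ.filter (fun α : Fin (k + 1) → Fin (D + 1) => wt α = n)) ?_
  · intro α hα
    exact key α (Finset.mem_filter.2 ⟨Finset.mem_univ _, hα⟩)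
  · intro y
    obtain ⟨v, hv⟩ := h4 k s S hs hS (fun j => (hSp j).pos) (fun j => -y j / 2)
    obtain ⟨Ψ, hΨ⟩ := h1 k S v hS hSp
    have hK := fun j => h2 hD k S v hS hSp Ψ hΨ (s j)
    choose K hK1 hK2 using hK
    have hK3 : ∀ j, PowerSeries.constantCoeff (K j) = y j := by
      intro j
      rw [hK2, hv]
      ring
    have hf : ∀ i, Ψ (fI s A i) = ∏ j, (1 + PowerSeries.X * K j) ^ (A i j : ℕ) := by
      intro i
      unfold fI
      rw [map_prod]
      refine Finset.prod_congr rfl fun j _ => ?_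
      rw [map_pow, hK1]
    have e1 := h3 k D n K (fun I => z (A.symm I)) hlt
    have e2 : ∑ I : Fin (k + 1) → Fin (D + 1), PowerSeries.C (z (A.symm I)) *
        ∏ j, (1 + PowerSeries.X * K j) ^ (I j : ℕ) =
        ∑ i, PowerSeries.C (z i) * Ψ (fI s A i) := by
      rw [← Equiv.sum_comp A]
      refine Finset.sum_congr rfl fun i _ => ?_
      rw [Equiv.symm_apply_apply, hf]
    have e3 : PowerSeries.coeff n (∑ i, PowerSeries.C (z i) * Ψ (fI s A i)) = 0 := by
      rw [map_sum]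
      have e4 : ∀ i, PowerSeries.coeff n (PowerSeries.C (z i) * Ψ (fI s A i)) =
          ∑ e ∈ Finset.piAntidiag univ n,
            (z i * fI s A i (∏ j, S j ^ e j)) * ∏ j, v j ^ e j := by
        intro i
        rw [PowerSeries.coeff_C_mul, hΨ, Finset.mul_sum]
        refine Finset.sum_congr rfl fun e _ => ?_
        ring
      rw [Finset.sum_congr rfl fun i _ => e4 i, Finset.sum_comm]
      refine Finset.sum_eq_zero fun e he => ?_
      rw [← Finset.sum_mul, hz e (Finset.mem_piAntidiag.1 he).1, zero_mul]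
    have e5 : PowerSeries.coeff n (∑ I : Fin (k + 1) → Fin (D + 1),
        PowerSeries.C (z (A.symm I)) * ∏ j, (1 + PowerSeries.X * K j) ^ (I j : ℕ)) = 0 := by
      rw [e2]
      exact e3
    rw [e5] at e1
    rw [e1]
    refine Finset.sum_congr rfl fun α _ => ?_
    refine congrArg _ (Finset.prod_congr rfl fun j _ => ?_)
    rw [hK3]

/-- LBJ: the local lemma -/
theorem prfLBJ (h1 : PSJ) (h2 : VAJ) (h3 : EXJ) (h4 : SUJ) (h5 : POJ) : LBJ := by
  intro hD k D d s A hs hA r hr S hS hSp z hz t ht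
  have hlam : ∀ n, n ≤ cJ A r → ∀ α : Fin (k + 1) → Fin (D + 1), wt α = n →
      ∑ I, z (A.symm I) * bi α I = 0 := by
    intro n
    induction n using Nat.strong_induction_on with
    | _ n ih =>
      intro hn
      refine LBJ_step h1 h2 h3 h4 h5 hD k D d s A hs S hS hSp z n ?_ ?_
      · intro e he
        exact hz e (he ▸ hn)
      · intro α hα
        exact ih (wt α) hα (hα.le.trans hn) α rfl
  have hcr : cJ A r = wt (A ⟨r, Nat.lt_succ_of_le hr⟩) := by
    unfold cJ
    rw [dif_pos (Nat.lt_succ_of_le hr)]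
  refine Submodule.span_induction (p := fun t _ => ∑ i, z i * t i = 0) ?_ ?_ ?_ ?_ ht
  · rintro t ⟨l, hl, rfl⟩
    have hwt : wt (A l) ≤ cJ A r := by
      rw [hcr]
      exact hA (show l ≤ ⟨r, Nat.lt_succ_of_le hr⟩ from hl)
    have e1 := hlam (wt (A l)) hwt (A l) rfl
    rw [← Equiv.sum_comp A] at e1
    rw [← e1]
    refine Finset.sum_congr rfl fun i _ => ?_
    rw [Equiv.symm_apply_apply]
  · refine Finset.sum_eq_zero fun i _ => ?_
    rw [Pi.zero_apply, mul_zero]
  · intro x y _ _ hx hy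
    have : ∑ i, z i * (x + y) i = ∑ i, z i * x i + ∑ i, z i * y i := by
      rw [← Finset.sum_add_distrib]
      refine Finset.sum_congr rfl fun i _ => ?_
      rw [Pi.add_apply, mul_add]
    rw [this, hx, hy, add_zero]
  · intro a x _ hx
    have : ∑ i, z i * (a • x) i = a * ∑ i, z i * x i := by
      rw [Finset.mul_sum]
      refine Finset.sum_congr rfl fun i _ => ?_
      rw [Pi.smul_apply, smul_eq_mul]
      ring
    rw [this, hx, mul_zero]

end Pool.Agent.Work.MP_f1a024_nt.RW
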