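import Pool.Agent.Work.MP_f1a024_nt.RW.StmtsJ

/-!
# Block WJ, item MTJ: THEOREM WJ from the real form
-/

set_option autoImplicit false

namespace Pool.Agent.Work.MP_f1a024_nt.RW

open Finset MvPolynomial Filter
open Pool.Agent.Work.MP_f1a024_nt.AH (tau PG val D1 D2 D4 D10a D10b)

theorem MTJ_pb (q : ℕ) : 0 < pb q := by
  unfold pb
  refine Finset.prod_pos fun p hp => ?_
  have h : p.Prime := (Finset.mem_filter.1 hp).2
  exact_mod_cast h.pos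

theorem MTJ_thr (c ν r n q : ℕ) (θ H : ℝ) (hθ : 0 < θ) (h : (q : ℝ) ^ c ≤ θ ^ ν * pb q)
    (hH : θ ^ n ≤ H) (h1 : 1 ≤ H) (hr : ν ≤ r) : (q : ℝ) ^ (c * n) ≤ H ^ r * pb q ^ n := by
  have e1 : ((q : ℝ) ^ c) ^ n ≤ (θ ^ ν * pb q) ^ n := pow_le_pow_left₀ (by positivity) h n
  have e2 : (θ ^ n) ^ ν ≤ H ^ ν := pow_le_pow_left₀ (by positivity) hH ν
  have e3 : (θ ^ ν * pb q) ^ n = (θ ^ n) ^ ν * pb q ^ n := by
    rw [mul_pow, ← pow_mul, ← pow_mul, mul_comm ν n]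
  have e4 : H ^ ν ≤ H ^ r := pow_le_pow_right₀ h1 hr
  rw [pow_mul]
  calc ((q : ℝ) ^ c) ^ n ≤ (θ ^ ν * pb q) ^ n := e1
    _ = (θ ^ n) ^ ν * pb q ^ n := e3
    _ ≤ H ^ r * pb q ^ n :=
        mul_le_mul_of_nonneg_right (e2.trans e4) (pow_nonneg (MTJ_pb q).le n)

/-- item MTJ -/
theorem prfMTJ (hD1 : D1) (hD2 : D2) (hD10a : D10a) (hD10b : D10b) (h1 : ORJ) (h2 : DIJ)
    (h3 : NUJ) (h4 : LBJ) (h5 : VLJ) (h6 : PLJ) (h7 : MRJ) : MTJ := by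
  intro k D s θ B ε hs hθ hTh hε
  obtain ⟨A, hA⟩ := h1 k D
  obtain ⟨hPG, M₂, hM₂⟩ := h5 hD1 hD2 hD10a k D _ s A
  obtain ⟨M₁, hM₁⟩ := h7 k _ (fI s A) (TJ A) (cJ A) hPG (h2 k D _ A)
    (h4 hD10b k D _ s A hs hA) B ε hε
  refine ⟨max M₁ M₂, fun n hn P H hP hdeg hco hH1 hH2 => ?_⟩
  have hn1 : M₁ ≤ n := le_trans (le_max_left _ _) hn
  have hn2 : M₂ ≤ n := le_trans (le_max_right _ _) hn
  obtain ⟨hx, hsum⟩ := h6 k D _ A P hdeg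
  have hH : 1 ≤ H := by
    obtain ⟨I, hI⟩ := MvPolynomial.ne_zero_iff.1 hP
    refine le_trans ?_ (hco I)
    have h8 : (1 : ℤ) ≤ |P.coeff I| := Int.one_le_abs hI
    exact_mod_cast h8
  have h8 := hM₁ n hn1
    (fun i => P.coeff (Finsupp.equivFunOnFinite.symm fun j => (A i j : ℕ))) H (hx hP)
    (fun i => hco _) (fun r hr q hc hq => by
      obtain ⟨g1, g2⟩ := h3 k D _ A hA r hr
      exact MTJ_thr _ _ r n q θ H hθ (hTh _ q hc g2 hq) hH1 hH g1) hH2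
  refine le_trans h8 (le_of_eq ?_)
  rw [hsum]
  have h9 : ∑ i, ((P.coeff (Finsupp.equivFunOnFinite.symm fun j => (A i j : ℕ)) : ℤ) : ℂ) *
      ∏ j, (riemannZeta (2 * ((n + s j : ℕ) : ℂ)) / riemannZeta ((n + s j : ℕ) : ℂ) ^ 2) ^
        (A i j : ℕ) =
      ((∑ i, ((P.coeff (Finsupp.equivFunOnFinite.symm fun j => (A i j : ℕ)) : ℤ) : ℝ) *
        val (fI s A i) n : ℝ) : ℂ) := by
    push_cast
    refine Finset.sum_congr rfl fun i _ => ?_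
    rw [hM₂ n hn2 i]
    push_cast
    rfl
  rw [h9, Complex.norm_real, Real.norm_eq_abs]

end Pool.Agent.Work.MP_f1a024_nt.RW
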