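import Pool.Agent.Work.MP_f1a024_nt.RW.StmtsJ

/-!
# Block WJ, item MUJ: the product of two arithmetic functions, restricted to products of given primes
-/

namespace Pool.Agent.Work.MP_f1a024_nt.RW

open Finset MvPolynomial Filter
open Pool.Agent.Work.MP_f1a024_nt.AH (tau PG val D1 D2 D4 D10a D10b)

theorem MUJ_mem {k : ℕ} {e : Fin (k + 1) → ℕ} {n : ℕ} :
    e ∈ Finset.piAntidiag (univ : Finset (Fin (k + 1))) n ↔ ∑ j, e j = n := by
  rw [Finset.mem_piAntidiag]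
  exact ⟨fun h => h.1, fun h => ⟨h, fun i _ => Finset.mem_univ i⟩⟩

theorem MUJ_reindex {k : ℕ} (n : ℕ) (G : (Fin (k + 1) → ℕ) → (Fin (k + 1) → ℕ) → ℚ) :
    ∑ e ∈ Finset.piAntidiag (univ : Finset (Fin (k + 1))) n, ∑ e' ∈ Iic e,
        G e' (fun j => e j - e' j) =
      ∑ ab ∈ HasAntidiagonal.antidiagonal n,
        ∑ x ∈ Finset.piAntidiag (univ : Finset (Fin (k + 1))) ab.1 ×ˢ
          Finset.piAntidiag (univ : Finset (Fin (k + 1))) ab.2, G x.1 x.2 := by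
  rw [Finset.sum_sigma', Finset.sum_sigma']
  refine Finset.sum_nbij'
    (fun x => ⟨(∑ j, x.2 j, ∑ j, (x.1 j - x.2 j)), (x.2, fun j => x.1 j - x.2 j)⟩)
    (fun x => ⟨fun j => x.2.1 j + x.2.2 j, x.2.1⟩) ?_ ?_ ?_ ?_ ?_
  · rintro ⟨e, e'⟩ h
    rw [Finset.mem_sigma] at h
    obtain ⟨h1, h2⟩ := h
    have h1' : ∑ j, e j = n := MUJ_mem.1 h1
    have h2' : e' ≤ e := Finset.mem_Iic.1 h2
    rw [Finset.mem_sigma]
    refine ⟨?_, ?_⟩
    · show (∑ j, e' j, ∑ j, (e j - e' j)) ∈ HasAntidiagonal.antidiagonal n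
      rw [HasAntidiagonal.mem_antidiagonal]
      show ∑ j, e' j + ∑ j, (e j - e' j) = n
      rw [← Finset.sum_add_distrib, ← h1']
      exact Finset.sum_congr rfl fun j _ => Nat.add_sub_cancel' (h2' j)
    · exact Finset.mem_product.2 ⟨MUJ_mem.2 rfl, MUJ_mem.2 rfl⟩
  · rintro ⟨ab, e', e''⟩ h
    rw [Finset.mem_sigma] at h
    obtain ⟨h1, h2⟩ := h
    have h1' : ab.1 + ab.2 = n := HasAntidiagonal.mem_antidiagonal.1 h1
    obtain ⟨h3, h4⟩ := Finset.mem_product.1 h2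
    have h3' : ∑ j, e' j = ab.1 := MUJ_mem.1 h3
    have h4' : ∑ j, e'' j = ab.2 := MUJ_mem.1 h4
    rw [Finset.mem_sigma]
    refine ⟨?_, ?_⟩
    · refine MUJ_mem.2 ?_
      show ∑ j, (e' j + e'' j) = n
      rw [Finset.sum_add_distrib, h3', h4', h1']
    · refine Finset.mem_Iic.2 fun j => ?_
      exact Nat.le_add_right _ _
  · rintro ⟨e, e'⟩ h
    rw [Finset.mem_sigma] at h
    have h2' : e' ≤ e := Finset.mem_Iic.1 h.2
    refine Sigma.ext ?_ (heq_of_eq rfl)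
    funext j
    exact Nat.add_sub_cancel' (h2' j)
  · rintro ⟨ab, e', e''⟩ h
    rw [Finset.mem_sigma] at h
    obtain ⟨h3, h4⟩ := Finset.mem_product.1 h.2
    have h3' : ∑ j, e' j = ab.1 := MUJ_mem.1 h3
    have h4' : ∑ j, e'' j = ab.2 := MUJ_mem.1 h4
    have hf : (fun j => e' j + e'' j - e' j) = e'' := by
      funext j
      exact Nat.add_sub_cancel_left _ _
    refine Sigma.ext ?_ (heq_of_eq ?_)
    · refine Prod.ext h3' ?_
      show ∑ j, (e' j + e'' j - e' j) = ab.2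
      rw [← h4']
      exact Finset.sum_congr rfl fun j _ => Nat.add_sub_cancel_left _ _
    · exact Prod.ext rfl hf
  · rintro ⟨e, e'⟩ _
    rfl

theorem prfMUJ (h : DVJ) : MUJ := by
  intro k S v hS hp f g n
  have h1 : ∀ e : Fin (k + 1) → ℕ, (f * g) (∏ j, S j ^ e j) * ∏ j, v j ^ e j =
      ∑ e' ∈ Iic e, (f (∏ j, S j ^ e' j) * ∏ j, v j ^ e' j) *
        (g (∏ j, S j ^ (e j - e' j)) * ∏ j, v j ^ (e j - e' j)) := by
    intro e
    rw [ArithmeticFunction.mul_apply, h k S hS hp e fun a b => f a * g b, Finset.sum_mul]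
    refine Finset.sum_congr rfl fun e' he' => ?_
    have he : e' ≤ e := Finset.mem_Iic.1 he'
    have hv : ∏ j, v j ^ e j = (∏ j, v j ^ e' j) * ∏ j, v j ^ (e j - e' j) := by
      rw [← Finset.prod_mul_distrib]
      refine Finset.prod_congr rfl fun j _ => ?_
      rw [← pow_add, Nat.add_sub_cancel' (he j)]
    rw [hv]
    ring
  rw [Finset.sum_congr rfl fun e _ => h1 e]
  rw [MUJ_reindex n fun a b => (f (∏ j, S j ^ a j) * ∏ j, v j ^ a j) *
    (g (∏ j, S j ^ b j) * ∏ j, v j ^ b j)]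
  refine Finset.sum_congr rfl fun ab _ => ?_
  rw [Finset.sum_mul_sum, Finset.sum_product]

end Pool.Agent.Work.MP_f1a024_nt.RW
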