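import Pool.Agent.Work.MP_f1a024_nt.RW.StmtsJ

/-!
# Block WJ, item N0J: one variable
-/

namespace Pool.Agent.Work.MP_f1a024_nt.RW

open Finset MvPolynomial Filter
open Pool.Agent.Work.MP_f1a024_nt.AH (tau PG val D1 D2 D4 D10a D10b)

theorem N0J_one_le_pb (q : ℕ) : 1 ≤ pb q := by
  unfold pb
  refine Finset.prod_induction (M := ℝ) _ (fun x => 1 ≤ x) (fun a b ha hb => ?_) le_rfl ?_
  · exact one_le_mul_of_one_le_of_one_le ha hb
  · intro p hp
    rw [Finset.mem_filter] at hp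
    exact_mod_cast hp.2.one_lt.le

theorem N0J_nu {D c : ℕ} (h : c ≤ D) : nu 0 D c = c := by
  unfold nu
  have e : (univ.filter fun α : Fin (0 + 1) → Fin (D + 1) => wt α < c).card = (range c).card := by
    refine Finset.card_bij (fun α _ => ((α 0 : Fin (D + 1)) : ℕ)) ?_ ?_ ?_
    · intro α hα
      have h1 := (Finset.mem_filter.1 hα).2
      have h2 : wt α = ((α 0 : Fin (D + 1)) : ℕ) := by
        unfold wt
        rw [Fin.sum_univ_one]
      rw [h2] at h1
      exact Finset.mem_range.2 h1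
    · intro α _ β _ hab
      funext j
      have hj : j = 0 := by
        have := j.isLt
        exact Fin.ext (by simp only [Fin.val_zero]; omega)
      rw [hj]
      exact Fin.ext hab
    · intro b hb
      have hb' := Finset.mem_range.1 hb
      refine ⟨fun _ => ⟨b, by omega⟩, ?_, rfl⟩
      refine Finset.mem_filter.2 ⟨Finset.mem_univ _, ?_⟩
      have h2 : wt (fun _ : Fin (0 + 1) => (⟨b, by omega⟩ : Fin (D + 1))) = b := by
        unfold wt
        rw [Fin.sum_univ_one]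
      rw [h2]
      exact hb'
  rw [e, Finset.card_range]

theorem N0J_main (D : ℕ) (θ : ℝ) (hθ : 0 < θ)
    (h : ∀ q : ℕ, q.Prime → (q : ℝ) ^ D ≤ θ ^ D * pb q) : Th 0 D θ := by
  intro c q hc1 hc2 hq
  have hcD : c ≤ D := by
    rw [zero_add, one_mul] at hc2
    exact hc2
  rw [N0J_nu hcD, add_zero]
  have hpb := N0J_one_le_pb q
  have hpb0 : (0 : ℝ) ≤ pb q := zero_le_one.trans hpb
  have hq0 : (0 : ℝ) ≤ (q : ℝ) := Nat.cast_nonneg q
  have hD : D ≠ 0 := by omega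
  have key : ((q : ℝ) ^ c) ^ D ≤ (θ ^ c * pb q) ^ D := by
    calc ((q : ℝ) ^ c) ^ D = ((q : ℝ) ^ D) ^ c := by rw [← pow_mul, ← pow_mul, mul_comm]
      _ ≤ (θ ^ D * pb q) ^ c := pow_le_pow_left₀ (pow_nonneg hq0 D) (h q hq) c
      _ = (θ ^ c) ^ D * (pb q) ^ c := by rw [mul_pow, ← pow_mul, ← pow_mul, mul_comm D c]
      _ ≤ (θ ^ c) ^ D * (pb q) ^ D :=
          mul_le_mul_of_nonneg_left (pow_le_pow_right₀ hpb hcD) (pow_nonneg (pow_nonneg hθ.le c) D)
      _ = (θ ^ c * pb q) ^ D := by rw [mul_pow]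
  exact (pow_le_pow_iff_left₀ (pow_nonneg hq0 c) (mul_nonneg (pow_nonneg hθ.le c) hpb0) hD).1 key

theorem prfN0J (h : PBJ) : N0J := by
  intro D θ hθ
  refine ⟨N0J_main D θ hθ, N0J_main D _ (Real.rpow_pos_of_pos two_pos _) fun q hq => ?_⟩
  have e : ((2 : ℝ) ^ (((D : ℝ) + 1) / 2)) ^ D = 2 ^ (D * (D + 1) / 2) := by
    have e2 : (((D * (D + 1) / 2 : ℕ)) : ℝ) = (D : ℝ) * ((D : ℝ) + 1) / 2 := by
      rw [Nat.cast_div (Nat.even_mul_succ_self D).two_dvd (by norm_num)]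
      push_cast
      ring
    rw [← Real.rpow_natCast ((2 : ℝ) ^ (((D : ℝ) + 1) / 2)) D, ← Real.rpow_mul (by norm_num),
      ← Real.rpow_natCast 2 (D * (D + 1) / 2), e2]
    congr 1
    ring
  rw [e]
  exact h q D hq

end Pool.Agent.Work.MP_f1a024_nt.RW
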