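import Pool.Agent.Work.MP_f1a024_nt.RW.StmtsJ

/-!
# Block WJ, item N1J: the number of monomials

`(c+k)(c+k+1) ≤ (k+1)(k+2) ν_k(c)` for `k ≥ 1`, `1 ≤ c ≤ (k+1)D`.
-/

namespace Pool.Agent.Work.MP_f1a024_nt.RW

open Finset MvPolynomial Filter
open Pool.Agent.Work.MP_f1a024_nt.AH (tau PG val D1 D2 D4 D10a D10b)

/-- the recursion over the first coordinate -/
theorem N1J_rec (k D c : ℕ) : nu (k + 1) D c = ∑ a : Fin (D + 1), nu k D (c - (a : ℕ)) := by
  unfold nu
  simp only [Finset.card_filter]
  rw [← (Fin.consEquiv (fun _ : Fin (k + 2) => Fin (D + 1))).sum_comp, Fintype.sum_prod_type]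
  refine Finset.sum_congr rfl fun a _ => Finset.sum_congr rfl fun β _ => ?_
  have h : wt (k := k + 1) (D := D) ((Fin.consEquiv (fun _ : Fin (k + 2) => Fin (D + 1))) (a, β))
      = (a : ℕ) + wt (k := k) β := by
    unfold wt
    rw [Fin.sum_univ_succ]
    simp [Fin.consEquiv]
  rw [h]
  by_cases h1 : (a : ℕ) + wt (k := k) β < c
  · rw [if_pos h1, if_pos (by omega)]
  · rw [if_neg h1, if_neg (by omega)]

/-- one variable -/
theorem N1J_zero (D c : ℕ) : nu 0 D c = min c (D + 1) := by
  unfold nu
  rw [Finset.card_filter, ← (Equiv.funUnique (Fin 1) (Fin (D + 1))).symm.sum_comp]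
  have h : ∀ a : Fin (D + 1), wt (k := 0) ((Equiv.funUnique (Fin 1) (Fin (D + 1))).symm a)
      = (a : ℕ) := by
    intro a
    unfold wt
    simp
  simp only [h]
  rw [Fin.sum_univ_eq_sum_range (fun a => if a < c then 1 else 0) (D + 1), ← Finset.card_filter]
  have h2 : (Finset.range (D + 1)).filter (fun a => a < c) = Finset.range (min c (D + 1)) := by
    ext a
    simp only [Finset.mem_filter, Finset.mem_range]
    omega
  rw [h2, Finset.card_range]

/-- the triangle -/
theorem N1J_tri (c : ℕ) : 2 * ∑ a ∈ Finset.range c, (c - a) = c * (c + 1) := by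
  induction c with
  | zero => simp
  | succ c ih =>
    rw [Finset.sum_range_succ']
    have h : ∑ a ∈ Finset.range c, (c + 1 - (a + 1)) = ∑ a ∈ Finset.range c, (c - a) :=
      Finset.sum_congr rfl fun a _ => by omega
    rw [h, mul_add, ih]
    simp only [Nat.sub_zero]
    ring

/-- two variables -/
theorem N1J_one (D c : ℕ) :
    nu 1 D c = ∑ a ∈ Finset.range (D + 1), min (c - a) (D + 1) := by
  rw [N1J_rec 0 D c]
  simp only [N1J_zero]
  rw [Fin.sum_univ_eq_sum_range (fun a => min (c - a) (D + 1)) (D + 1)]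

/-- the case of two variables -/
theorem N1J_base (D c : ℕ) (h1 : 1 ≤ c) (h2 : c ≤ 2 * D) :
    (c + 1) * (c + 2) ≤ 6 * nu 1 D c := by
  rw [N1J_one]
  rcases Nat.lt_or_ge (D + 1) c with h | h
  · -- `c = D + 1 + j`
    obtain ⟨j, rfl⟩ := Nat.exists_eq_add_of_le h.le
    obtain ⟨e, he⟩ : ∃ e, D + 1 = j + e := ⟨D + 1 - j, by omega⟩
    have hS : 2 * ∑ a ∈ Finset.range (D + 1), min (D + 1 + j - a) (D + 1)
        = 2 * (j * (j + e)) + 2 * (e * j) + e * (e + 1) := by
      rw [he, Finset.sum_range_add, mul_add]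
      have hA : ∑ x ∈ Finset.range j, min (j + e + j - x) (j + e) = j * (j + e) := by
        rw [Finset.sum_congr rfl (g := fun _ => j + e)
          (fun x hx => by
            have := Finset.mem_range.mp hx
            omega)]
        simp
      have hB : ∑ x ∈ Finset.range e, min (j + e + j - (j + x)) (j + e)
          = e * j + ∑ x ∈ Finset.range e, (e - x) := by
        rw [Finset.sum_congr rfl (g := fun x => j + (e - x))
          (fun x hx => by
            have := Finset.mem_range.mp hx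
            omega), Finset.sum_add_distrib]
        simp
      have ht := N1J_tri e
      rw [hA, hB, ← ht]
      ring
    have hj : 1 ≤ j := by omega
    have he2 : 1 ≤ e := by omega
    have h3 : (D + 1 + j + 1) * (D + 1 + j + 2)
        ≤ 3 * (2 * (j * (j + e)) + 2 * (e * j) + e * (e + 1)) := by
      rw [he]
      nlinarith [Nat.mul_le_mul hj he2, Nat.mul_le_mul he2 he2, Nat.mul_le_mul hj hj,
        Nat.mul_le_mul_left j he2]
    calc (D + 1 + j + 1) * (D + 1 + j + 2)
        ≤ 3 * (2 * (j * (j + e)) + 2 * (e * j) + e * (e + 1)) := h3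
      _ = 3 * (2 * ∑ a ∈ Finset.range (D + 1), min (D + 1 + j - a) (D + 1)) := by rw [hS]
      _ = 6 * ∑ a ∈ Finset.range (D + 1), min (D + 1 + j - a) (D + 1) := by ring
  · have hle : ∑ a ∈ Finset.range c, (c - a)
        ≤ ∑ a ∈ Finset.range (D + 1), min (c - a) (D + 1) := by
      calc ∑ a ∈ Finset.range c, (c - a)
          = ∑ a ∈ Finset.range c, min (c - a) (D + 1) :=
            Finset.sum_congr rfl fun a _ => by omega
        _ ≤ _ := Finset.sum_le_sum_of_subset (Finset.range_mono h)
    have ht := N1J_tri c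
    nlinarith

/-- the lower bound for the step -/
theorem N1J_two (k D c : ℕ) (hD : 1 ≤ D) : nu k D c + nu k D (c - 1) ≤ nu (k + 1) D c := by
  rw [N1J_rec]
  have h01 : (⟨0, by omega⟩ : Fin (D + 1)) ≠ ⟨1, by omega⟩ := by
    intro h
    have := congrArg Fin.val h
    simp at this
  calc nu k D c + nu k D (c - 1)
      = ∑ a ∈ ({⟨0, by omega⟩, ⟨1, by omega⟩} : Finset (Fin (D + 1))), nu k D (c - (a : ℕ)) := by
        rw [Finset.sum_pair h01]
        simp
    _ ≤ _ := Finset.sum_le_sum_of_subset (Finset.subset_univ _)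

/-- all weights are at most `(k+1)D` -/
theorem N1J_full (k D c : ℕ) (hc : (k + 1) * D < c) : nu k D c = (D + 1) ^ (k + 1) := by
  unfold nu
  rw [Finset.filter_true_of_mem]
  · simp
  · intro α _
    refine lt_of_le_of_lt ?_ hc
    unfold wt
    calc ∑ j, (α j : ℕ) ≤ ∑ _j : Fin (k + 1), D :=
          Finset.sum_le_sum fun j _ => Nat.lt_succ_iff.mp (α j).isLt
      _ = (k + 1) * D := by simp

/-- the zero exponent -/
theorem N1J_pos (k D c : ℕ) (hc : 1 ≤ c) : 1 ≤ nu k D c := by
  unfold nu
  refine Finset.card_pos.mpr ⟨fun _ => 0, ?_⟩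
  simp only [Finset.mem_filter, Finset.mem_univ, true_and]
  unfold wt
  simp
  omega

theorem prfN1J : N1J := by
  intro k D c hk
  induction k, hk using Nat.le_induction generalizing c with
  | base =>
    intro h1 h2
    have := N1J_base D c h1 (by omega)
    calc (c + 1) * (c + 1 + 1) = (c + 1) * (c + 2) := by ring
      _ ≤ 6 * nu 1 D c := this
      _ = (1 + 1) * (1 + 2) * nu 1 D c := by ring
  | succ k hk ih =>
    intro h1 h2
    have hD : 1 ≤ D := by
      rcases Nat.eq_zero_or_pos D with h | h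
      · subst h
        omega
      · exact h
    have htwo := N1J_two k D c hD
    rcases Nat.lt_or_ge ((k + 1) * D) c with h | h
    · have hf := N1J_full k D c h
      have hpow : (D + 1) ^ 2 ≤ (D + 1) ^ (k + 1) :=
        Nat.pow_le_pow_right (by omega) (by omega)
      have hn : (D + 1) ^ 2 ≤ nu (k + 1) D c := by
        calc (D + 1) ^ 2 ≤ nu k D c := by rw [hf]; exact hpow
          _ ≤ nu (k + 1) D c := le_trans (Nat.le_add_right _ _) htwo
      calc (c + (k + 1)) * (c + (k + 1) + 1)
          ≤ ((k + 3) * (D + 1)) * ((k + 2) * (D + 1)) := by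
            refine Nat.mul_le_mul ?_ ?_
            · have : (k + 1 + 1) * D ≤ (k + 3) * D := Nat.mul_le_mul_right D (by omega)
              nlinarith
            · nlinarith
        _ = (k + 1 + 1) * (k + 1 + 2) * (D + 1) ^ 2 := by ring
        _ ≤ (k + 1 + 1) * (k + 1 + 2) * nu (k + 1) D c := Nat.mul_le_mul_left _ hn
    · rcases Nat.lt_or_ge c 2 with hc | hc
      · have hc1 : c = 1 := by omega
        subst hc1
        have hp := N1J_pos (k + 1) D 1 le_rfl
        calc (1 + (k + 1)) * (1 + (k + 1) + 1) = (k + 1 + 1) * (k + 1 + 2) * 1 := by ring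
          _ ≤ _ := Nat.mul_le_mul_left _ hp
      · have i1 := ih c h1 h
        have i2 := ih (c - 1) (by omega) (by omega)
        obtain ⟨b, rfl⟩ : ∃ b, c = b + 1 := ⟨c - 1, by omega⟩
        simp only [Nat.add_sub_cancel] at i2 htwo
        set N := nu (k + 1) D (b + 1) with hN
        set A := nu k D (b + 1) with hA
        set B := nu k D b with hB
        -- `x = b + 1 + k`
        obtain ⟨x, hx⟩ : ∃ x, x = b + 1 + k := ⟨_, rfl⟩
        have hx3 : 3 ≤ x := by omega
        have j1 : 2 * x ^ 2 ≤ (k + 1) * (k + 2) * N := by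
          have e1 : (b + 1 + k) * (b + 1 + k + 1) + (b + k) * (b + k + 1) = 2 * x ^ 2 := by
            rw [hx]; ring
          calc 2 * x ^ 2 = (b + 1 + k) * (b + 1 + k + 1) + (b + k) * (b + k + 1) := e1.symm
            _ ≤ (k + 1) * (k + 2) * A + (k + 1) * (k + 2) * B := Nat.add_le_add i1 i2
            _ = (k + 1) * (k + 2) * (A + B) := by ring
            _ ≤ (k + 1) * (k + 2) * N := Nat.mul_le_mul_left _ htwo
        have j2 : (k + 1) * ((x + 1) * (x + 2)) ≤ (k + 3) * (2 * x ^ 2) := by
          have a1 : 3 * x ≤ x ^ 2 := by nlinarith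
          have a2 : (x + 1) * (x + 2) ≤ 2 * x ^ 2 + 2 := by nlinarith
          have a3 : 2 * (k + 1) ≤ 4 * x ^ 2 := by
            have : k + 1 ≤ x := by omega
            nlinarith
          calc (k + 1) * ((x + 1) * (x + 2)) ≤ (k + 1) * (2 * x ^ 2 + 2) :=
                Nat.mul_le_mul_left _ a2
            _ = (k + 1) * (2 * x ^ 2) + 2 * (k + 1) := by ring
            _ ≤ (k + 1) * (2 * x ^ 2) + 4 * x ^ 2 := Nat.add_le_add_left a3 _
            _ = (k + 3) * (2 * x ^ 2) := by ring
        have j3 : (k + 1) * ((x + 1) * (x + 2)) ≤ (k + 1) * ((k + 2) * (k + 3) * N) := by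
          calc (k + 1) * ((x + 1) * (x + 2)) ≤ (k + 3) * (2 * x ^ 2) := j2
            _ ≤ (k + 3) * ((k + 1) * (k + 2) * N) := Nat.mul_le_mul_left _ j1
            _ = (k + 1) * ((k + 2) * (k + 3) * N) := by ring
        have j4 : (x + 1) * (x + 2) ≤ (k + 2) * (k + 3) * N :=
          Nat.le_of_mul_le_mul_left j3 (by omega)
        calc (b + 1 + (k + 1)) * (b + 1 + (k + 1) + 1) = (x + 1) * (x + 2) := by rw [hx]; ring
          _ ≤ (k + 2) * (k + 3) * N := j4
          _ = (k + 1 + 1) * (k + 1 + 2) * N := by ring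

end Pool.Agent.Work.MP_f1a024_nt.RW
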