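import Pool.Agent.Work.MP_f1a024_nt.RW.StmtsJ

/-!
Block WJ, item NUJ: positions and weights.
-/

namespace Pool.Agent.Work.MP_f1a024_nt.RW

open Finset MvPolynomial Filter
open Pool.Agent.Work.MP_f1a024_nt.AH (tau PG val D1 D2 D4 D10a D10b)

theorem prfNUJ : NUJ := by
  intro k D d A hA r hr
  have hr' : r < d + 1 := by omega
  have hcJ : cJ A r = wt (A ⟨r, hr'⟩) := by
    unfold cJ
    rw [dif_pos hr']
  rw [hcJ]
  constructor
  · have hsub : (univ.filter fun α : Fin (k + 1) → Fin (D + 1) => wt α < wt (A ⟨r, hr'⟩)) ⊆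
        (univ.filter fun l : Fin (d + 1) => (l : ℕ) < r).image A := by
      intro α hα
      rw [mem_filter] at hα
      refine mem_image.mpr ⟨A.symm α, mem_filter.mpr ⟨mem_univ _, ?_⟩, A.apply_symm_apply α⟩
      by_contra h
      have h0 : r ≤ ((A.symm α : Fin (d + 1)) : ℕ) := by omega
      have h1 : (⟨r, hr'⟩ : Fin (d + 1)) ≤ A.symm α := h0
      have h2 : wt (A ⟨r, hr'⟩) ≤ wt (A (A.symm α)) := hA h1
      rw [Equiv.apply_symm_apply] at h2
      have h3 := hα.2
      omega
    have h4 : (univ.filter fun l : Fin (d + 1) => (l : ℕ) < r).card ≤ (range r).card :=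
      card_le_card_of_injOn (fun l => (l : ℕ)) (fun l hl => by simpa using hl)
        (fun a _ b _ h => Fin.ext h)
    rw [card_range] at h4
    unfold nu
    exact (card_le_card hsub).trans (card_image_le.trans h4)
  · unfold wt
    calc ∑ j, ((A ⟨r, hr'⟩ j : Fin (D + 1)) : ℕ) ≤ ∑ _j : Fin (k + 1), D :=
          sum_le_sum fun j _ => Nat.lt_succ_iff.mp (A ⟨r, hr'⟩ j).isLt
      _ = (k + 1) * D := by simp

end Pool.Agent.Work.MP_f1a024_nt.RW
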