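import Pool.Agent.Work.MP_f1a024_nt.RW.StmtsJ

/-!
# Block WJ, item ORJ: the exponents can be numbered by weight
-/

namespace Pool.Agent.Work.MP_f1a024_nt.RW

open Finset MvPolynomial Filter
open Pool.Agent.Work.MP_f1a024_nt.AH (tau PG val D1 D2 D4 D10a D10b)

theorem prfORJ : ORJ := by
  intro k D
  have hcard : Fintype.card (Fin (k + 1) → Fin (D + 1)) = (D + 1) ^ (k + 1) - 1 + 1 := by
    have h : 0 < (D + 1) ^ (k + 1) := Nat.pow_pos (Nat.succ_pos D)
    rw [Fintype.card_fun, Fintype.card_fin, Fintype.card_fin, Nat.sub_add_cancel h]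
  let e := (Fintype.equivFinOfCardEq hcard).symm
  let s := Tuple.sort fun i => wt (e i)
  exact ⟨s.trans e, Tuple.monotone_sort fun i => wt (e i)⟩

end Pool.Agent.Work.MP_f1a024_nt.RW
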