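import Pool.Agent.Work.MP_f1a024_nt.RW.StmtsJ

/-!
# Block WJ, item P6J: assembly of Part II for a general flag (helper46)
-/

set_option autoImplicit false

namespace Pool.Agent.Work.MP_f1a024_nt.RW

open Finset MvPolynomial Filter
open Pool.Agent.Work.MP_f1a024_nt.AH (tau PG val D1 D2 D4 D10a D10b)

theorem prfP6J (hP0 : P0) (hP1 : P1) (hP2 : P2) (hP3a : P3a) (hP3b : P3b)
    (hP4 : P4) (hP5 : P5) : P6J := by
  intro d T W hT hW hsat
  obtain ⟨V, hV⟩ := hP0 Rg (FractionRing Rg) (d + 1) W hsat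
  have hVtop : V ≠ ⊤ := by
    intro h
    apply hW
    rw [Submodule.eq_top_iff']
    intro c
    rw [← hV, h]
    exact Submodule.mem_top
  obtain ⟨m, r, a, hmr, hr, hind, hz⟩ :=
    hP1 (FractionRing Rg) d V T hVtop hT
  obtain ⟨u, hu, hphi, hker⟩ := hP2 Rg (FractionRing Rg) d m r V a hmr hr hind
  obtain ⟨b1, hb1, hup⟩ := hP3a (d + 1) u hu
  obtain ⟨b0, hb0⟩ := hP3b Rg (d + 1) u hphi (dt u b1) hb1
  obtain ⟨y, hy⟩ : ∃ y : Fin (m + 2) → Fin (d + 1) → ℤ, y = Fin.cons b0 (Fin.cons b1 a) := ⟨_, rfl⟩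
  have hy0 : y 0 = b0 := by rw [hy]; rfl
  have hy1 : y 1 = b1 := by rw [hy]; rfl
  have hys : ∀ l : Fin m, y l.succ.succ = a l := by intro l; rw [hy]; rfl
  have hker' : ∀ z : Fin (d + 1) → FractionRing Rg,
      (∑ i, algebraMap Rg (FractionRing Rg) (u i) * z i = 0) ↔
      ∃ c : Fin m → FractionRing Rg,
        (fun i => z i - ∑ l : Fin m, c l * ((y l.succ.succ i : ℤ) : FractionRing Rg)) ∈ V := by
    intro z
    simp only [hys]
    exact hker z
  have hind' : ∀ c : Fin m → FractionRing Rg,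
      (fun i => ∑ l : Fin m, c l * ((y l.succ.succ i : ℤ) : FractionRing Rg)) ∈ V → c = 0 := by
    intro c
    simp only [hys]
    exact hind c
  have hb1' : dt u (y 1) ≠ 0 := by rw [hy1]; exact hb1
  have hb0' : IsRelPrime (dt u (y 0)) (dt u (y 1)) := by rw [hy0, hy1]; exact hb0
  obtain ⟨s, w, hs, hw0, hw, hwsat⟩ :=
    hP4 Rg (FractionRing Rg) d m W V u y hV hker' hind' hb1' hb0'
  obtain ⟨q, μ, hq, hμ0, hμ, hqu⟩ := hP5 Rg (FractionRing Rg) d m W V u y hV hker' hb1'
  have hua : ∀ l : Fin m, dt u (y l.succ.succ) = 0 := by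
    intro l
    rw [hys]
    have h1 : ∑ i, algebraMap Rg (FractionRing Rg) (u i) * ((a l i : ℤ) : FractionRing Rg) = 0 := by
      refine (hker (fun i => ((a l i : ℤ) : FractionRing Rg))).mpr
        ⟨fun l' => if l' = l then 1 else 0, ?_⟩
      have h2 : (fun i => ((a l i : ℤ) : FractionRing Rg) -
          ∑ l' : Fin m, (if l' = l then (1 : FractionRing Rg) else 0) *
            ((a l' i : ℤ) : FractionRing Rg)) = 0 := by
        funext i
        simp
      rw [h2]
      exact V.zero_mem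
    apply IsFractionRing.injective Rg (FractionRing Rg)
    rw [map_zero, ← h1]
    unfold dt
    rw [map_sum]
    refine Finset.sum_congr rfl fun i _ => ?_
    rw [map_mul, map_intCast]
  exact ⟨{ r := r, m := m, hmr := hmr, y := y, u := u, hu := hu, hua := hua
           hspan := fun z h1 h2 => hz z h1 (fun l => by
             have h3 := h2 l
             rw [hys] at h3
             exact h3)
           hu1 := hb1', hdeg := by rw [hy1]; exact hup
           s := s, hs := hs, w := w, hw0 := hw0, hw := hw, hsat := hwsat, q := q, hq := hq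
           μ := μ, hμ0 := hμ0, hμ := hμ, hqu := hqu }⟩

end Pool.Agent.Work.MP_f1a024_nt.RW
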