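import Pool.Agent.Work.MP_f1a024_nt.RW.StmtsJ
import Pool.Agent.Work.MP_f1a024_nt.RW.Z3

/-!
# Block WJ, item PBJ: powers of a prime and the product of the smaller primes
-/

namespace Pool.Agent.Work.MP_f1a024_nt.RW

open Finset MvPolynomial Filter
open Pool.Agent.Work.MP_f1a024_nt.AH (tau PG val D1 D2 D4 D10a D10b)

theorem prfPBJ : PBJ := by
  intro q i hq
  have h := Z3_pow i (q : ℝ) (by exact_mod_cast hq.pos)
  refine h.trans (le_of_eq ?_)
  congr 1
  unfold Z3_P pb
  rw [Nat.ceil_natCast, Nat.cast_prod]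

end Pool.Agent.Work.MP_f1a024_nt.RW
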