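import Pool.Agent.Work.MP_f1a024_nt.RW.StmtsJ

/-!
# Block WJ, item PLJ: polynomials as sums over the box
-/

namespace Pool.Agent.Work.MP_f1a024_nt.RW

open Finset MvPolynomial Filter
open Pool.Agent.Work.MP_f1a024_nt.AH (tau)

/-- the exponent vector with number `i` -/
noncomputable def PLJ_e {k D d : ℕ} (A : Fin (d + 1) ≃ (Fin (k + 1) → Fin (D + 1)))
    (i : Fin (d + 1)) : Fin (k + 1) →₀ ℕ :=
  Finsupp.equivFunOnFinite.symm fun j => (A i j : ℕ)

theorem PLJ_e_apply {k D d : ℕ} (A : Fin (d + 1) ≃ (Fin (k + 1) → Fin (D + 1)))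
    (i : Fin (d + 1)) (j : Fin (k + 1)) : PLJ_e A i j = (A i j : ℕ) := rfl

theorem PLJ_inj {k D d : ℕ} (A : Fin (d + 1) ≃ (Fin (k + 1) → Fin (D + 1))) :
    Function.Injective (PLJ_e A) := by
  intro i i' h
  apply A.injective
  funext j
  have := DFunLike.congr_fun h j
  rw [PLJ_e_apply, PLJ_e_apply] at this
  exact Fin.ext this

theorem PLJ_surj {k D d : ℕ} (A : Fin (d + 1) ≃ (Fin (k + 1) → Fin (D + 1)))
    (P : MvPolynomial (Fin (k + 1)) ℤ) (hP : ∀ j, P.degreeOf j ≤ D) (b : Fin (k + 1) →₀ ℕ)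
    (hb : b ∈ P.support) : ∃ i, PLJ_e A i = b := by
  have hj : ∀ j, b j < D + 1 := fun j =>
    Nat.lt_succ_of_le ((MvPolynomial.monomial_le_degreeOf j hb).trans (hP j))
  refine ⟨A.symm fun j => ⟨b j, hj j⟩, ?_⟩
  ext j
  rw [PLJ_e_apply, Equiv.apply_symm_apply]

theorem prfPLJ : PLJ := by
  intro k D d A P hP
  refine ⟨fun hne h0 => ?_, fun t => ?_⟩
  · obtain ⟨b, hb⟩ := MvPolynomial.ne_zero_iff.1 hne
    obtain ⟨i, hi⟩ := PLJ_surj A P hP b (MvPolynomial.mem_support_iff.2 hb)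
    have h1 : P.coeff (PLJ_e A i) = 0 := congrFun h0 i
    rw [hi] at h1
    exact hb h1
  · have h1 : MvPolynomial.aeval t P =
        ∑ b ∈ P.support, ((P.coeff b : ℤ) : ℂ) * ∏ j, t j ^ b j := by
      rw [MvPolynomial.aeval_def, MvPolynomial.eval₂_eq']
      rfl
    have h2 : ∑ i, ((P.coeff (PLJ_e A i) : ℤ) : ℂ) * ∏ j, t j ^ (PLJ_e A i j) =
        ∑ b ∈ Finset.univ.image (PLJ_e A), ((P.coeff b : ℤ) : ℂ) * ∏ j, t j ^ b j := by
      rw [Finset.sum_image fun i _ i' _ h => PLJ_inj A h]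
    have h3 : ∑ b ∈ P.support, ((P.coeff b : ℤ) : ℂ) * ∏ j, t j ^ b j =
        ∑ b ∈ Finset.univ.image (PLJ_e A), ((P.coeff b : ℤ) : ℂ) * ∏ j, t j ^ b j := by
      refine Finset.sum_subset ?_ ?_
      · intro b hb
        obtain ⟨i, hi⟩ := PLJ_surj A P hP b hb
        exact Finset.mem_image.2 ⟨i, Finset.mem_univ _, hi⟩
      · intro b _ hb
        rw [MvPolynomial.notMem_support_iff.1 hb, Int.cast_zero, zero_mul]
    rw [h1, h3, ← h2]
    rfl

end Pool.Agent.Work.MP_f1a024_nt.RW
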