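import Pool.Agent.Work.MP_f1a024_nt.RW.StmtsJ

/-!
# Item POJ: a polynomial function which is zero everywhere has zero coefficients
-/

namespace Pool.Agent.Work.MP_f1a024_nt.RW

open Finset MvPolynomial Filter
open Pool.Agent.Work.MP_f1a024_nt.AH (tau)

theorem prfPOJ : POJ := by
  intro k D lam F h α hα
  have hinj : Function.Injective
      (fun β : Fin (k + 1) → Fin (D + 1) =>
        (Finsupp.equivFunOnFinite.symm fun j => (β j : ℕ) : Fin (k + 1) →₀ ℕ)) := by
    intro β γ hβγ
    funext j
    have h1 := DFunLike.congr_fun hβγ j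
    simp only [Finsupp.equivFunOnFinite_symm_apply_apply] at h1
    exact Fin.ext h1
  have hP : (∑ β ∈ F, MvPolynomial.monomial
      (Finsupp.equivFunOnFinite.symm fun j => (β j : ℕ) : Fin (k + 1) →₀ ℕ) (lam β)) = 0 := by
    apply MvPolynomial.funext
    intro y
    rw [map_zero, map_sum, ← h y]
    apply Finset.sum_congr rfl
    intro β _
    rw [MvPolynomial.eval_monomial, Finsupp.prod_fintype _ _ (fun i => pow_zero _)]
    rfl
  have h2 := congrArg (MvPolynomial.coeff
    (Finsupp.equivFunOnFinite.symm fun j => (α j : ℕ) : Fin (k + 1) →₀ ℕ)) hP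
  rw [MvPolynomial.coeff_sum, MvPolynomial.coeff_zero, Finset.sum_eq_single α] at h2
  · rw [MvPolynomial.coeff_monomial, if_pos rfl] at h2
    exact h2
  · intro β _ hβ
    rw [MvPolynomial.coeff_monomial, if_neg]
    intro h3
    exact hβ (hinj h3)
  · intro h3
    exact absurd hα h3

end Pool.Agent.Work.MP_f1a024_nt.RW
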