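import Pool.Agent.Work.MP_f1a024_nt.RW.StmtsJ

/-!
# Block WJ, item PSJ: the ring homomorphism from arithmetic functions to power series
-/

namespace Pool.Agent.Work.MP_f1a024_nt.RW

open Finset MvPolynomial Filter
open Pool.Agent.Work.MP_f1a024_nt.AH (tau PG val D1 D2 D4 D10a D10b)

/-- a product of powers of primes is `1` only if all exponents are `0` -/
lemma PSJ_prod_eq_one (k : ℕ) (S : Fin (k + 1) → ℕ) (hS : ∀ j, (S j).Prime)
    (e : Fin (k + 1) → ℕ) (h : ∏ j, S j ^ e j = 1) : e = 0 := by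
  funext j
  have h1 : S j ^ e j ∣ 1 := by
    rw [← h]
    exact Finset.dvd_prod_of_mem (fun j => S j ^ e j) (Finset.mem_univ j)
  have h2 : S j ^ e j = 1 := Nat.dvd_one.mp h1
  by_contra h3
  have h4 : e j ≠ 0 := h3
  have h5 : 1 < S j ^ e j := Nat.one_lt_pow h4 (hS j).one_lt
  omega

/-- PSJ -/
theorem prfPSJ (h : MUJ) : PSJ := by
  intro k S v hS hp
  have hone : ∀ n : ℕ, ∑ e ∈ Finset.piAntidiag (univ : Finset (Fin (k + 1))) n,
      (1 : ArithmeticFunction ℚ) (∏ j, S j ^ e j) * ∏ j, v j ^ e j = if n = 0 then 1 else 0 := by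
    intro n
    by_cases hn : n = 0
    · subst hn
      rw [if_pos rfl, Finset.piAntidiag_zero, Finset.sum_singleton]
      simp
    · rw [if_neg hn]
      refine Finset.sum_eq_zero fun e he => ?_
      have h0 : ∏ j, S j ^ e j ≠ 1 := by
        intro h1
        have h2 := PSJ_prod_eq_one k S hp e h1
        rw [Finset.mem_piAntidiag] at he
        apply hn
        rw [← he.1, h2]
        simp
      rw [ArithmeticFunction.one_apply_ne h0, zero_mul]
  let G : ArithmeticFunction ℚ → PowerSeries ℚ := fun f => PowerSeries.mk fun n =>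
    ∑ e ∈ Finset.piAntidiag (univ : Finset (Fin (k + 1))) n,
      f (∏ j, S j ^ e j) * ∏ j, v j ^ e j
  have hG : ∀ f n, PowerSeries.coeff n (G f) =
      ∑ e ∈ Finset.piAntidiag (univ : Finset (Fin (k + 1))) n,
        f (∏ j, S j ^ e j) * ∏ j, v j ^ e j := fun f n => PowerSeries.coeff_mk _ _
  refine ⟨⟨⟨⟨G, ?_⟩, ?_⟩, ?_, ?_⟩, fun f n => hG f n⟩
  · ext n
    rw [hG, hone n, PowerSeries.coeff_one]
  · intro f g
    ext n
    simp only []
    rw [hG, PowerSeries.coeff_mul, h k S v hS hp f g n]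
    refine Finset.sum_congr rfl fun ab _ => ?_
    rw [hG, hG]
  · ext n
    simp only []
    rw [hG, map_zero]
    refine Finset.sum_eq_zero fun e _ => ?_
    rw [ArithmeticFunction.zero_apply, zero_mul]
  · intro f g
    ext n
    simp only []
    rw [map_add, hG, hG, hG, ← Finset.sum_add_distrib]
    refine Finset.sum_congr rfl fun e _ => ?_
    rw [ArithmeticFunction.add_apply, add_mul]

end Pool.Agent.Work.MP_f1a024_nt.RW
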