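import Pool.Agent.Work.MP_f1a024_nt.RW.StmtsJ

/-!
# Block WJ, item SUJ: the linear forms are independent
-/

namespace Pool.Agent.Work.MP_f1a024_nt.RW

open Finset MvPolynomial Filter
open Pool.Agent.Work.MP_f1a024_nt.AH (tau PG val D1 D2 D4 D10a D10b)

theorem SUJ_ker (h : DEJ) {k : ℕ} {s S : Fin (k + 1) → ℕ} (hs : Function.Injective s)
    (hS : Function.Injective S) (hpos : ∀ j, 0 < S j) (c : Fin (k + 1) → ℚ)
    (hc : ∀ i, ∑ j, c j * (1 / (S i : ℚ) ^ s j) = 0) : c = 0 := by
  by_contra hne
  obtain ⟨j0, hj0⟩ : ∃ j, c j ≠ 0 := by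
    by_contra hcon
    push Not at hcon
    exact hne (funext hcon)
  set P : Polynomial ℚ := ∑ j, Polynomial.monomial (s j) (c j) with hPd
  have hcoeff : ∀ j, P.coeff (s j) = c j := by
    intro j
    rw [hPd, Polynomial.finsetSum_coeff, Finset.sum_eq_single j]
    · rw [Polynomial.coeff_monomial, if_pos rfl]
    · intro b _ hb
      rw [Polynomial.coeff_monomial, if_neg (fun e => hb (hs e))]
    · intro hj
      exact absurd (Finset.mem_univ j) hj
  have hP : P ≠ 0 := by
    intro h0
    apply hj0
    rw [← hcoeff j0, h0, Polynomial.coeff_zero]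
  have hcard : P.support.card ≤ k + 1 := by
    have hsub : P.support ⊆ (Finset.univ : Finset (Fin (k + 1))).image s := by
      intro m hm
      rw [Polynomial.mem_support_iff] at hm
      by_contra hcon
      apply hm
      rw [hPd, Polynomial.finsetSum_coeff]
      apply Finset.sum_eq_zero
      intro j _
      rw [Polynomial.coeff_monomial, if_neg]
      intro e
      exact hcon (Finset.mem_image.2 ⟨j, Finset.mem_univ j, e⟩)
    calc P.support.card ≤ ((Finset.univ : Finset (Fin (k + 1))).image s).card :=
          Finset.card_le_card hsub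
      _ ≤ (Finset.univ : Finset (Fin (k + 1))).card := Finset.card_image_le
      _ = k + 1 := by rw [Finset.card_univ, Fintype.card_fin]
  obtain ⟨i, hi⟩ := h k P (fun i => 1 / (S i : ℚ)) hP hcard (by
    intro a b hab
    simp only [one_div, inv_inj] at hab
    exact hS (by exact_mod_cast hab)) (by
    intro i
    have : (0 : ℚ) < S i := by exact_mod_cast hpos i
    positivity)
  apply hi
  rw [hPd, Polynomial.eval_finsetSum, ← hc i]
  apply Finset.sum_congr rfl
  intro j _
  rw [Polynomial.eval_monomial, div_pow, one_pow]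

theorem prfSUJ (h : DEJ) : SUJ := by
  intro k s S hs hS hpos y
  set M : Matrix (Fin (k + 1)) (Fin (k + 1)) ℚ :=
    Matrix.of fun j i => 1 / (S i : ℚ) ^ s j with hM
  have hinj : Function.Injective M.vecMul := by
    intro a b hab
    have h0 : a - b = 0 := by
      apply SUJ_ker h hs hS hpos
      intro i
      have h1 := congrFun hab i
      simp only [Matrix.vecMul, dotProduct, hM, Matrix.of_apply] at h1
      have h2 : ∑ j, (a - b) j * (1 / (S i : ℚ) ^ s j) =
          ∑ j, a j * (1 / (S i : ℚ) ^ s j) - ∑ j, b j * (1 / (S i : ℚ) ^ s j) := by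
        rw [← Finset.sum_sub_distrib]
        apply Finset.sum_congr rfl
        intro j _
        rw [Pi.sub_apply]
        ring
      rw [h2, h1, sub_self]
    exact sub_eq_zero.1 h0
  have hu : IsUnit M := Matrix.vecMul_injective_iff_isUnit.1 hinj
  obtain ⟨v, hv⟩ := (Matrix.mulVec_surjective_iff_isUnit.2 hu) y
  refine ⟨v, fun j => ?_⟩
  rw [← hv]
  simp only [Matrix.mulVec, dotProduct, hM, Matrix.of_apply]
  apply Finset.sum_congr rfl
  intro i _
  ring

end Pool.Agent.Work.MP_f1a024_nt.RW
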