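import Pool.Agent.Work.MP_f1a024_nt.RW.StmtsJ

/-!
# VAJ: the images of the functions `f_s`
-/

namespace Pool.Agent.Work.MP_f1a024_nt.RW

open Finset MvPolynomial Filter
open Pool.Agent.Work.MP_f1a024_nt.AH (tau PG val D1 D2 D4 D10a D10b)

/-- the vectors with sum `1` are the unit vectors -/
theorem VAJ_piAntidiag_one (k : ℕ) :
    Finset.piAntidiag (univ : Finset (Fin (k + 1))) 1 =
      univ.image fun i : Fin (k + 1) => (Pi.single i 1 : Fin (k + 1) → ℕ) := by
  ext e
  simp only [Finset.mem_piAntidiag, mem_univ, implies_true, and_true, mem_image, true_and]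
  constructor
  · intro h
    have h1 : ∃ i, e i ≠ 0 := by
      by_contra hc
      push Not at hc
      rw [Finset.sum_eq_zero (fun i _ => hc i)] at h
      omega
    obtain ⟨i, hi⟩ := h1
    refine ⟨i, ?_⟩
    have h2 : e i + ∑ j ∈ univ.erase i, e j = 1 := by
      rw [Finset.add_sum_erase univ e (mem_univ i)]
      exact h
    have h3 : e i = 1 := by omega
    have h4 : ∑ j ∈ univ.erase i, e j = 0 := by omega
    rw [Finset.sum_eq_zero_iff] at h4
    funext j
    by_cases hj : j = i
    · subst hj
      simp [h3]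
    · rw [Pi.single_eq_of_ne hj, h4 j (by simp [hj])]
  · rintro ⟨i, rfl⟩
    simp

theorem prfVAJ : VAJ := by
  intro hD k S v _ hP Ψ hΨ s
  have h0 : PowerSeries.coeff 0 (Ψ (ft s)) = 1 := by
    rw [hΨ]
    have : Finset.piAntidiag (univ : Finset (Fin (k + 1))) 0 = {0} := by
      simp
    rw [this, Finset.sum_singleton]
    simp [ft, hD.1.1]
  have h1 : PowerSeries.coeff 1 (Ψ (ft s)) = -2 * ∑ i, v i / (S i : ℚ) ^ s := by
    rw [hΨ, VAJ_piAntidiag_one, Finset.sum_image]
    · rw [Finset.mul_sum]
      refine Finset.sum_congr rfl fun i _ => ?_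
      have e1 : ∏ j, S j ^ (Pi.single i 1 : Fin (k + 1) → ℕ) j = S i := by
        rw [Finset.prod_eq_single i]
        · simp
        · intro j _ hj
          simp [Pi.single_eq_of_ne hj]
        · intro h
          exact absurd (mem_univ i) h
      have e2 : ∏ j, v j ^ (Pi.single i 1 : Fin (k + 1) → ℕ) j = v i := by
        rw [Finset.prod_eq_single i]
        · simp
        · intro j _ hj
          simp [Pi.single_eq_of_ne hj]
        · intro h
          exact absurd (mem_univ i) h
      rw [e1, e2]
      have e3 : ft s (S i) = -2 / (S i : ℚ) ^ s := by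
        rw [← hD.2 (S i) (hP i)]
        rfl
      rw [e3]
      ring
    · intro i _ j _ hij
      by_contra hne
      have := congrFun hij i
      simp only [Pi.single_eq_same] at this
      rw [Pi.single_eq_of_ne hne] at this
      omega
  have h2 : PowerSeries.X ∣ Ψ (ft s) - 1 := by
    rw [PowerSeries.X_dvd_iff, ← PowerSeries.coeff_zero_eq_constantCoeff_apply, map_sub, h0]
    simp
  obtain ⟨K, hK⟩ := h2
  refine ⟨K, by rw [← hK]; ring, ?_⟩
  rw [← PowerSeries.coeff_zero_eq_constantCoeff_apply, ← h1,
    ← PowerSeries.coeff_succ_X_mul, ← hK, map_sub]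
  simp [PowerSeries.coeff_one]

end Pool.Agent.Work.MP_f1a024_nt.RW
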