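import Pool.Agent.Work.MP_f1a024_nt.RW.StmtsJ

/-!
# Block WJ, item Z2J: values of the coefficients
-/

namespace Pool.Agent.Work.MP_f1a024_nt.RW

open Finset MvPolynomial Filter
open Pool.Agent.Work.MP_f1a024_nt.AH (tau PG val D1 D2 D4 D10a D10b)

theorem Z2J_nnsum (hNB : NB) {k : ℕ} (S : Fin (k + 1) → Nat.Primes) (e : Fin (k + 1) → ℕ)
    (s : Finset (Fin (k + 1))) :
    nn (∑ j ∈ s, Finsupp.single (S j) (e j)) = ∏ j ∈ s, ((S j : ℕ)) ^ e j := by
  classical
  obtain ⟨h0, hadd, -, -, -, -, -, -, hsing, -, -⟩ := hNB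
  induction s using Finset.induction_on with
  | empty => simp [h0]
  | insert j s hj ih =>
    rw [Finset.sum_insert hj, Finset.prod_insert hj, hadd, hsing, ih]

theorem Z2J_zero {k : ℕ} (S : Fin (k + 1) → Nat.Primes) (e : Fin (k + 1) → ℕ) (q : Nat.Primes)
    (hq : ∀ j, q ≠ S j) : (∑ j, Finsupp.single (S j) (e j) : Ex) q = 0 := by
  rw [Finsupp.finsetSum_apply]
  refine Finset.sum_eq_zero fun j _ => ?_
  exact Finsupp.single_eq_of_ne (hq j)

/-- item Z2J -/
theorem prfZ2J (hNB : NB) (hUB : UB) : Z2J := by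
  intro k d f u κ S h2 h3 e
  have hns := Z2J_nnsum hNB S e univ
  obtain ⟨-, hadd, hpos, -, hnnex, hexnn, hle, -, hsing, -, -⟩ := hNB
  obtain ⟨-, -, hup1, -, hup, -, -⟩ := hUB
  set M : ℕ := ∏ j, ((S j : ℕ)) ^ e j with hM
  have hppos : 0 < M := Finset.prod_pos fun j _ => pow_pos (S j).2.pos (e j)
  unfold uvJ
  rw [Finset.sum_eq_single (nn κ, M)]
  · simp only [hexnn]
  · rintro ⟨m₁, m₂⟩ hmem hne
    rw [Nat.mem_divisorsAntidiagonal] at hmem
    obtain ⟨hprod, hnz⟩ := hmem
    have hprod' : m₁ * m₂ = nn κ * M := hprod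
    have hm₁ : 0 < m₁ := by
      rcases Nat.eq_zero_or_pos m₁ with h | h
      · subst h
        rw [Nat.zero_mul] at hprod'
        exact absurd hprod'.symm hnz
      · exact h
    refine Finset.sum_eq_zero fun i _ => ?_
    by_cases hc : (u i).coeff (ex m₁) = 0
    · show (u i).coeff (ex m₁) * _ = 0
      rw [hc, zero_mul]
    · exfalso
      have hs : ex m₁ ∈ (u i).support := MvPolynomial.mem_support_iff.mpr hc
      have h4 : nn κ ≤ m₁ := by
        have := h2 i _ hs
        rwa [hnnex m₁ hm₁] at this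
      have h5 : ex m₁ ≤ up u := le_trans (hup1 _ _ hs) (hup _ u i)
      have h6 : ex m₁ ≤ κ + ∑ j, Finsupp.single (S j) (e j) := by
        rw [hle, hnnex m₁ hm₁, hadd, hns]
        exact ⟨m₂, hprod'.symm⟩
      have h7 : ex m₁ ≤ κ := by
        intro q
        by_cases hq : ∃ j, q = S j
        · obtain ⟨j, rfl⟩ := hq
          rw [← h3 j]
          exact h5 (S j)
        · push Not at hq
          have := h6 q
          rw [Finsupp.add_apply, Z2J_zero S e q hq, add_zero] at this
          exact this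
      have h8 : m₁ ∣ nn κ := by
        have := (hle _ _).mp h7
        rwa [hnnex m₁ hm₁] at this
      have h9 : m₁ = nn κ := le_antisymm (Nat.le_of_dvd (hpos κ) h8) h4
      have h10 : m₂ = M := by
        rw [h9] at hprod'
        exact Nat.eq_of_mul_eq_mul_left (hpos κ) hprod'
      exact hne (by rw [h9, h10])
  · intro h
    exfalso
    apply h
    rw [Nat.mem_divisorsAntidiagonal]
    exact ⟨rfl, (Nat.mul_pos (hpos κ) hppos).ne'⟩

end Pool.Agent.Work.MP_f1a024_nt.RW
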