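import Pool.Agent.Work.MP_f1a024_nt.RW.StmtsJ
import Pool.Agent.Work.MP_f1a024_nt.RW.Z2

/-!
# Block WJ, item Z3J
-/

namespace Pool.Agent.Work.MP_f1a024_nt.RW

open Finset MvPolynomial Filter
open Pool.Agent.Work.MP_f1a024_nt.AH (tau PG val D1 D2 D4 D10a D10b)

/-- item Z3J -/
theorem prfZ3J (h : Z2J) : Z3J := by
  intro k d f T c hZL r m u a κ S hr h1 h2 h3 hS h4 h5
  by_contra hcon
  push Not at hcon
  have hin : Function.Injective (fun j => ((S j : Nat.Primes) : ℕ)) := by
    intro i j hij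
    exact hS (Nat.Primes.coe_nat_injective hij)
  have hz := h4 (fun i => (u i).coeff κ)
    (fun t ht => hZL r hr (fun j => ((S j : Nat.Primes) : ℕ)) hin (fun j => (S j).2)
      (fun i => (u i).coeff κ)
      (fun e he => by rw [← h k d f u κ S h2 h3 e]; exact hcon e he) t ht)
    (fun l => by rw [← Z2_coeff_dt, h5 l, MvPolynomial.coeff_zero])
  obtain ⟨i, hi⟩ := h1
  exact (MvPolynomial.mem_support_iff.mp hi) (congrFun hz i)

end Pool.Agent.Work.MP_f1a024_nt.RW
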