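import Pool.Agent.Work.MP_f1a024_nt.RW.StmtsJ

/-! # Block WJ, item Z4J: the zero estimate (adapted from `RW/Z4q.lean`) -/

set_option autoImplicit false

namespace Pool.Agent.Work.MP_f1a024_nt.RW

open Finset MvPolynomial Filter
open Pool.Agent.Work.MP_f1a024_nt.AH (tau PG val D1 D2 D4 D10a D10b)

theorem Z4J_nn_sum (hNB : NB) (T : Finset Nat.Primes) :
    nn (∑ q ∈ T, Finsupp.single q 1) = ∏ q ∈ T, (q : ℕ) := by
  classical
  obtain ⟨h0, h1, -, -, -, -, -, -, h2, -⟩ := hNB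
  induction T using Finset.induction_on with
  | empty => rw [Finset.sum_empty, Finset.prod_empty, h0]
  | insert q T hq ih =>
    rw [Finset.sum_insert hq, Finset.prod_insert hq, h1, ih, h2, pow_one]

theorem Z4J_sum_single (T : Finset Nat.Primes) (q : Nat.Primes) :
    (∑ q' ∈ T, Finsupp.single q' 1 : Ex) q = if q ∈ T then 1 else 0 := by
  classical
  rw [Finsupp.finsetSum_apply]
  simp only [Finsupp.single_apply]
  rw [Finset.sum_ite_eq']

theorem prfZ4J (hNB : NB) (hUB : UB) (hZ3 : Z3J) : Z4J := by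
  classical
  intro k d f T c hZL r m u a hrd hu hspan hdt
  obtain ⟨n0, nadd, npos, ninj, nex, -, nle, -, -, -⟩ := id hNB
  obtain ⟨-, -, u3, -, u5, -, -⟩ := hUB
  -- the lowest exponent
  obtain ⟨i0, hi0⟩ := hu
  set S : Finset Ex := univ.biUnion fun i => (u i).support with hS
  have hSne : S.Nonempty := by
    obtain ⟨b, hb⟩ := MvPolynomial.support_nonempty.2 hi0
    exact ⟨b, Finset.mem_biUnion.2 ⟨i0, Finset.mem_univ _, hb⟩⟩
  obtain ⟨κ, hκ, hκmin⟩ := Finset.exists_min_image S nn hSne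
  obtain ⟨i1, -, hi1⟩ := Finset.mem_biUnion.1 hκ
  have h1 : ∃ i, κ ∈ (u i).support := ⟨i1, hi1⟩
  have h2 : ∀ i, ∀ b ∈ (u i).support, nn κ ≤ nn b := fun i b hb =>
    hκmin b (Finset.mem_biUnion.2 ⟨i, Finset.mem_univ _, hb⟩)
  have hκup : κ ≤ up u := (u3 (u i1) κ hi1).trans (u5 _ u i1)
  have hz : ∀ S : Fin (k + 1) → Nat.Primes, (∀ j, up u (S j) = κ (S j)) →
      Function.Injective S → ∃ e : Fin (k + 1) → ℕ, ∑ j, e j ≤ c r ∧
        uvJ f u (nn κ * ∏ j, ((S j : ℕ)) ^ e j) ≠ 0 := fun S hS1 hS2 =>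
    hZ3 k d f T c hZL r m u a κ S hrd h1 h2 hS1 hS2 hspan hdt
  have hupκ : nn κ ≤ nn (up u) := Nat.le_of_dvd (npos _) ((nle _ _).1 hκup)
  -- primes outside the support
  have hinf : ((↑(up u).support : Set Nat.Primes)ᶜ).Infinite :=
    ((up u).support.finite_toSet).infinite_compl
  let g := hinf.natEmbedding
  obtain ⟨e0, he0, hne0⟩ := hz (fun j => (g (j : ℕ)).1)
    (fun j => by
      have h3 : up u (g (j : ℕ)).1 = 0 := by
        have h4 := (g (j : ℕ)).2
        rw [Set.mem_compl_iff, Finset.mem_coe] at h4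
        exact Finsupp.notMem_support_iff.1 h4
      have h5 : κ (g (j : ℕ)).1 = 0 := Nat.le_zero.1 (h3 ▸ hκup (g (j : ℕ)).1)
      rw [h3, h5])
    (fun i j hij => Fin.ext (g.injective (Subtype.ext hij)))
  have hex : ∃ k', uvJ f u k' ≠ 0 := ⟨_, hne0⟩
  set k₃ := Nat.find hex with hk₃
  have hk1 : uvJ f u k₃ ≠ 0 := Nat.find_spec hex
  have hk2 : ∀ k' < k₃, uvJ f u k' = 0 := fun k' hk => by
    by_contra h
    exact Nat.find_min hex hk h
  rcases Nat.eq_zero_or_pos (c r) with hr | hr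
  · -- `c r = 0`
    refine ⟨k₃, 2, Nat.prime_two, hk1, hk2, fun _ => ?_, fun h => by omega⟩
    have h3 : ∀ j, e0 j = 0 := by
      have h4 : ∑ j, e0 j = 0 := by omega
      intro j
      exact Finset.sum_eq_zero_iff.1 h4 j (mem_univ j)
    have h5 : uvJ f u (nn κ) ≠ 0 := by
      have h6 := hne0
      rw [Finset.prod_eq_one (fun j _ => by rw [h3 j, pow_zero]), mul_one] at h6
      exact h6
    exact (Nat.find_min' hex h5).trans hupκ
  · -- `c r ≥ 1`
    have hexq : ∃ q : ℕ, q.Prime ∧ k₃ ≤ nn κ * q ^ c r := by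
      obtain ⟨q, hq1, hq2⟩ := Nat.exists_infinite_primes k₃
      refine ⟨q, hq2, ?_⟩
      calc k₃ ≤ q := hq1
        _ ≤ q ^ c r := Nat.le_self_pow hr.ne' q
        _ ≤ nn κ * q ^ c r := Nat.le_mul_of_pos_left _ (npos κ)
    set q := Nat.find hexq with hq
    obtain ⟨hqp, hqk⟩ : q.Prime ∧ k₃ ≤ nn κ * q ^ c r := Nat.find_spec hexq
    have hqmin : ∀ p : ℕ, p.Prime → p < q → nn κ * p ^ c r < k₃ := by
      intro p hp hpq
      by_contra h
      exact Nat.find_min hexq hpq ⟨hp, by omega⟩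
    refine ⟨k₃, q, hqp, hk1, hk2, fun h => by omega, fun _ => ?_⟩
    set P := (range q).filter Nat.Prime with hP
    set T' : Finset Nat.Primes := P.subtype (fun p => p.Prime) with hT
    have hPT : ∏ q ∈ T', (q : ℕ) = ∏ p ∈ P, p := by
      have := Finset.prod_subtype_of_mem (s := P) (fun p : ℕ => p) (p := fun p => p.Prime)
        (fun x hx => (Finset.mem_filter.1 hx).2)
      exact this
    have hTlt : ∀ p ∈ T', (p : ℕ) < q := fun p hp =>
      Finset.mem_range.1 (Finset.mem_filter.1 (Finset.mem_subtype.1 hp)).1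
    set U := T'.filter (fun p => up u p = κ p) with hU
    set W := T'.filter (fun p => ¬ up u p = κ p) with hW
    -- at most `k` unused primes
    have hUk : U.card ≤ k := by
      by_contra hc
      have hc' : Fintype.card (Fin (k + 1)) ≤ Fintype.card U := by
        rw [Fintype.card_fin, Fintype.card_coe]
        omega
      obtain ⟨em⟩ := Function.Embedding.nonempty_of_card_le hc'
      obtain ⟨e, he1, he2⟩ := hz (fun j => (em j).1)
        (fun j => (Finset.mem_filter.1 (em j).2).2)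
        (fun i j hij => em.injective (Subtype.ext hij))
      obtain ⟨j0, -, hj0⟩ := Finset.exists_max_image univ (fun j : Fin (k + 1) =>
        (((em j).1 : Nat.Primes) : ℕ)) ⟨0, mem_univ _⟩
      have hlt : (((em j0).1 : Nat.Primes) : ℕ) < q :=
        hTlt _ (Finset.mem_filter.1 (em j0).2).1
      have h3 : ∏ j, (((em j).1 : Nat.Primes) : ℕ) ^ e j ≤
          (((em j0).1 : Nat.Primes) : ℕ) ^ c r := by
        calc ∏ j, (((em j).1 : Nat.Primes) : ℕ) ^ e j
            ≤ ∏ j, (((em j0).1 : Nat.Primes) : ℕ) ^ e j :=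
              Finset.prod_le_prod' fun j _ => Nat.pow_le_pow_left (hj0 j (mem_univ j)) _
          _ = (((em j0).1 : Nat.Primes) : ℕ) ^ ∑ j, e j := Finset.prod_pow_eq_pow_sum _ _ _
          _ ≤ (((em j0).1 : Nat.Primes) : ℕ) ^ c r :=
              Nat.pow_le_pow_right (em j0).1.2.pos he1
      refine he2 (hk2 _ (lt_of_le_of_lt (Nat.mul_le_mul_left _ h3) ?_))
      exact hqmin _ (em j0).1.2 hlt
    have hη : κ + ∑ q ∈ W, Finsupp.single q 1 ≤ up u := by
      intro p
      rw [Finsupp.add_apply, Z4J_sum_single]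
      split_ifs with hp
      · have h3 := (Finset.mem_filter.1 hp).2
        have h4 := hκup p
        have h5 : κ p ≤ up u p := h4
        omega
      · exact hκup p
    have h3 : nn κ * ∏ p ∈ W, (p : ℕ) ≤ nn (up u) := by
      have h4 := Nat.le_of_dvd (npos _) ((nle _ _).1 hη)
      rw [nadd, Z4J_nn_sum hNB] at h4
      exact h4
    have h4 : ∏ p ∈ P, p ≤ q ^ k * ∏ p ∈ W, (p : ℕ) := by
      rw [← hPT, ← Finset.prod_filter_mul_prod_filter_not T' (fun p => up u p = κ p)]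
      refine Nat.mul_le_mul_right _ ?_
      calc ∏ p ∈ U, (p : ℕ) ≤ q ^ U.card := by
            refine Finset.prod_le_pow_card _ _ _ fun p hp => ?_
            exact (hTlt p (Finset.mem_filter.1 hp).1).le
        _ ≤ q ^ k := Nat.pow_le_pow_right hqp.pos hUk
    have h5 : k₃ * ∏ p ∈ P, p ≤ q ^ (c r + k) * nn (up u) := by
      calc k₃ * ∏ p ∈ P, p ≤ (nn κ * q ^ c r) * (q ^ k * ∏ p ∈ W, (p : ℕ)) :=
            Nat.mul_le_mul hqk h4
        _ = q ^ (c r + k) * (nn κ * ∏ p ∈ W, (p : ℕ)) := by ring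
        _ ≤ q ^ (c r + k) * nn (up u) := Nat.mul_le_mul_left _ h3
    have h6 : ((k₃ * ∏ p ∈ P, p : ℕ) : ℝ) ≤ ((q ^ (c r + k) * nn (up u) : ℕ) : ℝ) := by
      exact_mod_cast h5
    rw [Nat.cast_mul, Nat.cast_prod, Nat.cast_mul, Nat.cast_pow] at h6
    exact h6

end Pool.Agent.Work.MP_f1a024_nt.RW
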