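import Pool.Agent.Work.MP_f1a024_nt.RW.Final
import Pool.Agent.Work.MP_f1a024_nt.RW.ORJ
import Pool.Agent.Work.MP_f1a024_nt.RW.BIJ
import Pool.Agent.Work.MP_f1a024_nt.RW.DIJ
import Pool.Agent.Work.MP_f1a024_nt.RW.NUJ
import Pool.Agent.Work.MP_f1a024_nt.RW.DVJ
import Pool.Agent.Work.MP_f1a024_nt.RW.MUJ
import Pool.Agent.Work.MP_f1a024_nt.RW.PSJ
import Pool.Agent.Work.MP_f1a024_nt.RW.VAJ
import Pool.Agent.Work.MP_f1a024_nt.RW.EXJ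
import Pool.Agent.Work.MP_f1a024_nt.RW.DEJ
import Pool.Agent.Work.MP_f1a024_nt.RW.SUJ
import Pool.Agent.Work.MP_f1a024_nt.RW.POJ
import Pool.Agent.Work.MP_f1a024_nt.RW.LBJ
import Pool.Agent.Work.MP_f1a024_nt.RW.Z2J
import Pool.Agent.Work.MP_f1a024_nt.RW.Z3J
import Pool.Agent.Work.MP_f1a024_nt.RW.Z4J
import Pool.Agent.Work.MP_f1a024_nt.RW.P6J
import Pool.Agent.Work.MP_f1a024_nt.RW.F1aJ
import Pool.Agent.Work.MP_f1a024_nt.RW.F1bJ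
import Pool.Agent.Work.MP_f1a024_nt.RW.CUJ
import Pool.Agent.Work.MP_f1a024_nt.RW.CRJ
import Pool.Agent.Work.MP_f1a024_nt.RW.MRJ
import Pool.Agent.Work.MP_f1a024_nt.RW.VLJ
import Pool.Agent.Work.MP_f1a024_nt.RW.PLJ
import Pool.Agent.Work.MP_f1a024_nt.RW.MTJ
import Pool.Agent.Work.MP_f1a024_nt.RW.PBJ
import Pool.Agent.Work.MP_f1a024_nt.RW.N0J
import Pool.Agent.Work.MP_f1a024_nt.RW.N1J
import Pool.Agent.Work.MP_f1a024_nt.RW.N2J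

/-!
# Block WJ: assembly of THEOREM W jointly for `t(n + s_0), ..., t(n + s_k)`
-/

namespace Pool.Agent.Work.MP_f1a024_nt.RW

open Pool.Agent.Work.MP_f1a024_nt.AH

theorem lbj : LBJ := prfLBJ (prfPSJ (prfMUJ prfDVJ)) prfVAJ prfEXJ (prfSUJ prfDEJ) prfPOJ
theorem z4j : Z4J := prfZ4J nb ub (prfZ3J (prfZ2J nb ub))
theorem p6j : P6J := prfP6J prfP0 (prfP1 prfAVD) prfP2 (prfP3a ub prfAVD) (prfP3b prfAVD)
  (prfP4 prfP4a) prfP5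
theorem cuj : CUJ := prfCUJ nb lb ub eb pu (prfF1bJ nb)
theorem crj : CRJ := prfCRJ d4 (prfWS lb eb) p6j z4j (prfF1aJ nb) cuj
theorem mrj : MRJ := prfMRJ crj
theorem mtj : MTJ := prfMTJ prfD1 prfD2 d10a prfD10b prfORJ (prfDIJ prfBIJ) prfNUJ lbj prfVLJ
  prfPLJ mrj
theorem n0j : N0J := prfN0J prfPBJ
theorem n2j : N2J := prfN2J prfPBJ prfN1J

end Pool.Agent.Work.MP_f1a024_nt.RW
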