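import Pool.Agent.Work.MP_f1a024_nt.RW.StmtsK

/-!
# KAK: the choice of `κ`

`κ` is the minimum of the union of the supports for the colexicographic order.
-/

namespace Pool.Agent.Work.MP_f1a024_nt.RW

open Finset MvPolynomial Filter

/-- a nonempty finite set of exponents has a minimum for the colexicographic order -/
theorem KAK_min (W : Finset Ex) (hW : W.Nonempty) : ∃ κ ∈ W, ∀ y ∈ W, y ≠ κ →
    ∃ π : Nat.Primes, κ π < y π ∧ ∀ q : Nat.Primes, (π : ℕ) < q → y q = κ q := by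
  let _ : LinearOrder Nat.Primes :=
    LinearOrder.lift' (fun p : Nat.Primes => (p : ℕ)) Subtype.val_injective
  obtain ⟨κ, hκ, hmin⟩ := Finset.exists_min_image W (fun y => toColex y) hW
  refine ⟨κ, hκ, fun y hy hne => ?_⟩
  have h1 : toColex κ ≤ toColex y := hmin y hy
  have h2 : toColex κ ≠ toColex y := fun h => hne (toColex.injective h).symm
  have h3 : toColex κ < toColex y := lt_of_le_of_ne h1 h2
  rw [Finsupp.Colex.lt_iff] at h3
  obtain ⟨π, hπ, hlt⟩ := h3
  exact ⟨π, hlt, fun q hq => (hπ q hq).symm⟩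

theorem prfKAK : KAK := by
  intro d u hu
  obtain ⟨i₀, hi₀⟩ := hu
  have hne : (univ.biUnion fun i => (u i).support).Nonempty := by
    obtain ⟨y, hy⟩ := MvPolynomial.support_nonempty.mpr hi₀
    exact ⟨y, Finset.mem_biUnion.mpr ⟨i₀, Finset.mem_univ _, hy⟩⟩
  obtain ⟨κ, hκ, h⟩ := KAK_min _ hne
  obtain ⟨i, -, hi⟩ := Finset.mem_biUnion.mp hκ
  exact ⟨κ, ⟨i, hi⟩, fun j y hy hyκ =>
    h y (Finset.mem_biUnion.mpr ⟨j, Finset.mem_univ _, hy⟩) hyκ⟩

end Pool.Agent.Work.MP_f1a024_nt.RW
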