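import Pool.Agent.Work.MP_f1a024_nt.RW.StmtsK

/-!
# Block WJ, second round, item MUK: the powers of `ft s` are multiplicative
-/

namespace Pool.Agent.Work.MP_f1a024_nt.RW

open Finset MvPolynomial Filter
open Pool.Agent.Work.MP_f1a024_nt.AH (tau PG val D1 D2 D4 D10a D10b)

theorem MUK_apply (s m : ℕ) : ft s m = tau m / (m : ℚ) ^ s := rfl

theorem MUK_ft (h : D10b) (s : ℕ) : (ft s).IsMultiplicative := by
  refine ⟨?_, ?_⟩
  · rw [MUK_apply, h.1.1]
    simp
  · intro m n hmn
    rw [MUK_apply, MUK_apply, MUK_apply, h.1.2 hmn]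
    push_cast
    rw [mul_pow, mul_div_mul_comm]

theorem prfMUK : MUK := by
  intro h s i
  induction i with
  | zero =>
    rw [pow_zero]
    exact ArithmeticFunction.isMultiplicative_one
  | succ i ih =>
    rw [pow_succ]
    exact ih.mul (MUK_ft h s)

end Pool.Agent.Work.MP_f1a024_nt.RW
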