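import Pool.Agent.Work.MP_f1a024_nt.RW.StmtsK

/-!
# Block WJ, item ODK: the differential equation of the local factor
-/

set_option autoImplicit false

namespace Pool.Agent.Work.MP_f1a024_nt.RW

open Finset
open Pool.Agent.Work.MP_f1a024_nt.AH (tau)

/-- The ring homomorphism for one prime. -/
theorem ODK_hom (h : PSJ) (p : ℕ) (hp : p.Prime) :
    ∃ Ψ : ArithmeticFunction ℚ →+* PowerSeries ℚ, ∀ f n,
      PowerSeries.coeff n (Ψ f) = f (p ^ n) := by
  obtain ⟨Ψ, hΨ⟩ := h 0 (fun _ => p) (fun _ => 1) (fun a b _ => Fin.ext (by have := a.isLt; have := b.isLt; omega))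
    (fun _ => hp)
  refine ⟨Ψ, fun f n => ?_⟩
  rw [hΨ, Finset.sum_eq_single (fun _ => n)]
  · simp
  · intro e he hne
    exfalso
    rw [Finset.mem_piAntidiag] at he
    apply hne
    funext j
    have h1 := he.1
    rw [Fin.sum_univ_one] at h1
    have h2 : j = 0 := Fin.ext (by have := j.isLt; simp)
    rw [← h1, h2]
  · intro hn
    exfalso
    apply hn
    rw [Finset.mem_piAntidiag]
    simp

theorem ODK_sq_pow (p : ℕ) (hp : p.Prime) (n : ℕ) :
    AH.sq (p ^ n) = if Even n then (1 : ℚ) else 0 := by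
  have h1 : IsSquare (p ^ n) ↔ Even n := by
    constructor
    · rintro ⟨r, hr⟩
      have hr0 : r ≠ 0 := by
        intro h
        rw [h, mul_zero] at hr
        exact pow_ne_zero n hp.ne_zero hr
      have h2 : (p ^ n).factorization p = (r * r).factorization p := by rw [hr]
      rw [Nat.factorization_mul hr0 hr0, hp.factorization_pow] at h2
      simp only [Finsupp.single_eq_same, Finsupp.coe_add, Pi.add_apply] at h2
      exact ⟨_, h2⟩
    · rintro ⟨m, hm⟩
      exact ⟨p ^ m, by rw [hm, pow_add]⟩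
  show (if p ^ n = 0 then (0 : ℚ) else if IsSquare (p ^ n) then 1 else 0) = _
  rw [if_neg (pow_ne_zero n hp.ne_zero)]
  by_cases he : Even n
  · rw [if_pos (h1.2 he), if_pos he]
  · rw [if_neg (fun h => he (h1.1 h)), if_neg he]

/-- The equation for `tau`. -/
theorem ODK_tau (Ψ : ArithmeticFunction ℚ →+* PowerSeries ℚ) (p : ℕ) (hp : p.Prime)
    (hΨ : ∀ f n, PowerSeries.coeff n (Ψ f) = f (p ^ n)) :
    (1 + PowerSeries.X) * Ψ tau = 1 - PowerSeries.X := by
  have hsq : (1 - PowerSeries.X ^ 2) * Ψ AH.sq = 1 := by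
    ext n
    rw [sub_mul, one_mul, map_sub, hΨ, PowerSeries.coeff_X_pow_mul', PowerSeries.coeff_one,
      ODK_sq_pow p hp]
    rcases Nat.lt_or_ge n 2 with hn | hn
    · rw [if_neg (by omega : ¬ 2 ≤ n)]
      interval_cases n <;> simp
    · rw [if_pos hn, hΨ, ODK_sq_pow p hp, if_neg (by omega : ¬ n = 0)]
      have : Even n ↔ Even (n - 2) := by
        obtain ⟨m, rfl⟩ : ∃ m, n = m + 2 := ⟨n - 2, by omega⟩
        rw [Nat.add_sub_cancel, Nat.even_add]
        simp
      by_cases he : Even n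
      · rw [if_pos he, if_pos (this.1 he), sub_self]
      · rw [if_neg he, if_neg (fun h => he (this.2 h)), sub_self]
  have hmu : Ψ (ArithmeticFunction.moebius : ArithmeticFunction ℚ) = 1 - PowerSeries.X := by
    ext n
    rw [hΨ, map_sub, PowerSeries.coeff_one, PowerSeries.coeff_X,
      ArithmeticFunction.intCoe_apply]
    rcases Nat.eq_zero_or_pos n with hn | hn
    · subst hn
      simp
    · rw [ArithmeticFunction.moebius_apply_prime_pow hp (by omega : n ≠ 0),
        if_neg (by omega : ¬ n = 0)]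
      by_cases h1 : n = 1
      · rw [if_pos h1, if_pos h1]
        norm_num
      · rw [if_neg h1, if_neg h1]
        norm_num
  have htau : Ψ tau = Ψ AH.sq * (1 - PowerSeries.X) * (1 - PowerSeries.X) := by
    unfold tau
    rw [map_mul, map_mul, hmu]
  have hne : (1 - PowerSeries.X : PowerSeries ℚ) ≠ 0 := by
    intro h
    have h1 := congrArg (PowerSeries.coeff 0) h
    simp at h1
  apply mul_left_cancel₀ hne
  rw [htau]
  linear_combination ((1 - PowerSeries.X) * (1 - PowerSeries.X)) * hsq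

/-- The equation for `ft s`. -/
theorem ODK_ft (Ψ : ArithmeticFunction ℚ →+* PowerSeries ℚ) (p : ℕ) (hp : p.Prime)
    (hΨ : ∀ f n, PowerSeries.coeff n (Ψ f) = f (p ^ n)) (s : ℕ) :
    (1 + PowerSeries.C (((p : ℚ) ^ s)⁻¹) * PowerSeries.X) * Ψ (ft s) =
      1 - PowerSeries.C (((p : ℚ) ^ s)⁻¹) * PowerSeries.X := by
  have h1 : Ψ (ft s) = PowerSeries.rescale (((p : ℚ) ^ s)⁻¹) (Ψ tau) := by
    ext n
    rw [PowerSeries.coeff_rescale, hΨ, hΨ]
    show tau (p ^ n) / ((p ^ n : ℕ) : ℚ) ^ s = _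
    rw [Nat.cast_pow, div_eq_mul_inv, mul_comm, ← pow_mul, mul_comm n s, pow_mul, inv_pow]
  have h2 := congrArg (PowerSeries.rescale (((p : ℚ) ^ s)⁻¹)) (ODK_tau Ψ p hp hΨ)
  rw [map_mul, map_add, map_sub, map_one, PowerSeries.rescale_X, ← h1] at h2
  exact h2

/-- The differential equation of `ft s`. -/
theorem ODK_de (ρ : ℚ) (φ : PowerSeries ℚ)
    (h : (1 + PowerSeries.C ρ * PowerSeries.X) * φ = 1 - PowerSeries.C ρ * PowerSeries.X) :
    (1 - PowerSeries.C (ρ ^ 2) * PowerSeries.X ^ 2) * PowerSeries.derivative ℚ φ =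
      -(PowerSeries.C (2 * ρ) * φ) := by
  have h1 := congrArg (PowerSeries.derivative ℚ) h
  have hc : PowerSeries.derivative ℚ (PowerSeries.C ρ * PowerSeries.X : PowerSeries ℚ) =
      PowerSeries.C ρ := by
    rw [Derivation.leibniz, PowerSeries.derivative_C, PowerSeries.derivative_X]
    simp
  rw [Derivation.leibniz, map_add, map_sub, Derivation.map_one_eq_zero, hc] at h1
  simp only [smul_eq_mul, zero_add, zero_sub] at h1
  have hne : (1 + PowerSeries.C ρ * PowerSeries.X : PowerSeries ℚ) ≠ 0 := by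
    intro h
    have h1 := congrArg (PowerSeries.coeff 0) h
    simp at h1
  apply mul_left_cancel₀ hne
  have e1 : (PowerSeries.C (ρ ^ 2) : PowerSeries ℚ) = PowerSeries.C ρ ^ 2 := by rw [map_pow]
  have e2 : (PowerSeries.C (2 * ρ) : PowerSeries ℚ) = 2 * PowerSeries.C ρ := by
    rw [map_mul, map_ofNat]
  rw [e1, e2]
  linear_combination (1 + PowerSeries.C ρ * PowerSeries.X) *
    (1 - PowerSeries.C ρ * PowerSeries.X) * h1 +
    (2 * PowerSeries.C ρ - PowerSeries.C ρ * (1 - PowerSeries.C ρ * PowerSeries.X)) * h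

/-- ODK: the differential equation. -/
theorem prfODK (h : PSJ) : ODK := by
  intro s i p hp
  obtain ⟨Ψ, hΨ⟩ := ODK_hom h p hp
  have hmk : (PowerSeries.mk fun c => (ft s ^ i) (p ^ c)) = Ψ (ft s) ^ i := by
    rw [← map_pow]
    ext n
    rw [PowerSeries.coeff_mk, hΨ]
  rw [hmk]
  have hd := ODK_de (((p : ℚ) ^ s)⁻¹) (Ψ (ft s)) (ODK_ft Ψ p hp hΨ s)
  rcases i with _ | i
  · simp [Derivation.map_one_eq_zero]
  · rw [Derivation.leibniz_pow]
    simp only [smul_eq_mul, nsmul_eq_mul, Nat.add_sub_cancel]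
    have e3 : (PowerSeries.C (2 * ((i + 1 : ℕ) : ℚ) * ((p : ℚ) ^ s)⁻¹) : PowerSeries ℚ) =
        ((i + 1 : ℕ) : PowerSeries ℚ) * PowerSeries.C (2 * ((p : ℚ) ^ s)⁻¹) := by
      rw [show 2 * ((i + 1 : ℕ) : ℚ) * ((p : ℚ) ^ s)⁻¹ =
        ((i + 1 : ℕ) : ℚ) * (2 * ((p : ℚ) ^ s)⁻¹) by ring, map_mul, map_natCast]
    rw [e3]
    linear_combination (((i + 1 : ℕ) : PowerSeries ℚ) * Ψ (ft s) ^ i) * hd

end Pool.Agent.Work.MP_f1a024_nt.RW
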