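import Pool.Agent.Work.MP_f1a024_nt.RW.StmtsK

/-!
# Block WJ, item OPK: for `k = 0` the threshold `2 ^ n` is optimal (`P = (X - 1) ^ D`)
-/

set_option autoImplicit false

namespace Pool.Agent.Work.MP_f1a024_nt.RW

open Finset MvPolynomial Filter
open Pool.Agent.Work.MP_f1a024_nt.AH (tau PG val D1 D2 D4 D10a D10b)

/-- OPK: no `θ < 2` can take the place of `2` for `k = 0` -/
def OPK : Prop :=
  ∀ (D : ℕ) (s : Fin 1 → ℕ) (θ B : ℝ), 1 ≤ D → 0 < θ → θ < 2 → 2 ≤ B →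
    ∃ ε : ℝ, 0 < ε ∧ ¬ ∃ M : ℕ, ∀ n ≥ M, ∀ (P : MvPolynomial (Fin 1) ℤ) (H : ℝ), P ≠ 0 →
      (∀ j, P.degreeOf j ≤ D) → (∀ I, |((P.coeff I : ℤ) : ℝ)| ≤ H) → θ ^ n ≤ H → H ≤ B ^ n →
      Real.exp (-(ε * n)) * (H ^ ((D + 1) ^ (0 + 1) - 1))⁻¹ ≤
        ‖MvPolynomial.aeval (fun j => riemannZeta (2 * ((n + s j : ℕ) : ℂ)) /
          riemannZeta ((n + s j : ℕ) : ℂ) ^ 2) P‖

theorem OPK_near (hD4 : D4) (hD10a : D10a) (hD10b : D10b) : ∃ (C : ℝ) (M : ℕ), 0 < C ∧ ∀ n ≥ M,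
    ‖riemannZeta (2 * n) / riemannZeta n ^ 2 - 1‖ ≤ C * (1 / 2 : ℝ) ^ n := by
  obtain ⟨C, M₁, hC0, hC⟩ := hD4 tau hD10a.1 2 two_pos
  obtain ⟨M₂, hM₂⟩ := hD10a.2
  refine ⟨C + 1, max M₁ (max M₂ 1), by linarith, fun n hn => ?_⟩
  have h1 := hC n ((le_max_left _ _).trans hn)
  have h2 := hM₂ n (((le_max_left _ _).trans (le_max_right _ _)).trans hn)
  have hn1 : 1 ≤ n := ((le_max_right _ _).trans (le_max_right _ _)).trans hn
  rw [← h2]
  have h3 : ∑ k ∈ Finset.range 2, ((tau k : ℚ) : ℝ) / (k : ℝ) ^ n = 1 := by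
    rw [Finset.sum_range_succ, Finset.sum_range_succ, Finset.sum_range_zero]
    rw [ArithmeticFunction.map_zero, hD10b.1.map_one]
    simp
  rw [h3] at h1
  have h4 : ((val tau n : ℝ) : ℂ) - 1 = ((val tau n - 1 : ℝ) : ℂ) := by push_cast; ring
  rw [h4, Complex.norm_real, Real.norm_eq_abs]
  refine h1.trans ?_
  have h5 : (0 : ℝ) ≤ (1 / 2 : ℝ) ^ n := by positivity
  have h6 : (((2 : ℕ) : ℝ)) = 2 := by norm_num
  rw [h6]
  linarith [mul_nonneg hC0 h5, add_mul C 1 ((1 / 2 : ℝ) ^ n)]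

theorem prfOPK (hD4 : D4) (hD10a : D10a) (hD10b : D10b) : OPK := by
  intro D s θ B hD hθ hθ2 hB
  obtain ⟨C, M₀, hC, hM₀⟩ := OPK_near hD4 hD10a hD10b
  set θ' : ℝ := (max θ 1 + 2) / 2 with hθ'
  have hmax : max θ 1 < 2 := max_lt hθ2 (by norm_num)
  have hmax1 : (1 : ℝ) ≤ max θ 1 := le_max_right _ _
  have h1 : 1 < θ' := by rw [hθ']; linarith
  have h2 : θ' < 2 := by rw [hθ']; linarith
  have h3 : θ ≤ θ' := by
    have := le_max_left θ 1
    rw [hθ']; linarith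
  have hθ'0 : 0 < θ' := by linarith
  have hlog : 0 < Real.log (2 / θ') := Real.log_pos (by rw [lt_div_iff₀ hθ'0]; linarith)
  have hDpos : (0 : ℝ) < D := by exact_mod_cast hD
  refine ⟨(D : ℝ) / 2 * Real.log (2 / θ'), by positivity, ?_⟩
  rintro ⟨M, hM⟩
  set P : MvPolynomial (Fin 1) ℤ := (X 0 - 1) ^ D with hP
  have hP0 : P ≠ 0 := by
    rw [hP]
    refine pow_ne_zero _ ?_
    intro h
    have h4 := congrArg (MvPolynomial.eval (fun _ : Fin 1 => (2 : ℤ))) h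
    simp at h4
  have hPdeg : ∀ j, P.degreeOf j ≤ D := by
    intro j
    rw [hP]
    refine (MvPolynomial.degreeOf_pow_le j _ D).trans ?_
    have h4 : degreeOf j (X 0 - 1 : MvPolynomial (Fin 1) ℤ) ≤ 1 := by
      refine (MvPolynomial.degreeOf_sub_le j _ _).trans ?_
      refine max_le ?_ ?_
      · rw [MvPolynomial.degreeOf_X]
        split_ifs <;> simp
      · rw [show (1 : MvPolynomial (Fin 1) ℤ) = MvPolynomial.C 1 from rfl, MvPolynomial.degreeOf_C]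
        exact Nat.zero_le _
    calc D * degreeOf j (X 0 - 1 : MvPolynomial (Fin 1) ℤ) ≤ D * 1 := Nat.mul_le_mul_left _ h4
      _ = D := Nat.mul_one D
  -- a bound for the coefficients
  set K : ℝ := ∑ I ∈ P.support, |((P.coeff I : ℤ) : ℝ)| with hK
  have hKb : ∀ I, |((P.coeff I : ℤ) : ℝ)| ≤ K := by
    intro I
    by_cases hI : I ∈ P.support
    · exact Finset.single_le_sum (f := fun I => |((P.coeff I : ℤ) : ℝ)|)
        (fun _ _ => abs_nonneg _) hI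
    · rw [MvPolynomial.notMem_support_iff] at hI
      rw [hI]
      simp only [Int.cast_zero, abs_zero]
      exact Finset.sum_nonneg fun _ _ => abs_nonneg _
  have hev1 : ∀ᶠ n : ℕ in atTop, K ≤ θ' ^ n :=
    (tendsto_pow_atTop_atTop_of_one_lt h1).eventually_ge_atTop K
  have hev2 : ∀ᶠ n : ℕ in atTop, C ^ D < Real.exp ((D : ℝ) / 2 * Real.log (2 / θ') * n) := by
    have h4 : Tendsto (fun n : ℕ => Real.exp ((D : ℝ) / 2 * Real.log (2 / θ') * n)) atTop atTop :=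
      Real.tendsto_exp_atTop.comp
        (tendsto_natCast_atTop_atTop.const_mul_atTop (by positivity))
    exact h4.eventually_gt_atTop _
  obtain ⟨n, hn1, hn2, hn3, hn4⟩ := (hev1.and (hev2.and ((eventually_ge_atTop M).and
    (eventually_ge_atTop M₀)))).exists
  have h4 := hM n hn3 P (θ' ^ n) hP0 hPdeg (fun I => (hKb I).trans hn1)
    (pow_le_pow_left₀ hθ.le h3 n) (pow_le_pow_left₀ hθ'0.le (by linarith) n)
  have h5 : (D + 1) ^ (0 + 1) - 1 = D := by rw [zero_add, pow_one]; rfl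
  rw [h5] at h4
  have h6 : MvPolynomial.aeval (fun j => riemannZeta (2 * ((n + s j : ℕ) : ℂ)) /
      riemannZeta ((n + s j : ℕ) : ℂ) ^ 2) P = (riemannZeta (2 * ((n + s 0 : ℕ) : ℂ)) /
      riemannZeta ((n + s 0 : ℕ) : ℂ) ^ 2 - 1) ^ D := by
    rw [hP, map_pow, map_sub, map_one, MvPolynomial.aeval_X]
  rw [h6, norm_pow] at h4
  have h7 := hM₀ (n + s 0) (by omega)
  have h8 : C * (1 / 2 : ℝ) ^ (n + s 0) ≤ C * (1 / 2 : ℝ) ^ n := by
    refine mul_le_mul_of_nonneg_left ?_ hC.le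
    exact pow_le_pow_of_le_one (by norm_num) (by norm_num) (by omega)
  have h9 := pow_le_pow_left₀ (norm_nonneg _) (h7.trans h8) D
  have h10 := h4.trans h9
  -- compare
  have e1 : Real.exp ((D : ℝ) / 2 * Real.log (2 / θ') * n) *
      Real.exp ((D : ℝ) / 2 * Real.log (2 / θ') * n) = ((2 / θ') ^ n) ^ D := by
    rw [← Real.exp_add, ← pow_mul, ← Real.rpow_natCast, Real.rpow_def_of_pos (by positivity)]
    congr 1
    push_cast
    ring
  have e2 : (C * (1 / 2 : ℝ) ^ n) ^ D = C ^ D * ((1 / 2 : ℝ) ^ n) ^ D := mul_pow _ _ _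
  have e3 : ((2 / θ') ^ n) ^ D * (((1 / 2 : ℝ) ^ n) ^ D) = ((θ' ^ n) ^ D)⁻¹ := by
    rw [← mul_pow, ← mul_pow, ← inv_pow, ← inv_pow]
    congr 2
    field_simp
  set E := Real.exp ((D : ℝ) / 2 * Real.log (2 / θ') * n) with hE
  have hE0 : 0 < E := Real.exp_pos _
  have e4 : Real.exp (-((D : ℝ) / 2 * Real.log (2 / θ') * n)) * E = 1 := by
    rw [hE, ← Real.exp_add]
    simp
  rw [← e3, ← e1, e2] at h10
  have hh : 0 < ((1 / 2 : ℝ) ^ n) ^ D := by positivity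
  have h11 : Real.exp (-((D : ℝ) / 2 * Real.log (2 / θ') * n)) * (E * E * ((1 / 2 : ℝ) ^ n) ^ D) =
      E * ((1 / 2 : ℝ) ^ n) ^ D := by
    calc _ = (Real.exp (-((D : ℝ) / 2 * Real.log (2 / θ') * n)) * E) *
          (E * ((1 / 2 : ℝ) ^ n) ^ D) := by ring
      _ = _ := by rw [e4, one_mul]
  rw [h11] at h10
  have h12 := le_of_mul_le_mul_right h10 hh
  linarith

end Pool.Agent.Work.MP_f1a024_nt.RW
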