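import Pool.Agent.Work.MP_f1a024_nt.RW.StmtsK

/-!
# Block WJ, item T0K: the case `k = 0`
-/

namespace Pool.Agent.Work.MP_f1a024_nt.RW

open Finset MvPolynomial Filter
open Pool.Agent.Work.MP_f1a024_nt.AH (tau PG val D1 D2 D4 D10a D10b)

theorem T0K_nu (D a : ℕ) (ha : a ≤ D) : a ≤ nu 0 D a := by
  classical
  unfold nu
  have h : (Finset.range a).card ≤
      (univ.filter fun α : Fin (0 + 1) → Fin (D + 1) => wt α < a).card := by
    refine Finset.card_le_card_of_injOn
      (fun i => fun _ => if h : i < D + 1 then ⟨i, h⟩ else 0) ?_ ?_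
    · intro i hi
      have hi' : i < a := Finset.mem_range.mp hi
      have h1 : i < D + 1 := by omega
      simp only [Finset.coe_filter, Finset.mem_univ, true_and, Set.mem_ofPred_eq]
      unfold wt
      simp only [dif_pos h1]
      simpa using hi'
    · intro i hi j hj hij
      have hi' : i < a := Finset.mem_range.mp hi
      have hj' : j < a := Finset.mem_range.mp hj
      have h1 : i < D + 1 := by omega
      have h2 : j < D + 1 := by omega
      have h3 := congrFun hij 0
      simp only [dif_pos h1, dif_pos h2, Fin.mk.injEq] at h3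
      exact h3
  rwa [Finset.card_range] at h

theorem T0K_wt {D : ℕ} (α : Fin (0 + 1) → Fin (D + 1)) : wt α = (α 0 : ℕ) := by
  unfold wt
  simp

theorem T0K_choose (a r : ℕ) (har : a ≤ r) : ∃ c : ℕ → ℚ, ∀ x : ℕ,
    ((x.choose a : ℕ) : ℚ) = ∑ j ∈ range (r + 1), c j * (x : ℚ) ^ j := by
  refine ⟨fun j => (descPochhammer ℚ a).coeff j / (a.factorial : ℚ), fun x => ?_⟩
  have hd : (descPochhammer ℚ a).natDegree < r + 1 := by
    rw [descPochhammer_natDegree]
    omega
  have h1 := descPochhammer_eval_eq_descFactorial ℚ x a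
  rw [Polynomial.eval_eq_sum_range' hd, Nat.descFactorial_eq_factorial_mul_choose] at h1
  have h2 : (a.factorial : ℚ) ≠ 0 := by exact_mod_cast Nat.factorial_ne_zero a
  push_cast at h1
  have h3 : ∑ j ∈ range (r + 1), (descPochhammer ℚ a).coeff j / (a.factorial : ℚ) * (x : ℚ) ^ j =
      (∑ j ∈ range (r + 1), (descPochhammer ℚ a).coeff j * (x : ℚ) ^ j) / (a.factorial : ℚ) := by
    rw [Finset.sum_div]
    refine Finset.sum_congr rfl fun j _ => ?_
    ring
  rw [h3, h1]
  field_simp

theorem prfT0K (h : NUJ) : T0K := by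
  intro D d s A hA
  refine ⟨fun i => ?_, fun r hr t ht => ?_⟩
  · unfold fI
    simp
  · induction ht using Submodule.span_induction with
    | mem t ht =>
      obtain ⟨l, hl, rfl⟩ := ht
      have h1 := (h 0 D d A hA (l : ℕ) (by omega)).1
      have h2 : cJ A (l : ℕ) = (A l 0 : ℕ) := by
        unfold cJ
        rw [dif_pos l.isLt, T0K_wt]
      rw [h2] at h1
      have h3 : (A l 0 : ℕ) ≤ D := by
        have := (A l 0).isLt
        omega
      have h4 := T0K_nu D (A l 0 : ℕ) h3
      obtain ⟨c, hc⟩ := T0K_choose (A l 0 : ℕ) r (by omega)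
      refine ⟨c, fun i => ?_⟩
      rw [← hc (A i 0 : ℕ)]
      unfold bi
      simp
    | zero => exact ⟨fun _ => 0, fun i => by simp⟩
    | add t t' _ _ ih ih' =>
      obtain ⟨c, hc⟩ := ih
      obtain ⟨c', hc'⟩ := ih'
      refine ⟨fun j => c j + c' j, fun i => ?_⟩
      rw [Pi.add_apply, hc, hc', ← Finset.sum_add_distrib]
      exact Finset.sum_congr rfl fun j _ => by ring
    | smul a t _ ih =>
      obtain ⟨c, hc⟩ := ih
      refine ⟨fun j => a * c j, fun i => ?_⟩
      rw [Pi.smul_apply, hc, smul_eq_mul, Finset.mul_sum]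
      exact Finset.sum_congr rfl fun j _ => by ring

end Pool.Agent.Work.MP_f1a024_nt.RW
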