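import Pool.Agent.Work.MP_f1a024_nt.RW.StmtsK

/-!
# Block WJ, item THK: zero estimate and threshold, uniformly in `k`
-/

set_option autoImplicit false

namespace Pool.Agent.Work.MP_f1a024_nt.RW

open Finset MvPolynomial Filter
open Pool.Agent.Work.MP_f1a024_nt.AH (tau PG val D1 D2 D4 D10a D10b)

theorem prfTHK (h1 : ZKF) (h2 : T0K) (h3 : ZEA) (h4 : LBJ) (h5 : NUJ) (h6 : N1J) : THK := by
  intro hD k D d s A hs hA
  rcases Nat.eq_zero_or_pos k with hk | hk
  · subst hk
    obtain ⟨g1, g2⟩ := h2 D d s A hA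
    refine ⟨fun r => 2 ^ r, h1 hD d (s 0) (fun i => (A i 0 : ℕ)) (fI s A) (TJ A) g1
      (fun r hr t ht => g2 r hr t ht), ?_⟩
    intro n H hH r hr
    have hH' : (2 : ℝ) ^ n ≤ H := by simpa using hH
    show ((2 : ℝ) ^ r) ^ n ≤ H ^ r
    rw [← pow_mul, mul_comm r n, pow_mul]
    exact pow_le_pow_left₀ (by positivity) hH' r
  · refine ⟨fun r => if cJ A r = 0 then 1 else 2 ^ ((cJ A r + k) * (cJ A r + k + 1) / 2),
      h3 k d (fI s A) (TJ A) (cJ A) (h4 hD k D d s A hs hA), ?_⟩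
    intro n H hH r hr
    have hH1 : 1 ≤ H := le_trans (one_le_pow₀ (by norm_num)) hH
    by_cases hc : cJ A r = 0
    · simp only [hc, if_true, one_pow]
      exact one_le_pow₀ hH1
    · simp only [hc, if_false]
      obtain ⟨g1, g2⟩ := h5 k D d A hA r hr
      have g3 := h6 k D (cJ A r) hk (by omega) g2
      have g4 : (cJ A r + k) * (cJ A r + k + 1) / 2 ≤ (k + 1) * (k + 2) / 2 * r := by
        obtain ⟨e, he⟩ : 2 ∣ (k + 1) * (k + 2) := by
          have := Nat.even_mul_succ_self (k + 1)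
          exact this.two_dvd
        rw [he, Nat.mul_div_cancel_left _ two_pos]
        apply Nat.div_le_of_le_mul
        calc (cJ A r + k) * (cJ A r + k + 1) ≤ (k + 1) * (k + 2) * nu k D (cJ A r) := g3
          _ ≤ (k + 1) * (k + 2) * r := Nat.mul_le_mul_left _ g1
          _ = 2 * (e * r) := by rw [he]; ring
      calc ((2 : ℝ) ^ ((cJ A r + k) * (cJ A r + k + 1) / 2)) ^ n
          = 2 ^ ((cJ A r + k) * (cJ A r + k + 1) / 2 * n) := (pow_mul _ _ _).symm
        _ ≤ 2 ^ ((k + 1) * (k + 2) / 2 * r * n) :=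
            pow_le_pow_right₀ (by norm_num) (Nat.mul_le_mul_right _ g4)
        _ = (2 ^ ((k + 1) * (k + 2) / 2 * n)) ^ r := by
            rw [← pow_mul, mul_assoc, mul_comm r n, ← mul_assoc]
        _ ≤ H ^ r := pow_le_pow_left₀ (by positivity) hH r

end Pool.Agent.Work.MP_f1a024_nt.RW
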