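import Pool.Agent.Work.MP_f1a024_nt.RW.StmtsK

/-!
# Block WJ, second round, item ZEA: the zero estimate of the first round
-/

namespace Pool.Agent.Work.MP_f1a024_nt.RW

open Finset MvPolynomial Filter
open Pool.Agent.Work.MP_f1a024_nt.AH (tau PG val D1 D2 D4 D10a D10b)

theorem ZEA_pb_pos (q : ℕ) : 0 < pb q := by
  unfold pb
  apply Finset.prod_pos
  intro p hp
  exact_mod_cast (Finset.mem_filter.1 hp).2.pos

/-- Item ZEA. -/
theorem prfZEA (h : Z4J) (hP : PBJ) : ZEA := by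
  intro k d f T c hL r m u a hr hu hz hdt
  obtain ⟨k₃, q, hq, h1, h2, h3, h4⟩ := h k d f T c hL r m u a hr hu hz hdt
  refine ⟨k₃, h1, h2, ?_⟩
  show (k₃ : ℝ) ≤ (if c r = 0 then 1 else 2 ^ ((c r + k) * (c r + k + 1) / 2)) * (nn (up u) : ℝ)
  by_cases hc : c r = 0
  · rw [if_pos hc, one_mul]
    exact_mod_cast h3 hc
  · rw [if_neg hc]
    have hpb := ZEA_pb_pos q
    have h5 := h4 (by omega)
    have h6 := hP q (c r + k) hq
    have h7 : (0 : ℝ) ≤ (nn (up u) : ℝ) := Nat.cast_nonneg _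
    have h8 := mul_le_mul_of_nonneg_right h6 h7
    refine le_of_mul_le_mul_right (h5.trans (h8.trans (le_of_eq ?_))) hpb
    ring

end Pool.Agent.Work.MP_f1a024_nt.RW
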