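import Pool.Agent.Work.MP_f1a024_nt.RW.StmtsK
import Pool.Agent.Work.MP_f1a024_nt.RW.Z2

/-! # Block WJ, item ZKF: the sharp zero estimate -/

set_option autoImplicit false

namespace Pool.Agent.Work.MP_f1a024_nt.RW

open Finset MvPolynomial Filter
open Pool.Agent.Work.MP_f1a024_nt.AH (tau PG val D1 D2 D4 D10a D10b)

/-- only the term `(κ, 0)` remains in `AK f u i κ` -/
theorem ZKF_AK (hNB : NB) {d : ℕ} (f : Fin (d + 1) → ArithmeticFunction ℚ)
    (hf : ∀ i, (f i).IsMultiplicative) (u : Fin (d + 1) → Rg) (κ : Ex) (hκ : KM u κ)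
    (i : Fin (d + 1)) : AK f u i κ = (u i).coeff κ := by
  classical
  obtain ⟨n0, -⟩ := hNB
  unfold AK
  rw [Finset.sum_eq_single (κ, 0)]
  · rw [n0, (hf i).1, mul_one]
  · intro y hy hne
    have hy1 : y.1 + y.2 = κ := by simpa using hy
    by_cases hc : (u i).coeff y.1 = 0
    · rw [hc, zero_mul]
    · exfalso
      have h1 : y.1 ≠ κ := by
        intro h
        apply hne
        have h2 : y.2 = 0 := by
          have h3 : κ + y.2 = κ + 0 := by
            rw [add_zero, ← h]
            rw [h]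
            rw [h] at hy1
            exact hy1
          exact add_left_cancel h3
        exact Prod.ext h h2
      obtain ⟨π, hπ, -⟩ := hκ i y.1 (MvPolynomial.mem_support_iff.2 hc) h1
      have h4 : κ π = y.1 π + y.2 π := by rw [← hy1]; rfl
      omega
  · intro h
    exact absurd (by simp) h

theorem prfZKF (hNB : NB) (hUB : UB) (h1 : KAK) (h2 : ARK) (h3 : CLK) (h4 : MUK) : ZKF := by
  classical
  intro hD d s σ f T hf hT r m u a hrd hu hz hdt
  obtain ⟨n0, nadd, npos, ninj, nex, -, nle, -, -, -⟩ := id hNB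
  obtain ⟨-, -, u3, -, u5, -, -⟩ := hUB
  obtain ⟨κ, ⟨i1, hi1⟩, hκ⟩ := h1 d u hu
  have hκup : κ ≤ up u := (u3 (u i1) κ hi1).trans (u5 _ u i1)
  obtain ⟨P, hP1, hP2, hP3⟩ := h2 κ (up u) hκup
  have hff : f = fun i => ft s ^ σ i := funext hf
  have hmul : ∀ i, (f i).IsMultiplicative := fun i => by rw [hf i]; exact h4 hD s (σ i)
  have key : ∀ k₃ : ℕ, nn κ * ∏ B ∈ Finset.Icc 1 r, (P B : ℕ) < k₃ →
      ¬ ∀ k' < k₃, uvJ f u k' = 0 := by
    intro k₃ hk hall
    have h5 : ∀ j ≤ r, ∑ i, (σ i : ℚ) ^ j * (u i).coeff κ = 0 := by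
      intro j hj
      have h6 := h3 d s σ u κ P k₃ hκ hP1 hP2 (by rw [← hff]; exact hall) r j hj 0
        (by intro B _ q hq; simp at hq) (by rw [n0, mul_one]; exact hk)
      rw [← hff, add_zero] at h6
      rw [← h6]
      exact Finset.sum_congr rfl fun i _ => by rw [ZKF_AK hNB f hmul u κ hκ i]
    have h7 := hz (fun i => (u i).coeff κ) (by
      intro t ht
      obtain ⟨c, hc⟩ := hT r hrd t ht
      have h8 : ∑ i, (u i).coeff κ * t i =
          ∑ j ∈ range (r + 1), c j * ∑ i, (σ i : ℚ) ^ j * (u i).coeff κ := by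
        simp_rw [hc, Finset.mul_sum]
        rw [Finset.sum_comm]
        exact Finset.sum_congr rfl fun j _ => Finset.sum_congr rfl fun i _ => by ring
      rw [h8]
      refine Finset.sum_eq_zero fun j hj => ?_
      rw [h5 j (by rw [Finset.mem_range] at hj; omega), mul_zero])
      (fun l => by rw [← Z2_coeff_dt, hdt l, MvPolynomial.coeff_zero])
    exact (MvPolynomial.mem_support_iff.1 hi1) (congrFun h7 i1)
  have hex : ∃ k', uvJ f u k' ≠ 0 := by
    by_contra hcon
    push Not at hcon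
    exact key _ (Nat.lt_succ_self _) fun k' _ => hcon k'
  refine ⟨Nat.find hex, Nat.find_spec hex, fun k' hk' => by
    have := Nat.find_min hex hk'
    push Not at this
    exact this, ?_⟩
  have h9 : Nat.find hex ≤ nn κ * ∏ B ∈ Finset.Icc 1 r, (P B : ℕ) := by
    by_contra hcon
    push Not at hcon
    refine key _ hcon fun k' hk' => ?_
    have := Nat.find_min hex hk'
    push Not at this
    exact this
  have h10 := h9.trans (hP3 r)
  have h11 : ((Nat.find hex : ℕ) : ℝ) ≤ ((2 ^ r * nn (up u) : ℕ) : ℝ) := by exact_mod_cast h10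
  rw [Nat.cast_mul, Nat.cast_pow, Nat.cast_ofNat] at h11
  exact h11

end Pool.Agent.Work.MP_f1a024_nt.RW
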