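import Pool.Agent.Work.MP_f1a024_nt.RW.Final
import Pool.Agent.Work.MP_f1a024_nt.RW.ORJ
import Pool.Agent.Work.MP_f1a024_nt.RW.BIJ
import Pool.Agent.Work.MP_f1a024_nt.RW.DIJ
import Pool.Agent.Work.MP_f1a024_nt.RW.NUJ
import Pool.Agent.Work.MP_f1a024_nt.RW.DVJ
import Pool.Agent.Work.MP_f1a024_nt.RW.MUJ
import Pool.Agent.Work.MP_f1a024_nt.RW.PSJ
import Pool.Agent.Work.MP_f1a024_nt.RW.VAJ
import Pool.Agent.Work.MP_f1a024_nt.RW.EXJ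
import Pool.Agent.Work.MP_f1a024_nt.RW.DEJ
import Pool.Agent.Work.MP_f1a024_nt.RW.SUJ
import Pool.Agent.Work.MP_f1a024_nt.RW.POJ
import Pool.Agent.Work.MP_f1a024_nt.RW.LBJ
import Pool.Agent.Work.MP_f1a024_nt.RW.Z2J
import Pool.Agent.Work.MP_f1a024_nt.RW.Z3J
import Pool.Agent.Work.MP_f1a024_nt.RW.Z4J
import Pool.Agent.Work.MP_f1a024_nt.RW.P6J
import Pool.Agent.Work.MP_f1a024_nt.RW.F1aJ
import Pool.Agent.Work.MP_f1a024_nt.RW.F1bJ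
import Pool.Agent.Work.MP_f1a024_nt.RW.CUJ
import Pool.Agent.Work.MP_f1a024_nt.RW.VLJ
import Pool.Agent.Work.MP_f1a024_nt.RW.PLJ
import Pool.Agent.Work.MP_f1a024_nt.RW.PBJ
import Pool.Agent.Work.MP_f1a024_nt.RW.N1J
import Pool.Agent.Work.MP_f1a024_nt.RW.AKU
import Pool.Agent.Work.MP_f1a024_nt.RW.MUK
import Pool.Agent.Work.MP_f1a024_nt.RW.FAK
import Pool.Agent.Work.MP_f1a024_nt.RW.ODK
import Pool.Agent.Work.MP_f1a024_nt.RW.STK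
import Pool.Agent.Work.MP_f1a024_nt.RW.KAK
import Pool.Agent.Work.MP_f1a024_nt.RW.CLK
import Pool.Agent.Work.MP_f1a024_nt.RW.ARK
import Pool.Agent.Work.MP_f1a024_nt.RW.ZKF
import Pool.Agent.Work.MP_f1a024_nt.RW.ZEA
import Pool.Agent.Work.MP_f1a024_nt.RW.CRK
import Pool.Agent.Work.MP_f1a024_nt.RW.MRK
import Pool.Agent.Work.MP_f1a024_nt.RW.T0K
import Pool.Agent.Work.MP_f1a024_nt.RW.THK
import Pool.Agent.Work.MP_f1a024_nt.RW.MTK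
import Pool.Agent.Work.MP_f1a024_nt.RW.OPK

/-!
# Block WJ: assembly of THEOREM W jointly for `t(n + s_0), ..., t(n + s_k)`, final form
-/

namespace Pool.Agent.Work.MP_f1a024_nt.RW

open Pool.Agent.Work.MP_f1a024_nt.AH

theorem psj' : PSJ := prfPSJ (prfMUJ prfDVJ)
theorem lbj' : LBJ := prfLBJ psj' prfVAJ prfEXJ (prfSUJ prfDEJ) prfPOJ
theorem z4j' : Z4J := prfZ4J nb ub (prfZ3J (prfZ2J nb ub))
theorem p6j' : P6J := prfP6J prfP0 (prfP1 prfAVD) prfP2 (prfP3a ub prfAVD) (prfP3b prfAVD)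
  (prfP4 prfP4a) prfP5
theorem cuj' : CUJ := prfCUJ nb lb ub eb pu (prfF1bJ nb)
theorem stk : STK := prfSTK prfD10b (prfFAK nb ub) (prfODK psj') prfMUK
theorem zkf : ZKF := prfZKF nb ub prfKAK (prfARK nb) (prfCLK nb (prfAKU nb) stk) prfMUK
theorem zea : ZEA := prfZEA z4j' prfPBJ
theorem crk : CRK := prfCRK d4 (prfWS lb eb) p6j' (prfF1aJ nb) cuj'
theorem mrk : MRK := prfMRK crk
theorem thk : THK := prfTHK zkf (prfT0K prfNUJ) zea lbj' prfNUJ prfN1J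
theorem mtk : MTK := prfMTK prfD1 prfD2 d10a prfD10b prfORJ (prfDIJ prfBIJ) prfVLJ prfPLJ mrk thk
theorem opk : OPK := prfOPK d4 d10a prfD10b

end Pool.Agent.Work.MP_f1a024_nt.RW
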