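import Pool.Agent.Work.MP_f1a024_nt.RW.StmtsS

/-!
# Block WS, item GMC (helper90)
-/

set_option autoImplicit false

namespace Pool.Agent.Work.MP_f1a024_nt.RW

open Finset

theorem GMC_card {k : ℕ} (q : Fin (k + 1) → ℕ) (hq : StrictMono q) (j : Fin (k + 1)) :
    ((univ.image q).filter (· < q j)).card = (j : ℕ) := by
  classical
  have h1 : (univ.image q).filter (· < q j) = (Finset.Iio j).image q := by
    ext x
    simp only [Finset.mem_filter, Finset.mem_image, Finset.mem_univ, true_and, Finset.mem_Iio]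
    constructor
    · rintro ⟨⟨i, rfl⟩, hi⟩
      exact ⟨i, hq.lt_iff_lt.1 hi, rfl⟩
    · rintro ⟨i, hi, rfl⟩
      exact ⟨⟨i, rfl⟩, hq hi⟩
  rw [h1, Finset.card_image_of_injective _ hq.injective, Fin.card_Iio]

/-- item GMC -/
theorem prfGMC (h : GML) : GMC := by
  classical
  intro k q e hq
  have h1 := h (univ.image q) (q (Fin.last k)) (Σ j : Fin (k + 1), Fin (e j)) univ
    (fun i => q i.1) (fun i _ => hq.monotone (Fin.le_last i.1))
  have h2 : ∏ i : (Σ j : Fin (k + 1), Fin (e j)), q i.1 = ∏ j, q j ^ e j := by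
    rw [Fintype.prod_sigma]
    refine Finset.prod_congr rfl fun j _ => ?_
    change ∏ _y : Fin (e j), q j = q j ^ e j
    rw [Finset.prod_const, Finset.card_univ, Fintype.card_fin]
  have h3 : (univ : Finset (Σ j : Fin (k + 1), Fin (e j))).card = ∑ j, e j := by
    rw [Finset.card_univ, Fintype.card_sigma]
    exact Finset.sum_congr rfl fun j _ => Fintype.card_fin _
  have h4 : ∑ i : (Σ j : Fin (k + 1), Fin (e j)), ((univ.image q).filter (· < q i.1)).card =
      ∑ j : Fin (k + 1), (j : ℕ) * e j := by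
    rw [Fintype.sum_sigma]
    refine Finset.sum_congr rfl fun j _ => ?_
    simp only [GMC_card q hq j]
    rw [Finset.sum_const, Finset.card_univ, Fintype.card_fin, smul_eq_mul, mul_comm]
  have h5 : ∏ p ∈ (range (q (Fin.last k))).filter (fun p => p.Prime ∧ p ∉ univ.image q), p =
      ga k q := by
    unfold ga
    refine Finset.prod_congr ?_ fun _ _ => rfl
    ext p
    simp only [Finset.mem_filter, Finset.mem_image, Finset.mem_univ, true_and, not_exists]
  rw [h2, h3, h4, h5] at h1
  exact h1

end Pool.Agent.Work.MP_f1a024_nt.RW
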