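import Pool.Agent.Work.MP_f1a024_nt.RW.StmtsS

/-!
# Block WS, item GML: a Bertrand inequality (helper90)
-/

set_option autoImplicit false

namespace Pool.Agent.Work.MP_f1a024_nt.RW

open Finset

/-- the product of the primes below `X` not in `Q` -/
def GML_A (Q : Finset ℕ) (X : ℕ) : ℕ := ∏ p ∈ (range X).filter (fun p => p.Prime ∧ p ∉ Q), p

theorem GML_mono (Q : Finset ℕ) {X Y : ℕ} (h : X ≤ Y) : GML_A Q X ≤ GML_A Q Y := by
  unfold GML_A
  refine Finset.prod_le_prod_of_subset_of_one_le' ?_ ?_
  · intro p hp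
    rw [Finset.mem_filter, Finset.mem_range] at hp ⊢
    exact ⟨by omega, hp.2⟩
  · intro p hp _
    exact (Finset.mem_filter.1 hp).2.1.one_lt.le

theorem GML_one (Q : Finset ℕ) (X : ℕ) : 1 ≤ GML_A Q X := by
  unfold GML_A
  refine Finset.one_le_prod' ?_
  intro p hp
  exact (Finset.mem_filter.1 hp).2.1.one_lt.le

theorem GML_succ (Q : Finset ℕ) {p X : ℕ} (hp : p.Prime) (hX : p < X) (hQ : p ∉ Q) :
    p * GML_A Q p ≤ GML_A Q X := by
  unfold GML_A
  have h1 : p ∉ (range p).filter (fun p => p.Prime ∧ p ∉ Q) := by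
    rw [Finset.mem_filter, Finset.mem_range]
    omega
  rw [← Finset.prod_insert (f := fun p => p) h1]
  refine Finset.prod_le_prod_of_subset_of_one_le' ?_ ?_
  · intro p' hp'
    rcases Finset.mem_insert.1 hp' with rfl | h
    · rw [Finset.mem_filter, Finset.mem_range]
      exact ⟨hX, hp, hQ⟩
    · rw [Finset.mem_filter, Finset.mem_range] at h ⊢
      exact ⟨by omega, h.2⟩
  · intro p hp _
    exact (Finset.mem_filter.1 hp).2.1.one_lt.le

theorem GML_card (Q : Finset ℕ) {a b : ℕ} (h : a ≤ b) :
    (Q.filter (· < a)).card ≤ (Q.filter (· < b)).card := by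
  refine Finset.card_le_card ?_
  intro q hq
  rw [Finset.mem_filter] at hq ⊢
  exact ⟨hq.1, by omega⟩

theorem GML_card_lt (Q : Finset ℕ) {p b : ℕ} (hp : p ∈ Q) (h : p < b) :
    (Q.filter (· < p)).card + 1 ≤ (Q.filter (· < b)).card := by
  refine Finset.card_lt_card ?_
  rw [Finset.ssubset_iff_of_subset]
  · refine ⟨p, Finset.mem_filter.2 ⟨hp, h⟩, ?_⟩
    rw [Finset.mem_filter]
    omega
  · intro q hq
    rw [Finset.mem_filter] at hq ⊢
    exact ⟨hq.1, by omega⟩

/-- the largest prime below `X` -/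
theorem GML_prime {X : ℕ} (hX : 3 ≤ X) : ∃ p, p.Prime ∧ p < X ∧ X ≤ 2 * p := by
  have h2 : 2 ≤ X - 1 := by omega
  have hp := Nat.findGreatest_spec (P := Nat.Prime) h2 Nat.prime_two
  set p := Nat.findGreatest Nat.Prime (X - 1) with hpdef
  have hle : p ≤ X - 1 := Nat.findGreatest_le _
  refine ⟨p, hp, by omega, ?_⟩
  obtain ⟨p', hp', h3, h4⟩ := Nat.exists_prime_lt_and_le_two_mul p hp.ne_zero
  by_contra hc
  have h5 : p' ≤ p := Nat.le_findGreatest (by omega) hp'
  omega

/-- item GML -/
theorem prfGML : GML := by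
  classical
  intro Q X
  induction X using Nat.strong_induction_on with
  | _ X ih =>
  intro ι I x hx
  change _ ≤ _ * GML_A Q X
  rcases Nat.lt_or_ge X 3 with hX | hX
  · -- `X ≤ 2`
    have h1 : ∏ i ∈ I, x i ≤ 2 ^ I.card := by
      refine Finset.prod_le_pow_card _ _ _ fun i hi => ?_
      have := hx i hi
      omega
    have h2 : I.card ≤ I.card * (I.card + 1) / 2 := by
      rw [Nat.le_div_iff_mul_le two_pos]
      rcases Nat.eq_zero_or_pos I.card with h0 | h0
      · simp [h0]
      · exact Nat.mul_le_mul_left _ (by omega)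
    calc ∏ i ∈ I, x i ≤ 2 ^ I.card := h1
      _ ≤ 2 ^ (I.card * (I.card + 1) / 2 + ∑ i ∈ I, (Q.filter (· < x i)).card) :=
        Nat.pow_le_pow_right two_pos (by omega)
      _ ≤ _ := Nat.le_mul_of_pos_right _ (GML_one Q X)
  · obtain ⟨p, hp, hpX, hX2⟩ := GML_prime hX
    have hy2 : ∀ i ∈ I, x i ≤ 2 * min (x i) p := by
      intro i hi
      have := hx i hi
      rcases le_total (x i) p with h | h
      · rw [min_eq_left h]
        omega
      · rw [min_eq_right h]
        omega
    by_cases hpQ : p ∈ Q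
    · -- `p ∈ Q`
      have h1 : ∀ i ∈ I, x i * 2 ^ (Q.filter (· < min (x i) p)).card ≤
          min (x i) p * 2 ^ (Q.filter (· < x i)).card := by
        intro i hi
        rcases le_or_gt (x i) p with h | h
        · rw [min_eq_left h]
        · rw [min_eq_right h.le]
          have h2 := GML_card_lt Q hpQ h
          have h3 := hx i hi
          calc x i * 2 ^ (Q.filter (· < p)).card ≤ (2 * p) * 2 ^ (Q.filter (· < p)).card :=
                Nat.mul_le_mul_right _ (by omega)
            _ = p * 2 ^ ((Q.filter (· < p)).card + 1) := by rw [pow_succ]; ring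
            _ ≤ p * 2 ^ (Q.filter (· < x i)).card :=
                Nat.mul_le_mul_left _ (Nat.pow_le_pow_right two_pos h2)
      have h2 := Finset.prod_le_prod' h1
      rw [Finset.prod_mul_distrib, Finset.prod_mul_distrib, Finset.prod_pow_eq_pow_sum,
        Finset.prod_pow_eq_pow_sum] at h2
      have h3 := ih p hpX ι I (fun i => min (x i) p) (fun i _ => min_le_right _ _)
      change _ ≤ _ * GML_A Q p at h3
      set a := ∑ i ∈ I, (Q.filter (· < min (x i) p)).card with ha
      set b := ∑ i ∈ I, (Q.filter (· < x i)).card with hb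
      set c := I.card * (I.card + 1) / 2 with hc
      have h4 : (∏ i ∈ I, x i) * 2 ^ a ≤ (2 ^ (c + b) * GML_A Q X) * 2 ^ a := by
        calc (∏ i ∈ I, x i) * 2 ^ a ≤ (∏ i ∈ I, min (x i) p) * 2 ^ b := h2
          _ ≤ (2 ^ (c + a) * GML_A Q p) * 2 ^ b := Nat.mul_le_mul_right _ h3
          _ ≤ (2 ^ (c + a) * GML_A Q X) * 2 ^ b :=
              Nat.mul_le_mul_right _ (Nat.mul_le_mul_left _ (GML_mono Q hpX.le))
          _ = (2 ^ (c + b) * GML_A Q X) * 2 ^ a := by rw [pow_add, pow_add]; ring
      exact Nat.le_of_mul_le_mul_right h4 (pow_pos two_pos a)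
    · -- `p ∉ Q`
      by_cases hall : ∀ i ∈ I, x i ≤ p
      · have h3 := ih p hpX ι I x hall
        change _ ≤ _ * GML_A Q p at h3
        exact h3.trans (Nat.mul_le_mul_left _ (GML_mono Q hpX.le))
      · push Not at hall
        obtain ⟨i₁, hi₁, hpi⟩ := hall
        have h3 := ih p hpX ι (I.erase i₁) (fun i => min (x i) p) (fun i _ => min_le_right _ _)
        change _ ≤ _ * GML_A Q p at h3
        have hcard : (I.erase i₁).card + 1 = I.card := Finset.card_erase_add_one hi₁
        set c := (I.erase i₁).card with hc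
        have h4 : ∏ i ∈ I.erase i₁, x i ≤ 2 ^ c * ∏ i ∈ I.erase i₁, min (x i) p := by
          rw [hc, ← Finset.prod_const, ← Finset.prod_mul_distrib]
          exact Finset.prod_le_prod' fun i hi => hy2 i (Finset.mem_of_mem_erase hi)
        have h5 : ∑ i ∈ I.erase i₁, (Q.filter (· < min (x i) p)).card ≤
            ∑ i ∈ I, (Q.filter (· < x i)).card := by
          calc ∑ i ∈ I.erase i₁, (Q.filter (· < min (x i) p)).card ≤
                ∑ i ∈ I.erase i₁, (Q.filter (· < x i)).card :=
                Finset.sum_le_sum fun i _ => GML_card Q (min_le_left _ _)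
            _ ≤ ∑ i ∈ I, (Q.filter (· < x i)).card :=
                Finset.sum_le_sum_of_subset (Finset.erase_subset _ _)
        have h6 : c + 1 + c * (c + 1) / 2 = I.card * (I.card + 1) / 2 := by
          rw [← hcard]
          have h7 : (c + 1) * (c + 1 + 1) = c * (c + 1) + (c + 1) * 2 := by ring
          rw [h7, Nat.add_mul_div_right _ _ two_pos]
          omega
        rw [← Finset.mul_prod_erase I x hi₁]
        have h8 : x i₁ ≤ 2 * p := (hx i₁ hi₁).trans hX2
        calc x i₁ * ∏ i ∈ I.erase i₁, x i ≤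
              (2 * p) * (2 ^ c * (2 ^ (c * (c + 1) / 2 +
                ∑ i ∈ I.erase i₁, (Q.filter (· < min (x i) p)).card) * GML_A Q p)) :=
              Nat.mul_le_mul h8 (h4.trans (Nat.mul_le_mul_left _ h3))
          _ = 2 ^ (c + 1 + c * (c + 1) / 2 +
                ∑ i ∈ I.erase i₁, (Q.filter (· < min (x i) p)).card) * (p * GML_A Q p) := by
              rw [pow_add, pow_add, pow_add, pow_add]
              ring
          _ ≤ 2 ^ (I.card * (I.card + 1) / 2 + ∑ i ∈ I, (Q.filter (· < x i)).card) *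
                GML_A Q X := by
              refine Nat.mul_le_mul (Nat.pow_le_pow_right two_pos ?_) (GML_succ Q hp hpX hpQ)
              rw [← h6]
              omega

end Pool.Agent.Work.MP_f1a024_nt.RW
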