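import Pool.Agent.Work.MP_f1a024_nt.RW.StmtsS

/-! # Block WS, item KQS: the smallest primes with the exponent of `κ` -/

set_option autoImplicit false

namespace Pool.Agent.Work.MP_f1a024_nt.RW

open Finset MvPolynomial Filter
open Pool.Agent.Work.MP_f1a024_nt.AH (tau PG val D1 D2 D4 D10a D10b)

theorem KQS_nn_sum (hNB : NB) (T : Finset Nat.Primes) :
    nn (∑ q ∈ T, Finsupp.single q 1) = ∏ q ∈ T, (q : ℕ) := by
  classical
  obtain ⟨h0, h1, -, -, -, -, -, -, h2, -⟩ := hNB
  induction T using Finset.induction_on with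
  | empty => rw [Finset.sum_empty, Finset.prod_empty, h0]
  | insert q T hq ih =>
    rw [Finset.sum_insert hq, Finset.prod_insert hq, h1, ih, h2, pow_one]

theorem KQS_sum_single (T : Finset Nat.Primes) (q : Nat.Primes) :
    (∑ q' ∈ T, Finsupp.single q' 1 : Ex) q = if q ∈ T then 1 else 0 := by
  classical
  rw [Finsupp.finsetSum_apply]
  simp only [Finsupp.single_apply]
  rw [Finset.sum_ite_eq']

/-- the primes at which the two exponents agree -/
def KQS_G (κ U : Ex) (n : ℕ) : Prop := ∃ h : n.Prime, U ⟨n, h⟩ = κ ⟨n, h⟩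

theorem KQS_inf (κ U : Ex) (hκ : κ ≤ U) : {n : ℕ | KQS_G κ U n}.Infinite := by
  classical
  have h1 : {n : ℕ | n.Prime}.Infinite := Nat.infinite_setOfPred_prime
  have h2 : ((U.support.image (fun p : Nat.Primes => (p : ℕ)) : Finset ℕ) : Set ℕ).Finite :=
    Finset.finite_toSet _
  refine (h1.sdiff h2).mono ?_
  rintro n ⟨hn, hns⟩
  have hn' : n.Prime := hn
  refine ⟨hn', ?_⟩
  have h3 : U ⟨n, hn'⟩ = 0 := by
    by_contra hc
    apply hns
    rw [Finset.mem_coe, Finset.mem_image]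
    exact ⟨⟨n, hn'⟩, Finsupp.mem_support_iff.mpr hc, rfl⟩
  have h4 : κ ⟨n, hn'⟩ ≤ U ⟨n, hn'⟩ := hκ _
  omega

theorem prfKQS (hNB : NB) : KQS := by
  classical
  intro k κ U hκ
  have hNB' := hNB
  obtain ⟨h0, nadd, npos, -, -, -, nle, -, -, -⟩ := hNB'
  have hinf := KQS_inf κ U hκ
  have hmem : ∀ j, KQS_G κ U (Nat.nth (KQS_G κ U) j) := fun j => Nat.nth_mem_of_infinite hinf j
  have hmono : StrictMono (Nat.nth (KQS_G κ U)) := Nat.nth_strictMono hinf
  refine ⟨fun j => ⟨Nat.nth (KQS_G κ U) j, (hmem j).1⟩, fun i j hij => hmono hij,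
    fun j => (hmem j).2, ?_⟩
  set q : Fin (k + 1) → ℕ := fun j => Nat.nth (KQS_G κ U) j with hq
  change nn κ * ga k q ≤ nn U
  set P := (range (q (Fin.last k))).filter (fun p => p.Prime ∧ ∀ j, q j ≠ p) with hP
  have hga : ga k q = ∏ p ∈ P, p := rfl
  set T' : Finset Nat.Primes := P.subtype (fun p => p.Prime) with hT
  have hPT : ∏ p ∈ T', (p : ℕ) = ∏ p ∈ P, p :=
    Finset.prod_subtype_of_mem (s := P) (fun p : ℕ => p) (p := fun p => p.Prime)
      (fun x hx => (Finset.mem_filter.1 hx).2.1)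
  have hT1 : ∀ p ∈ T', κ p + 1 ≤ U p := by
    intro p hp
    have h1 := Finset.mem_filter.1 (Finset.mem_subtype.1 hp)
    have h2 : (p : ℕ) < Nat.nth (KQS_G κ U) k := Finset.mem_range.1 h1.1
    have h3 : κ p ≤ U p := hκ p
    have h4 : U p ≠ κ p := by
      intro h5
      have h6 : KQS_G κ U (p : ℕ) := ⟨p.2, h5⟩
      have h7 := Nat.nth_count h6
      have h8 : Nat.count (KQS_G κ U) (p : ℕ) < k + 1 := by
        by_contra h9
        have h10 : k < Nat.count (KQS_G κ U) (p : ℕ) := by omega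
        have h12 : Nat.nth (KQS_G κ U) k < Nat.nth (KQS_G κ U) (Nat.count (KQS_G κ U) (p : ℕ)) :=
          hmono h10
        rw [h7] at h12
        omega
      exact h1.2.2 ⟨_, h8⟩ h7
    omega
  have hη : κ + ∑ p ∈ T', Finsupp.single p 1 ≤ U := by
    intro p
    rw [Finsupp.add_apply, KQS_sum_single]
    split_ifs with hp
    · exact hT1 p hp
    · have h3 : κ p ≤ U p := hκ p
      omega
  have h4 := Nat.le_of_dvd (npos _) ((nle _ _).1 hη)
  rw [nadd, KQS_nn_sum hNB, hPT, ← hga] at h4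
  exact h4

end Pool.Agent.Work.MP_f1a024_nt.RW
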