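import Pool.Agent.Work.MP_f1a024_nt.RW.StmtsS

/-!
# Block WS, item LLS: the local lemma for the simplex
-/

namespace Pool.Agent.Work.MP_f1a024_nt.RW

open Finset MvPolynomial Filter
open Pool.Agent.Work.MP_f1a024_nt.AH (tau PG val D1 D2 D4 D10a D10b)

/-- extension by zero of a vector on the simplex to the box -/
noncomputable def LLS_ext {k D d : ℕ} (A : Fin (d + 1) ≃ SX k D) (z : Fin (d + 1) → ℚ)
    (α : Fin (k + 1) → Fin (D + 1)) : ℚ :=
  if h : wt α ≤ D then z (A.symm ⟨α, h⟩) else 0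

/-- sums over the box and over the simplex -/
theorem LLS_sum {k D d d' : ℕ} (A : Fin (d + 1) ≃ SX k D)
    (A' : Fin (d' + 1) ≃ (Fin (k + 1) → Fin (D + 1))) (z : Fin (d + 1) → ℚ)
    (g : (Fin (k + 1) → Fin (D + 1)) → ℚ) :
    ∑ i', LLS_ext A z (A' i') * g (A' i') = ∑ i, z i * g (A i).1 := by
  classical
  rw [Equiv.sum_comp A' (fun α => LLS_ext A z α * g α),
    ← Equiv.sum_comp A.symm (fun i => z i * g (A i).1)]
  simp only [Equiv.apply_symm_apply]
  have h1 : ∑ α, LLS_ext A z α * g α =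
      ∑ α ∈ univ.filter (fun α : Fin (k + 1) → Fin (D + 1) => wt α ≤ D),
        LLS_ext A z α * g α := by
    refine (Finset.sum_filter_of_ne fun α _ hα => ?_).symm
    by_contra hc
    apply hα
    rw [LLS_ext, dif_neg hc, zero_mul]
  rw [h1, Finset.sum_subtype (univ.filter fun α : Fin (k + 1) → Fin (D + 1) => wt α ≤ D)
    (p := fun α => wt α ≤ D) (fun α => by simp) (fun α => LLS_ext A z α * g α)]
  refine Finset.sum_congr rfl fun α _ => ?_
  rw [LLS_ext, dif_pos α.2]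

/-- the orthogonality relations -/
theorem LLS_rel (h1 : LBJ) (h2 : ORJ) (hD : D10b) {k D d : ℕ} {s : Fin (k + 1) → ℕ}
    {A : Fin (d + 1) ≃ SX k D} (hs : Function.Injective s)
    {q : Fin (k + 1) → ℕ} (hq : Function.Injective q) (hqp : ∀ j, (q j).Prime)
    {z : Fin (d + 1) → ℚ}
    (hz : ∀ e : Fin (k + 1) → ℕ, ∑ j, e j ≤ D → ∑ i, z i * fS s A i (∏ j, q j ^ e j) = 0)
    (α : SX k D) : ∑ i, z i * bi α.1 (A i).1 = 0 := by
  obtain ⟨A', hA'⟩ := h2 k D
  have hr : A' (A'.symm α.1) = α.1 := Equiv.apply_symm_apply _ _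
  have hc : cJ A' (A'.symm α.1 : ℕ) ≤ D := by
    rw [cJ, dif_pos (A'.symm α.1).2]
    show wt (A' (A'.symm α.1)) ≤ D
    rw [hr]
    exact α.2
  have h3 := h1 hD k D _ s A' hs hA' (A'.symm α.1 : ℕ) (Nat.lt_succ_iff.1 (A'.symm α.1).2) q hq
    hqp (fun i' => LLS_ext A z (A' i')) (fun e he => by
      have h4 := LLS_sum A A' z
        (fun β => (∏ j, ft (s j) ^ (β j : ℕ) : ArithmeticFunction ℚ) (∏ j, q j ^ e j))
      exact h4.trans (hz e (he.trans hc)))
    (fun i' => bi (A' (A'.symm α.1)) (A' i'))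
    (Submodule.subset_span ⟨A'.symm α.1, le_rfl, rfl⟩)
  rw [hr] at h3
  exact (LLS_sum A A' z (bi α.1)).symm.trans h3

/-- item LLS -/
theorem prfLLS (h1 : LBJ) (h2 : ORJ) : LLS := by
  classical
  intro hD k D d s A hs q hq hqp z hz
  have hrel := LLS_rel h1 h2 hD hs hq hqp hz
  by_contra hne
  obtain ⟨i1, hi1⟩ : ∃ i, z i ≠ 0 := by
    by_contra hc
    push Not at hc
    exact hne (funext hc)
  obtain ⟨i0, hi0, hmax⟩ := Finset.exists_max_image
    (univ.filter fun i : Fin (d + 1) => z i ≠ 0) (fun i => wt (A i).1) ⟨i1, by simp [hi1]⟩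
  have hz0 : z i0 ≠ 0 := by simpa using hi0
  have hI := hrel (A i0)
  rw [Finset.sum_eq_single i0] at hI
  · have hb : bi (A i0).1 (A i0).1 = 1 := by simp [bi]
    rw [hb, mul_one] at hI
    exact hz0 hI
  · intro b _ hb
    by_contra hne
    have h3 : z b ≠ 0 := left_ne_zero_of_mul hne
    have h4 : bi (A i0).1 (A b).1 ≠ 0 := right_ne_zero_of_mul hne
    have h5 : ∀ j, ((A i0).1 j : ℕ) ≤ ((A b).1 j : ℕ) := by
      intro j
      by_contra hlt
      rw [not_le] at hlt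
      apply h4
      unfold bi
      apply Finset.prod_eq_zero (Finset.mem_univ j)
      rw [Nat.choose_eq_zero_of_lt hlt, Nat.cast_zero]
    have h6 : wt (A b).1 ≤ wt (A i0).1 := hmax b (by simp [h3])
    have h7 : wt (A i0).1 ≤ wt (A b).1 := Finset.sum_le_sum fun j _ => h5 j
    have h8 : ∀ j ∈ (univ : Finset (Fin (k + 1))), ((A i0).1 j : ℕ) = (A b).1 j :=
      (Finset.sum_eq_sum_iff_of_le (fun j _ => h5 j)).mp (le_antisymm h7 h6)
    apply hb
    apply A.injective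
    apply Subtype.ext
    exact funext fun j => Fin.ext (h8 j (Finset.mem_univ j)).symm
  · simp

end Pool.Agent.Work.MP_f1a024_nt.RW
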