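import Pool.Agent.Work.MP_f1a024_nt.RW.StmtsS
import Pool.Agent.Work.MP_f1a024_nt.RW.MRq

/-!
Item MRF of block WS: the real form of the core statement with an abstract zero estimate for
several flags (adapted from MRK).
-/

namespace Pool.Agent.Work.MP_f1a024_nt.RW

open Finset MvPolynomial Filter
open Pool.Agent.Work.MP_f1a024_nt.AH (tau PG val D1 D2 D4 D10a D10b)

theorem prfMRF (hCR : CRF) : MRF := by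
  intro d f ι _ _ T ζ hf hT hZ B ε hε
  by_contra hcon
  push Not at hcon
  obtain ⟨𝒰, h𝒰, hp⟩ := MRq_ultra (fun n => ∃ (x : Fin (d + 1) → ℤ) (H : ℝ), x ≠ 0 ∧
    (∀ i, |(x i : ℝ)| ≤ H) ∧ (∀ r ≤ d, ζ r ^ n ≤ H ^ r) ∧ H ≤ B ^ n ∧
    |∑ i, (x i : ℝ) * val (f i) n| < Real.exp (-(ε * n)) * (H ^ d)⁻¹) hcon
  have hch : ∀ n : ℕ, ∃ (x : Fin (d + 1) → ℤ) (H : ℝ),
      (∃ (x : Fin (d + 1) → ℤ) (H : ℝ), x ≠ 0 ∧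
        (∀ i, |(x i : ℝ)| ≤ H) ∧ (∀ r ≤ d, ζ r ^ n ≤ H ^ r) ∧ H ≤ B ^ n ∧
        |∑ i, (x i : ℝ) * val (f i) n| < Real.exp (-(ε * n)) * (H ^ d)⁻¹) →
      (x ≠ 0 ∧
        (∀ i, |(x i : ℝ)| ≤ H) ∧ (∀ r ≤ d, ζ r ^ n ≤ H ^ r) ∧ H ≤ B ^ n ∧
        |∑ i, (x i : ℝ) * val (f i) n| < Real.exp (-(ε * n)) * (H ^ d)⁻¹) := by
    intro n
    by_cases h : ∃ (x : Fin (d + 1) → ℤ) (H : ℝ), x ≠ 0 ∧
        (∀ i, |(x i : ℝ)| ≤ H) ∧ (∀ r ≤ d, ζ r ^ n ≤ H ^ r) ∧ H ≤ B ^ n ∧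
        |∑ i, (x i : ℝ) * val (f i) n| < Real.exp (-(ε * n)) * (H ^ d)⁻¹
    · obtain ⟨x, H, h1⟩ := h
      exact ⟨x, H, fun _ => h1⟩
    · exact ⟨0, 0, fun h1 => absurd h1 h⟩
  choose x H hxH using hch
  have hev : ∀ᶠ n : ℕ in (𝒰 : Filter ℕ), x n ≠ 0 ∧ (∀ i, |(x n i : ℝ)| ≤ H n) ∧
      (∀ r ≤ d, ζ r ^ n ≤ H n ^ r) ∧ H n ≤ B ^ n ∧
      |∑ i, (x n i : ℝ) * val (f i) n| < Real.exp (-(ε * n)) * (H n ^ d)⁻¹ :=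
    hp.mono fun n hn => hxH n hn
  have h1 := hCR d f ι T ζ hf hT hZ 𝒰 x H B ε h𝒰 hε
    (hev.mono fun n hn => ⟨hn.1, hn.2.1, hn.2.2.1, hn.2.2.2.1⟩)
  obtain ⟨n, hn1, hn2⟩ := (h1.and hev).exists
  exact absurd hn1 (not_le.mpr hn2.2.2.2.2)

end Pool.Agent.Work.MP_f1a024_nt.RW
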