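import Pool.Agent.Work.MP_f1a024_nt.RW.StmtsS

/-!
# Block WS, item MTS: THEOREM WS (adapted from MTK)
-/

set_option autoImplicit false

namespace Pool.Agent.Work.MP_f1a024_nt.RW

open Finset MvPolynomial Filter
open Pool.Agent.Work.MP_f1a024_nt.AH (tau PG val D1 D2 D4 D10a D10b)

/-- there is a tuple of primes below `Q` -/
theorem MTS_nonempty (k Q : ℕ) (hQ : Nat.nth Nat.Prime k < Q) : Nonempty (QT k Q) := by
  have h1 : ∀ j : Fin (k + 1), Nat.nth Nat.Prime j < Q := fun j =>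
    lt_of_le_of_lt (Nat.nth_monotone Nat.infinite_setOfPred_prime (by have := j.2; omega)) hQ
  refine ⟨⟨fun j => ⟨Nat.nth Nat.Prime j, h1 j⟩, ?_, fun j => ?_⟩⟩
  · intro i j hij
    rw [Fin.lt_def]
    exact Nat.nth_strictMono Nat.infinite_setOfPred_prime hij
  · exact Nat.prime_nth_prime j

/-- the case `k ≥ 1` -/
theorem MTS_pos (hD1 : D1) (hD2 : D2) (hD10a : D10a) (hD10b : D10b) (h1 : CDS) (h2 : SRT)
    (h3 : FRS) (h4 : ZSF) (h5 : VLS) (h6 : PLS) (h7 : MRF) (k D : ℕ) (hk : 1 ≤ k)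
    (s : Fin (k + 1) → ℕ) (B ε : ℝ) (hs : Function.Injective s) (hε : 0 < ε) :
    ∃ M : ℕ, ∀ n ≥ M, ∀ (P : MvPolynomial (Fin (k + 1)) ℤ) (H : ℝ), P ≠ 0 →
      P.totalDegree ≤ D → (∀ I, |((P.coeff I : ℤ) : ℝ)| ≤ H) → 2 ^ n ≤ H → H ≤ B ^ n →
      Real.exp (-(ε * n)) * (H ^ ((D + k + 1).choose (k + 1) - 1))⁻¹ ≤
        ‖MvPolynomial.aeval (fun j => riemannZeta (2 * ((n + s j : ℕ) : ℂ)) /
          riemannZeta ((n + s j : ℕ) : ℂ) ^ 2) P‖ := by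
  classical
  have hpos : 0 < (D + k + 1).choose (k + 1) := Nat.choose_pos (by omega)
  obtain ⟨d, hd⟩ : ∃ d, (D + k + 1).choose (k + 1) = d + 1 :=
    ⟨_, (Nat.succ_pred_eq_of_pos hpos).symm⟩
  obtain ⟨A, hA⟩ := h2 k D d hk ((h1 k D).trans hd)
  obtain ⟨Q, hQ⟩ : ∃ Q, Q = 2 ^ ((D + k + 1) * (D + k + 2) / 2) + Nat.nth Nat.Prime k + 1 :=
    ⟨_, rfl⟩
  have h2p : 0 < 2 ^ ((D + k + 1) * (D + k + 2) / 2) := by positivity
  have : Nonempty (QT k Q) := MTS_nonempty k Q (by omega)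
  have : Fintype (QT k Q) := Fintype.ofFinite _
  obtain ⟨hPG, M₂, hM₂⟩ := h5 hD1 hD2 hD10a k D d s A
  have hz := h4 hD10b k D d Q s A hs hA (by omega)
  have hdim : ∀ j : QT k Q, ∀ r ≤ d,
      Module.finrank ℚ (TS s A (fun i => (j.1 i : ℕ)) r) = r + 1 := by
    intro j r hr
    refine h3 hD10b k D d s A hs (fun i => (j.1 i : ℕ)) ?_ j.2.2 r hr
    intro a b hab
    exact j.2.1.injective (Fin.ext hab)
  obtain ⟨M₁, hM₁⟩ := h7 d (fS s A) (QT k Q) (fun j => TS s A fun i => (j.1 i : ℕ))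
    (fun r => 2 ^ r) hPG hdim hz B ε hε
  refine ⟨max M₁ M₂, fun n hn P H hP hdeg hco hH1 hH2 => ?_⟩
  have hn1 : M₁ ≤ n := le_trans (le_max_left _ _) hn
  have hn2 : M₂ ≤ n := le_trans (le_max_right _ _) hn
  obtain ⟨hx, hsum⟩ := h6 k D d A P hdeg
  have h8 := hM₁ n hn1
    (fun i => P.coeff (Finsupp.equivFunOnFinite.symm fun j => ((A i).1 j : ℕ))) H (hx hP)
    (fun i => hco _) (fun r _ => by
      calc ((2 : ℝ) ^ r) ^ n = ((2 : ℝ) ^ n) ^ r := by rw [← pow_mul, ← pow_mul, mul_comm]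
        _ ≤ H ^ r := pow_le_pow_left₀ (by positivity) hH1 r) hH2
  have e : (D + k + 1).choose (k + 1) - 1 = d := by omega
  rw [e]
  refine le_trans h8 (le_of_eq ?_)
  rw [hsum]
  have h9 : ∑ i, ((P.coeff (Finsupp.equivFunOnFinite.symm fun j => ((A i).1 j : ℕ)) : ℤ) : ℂ) *
      ∏ j, (riemannZeta (2 * ((n + s j : ℕ) : ℂ)) / riemannZeta ((n + s j : ℕ) : ℂ) ^ 2) ^
        ((A i).1 j : ℕ) =
      ((∑ i, ((P.coeff (Finsupp.equivFunOnFinite.symm fun j => ((A i).1 j : ℕ)) : ℤ) : ℝ) *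
        val (fS s A i) n : ℝ) : ℂ) := by
    push_cast
    refine Finset.sum_congr rfl fun i _ => ?_
    rw [hM₂ n hn2 i]
    push_cast
    rfl
  rw [h9, Complex.norm_real, Real.norm_eq_abs]

/-- item MTS -/
theorem prfMTS (hD1 : D1) (hD2 : D2) (hD10a : D10a) (hD10b : D10b) (h0 : MTK) (h1 : CDS)
    (h2 : SRT) (h3 : FRS) (h4 : ZSF) (h5 : VLS) (h6 : PLS) (h7 : MRF) : MTS := by
  intro k D s B ε hs hε
  rcases Nat.eq_zero_or_pos k with hk | hk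
  · subst hk
    obtain ⟨M, hM⟩ := h0 0 D s B ε hs hε
    refine ⟨M, fun n hn P H hP hdeg hco hH1 hH2 => ?_⟩
    have h := hM n hn P H hP
      (fun j => (MvPolynomial.degreeOf_le_totalDegree P j).trans hdeg) hco (by simpa using hH1) hH2
    have e : (D + 0 + 1).choose (0 + 1) - 1 = (D + 1) ^ (0 + 1) - 1 := by simp
    rw [e]
    exact h
  · exact MTS_pos hD1 hD2 hD10a hD10b h1 h2 h3 h4 h5 h6 h7 k D hk s B ε hs hε

end Pool.Agent.Work.MP_f1a024_nt.RW
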