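import Pool.Agent.Work.MP_f1a024_nt.RW.StmtsS
import Pool.Agent.Work.MP_f1a024_nt.RW.OPK

/-!
# Block WS, item NRS: the products of the values are near `1`
-/

namespace Pool.Agent.Work.MP_f1a024_nt.RW

open Finset MvPolynomial Filter
open Pool.Agent.Work.MP_f1a024_nt.AH (tau PG val D1 D2 D4 D10a D10b)

/-- `x` is near `1`, with weight `m` -/
def NRS_near (c δ : ℝ) (m : ℕ) (x : ℝ) : Prop := |x - 1| * c ≤ ((1 + c) ^ m - 1) * δ

theorem NRS_near_one (c δ : ℝ) : NRS_near c δ 0 1 := by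
  unfold NRS_near
  simp

theorem NRS_near_mul {c δ : ℝ} (hc : 0 < c) (hδ : 0 ≤ δ) (hδc : δ ≤ c) {m m' : ℕ} {x y : ℝ}
    (hx : NRS_near c δ m x) (hy : NRS_near c δ m' y) : NRS_near c δ (m + m') (x * y) := by
  unfold NRS_near at *
  have h1 : (1 : ℝ) ≤ (1 + c) ^ m := one_le_pow₀ (by linarith)
  have h2 : (1 : ℝ) ≤ (1 + c) ^ m' := one_le_pow₀ (by linarith)
  have e1 : |x * y - 1| ≤ |x - 1| * |y| + |y - 1| := by
    have : x * y - 1 = (x - 1) * y + (y - 1) := by ring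
    rw [this]
    refine (abs_add_le _ _).trans ?_
    rw [abs_mul]
  have e2 : |y| ≤ (1 + c) ^ m' := by
    have h3 : |y| ≤ 1 + |y - 1| := by
      have : y = 1 + (y - 1) := by ring
      calc |y| = |1 + (y - 1)| := by rw [← this]
        _ ≤ |(1 : ℝ)| + |y - 1| := abs_add_le _ _
        _ = 1 + |y - 1| := by rw [abs_one]
    have h4 : |y - 1| ≤ (1 + c) ^ m' - 1 := by
      have h5 : |y - 1| * c ≤ ((1 + c) ^ m' - 1) * c :=
        hy.trans (mul_le_mul_of_nonneg_left hδc (by linarith))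
      exact le_of_mul_le_mul_right h5 hc
    linarith
  have e3 : |x - 1| * c * |y| ≤ ((1 + c) ^ m - 1) * δ * (1 + c) ^ m' :=
    mul_le_mul hx e2 (abs_nonneg _) (mul_nonneg (by linarith) hδ)
  calc |x * y - 1| * c ≤ (|x - 1| * |y| + |y - 1|) * c :=
        mul_le_mul_of_nonneg_right e1 hc.le
    _ = |x - 1| * c * |y| + |y - 1| * c := by ring
    _ ≤ ((1 + c) ^ m - 1) * δ * (1 + c) ^ m' + ((1 + c) ^ m' - 1) * δ := add_le_add e3 hy
    _ = ((1 + c) ^ (m + m') - 1) * δ := by rw [pow_add]; ring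

theorem NRS_near_pow {c δ : ℝ} (hc : 0 < c) (hδ : 0 ≤ δ) (hδc : δ ≤ c) {x : ℝ}
    (hx : |x - 1| ≤ δ) (e : ℕ) : NRS_near c δ e (x ^ e) := by
  have h1 : NRS_near c δ 1 x := by
    unfold NRS_near
    have : ((1 + c) ^ 1 - 1) * δ = δ * c := by ring
    rw [this]
    exact mul_le_mul_of_nonneg_right hx hc.le
  induction e with
  | zero => rw [pow_zero]; exact NRS_near_one c δ
  | succ e ih => rw [pow_succ]; exact NRS_near_mul hc hδ hδc ih h1

theorem NRS_near_prod {ι : Type*} {c δ : ℝ} (hc : 0 < c) (hδ : 0 ≤ δ) (hδc : δ ≤ c) (S : Finset ι)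
    (x : ι → ℝ) (e : ι → ℕ) (hx : ∀ i, |x i - 1| ≤ δ) :
    NRS_near c δ (∑ i ∈ S, e i) (∏ i ∈ S, x i ^ e i) := by
  classical
  induction S using Finset.induction_on with
  | empty => rw [Finset.sum_empty, Finset.prod_empty]; exact NRS_near_one c δ
  | insert i S hi ih =>
    rw [Finset.sum_insert hi, Finset.prod_insert hi]
    exact NRS_near_mul hc hδ hδc (NRS_near_pow hc hδ hδc (hx i) (e i)) ih

theorem prfNRS : NRS := by
  intro hD4 hD10a hD10b k D s
  obtain ⟨C₁, M₁, hC₁, hM₁⟩ := OPK_near hD4 hD10a hD10b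
  obtain ⟨M₂, hM₂⟩ := hD10a.2
  refine ⟨(1 + C₁) ^ ((k + 1) * D), max M₁ M₂, by positivity, fun n hn => ?_⟩
  refine ⟨fun j => val tau (n + s j), fun j => ?_, fun I => ?_⟩
  · exact hM₂ (n + s j) (((le_max_right _ _).trans hn).trans (Nat.le_add_right _ _))
  · have hhalf : (0 : ℝ) ≤ (1 / 2 : ℝ) ^ n := by positivity
    have hhalf1 : (1 / 2 : ℝ) ^ n ≤ 1 := pow_le_one₀ (by norm_num) (by norm_num)
    have hnear : ∀ j, |val tau (n + s j) - 1| ≤ C₁ * (1 / 2 : ℝ) ^ n := by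
      intro j
      have h1 := hM₁ (n + s j) (((le_max_left _ _).trans hn).trans (Nat.le_add_right _ _))
      have h2 := hM₂ (n + s j) (((le_max_right _ _).trans hn).trans (Nat.le_add_right _ _))
      rw [← h2] at h1
      have h3 : ((val tau (n + s j) : ℝ) : ℂ) - 1 = ((val tau (n + s j) - 1 : ℝ) : ℂ) := by
        push_cast; ring
      rw [h3, Complex.norm_real, Real.norm_eq_abs] at h1
      refine h1.trans (mul_le_mul_of_nonneg_left ?_ hC₁.le)
      exact pow_le_pow_of_le_one (by norm_num) (by norm_num) (Nat.le_add_right _ _)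
    have hδc : C₁ * (1 / 2 : ℝ) ^ n ≤ C₁ := mul_le_of_le_one_right hC₁.le hhalf1
    have h := NRS_near_prod hC₁ (mul_nonneg hC₁.le hhalf) hδc Finset.univ
      (fun j => val tau (n + s j)) (fun j => (I.1 j : ℕ)) hnear
    unfold NRS_near at h
    have hsum : ∑ j : Fin (k + 1), (I.1 j : ℕ) ≤ (k + 1) * D := by
      calc ∑ j : Fin (k + 1), (I.1 j : ℕ) ≤ ∑ _j : Fin (k + 1), D :=
            Finset.sum_le_sum fun j _ => Nat.lt_succ_iff.mp (I.1 j).isLt
        _ = (k + 1) * D := by simp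
    have hpow : (1 + C₁) ^ (∑ j : Fin (k + 1), (I.1 j : ℕ)) ≤ (1 + C₁) ^ ((k + 1) * D) :=
      pow_le_pow_right₀ (by linarith) hsum
    have h2 : |∏ j, val tau (n + s j) ^ (I.1 j : ℕ) - 1| * C₁ ≤
        ((1 + C₁) ^ ((k + 1) * D) * (1 / 2 : ℝ) ^ n) * C₁ := by
      refine h.trans ?_
      calc ((1 + C₁) ^ (∑ j : Fin (k + 1), (I.1 j : ℕ)) - 1) * (C₁ * (1 / 2 : ℝ) ^ n) ≤
            (1 + C₁) ^ ((k + 1) * D) * (C₁ * (1 / 2 : ℝ) ^ n) := by
            apply mul_le_mul_of_nonneg_right _ (mul_nonneg hC₁.le hhalf)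
            linarith
        _ = _ := by ring
    exact le_of_mul_le_mul_right h2 hC₁

end Pool.Agent.Work.MP_f1a024_nt.RW
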