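import Pool.Agent.Work.MP_f1a024_nt.RW.StmtsS

/-!
# Block WS, item OPS (helper87): both parameters are optimal
-/

set_option autoImplicit false

namespace Pool.Agent.Work.MP_f1a024_nt.RW

open Finset MvPolynomial Filter
open Pool.Agent.Work.MP_f1a024_nt.AH (tau PG val D1 D2 D4 D10a D10b)

/-- the exponent vector of an index -/
noncomputable def OPS_E {k D : ℕ} (I : SX k D) : Fin (k + 1) →₀ ℕ :=
  Finsupp.equivFunOnFinite.symm fun j => (I.1 j : ℕ)

lemma OPS_E_inj {k D : ℕ} : Function.Injective (OPS_E (k := k) (D := D)) := by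
  intro I J h
  have h2 := Finsupp.equivFunOnFinite.symm.injective h
  apply Subtype.ext
  funext j
  apply Fin.ext
  exact congrFun h2 j

lemma OPS_poly {k D : ℕ} (x : SX k D → ℤ) (hx : x ≠ 0) (H : ℝ) (hH : 0 ≤ H)
    (hb : ∀ I, |(x I : ℝ)| ≤ H) : ∃ P : MvPolynomial (Fin (k + 1)) ℤ, P ≠ 0 ∧
      P.totalDegree ≤ D ∧ (∀ I, |((P.coeff I : ℤ) : ℝ)| ≤ H) ∧
      ∀ T : Fin (k + 1) → ℂ, MvPolynomial.aeval T P = ∑ I, (x I : ℂ) * ∏ j, T j ^ (I.1 j : ℕ) := by
  classical
  set P : MvPolynomial (Fin (k + 1)) ℤ := ∑ I : SX k D, monomial (OPS_E I) (x I) with hP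
  have hc : ∀ m, P.coeff m = ∑ I : SX k D, if OPS_E I = m then x I else 0 := by
    intro m
    rw [hP, MvPolynomial.coeff_sum]
    simp only [MvPolynomial.coeff_monomial]
  have hcE : ∀ I, P.coeff (OPS_E I) = x I := by
    intro I
    rw [hc, Finset.sum_eq_single I]
    · simp
    · intro J _ hJ
      rw [if_neg (fun h => hJ (OPS_E_inj h))]
    · intro h
      exact absurd (Finset.mem_univ I) h
  refine ⟨P, ?_, ?_, ?_, ?_⟩
  · intro h0
    apply hx
    funext I
    rw [← hcE I, h0, MvPolynomial.coeff_zero]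
    rfl
  · rw [hP]
    refine (MvPolynomial.totalDegree_finsetSum _ _).trans (Finset.sup_le fun I _ => ?_)
    refine (MvPolynomial.totalDegree_monomial_le _ _).trans ?_
    rw [Finsupp.sum_fintype _ _ (fun _ => rfl)]
    exact I.2
  · intro m
    by_cases hm : ∃ I, OPS_E (k := k) (D := D) I = m
    · obtain ⟨I, rfl⟩ := hm
      rw [hcE]
      exact hb I
    · rw [hc, Finset.sum_eq_zero]
      · simpa using hH
      · intro I _
        rw [if_neg (fun h => hm ⟨I, h⟩)]
  · intro T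
    rw [hP, map_sum]
    apply Finset.sum_congr rfl
    intro I _
    rw [MvPolynomial.aeval_monomial, Finsupp.prod_fintype _ _ (fun _ => pow_zero _)]
    rfl

/-- the constant monomial -/
def OPS_z {k D : ℕ} : SX k D := ⟨fun _ => 0, by unfold wt; simp⟩

/-- the monomial `X_0` -/
def OPS_o {k D : ℕ} (hD : 1 ≤ D) : SX k D :=
  ⟨fun j => if j = 0 then ⟨1, by omega⟩ else 0, by
    unfold wt
    have : ∀ j : Fin (k + 1), (((if j = 0 then ⟨1, by omega⟩ else 0 : Fin (D + 1))) : ℕ) =
        if j = 0 then 1 else 0 := by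
      intro j
      split_ifs <;> rfl
    simp only [this]
    rw [Finset.sum_ite_eq' Finset.univ (0 : Fin (k + 1)) (fun _ => 1)]
    simpa using hD⟩

lemma OPS_zo {k D : ℕ} (hD : 1 ≤ D) : (OPS_o hD : SX k D) ≠ OPS_z := by
  intro h
  have h2 := congrArg (fun I : SX k D => ((I.1 0 : Fin (D + 1)) : ℕ)) h
  simp [OPS_o, OPS_z] at h2

lemma OPS_real {k D : ℕ} (x : SX k D → ℤ) (t : Fin (k + 1) → ℝ) :
    ‖∑ I, (x I : ℂ) * ∏ j, ((t j : ℝ) : ℂ) ^ (I.1 j : ℕ)‖ =
      |∑ I, (x I : ℝ) * ∏ j, t j ^ (I.1 j : ℕ)| := by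
  have : ∑ I, (x I : ℂ) * ∏ j, ((t j : ℝ) : ℂ) ^ (I.1 j : ℕ) =
      ((∑ I, (x I : ℝ) * ∏ j, t j ^ (I.1 j : ℕ) : ℝ) : ℂ) := by
    push_cast
    rfl
  rw [this, Complex.norm_real, Real.norm_eq_abs]

theorem prfOPS (h1 : SIG) (h2 : NRS) (h3 : CDS) : OPS := by
  classical
  intro hD4 hD10a hD10b k D s hD
  obtain ⟨C, M, hC, hM⟩ := h2 hD4 hD10a hD10b k D s
  set N := (D + k + 1).choose (k + 1) with hN
  have hcard : Fintype.card (SX k D) = N := h3 k D
  have hN2 : 2 ≤ N := by
    rw [← hcard]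
    have : 1 < Fintype.card (SX k D) := Fintype.one_lt_card_iff.2 ⟨OPS_o hD, OPS_z, OPS_zo hD⟩
    omega
  have hNr : (2 : ℝ) ≤ N := by exact_mod_cast hN2
  refine ⟨2 * N * (1 + C) * (N : ℝ) ^ N, M, fun n hn H hH => ?_⟩
  obtain ⟨t, ht, hm⟩ := hM n hn
  have hT : (fun j => riemannZeta (2 * ((n + s j : ℕ) : ℂ)) /
      riemannZeta ((n + s j : ℕ) : ℂ) ^ 2) = fun j => ((t j : ℝ) : ℂ) := by
    funext j
    exact (ht j).symm
  rw [hT]
  have hH0 : 0 < H := by linarith
  have hhalf : (0 : ℝ) < (1 / 2 : ℝ) ^ n := by positivity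
  have hhalf1 : (1 / 2 : ℝ) ^ n ≤ 1 := pow_le_one₀ (by norm_num) (by norm_num)
  have hNN : (1 : ℝ) ≤ (N : ℝ) ^ N := one_le_pow₀ (by linarith)
  -- it is enough to find the coefficients
  suffices hx : ∃ x : SX k D → ℤ, x ≠ 0 ∧ (∀ I, |(x I : ℝ)| ≤ H) ∧
      |∑ I, (x I : ℝ) * ∏ j, t j ^ (I.1 j : ℕ)| ≤
        2 * N * (1 + C) * (N : ℝ) ^ N * (H ^ (N - 1))⁻¹ * min 1 (H / 2 ^ n) by
    obtain ⟨x, hx0, hxb, hxs⟩ := hx
    obtain ⟨P, hP0, hPd, hPc, hPe⟩ := OPS_poly x hx0 H hH0.le hxb
    refine ⟨P, hP0, hPd, hPc, ?_⟩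
    rw [hPe, OPS_real]
    exact hxs
  by_cases hcase : (2 : ℝ) ^ n ≤ H
  · -- large H
    have hmin : min 1 (H / 2 ^ n) = 1 := by
      apply min_eq_left
      rw [le_div_iff₀ (by positivity)]
      linarith
    rw [hmin, mul_one]
    obtain ⟨M', hM'⟩ : ∃ M', N = M' + 1 := ⟨N - 1, by omega⟩
    let e : Fin (M' + 1) ≃ SX k D := (Fintype.equivFinOfCardEq (by rw [hcard, hM'])).symm
    obtain ⟨x, hx0, hxb, hxs⟩ := h1 M' (fun i => ∏ j, t j ^ ((e i).1 j : ℕ)) (1 + C) H (by
      intro i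
      have h4 := hm (e i)
      have h5 : |∏ j, t j ^ ((e i).1 j : ℕ)| ≤ |∏ j, t j ^ ((e i).1 j : ℕ) - 1| + 1 := by
        have := abs_add_le (∏ j, t j ^ ((e i).1 j : ℕ) - 1) 1
        rw [sub_add_cancel, abs_one] at this
        exact this
      have h6 : C * (1 / 2 : ℝ) ^ n ≤ C := by
        calc C * (1 / 2 : ℝ) ^ n ≤ C * 1 := mul_le_mul_of_nonneg_left hhalf1 hC.le
          _ = C := mul_one C
      linarith) hH
    refine ⟨fun I => x (e.symm I), ?_, fun I => hxb _, ?_⟩
    · intro h0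
      apply hx0
      funext i
      have := congrFun h0 (e i)
      simpa using this
    · have hs : ∑ I, ((x (e.symm I) : ℤ) : ℝ) * ∏ j, t j ^ (I.1 j : ℕ) =
          ∑ i, (x i : ℝ) * ∏ j, t j ^ ((e i).1 j : ℕ) := by
        rw [← e.sum_comp]
        simp
      rw [hs]
      refine hxs.trans ?_
      have h7 : ((M' : ℝ) + 1) = N := by rw [hM']; push_cast; ring
      have h8 : N - 1 = M' := by omega
      rw [h7, h8]
      have h9 : 0 ≤ (H ^ M')⁻¹ := by positivity
      have h10 : 2 * (N : ℝ) * (1 + C) ≤ 2 * N * (1 + C) * (N : ℝ) ^ N :=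
        le_mul_of_one_le_right (by positivity) hNN
      exact mul_le_mul_of_nonneg_right h10 h9
  · -- small H
    rw [not_le] at hcase
    have hmin : min 1 (H / 2 ^ n) = H / 2 ^ n := by
      apply min_eq_right
      rw [div_le_one (by positivity)]
      exact hcase.le
    rw [hmin]
    obtain ⟨K, hK⟩ : ∃ K, N = K + 2 := ⟨N - 2, by omega⟩
    have hN1 : N - 1 = K + 1 := by omega
    have htarget : (H ^ (N - 1))⁻¹ * (H / 2 ^ n) = (H ^ K)⁻¹ * (1 / 2 : ℝ) ^ n := by
      rw [hN1, pow_succ, one_div, inv_pow]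
      field_simp
    rw [mul_assoc, htarget]
    have hmz : ∏ j, t j ^ ((OPS_z : SX k D).1 j : ℕ) = 1 := by
      apply Finset.prod_eq_one
      intro j _
      simp [OPS_z]
    by_cases hHN : (N : ℝ) ≤ H
    · -- pigeonhole
      have hcard2 : Fintype.card {I : SX k D // I ≠ OPS_z} = K + 1 := by
        rw [Fintype.card_subtype_compl, hcard]
        simp [hK]
      let e : Fin (K + 1) ≃ {I : SX k D // I ≠ OPS_z} := (Fintype.equivFinOfCardEq hcard2).symm
      obtain ⟨x, hx0, hxb, hxs⟩ := h1 K (fun i => ∏ j, t j ^ ((e i).1.1 j : ℕ) - 1)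
        (C * (1 / 2 : ℝ) ^ n) (H / N) (fun i => hm (e i).1) (by
          rw [le_div_iff₀ (by linarith)]
          linarith)
      let x' : SX k D → ℤ := fun I => if h : I ≠ OPS_z then x (e.symm ⟨I, h⟩) else - ∑ i, x i
      have hx'e : ∀ i, x' (e i).1 = x i := by
        intro i
        have h4 : (e i).1 ≠ OPS_z := (e i).2
        simp only [x', dif_pos h4]
        congr 1
        rw [Equiv.symm_apply_eq]
      have hx'z : x' OPS_z = - ∑ i, x i := by
        simp [x']
      have hsum : ∀ g : SX k D → ℝ, ∑ I, (x' I : ℝ) * g I =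
          (x' OPS_z : ℝ) * g OPS_z + ∑ i, (x i : ℝ) * g (e i).1 := by
        intro g
        rw [← Finset.add_sum_erase Finset.univ _ (Finset.mem_univ OPS_z)]
        congr 1
        have h5 : ∑ i, (x i : ℝ) * g (e i).1 =
            ∑ J : {I : SX k D // I ≠ OPS_z}, (x' J.1 : ℝ) * g J.1 := by
          rw [← e.sum_comp]
          apply Finset.sum_congr rfl
          intro i _
          rw [hx'e]
        rw [h5]
        rw [← Finset.sum_subtype (Finset.univ.erase (OPS_z : SX k D)) (by simp)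
          (fun I => (x' I : ℝ) * g I)]
      have hxH : ∀ i, |(x i : ℝ)| ≤ H := fun i => (hxb i).trans (by
        rw [div_le_iff₀ (by linarith)]
        nlinarith)
      refine ⟨x', ?_, ?_, ?_⟩
      · intro h0
        apply hx0
        funext i
        rw [← hx'e i, h0]
        rfl
      · intro I
        by_cases hI : I = OPS_z
        · rw [hI, hx'z]
          push_cast
          rw [abs_neg]
          calc |∑ i, (x i : ℝ)| ≤ ∑ i, |(x i : ℝ)| := Finset.abs_sum_le_sum_abs _ _
            _ ≤ ∑ _i : Fin (K + 1), H / N := Finset.sum_le_sum fun i _ => hxb i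
            _ = (K + 1 : ℝ) * (H / N) := by simp
            _ ≤ N * (H / N) := by
                apply mul_le_mul_of_nonneg_right _ (by positivity)
                rw [hK]
                push_cast
                linarith
            _ = H := by field_simp
        · have h4 : x' I = x (e.symm ⟨I, hI⟩) := by simp [x', hI]
          rw [h4]
          exact hxH _
      · rw [hsum, hmz, hx'z]
        have h6 : ((- ∑ i, x i : ℤ) : ℝ) * 1 + ∑ i, (x i : ℝ) * ∏ j, t j ^ ((e i).1.1 j : ℕ) =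
            ∑ i, (x i : ℝ) * (∏ j, t j ^ ((e i).1.1 j : ℕ) - 1) := by
          push_cast
          simp only [mul_sub, mul_one, Finset.sum_sub_distrib]
          ring
        rw [h6]
        refine hxs.trans ?_
        have h7 : ((H / N) ^ K)⁻¹ = (N : ℝ) ^ K * (H ^ K)⁻¹ := by
          rw [div_pow, inv_div, div_eq_mul_inv]
        rw [h7]
        have h8 : 2 * ((K : ℝ) + 1) * (C * (1 / 2 : ℝ) ^ n) * ((N : ℝ) ^ K * (H ^ K)⁻¹) =
            (2 * ((K : ℝ) + 1) * C * (N : ℝ) ^ K) * ((H ^ K)⁻¹ * (1 / 2 : ℝ) ^ n) := by ring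
        rw [h8]
        apply mul_le_mul_of_nonneg_right _ (by positivity)
        have h9 : (K : ℝ) + 1 ≤ N := by rw [hK]; push_cast; linarith
        have h10 : (N : ℝ) ^ K ≤ (N : ℝ) ^ N := pow_le_pow_right₀ (by linarith) (by omega)
        have h11 : 2 * ((K : ℝ) + 1) * C ≤ 2 * N * (1 + C) := by nlinarith
        exact mul_le_mul h11 h10 (by positivity) (by positivity)
    · rw [not_le] at hHN
      let x' : SX k D → ℤ := fun I => if I = OPS_o hD then 1 else if I = OPS_z then -1 else 0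
      have hs : ∑ I, (x' I : ℝ) * ∏ j, t j ^ (I.1 j : ℕ) =
          ∏ j, t j ^ ((OPS_o hD : SX k D).1 j : ℕ) - 1 := by
        have h4 : ∀ I : SX k D, (x' I : ℝ) * ∏ j, t j ^ (I.1 j : ℕ) =
            (if I = OPS_o hD then ∏ j, t j ^ ((OPS_o hD : SX k D).1 j : ℕ) else 0) -
              (if I = OPS_z then 1 else 0) := by
          intro I
          simp only [x']
          by_cases hI : I = OPS_o hD
          · rw [if_pos hI, if_pos hI, hI, if_neg (OPS_zo hD)]
            simp
          · rw [if_neg hI, if_neg hI]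
            by_cases hI2 : I = OPS_z
            · rw [if_pos hI2, if_pos hI2, hI2, hmz]
              simp
            · rw [if_neg hI2, if_neg hI2]
              simp
        rw [Finset.sum_congr rfl (fun I _ => h4 I), Finset.sum_sub_distrib,
          Finset.sum_ite_eq' Finset.univ (OPS_o hD : SX k D), Finset.sum_ite_eq' Finset.univ
          (OPS_z : SX k D)]
        simp
      refine ⟨x', ?_, ?_, ?_⟩
      · intro h0
        have := congrFun h0 (OPS_o hD)
        simp [x'] at this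
      · intro I
        simp only [x']
        split_ifs
        · simpa using hH
        · simpa using hH
        · simpa using hH0.le
      · rw [hs]
        refine (hm (OPS_o hD)).trans ?_
        rw [← mul_assoc]
        apply mul_le_mul_of_nonneg_right _ hhalf.le
        have h5 : H ^ K ≤ (N : ℝ) ^ N := by
          calc H ^ K ≤ (N : ℝ) ^ K := pow_le_pow_left₀ hH0.le hHN.le K
            _ ≤ (N : ℝ) ^ N := pow_le_pow_right₀ (by linarith) (by omega)
        have h6 : 1 ≤ (N : ℝ) ^ N * (H ^ K)⁻¹ := by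
          rw [← div_eq_mul_inv, le_div_iff₀ (by positivity)]
          linarith
        have h7 : C ≤ 2 * N * (1 + C) := by nlinarith
        calc C ≤ 2 * N * (1 + C) := h7
          _ ≤ 2 * N * (1 + C) * ((N : ℝ) ^ N * (H ^ K)⁻¹) :=
              le_mul_of_one_le_right (by positivity) h6
          _ = _ := by ring

end Pool.Agent.Work.MP_f1a024_nt.RW
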