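import Pool.Agent.Work.MP_f1a024_nt.RW.StmtsS
import Pool.Agent.Work.MP_f1a024_nt.RW.P1

/-!
# Block WS, item P1F: choice of the vectors for several flags
-/

namespace Pool.Agent.Work.MP_f1a024_nt.RW

open Finset MvPolynomial Filter

/-- the vectors, by induction on their number -/
theorem P1F_ind (hAVD : AVD) {F : Type} [Field F] [CharZero F] (d : ℕ)
    (V : Submodule F (Fin (d + 1) → F)) {ι : Type} [Fintype ι]
    (T : ι → Submodule ℚ (Fin (d + 1) → ℚ))
    (hT : ∀ j', Module.finrank ℚ (T j') = Module.finrank F V + 1) :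
    ∀ j : ℕ, Module.finrank F V + j ≤ d → ∃ a : Fin j → Fin (d + 1) → ℤ,
      (∀ c : Fin j → F, (∑ l, c l • (fun i => ((a l i : ℤ) : F))) ∈ V → c = 0) ∧
      ∀ (j' : ι) (c : Fin j → ℚ), (∑ l, c l • (fun i => ((a l i : ℤ) : ℚ))) ∈ T j' → c = 0 := by
  intro j
  induction j with
  | zero =>
    intro _
    exact ⟨fun l => l.elim0, fun c _ => Subsingleton.elim _ _,
      fun _ c _ => Subsingleton.elim _ _⟩
  | succ j ih =>
    intro hj
    obtain ⟨a, ha1, ha2⟩ := ih (by omega)
    have hV1 := P1_rat_ne_top _ (P1_dim V (fun l => (fun i => ((a l i : ℤ) : F))) (by omega))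
    have hV2 : ∀ j', T j' ⊔ Submodule.span ℚ
        (Set.range fun l => (fun i => ((a l i : ℤ) : ℚ))) ≠ ⊤ := fun j' =>
      P1_dim (T j') (fun l => (fun i => ((a l i : ℤ) : ℚ))) (by rw [hT j']; omega)
    let U : Option ι → Submodule ℚ (Fin (d + 1) → ℚ) := fun o =>
      o.elim (P1_rat (V ⊔ Submodule.span F
        (Set.range fun l => (fun i => ((a l i : ℤ) : F)))))
        (fun j' => T j' ⊔ Submodule.span ℚ (Set.range fun l => (fun i => ((a l i : ℤ) : ℚ))))
    have hU : ∀ o, U o ≠ ⊤ := by
      rintro (_ | j')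
      · exact hV1
      · exact hV2 j'
    obtain ⟨b, hb'⟩ := hAVD (d + 1) (Fintype.card (Option ι))
      (fun i => U ((Fintype.equivFin (Option ι)).symm i)) (fun i => hU _)
    have hb : ∀ o, (fun i => ((b i : ℤ) : ℚ)) ∉ U o := by
      intro o h
      refine hb' (Fintype.equivFin (Option ι) o) ?_
      show (fun i => ((b i : ℤ) : ℚ)) ∈
        U ((Fintype.equivFin (Option ι)).symm (Fintype.equivFin (Option ι) o))
      rw [Equiv.symm_apply_apply]
      exact h
    have hb1 : (fun i => ((b i : ℤ) : F)) ∉ V ⊔ Submodule.span F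
        (Set.range fun l => (fun i => ((a l i : ℤ) : F))) := by
      intro h
      refine hb none ?_
      show (fun i => ((((b i : ℤ) : ℚ)) : F)) ∈ V ⊔ Submodule.span F
        (Set.range fun l => (fun i => ((a l i : ℤ) : F)))
      have h1 : (fun i => ((((b i : ℤ) : ℚ)) : F)) = fun i => ((b i : ℤ) : F) := by
        funext i
        exact Rat.cast_intCast _
      rw [h1]
      exact h
    have hb2 : ∀ j', (fun i => ((b i : ℤ) : ℚ)) ∉ T j' ⊔ Submodule.span ℚ
        (Set.range fun l => (fun i => ((a l i : ℤ) : ℚ))) := fun j' => hb (some j')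
    refine ⟨Fin.snoc (α := fun _ => Fin (d + 1) → ℤ) a b, fun c hc => ?_, fun j' c hc => ?_⟩
    · refine P1_step V _ _ ha1 hb1 c ?_
      rw [Fin.sum_univ_castSucc] at hc
      simp only [Fin.snoc_castSucc, Fin.snoc_last] at hc
      exact hc
    · refine P1_step (T j') _ _ (ha2 j') (hb2 j') c ?_
      rw [Fin.sum_univ_castSucc] at hc
      simp only [Fin.snoc_castSucc, Fin.snoc_last] at hc
      exact hc

theorem prfP1F (hAVD : AVD) : P1F := by
  intro F _ _ d V ι _ T hV hT
  have hr : Module.finrank F V ≤ d := by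
    have := Submodule.finrank_lt hV
    rw [Module.finrank_fin_fun] at this
    omega
  obtain ⟨a, ha1, ha2⟩ := P1F_ind hAVD d V (fun j => T j (Module.finrank F V))
    (fun j => hT j _ hr) (d - Module.finrank F V) (by omega)
  refine ⟨d - Module.finrank F V, Module.finrank F V, a, by omega, rfl, fun c hc => ?_,
    fun j z hz1 hz2 => ?_⟩
  · rw [P1_sum] at hc
    exact ha1 c hc
  · -- the map `(t, c) ↦ t + ∑ c_l a_l`
    let Φ : (T j (Module.finrank F V) × (Fin (d - Module.finrank F V) → ℚ)) →ₗ[ℚ]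
        (Fin (d + 1) → ℚ) :=
      (Submodule.subtype _).comp (LinearMap.fst ℚ _ _) +
        (Fintype.linearCombination ℚ (fun l => (fun i => ((a l i : ℤ) : ℚ)))).comp
          (LinearMap.snd ℚ _ _)
    have hΦ : ∀ x, Φ x = (x.1 : Fin (d + 1) → ℚ) +
        ∑ l, x.2 l • (fun i => ((a l i : ℤ) : ℚ)) := fun x => rfl
    have hinj : Function.Injective Φ := by
      rw [← LinearMap.ker_eq_bot, LinearMap.ker_eq_bot']
      rintro ⟨t, c⟩ h
      rw [hΦ] at h
      have h1 : (∑ l, c l • (fun i => ((a l i : ℤ) : ℚ))) = -(t : Fin (d + 1) → ℚ) :=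
        eq_neg_of_add_eq_zero_right h
      have h2 : c = 0 := ha2 j c (by
        rw [h1]
        exact Submodule.neg_mem _ t.2)
      have h3 : (t : Fin (d + 1) → ℚ) = 0 := by
        rw [h2] at h1
        simp only [Pi.zero_apply, zero_smul, Finset.sum_const_zero] at h1
        exact neg_eq_zero.1 h1.symm
      rw [Prod.mk_eq_zero]
      exact ⟨Subtype.ext h3, h2⟩
    have hfin : Module.finrank ℚ (T j (Module.finrank F V) × (Fin (d - Module.finrank F V) → ℚ)) =
        Module.finrank ℚ (Fin (d + 1) → ℚ) := by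
      rw [Module.finrank_prod, hT j _ hr, Module.finrank_fin_fun, Module.finrank_fin_fun]
      omega
    have hsurj : Function.Surjective Φ :=
      (LinearMap.injective_iff_surjective_of_finrank_eq_finrank hfin).1 hinj
    have hall : ∀ y : Fin (d + 1) → ℚ, ∑ i, z i * y i = 0 := by
      intro y
      obtain ⟨⟨t, c⟩, rfl⟩ := hsurj y
      have h1 : ∀ i, z i * Φ (t, c) i = z i * (t : Fin (d + 1) → ℚ) i +
          ∑ l, c l * (z i * ((a l i : ℤ) : ℚ)) := by
        intro i
        rw [hΦ, Pi.add_apply, Finset.sum_apply, mul_add, Finset.mul_sum]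
        congr 1
        refine Finset.sum_congr rfl fun l _ => ?_
        show z i * (c l * ((a l i : ℤ) : ℚ)) = c l * (z i * ((a l i : ℤ) : ℚ))
        ring
      rw [Finset.sum_congr rfl fun i _ => h1 i, Finset.sum_add_distrib, hz1 t t.2, zero_add,
        Finset.sum_comm]
      refine Finset.sum_eq_zero fun l _ => ?_
      rw [← Finset.mul_sum, hz2 l, mul_zero]
    funext i
    have h := hall (Pi.single i 1)
    rw [Finset.sum_eq_single i] at h
    · rwa [Pi.single_eq_same, mul_one] at h
    · intro k _ hk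
      rw [Pi.single_eq_of_ne hk, mul_zero]
    · intro hi
      exact absurd (Finset.mem_univ i) hi

end Pool.Agent.Work.MP_f1a024_nt.RW
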