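import Pool.Agent.Work.MP_f1a024_nt.RW.StmtsS

/-!
# Item PHD of block WS: `phi` can be lowered by one
-/

set_option autoImplicit false

namespace Pool.Agent.Work.MP_f1a024_nt.RW

open Finset

/-- an element of `SX` from a function with values in `ℕ` -/
theorem PHD_mk {k D : ℕ} (f : Fin (k + 1) → ℕ) (h : ∑ j, f j ≤ D) :
    ∃ β : SX k D, wt β.1 = ∑ j, f j ∧
      phi β.1 = (∑ j, f j) * ((∑ j, f j) + 1) / 2 + ∑ j : Fin (k + 1), (j : ℕ) * f j := by
  have h1 : ∀ j, f j < D + 1 := fun j =>
    Nat.lt_succ_of_le ((Finset.single_le_sum (fun i _ => Nat.zero_le (f i))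
      (Finset.mem_univ j)).trans h)
  refine ⟨⟨fun j => ⟨f j, h1 j⟩, h⟩, rfl, rfl⟩

/-- moving one unit changes a weighted sum -/
theorem PHD_move {k : ℕ} (a : Fin (k + 1) → ℕ) (l l' : Fin (k + 1)) (hl : a l ≠ 0) (hne : l ≠ l') :
    ∃ f : Fin (k + 1) → ℕ, ∀ c : Fin (k + 1) → ℕ,
      ∑ j, c j * f j + c l = ∑ j, c j * a j + c l' := by
  classical
  refine ⟨fun j => a j + (if j = l' then 1 else 0) - (if j = l then 1 else 0), fun c => ?_⟩
  have h1 : ∀ j, (a j + (if j = l' then 1 else 0) - (if j = l then 1 else 0)) +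
      (if j = l then 1 else 0) = a j + (if j = l' then 1 else 0) := by
    intro j
    by_cases hj : j = l
    · subst hj
      rw [if_pos rfl, if_neg hne]
      omega
    · rw [if_neg hj]
      rfl
  have h2 : ∀ m : Fin (k + 1), ∑ j, c j * (if j = m then 1 else 0) = c m := by
    intro m
    simp
  calc ∑ j, c j * (a j + (if j = l' then 1 else 0) - (if j = l then 1 else 0)) + c l
      = ∑ j, c j * (a j + (if j = l' then 1 else 0) - (if j = l then 1 else 0)) +
          ∑ j, c j * (if j = l then 1 else 0) := by rw [h2]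
    _ = ∑ j, c j * ((a j + (if j = l' then 1 else 0) - (if j = l then 1 else 0)) +
          (if j = l then 1 else 0)) := by
        rw [← Finset.sum_add_distrib]
        exact Finset.sum_congr rfl fun j _ => by rw [mul_add]
    _ = ∑ j, c j * (a j + (if j = l' then 1 else 0)) :=
        Finset.sum_congr rfl fun j _ => by rw [h1]
    _ = ∑ j, c j * a j + c l' := by
        rw [← h2 l', ← Finset.sum_add_distrib]
        exact Finset.sum_congr rfl fun j _ => by rw [mul_add]

/-- Item [PHD] -/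
theorem prfPHD : PHD := by
  classical
  intro k D hk α hα
  obtain ⟨α, hwt⟩ := α
  by_cases hex : ∃ l : Fin (k + 1), (l : ℕ) ≠ 0 ∧ (α l : ℕ) ≠ 0
  · obtain ⟨l, hl0, hl⟩ := hex
    set l' : Fin (k + 1) := ⟨(l : ℕ) - 1, by omega⟩ with hl'
    have hne : l ≠ l' := by
      intro h
      have := congrArg Fin.val h
      rw [hl'] at this
      simp only at this
      omega
    obtain ⟨f, hf⟩ := PHD_move (fun j => (α j : ℕ)) l l' hl hne
    have h1 := hf (fun _ => 1)
    simp only [one_mul] at h1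
    have h1' : ∑ j, f j = wt α := Nat.add_right_cancel h1
    have h2 := hf (fun j => (j : ℕ))
    have h2' : ∑ j : Fin (k + 1), (j : ℕ) * f j + 1 = ∑ j : Fin (k + 1), (j : ℕ) * (α j : ℕ) := by
      have h3 : ((l' : Fin (k + 1)) : ℕ) = (l : ℕ) - 1 := rfl
      simp only [h3] at h2
      omega
    obtain ⟨β, -, hβ⟩ := PHD_mk (D := D) f (by rw [h1']; exact hwt)
    refine ⟨β, ?_⟩
    rw [hβ, h1', add_assoc, h2']
    rfl
  · push Not at hex
    have hz : ∀ j : Fin (k + 1), (j : ℕ) * (α j : ℕ) = 0 := by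
      intro j
      by_cases hj : (j : ℕ) = 0
      · rw [hj, zero_mul]
      · rw [hex j hj, mul_zero]
    have hs : ∑ j : Fin (k + 1), (j : ℕ) * (α j : ℕ) = 0 := Finset.sum_eq_zero fun j _ => hz j
    have hphi : phi α = wt α * (wt α + 1) / 2 := by
      unfold phi
      rw [hs, add_zero]
    have hα' : phi α ≠ 0 := hα
    have hc : wt α ≠ 0 := by
      intro h
      rw [hphi, h] at hα'
      exact hα' rfl
    obtain ⟨c, hc'⟩ := Nat.exists_eq_succ_of_ne_zero hc
    set one : Fin (k + 1) := ⟨1, by omega⟩ with hone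
    have hsum : ∀ g : Fin (k + 1) → ℕ, ∑ j, g j * (if j = one then c else 0) = g one * c := by
      intro g
      simp
    have h1 : ∑ j : Fin (k + 1), (if j = one then c else 0) = c := by simp
    have h2 := hsum (fun j => (j : ℕ))
    have h3 : ((one : Fin (k + 1)) : ℕ) = 1 := rfl
    simp only [h3, one_mul] at h2
    obtain ⟨β, -, hβ⟩ := PHD_mk (D := D) (fun j : Fin (k + 1) => if j = one then c else 0)
      (by rw [h1]; have : wt α ≤ D := hwt; omega)
    refine ⟨β, ?_⟩
    show phi β.1 + 1 = phi α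
    rw [hβ, h1, h2, hphi, hc', Nat.succ_eq_add_one]
    have h4 : (c + 1) * (c + 1 + 1) = c * (c + 1) + 2 * (c + 1) := by ring
    rw [h4, Nat.add_mul_div_left _ _ two_pos]
    ring

end Pool.Agent.Work.MP_f1a024_nt.RW
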