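import Pool.Agent.Work.MP_f1a024_nt.RW.StmtsS

/-!
# Block WS, item PLS: polynomials as sums over the simplex
-/

namespace Pool.Agent.Work.MP_f1a024_nt.RW

open Finset MvPolynomial Filter

/-- the exponent vector with number `i` -/
noncomputable def PLS_e {k D d : ℕ} (A : Fin (d + 1) ≃ SX k D)
    (i : Fin (d + 1)) : Fin (k + 1) →₀ ℕ :=
  Finsupp.equivFunOnFinite.symm fun j => ((A i).1 j : ℕ)

theorem PLS_e_apply {k D d : ℕ} (A : Fin (d + 1) ≃ SX k D)
    (i : Fin (d + 1)) (j : Fin (k + 1)) : PLS_e A i j = ((A i).1 j : ℕ) := rfl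

theorem PLS_inj {k D d : ℕ} (A : Fin (d + 1) ≃ SX k D) :
    Function.Injective (PLS_e A) := by
  intro i i' h
  apply A.injective
  apply Subtype.ext
  funext j
  have := DFunLike.congr_fun h j
  rw [PLS_e_apply, PLS_e_apply] at this
  exact Fin.ext this

theorem PLS_surj {k D d : ℕ} (A : Fin (d + 1) ≃ SX k D)
    (P : MvPolynomial (Fin (k + 1)) ℤ) (hP : P.totalDegree ≤ D) (b : Fin (k + 1) →₀ ℕ)
    (hb : b ∈ P.support) : ∃ i, PLS_e A i = b := by
  have hs : ∑ j, b j ≤ D := by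
    have h1 := (MvPolynomial.le_totalDegree hb).trans hP
    rwa [Finsupp.sum_fintype _ _ (fun _ => rfl)] at h1
  have hj : ∀ j, b j < D + 1 := fun j =>
    Nat.lt_succ_of_le ((Finset.single_le_sum (f := fun j => b j) (fun _ _ => Nat.zero_le _)
      (Finset.mem_univ j)).trans hs)
  refine ⟨A.symm ⟨fun j => ⟨b j, hj j⟩, hs⟩, ?_⟩
  ext j
  rw [PLS_e_apply, Equiv.apply_symm_apply]

/-- item PLS -/
theorem prfPLS : PLS := by
  intro k D d A P hP
  refine ⟨fun hne h0 => ?_, fun t => ?_⟩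
  · obtain ⟨b, hb⟩ := MvPolynomial.ne_zero_iff.1 hne
    obtain ⟨i, hi⟩ := PLS_surj A P hP b (MvPolynomial.mem_support_iff.2 hb)
    have h1 : P.coeff (PLS_e A i) = 0 := congrFun h0 i
    rw [hi] at h1
    exact hb h1
  · have h1 : MvPolynomial.aeval t P =
        ∑ b ∈ P.support, ((P.coeff b : ℤ) : ℂ) * ∏ j, t j ^ b j := by
      rw [MvPolynomial.aeval_def, MvPolynomial.eval₂_eq']
      rfl
    have h2 : ∑ i, ((P.coeff (PLS_e A i) : ℤ) : ℂ) * ∏ j, t j ^ (PLS_e A i j) =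
        ∑ b ∈ Finset.univ.image (PLS_e A), ((P.coeff b : ℤ) : ℂ) * ∏ j, t j ^ b j := by
      rw [Finset.sum_image fun i _ i' _ h => PLS_inj A h]
    have h3 : ∑ b ∈ P.support, ((P.coeff b : ℤ) : ℂ) * ∏ j, t j ^ b j =
        ∑ b ∈ Finset.univ.image (PLS_e A), ((P.coeff b : ℤ) : ℂ) * ∏ j, t j ^ b j := by
      refine Finset.sum_subset ?_ ?_
      · intro b hb
        obtain ⟨i, hi⟩ := PLS_surj A P hP b hb
        exact Finset.mem_image.2 ⟨i, Finset.mem_univ _, hi⟩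
      · intro b _ hb
        rw [MvPolynomial.notMem_support_iff.1 hb, Int.cast_zero, zero_mul]
    rw [h1, h3, ← h2]
    rfl

end Pool.Agent.Work.MP_f1a024_nt.RW
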