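import Pool.Agent.Work.MP_f1a024_nt.RW.StmtsS

/-!
# Item PQS: much room for large `q_k`
-/

set_option autoImplicit false

namespace Pool.Agent.Work.MP_f1a024_nt.RW

open Finset

theorem PQS_card (k : ℕ) (q : Fin (k + 1) → ℕ) :
    ((range (q (Fin.last k))).filter (fun p => p.Prime ∧ ¬ ∀ j, q j ≠ p)).card ≤ k := by
  classical
  have h1 : (range (q (Fin.last k))).filter (fun p => p.Prime ∧ ¬ ∀ j, q j ≠ p) ⊆
      (univ.erase (Fin.last k)).image q := by
    intro p hp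
    rw [mem_filter, mem_range] at hp
    obtain ⟨hlt, -, hj⟩ := hp
    push Not at hj
    obtain ⟨j, hj⟩ := hj
    rw [mem_image]
    refine ⟨j, ?_, hj⟩
    rw [mem_erase]
    refine ⟨?_, mem_univ _⟩
    rintro rfl
    omega
  refine (card_le_card h1).trans (card_image_le.trans ?_)
  rw [card_erase_of_mem (mem_univ _), card_univ, Fintype.card_fin]
  simp

theorem PQS_split (k : ℕ) (q : Fin (k + 1) → ℕ) (hq : 0 < q (Fin.last k)) :
    ∏ p ∈ (range (q (Fin.last k))).filter Nat.Prime, p ≤ q (Fin.last k) ^ k * ga k q := by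
  classical
  obtain ⟨S, hS⟩ : ∃ S, S = (range (q (Fin.last k))).filter
      (fun p => p.Prime ∧ ¬ ∀ j, q j ≠ p) := ⟨_, rfl⟩
  have h0 := prod_filter_mul_prod_filter_not ((range (q (Fin.last k))).filter Nat.Prime)
    (fun p => ∀ j, q j ≠ p) (fun p : ℕ => p)
  rw [filter_filter, filter_filter] at h0
  rw [← h0]
  have h1 : ∏ p ∈ (range (q (Fin.last k))).filter (fun p => p.Prime ∧ ¬ ∀ j, q j ≠ p), p ≤
      q (Fin.last k) ^ k := by
    rw [← hS]
    refine (prod_le_pow_card S (fun p => p) (q (Fin.last k)) fun p hp => ?_).trans ?_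
    · rw [hS, mem_filter, mem_range] at hp
      exact hp.1.le
    · refine Nat.pow_le_pow_right hq ?_
      rw [hS]
      exact PQS_card k q
  unfold ga
  rw [mul_comm]
  exact Nat.mul_le_mul_right _ h1

/-- item PQS -/
theorem prfPQS (h : PBJ) : PQS := by
  intro k D q _ hp hbig
  have hQ : (q (Fin.last k)).Prime := hp _
  have hpos : 0 < q (Fin.last k) := hQ.pos
  have h1 := h (q (Fin.last k)) (D + k + 1) hQ
  have h2 : (2 : ℝ) ^ ((D + k + 1) * (D + k + 1 + 1) / 2) ≤ (q (Fin.last k) : ℝ) := by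
    exact_mod_cast hbig
  have hpbc : ((∏ p ∈ (range (q (Fin.last k))).filter Nat.Prime, p : ℕ) : ℝ) =
      pb (q (Fin.last k)) := by
    unfold pb
    push_cast
    rfl
  have hsp := PQS_split k q hpos
  have hspR : pb (q (Fin.last k)) ≤ (q (Fin.last k) : ℝ) ^ k * (ga k q : ℝ) := by
    rw [← hpbc]
    exact_mod_cast hsp
  have hQR : (0 : ℝ) < (q (Fin.last k) : ℝ) := by exact_mod_cast hpos
  have hpb0 : 0 ≤ pb (q (Fin.last k)) := by
    rw [← hpbc]
    exact Nat.cast_nonneg _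
  have h3 : (q (Fin.last k) : ℝ) ^ (D + k + 1) ≤ (q (Fin.last k) : ℝ) *
      ((q (Fin.last k) : ℝ) ^ k * (ga k q : ℝ)) :=
    h1.trans ((mul_le_mul_of_nonneg_right h2 hpb0).trans
      (mul_le_mul_of_nonneg_left hspR hQR.le))
  have h4 : (q (Fin.last k) : ℝ) ^ D * (q (Fin.last k) : ℝ) ^ (k + 1) ≤
      (ga k q : ℝ) * (q (Fin.last k) : ℝ) ^ (k + 1) := by
    calc (q (Fin.last k) : ℝ) ^ D * (q (Fin.last k) : ℝ) ^ (k + 1)
        = (q (Fin.last k) : ℝ) ^ (D + k + 1) := by rw [← pow_add]; ring_nf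
      _ ≤ (q (Fin.last k) : ℝ) * ((q (Fin.last k) : ℝ) ^ k * (ga k q : ℝ)) := h3
      _ = (ga k q : ℝ) * (q (Fin.last k) : ℝ) ^ (k + 1) := by rw [pow_succ]; ring
  have h5 : (q (Fin.last k) : ℝ) ^ D ≤ (ga k q : ℝ) :=
    le_of_mul_le_mul_right h4 (pow_pos hQR _)
  exact_mod_cast h5

end Pool.Agent.Work.MP_f1a024_nt.RW
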