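import Pool.Agent.Work.MP_f1a024_nt.RW.StmtsS

/-! # Item SIG of block WS: Dirichlet's pigeonhole for real numbers. -/

namespace Pool.Agent.Work.MP_f1a024_nt.RW

/-- Two reals with the same floor differ by less than one. -/
theorem SIG_floor {a b : ℝ} (h : ⌊a⌋ = ⌊b⌋) : |a - b| < 1 :=
  Int.abs_sub_lt_one_of_floor_eq_floor h

/-- The main case: `M ≥ 1`, `Y > 0`. -/
theorem SIG_main (M : ℕ) (hM : 1 ≤ M) (y : Fin (M + 1) → ℝ) (Y : ℝ) (hY : 0 < Y)
    (hy : ∀ i, |y i| ≤ Y) (h : ℕ) (hh : 1 ≤ h) :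
    ∃ x : Fin (M + 1) → ℤ, x ≠ 0 ∧ (∀ i, |(x i : ℝ)| ≤ h) ∧
      |∑ i, (x i : ℝ) * y i| ≤ 2 * (M + 1) * Y * (((h : ℝ) + 1) ^ M)⁻¹ := by
  classical
  set N : ℕ := (h + 1) ^ M with hN
  have hN2 : 2 ≤ N := by
    calc 2 ≤ h + 1 := by omega
      _ = (h + 1) ^ 1 := (pow_one _).symm
      _ ≤ (h + 1) ^ M := Nat.pow_le_pow_right (by omega) hM
  have hNr : (N : ℝ) = ((h : ℝ) + 1) ^ M := by rw [hN]; push_cast; ring
  have hN0 : (0 : ℝ) < N := by
    have : 0 < N := by omega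
    exact_mod_cast this
  have hM1 : (0 : ℝ) < (M : ℝ) + 1 := by positivity
  set δ : ℝ := 2 * (M + 1) * Y / N with hδ
  have hδ0 : 0 < δ := by rw [hδ]; positivity
  let F : (Fin (M + 1) → Fin (h + 1)) → ℝ := fun v => ∑ i, ((v i : ℕ) : ℝ) * y i
  have hF : ∀ v, |F v| ≤ (M + 1) * h * Y := by
    intro v
    calc |F v| ≤ ∑ i, |((v i : ℕ) : ℝ) * y i| := Finset.abs_sum_le_sum_abs _ _
      _ ≤ ∑ _i : Fin (M + 1), (h : ℝ) * Y := by
          refine Finset.sum_le_sum fun i _ => ?_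
          rw [abs_mul, Nat.abs_cast]
          refine mul_le_mul ?_ (hy i) (abs_nonneg _) (Nat.cast_nonneg _)
          have : (v i : ℕ) ≤ h := by have := (v i).2; omega
          exact_mod_cast this
      _ = (M + 1) * h * Y := by
          rw [Finset.sum_const, Finset.card_univ, Fintype.card_fin, nsmul_eq_mul]
          push_cast
          ring
  let G : (Fin (M + 1) → Fin (h + 1)) → ℤ := fun v => ⌊(F v + (M + 1) * h * Y) / δ⌋
  have hG : ∀ v ∈ (Finset.univ : Finset (Fin (M + 1) → Fin (h + 1))),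
      G v ∈ Finset.Icc (0 : ℤ) ((h * N : ℕ) : ℤ) := by
    intro v _
    have h1 := abs_le.1 (hF v)
    rw [Finset.mem_Icc]
    constructor
    · apply Int.floor_nonneg.2
      apply div_nonneg _ hδ0.le
      linarith [h1.1]
    · have h2 : (F v + (M + 1) * h * Y) / δ ≤ ((h * N : ℕ) : ℝ) := by
        rw [div_le_iff₀ hδ0]
        have h3 : ((h * N : ℕ) : ℝ) * δ = 2 * (M + 1) * h * Y := by
          rw [hδ]
          push_cast
          field_simp
        rw [h3]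
        linarith [h1.2]
      have h4 : G v ≤ ⌊((h * N : ℕ) : ℝ)⌋ := Int.floor_le_floor h2
      rwa [Int.floor_natCast] at h4
  have hcard : (Finset.Icc (0 : ℤ) ((h * N : ℕ) : ℤ)).card <
      (Finset.univ : Finset (Fin (M + 1) → Fin (h + 1))).card := by
    rw [Finset.card_univ, Fintype.card_fun, Fintype.card_fin, Fintype.card_fin, Int.card_Icc]
    have e1 : (((h * N : ℕ) : ℤ) + 1 - 0).toNat = h * N + 1 := by omega
    rw [e1, pow_succ, ← hN]
    nlinarith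
  obtain ⟨v, _, v', _, hne, hvv⟩ :=
    Finset.exists_ne_map_eq_of_card_lt_of_maps_to hcard hG
  refine ⟨fun i => ((v i : ℕ) : ℤ) - ((v' i : ℕ) : ℤ), ?_, ?_, ?_⟩
  · intro h0
    apply hne
    funext i
    have := congrFun h0 i
    simp only [Pi.zero_apply] at this
    apply Fin.ext
    omega
  · intro i
    have a1 : (v i : ℕ) ≤ h := by have := (v i).2; omega
    have a2 : (v' i : ℕ) ≤ h := by have := (v' i).2; omega
    have a3 : |((v i : ℕ) : ℤ) - ((v' i : ℕ) : ℤ)| ≤ (h : ℤ) := by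
      rw [abs_le]
      constructor <;> omega
    have a4 : ((|((v i : ℕ) : ℤ) - ((v' i : ℕ) : ℤ)| : ℤ) : ℝ) ≤ ((h : ℤ) : ℝ) := by
      exact_mod_cast a3
    rw [Int.cast_abs] at a4
    simpa using a4
  · have b1 : ∑ i, ((((v i : ℕ) : ℤ) - ((v' i : ℕ) : ℤ) : ℤ) : ℝ) * y i = F v - F v' := by
      change _ = ∑ i, ((v i : ℕ) : ℝ) * y i - ∑ i, ((v' i : ℕ) : ℝ) * y i
      rw [← Finset.sum_sub_distrib]
      refine Finset.sum_congr rfl fun i _ => ?_
      push_cast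
      ring
    rw [b1]
    have b2 := SIG_floor hvv
    have b3 : (F v + (M + 1) * h * Y) / δ - (F v' + (M + 1) * h * Y) / δ = (F v - F v') / δ := by
      ring
    rw [b3, abs_div, abs_of_pos hδ0, div_lt_one hδ0] at b2
    have b4 : δ = 2 * (M + 1) * Y * (((h : ℝ) + 1) ^ M)⁻¹ := by
      rw [hδ, hNr, div_eq_mul_inv]
    rw [← b4]
    exact b2.le

/-- Item SIG. -/
theorem prfSIG : SIG := by
  intro M y Y H hy hH
  have hY0 : 0 ≤ Y := (abs_nonneg _).trans (hy 0)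
  have hH0 : 0 < H := by linarith
  have hinv : 0 ≤ (H ^ M)⁻¹ := by positivity
  have hone : ∀ i : Fin (M + 1), |(((fun _ => 1 : Fin (M + 1) → ℤ) i : ℤ) : ℝ)| ≤ H := by
    intro i
    simpa using hH
  have hne : (fun _ => 1 : Fin (M + 1) → ℤ) ≠ 0 := by
    intro h0
    have := congrFun h0 0
    simp at this
  rcases hY0.eq_or_lt with hY | hY
  · refine ⟨fun _ => 1, hne, hone, ?_⟩
    have h1 : ∀ i, y i = 0 := by
      intro i
      have := hy i
      rw [← hY] at this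
      exact abs_eq_zero.1 (le_antisymm this (abs_nonneg _))
    simp [h1, ← hY]
  · rcases Nat.eq_zero_or_pos M with hM | hM
    · subst hM
      refine ⟨fun _ => 1, hne, hone, ?_⟩
      have h1 := hy 0
      simp
      linarith
    · have hh : 1 ≤ ⌊H⌋₊ := (Nat.le_floor (by exact_mod_cast hH))
      obtain ⟨x, hx0, hx1, hx2⟩ := SIG_main M hM y Y hY hy ⌊H⌋₊ hh
      refine ⟨x, hx0, fun i => (hx1 i).trans (Nat.floor_le hH0.le), hx2.trans ?_⟩
      have h2 : H ≤ (⌊H⌋₊ : ℝ) + 1 := (Nat.lt_floor_add_one H).le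
      have h3 : H ^ M ≤ ((⌊H⌋₊ : ℝ) + 1) ^ M := pow_le_pow_left₀ hH0.le h2 M
      have h4 : (((⌊H⌋₊ : ℝ) + 1) ^ M)⁻¹ ≤ (H ^ M)⁻¹ := inv_anti₀ (by positivity) h3
      exact mul_le_mul_of_nonneg_left h4 (by positivity)

end Pool.Agent.Work.MP_f1a024_nt.RW
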