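import Pool.Agent.Work.MP_f1a024_nt.RW.StmtsS
import Pool.Agent.Work.MP_f1a024_nt.RW.VLJ

/-!
# Block WS, item VLS: values of the family (helper31)
-/

set_option autoImplicit false

namespace Pool.Agent.Work.MP_f1a024_nt.RW

open Finset MvPolynomial Filter
open Pool.Agent.Work.MP_f1a024_nt.AH (tau PG val D1 D2 D4 D10a D10b)

/-- item VLS -/
theorem prfVLS : VLS := by
  intro hD1 hD2 hD10a k D d s A
  have hft : ∀ j, PG (ft (s j)) := fun j => VLJ_pg_ft hD10a.1 (s j)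
  have hpw : ∀ (i : Fin (d + 1)) (j : Fin (k + 1)), PG (ft (s j) ^ ((A i).1 j : ℕ)) :=
    fun i j => (VLJ_pow hD1 hD2 _ (hft j) _).1
  refine ⟨fun i => (VLJ_prod hD1 hD2 univ (fun j => ft (s j) ^ ((A i).1 j : ℕ)) (hpw i)).1, ?_⟩
  have h1 : ∀ i : Fin (d + 1), ∃ M : ℕ, ∀ m ≥ M,
      val (fS s A i) m = ∏ j, val (ft (s j) ^ ((A i).1 j : ℕ)) m :=
    fun i => (VLJ_prod hD1 hD2 univ (fun j => ft (s j) ^ ((A i).1 j : ℕ)) (hpw i)).2
  have h2 : ∀ (i : Fin (d + 1)) (j : Fin (k + 1)), ∃ M : ℕ, ∀ m ≥ M,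
      val (ft (s j) ^ ((A i).1 j : ℕ)) m = val (ft (s j)) m ^ ((A i).1 j : ℕ) :=
    fun i j => (VLJ_pow hD1 hD2 _ (hft j) _).2
  obtain ⟨M₀, hM₀⟩ := hD10a.2
  choose a ha using h1
  choose b hb using h2
  refine ⟨max M₀ (max (univ.sup a) (univ.sup fun i => univ.sup (b i))), ?_⟩
  intro n hn i
  have hn0 : M₀ ≤ n := le_trans (le_max_left _ _) hn
  have hn1 : a i ≤ n := le_trans (Finset.le_sup (f := a) (mem_univ i))
    (le_trans (le_trans (le_max_left _ _) (le_max_right _ _)) hn)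
  have hn2 : ∀ j, b i j ≤ n := fun j => le_trans (Finset.le_sup (f := b i) (mem_univ j))
    (le_trans (Finset.le_sup (f := fun i => univ.sup (b i)) (mem_univ i))
      (le_trans (le_trans (le_max_right _ _) (le_max_right _ _)) hn))
  rw [ha i n hn1, Complex.ofReal_prod]
  refine Finset.prod_congr rfl fun j _ => ?_
  rw [hb i j n (hn2 j), Complex.ofReal_pow, VLJ_val_ft,
    hM₀ (n + s j) (le_trans hn0 (Nat.le_add_right _ _))]

end Pool.Agent.Work.MP_f1a024_nt.RW
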