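import Pool.Agent.Work.MP_f1a024_nt.RW.StmtsS
import Pool.Agent.Work.MP_f1a024_nt.RW.Z2

/-!
# Block WS, item ZSF: the zero estimate (helper90)
-/

set_option autoImplicit false

namespace Pool.Agent.Work.MP_f1a024_nt.RW

open Finset MvPolynomial Filter
open Pool.Agent.Work.MP_f1a024_nt.AH (tau PG val D1 D2 D4 D10a D10b)

/-- a vector orthogonal to the generators is orthogonal to the span -/
theorem ZSF_span {N : ℕ} (z : Fin N → ℚ) (S : Set (Fin N → ℚ))
    (h : ∀ t ∈ S, ∑ i, z i * t i = 0) : ∀ t ∈ Submodule.span ℚ S, ∑ i, z i * t i = 0 := by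
  intro t ht
  induction ht using Submodule.span_induction with
  | mem t ht => exact h t ht
  | zero => simp
  | add x y _ _ hx hy =>
    have : ∑ i, z i * (x + y) i = ∑ i, z i * x i + ∑ i, z i * y i := by
      rw [← Finset.sum_add_distrib]
      exact Finset.sum_congr rfl fun i _ => by rw [Pi.add_apply]; ring
    rw [this, hx, hy, add_zero]
  | smul a x _ hx =>
    have : ∑ i, z i * (a • x) i = a * ∑ i, z i * x i := by
      rw [Finset.mul_sum]
      exact Finset.sum_congr rfl fun i _ => by rw [Pi.smul_apply, smul_eq_mul]; ring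
    rw [this, hx, mul_zero]

/-- item ZSF -/
theorem prfZSF (hNB : NB) (hUB : UB) (h1 : Z2J) (h2 : LLS) (h3 : GMC) (h4 : PQS) (h5 : KQS) :
    ZSF := by
  classical
  intro hD k D d Q s A hs hA hQ r m u a hrd hu hspan hdt
  obtain ⟨n0, nadd, npos, ninj, nex, -, nle, -, -, -⟩ := id hNB
  obtain ⟨-, -, u3, -, u5, -, -⟩ := hUB
  -- the lowest exponent
  obtain ⟨i0, hi0⟩ := hu
  set S : Finset Ex := univ.biUnion fun i => (u i).support with hS
  have hSne : S.Nonempty := by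
    obtain ⟨b, hb⟩ := MvPolynomial.support_nonempty.2 hi0
    exact ⟨b, Finset.mem_biUnion.2 ⟨i0, Finset.mem_univ _, hb⟩⟩
  obtain ⟨κ, hκ, hκmin⟩ := Finset.exists_min_image S nn hSne
  obtain ⟨i1, -, hi1⟩ := Finset.mem_biUnion.1 hκ
  have hlow : ∀ i, ∀ b ∈ (u i).support, nn κ ≤ nn b := fun i b hb =>
    hκmin b (Finset.mem_biUnion.2 ⟨i, Finset.mem_univ _, hb⟩)
  have hκup : κ ≤ up u := (u3 (u i1) κ hi1).trans (u5 _ u i1)
  obtain ⟨q, hqm, hqU, hqN⟩ := h5 k κ (up u) hκup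
  set z : Fin (d + 1) → ℚ := fun i => (u i).coeff κ with hz
  have hz0 : z ≠ 0 := fun h => MvPolynomial.mem_support_iff.1 hi1 (congrFun h i1)
  have hza : ∀ l, ∑ i, z i * (a l i : ℚ) = 0 := fun l => by
    have h6 := Z2_coeff_dt u (a l) κ
    rw [hdt l, MvPolynomial.coeff_zero] at h6
    exact h6.symm
  have hval : ∀ e : Fin (k + 1) → ℕ, uvJ (fS s A) u (nn κ * ∏ j, ((q j : ℕ)) ^ e j) =
      ∑ i, z i * fS s A i (∏ j, ((q j : ℕ)) ^ e j) :=
    h1 k d (fS s A) u κ q hlow hqU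
  -- the bound
  have key : ∃ e : Fin (k + 1) → ℕ, uvJ (fS s A) u (nn κ * ∏ j, ((q j : ℕ)) ^ e j) ≠ 0 ∧
      nn κ * ∏ j, ((q j : ℕ)) ^ e j ≤ 2 ^ r * nn (up u) := by
    rcases Nat.lt_or_ge (q (Fin.last k) : ℕ) Q with hlt | hge
    · have hqQ : ∀ j, (q j : ℕ) < Q := fun j =>
        lt_of_le_of_lt (hqm.monotone (Fin.le_last j)) hlt
      let qt : QT k Q := ⟨fun j => ⟨(q j : ℕ), hqQ j⟩, fun i j hij => hqm hij, fun j => (q j).2⟩
      have h6 : ∃ l : Fin (d + 1), (l : ℕ) ≤ r ∧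
          ∑ i, z i * fS s A i (∏ j, ((q j : ℕ)) ^ ((A l).1 j : ℕ)) ≠ 0 := by
        by_contra hcon
        push Not at hcon
        refine hz0 (hspan qt z (ZSF_span z _ ?_) hza)
        rintro t ⟨l, hl, rfl⟩
        exact hcon l hl
      obtain ⟨l, hl, hne⟩ := h6
      refine ⟨fun j => ((A l).1 j : ℕ), by rw [hval]; exact hne, ?_⟩
      have h7 := h3 k (fun j => (q j : ℕ)) (fun j => ((A l).1 j : ℕ)) hqm
      have h8 : phi (A l).1 ≤ r := (hA l).trans hl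
      calc nn κ * ∏ j, ((q j : ℕ)) ^ ((A l).1 j : ℕ) ≤
            nn κ * (2 ^ phi (A l).1 * ga k (fun j => (q j : ℕ))) := Nat.mul_le_mul_left _ h7
        _ = 2 ^ phi (A l).1 * (nn κ * ga k (fun j => (q j : ℕ))) := by ring
        _ ≤ 2 ^ r * nn (up u) := Nat.mul_le_mul (Nat.pow_le_pow_right two_pos h8) hqN
    · have h6 : ∃ e : Fin (k + 1) → ℕ, ∑ j, e j ≤ D ∧
          ∑ i, z i * fS s A i (∏ j, ((q j : ℕ)) ^ e j) ≠ 0 := by
        by_contra hcon
        push Not at hcon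
        exact hz0 (h2 hD k D d s A hs (fun j => (q j : ℕ)) hqm.injective (fun j => (q j).2) z hcon)
      obtain ⟨e, he, hne⟩ := h6
      refine ⟨e, by rw [hval]; exact hne, ?_⟩
      have h7 := h4 k D (fun j => (q j : ℕ)) hqm (fun j => (q j).2) (hQ.trans hge)
      have h8 : ∏ j, ((q j : ℕ)) ^ e j ≤ (q (Fin.last k) : ℕ) ^ D := by
        calc ∏ j, ((q j : ℕ)) ^ e j ≤ ∏ j, ((q (Fin.last k) : ℕ)) ^ e j :=
              Finset.prod_le_prod' fun j _ =>
                Nat.pow_le_pow_left (hqm.monotone (Fin.le_last j)) _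
          _ = (q (Fin.last k) : ℕ) ^ ∑ j, e j := Finset.prod_pow_eq_pow_sum _ _ _
          _ ≤ (q (Fin.last k) : ℕ) ^ D := Nat.pow_le_pow_right (q _).2.pos he
      calc nn κ * ∏ j, ((q j : ℕ)) ^ e j ≤ nn κ * ga k (fun j => (q j : ℕ)) :=
            Nat.mul_le_mul_left _ (h8.trans h7)
        _ ≤ nn (up u) := hqN
        _ ≤ 2 ^ r * nn (up u) := Nat.le_mul_of_pos_left _ (pow_pos two_pos r)
  obtain ⟨e, he1, he2⟩ := key
  have hex : ∃ k', uvJ (fS s A) u k' ≠ 0 := ⟨_, he1⟩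
  refine ⟨Nat.find hex, Nat.find_spec hex, fun k' hk => ?_, ?_⟩
  · by_contra h
    exact Nat.find_min hex hk h
  · have h6 : Nat.find hex ≤ 2 ^ r * nn (up u) := (Nat.find_min' hex he1).trans he2
    change ((Nat.find hex : ℕ) : ℝ) ≤ (2 : ℝ) ^ r * ((nn (up u) : ℕ) : ℝ)
    exact_mod_cast h6

end Pool.Agent.Work.MP_f1a024_nt.RW
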