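import Pool.Agent.Work.MP_f1a024_nt.RW.FinalK
import Pool.Agent.Work.MP_f1a024_nt.RW.P1F
import Pool.Agent.Work.MP_f1a024_nt.RW.P6F
import Pool.Agent.Work.MP_f1a024_nt.RW.CRF
import Pool.Agent.Work.MP_f1a024_nt.RW.MRF
import Pool.Agent.Work.MP_f1a024_nt.RW.GML
import Pool.Agent.Work.MP_f1a024_nt.RW.GMC
import Pool.Agent.Work.MP_f1a024_nt.RW.PQS
import Pool.Agent.Work.MP_f1a024_nt.RW.KQS
import Pool.Agent.Work.MP_f1a024_nt.RW.PHD
import Pool.Agent.Work.MP_f1a024_nt.RW.SRT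
import Pool.Agent.Work.MP_f1a024_nt.RW.CDS
import Pool.Agent.Work.MP_f1a024_nt.RW.LLS
import Pool.Agent.Work.MP_f1a024_nt.RW.FRS
import Pool.Agent.Work.MP_f1a024_nt.RW.ZSF
import Pool.Agent.Work.MP_f1a024_nt.RW.VLS
import Pool.Agent.Work.MP_f1a024_nt.RW.PLS
import Pool.Agent.Work.MP_f1a024_nt.RW.MTS
import Pool.Agent.Work.MP_f1a024_nt.RW.SIG
import Pool.Agent.Work.MP_f1a024_nt.RW.NRS
import Pool.Agent.Work.MP_f1a024_nt.RW.OPS

/-!
# Block WS: assembly of THEOREM WS (sharp threshold and sharp exponent, any number of values)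
-/

namespace Pool.Agent.Work.MP_f1a024_nt.RW

open Pool.Agent.Work.MP_f1a024_nt.AH

theorem p6f : P6F := prfP6F prfP0 (prfP1F prfAVD) prfP2 (prfP3a ub prfAVD) (prfP3b prfAVD)
  (prfP4 prfP4a) prfP5
theorem crf : CRF := prfCRF d4 (prfWS lb eb) p6f (prfF1aJ nb) cuj'
theorem mrf : MRF := prfMRF crf
theorem lls : LLS := prfLLS lbj' prfORJ
theorem zsf : ZSF := prfZSF nb ub (prfZ2J nb ub) lls (prfGMC prfGML) (prfPQS prfPBJ) (prfKQS nb)
theorem mts : MTS := prfMTS prfD1 prfD2 d10a prfD10b mtk prfCDS (prfSRT prfPHD) (prfFRS lls) zsf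
  prfVLS prfPLS mrf
theorem ops : OPS := prfOPS prfSIG prfNRS prfCDS

end Pool.Agent.Work.MP_f1a024_nt.RW
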