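import Pool.Agent.Work.MP_f1a024_nt.RW.StmtsK

/-!
# Block WJ, item MTK: THEOREM WJ, final form (adapted from MTJ)
-/

set_option autoImplicit false

namespace Pool.Agent.Work.MP_f1a024_nt.RW

open Finset MvPolynomial Filter
open Pool.Agent.Work.MP_f1a024_nt.AH (tau PG val D1 D2 D4 D10a D10b)

/-- item MTK -/
theorem prfMTK (hD1 : D1) (hD2 : D2) (hD10a : D10a) (hD10b : D10b) (h1 : ORJ) (h2 : DIJ)
    (h5 : VLJ) (h6 : PLJ) (h7 : MRK) (h8 : THK) : MTK := by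
  intro k D s B ε hs hε
  obtain ⟨A, hA⟩ := h1 k D
  obtain ⟨hPG, M₂, hM₂⟩ := h5 hD1 hD2 hD10a k D _ s A
  obtain ⟨ζ, hζ, hζH⟩ := h8 hD10b k D _ s A hs hA
  obtain ⟨M₁, hM₁⟩ := h7 _ (fI s A) (TJ A) ζ hPG (h2 k D _ A) hζ B ε hε
  refine ⟨max M₁ M₂, fun n hn P H hP hdeg hco hH1 hH2 => ?_⟩
  have hn1 : M₁ ≤ n := le_trans (le_max_left _ _) hn
  have hn2 : M₂ ≤ n := le_trans (le_max_right _ _) hn
  obtain ⟨hx, hsum⟩ := h6 k D _ A P hdeg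
  have h8 := hM₁ n hn1
    (fun i => P.coeff (Finsupp.equivFunOnFinite.symm fun j => (A i j : ℕ))) H (hx hP)
    (fun i => hco _) (fun r hr => hζH n H hH1 r hr) hH2
  refine le_trans h8 (le_of_eq ?_)
  rw [hsum]
  have h9 : ∑ i, ((P.coeff (Finsupp.equivFunOnFinite.symm fun j => (A i j : ℕ)) : ℤ) : ℂ) *
      ∏ j, (riemannZeta (2 * ((n + s j : ℕ) : ℂ)) / riemannZeta ((n + s j : ℕ) : ℂ) ^ 2) ^
        (A i j : ℕ) =
      ((∑ i, ((P.coeff (Finsupp.equivFunOnFinite.symm fun j => (A i j : ℕ)) : ℤ) : ℝ) *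
        val (fI s A i) n : ℝ) : ℂ) := by
    push_cast
    refine Finset.sum_congr rfl fun i _ => ?_
    rw [hM₂ n hn2 i]
    push_cast
    rfl
  rw [h9, Complex.norm_real, Real.norm_eq_abs]

end Pool.Agent.Work.MP_f1a024_nt.RW
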