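import Pool.Agent.Work.MP_f1a024_nt.RW.StmtsJ

/-!
# Block WJ, item N2J: the threshold which does not depend on `D`
-/

namespace Pool.Agent.Work.MP_f1a024_nt.RW

open Finset MvPolynomial Filter
open Pool.Agent.Work.MP_f1a024_nt.AH (tau PG val D1 D2 D4 D10a D10b)

theorem prfN2J (h1 : PBJ) (h2 : N1J) : N2J := by
  intro k D hk c q hc hcD hq
  have hpb : (0 : ℝ) ≤ pb q := by
    unfold pb
    positivity
  have h3 := h1 q (c + k) hq
  have h4 := h2 k D c hk hc hcD
  have h5 : (c + k) * (c + k + 1) / 2 ≤ (k + 1) * (k + 2) / 2 * nu k D c := by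
    have h6 : (k + 1) * (k + 2) = 2 * ((k + 1) * (k + 2) / 2) := by
      have : 2 ∣ (k + 1) * (k + 2) := (Nat.even_mul_succ_self (k + 1)).two_dvd
      omega
    have h7 : (c + k) * (c + k + 1) ≤ 2 * ((k + 1) * (k + 2) / 2 * nu k D c) := by
      calc (c + k) * (c + k + 1) ≤ (k + 1) * (k + 2) * nu k D c := h4
        _ = 2 * ((k + 1) * (k + 2) / 2) * nu k D c := by rw [← h6]
        _ = 2 * ((k + 1) * (k + 2) / 2 * nu k D c) := by ring
    omega
  calc (q : ℝ) ^ (c + k) ≤ 2 ^ ((c + k) * (c + k + 1) / 2) * pb q := h3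
    _ ≤ 2 ^ ((k + 1) * (k + 2) / 2 * nu k D c) * pb q := by
        gcongr
        norm_num
    _ = ((2 : ℝ) ^ ((k + 1) * (k + 2) / 2)) ^ nu k D c * pb q := by rw [pow_mul]

end Pool.Agent.Work.MP_f1a024_nt.RW
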