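import Pool.Agent.Work.MP_f1a024_nt.RW.Stmts

/-!
# Block RW, item PU: Proposition U
-/

namespace Pool.Agent.Work.MP_f1a024_nt.RW

open Finset MvPolynomial Filter

lemma PU_pow (B h : ℝ) (n : ℕ) (hB : h ≤ B ^ n) : h ≤ (max |B| 1) ^ n :=
  hB.trans ((le_abs_self _).trans ((abs_pow B n).le.trans
    (pow_le_pow_left₀ (abs_nonneg B) (le_max_left _ _) n)))

theorem prfPU (hNB : NB) (hCNT : CNT) (hPUR : PUR) (hStD : StD) : PU := by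
  intro m 𝒰 x H B w l κ₀ κ₁ ε hH hRel hsat hκ₀ hl0 hκ₁ hε
  have hpos : ∀ a : Ex, 0 < nn a := hNB.2.2.1
  have h1 : ∀ a : Ex, (1 : ℝ) ≤ (nn a : ℝ) := fun a => by exact_mod_cast hpos a
  obtain ⟨η, ε₁, hη, hε₁, hP⟩ := hPUR m ε (max |B| 1) (nn κ₀) (nn κ₁) (nn (up w)) hε
    (le_max_right _ _) (h1 _) (h1 _) (h1 _)
  obtain ⟨δ, hδ, hl, hw, hT, hW⟩ := hCNT (up l) (up w) η hη
  have hS := hStD m 𝒰 x H B w l κ₀ κ₁ δ ε₁ hH hRel hsat hκ₀ hl0 hκ₁ hw hl hδ hε₁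
  have hI : 0 < (Iic δ).card := Finset.card_pos.2 ⟨0, Finset.mem_Iic.2 (by simp)⟩
  have hTI : (Iic (δ - up l)).card ≤ (Iic δ).card :=
    Finset.card_le_card (Finset.Iic_subset_Iic.2 tsub_le_self)
  have hWI : (Iic (δ - up w)).card ≤ (Iic δ).card :=
    Finset.card_le_card (Finset.Iic_subset_Iic.2 tsub_le_self)
  filter_upwards [hH, hS] with n hn1 hn2
  exact hP _ _ _ hI hTI hWI hT hW n _ (H n) (abs_nonneg _) hn1.1 (PU_pow _ _ _ hn1.2.1) hn2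

end Pool.Agent.Work.MP_f1a024_nt.RW
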