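import Pool.Agent.Work.MP_f1a024_nt.RW.StmtsS

/-!
# Block WS: item SRT (the numbering of the exponents)
-/

namespace Pool.Agent.Work.MP_f1a024_nt.RW

open Finset MvPolynomial Filter

/-- every number below a value of `phi` is a value of `phi` -/
theorem SRT_val (h : PHD) (k D : ℕ) (hk : 1 ≤ k) :
    ∀ (n : ℕ) (α : SX k D), phi α.1 = n → ∀ w ≤ n, ∃ β : SX k D, phi β.1 = w := by
  intro n
  induction n with
  | zero =>
    intro α hα w hw
    exact ⟨α, by omega⟩
  | succ n ih =>
    intro α hα w hw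
    rcases Nat.lt_or_ge w (n + 1) with h1 | h1
    · obtain ⟨β, hβ⟩ := h k D hk α (by omega)
      exact ih β (by omega) w (by omega)
    · exact ⟨α, by omega⟩

/-- item SRT -/
theorem prfSRT (h : PHD) : SRT := by
  intro k D d hk hcard
  let e₀ : Fin (d + 1) ≃ SX k D := (Fintype.equivFinOfCardEq hcard).symm
  let f : Fin (d + 1) → ℕ := fun i => phi (e₀ i).1
  let A : Fin (d + 1) ≃ SX k D := (Tuple.sort f).trans e₀
  have hmono : Monotone fun i => phi (A i).1 := Tuple.monotone_sort f
  refine ⟨A, fun i => ?_⟩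
  by_contra hcon
  push Not at hcon
  have hval : ∀ w : Fin ((i : ℕ) + 1), ∃ β : SX k D, phi β.1 = (w : ℕ) := fun w =>
    SRT_val h k D hk _ (A i) rfl w (by have := w.2; omega)
  choose β hβ using hval
  have hpos : ∀ w : Fin ((i : ℕ) + 1), ((A.symm (β w) : Fin (d + 1)) : ℕ) < (i : ℕ) := by
    intro w
    by_contra hw
    push Not at hw
    have h1 : phi (A i).1 ≤ phi (A (A.symm (β w))).1 := hmono (Fin.le_def.mpr hw)
    rw [Equiv.apply_symm_apply, hβ] at h1
    have := w.2
    omega
  have hinj : Function.Injective fun w : Fin ((i : ℕ) + 1) =>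
      (⟨((A.symm (β w) : Fin (d + 1)) : ℕ), hpos w⟩ : Fin (i : ℕ)) := by
    intro w w' hw
    have h0 := Fin.ext_iff.mp hw
    have h1 : A.symm (β w) = A.symm (β w') := Fin.ext h0
    have h2 : β w = β w' := A.symm.injective h1
    apply Fin.ext
    rw [← hβ w, ← hβ w', h2]
  have h1 := Fintype.card_le_of_injective _ hinj
  rw [Fintype.card_fin, Fintype.card_fin] at h1
  omega

end Pool.Agent.Work.MP_f1a024_nt.RW
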