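import Mathlib

/-!
# Block WJ, sharp zero estimate for `k = 0`, part 1: one prime

If `w` is a polynomial of degree at most `e` and `(1 - ρ²z²) φ' = -2iρ φ`, then the product of the
operators `(1 - ρ²z²) D + 2nρ²z + 2iρ`, `n = 0, .., e`, kills `w φ`. In terms of the coefficients:
the sums `∑_i σ_i^j [z^a] h_i`.
-/

set_option autoImplicit false

namespace Pool.Agent.Work.MP_f1a024_nt.RW

open Finset PowerSeries

/-- the operator `(1 - ρ²z²) D + 2nρ²z + 2iρ` -/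
noncomputable def LK (ρ i : ℚ) (n : ℕ) (h : ℚ⟦X⟧) : ℚ⟦X⟧ :=
  (1 - C (ρ ^ 2) * X ^ 2) * derivative ℚ h + C (2 * n * ρ ^ 2) * X * h + C (2 * i * ρ) * h

theorem LK_step (ρ i : ℚ) (n : ℕ) (w φ : ℚ⟦X⟧)
    (hφ : (1 - C (ρ ^ 2) * X ^ 2) * derivative ℚ φ = -(C (2 * i * ρ) * φ)) :
    LK ρ i n ((1 - C (ρ ^ 2) * X ^ 2) ^ n * w * φ) =
      (1 - C (ρ ^ 2) * X ^ 2) ^ (n + 1) * derivative ℚ w * φ := by
  have hc : derivative ℚ (1 - C (ρ ^ 2) * X ^ 2 : ℚ⟦X⟧) = -(C (2 * ρ ^ 2) * X) := by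
    rw [map_sub, Derivation.leibniz, derivative_C, derivative_pow, derivative_X]
    simp only [Derivation.map_one_eq_zero, smul_eq_mul, Nat.cast_ofNat, map_mul, map_ofNat]
    ring
  unfold LK
  set c : ℚ⟦X⟧ := 1 - C (ρ ^ 2) * X ^ 2 with hcdef
  have h1 : derivative ℚ (c ^ n * w * φ) =
      (n : ℚ⟦X⟧) * c ^ (n - 1) * (-(C (2 * ρ ^ 2) * X)) * w * φ + c ^ n * derivative ℚ w * φ +
        c ^ n * w * derivative ℚ φ := by
    rw [Derivation.leibniz, Derivation.leibniz, derivative_pow, hc]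
    simp only [smul_eq_mul]
    ring
  rw [h1]
  have h2 : c * ((n : ℚ⟦X⟧) * c ^ (n - 1)) = (n : ℚ⟦X⟧) * c ^ n := by
    rcases Nat.eq_zero_or_pos n with h | h
    · subst h; simp
    · obtain ⟨k, rfl⟩ : ∃ k, n = k + 1 := ⟨n - 1, by omega⟩
      simp only [Nat.add_sub_cancel]
      ring
  have h3 : (C (2 * (n : ℚ) * ρ ^ 2) : ℚ⟦X⟧) = (n : ℚ⟦X⟧) * C (2 * ρ ^ 2) := by
    rw [show 2 * (n : ℚ) * ρ ^ 2 = (n : ℚ) * (2 * ρ ^ 2) by ring, map_mul, map_natCast]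
  rw [h3]
  linear_combination (-(C (2 * ρ ^ 2) * X) * w * φ) * h2 + (c ^ n * w) * hφ

/-- iteration of the operators -/
noncomputable def YK (ρ i : ℚ) : ℕ → ℚ⟦X⟧ → ℚ⟦X⟧
  | 0, h => h
  | n + 1, h => LK ρ i n (YK ρ i n h)

theorem YK_eq (ρ i : ℚ) (n : ℕ) (w φ : ℚ⟦X⟧)
    (hφ : (1 - C (ρ ^ 2) * X ^ 2) * derivative ℚ φ = -(C (2 * i * ρ) * φ)) :
    YK ρ i n (w * φ) = (1 - C (ρ ^ 2) * X ^ 2) ^ n * (derivative ℚ)^[n] w * φ := by
  induction n with
  | zero => simp [YK]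
  | succ n ih =>
    rw [YK, ih, LK_step ρ i n _ φ hφ, Function.iterate_succ_apply']

theorem YK_zero (ρ i : ℚ) (e : ℕ) (w φ : ℚ⟦X⟧)
    (hφ : (1 - C (ρ ^ 2) * X ^ 2) * derivative ℚ φ = -(C (2 * i * ρ) * φ))
    (hw : ∀ a, e < a → coeff a w = 0) : YK ρ i (e + 1) (w * φ) = 0 := by
  rw [YK_eq ρ i (e + 1) w φ hφ]
  have : (derivative ℚ)^[e + 1] w = 0 := by
    ext a
    rw [coeff_iterate_derivative, hw _ (by omega), mul_zero, map_zero]
  rw [this, mul_zero, zero_mul]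

theorem coeff_LK (ρ i : ℚ) (n : ℕ) (h : ℚ⟦X⟧) (a : ℕ) :
    coeff a (LK ρ i n h) = (a + 1) * coeff (a + 1) h + 2 * ρ * (i * coeff a h) +
      (match a with
        | 0 => 0
        | a' + 1 => ρ ^ 2 * (2 * n - a') * coeff a' h) := by
  unfold LK
  rw [map_add, map_add, sub_mul, one_mul, map_sub, coeff_derivative, mul_assoc (C _) (X ^ 2),
    mul_assoc (C (2 * (n : ℚ) * ρ ^ 2)), coeff_C_mul, coeff_C_mul, coeff_C_mul]
  rcases a with _ | a
  · simp [coeff_X_pow_mul']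
    ring
  · rw [coeff_succ_X_mul]
    rcases a with _ | a
    · simp [coeff_X_pow_mul']
      ring
    · have : coeff (a + 1 + 1) (X ^ 2 * derivative ℚ h) = coeff (a + 1) h * (a + 1) := by
        rw [show a + 1 + 1 = a + 2 by rfl, coeff_X_pow_mul, coeff_derivative]
      rw [this]
      push_cast
      ring

variable {ι : Type} [Fintype ι]

/-- the sums `∑_i σ_i^j [z^a] y_i` -/
noncomputable def SK (σ : ι → ℕ) (y : ι → ℚ⟦X⟧) (j a : ℕ) : ℚ :=
  ∑ i, (σ i : ℚ) ^ j * coeff a (y i)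

theorem SK_step (σ : ι → ℕ) (ρ : ℚ) (n : ℕ) (y : ι → ℚ⟦X⟧) (j a : ℕ) :
    SK σ (fun i => LK ρ (σ i) n (y i)) j a = (a + 1) * SK σ y j (a + 1) + 2 * ρ * SK σ y (j + 1) a +
      (match a with
        | 0 => 0
        | a' + 1 => ρ ^ 2 * (2 * n - a') * SK σ y j a') := by
  unfold SK
  simp only [coeff_LK]
  rcases a with _ | a
  · simp only [add_zero, Finset.mul_sum, ← Finset.sum_add_distrib]
    exact Finset.sum_congr rfl fun i _ => by ring
  · simp only [Finset.mul_sum, ← Finset.sum_add_distrib]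
    exact Finset.sum_congr rfl fun i _ => by ring

/-- unrolling -/
theorem SK_unroll (σ : ι → ℕ) (ρ : ℚ) (h : ι → ℚ⟦X⟧) (n : ℕ) :
    ∀ j a : ℕ, (∀ j' a', j' < j + n → j' + a' ≤ j + n + a → SK σ h j' a' = 0) →
      SK σ (fun i => YK ρ (σ i) n (h i)) j a = (2 * ρ) ^ n * SK σ h (j + n) a := by
  induction n with
  | zero => intro j a _; simp [YK]
  | succ n ih =>
    intro j a hz
    have h1 : SK σ (fun i => YK ρ (σ i) (n + 1) (h i)) j a =
        SK σ (fun i => LK ρ (σ i) n (YK ρ (σ i) n (h i))) j a := rfl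
    rw [h1, SK_step σ ρ n (fun i => YK ρ (σ i) n (h i))]
    have e1 : SK σ (fun i => YK ρ (σ i) n (h i)) j (a + 1) = 0 := by
      rw [ih j (a + 1) (fun j' a' h1 h2 => hz j' a' (by omega) (by omega)),
        hz (j + n) (a + 1) (by omega) (by omega), mul_zero]
    have e2 : SK σ (fun i => YK ρ (σ i) n (h i)) (j + 1) a =
        (2 * ρ) ^ n * SK σ h (j + 1 + n) a :=
      ih (j + 1) a (fun j' a' h1 h2 => hz j' a' (by omega) (by omega))
    rw [e1, e2, mul_zero, zero_add]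
    rcases a with _ | a
    · simp only [add_zero]
      rw [show j + 1 + n = j + (n + 1) by omega]
      ring
    · have e3 : SK σ (fun i => YK ρ (σ i) n (h i)) j a = 0 := by
        rw [ih j a (fun j' a' h1 h2 => hz j' a' (by omega) (by omega)),
          hz (j + n) a (by omega) (by omega), mul_zero]
      simp only [e3, mul_zero, add_zero]
      rw [show j + 1 + n = j + (n + 1) by omega]
      ring

/-- the conclusion for one prime: all sums of smaller degree in the triangle vanish, so the next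
one vanishes -/
theorem SK_main (σ : ι → ℕ) (ρ : ℚ) (hρ : ρ ≠ 0) (e b a : ℕ) (hb : e < b) (w φ : ι → ℚ⟦X⟧)
    (hφ : ∀ i, (1 - C (ρ ^ 2) * X ^ 2) * derivative ℚ (φ i) = -(C (2 * (σ i : ℚ) * ρ) * φ i))
    (hw : ∀ i a, e < a → coeff a (w i) = 0)
    (hz : ∀ j' a', j' < b → j' + a' ≤ b + a → SK σ (fun i => w i * φ i) j' a' = 0) :
    SK σ (fun i => w i * φ i) b a = 0 := by
  have h1 := SK_unroll σ ρ (fun i => w i * φ i) (e + 1) (b - (e + 1)) a
    (fun j' a' h1 h2 => hz j' a' (by omega) (by omega))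
  have h2 : SK σ (fun i => YK ρ (σ i) (e + 1) (w i * φ i)) (b - (e + 1)) a = 0 := by
    unfold SK
    refine Finset.sum_eq_zero fun i _ => ?_
    show (σ i : ℚ) ^ (b - (e + 1)) * coeff a (YK ρ (σ i) (e + 1) (w i * φ i)) = 0
    rw [YK_zero ρ (σ i) e (w i) (φ i) (hφ i) (hw i), map_zero, mul_zero]
  rw [h2, show b - (e + 1) + (e + 1) = b by omega] at h1
  have h3 : (2 * ρ) ^ (e + 1) ≠ 0 := pow_ne_zero _ (mul_ne_zero two_ne_zero hρ)
  exact (mul_eq_zero.1 h1.symm).resolve_left h3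

end Pool.Agent.Work.MP_f1a024_nt.RW
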