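import Pool.Agent.Work.MP_f1a024_nt.RW.StmtsK
import Pool.Agent.Work.MP_f1a024_nt.RW.ZK1

/-!
# Block WJ, second round, item STK (helper58): the step for one prime
-/

set_option autoImplicit false

namespace Pool.Agent.Work.MP_f1a024_nt.RW

open Finset MvPolynomial Filter
open Pool.Agent.Work.MP_f1a024_nt.AH (tau PG val D1 D2 D4 D10a D10b)

theorem prfSTK (hD : D10b) (h1 : FAK) (h2 : ODK) (h3 : MUK) : STK := by
  intro d s σ u κ m p b a hm hb hy hz
  obtain ⟨w, hw, hA⟩ := h1 d (fun i => ft s ^ σ i) u κ m p (fun i => h3 hD s (σ i)) hm hy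
  have hp : (((p : ℕ) : ℚ) ^ s)⁻¹ ≠ 0 :=
    inv_ne_zero (pow_ne_zero _ (Nat.cast_ne_zero.2 p.2.ne_zero))
  have key := SK_main σ ((((p : ℕ) : ℚ) ^ s)⁻¹) hp (up u p - κ p) b a hb w
    (fun i => PowerSeries.mk fun c => (ft s ^ σ i) ((p : ℕ) ^ c))
    (fun i => h2 s (σ i) p p.2) hw ?_
  · unfold SK at key
    rw [← key]
    exact Finset.sum_congr rfl fun i _ => by rw [hA i a]
  · intro j' a' hj ha
    rw [← hz j' a' hj ha]
    unfold SK
    exact Finset.sum_congr rfl fun i _ => by rw [hA i a']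

end Pool.Agent.Work.MP_f1a024_nt.RW
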