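import Pool.Agent.Work.MP_f1a024_nt.RW.Defs

/-!
# Block RW: statements (THEOREM W)

For every `d`, `B`, `ε > 0` and all large `n`, every nonzero integer polynomial `P` of degree at
most `d` with coefficients bounded by `H`, `2^((d+1)n/2) ≤ H ≤ B^n`, satisfies
`|P(ζ(2n)/ζ(n)^2)| ≥ e^(-εn) H^(-d)`.

Notation in the proofs: `N(a) = nn a`, `low(f)` is the exponent `κ` with `IsLow f κ`,
`𝒰` is an ultrafilter on `ℕ`, almost all `n` means `∀ᶠ n : ℕ in 𝒰`. Every item may assume all other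
items it quotes, as hypotheses (`theorem prfTW (h1 : NB) (h2 : TRI) : TW`).
-/

namespace Pool.Agent.Work.MP_f1a024_nt.RW

open Finset MvPolynomial Filter
open Pool.Agent.Work.MP_f1a024_nt.AH (tau PG val D1 D2 D4 D10a D10b)

/-! ## Part 0: basic facts -/

/-- NB (EASY): the integer `nn a` of an exponent `a`. This is unique factorisation. `nn` is the
product of `p ^ a_p`; (1), (2): `Finsupp.prod_zero_index`, `Finsupp.prod_add_index'`; (3) product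
of positive numbers; the factorisation of `nn a` at the prime `p` is `a p` (for (8): `nn a` is a
product of powers of distinct primes, `Nat.factorization_prod_pow_eq_self` or
`Nat.factorization_prod`, `Nat.Prime.factorization_pow`), so `ex (nn a) = a` by `Finsupp.ext`,
and `nn` is injective. For `m > 0`, `nn (ex m) = m`: both have the same factorisation (for a prime
`p`, `ex m p = m.factorization p` by `Finsupp.comapDomain_apply`), `Nat.eq_of_factorization_eq`.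
`a ≤ b` iff `nn a ∣ nn b`: `Nat.factorization_le_iff_dvd`. The last three: compare
factorisations. -/
def NB : Prop :=
  nn 0 = 1 ∧ (∀ a b, nn (a + b) = nn a * nn b) ∧ (∀ a, 0 < nn a) ∧ Function.Injective nn ∧
    (∀ m, 0 < m → nn (ex m) = m) ∧ (∀ a, ex (nn a) = a) ∧ (∀ a b : Ex, a ≤ b ↔ nn a ∣ nn b) ∧
    (∀ (a : Ex) (p : Nat.Primes), (nn a).factorization p = a p) ∧
    (∀ (p : Nat.Primes) (k : ℕ), nn (Finsupp.single p k) = (p : ℕ) ^ k) ∧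
    (∀ m m', 0 < m → 0 < m' → ex (m * m') = ex m + ex m') ∧
    ∀ (p : Nat.Primes) (k : ℕ), ex ((p : ℕ) ^ k) = Finsupp.single p k

/-- LB (EASY): lowest exponents. (1) `Finset.exists_min_image`, the support of a nonzero polynomial
is nonempty. (2) if `κ, κ'` are both lowest then `nn κ = nn κ'`, and `nn` is injective (NB).
(3) Let `κ, κ'` be lowest for `f, g`. The coefficient of `f * g` at `κ + κ'` is the sum of
`f_a g_b` over `a + b = κ + κ'` (`MvPolynomial.coeff_mul`). If `f_a g_b ≠ 0` then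
`N(a) ≥ N(κ)`, `N(b) ≥ N(κ')` and `N(a) N(b) = N(κ) N(κ')`, so `N(a) = N(κ)`, `a = κ`, `b = κ'`:
the coefficient is `f_κ g_κ' ≠ 0`. Every exponent of `f * g` is `a + b` with `a ∈ supp f`,
`b ∈ supp g` (`MvPolynomial.support_mul`), so `N(a + b) = N(a) N(b) ≥ N(κ) N(κ') = N(κ + κ')`.
(4) the support is nonempty. -/
def LB : Prop :=
  (∀ f : Rg, f ≠ 0 → ∃ κ, IsLow f κ) ∧ (∀ f κ κ', IsLow f κ → IsLow f κ' → κ = κ') ∧
    (∀ f g κ κ', IsLow f κ → IsLow g κ' → IsLow (f * g) (κ + κ')) ∧ ∀ f κ, IsLow f κ → f ≠ 0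

/-- UB (EASY): highest exponents. (1) is `MvPolynomial.degreeOf_eq_sup` (evaluation of the
supremum at `p` commutes with `Finset.sup`, e.g. by `Finset.sup_induction` or
`Finset.comp_sup_eq_sup_comp`); (2) from (1) and `MvPolynomial.degreeOf_mul_eq`, `Finsupp.ext`;
(3) `Finset.le_sup (f := id)`; (4) the supremum of a nonempty finite set of numbers is attained
(`Finset.exists_mem_eq_sup'` or `Finset.exists_max_image`); (5), (6) the same for `up`.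
(7): if `κ ∈ supp f` then `κ ≤ up1 f`, so `N(κ) ∣ N(up1 f)` by NB. -/
def UB : Prop :=
  (∀ (f : Rg) (p : Nat.Primes), up1 f p = degreeOf p f) ∧
    (∀ f g : Rg, f ≠ 0 → g ≠ 0 → up1 (f * g) = up1 f + up1 g) ∧
    (∀ (f : Rg), ∀ κ ∈ f.support, κ ≤ up1 f) ∧
    (∀ (f : Rg) (p : Nat.Primes), f ≠ 0 → ∃ κ ∈ f.support, κ p = up1 f p) ∧
    (∀ (ι : Type) [Fintype ι] (w : ι → Rg) (k : ι), up1 (w k) ≤ up w) ∧
    (∀ (ι : Type) [Fintype ι] [Nonempty ι] (w : ι → Rg) (p : Nat.Primes),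
      ∃ k, up w p = up1 (w k) p) ∧
    ∀ (f : Rg), ∀ κ ∈ f.support, nn κ ≤ nn (up1 f)

/-- EB (EASY-MEDIUM): values. (1) `MvPolynomial.aeval_def`, `eval₂_eq'` or `as_sum`: the monomial
`z^a` has the value `∏ (p^n)^(-1)^(a_p) = (N(a)^n)^(-1)`. (2) Let `κ` be lowest. Then
`ev n f * N(κ)^n = f_κ + ∑_{a ∈ supp f, a ≠ κ} f_a (N(κ)/N(a))^n` and every `N(κ)/N(a) < 1` (NB
injective), so this tends to `f_κ ≠ 0` (`tendsto_pow_atTop_nhds_zero_of_lt_one`, finite sum). So for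
large `n` its absolute value is between `|f_κ|/2` and `2 |f_κ|`. Take
`C = max (2 |f_κ|) (2 / |f_κ|)`. -/
def EB : Prop :=
  (∀ (f : Rg) (n : ℕ), ev n f = ∑ a ∈ f.support, f.coeff a * ((nn a : ℚ) ^ n)⁻¹) ∧
    ∀ f κ, IsLow f κ → ∃ (C : ℝ) (M : ℕ), 0 < C ∧ ∀ n ≥ M,
      C⁻¹ * ((nn κ : ℝ) ^ n)⁻¹ ≤ |((ev n f : ℚ) : ℝ)| ∧
        |((ev n f : ℚ) : ℝ)| ≤ C * ((nn κ : ℝ) ^ n)⁻¹

/-- SH (EASY-MEDIUM): values of shifts. The sum over the box is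
`∑_k ∑_{b ≤ δ, a ≤ b} coeff_{b-a}(w_k) x_k N(b)^(-n)` (`Finset.sum_product`). Every `c` in the
support of `w_k` satisfies `c ≤ up w` (UB), so `a + c ≤ a + up w ≤ δ`: the terms with nonzero
coefficient are exactly `b = a + c`, `c ∈ supp w_k` (`Finset.sum_bij_ne_zero`, or rewrite with
`Finset.sum_image` for the injective map `c ↦ a + c`, after `Finset.sum_subset`). As
`N(a + c) = N(a) N(c)`, the sum is `N(a)^(-n) ∑_k x_k ∑_c coeff_c(w_k) N(c)^(-n)`, and the inner sum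
is `ev n (w_k)` (EB). -/
def SH : Prop :=
  ∀ (ι : Type) [Fintype ι] (w : ι → Rg) (a δ : Ex), a + up w ≤ δ → ∀ (n : ℕ) (x : ι → ℤ),
    ∑ i ∈ bx ι δ, sh w a i * pt n x i = ((nn a : ℚ) ^ n)⁻¹ * ∑ k, ev n (w k) * (x k : ℚ)

/-- EE (EASY): the excluded sets. (1) the map `a ↦ (k, a + κ)` is injective
(`Finset.card_image_of_injective`); (2) if `a ≤ δ'` then `a + κ ≤ δ' + κ ≤ δ`; (3) products over
`ee`: `Finset.prod_image`, `N(a + κ) = N(a) N(κ)`. -/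
def EE : Prop :=
  ∀ (ι : Type) [Fintype ι] [DecidableEq ι] (k : ι) (κ δ' δ : Ex),
    (ee k κ δ').card = (Iic δ').card ∧ (δ' + κ ≤ δ → ee k κ δ' ⊆ bx ι δ) ∧
      ∏ i ∈ ee k κ δ', nn i.2 = (∏ a ∈ Iic δ', nn a) * nn κ ^ (Iic δ').card

/-! ## Part I: the Subspace theorem -/

/-- TRI (EASY): triangular systems. Suppose `y i ≠ 0` for some `i ∈ 𝔹`. Then
`𝒜' = {a ∈ 𝒜 : y (e a) ≠ 0}` is not empty; let `a' ∈ 𝒜'` have the largest `ρ`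
(`Finset.exists_max_image`). In `∑_{i ∈ 𝔹} φ a' i * y i = 0` a nonzero term has `y i ≠ 0`, so
`i = e a''` with `a'' ∈ 𝒜`, and `φ a' (e a'') ≠ 0`, so `a'' = a'` or `ρ a' < ρ a''`; the latter is
impossible because `a'' ∈ 𝒜'`. So only `i = e a'` contributes (`Finset.sum_eq_single`) and
`φ a' (e a') * y (e a') = 0`, a contradiction. -/
def TRI : Prop :=
  ∀ (ι α L : Type) [LinearOrder L] (𝔹 : Finset ι) (𝒜 : Finset α) (φ : α → ι → ℚ) (e : α → ι)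
    (ρ : α → L), (∀ a ∈ 𝒜, e a ∈ 𝔹) → (∀ a ∈ 𝒜, φ a (e a) ≠ 0) →
    (∀ a ∈ 𝒜, ∀ a' ∈ 𝒜, φ a (e a') ≠ 0 → a' = a ∨ ρ a < ρ a') →
    ∀ y : ι → ℚ, (∀ i ∈ 𝔹, y i ≠ 0 → ∃ a ∈ 𝒜, e a = i) →
      (∀ a ∈ 𝒜, ∑ i ∈ 𝔹, φ a i * y i = 0) → ∀ i ∈ 𝔹, y i = 0

/-- TW (EASY-MEDIUM): TRI with `𝔹` the box, `𝒜 = Iic (δ - up w)`, `φ a = sh w a`,
`e a = (k, a + κ)`, `ρ = nn`. `e a` is in the box: `κ ≤ up1 (w k) ≤ up w` (UB), so
`a + κ ≤ δ - up w + up w = δ`. `sh w a (e a) = coeff_κ (w k) ≠ 0`. If `sh w a (e a') ≠ 0` then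
`a ≤ a' + κ` and `c = a' + κ - a ∈ supp (w k)`, so `N(c) ≥ N(κ)` and `a + c = a' + κ`, so
`N(a) N(c) = N(a') N(κ)`, so `N(a) ≤ N(a')`; if `N(a) = N(a')` then `a = a'` (NB). -/
def TW : Prop :=
  ∀ (ι : Type) [Fintype ι] [DecidableEq ι] (w : ι → Rg) (k : ι) (κ δ : Ex), IsLow (w k) κ →
    up w ≤ δ → ∀ y : ι × Ex → ℚ, (∀ i ∈ bx ι δ, y i ≠ 0 → i ∈ ee k κ (δ - up w)) →
      (∀ a ∈ Iic (δ - up w), ∑ i ∈ bx ι δ, sh w a i * y i = 0) → ∀ i ∈ bx ι δ, y i = 0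

/-- TP (EASY-MEDIUM): TRI with `𝔹` the box, `𝒜 = Iic (δ - up w)`, `φ a = sh w a`,
`e a = (k, a + α)` and `ρ a = toDual (toLex (a p, nn a))` in `(ℕ ×ₗ ℕ)ᵒᵈ`. As in TW, `e a` is in the
box and `sh w a (e a) = coeff_α (w k) ≠ 0`. If `sh w a (e a') ≠ 0` then `c = a' + α - a ∈ supp (w k)`
and `a + c = a' + α`. As `c p ≤ up w p = α p`, `a' p ≤ a p`. If `a' p < a p`, then `ρ a < ρ a'`
(reversed lexicographic order). If `a' p = a p` then `c p = α p = up w p`, so `N(c) ≤ N(α)` by the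
choice of `α`, and `N(a) N(c) = N(a') N(α)` gives `N(a') ≤ N(a)`: either `N(a') < N(a)` and
`ρ a < ρ a'`, or `N(a') = N(a)` and `a' = a`. -/
def TP : Prop :=
  ∀ (ι : Type) [Fintype ι] [DecidableEq ι] (w : ι → Rg) (p : Nat.Primes) (k : ι) (α δ : Ex),
    α ∈ (w k).support → α p = up w p → (∀ β ∈ (w k).support, β p = up w p → nn β ≤ nn α) →
    up w ≤ δ → ∀ y : ι × Ex → ℚ, (∀ i ∈ bx ι δ, y i ≠ 0 → i ∈ ee k α (δ - up w)) →
      (∀ a ∈ Iic (δ - up w), ∑ i ∈ bx ι δ, sh w a i * y i = 0) → ∀ i ∈ bx ι δ, y i = 0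

/-- TX (EASY): existence of `k` and `α` in TP. By UB there is `k₁` with `up w p = up1 (w k₁) p`.
If `w k₁ ≠ 0` take `k = k₁`; if `w k₁ = 0` then `up w p = 0` and we take `k = k₀` with `w k₀ ≠ 0`
(then `up1 (w k₀) p ≤ up w p = 0`). In both cases `w k ≠ 0` and `up1 (w k) p = up w p`, so by UB
there are `β ∈ supp (w k)` with `β p = up w p`; take one with the largest `N(β)`. -/
def TX : Prop :=
  ∀ (ι : Type) [Fintype ι] (w : ι → Rg) (p : Nat.Primes) (k₀ : ι), w k₀ ≠ 0 →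
    ∃ (k : ι) (α : Ex), α ∈ (w k).support ∧ α p = up w p ∧
      ∀ β ∈ (w k).support, β p = up w p → nn β ≤ nn α

/-- TI (MEDIUM): independence at the infinite place. Let `y` satisfy the three conditions. Let `y'`
be `y` with all values at the coordinates `(k₀, b)` replaced by `0`. Since `l k₀ = 0`,
`sh l a (k₀, b) = 0`, so `∑ sh l a i * y' i = ∑ sh l a i * y i = 0` for `a ≤ δ - up l`. By the third
hypothesis `y' i ≠ 0` (so `i.1 ≠ k₀`, so `i ∉ ee k₀ κ₀ _`) implies `i ∈ ee k₁ κ₁ (δ - up l)`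
(use the third hypothesis: for `i ∉ ee k₀ ..`, `lf l k₁ κ₁ (δ - up l) i` is the coordinate `i` if
`i ∉ ee k₁ κ₁ (δ - up l)`; and it is `sh l (i.2 - κ₁)` if `i = (k₁, a + κ₁)`, with
`i.2 - κ₁ = a` running over `Iic (δ - up l)`; note `(k₁, _) ∉ ee k₀ ..`). By TW (for `l`, `k₁`,
`κ₁`) `y' = 0` on the box. So `y i ≠ 0` implies `i.1 = k₀`, so `i ∉ ee k₁ ..`, and by the third
hypothesis `i ∈ ee k₀ κ₀ (δ - up w)`. By TW (for `w`, `k₀`, `κ₀`) `y = 0` on the box. -/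
def TI : Prop :=
  ∀ (ι : Type) [Fintype ι] [DecidableEq ι] (w l : ι → Rg) (k₀ k₁ : ι) (κ₀ κ₁ δ : Ex), k₀ ≠ k₁ →
    IsLow (w k₀) κ₀ → l k₀ = 0 → IsLow (l k₁) κ₁ → up w ≤ δ → up l ≤ δ → ∀ y : ι × Ex → ℚ,
      (∀ a ∈ Iic (δ - up w), ∑ i ∈ bx ι δ, sh w a i * y i = 0) →
      (∀ i ∈ bx ι δ \ ee k₀ κ₀ (δ - up w),
        ∑ j ∈ bx ι δ, lf l k₁ κ₁ (δ - up l) i j * y j = 0) → ∀ i ∈ bx ι δ, y i = 0

/-- PLC (MEDIUM): the finite places of `ℚ` are the `p`-adic ones. In Mathlib: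
`Rat.HeightOneSpectrum.primesEquiv : HeightOneSpectrum (𝓞 ℚ) ≃ Nat.Primes`
(`Mathlib/NumberTheory/Padics/HeightOneSpectrum.lean`, with `valuation_equiv_padicValuation`),
`NumberField.FinitePlace.equivHeightOneSpectrum`. Let `P p` be the finite place of
`primesEquiv.symm p`; bijectivity is clear. The value: for an integer `x` prime to `p` the value is
`1` (`FinitePlace.norm_eq_one_iff_notMem`), for `x = p` it is `< 1`; the value at `p` is `1/p` because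
the normalisation is by `absNorm` of the ideal `(p)`, which is `p` (`apply_mul_absNorm_pow_eq_one`,
or: by the product formula for `x = p`, `NumberField.FinitePlace.prod_eq_inv_abs_norm`, all other
finite places having the value `1` at `p`; the norm of `p` is `p`). So the value of the integer
`x = p^k x'` is `p^(-k)`, and both sides are multiplicative (`x = num / den`). -/
def PLC : Prop :=
  ∃ P : Nat.Primes ≃ NumberField.FinitePlace ℚ, ∀ (p : Nat.Primes) (x : ℚ),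
    P p x = ((padicNorm p x : ℚ) : ℝ)

/-- STQ (MEDIUM): the Subspace theorem over `ℚ` in elementary language, from
`Tools.Subspace.ClaimN1` for `K = ℚ` and `S = image of PP` under `P` of PLC (model:
`Bd/B02.lean`, `prfD8`, which does the same for another application; `ID8` there has the
infinite place of `ℚ`). The matrices: `A₀` at the unique infinite place, `A p` at `P p`. `x i`
is in `nO S` because a finite place outside `S` is `P q`, `q ∉ PP`. The product over the places of the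
`nN` is the left side of the hypothesis (`Fintype.prod_sum_type`; the infinite place has `mult = 1`
and its absolute value is the usual one). `∏ v, nnrm S v x ≤ G * ∏ g p ≤ H`, and it is positive
(`x ≠ 0`), so `H ^ (-σ) ≤ (∏ nnrm) ^ (-σ)` (`Real.rpow_le_rpow_of_nonpos`). Every proper subspace
lies in the kernel of a nonzero `c` (`IU2.exists_relation` in `Bd/B02.lean`); `𝒢` is the set
of these `c`. (If `G * ∏ g p` is used: `G ≥ 0`, `g p ≥ 0` since `0 < n`.) -/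
def STQ : Prop :=
  ∀ (n : ℕ) (PP : Finset Nat.Primes) (A₀ : Matrix (Fin n) (Fin n) ℚ)
    (A : Nat.Primes → Matrix (Fin n) (Fin n) ℚ) (σ : ℝ), 2 ≤ n → A₀.det ≠ 0 →
    (∀ p ∈ PP, (A p).det ≠ 0) → 0 < σ →
    ∃ 𝒢 : Set (Fin n → ℚ), 𝒢.Finite ∧ (∀ c ∈ 𝒢, c ≠ 0) ∧
      ∀ (x : Fin n → ℚ) (G H : ℝ) (g : Nat.Primes → ℝ), x ≠ 0 →
        (∀ q : Nat.Primes, q ∉ PP → ∀ i, padicNorm q (x i) ≤ 1) →
        (∀ i, |(x i : ℝ)| ≤ G) → (∀ p ∈ PP, ∀ i, ((padicNorm p (x i) : ℚ) : ℝ) ≤ g p) →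
        G * ∏ p ∈ PP, g p ≤ H →
        (∏ i, |(((A₀.mulVec x) i : ℚ) : ℝ)|) *
          ∏ p ∈ PP, ∏ i, ((padicNorm p ((A p).mulVec x i) : ℚ) : ℝ) ≤ H ^ (-σ) →
        ∃ c ∈ 𝒢, ∑ i, c i * x i = 0

/-- SubST (MEDIUM): the Subspace theorem on the subspace `𝕏` of `ℚ^𝔹` cut out by the functionals
`φ a`, `a ∈ 𝒜`. Let `n = #𝔹 - #𝒜 ≥ 2`. `dim 𝕏 ≥ n` (rank-nullity), and for every `p ∈ PP` the
restriction `𝕏 → ℚ^(𝔹 \ E p)` is injective, so `dim 𝕏 ≤ n`. So `dim 𝕏 = n` and these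
restrictions are bijective, and the map `y ↦ (L_i y)`, `𝕏 → ℚ^(𝔹 \ E₀)`, is injective, so
bijective. Fix `p₀ ∈ PP`; let `Ψ : ℚ^(𝔹 \ E p₀) → 𝕏` be the inverse of the restriction. Apply
STQ (after a bijection of `Fin n` with `𝔹 \ E p₀`, and of `Fin n` with `𝔹 \ E₀`, `𝔹 \ E p`) to the
matrices of `z ↦ (L_i (Ψ z))_{i ∈ 𝔹 \ E₀}` and `z ↦ (Ψ z)_i, i ∈ 𝔹 \ E p`; they are injective, so
the determinants are `≠ 0`. For `x` as in the statement let `z` be its restriction to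
`𝔹 \ E p₀`: `z ≠ 0` since `Ψ z = x ≠ 0`, and the bounds `G`, `g p` and the integrality hold for
`z`. The products are the same. For `c ∈ 𝒢_{STQ}` (a nonzero functional on `ℚ^(𝔹 \ E p₀)`) take the
functional `c̃` equal to `c` on `𝔹 \ E p₀` and `0` on `E p₀` (and outside `𝔹`): there is `z` with
`c z ≠ 0`, so `c̃ (Ψ z) ≠ 0`. -/
def SubST : Prop :=
  ∀ (ι α : Type) [DecidableEq ι] (𝔹 : Finset ι) (𝒜 : Finset α) (φ : α → ι → ℚ)
    (PP : Finset Nat.Primes) (E₀ : Finset ι) (E : Nat.Primes → Finset ι) (L : ι → ι → ℚ),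
    PP.Nonempty → 𝒜.card + 2 ≤ 𝔹.card → E₀ ⊆ 𝔹 → E₀.card = 𝒜.card →
    (∀ p ∈ PP, E p ⊆ 𝔹 ∧ (E p).card = 𝒜.card) →
    (∀ y : ι → ℚ, (∀ a ∈ 𝒜, ∑ i ∈ 𝔹, φ a i * y i = 0) →
      (∀ i ∈ 𝔹 \ E₀, ∑ j ∈ 𝔹, L i j * y j = 0) → ∀ i ∈ 𝔹, y i = 0) →
    (∀ p ∈ PP, ∀ y : ι → ℚ, (∀ a ∈ 𝒜, ∑ i ∈ 𝔹, φ a i * y i = 0) →
      (∀ i ∈ 𝔹 \ E p, y i = 0) → ∀ i ∈ 𝔹, y i = 0) →
    ∀ σ : ℝ, 0 < σ → ∃ 𝒢 : Set (ι → ℚ), 𝒢.Finite ∧
      (∀ c ∈ 𝒢, ∃ y : ι → ℚ, (∀ a ∈ 𝒜, ∑ i ∈ 𝔹, φ a i * y i = 0) ∧ ∑ i ∈ 𝔹, c i * y i ≠ 0) ∧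
      ∀ (x : ι → ℚ) (G H : ℝ) (g : Nat.Primes → ℝ), (∀ a ∈ 𝒜, ∑ i ∈ 𝔹, φ a i * x i = 0) →
        (∃ i ∈ 𝔹, x i ≠ 0) → (∀ q : Nat.Primes, q ∉ PP → ∀ i ∈ 𝔹, padicNorm q (x i) ≤ 1) →
        (∀ i ∈ 𝔹, |(x i : ℝ)| ≤ G) → (∀ p ∈ PP, ∀ i ∈ 𝔹, ((padicNorm p (x i) : ℚ) : ℝ) ≤ g p) →
        G * ∏ p ∈ PP, g p ≤ H →
        (∏ i ∈ 𝔹 \ E₀, |((∑ j ∈ 𝔹, L i j * x j : ℚ) : ℝ)|) *
          ∏ p ∈ PP, ∏ i ∈ 𝔹 \ E p, ((padicNorm p (x i) : ℚ) : ℝ) ≤ H ^ (-σ) →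
        ∃ c ∈ 𝒢, ∑ i ∈ 𝔹, c i * x i = 0

/-- EXC (MEDIUM): the exceptional functionals vanish on `𝕏`. Put
`ĉ_k = ∑_{b ≤ δ} c (k, b) z^b ∈ Rg`. The hypothesis says `∑_k ev n (ĉ_k) x_{n,k} = 0` for almost all
`n` (EB; `ev n (z^b) = N(b)^(-n)`), that is `Rel 𝒰 x ĉ`. So `ĉ_k = t w_k` with `t ∈ Rg`. If `t = 0`
then `c (k, b) = 0` on the box (coefficients of `ĉ_k`). Let `t ≠ 0`. If `w_k ≠ 0` then
`up1 t + up1 w_k = up1 ĉ_k ≤ δ` (UB). So `up1 t + up w ≤ δ`: at `p` take `k` with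
`up w p = up1 (w_k) p` (UB); if `w_k = 0` then `up w p = 0` and we use `k = 0` (`w_0 ≠ 0`). For `b ≤ δ`:
`c (k, b) = coeff_b (t w_k) = ∑_{a ∈ supp t} t_a sh w a (k, b)` (`coeff_mul`: the pairs
`(a, c)` with `a + c = b` correspond to the `a ≤ b`, `c = b - a`). So
`∑ c i * y i = ∑_{a ∈ supp t} t_a ∑_i sh w a i * y i = 0`, because `a ∈ supp t` gives
`a ≤ up1 t ≤ δ - up w`. -/
def EXC : Prop :=
  ∀ (m : ℕ) (𝒰 : Ultrafilter ℕ) (x : ℕ → Fin (m + 2) → ℤ) (w : Fin (m + 2) → Rg) (δ : Ex),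
    w 0 ≠ 0 → (∀ c, Rel 𝒰 x c → ∃ t, ∀ k, c k = t * w k) → up w ≤ δ →
    ∀ c : Fin (m + 2) × Ex → ℚ,
      (∀ᶠ n : ℕ in (𝒰 : Filter ℕ), ∑ i ∈ bx (Fin (m + 2)) δ, c i * pt n (x n) i = 0) →
      ∀ y : Fin (m + 2) × Ex → ℚ,
        (∀ a ∈ Iic (δ - up w), ∑ i ∈ bx (Fin (m + 2)) δ, sh w a i * y i = 0) →
        ∑ i ∈ bx (Fin (m + 2)) δ, c i * y i = 0

/-- PRI (MEDIUM): the product at the infinite place. Put `T = #Iic (δ - up l)`,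
`W = #Iic (δ - up w)`, `I = #Iic δ`, `E₀ = ee 0 κ₀ (δ - up w)`, `E₁ = ee 1 κ₁ (δ - up l)`; these are
disjoint subsets of the box (first coordinates `0 ≠ 1`; `κ₀ ≤ up w ≤ δ`, UB, EE). For
`i = (1, a + κ₁) ∈ E₁` the form is `sh l a` and its value is `N(a)^(-n) Λ` (SH; `Λ = ∑ ev n (l k) x k`;
`a + up l ≤ δ`); for the other `i = (k, b) ∉ E₀` the form is the coordinate, of absolute value
`|x_k| N(b)^(-n) ≤ H N(b)^(-n)`. So the product is at most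
`|Λ|^T (∏_{a ≤ δ - up l} N(a))^(-n) H^e (∏_{i ∈ box \ (E₀ ∪ E₁)} N(i.2))^(-n)` with
`e = #box - W - T = (m+2) I - T - W` (`#box = (m+2) I`). By EE the product of `N(i.2)` over `E₀` is
`A_W N(κ₀)^W`, `A_W = ∏_{a ≤ δ - up w} N(a)`, over `E₁` it is `A_T N(κ₁)^T`; so
`∏_{box \ (E₀ ∪ E₁)} N(i.2) = P_K / (A_W N(κ₀)^W A_T N(κ₁)^T)`, `P_K = ∏_box N(i.2)`, and the
bound is `|Λ|^T H^e (A_W N(κ₀)^W N(κ₁)^T / P_K)^n`. -/
def PRI : Prop :=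
  ∀ (m n : ℕ) (x : Fin (m + 2) → ℤ) (H : ℝ) (w l : Fin (m + 2) → Rg) (κ₀ κ₁ δ : Ex), 1 ≤ H →
    (∀ k, |(x k : ℝ)| ≤ H) → κ₀ ∈ (w 0).support → κ₁ ∈ (l 1).support → up w ≤ δ → up l ≤ δ →
    ∏ i ∈ bx (Fin (m + 2)) δ \ ee 0 κ₀ (δ - up w), |((∑ j ∈ bx (Fin (m + 2)) δ,
        lf l 1 κ₁ (δ - up l) i j * pt n x j : ℚ) : ℝ)| ≤
      |((∑ k, ev n (l k) * (x k : ℚ) : ℚ) : ℝ)| ^ (Iic (δ - up l)).card *
        H ^ ((m + 2) * (Iic δ).card - (Iic (δ - up l)).card - (Iic (δ - up w)).card) *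
        (((∏ a ∈ Iic (δ - up w), (nn a : ℝ)) * (nn κ₀ : ℝ) ^ (Iic (δ - up w)).card *
          (nn κ₁ : ℝ) ^ (Iic (δ - up l)).card) / ∏ i ∈ bx (Fin (m + 2)) δ, (nn i.2 : ℝ)) ^ n

/-- PRP (MEDIUM): the product at the finite places. The `p`-adic norm of `x_k / N(b)^n` is at most
`p^(n b_p)` (`x_k` is an integer, `padicNorm p (N(b)) = p^(-b_p)` by NB). So the product over
`i ∈ box \ E_p` (`E_p = ee (k p) (α p) (δ - up w)`, contained in the box by EE) is at most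
`(∏_box p^(b_p) / ∏_{E_p} p^(b_p))^n`, and `∏_{E_p} p^(b_p) = ∏_{a ≤ δ - up w} p^(a_p + (up w) p)`
(injectivity of `a ↦ (k, a + α)`, `(α p) p = up w p`). For `b ≤ δ` the product over
`p ∈ supp δ` of `p^(b_p)` is `N(b)`. So the product over `p` is at most
`(P_K / (A_W N(up w)^W))^n`, `up w ≤ δ` being used once more. -/
def PRP : Prop :=
  ∀ (m n : ℕ) (x : Fin (m + 2) → ℤ) (w : Fin (m + 2) → Rg) (δ : Ex) (k : Nat.Primes → Fin (m + 2))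
    (α : Nat.Primes → Ex), (∀ p, α p ∈ (w (k p)).support ∧ α p p = up w p) → up w ≤ δ →
    ∏ p ∈ δ.support, ∏ i ∈ bx (Fin (m + 2)) δ \ ee (k p) (α p) (δ - up w),
        ((padicNorm p (pt n x i) : ℚ) : ℝ) ≤
      ((∏ i ∈ bx (Fin (m + 2)) δ, (nn i.2 : ℝ)) / ((∏ a ∈ Iic (δ - up w), (nn a : ℝ)) *
        (nn (up w) : ℝ) ^ (Iic (δ - up w)).card)) ^ n

/-- StD (MEDIUM): the Subspace theorem for the points `X_n = pt n (x n)`. Apply SubST with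
`𝔹` the box, `𝒜 = Iic (δ - up w)`, `φ a = sh w a`, `PP = supp δ`, `E₀ = ee 0 κ₀ (δ - up w)`,
`E p = ee (k p) (α p) (δ - up w)` (TX), `L = lf l 1 κ₁ (δ - up l)`,
`σ = ε / log (B' * nn δ)`, `B' = max |B| 1` (`H n ≤ B ^ n ≤ B' ^ n`; `nn δ ≥ 2` because `δ ≠ 0`, so the logarithm is
positive). Sizes: `#𝔹 = (m+2) #Iic δ ≥ #𝒜 + #Iic δ ≥ #𝒜 + 2`. The injectivity hypotheses are TI and
TP. Conditions for `X_n`, for almost all `n`: the functionals vanish: SH for `w` and `Rel 𝒰 x w`.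
`X_n ≠ 0` on the box: otherwise `x n = 0` (coordinates `(k, 0)`) for almost all `n`
(`Ultrafilter.eventually_or`, `Ultrafilter.eventually_not`), then `Rel 𝒰 x c` for all `c`,
so `c = (0, 1, 0, ..)` is `t w`, `t w_0 = 0` gives `t = 0`, a contradiction. Integrality outside
`supp δ`: `b_q = 0`. `G = H n`, `g p = p^(n δ_p)`, `G ∏ g p = H n (nn δ)^n ≤ (B' nn δ)^n`.
For each `c` in the finite set `𝒢` for almost all `n` `∑ c i X_n i ≠ 0`, by EXC (`𝒰` is an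
ultrafilter); so for almost all `n` it holds for all `c ∈ 𝒢` (`Filter.eventually_all_finite`).
So for almost all `n` the product is larger than `(B' nn δ)^(-σ n) = exp (-ε n)`; by PRI and PRP
the product is at most `|Λ|^T H^e (N(κ₀)^W N(κ₁)^T / N(up w)^W)^n`. -/
def StD : Prop :=
  ∀ (m : ℕ) (𝒰 : Ultrafilter ℕ) (x : ℕ → Fin (m + 2) → ℤ) (H : ℕ → ℝ) (B : ℝ)
    (w l : Fin (m + 2) → Rg) (κ₀ κ₁ δ : Ex) (ε : ℝ),
    (∀ᶠ n : ℕ in (𝒰 : Filter ℕ), 1 ≤ H n ∧ H n ≤ B ^ n ∧ ∀ k, |(x n k : ℝ)| ≤ H n) →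
    Rel 𝒰 x w → (∀ c, Rel 𝒰 x c → ∃ t, ∀ k, c k = t * w k) → IsLow (w 0) κ₀ → l 0 = 0 →
    IsLow (l 1) κ₁ → up w ≤ δ → up l ≤ δ → δ ≠ 0 → 0 < ε →
    ∀ᶠ n : ℕ in (𝒰 : Filter ℕ), Real.exp (-(ε * n)) ≤
      |((∑ k, ev n (l k) * (x n k : ℚ) : ℚ) : ℝ)| ^ (Iic (δ - up l)).card *
        H n ^ ((m + 2) * (Iic δ).card - (Iic (δ - up l)).card - (Iic (δ - up w)).card) *
        (((nn κ₀ : ℝ) ^ (Iic (δ - up w)).card * (nn κ₁ : ℝ) ^ (Iic (δ - up l)).card) /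
          (nn (up w) : ℝ) ^ (Iic (δ - up w)).card) ^ n

/-- CNT (EASY-MEDIUM): boxes. Let `PP` be the support of `γ₁ + γ₂ + single 2 1`, `P = #PP`, `g` a
bound for all values of `γ₁, γ₂`, and `δ = D` on `PP`, `0` elsewhere, with `D ≥ g`,
`D ≥ 1` and `D + 1 ≥ P g / η`. Then `#Iic δ = (D+1)^P` (`Finsupp.card_Iic`) and
`#Iic (δ - γ) = ∏_{p ∈ PP} (D - γ_p + 1) ≥ (D + 1 - g)^P = (D+1)^P (1 - g/(D+1))^P ≥
(D+1)^P (1 - P g / (D+1)) ≥ (1-η) #Iic δ` (Bernoulli: `one_add_mul_le_pow`). (The product in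
`Finsupp.card_Iic` is over the support of `δ - γ`; outside it the factor is `1`, so it is the
product over `PP`.) -/
def CNT : Prop :=
  ∀ (γ₁ γ₂ : Ex) (η : ℝ), 0 < η → ∃ δ : Ex, δ ≠ 0 ∧ γ₁ ≤ δ ∧ γ₂ ≤ δ ∧
    (1 - η) * (Iic δ).card ≤ (Iic (δ - γ₁)).card ∧ (1 - η) * (Iic δ).card ≤ (Iic (δ - γ₂)).card

/-- PUR (EASY-MEDIUM): real analysis. Choose `0 < η ≤ 1/2` with
`(m+2) η log B + η (log N₀ + log Q) ≤ ε/4` and `ε₁ = ε/8`. Since `T ≥ I/2 > 0`, `T ≥ 1`, and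
`Λ > 0` (otherwise the right side is `0`). Logarithms:
`-ε₁ n ≤ T log Λ + e log H + n (W log N₀ + T log N₁ - W log Q)`, `e = (m+2) I - T - W`. The claim is
`log Λ ≥ -ε n + n (log Q - log N₀ - log N₁) - m log H`. Now `T` times (left side minus right side)
of the claim is at least
`n (T ε - ε₁) - (e - T m) log H + n (T - W)(log N₀ - log Q)`. Here
`e - T m = (m+1)(I - T) + (I - W)` is between `0` and `(m+2) η I`, `0 ≤ log H ≤ n log B`,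
`|T - W| ≤ η I`, `T ≥ I/2`, so this is at least
`n (ε I/2 - ε₁ - (m+2) η I log B - η I (log N₀ + log Q)) ≥ n (ε I/2 - ε/8 - ε I/4) ≥ 0`. -/
def PUR : Prop :=
  ∀ (m : ℕ) (ε B N₀ N₁ Q : ℝ), 0 < ε → 1 ≤ B → 1 ≤ N₀ → 1 ≤ N₁ → 1 ≤ Q → ∃ η ε₁ : ℝ, 0 < η ∧
    0 < ε₁ ∧ ∀ I T W : ℕ, 0 < I → T ≤ I → W ≤ I → (1 - η) * I ≤ T → (1 - η) * I ≤ W →
      ∀ (n : ℕ) (Λ H : ℝ), 0 ≤ Λ → 1 ≤ H → H ≤ B ^ n →
        Real.exp (-(ε₁ * n)) ≤
          Λ ^ T * H ^ ((m + 2) * I - T - W) * ((N₀ ^ W * N₁ ^ T) / Q ^ W) ^ n →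
        Real.exp (-(ε * n)) * (Q / (N₀ * N₁)) ^ n * (H ^ m)⁻¹ ≤ Λ

/-- PU (EASY): Proposition U. From CNT (with `γ₁ = up l`, `γ₂ = up w`), PUR (`N₀ = nn κ₀`,
`N₁ = nn κ₁`, `Q = nn (up w)`, `B` replaced by `max |B| 1`) and StD (with `ε₁`); `Iic (δ - γ) ⊆ Iic δ`
gives `T, W ≤ I`, and `0 ∈ Iic δ` gives `I > 0`. -/
def PU : Prop :=
  ∀ (m : ℕ) (𝒰 : Ultrafilter ℕ) (x : ℕ → Fin (m + 2) → ℤ) (H : ℕ → ℝ) (B : ℝ)
    (w l : Fin (m + 2) → Rg) (κ₀ κ₁ : Ex) (ε : ℝ),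
    (∀ᶠ n : ℕ in (𝒰 : Filter ℕ), 1 ≤ H n ∧ H n ≤ B ^ n ∧ ∀ k, |(x n k : ℝ)| ≤ H n) →
    Rel 𝒰 x w → (∀ c, Rel 𝒰 x c → ∃ t, ∀ k, c k = t * w k) → IsLow (w 0) κ₀ → l 0 = 0 →
    IsLow (l 1) κ₁ → 0 < ε →
    ∀ᶠ n : ℕ in (𝒰 : Filter ℕ),
      Real.exp (-(ε * n)) * ((nn (up w) : ℝ) / ((nn κ₀ : ℝ) * (nn κ₁ : ℝ))) ^ n * (H n ^ m)⁻¹ ≤
        |((∑ k, ev n (l k) * (x n k : ℚ) : ℚ) : ℝ)|

/-! ## Part II: the module of relations -/

/-- AVD (EASY): integer vectors avoiding finitely many proper subspaces. The union of the `V i` is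
not `ℚ^N` (`Subspace.biUnion_ne_univ_of_top_notMem`); take `y` outside and multiply by a common
denominator `D ≠ 0` (`y = D⁻¹ • (D • y)`). -/
def AVD : Prop :=
  ∀ (N k : ℕ) (V : Fin k → Submodule ℚ (Fin N → ℚ)), (∀ i, V i ≠ ⊤) →
    ∃ b : Fin N → ℤ, ∀ i, (fun j => (b j : ℚ)) ∉ V i

/-- P0 (EASY-MEDIUM): the subspace of `F^N` spanned by a saturated module. Take
`V = {y : ∃ t ≠ 0 in R, ∃ c ∈ W, ∀ i, t y_i = c_i}`. Sum: from `t y = c`, `t' y' = c'` we get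
`t t' (y + y') = t' c + t c'`. Multiplication by `a/b ∈ F`: `b t ((a/b) y) = a c`. If `c ∈ R^N` is
in `V` then `t c ∈ W` with `t ≠ 0`, so `c ∈ W`. -/
def P0 : Prop :=
  ∀ (R F : Type) [CommRing R] [IsDomain R] [Field F] [Algebra R F] [IsFractionRing R F] (N : ℕ)
    (W : Submodule R (Fin N → R)), (∀ (t : R) (c : Fin N → R), t ≠ 0 → t • c ∈ W → c ∈ W) →
    ∃ V : Submodule F (Fin N → F), ∀ c : Fin N → R, (fun i => algebraMap R F (c i)) ∈ V ↔ c ∈ W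

/-- P1 (MEDIUM): choice of the vectors `a_l`. Let `r = finrank V ≤ d` (as `V ≠ ⊤`), `m = d - r`. By
induction on `j ≤ m` we find integer vectors `a_1, .., a_j` such that (i) `∑ c_l a_l ∈ V`,
`c ∈ F^j`, implies `c = 0` and (ii) `∑ c_l a_l ∈ TT r`, `c ∈ ℚ^j`, implies `c = 0`. Step `j < m`:
`V₁ = {y ∈ ℚ^(d+1) : y ∈ V + span_F(a_1..a_j)}` is a `ℚ`-subspace, and `≠ ⊤`: otherwise all unit
vectors would be in `V + span_F(a)`, so `d + 1 ≤ r + j < d + 1`. `V₂ = TT r + span_ℚ(a_1..a_j)` has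
dimension at most `r + 1 + j < d + 1`. By AVD there is an integer vector `a_{j+1}` outside `V₁` and
`V₂`, and (i), (ii) hold for `j + 1` (if the last coefficient is `≠ 0`, divide by it). At the end,
by (ii), `TT r + span_ℚ(a)` has dimension `r + 1 + m = d + 1`, so it is `⊤`; if `z` is orthogonal to
`TT r` and to all `a_l` it is orthogonal to everything, so `z = 0`. -/
def P1 : Prop :=
  ∀ (F : Type) [Field F] [CharZero F] (d : ℕ) (V : Submodule F (Fin (d + 1) → F))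
    (T : ℕ → Submodule ℚ (Fin (d + 1) → ℚ)), V ≠ ⊤ →
    (∀ r ≤ d, Module.finrank ℚ (T r) = r + 1) →
    ∃ (m r : ℕ) (a : Fin m → Fin (d + 1) → ℤ), m + r = d ∧ r = Module.finrank F V ∧
      (∀ c : Fin m → F, (fun i => ∑ l, c l * ((a l i : ℤ) : F)) ∈ V → c = 0) ∧
      ∀ z : Fin (d + 1) → ℚ, (∀ t ∈ T r, ∑ i, z i * t i = 0) →
        (∀ l, ∑ i, z i * ((a l i : ℤ) : ℚ) = 0) → z = 0

/-- P2 (MEDIUM): the normal vector. The subspace `V₁ = V + span_F(a)` has dimension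
`r + m = d` (the `a_l` are independent modulo `V`), so it is the kernel of a nonzero linear form
`z ↦ ∑ u'_i z_i`, `u' ∈ F^(d+1)` (dual annihilator of dimension `1`). Multiply by a common
denominator: `u'' ∈ R^(d+1)`, `u'' ≠ 0`; divide by a greatest common divisor of the `u''_i`
(`UniqueFactorizationMonoid.toGCDMonoid`, `Finset.extract_gcd`; or: among all `(t, u)` with `t u = u''`
take one with the largest number of prime factors of `t`): no irreducible element divides all the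
`u_i`. `z ∈ V₁` iff `∃ c, z - ∑ c_l a_l ∈ V`. -/
def P2 : Prop :=
  ∀ (R F : Type) [CommRing R] [IsDomain R] [UniqueFactorizationMonoid R] [Field F] [Algebra R F]
    [IsFractionRing R F] (d m r : ℕ) (V : Submodule F (Fin (d + 1) → F))
    (a : Fin m → Fin (d + 1) → ℤ), m + r = d → r = Module.finrank F V →
    (∀ c : Fin m → F, (fun i => ∑ l, c l * ((a l i : ℤ) : F)) ∈ V → c = 0) →
    ∃ u : Fin (d + 1) → R, (∃ i, u i ≠ 0) ∧ (∀ φ, Irreducible φ → ∃ i, ¬ φ ∣ u i) ∧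
      ∀ z : Fin (d + 1) → F, (∑ i, algebraMap R F (u i) * z i = 0) ↔
        ∃ c : Fin m → F, (fun i => z i - ∑ l, c l * ((a l i : ℤ) : F)) ∈ V

/-- P3a (EASY-MEDIUM): the vector `b_1`. Let `PP = (up u).support`. For `p ∈ PP` there are (UB) `i` and
`κ ∈ supp (u i)` with `κ p = up u p` (`u i ≠ 0` because `up u p ≠ 0`); the functional
`b ↦ coeff_κ (∑ u_j b_j) = ∑ b_j coeff_κ (u_j)` on `ℚ^N` is nonzero (value at the unit vector `i`).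
Moreover with `u i₀ ≠ 0`, `κ₀ ∈ supp (u i₀)`, the functional `b ↦ coeff_{κ₀}(∑ u_j b_j)` is nonzero. By
AVD (kernels of these finitely many functionals) there is an integer vector `b` at which all these
functionals are `≠ 0`. Then `f = ∑ u_j b_j ≠ 0`; `up1 f ≤ up u` always (support of a sum), and
`up1 f p ≥ κ p = up u p` for `p ∈ PP`; for `p ∉ PP` `up u p = 0`. -/
def P3a : Prop :=
  ∀ (N : ℕ) (u : Fin N → Rg), (∃ i, u i ≠ 0) →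
    ∃ b : Fin N → ℤ, dt u b ≠ 0 ∧ up1 (dt u b) = up u

/-- P3b (EASY-MEDIUM): the vector `b_0`. Let `φ_1, .., φ_k` be irreducible elements such that every
irreducible divisor of `g` is associated to one of them (`UniqueFactorizationMonoid.factors`,
`exists_mem_factors_of_dvd`). For each `φ = φ_j` the set `{b ∈ ℚ^N : φ ∣ ∑ u_i b_i}` is a
`ℚ`-subspace (`R` is a `ℚ`-algebra), and it is not everything because `φ` does not divide all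
`u_i`. By AVD choose an integer vector `b` outside all of them. If `x` divides both `∑ u_i b_i` and `g`
and is not a unit then (`x ≠ 0`) an irreducible `φ` divides `x` (`WfDvdMonoid.exists_irreducible_factor`),
and it is associated to some `φ_j`, a contradiction. -/
def P3b : Prop :=
  ∀ (R : Type) [CommRing R] [IsDomain R] [UniqueFactorizationMonoid R] [Algebra ℚ R] (N : ℕ)
    (u : Fin N → R), (∀ φ, Irreducible φ → ∃ i, ¬ φ ∣ u i) → ∀ g : R, g ≠ 0 →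
    ∃ b : Fin N → ℤ, IsRelPrime (dt u b) g

/-- P4a (EASY-MEDIUM): least common denominators in a factorial ring. By induction on `m`. For one
`g = x/y` with `x, y` relatively prime (`IsLocalization.exists_reduced_fraction`
or `IsFractionRing.exists_reduced_fraction`): `t g ∈ R` iff `y ∣ t x` iff `y ∣ t`. For several: let
`s'` be the denominator of the first `m` and `y` the one of the last: `t` is a common
denominator iff `s' ∣ t` and `y ∣ t` iff `lcm(s', y) ∣ t` (`UniqueFactorizationMonoid.toGCDMonoid`).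
(Another way: the ideal of all `t` with `t g_l ∈ R` for all `l` contains a nonzero element with
the smallest number of prime factors.) -/
def P4a : Prop :=
  ∀ (R F : Type) [CommRing R] [IsDomain R] [UniqueFactorizationMonoid R] [Field F] [Algebra R F]
    [IsFractionRing R F] (m : ℕ) (g : Fin m → F),
    ∃ s : R, s ≠ 0 ∧ (∀ l, ∃ c : R, algebraMap R F s * g l = algebraMap R F c) ∧
      ∀ t : R, (∀ l, ∃ c : R, algebraMap R F t * g l = algebraMap R F c) → s ∣ t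

/-- P4 (MEDIUM): the relation `w`. Write `b_0 = y 0`, `b_1 = y 1`, `a_l = y l.succ.succ`,
`g_0 = u·b_0`, `g_1 = u·b_1`. The vector `z = g_1 b_0 - g_0 b_1 ∈ F^(d+1)` satisfies `u·z = 0`, so
there is `c ∈ F^m` with `z - ∑ c_l a_l ∈ V`; put `g = -c`. Let `s` be as in P4a for `g`, and
`w_0 = s g_1`, `w_1 = -s g_0`, `w_{l+2} = s g_l ∈ R`. Then `cb y w = s (z + ∑ g_l a_l) ∈ V ∩ R^(d+1) = W`.
Let `cb y c ∈ W`. Then `u·(cb y c) = 0` (by `hyp` with `c = 0`), and `u·a_l = 0` (by `hyp`: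
`a_l - 1·a_l = 0 ∈ V`), so `c_0 g_0 + c_1 g_1 = 0`. As `g_0, g_1` are relatively prime,
`g_1 ∣ c_0` (`IsRelPrime.dvd_of_dvd_mul_right`, `UniqueFactorizationMonoid` gives
the `DecompositionMonoid` instance), `c_0 = t g_1`, and (`g_1 ≠ 0`) `c_1 = -t g_0`. Subtract
`t (z + ∑ g_l a_l) ∈ V`: `∑ (c_{l+2} - t g_l) a_l ∈ V`, so `c_{l+2} = t g_l` for all `l` by `ind`. So
`s ∣ t` by P4a, `t = t' s`, and `c = t' w`. -/
def P4 : Prop :=
  ∀ (R F : Type) [CommRing R] [IsDomain R] [UniqueFactorizationMonoid R] [Field F] [Algebra R F]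
    [IsFractionRing R F] (d m : ℕ) (W : Submodule R (Fin (d + 1) → R))
    (V : Submodule F (Fin (d + 1) → F)) (u : Fin (d + 1) → R) (y : Fin (m + 2) → Fin (d + 1) → ℤ),
    (∀ c : Fin (d + 1) → R, (fun i => algebraMap R F (c i)) ∈ V ↔ c ∈ W) →
    (∀ z : Fin (d + 1) → F, (∑ i, algebraMap R F (u i) * z i = 0) ↔
      ∃ c : Fin m → F, (fun i => z i - ∑ l : Fin m, c l * ((y l.succ.succ i : ℤ) : F)) ∈ V) →
    (∀ c : Fin m → F, (fun i => ∑ l : Fin m, c l * ((y l.succ.succ i : ℤ) : F)) ∈ V → c = 0) →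
    dt u (y 1) ≠ 0 → IsRelPrime (dt u (y 0)) (dt u (y 1)) →
    ∃ (s : R) (w : Fin (m + 2) → R), s ≠ 0 ∧ w 0 = s * dt u (y 1) ∧ cb y w ∈ W ∧
      ∀ c : Fin (m + 2) → R, cb y c ∈ W → ∃ t, ∀ k, c k = t * w k

/-- P5 (MEDIUM): the coordinates `μ`. Notation as in P4. For every unit vector `e_i` let
`μ'_{i1} = u_i / g_1 ∈ F`; then `u·(e_i - μ'_{i1} b_1) = 0`, so there is `μ'_{i,·} ∈ F^m` with
`e_i - μ'_{i1} b_1 - ∑ μ'_{i,l+2} a_l ∈ V`. Let `q ≠ 0` be a common denominator of all the `μ'`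
(`IsLocalization.exist_integer_multiples_of_finset` or products of denominators), `μ = q μ'`,
`μ_{i0} = 0`. Then `q e_i - ∑_k μ_{ik} y_k ∈ V ∩ R^(d+1) = W`, and `q u_i = μ_{i1} g_1`. -/
def P5 : Prop :=
  ∀ (R F : Type) [CommRing R] [IsDomain R] [Field F] [Algebra R F]
    [IsFractionRing R F] (d m : ℕ) (W : Submodule R (Fin (d + 1) → R))
    (V : Submodule F (Fin (d + 1) → F)) (u : Fin (d + 1) → R) (y : Fin (m + 2) → Fin (d + 1) → ℤ),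
    (∀ c : Fin (d + 1) → R, (fun i => algebraMap R F (c i)) ∈ V ↔ c ∈ W) →
    (∀ z : Fin (d + 1) → F, (∑ i, algebraMap R F (u i) * z i = 0) ↔
      ∃ c : Fin m → F, (fun i => z i - ∑ l : Fin m, c l * ((y l.succ.succ i : ℤ) : F)) ∈ V) →
    dt u (y 1) ≠ 0 →
    ∃ (q : R) (μ : Fin (d + 1) → Fin (m + 2) → R), q ≠ 0 ∧ (∀ i, μ i 0 = 0) ∧
      (∀ i, (fun i' => q * (if i' = i then 1 else 0) - cb y (μ i) i') ∈ W) ∧
      ∀ i, q * u i = μ i 1 * dt u (y 1)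

/-- P6 (MEDIUM, assembly of Part II). `F = FractionRing Rg`. P0 gives `V`; `V ≠ ⊤` because `W ≠ ⊤`.
(D10b is a further hypothesis, used in Z1.) P1 with `T = TT d` (Z1 (1)) gives `m, r, a`; P2 gives `u`; P3a gives `b_1`, P3b (with
`g = dt u b_1`) gives `b_0`. Put `y = Fin.cons b_0 (Fin.cons b_1 a)`. P4, P5 give the rest. `hua`: P2
with `z = a_l` (`c` the unit vector `l`; `0 ∈ V`), injectivity of `Rg → F`. `hspan`: Z1 (2) and the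
last property of P1. -/
def P6 : Prop :=
  ∀ (d : ℕ) (W : Submodule Rg (Fin (d + 1) → Rg)), W ≠ ⊤ →
    (∀ (t : Rg) (c : Fin (d + 1) → Rg), t ≠ 0 → t • c ∈ W → c ∈ W) → Nonempty (PD d W)

/-! ## Part III: the zero estimate -/

/-- Z1a (EASY-MEDIUM): `tau = 1 + (tau - 1)`, so `tau ^ i = ∑_l C(i, l) (tau - 1)^l` (`add_pow` /
`Commute.add_pow`; evaluate at `p ^ a`). Put `f = tau - 1`: `f 1 = 0` (`tau 1 = 1`,
`IsMultiplicative`) and `f p = -2`. Claim: `(f ^ l) (p ^ a) = 0` for `a < l` and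
`(f ^ a) (p ^ a) = (-2) ^ a`. Induction on `l`: `(f * f^l) (p^a) = ∑_{b + c = a} f (p^b) (f^l) (p^c)`
(`ArithmeticFunction.mul_apply`, `Nat.divisorsAntidiagonal` of a prime power:
`Nat.Prime.sum_divisorsAntidiagonal`/`Nat.sum_divisorsAntidiagonal` and
`Nat.divisors_prime_pow`); a term is `0` if `b = 0`
or `c < l`; so for `a < l + 1` all vanish, and for `a = l + 1` only `b = 1`, `c = l` is left. -/
def Z1a : Prop :=
  D10b → ∀ p : ℕ, p.Prime → ∀ a : ℕ, ((tau - 1) ^ a) (p ^ a) = (-2) ^ a ∧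
    ∀ i : ℕ, (tau ^ i) (p ^ a) =
      ∑ l ∈ range (a + 1), ((i.choose l : ℕ) : ℚ) * ((tau - 1) ^ l) (p ^ a)

/-- Z1 (EASY-MEDIUM): (1) the vectors `(C(i, l))_{i ≤ d}`, `l = 0..r`, are independent: the entry at
`i = l` is `1` and the entries at `i < l` are `0` (look at the smallest `l` with nonzero
coefficient; `finrank_span_eq_card`). (2) By induction on `l ≤ r`: `∑_i z_i C(i, l) = 0`:
by Z1a `0 = ∑_i z_i (tau^i)(p^l) = ∑_{l' ≤ l} ((tau-1)^{l'})(p^l) ∑_i z_i C(i, l')`, where the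
terms `l' < l` vanish by induction and the coefficient of the term `l' = l` is `(-2)^l ≠ 0`. Then
`∑ z_i t_i = 0` for all `t` in the span (`Submodule.span_induction`). -/
def Z1 : Prop :=
  (∀ d r : ℕ, r ≤ d → Module.finrank ℚ (TT d r) = r + 1) ∧
    (D10b → ∀ (d r : ℕ) (p : ℕ), p.Prime → ∀ z : Fin (d + 1) → ℚ,
      (∀ e ≤ r, ∑ i, z i * (tau ^ (i : ℕ)) (p ^ e) = 0) → ∀ t ∈ TT d r, ∑ i, z i * t i = 0)

/-- Z2 (MEDIUM): the zero estimate. Suppose `uv u (N(κ) p^e) = 0` for all `e ≤ r`. Fix `e ≤ r`. In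
`uv u (N(κ) p^e) = ∑_{m₁ m₂ = N(κ) p^e} ∑_i coeff_{ex m₁}(u_i) (tau^i)(m₂)` let `m₁` be such that
some `coeff_{ex m₁}(u_i) ≠ 0`. Then `m₁ = N(ex m₁) ≥ N(κ)` by `h2`, and
`(ex m₁) p ≤ up u p = κ p` (UB). As `m₁ ∣ N(κ) p^e`, for `q ≠ p` `(ex m₁) q ≤ κ q`. So
`ex m₁ ≤ κ`, `m₁ ∣ N(κ)`, so `m₁ = N(κ)` and `m₂ = p^e`. So the sum is
`∑_i coeff_κ(u_i) (tau^i)(p^e)`, and it is `0` for all `e ≤ r`. Moreover
`∑_i coeff_κ(u_i) a_l(i) = coeff_κ(dt u a_l) = 0`. By the spanning hypothesis (with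
`z_i = coeff_κ(u_i)`) `coeff_κ(u_i) = 0` for all `i`, contradicting `h1`. -/
def Z2 : Prop :=
  ∀ (d r m : ℕ) (u : Fin (d + 1) → Rg) (a : Fin m → Fin (d + 1) → ℤ) (κ : Ex) (p : Nat.Primes),
    (∃ i, κ ∈ (u i).support) → (∀ i, ∀ b ∈ (u i).support, nn κ ≤ nn b) → up u p = κ p →
    (∀ z : Fin (d + 1) → ℚ, (∀ e ≤ r, ∑ i, z i * (tau ^ (i : ℕ)) ((p : ℕ) ^ e) = 0) →
      (∀ l, ∑ i, z i * (a l i : ℚ) = 0) → z = 0) →
    (∀ l, dt u (a l) = 0) → ∃ e ≤ r, uv u (nn κ * (p : ℕ) ^ e) ≠ 0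

/-- Z3 (EASY-MEDIUM): Bertrand's postulate. First: for all `i : ℕ` and real `x > 0`,
`x^i ≤ 2^(i(i+1)/2) ∏_{p prime, p < x} p`, by induction on `i` (`i = 0`: the product is `≥ 1`).
Step: if `x ≤ 2` then `x^(i+1) ≤ 2^(i+1) ≤ 2^((i+1)(i+2)/2)`. If `x > 2`, `z = x/2 > 1`: let
`n = ⌈z⌉ - 1 ≥ 1`; there is a prime `p` with `n < p ≤ 2 n` (`Nat.exists_prime_lt_and_le_two_mul`), so
`z ≤ p < 2 z = x`. So `∏_{p < x} p ≥ z ∏_{p < z} p ≥ z · z^i / 2^(i(i+1)/2)`, that is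
`x^(i+1) ≤ 2^(i+1+i(i+1)/2) ∏_{p<x} p`, and `i + 1 + i(i+1)/2 = (i+1)(i+2)/2`. Now let
`x = (k/m)^(1/r)` (real, `≥ 1`), `i = r`: `x^r = k/m`, and `p < x` iff `m p^r < k`; such `p` are
`< k`. -/
def Z3 : Prop :=
  ∀ r k m : ℕ, 1 ≤ r → 0 < m → m ≤ k → (k : ℝ) ≤ 2 ^ (r * (r + 1) / 2) * m *
    ∏ p ∈ (range k).filter (fun p => p.Prime ∧ m * p ^ r < k), (p : ℝ)

/-- Z4 (MEDIUM): the bound for `k₃`. Let `κ` be an exponent with `h1`, `h2` of Z2 (the smallest `nn`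
in the union of the supports), `m₀ = N(κ)`. A prime `p` outside the support of `up u` (infinitely many
primes) satisfies `up u p = 0 = κ p` (`κ ≤ up u`), so by Z2 some `uv u (m₀ p^e) ≠ 0`; let `k₃` be the
smallest `k` with `uv u k ≠ 0` (`Nat.find`). `k₃ ≥ m₀`: for `m < m₀` all `coeff_{ex m₁}(u_i)` with
`m₁ ∣ m` vanish (`m₁ ≤ m < m₀`), and `uv u 0 = 0`. For a prime `p` with `m₀ p^r < k₃`, Z2
shows `up u p ≠ κ p`, so `up u p ≥ κ p + 1` (in particular `p` is in the support of `up u`).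
If `r = 0`: if `m₀ < k₃` then this would hold for all primes `p`, impossible; so `k₃ = m₀ ≤
N(up u)`. If `r ≥ 1`: `N(up u) ≥ N(κ) ∏_{p : m₀ p^r < k₃} p` (the exponent
`κ + ∑_{p : m₀ p^r < k₃} single p 1` is `≤ up u`; NB), and Z3 gives
`k₃ ≤ 2^(r(r+1)/2) m₀ ∏ p ≤ 2^(r(r+1)/2) N(up u)`. -/
def Z4 : Prop :=
  ∀ (d r m : ℕ) (u : Fin (d + 1) → Rg) (a : Fin m → Fin (d + 1) → ℤ), (∃ i, u i ≠ 0) →
    (∀ p : Nat.Primes, ∀ z : Fin (d + 1) → ℚ,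
      (∀ e ≤ r, ∑ i, z i * (tau ^ (i : ℕ)) ((p : ℕ) ^ e) = 0) →
      (∀ l, ∑ i, z i * (a l i : ℚ) = 0) → z = 0) →
    (∀ l, dt u (a l) = 0) →
    ∃ k₃ : ℕ, uv u k₃ ≠ 0 ∧ (∀ k < k₃, uv u k = 0) ∧
      (k₃ : ℝ) ≤ 2 ^ (r * (r + 1) / 2) * nn (up u)

/-! ## Part IV: assembly -/

/-- F1a (EASY-MEDIUM): truncation. `PG (tau ^ i)` by induction from D1, D10a (`tau ^ 0 = 1`). D4
with `N = Y` bounds `|val (tau^i) n - ∑_{k < Y} (tau^i)(k) / k^n|`; and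
`ev n (vb Y i) = ∑_{1 ≤ k < Y} (tau^i)(k) (N(ex k)^n)^(-1)` with `N(ex k) = k` (EB or `aeval_monomial`,
NB); the term `k = 0` vanishes since `(tau^i) 0 = 0`. Take the sum of the constants and the
maximum of the bounds over `i ≤ d`. -/
def F1a : Prop :=
  D1 → D4 → D10a → ∀ d Y : ℕ, 0 < Y → ∃ (C : ℝ) (M : ℕ), 0 ≤ C ∧ ∀ n ≥ M, ∀ i ≤ d,
    |val (tau ^ i) n - ((ev n (vb Y i) : ℚ) : ℝ)| ≤ C * (1 / (Y : ℝ)) ^ n

/-- F1b (EASY-MEDIUM): coefficients. For `1 ≤ k < Y` the coefficient of `∑ u_i vb Y i` at `ex k` is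
`∑_i ∑_{a + b = ex k} coeff_a(u_i) coeff_b(vb Y i)`; `coeff_b(vb Y i) = (tau^i)(N(b))` if
`N(b) < Y` (`ex` is injective on positive integers, NB), and `b ≤ ex k` gives `N(b) ≤ k < Y`. The pairs
`a + b = ex k` correspond to the factorisations `k = N(a) N(b)` (NB), which gives `uv u k`. So
if `k₃ < Y` is the smallest integer with `uv u k₃ ≠ 0` (`k₃ ≥ 1` as `uv u 0 = 0`), the coefficient
at `ex k₃` is `≠ 0` and for an exponent `b` of the support with `N(b) < k₃` we would have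
`uv u (N(b)) ≠ 0`, a contradiction (`N(b) ≥ 1`). -/
def F1b : Prop :=
  ∀ (d Y k₃ : ℕ) (u : Fin (d + 1) → Rg), uv u k₃ ≠ 0 → (∀ k < k₃, uv u k = 0) → k₃ < Y →
    IsLow (∑ i, u i * vb Y (i : ℕ)) (ex k₃)

/-- WS (EASY): the module of relations `W = {c : Rel 𝒰 x c}`. It is a submodule (`ev n` is a
ring homomorphism, intersections of sets of `𝒰`). Saturated: if `t ≠ 0` then `ev n t ≠ 0` for large
`n` (LB, EB), so for almost all `n`; divide. Not `⊤`: otherwise all unit vectors are in `W`, so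
`x n i = 0` for all `i` and almost all `n`, contradicting `x n ≠ 0` for almost all `n` (an
ultrafilter is not trivial: `Filter.Eventually.exists`). -/
def WS : Prop :=
  ∀ (d : ℕ) (𝒰 : Ultrafilter ℕ) (x : ℕ → Fin (d + 1) → ℤ), (𝒰 : Filter ℕ) ≤ atTop →
    (∀ᶠ n : ℕ in (𝒰 : Filter ℕ), x n ≠ 0) →
    ∃ W : Submodule Rg (Fin (d + 1) → Rg), (∀ c, c ∈ W ↔ Rel 𝒰 x c) ∧ W ≠ ⊤ ∧
      ∀ (t : Rg) (c : Fin (d + 1) → Rg), t ≠ 0 → t • c ∈ W → c ∈ W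

/-- CU (MEDIUM): application of Proposition U. Let `D : PD d W` be the data (fields `y, u, w, s, q, μ`
with `m + r = d`), `k₃ < Y` as in F1b. Put `x'_n k = ∑_i y_k(i) x_n(i) ∈ ℤ` for `k ∈ Fin (m+2)`,
`H'_n = C₁ H_n` with `C₁ = 1 + ∑_{k,i} |y_k(i)|`, so `|x'_n k| ≤ H'_n ≤ (C₁ B')^n` for `n ≥ 1`
(`B' = max |B| 1`, `B^n ≤ |B|^n ≤ B'^n`). For `c ∈ Rg^(m+2)`: `∑_k ev n (c_k) x'_n k = ∑_i ev n (cb y c i) x_n i`, so
`Rel 𝒰 x' c ↔ cb y c ∈ W`; so `Rel 𝒰 x' w`, and the second hypothesis of PU is `hsat`. Put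
`l_k = ∑_i vb Y i * μ i k`. `l_0 = 0`. With `g_1 = dt u (y 1)` and `v = ∑ u_i vb Y i`:
`l_1 g_1 = ∑_i vb_i q u_i = q v` (`hqu`). Let `κ_g, κ_s, κ_q, κ_1` be the lowest exponents of
`g_1, s, q, l_1` (LB; `v ≠ 0` by F1b so `l_1 ≠ 0`). By LB: the lowest exponent of
`w_0 = s g_1` is `κ_0 = κ_s + κ_g`, and `κ_1 + κ_g = κ_q + ex k₃` (both are the lowest exponent of
`l_1 g_1 = q v`). So `N(κ_0) N(κ_1) = N(κ_s) N(κ_q) k₃`. By UB,
`up1 (w_0) = up1 s + up1 g_1 = up1 s + up u` (`hdeg`), so `N(up w) ≥ N(up1 s) N(up u) ≥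
N(κ_s) N(up u)` (`a ≤ b` gives `N(a) ≤ N(b)`). So
`N(up w) / (N(κ_0) N(κ_1)) ≥ N(up u) / (N(κ_q) k₃)`.
By `hμ`: `ev n q * x_n i = ∑_k ev n (μ i k) x'_n k` for almost all `n` and all `i`; multiply by
`ev n (vb Y i)` and sum: `∑_k ev n (l_k) x'_n k = ev n q * ∑_i ev n (vb Y i) x_n i`. By EB
`|ev n q| ≤ C N(κ_q)^(-n)`. So PU gives, for almost all `n`,
`C N(κ_q)^(-n) |∑_i ev n (vb Y i) x_n i| ≥ e^(-εn) (N(up u)/(N(κ_q) k₃))^n (C₁ H_n)^(-m)`. -/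
def CU : Prop :=
  ∀ (d : ℕ) (𝒰 : Ultrafilter ℕ) (x : ℕ → Fin (d + 1) → ℤ) (H : ℕ → ℝ) (B ε : ℝ)
    (W : Submodule Rg (Fin (d + 1) → Rg)) (D : PD d W) (k₃ Y : ℕ), (𝒰 : Filter ℕ) ≤ atTop →
    (∀ᶠ n : ℕ in (𝒰 : Filter ℕ), 1 ≤ H n ∧ H n ≤ B ^ n ∧ ∀ i, |(x n i : ℝ)| ≤ H n) →
    (∀ c, c ∈ W ↔ Rel 𝒰 x c) → uv D.u k₃ ≠ 0 → (∀ k < k₃, uv D.u k = 0) → k₃ < Y → 0 < ε →
    ∃ C : ℝ, 0 < C ∧ ∀ᶠ n : ℕ in (𝒰 : Filter ℕ),
      Real.exp (-(ε * n)) * ((nn (up D.u) : ℝ) / k₃) ^ n * (H n ^ D.m)⁻¹ ≤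
        C * |((∑ i : Fin (d + 1), ev n (vb Y (i : ℕ)) * (x n i : ℚ) : ℚ) : ℝ)|

/-- CR (MEDIUM): the core. Suppose not; then (`𝒰` is an ultrafilter) for almost all `n`
`|∑ x_n(i) val (tau^i) n| < e^(-εn) H_n^(-d)`. WS gives `W`, P6 gives `D : PD d W`, `r = D.r`,
`m = D.m`, `m + r = d`; Z4 (with `a l = D.y l.succ.succ`) gives `k₃` with
`k₃ ≤ 2^(r(r+1)/2) N(up u)`. `H_n ≤ B₁^n` with `B₁ = max |B| 1`. Choose
`Y > k₃` with `Y ≥ e^ε · 2 · B₁^(d+1)`. By F1a, for large `n`,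
`|∑ ev n (vb Y i) x_n i| ≤ e^(-εn) H_n^(-d) + (d+1) C B₁^n Y^(-n) ≤ (1 + (d+1) C) e^(-εn) H_n^(-d)`,
because `B₁^n Y^(-n) ≤ e^(-εn) B₁^(-dn) ≤ e^(-εn) H_n^(-d)`. By CU with `ε/2`:
`e^(-εn/2) (N(up u)/k₃)^n H_n^(-m) ≤ C' |∑ ev n (vb Y i) x_n i| ≤ C'' e^(-εn) H_n^(-d)`, and
`N(up u)/k₃ ≥ 2^(-r(r+1)/2)`, so `H_n^r ≤ C'' e^(-εn/2) 2^(n r(r+1)/2)` (`d = m + r`). But
`H_n ≥ 2^((d+1)n/2) ≥ 2^((r+1)n/2)`, so `H_n^r ≥ 2^(r(r+1)n/2)` and `1 ≤ C'' e^(-εn/2)` for almost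
all `n`, impossible since `𝒰 ≤ atTop`. (`r(r+1)/2` is an integer.) -/
def CR : Prop :=
  ∀ (d : ℕ) (𝒰 : Ultrafilter ℕ) (x : ℕ → Fin (d + 1) → ℤ) (H : ℕ → ℝ) (B ε : ℝ),
    (𝒰 : Filter ℕ) ≤ atTop → 0 < ε →
    (∀ᶠ n : ℕ in (𝒰 : Filter ℕ), x n ≠ 0 ∧ (∀ i, |(x n i : ℝ)| ≤ H n) ∧
      (2 : ℝ) ^ (((d : ℝ) + 1) * n / 2) ≤ H n ∧ H n ≤ B ^ n) →
    ∀ᶠ n : ℕ in (𝒰 : Filter ℕ),
      Real.exp (-(ε * n)) * (H n ^ d)⁻¹ ≤ |∑ i, (x n i : ℝ) * val (tau ^ (i : ℕ)) n|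

/-- MR (EASY): the real form. Suppose it fails: for every `M` there are `n ≥ M`, `x`, `H` which
violate the bound; the set `𝒩` of the `n` for which there are such `x`, `H` is infinite. Choose
`x n`, `H n` for `n ∈ 𝒩` (anything for other `n`), and an ultrafilter `𝒰 ≤ atTop ⊓ 𝓟 𝒩` (this filter
is `NeBot`: `Filter.frequently_atTop`, `Ultrafilter.exists_le`). CR contradicts the choice. -/
def MR : Prop :=
  ∀ (d : ℕ) (B ε : ℝ), 0 < ε → ∃ M : ℕ, ∀ n ≥ M, ∀ (x : Fin (d + 1) → ℤ) (H : ℝ), x ≠ 0 →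
    (∀ i, |(x i : ℝ)| ≤ H) → (2 : ℝ) ^ (((d : ℝ) + 1) * n / 2) ≤ H → H ≤ B ^ n →
    Real.exp (-(ε * n)) * (H ^ d)⁻¹ ≤ |∑ i, (x i : ℝ) * val (tau ^ (i : ℕ)) n|

/-- MT (EASY-MEDIUM): THEOREM W. From MR with `x i = P.coeff i`. For large `n`,
`val (tau ^ i) n = (val tau n) ^ i` for all `i ≤ d` (induction from D2, third part, and `PG (tau^i)`
from D1; `val 1 n = 1`), and `val tau n = ζ(2n)/ζ(n)^2` (D10a). `P(t) = ∑_{i ≤ d} x_i t^i`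
(`Polynomial.eval_eq_sum_range'`, `natDegree ≤ d`), and the norm of a real number as a complex number
is its absolute value. -/
def MT : Prop :=
  ∀ (d : ℕ) (B ε : ℝ), 0 < ε → ∃ M : ℕ, ∀ n ≥ M, ∀ (P : Polynomial ℤ) (H : ℝ), P ≠ 0 →
    P.natDegree ≤ d → (∀ i, |(P.coeff i : ℝ)| ≤ H) → (2 : ℝ) ^ (((d : ℝ) + 1) * n / 2) ≤ H →
    H ≤ B ^ n → Real.exp (-(ε * n)) * (H ^ d)⁻¹ ≤
      ‖(P.map (Int.castRingHom ℂ)).eval (riemannZeta (2 * n) / riemannZeta n ^ 2)‖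

end Pool.Agent.Work.MP_f1a024_nt.RW
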