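import Pool.Agent.Work.MP_f1a024_nt.RW.DefsJ

/-!
# Block WJ: statements (THEOREM W jointly for several `n`)

THEOREM WJ. Let `t(n) = ζ(2n)/ζ(n)^2`, `s_0, .., s_k` different integers `≥ 0`, `Th k D θ`. For
every `B`, `ε > 0` and all large `n`, all `H` with `θ^n ≤ H ≤ B^n` and all nonzero
`P ∈ ℤ[X_0, .., X_k]` of degree at most `D` in each variable with coefficients at most `H`,
`|P(t(n + s_0), .., t(n + s_k))| ≥ e^(-εn) H^(-(N-1))`, `N = (D+1)^(k+1)`.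
`Th k D θ`: `q^(c+k) ≤ θ^(ν(c)) ∏_{p<q} p` for all primes `q` and `1 ≤ c ≤ (k+1)D`, where `ν(c)` is the
number of monomials of total degree `< c` (and degree `≤ D` in each variable).

Every item may assume the items it quotes, as hypotheses (`theorem prfPSJ (h : MUJ) : PSJ`), also
items of `RW/Stmts.lean` (NB, LB, UB, EB, ...). Please put the name of your item in the names of all
auxiliary lemmas (they are all in the same namespace). Models: the files `RW/*.lean` of Theorem W.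
-/

namespace Pool.Agent.Work.MP_f1a024_nt.RW

open Finset MvPolynomial Filter
open Pool.Agent.Work.MP_f1a024_nt.AH (tau PG val D1 D2 D4 D10a D10b)

/-! ## Part F: the flag -/

/-- ORJ (EASY): the exponents `α ∈ {0..D}^(k+1)` can be numbered by weight. Take any bijection
`e : Fin N ≃ (Fin (k+1) → Fin (D+1))`, `N = (D+1)^(k+1)` (`Fintype.equivFinOfCardEq` or
`Fintype.equivFin`, `Fintype.card_pi`/`Fintype.card_fun`) and compose it with the sorting permutation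
of `fun i => wt (e i)` (`Tuple.sort`, `Tuple.monotone_sort`). `N - 1 + 1 = N`. -/
def ORJ : Prop :=
  ∀ k D : ℕ, ∃ A : Fin ((D + 1) ^ (k + 1) - 1 + 1) ≃ (Fin (k + 1) → Fin (D + 1)),
    Monotone fun i => wt (A i)

/-- BIJ (EASY-MEDIUM): the vectors `(∏_j C(I_j, α_j))_I` are linearly independent. Suppose some
`λ α ≠ 0`; let `α` be one of these with the smallest weight (`Finset.exists_min_image`). Take the
hypothesis at `I = α`: a term `λ β ∏_j C(α_j, β_j) ≠ 0` has `λ β ≠ 0` and `β_j ≤ α_j` for all `j`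
(`Nat.choose_eq_zero_iff`), so `|β| ≤ |α|`, so `|β| = |α|` by the choice of `α`, so `β = α`. So the
sum is `λ α ∏_j C(α_j, α_j) = λ α ≠ 0`, a contradiction. -/
def BIJ : Prop :=
  ∀ (k D : ℕ) (lam : (Fin (k + 1) → Fin (D + 1)) → ℚ), (∀ I, ∑ α, lam α * bi α I = 0) →
    ∀ α, lam α = 0

/-- DIJ (EASY-MEDIUM): the dimension of the flag. `TJ A r` is the span of the vectors
`v_l = (bi (A l) (A i))_i`, `l ≤ r`, that is of the range of a family indexed by `Fin (r + 1)`; the family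
is linearly independent by BIJ (extend the coefficients by `0`, put `lam (A l) = c_l`; `A` is a
bijection). `finrank_span_eq_card`. Model: `Z1.lean` (first half). -/
def DIJ : Prop :=
  ∀ (k D d : ℕ) (A : Fin (d + 1) ≃ (Fin (k + 1) → Fin (D + 1))), ∀ r ≤ d,
    Module.finrank ℚ (TJ A r) = r + 1

/-- NUJ (EASY): positions and weights. (1) If `wt α < cJ A r = wt (A r)` then `α = A l` with `l < r`
(otherwise `r ≤ l` and `wt (A r) ≤ wt (A l)` by monotonicity). So the set counted by `nu` is contained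
in the image of `{l : l < r}`, which has `r` elements. (2) each coordinate is `≤ D`. -/
def NUJ : Prop :=
  ∀ (k D d : ℕ) (A : Fin (d + 1) ≃ (Fin (k + 1) → Fin (D + 1))),
    (Monotone fun i => wt (A i)) → ∀ r ≤ d, nu k D (cJ A r) ≤ r ∧ cJ A r ≤ (k + 1) * D

/-! ## Part F: restriction to products of `k + 1` primes -/

/-- DVJ (EASY-MEDIUM): factorisations of `∏ S_j^(e_j)`. The map `e' ↦ (∏ S_j^(e'_j), ∏ S_j^(e_j - e'_j))`
is a bijection from `{e' : e' ≤ e}` to `divisorsAntidiagonal (∏ S_j^(e_j))`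
(`Finset.sum_nbij'`; inverse `(a, b) ↦ (a.factorization (S j))_j`). It maps into this set because
`e'_j + (e_j - e'_j) = e_j`. The factorisation of `∏ S_j^(e_j)` at `S_i` is `e_i` (the `S_j` are
different primes: `Nat.factorization_prod`, `Nat.Prime.factorization_pow`), which gives the left
inverse; and if `a b = ∏ S_j^(e_j)` then all primes of `a` are among the `S_j` (`Prime.dvd_finset_prod_iff`,
`Nat.prime_dvd_prime_iff_eq`), and the factorisation of `a` at `S_j` is `≤ e_j`, so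
`a = ∏ S_j^(a.factorization (S j))` (`Nat.eq_of_factorization_eq`), and
`b = ∏ S_j^(e_j - e'_j)` by cancellation. -/
def DVJ : Prop :=
  ∀ (k : ℕ) (S : Fin (k + 1) → ℕ), Function.Injective S → (∀ j, (S j).Prime) →
    ∀ (e : Fin (k + 1) → ℕ) (F : ℕ → ℕ → ℚ),
      ∑ ab ∈ (∏ j, S j ^ e j).divisorsAntidiagonal, F ab.1 ab.2 =
        ∑ e' ∈ Iic e, F (∏ j, S j ^ e' j) (∏ j, S j ^ (e j - e' j))

/-- MUJ (EASY-MEDIUM): the product of two functions. By DVJ (`ArithmeticFunction.mul_apply`) the left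
side is the sum over all `e` with `∑ e_j = n` and all `e' ≤ e` of
`f(∏ S^e') g(∏ S^(e-e')) ∏ v_j^(e_j)`; the right side is (`Finset.sum_mul_sum`) the sum over `a + b = n`,
`∑ e' = a`, `∑ e'' = b` of `f(∏ S^e') g(∏ S^e'') ∏ v_j^(e'_j + e''_j)`. The bijection is
`(e, e') ↦ ((∑ e', ∑ (e - e')), e', e - e')` with inverse `((a, b), e', e'') ↦ (e' + e'', e')`
(`Finset.sum_sigma'`, `Finset.sum_bij'`; `Finset.mem_piAntidiag`). -/
def MUJ : Prop :=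
  ∀ (k : ℕ) (S : Fin (k + 1) → ℕ) (v : Fin (k + 1) → ℚ), Function.Injective S →
    (∀ j, (S j).Prime) → ∀ (f g : ArithmeticFunction ℚ) (n : ℕ),
      ∑ e ∈ Finset.piAntidiag univ n, (f * g) (∏ j, S j ^ e j) * ∏ j, v j ^ e j =
        ∑ ab ∈ HasAntidiagonal.antidiagonal n,
          (∑ e ∈ Finset.piAntidiag univ ab.1, f (∏ j, S j ^ e j) * ∏ j, v j ^ e j) *
            ∑ e ∈ Finset.piAntidiag univ ab.2, g (∏ j, S j ^ e j) * ∏ j, v j ^ e j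

/-- PSJ (EASY): the ring homomorphism. `Ψ f = PowerSeries.mk (fun n => ∑ ..)`. Multiplication: MUJ
and `PowerSeries.coeff_mul`. One: `(1 : ArithmeticFunction ℚ) (∏ S_j^(e_j)) = 0` unless
`∏ S_j^(e_j) = 1`, that is `e = 0`; so the coefficient of `1` at `n` is `1` for `n = 0`, `0` otherwise.
Addition, zero: clear. -/
def PSJ : Prop :=
  ∀ (k : ℕ) (S : Fin (k + 1) → ℕ) (v : Fin (k + 1) → ℚ), Function.Injective S →
    (∀ j, (S j).Prime) → ∃ Ψ : ArithmeticFunction ℚ →+* PowerSeries ℚ, ∀ f n,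
      PowerSeries.coeff n (Ψ f) =
        ∑ e ∈ Finset.piAntidiag univ n, f (∏ j, S j ^ e j) * ∏ j, v j ^ e j

/-- VAJ (EASY-MEDIUM): the images of the functions `f_s`. The coefficient at `0`: only `e = 0`, and
`f_s(1) = τ(1) = 1` (`tau` is multiplicative, D10b). The coefficient at `1`: the `e` with
`∑ e_j = 1` are the unit vectors (`Pi.single i 1`), with the terms `f_s(S_i) v_i = -2 v_i / S_i^s`
(D10b). So `Ψ f_s - 1` has constant coefficient `0`, so it is `X * K`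
(`PowerSeries.X_dvd_iff`), and the constant coefficient of `K` is the coefficient at `1` of `X * K`
(`PowerSeries.coeff_succ_X_mul`). -/
def VAJ : Prop :=
  D10b → ∀ (k : ℕ) (S : Fin (k + 1) → ℕ) (v : Fin (k + 1) → ℚ), Function.Injective S →
    (∀ j, (S j).Prime) → ∀ (Ψ : ArithmeticFunction ℚ →+* PowerSeries ℚ),
      (∀ f n, PowerSeries.coeff n (Ψ f) =
        ∑ e ∈ Finset.piAntidiag univ n, f (∏ j, S j ^ e j) * ∏ j, v j ^ e j) →
      ∀ s : ℕ, ∃ K : PowerSeries ℚ, Ψ (ft s) = 1 + PowerSeries.X * K ∧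
        PowerSeries.constantCoeff K = -2 * ∑ i, v i / (S i : ℚ) ^ s

/-- EXJ (EASY-MEDIUM): the expansion (pure algebra). For `i ≤ D`,
`(1 + X K)^i = ∑_{a ≤ D} C(i, a) X^a K^a` (`add_pow`, the terms with `a > i` are `0`), so
(`Finset.prod_univ_sum`, or `Fintype.prod_sum`) `∏_j (1 + X K_j)^(I_j) = ∑_α bi α I ∏_j (X K_j)^(α_j) =
∑_α bi α I X^(wt α) ∏_j K_j^(α_j)`. So the sum is `∑_α λ_α X^(wt α) ∏_j K_j^(α_j)` with
`λ_α = ∑_I z_I bi α I`. Coefficient at `n`: `λ_α = 0` if `wt α < n`; the coefficient at `n` of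
`X^w G` is `0` if `n < w` and the constant coefficient of `G` if `n = w`
(`PowerSeries.coeff_X_pow_mul'`), and `constantCoeff` is a ring homomorphism. -/
def EXJ : Prop :=
  ∀ (k D n : ℕ) (K : Fin (k + 1) → PowerSeries ℚ) (z : (Fin (k + 1) → Fin (D + 1)) → ℚ),
    (∀ α, wt α < n → ∑ I, z I * bi α I = 0) →
    PowerSeries.coeff n (∑ I : Fin (k + 1) → Fin (D + 1),
      PowerSeries.C (z I) * ∏ j, (1 + PowerSeries.X * K j) ^ (I j : ℕ)) =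
      ∑ α ∈ univ.filter (fun α : Fin (k + 1) → Fin (D + 1) => wt α = n),
        (∑ I, z I * bi α I) * ∏ j, PowerSeries.constantCoeff (K j) ^ (α j : ℕ)

/-- DEJ (EASY-MEDIUM): Descartes. `Polynomial.roots_countP_pos_le_signVariations` (Mathlib, RuleOfSigns)
bounds the number of positive roots by `P.signVariations`, and
`P.signVariations + 1 ≤ P.support.card` for `P ≠ 0`, by induction on the number of terms
(`Polynomial.signVariations_le_eraseLead_succ`, `Polynomial.signVariations_monomial`,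
`Polynomial.card_support_eraseLead`; or strong induction on `natDegree`). If all `k + 1` different
positive numbers `x i` were roots, then `k + 1 ≤ P.roots.countP (0 < ·) ≤ P.signVariations ≤ k`, a
contradiction (the image of `x` is a set of `k + 1` elements contained in the positive
part of `P.roots.toFinset`). Another proof: induction on `k` with Rolle's theorem on `(0, ∞)`. -/
def DEJ : Prop :=
  ∀ (k : ℕ) (P : Polynomial ℚ) (x : Fin (k + 1) → ℚ), P ≠ 0 → P.support.card ≤ k + 1 →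
    Function.Injective x → (∀ i, 0 < x i) → ∃ i, P.eval (x i) ≠ 0

/-- SUJ (EASY-MEDIUM): the linear forms `L_j(v) = ∑_i v_i S_i^(-s_j)` are independent. The matrix
`M j i = 1 / S_i^(s_j)` has the property: if `∑_j c_j M j i = 0` for all `i` then `c = 0`: the polynomial
`P = ∑_j c_j X^(s_j)` has at most `k + 1` terms and the `k + 1` different positive roots
`x_i = 1 / S_i`, so `P = 0` by DEJ, and its coefficient at `s_j` is `c_j` (`s` is injective). So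
`Matrix.vecMul` is injective, `M` is invertible (`Matrix.vecMul_injective_iff_isUnit`), and
`Matrix.mulVec` is surjective (`Matrix.mulVec_surjective_iff_isUnit`). -/
def SUJ : Prop :=
  ∀ (k : ℕ) (s S : Fin (k + 1) → ℕ), Function.Injective s → Function.Injective S →
    (∀ j, 0 < S j) → ∀ y : Fin (k + 1) → ℚ, ∃ v : Fin (k + 1) → ℚ,
      ∀ j, ∑ i, v i / (S i : ℚ) ^ s j = y j

/-- POJ (EASY): a polynomial function which is zero everywhere has zero coefficients. Apply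
`MvPolynomial.funext` to `∑_{α ∈ F} monomial (Finsupp.equivFunOnFinite.symm fun j => α j) (lam α)` and take
the coefficient at `α`. -/
def POJ : Prop :=
  ∀ (k D : ℕ) (lam : (Fin (k + 1) → Fin (D + 1)) → ℚ) (F : Finset (Fin (k + 1) → Fin (D + 1))),
    (∀ y : Fin (k + 1) → ℚ, ∑ α ∈ F, lam α * ∏ j, y j ^ (α j : ℕ) = 0) → ∀ α ∈ F, lam α = 0

/-- LBJ (MEDIUM): the local lemma. Let `c = cJ A r = wt (A r)`, `z' I = z (A.symm I)`,
`λ_α = ∑_I z'_I bi α I`. Claim: `λ_α = 0` if `wt α ≤ c`. Strong induction on `n = wt α ≤ c`: let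
`λ_β = 0` for `wt β < n`. For every `v : Fin (k+1) → ℚ` let `Ψ` be as in PSJ and `K_j` as in VAJ for
`s j`. Then `Ψ (fI s A i) = ∏_j (1 + X K_j)^((A i) j)`, so
`∑_i z_i Ψ (fI s A i) = ∑_I z'_I ∏_j (1 + X K_j)^(I_j)` (`Equiv.sum_comp`), and its coefficient at `n` is
`∑_{∑ e = n} (∑_i z_i fI s A i (∏ S^e)) ∏ v_j^(e_j) = 0` by hypothesis (`n ≤ c`). By EXJ
`∑_{wt α = n} λ_α ∏_j (-2 L_j(v))^(α_j) = 0`, `L_j(v) = ∑_i v_i / S_i^(s_j)`. Given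
`y : Fin (k+1) → ℚ` choose `v` with `L_j(v) = -y_j/2` (SUJ): so `∑_{wt α = n} λ_α ∏ y_j^(α_j) = 0` for all
`y`, and `λ_α = 0` for `wt α = n` by POJ. Now let `t ∈ TJ A r`; by `Submodule.span_induction` we may
assume `t = (bi (A l) (A i))_i`, `l ≤ r`; then `wt (A l) ≤ wt (A r) = c`, and
`∑_i z_i t_i = λ_(A l) = 0`. -/
def LBJ : Prop :=
  D10b → ∀ (k D d : ℕ) (s : Fin (k + 1) → ℕ) (A : Fin (d + 1) ≃ (Fin (k + 1) → Fin (D + 1))),
    Function.Injective s → (Monotone fun i => wt (A i)) → ZL k d (fI s A) (TJ A) (cJ A)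

/-! ## Part G: the zero estimate -/

/-- Z2J (EASY-MEDIUM): values of `uvJ` (copy the lemma `Z2_uv` of `Z2.lean`, with `∏ S_j^(e_j)` in place
of `p^e`). In `uvJ f u (N(κ) M) = ∑_{m₁ m₂ = N(κ) M} ∑_i coeff_{ex m₁}(u_i) f_i(m₂)`,
`M = ∏ S_j^(e_j)`, let `m₁` be such that some `coeff_{ex m₁}(u_i) ≠ 0`. Then `m₁ = N(ex m₁) ≥ N(κ)`,
and `(ex m₁)(S_j) ≤ up u (S_j) = κ (S_j)` (UB). As `m₁ ∣ N(κ) M`, for a prime `q` which is no `S_j`
`(ex m₁) q ≤ κ q`. So `ex m₁ ≤ κ`, `m₁ ∣ N(κ)`, so `m₁ = N(κ)` and `m₂ = M`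
(`Finset.sum_eq_single (nn κ, M)`). Primes in `Nat.Primes`; `NB` has all facts on `nn`, `ex`. -/
def Z2J : Prop :=
  ∀ (k d : ℕ) (f : Fin (d + 1) → ArithmeticFunction ℚ) (u : Fin (d + 1) → Rg) (κ : Ex)
    (S : Fin (k + 1) → Nat.Primes), (∀ i, ∀ b ∈ (u i).support, nn κ ≤ nn b) →
    (∀ j, up u (S j) = κ (S j)) → ∀ e : Fin (k + 1) → ℕ,
      uvJ f u (nn κ * ∏ j, ((S j : ℕ)) ^ e j) =
        ∑ i, (u i).coeff κ * f i (∏ j, ((S j : ℕ)) ^ e j)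

/-- Z3J (EASY-MEDIUM): suppose not. By Z2J `∑_i z_i f_i(∏ S^e) = 0` for `z_i = coeff_κ(u_i)` and all `e`
with `∑ e ≤ c r`. By `ZL` (the `S_j` are different primes) `∑ z_i t_i = 0` for all `t ∈ T r`.
Moreover `∑_i coeff_κ(u_i) a_l(i) = coeff_κ(dt u a_l) = 0` (lemma `Z2_coeff_dt` of `Z2.lean`). So
`z = 0` by the spanning hypothesis, contradicting `κ ∈ (u i).support`. Model: `prfZ2` in `Z2.lean`. -/
def Z3J : Prop :=
  ∀ (k d : ℕ) (f : Fin (d + 1) → ArithmeticFunction ℚ) (T : ℕ → Submodule ℚ (Fin (d + 1) → ℚ))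
    (c : ℕ → ℕ), ZL k d f T c → ∀ (r m : ℕ) (u : Fin (d + 1) → Rg) (a : Fin m → Fin (d + 1) → ℤ)
    (κ : Ex) (S : Fin (k + 1) → Nat.Primes), r ≤ d → (∃ i, κ ∈ (u i).support) →
    (∀ i, ∀ b ∈ (u i).support, nn κ ≤ nn b) → (∀ j, up u (S j) = κ (S j)) →
    Function.Injective S →
    (∀ z : Fin (d + 1) → ℚ, (∀ t ∈ T r, ∑ i, z i * t i = 0) →
      (∀ l, ∑ i, z i * (a l i : ℚ) = 0) → z = 0) →
    (∀ l, dt u (a l) = 0) →
    ∃ e : Fin (k + 1) → ℕ, ∑ j, e j ≤ c r ∧ uvJ f u (nn κ * ∏ j, ((S j : ℕ)) ^ e j) ≠ 0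

/-- Z4J (MEDIUM, model `Z4q.lean`): the zero estimate. Let `κ` be an exponent of smallest `nn` in the
union of the supports of the `u_i`, `m₀ = N(κ)`; `κ ≤ up u` (UB). All primes outside the (finite) support
of `up u` satisfy `up u p = 0 = κ p`. Choose `k + 1` different ones: by Z3J some
`uvJ f u (m₀ ∏ S^e) ≠ 0`, so there is a smallest `k₃` with `uvJ f u k₃ ≠ 0` (`Nat.find`), and if
`c r = 0` then `e = 0` and `k₃ ≤ m₀ ≤ N(up u)` (take `q = 2`). Let `c = c r ≥ 1` and `q` the smallest prime with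
`k₃ ≤ m₀ q^c` (there are infinitely many primes). Let `U` be the set of the primes `p < q` with
`up u p = κ p`. Claim: `#U ≤ k`. Otherwise there are `k + 1` different `S_j ∈ U`, and by Z3J
`uvJ f u (m₀ ∏ S^e) ≠ 0` with `∑ e ≤ c`, so `k₃ ≤ m₀ ∏ S^e ≤ m₀ p^c` where `p` is the largest `S_j`,
a prime `< q`, contradicting the choice of `q`. For the primes `p < q` not in `U`
`up u p ≥ κ p + 1`, so `κ + ∑_{p < q, p ∉ U} single p 1 ≤ up u` and `N(up u) ≥ m₀ ∏_{p<q, p ∉ U} p`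
(NB; lemmas `Z4q_nn_sum`, `Z4q_sum_single`). And `pb q = ∏_{p<q, p ∉ U} p ∏_{p ∈ U} p ≤
q^k ∏_{p<q, p ∉ U} p`. So `k₃ pb q ≤ m₀ q^c q^k ∏_{p<q, p ∉ U} p ≤ q^(c+k) N(up u)`. -/
def Z4J : Prop :=
  ∀ (k d : ℕ) (f : Fin (d + 1) → ArithmeticFunction ℚ) (T : ℕ → Submodule ℚ (Fin (d + 1) → ℚ))
    (c : ℕ → ℕ), ZL k d f T c → ∀ (r m : ℕ) (u : Fin (d + 1) → Rg) (a : Fin m → Fin (d + 1) → ℤ),
    r ≤ d → (∃ i, u i ≠ 0) →
    (∀ z : Fin (d + 1) → ℚ, (∀ t ∈ T r, ∑ i, z i * t i = 0) →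
      (∀ l, ∑ i, z i * (a l i : ℚ) = 0) → z = 0) →
    (∀ l, dt u (a l) = 0) →
    ∃ k₃ q : ℕ, q.Prime ∧ uvJ f u k₃ ≠ 0 ∧ (∀ k' < k₃, uvJ f u k' = 0) ∧
      (c r = 0 → k₃ ≤ nn (up u)) ∧
      (1 ≤ c r → (k₃ : ℝ) * pb q ≤ (q : ℝ) ^ (c r + k) * nn (up u))

/-! ## Part G: assembly -/

/-- P6J (EASY, copy of `P6.lean`): `P0`, `P1` with the flag `T`, `P2`, `P3a`, `P3b`, `P4`, `P5` as in
`prfP6`; only `hspan` changes (it is now literally the last property of `P1`, after rewriting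
`y l.succ.succ = a l`); `Z1` and `D10b` are not needed. -/
def P6J : Prop :=
  ∀ (d : ℕ) (T : ℕ → Submodule ℚ (Fin (d + 1) → ℚ)) (W : Submodule Rg (Fin (d + 1) → Rg)),
    (∀ r ≤ d, Module.finrank ℚ (T r) = r + 1) → W ≠ ⊤ →
    (∀ (t : Rg) (c : Fin (d + 1) → Rg), t ≠ 0 → t • c ∈ W → c ∈ W) → Nonempty (PDJ d T W)

/-- F1aJ (EASY, copy of `F1a.lean`): truncation. D4 for each `f i`, and
`ev n (vbJ Y (f i)) = ∑_{1 ≤ k < Y} f_i(k) / k^n` (lemma `F1a_ev_monomial`). -/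
def F1aJ : Prop :=
  D4 → ∀ (d Y : ℕ) (f : Fin (d + 1) → ArithmeticFunction ℚ), (∀ i, PG (f i)) → 0 < Y →
    ∃ (C : ℝ) (M : ℕ), 0 ≤ C ∧ ∀ n ≥ M, ∀ i,
      |val (f i) n - ((ev n (vbJ Y (f i)) : ℚ) : ℝ)| ≤ C * (1 / (Y : ℝ)) ^ n

/-- F1bJ (EASY, copy of `F1b.lean`): coefficients. The coefficient of `∑ u_i vbJ Y (f i)` at `ex k`,
`1 ≤ k < Y`, is `uvJ f u k`. -/
def F1bJ : Prop :=
  ∀ (d Y k₃ : ℕ) (f : Fin (d + 1) → ArithmeticFunction ℚ) (u : Fin (d + 1) → Rg),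
    uvJ f u k₃ ≠ 0 → (∀ k < k₃, uvJ f u k = 0) → k₃ < Y →
    IsLow (∑ i, u i * vbJ Y (f i)) (ex k₃)

/-- CUJ (EASY-MEDIUM, copy of `CU.lean` with `PDJ`, `uvJ f`, `vbJ Y (f i)`, F1bJ in place of `PD`, `uv`,
`vb Y i`, F1b; the proof does not use `hspan`): application of Proposition U. -/
def CUJ : Prop :=
  ∀ (d : ℕ) (f : Fin (d + 1) → ArithmeticFunction ℚ) (T : ℕ → Submodule ℚ (Fin (d + 1) → ℚ))
    (𝒰 : Ultrafilter ℕ) (x : ℕ → Fin (d + 1) → ℤ) (H : ℕ → ℝ) (B ε : ℝ)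
    (W : Submodule Rg (Fin (d + 1) → Rg)) (D : PDJ d T W) (k₃ Y : ℕ), (𝒰 : Filter ℕ) ≤ atTop →
    (∀ᶠ n : ℕ in (𝒰 : Filter ℕ), 1 ≤ H n ∧ H n ≤ B ^ n ∧ ∀ i, |(x n i : ℝ)| ≤ H n) →
    (∀ c, c ∈ W ↔ Rel 𝒰 x c) → uvJ f D.u k₃ ≠ 0 → (∀ k < k₃, uvJ f D.u k = 0) → k₃ < Y → 0 < ε →
    ∃ C : ℝ, 0 < C ∧ ∀ᶠ n : ℕ in (𝒰 : Filter ℕ),
      Real.exp (-(ε * n)) * ((nn (up D.u) : ℝ) / k₃) ^ n * (H n ^ D.m)⁻¹ ≤
        C * |((∑ i : Fin (d + 1), ev n (vbJ Y (f i)) * (x n i : ℚ) : ℚ) : ℝ)|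

/-- CRJ (EASY-MEDIUM, copy of `CRq.lean`): the core. Suppose not; then (`𝒰` is an ultrafilter) for
almost all `n` `|∑ x_n(i) val (f i) n| < e^(-εn) H_n^(-d)`. `x n ≠ 0` gives `H_n ≥ 1`. WS gives `W`, P6J
gives `D : PDJ d T W`, `r = D.r`, `m = D.m`, `m + r = d`; Z4J gives `k₃ > 0` (`uvJ f u 0 = 0`) and `q`.
As in `prfCRq` (F1aJ, CUJ with `ε/2`) `e^(-εn/2) (N(up u)/k₃)^n H_n^r ≤ C'' e^(-εn)`. It remains:
`(N(up u)/k₃)^n H_n^r ≥ 1`: if `c r = 0` then `k₃ ≤ N(up u)` and `H_n ≥ 1`; if `c r ≥ 1` then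
`N(up u)/k₃ ≥ pb q / q^(c r + k)` and `q^((c r + k) n) ≤ H_n^r (pb q)^n` by hypothesis. -/
def CRJ : Prop :=
  ∀ (k d : ℕ) (f : Fin (d + 1) → ArithmeticFunction ℚ) (T : ℕ → Submodule ℚ (Fin (d + 1) → ℚ))
    (c : ℕ → ℕ), (∀ i, PG (f i)) → (∀ r ≤ d, Module.finrank ℚ (T r) = r + 1) → ZL k d f T c →
    ∀ (𝒰 : Ultrafilter ℕ) (x : ℕ → Fin (d + 1) → ℤ) (H : ℕ → ℝ) (B ε : ℝ),
    (𝒰 : Filter ℕ) ≤ atTop → 0 < ε →
    (∀ᶠ n : ℕ in (𝒰 : Filter ℕ), x n ≠ 0 ∧ (∀ i, |(x n i : ℝ)| ≤ H n) ∧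
      (∀ r ≤ d, ∀ q : ℕ, 1 ≤ c r → q.Prime → (q : ℝ) ^ ((c r + k) * n) ≤ H n ^ r * pb q ^ n) ∧
      H n ≤ B ^ n) →
    ∀ᶠ n : ℕ in (𝒰 : Filter ℕ),
      Real.exp (-(ε * n)) * (H n ^ d)⁻¹ ≤ |∑ i, (x n i : ℝ) * val (f i) n|

/-- MRJ (EASY, copy of `MRq.lean`): the real form, from CRJ (lemma `MRq_ultra`). -/
def MRJ : Prop :=
  ∀ (k d : ℕ) (f : Fin (d + 1) → ArithmeticFunction ℚ) (T : ℕ → Submodule ℚ (Fin (d + 1) → ℚ))
    (c : ℕ → ℕ), (∀ i, PG (f i)) → (∀ r ≤ d, Module.finrank ℚ (T r) = r + 1) → ZL k d f T c →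
    ∀ (B ε : ℝ), 0 < ε → ∃ M : ℕ, ∀ n ≥ M, ∀ (x : Fin (d + 1) → ℤ) (H : ℝ), x ≠ 0 →
    (∀ i, |(x i : ℝ)| ≤ H) →
    (∀ r ≤ d, ∀ q : ℕ, 1 ≤ c r → q.Prime → (q : ℝ) ^ ((c r + k) * n) ≤ H ^ r * pb q ^ n) →
    H ≤ B ^ n →
    Real.exp (-(ε * n)) * (H ^ d)⁻¹ ≤ |∑ i, (x i : ℝ) * val (f i) n|

/-! ## Part E: the end -/

/-- VLJ (EASY-MEDIUM): values of the family. (1) `PG (ft s)`: `|τ(m) / m^s| ≤ |τ(m)|` (D10a; for
`m = 0` both are `0`), and products (D1; `PG 1` from `IsP 1`, `Finset.prod_induction`). (2)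
`val (ft s) n = val tau (n + s)` for all `n`: the terms are equal, `m^(n+s) = m^s m^n`. (3) products:
D2, third part, with (1), by induction on the product (as `MTq_pow` in `MTq.lean`; `val 1 n = 1` is
`MTq_one`); `M` is the maximum over the finitely many `i`; D10a for `n + s_j`. -/
def VLJ : Prop :=
  D1 → D2 → D10a → ∀ (k D d : ℕ) (s : Fin (k + 1) → ℕ)
    (A : Fin (d + 1) ≃ (Fin (k + 1) → Fin (D + 1))),
    (∀ i, PG (fI s A i)) ∧ ∃ M : ℕ, ∀ n ≥ M, ∀ i, ((val (fI s A i) n : ℝ) : ℂ) =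
      ∏ j, (riemannZeta (2 * ((n + s j : ℕ) : ℂ)) / riemannZeta ((n + s j : ℕ) : ℂ) ^ 2) ^
        (A i j : ℕ)

/-- PLJ (EASY-MEDIUM): polynomials as sums over the box. For `P` of degree at most `D` in each variable
all exponents `b` in the support satisfy `b j ≤ D` (`MvPolynomial.degreeOf_le_iff` or
`monomial_le_degreeOf`), so they are of the form `I : Fin (k+1) → Fin (D+1)`;
`aeval t P = ∑_{b ∈ supp} P_b ∏ t_j^(b_j)` (`MvPolynomial.aeval_eq_sum`/`eval₂_eq'`), rewrite as a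
sum over all `i` with `I = A i` (`Finset.sum_subset` and the bijection). If `P ≠ 0` some
coefficient is `≠ 0`. -/
def PLJ : Prop :=
  ∀ (k D d : ℕ) (A : Fin (d + 1) ≃ (Fin (k + 1) → Fin (D + 1)))
    (P : MvPolynomial (Fin (k + 1)) ℤ), (∀ j, P.degreeOf j ≤ D) →
    (P ≠ 0 → (fun i => P.coeff (Finsupp.equivFunOnFinite.symm fun j => (A i j : ℕ))) ≠ 0) ∧
    ∀ t : Fin (k + 1) → ℂ, MvPolynomial.aeval t P =
      ∑ i, ((P.coeff (Finsupp.equivFunOnFinite.symm fun j => (A i j : ℕ)) : ℤ) : ℂ) *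
        ∏ j, t j ^ (A i j : ℕ)

/-- MTJ (EASY-MEDIUM, model `MTq.lean`): THEOREM WJ. `A` from ORJ, `d = (D+1)^(k+1) - 1`, MRJ for
`f = fI s A`, `T = TJ A`, `c = cJ A` (DIJ, LBJ, VLJ), `x i` the coefficients of `P` (PLJ). The condition
on `H`: let `c = cJ A r ≥ 1`; then `c ≤ (k+1) D` and `nu k D c ≤ r` (NUJ), so
`q^((c+k) n) ≤ (θ^(nu c) pb q)^n = (θ^n)^(nu c) (pb q)^n ≤ H^(nu c) (pb q)^n ≤ H^r (pb q)^n`
(`H ≥ 1` because a nonzero integer is `≤ H`). The norm of a real number as a complex number is its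
absolute value. -/
def MTJ : Prop :=
  ∀ (k D : ℕ) (s : Fin (k + 1) → ℕ) (θ B ε : ℝ), Function.Injective s → 0 < θ → Th k D θ → 0 < ε →
    ∃ M : ℕ, ∀ n ≥ M, ∀ (P : MvPolynomial (Fin (k + 1)) ℤ) (H : ℝ), P ≠ 0 →
      (∀ j, P.degreeOf j ≤ D) → (∀ I, |((P.coeff I : ℤ) : ℝ)| ≤ H) → θ ^ n ≤ H → H ≤ B ^ n →
      Real.exp (-(ε * n)) * (H ^ ((D + 1) ^ (k + 1) - 1))⁻¹ ≤
        ‖MvPolynomial.aeval (fun j => riemannZeta (2 * ((n + s j : ℕ) : ℂ)) /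
          riemannZeta ((n + s j : ℕ) : ℂ) ^ 2) P‖

/-! ## Part T: thresholds -/

/-- PBJ (EASY): `q^i ≤ 2^(i(i+1)/2) pb q` for all primes `q` and all `i`. From Z3 with `m = 1`, `r = i`,
`k = q^i` (for `i ≥ 1`): `{p < q^i : p prime, p^i < q^i}` is the set of the primes below `q`
(`p < q ≤ q^i`). Or use the lemma `Z3_pow` of `Z3.lean`. `i = 0`: `1 ≤ pb q` (`CRq_one_le_pb`). -/
def PBJ : Prop :=
  ∀ q i : ℕ, q.Prime → (q : ℝ) ^ i ≤ 2 ^ (i * (i + 1) / 2) * pb q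

/-- N0J (EASY): one variable. `nu 0 D c = c` for `c ≤ D` (functions on `Fin 1`). If
`q^D ≤ θ^D pb q` for all primes `q` then for `1 ≤ c ≤ D` `(q^c)^D = (q^D)^c ≤ θ^(Dc) (pb q)^c ≤
(θ^c pb q)^D`, so `q^c ≤ θ^c pb q`. For `θ = 2^((D+1)/2)`: PBJ with `i = D`. -/
def N0J : Prop :=
  ∀ (D : ℕ) (θ : ℝ), 0 < θ →
    ((∀ q : ℕ, q.Prime → (q : ℝ) ^ D ≤ θ ^ D * pb q) → Th 0 D θ) ∧
      Th 0 D ((2 : ℝ) ^ (((D : ℝ) + 1) / 2))

/-- N1J (MEDIUM): the number of monomials. Put `n_k(m) = nu k D (m + 1)` (weights `≤ m`). Claim for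
`k ≥ 1`, `0 ≤ m < (k+1) D`: `(m+k+1)(m+k+2) ≤ (k+1)(k+2) n_k(m)`. (This is the claim of the statement,
`c = m + 1`.) Induction on `k`.

`k = 1`: `n_1(m) = ∑_{a ≤ min(D,m)} (min(m-a, D) + 1)`. If `m ≤ D` this is `(m+1)(m+2)/2`, and
`(m+2)(m+3) ≤ 3(m+1)(m+2)`. If `m = D + j`, `1 ≤ j < D`: the complement has `(D-j)(D-j+1)/2` elements,
so `n_1(m) = (D+1)^2 - (D-j)(D-j+1)/2`, and `(D+j+2)(D+j+3) ≤ 6(D+1)^2 - 3(D-j)(D-j+1)`: the
difference `6(D+1)^2 - 3(D-j)(D-j+1) - (D+j+2)(D+j+3)` is concave in `j`, at `j = 0` it is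
`2D^2 + 4D ≥ 0` and at `j = D` it is `2D^2 + 2D ≥ 0`.

`k - 1 → k`, `k ≥ 2`. If `m ≥ k D`: all `(D+1)^k` exponents with last coordinate `0` have weight
`≤ kD ≤ m`, so `n_k(m) ≥ (D+1)^k ≥ (D+1)^2`, and `(m+k+1)(m+k+2) ≤ ((k+1)D+k)(k+1)(D+1) ≤
(k+1)(k+2)(D+1)^2` as `(k+1)D + k ≤ (k+2)(D+1)`. If `m < k D`: `m = 0`: `n_k(0) = 1`, equality. If
`m ≥ 1`: `n_k(m) ≥ n_{k-1}(m) + n_{k-1}(m-1)` (last coordinate `0` or `1`; `D ≥ 1`), so by induction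
`k(k+1) n_k(m) ≥ (m+k)(m+k+1) + (m+k-1)(m+k) = 2(m+k)^2`, and
`(k+1)(k+2) n_k(m) ≥ 2 (k+2)/k (m+k)^2 ≥ (m+k+1)(m+k+2)`: with `x = m + k ≥ 3`,
`2(k+2) x^2 ≥ k (x+1)(x+2)` since `(x+1)(x+2) ≤ 2x^2 + 2` for `x ≥ 3` and `4x^2 ≥ 2k`. -/
def N1J : Prop :=
  ∀ k D c : ℕ, 1 ≤ k → 1 ≤ c → c ≤ (k + 1) * D →
    (c + k) * (c + k + 1) ≤ (k + 1) * (k + 2) * nu k D c

/-- N2J (EASY): for `k ≥ 1` the threshold `2^((k+1)(k+2)/2)` does not depend on `D`. PBJ with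
`i = c + k`: `q^(c+k) ≤ 2^((c+k)(c+k+1)/2) pb q`, and by N1J
`(c+k)(c+k+1)/2 ≤ (k+1)(k+2)/2 * nu k D c`. -/
def N2J : Prop := ∀ k D : ℕ, 1 ≤ k → Th k D ((2 : ℝ) ^ ((k + 1) * (k + 2) / 2))

end Pool.Agent.Work.MP_f1a024_nt.RW
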