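import Pool.Agent.Work.MP_f1a024_nt.RW.StmtsJ

/-!
# Block WJ, second round: statements (sharp zero estimate for `k = 0`, uniform threshold)

THEOREM WJ, final form. Let `t(n) = ζ(2n)/ζ(n)^2`, `s_0, .., s_k` different integers `≥ 0`, `k, D ≥ 0`.
For every `B`, `ε > 0` and all large `n`, all `H` with `2^((k+1)(k+2)n/2) ≤ H ≤ B^n` and all nonzero
`P ∈ ℤ[X_0, .., X_k]` of degree at most `D` in each variable with coefficients at most `H`,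
`|P(t(n + s_0), .., t(n + s_k))| ≥ e^(-εn) H^(-(N-1))`, `N = (D+1)^(k+1)`. For `k = 0` the threshold `2^n`
is sharp for every `D` (`P = (X-1)^D`).

Every item may assume the items it quotes, as hypotheses (`theorem prfAKU (h : NB) : AKU`), also
items of `RW/Stmts.lean`, `RW/StmtsJ.lean` (NB, UB, PSJ, ...). Please put the name of your item in the
names of all auxiliary lemmas (they are all in the same namespace). Here `p`, `q`, `π` are primes,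
`y ≤ κ + m` etc. are pointwise, `N = nn`.
-/

namespace Pool.Agent.Work.MP_f1a024_nt.RW

open Finset MvPolynomial Filter
open Pool.Agent.Work.MP_f1a024_nt.AH (tau PG val D1 D2 D4 D10a D10b)

/-- the zero estimate `k₃ ≤ ζ(r) N(up u)` for a family `f` and a flag `T` -/
def ZE (d : ℕ) (f : Fin (d + 1) → ArithmeticFunction ℚ)
    (T : ℕ → Submodule ℚ (Fin (d + 1) → ℚ)) (ζ : ℕ → ℝ) : Prop :=
  ∀ (r m : ℕ) (u : Fin (d + 1) → Rg) (a : Fin m → Fin (d + 1) → ℤ), r ≤ d → (∃ i, u i ≠ 0) →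
    (∀ z : Fin (d + 1) → ℚ, (∀ t ∈ T r, ∑ i, z i * t i = 0) →
      (∀ l, ∑ i, z i * (a l i : ℚ) = 0) → z = 0) →
    (∀ l, dt u (a l) = 0) →
    ∃ k₃ : ℕ, uvJ f u k₃ ≠ 0 ∧ (∀ k' < k₃, uvJ f u k' = 0) ∧ (k₃ : ℝ) ≤ ζ r * nn (up u)

/-- the coefficient of `u_i f_i` at the exponent `x` -/
noncomputable def AK {d : ℕ} (f : Fin (d + 1) → ArithmeticFunction ℚ) (u : Fin (d + 1) → Rg)
    (i : Fin (d + 1)) (x : Ex) : ℚ :=
  ∑ y ∈ HasAntidiagonal.antidiagonal x, (u i).coeff y.1 * f i (nn y.2)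

/-- `κ` is minimal in the following sense: every other exponent `y` of the `u_i` is larger than `κ` at
the largest prime where they differ -/
def KM {d : ℕ} (u : Fin (d + 1) → Rg) (κ : Ex) : Prop :=
  ∀ i, ∀ y ∈ (u i).support, y ≠ κ →
    ∃ π : Nat.Primes, κ π < y π ∧ ∀ q : Nat.Primes, (π : ℕ) < q → y q = κ q

/-! ## Part K: the sharp zero estimate -/

/-- AKU (EASY-MEDIUM): the coefficients. In `uvJ f u (N(x))` the sum is over the pairs `(a, b)` with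
`a b = N(x)`; the map `y ↦ (nn y.1, nn y.2)` is a bijection from the antidiagonal of `x` to
`(nn x).divisorsAntidiagonal`, with inverse `(a, b) ↦ (ex a, ex b)` (NB: `nn (a + b) = nn a nn b`,
`ex (nn a) = a`, `nn (ex m) = m` for `m > 0`, `ex (m m') = ex m + ex m'`; `Finset.sum_nbij'`), and the sums
over `i` and `y` are exchanged (`Finset.sum_comm`). -/
def AKU : Prop :=
  ∀ (d : ℕ) (f : Fin (d + 1) → ArithmeticFunction ℚ) (u : Fin (d + 1) → Rg) (x : Ex),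
    uvJ f u (nn x) = ∑ i, AK f u i x

/-- MUK (EASY): `ft s` is multiplicative (`tau` is, D10b; `(m m')^s = m^s m'^s`), and so are its powers
(`ArithmeticFunction.IsMultiplicative.mul`, `isMultiplicative_one`, induction). -/
def MUK : Prop := D10b → ∀ s i : ℕ, (ft s ^ i).IsMultiplicative

/-- FAK (MEDIUM): one prime. Let `x = κ + m`, `x' = x.erase p`, so `x = x' + single p (κ p)` (as
`m p = 0`). The antidiagonal of `x + single p a` is in bijection with (antidiagonal of `x'`) ×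
(antidiagonal of `κ p + a`): `y = (y₁, y₂) ↦ ((y₁.erase p, y₂.erase p), (y₁ p, y₂ p))`, inverse
`(y', b) ↦ (y'₁ + single p b₁, y'₂ + single p b₂)` (`Finset.sum_nbij'` or `Finset.sum_bij'`;
`Finsupp.erase_add_single`). As `N(y'₂ + single p b₂) = N(y'₂) p^(b₂)` with coprime factors
(the prime `p` does not divide `N(y'₂)` because `(y'₂) p = 0`, NB), `f_i` of it is
`f_i(N(y'₂)) f_i(p^(b₂))`. So `AK f u i (x + single p a) = ∑_{b₁ + b₂ = κ p + a} W_i(b₁) f_i(p^(b₂))` with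
`W_i(b) = ∑_{y'₁ + y'₂ = x'} coeff_{y'₁ + single p b}(u_i) f_i(N(y'₂))`. If `b < κ p` then `W_i(b) = 0`:
`y = y'₁ + single p b` satisfies `y q ≤ κ q + m q` for `q ≠ p` and `y p = b < κ p`, so it is not in
the support of `u_i` by hypothesis. If `b > up u p` then `W_i(b) = 0` by UB. Put
`w_i = PowerSeries.mk fun c => W_i(κ p + c)`; the sum over `b₁ + b₂ = κ p + a` without the terms with
`b₁ < κ p` is the sum over `c₁ + c₂ = a`, `b₁ = κ p + c₁`. `PowerSeries.coeff_mul`. -/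
def FAK : Prop :=
  ∀ (d : ℕ) (f : Fin (d + 1) → ArithmeticFunction ℚ) (u : Fin (d + 1) → Rg) (κ m : Ex)
    (p : Nat.Primes), (∀ i, (f i).IsMultiplicative) → m p = 0 →
    (∀ i, ∀ y ∈ (u i).support, (∀ q, q ≠ p → y q ≤ κ q + m q) → κ p ≤ y p) →
    ∃ w : Fin (d + 1) → PowerSeries ℚ,
      (∀ i a, up u p - κ p < a → PowerSeries.coeff a (w i) = 0) ∧
      ∀ i a, AK f u i (κ + m + Finsupp.single p a) =
        PowerSeries.coeff a (w i * PowerSeries.mk fun c => f i ((p : ℕ) ^ c))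

/-- ODK (EASY-MEDIUM): the differential equation. PSJ with `k = 0`, `S = fun _ => p`, `v = 1` (or a direct
proof) gives a ring homomorphism `Ψ` with `coeff n (Ψ f) = f (p^n)`. `Ψ sq = ∑ X^(2j)`, so
`(1 - X^2) Ψ sq = 1`; `Ψ μ = 1 - X` (`ArithmeticFunction.moebius_apply_prime_pow`). So
`(1 - X^2) Ψ tau = (1 - X)^2`, `(1 + X) Ψ tau = 1 - X` (cancel `1 - X ≠ 0`). Let `ρ = p^(-s)`;
`coeff n (Ψ (ft s)) = ρ^n coeff n (Ψ tau)` (this is `PowerSeries.rescale ρ`), so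
`(1 + ρ X) φ = 1 - ρ X` for `φ = Ψ (ft s)`. The derivative: `(1 + ρ X) φ' = -ρ - ρ φ`, so
`(1 + ρ X)^2 φ' = -ρ (1 + ρ X) - ρ (1 - ρ X) = -2ρ`, and
`(1 - ρ^2 X^2) φ' (1 + ρ X) = (1 - ρ X) (-2ρ) = -2ρ φ (1 + ρ X)`; cancel `1 + ρ X ≠ 0`. Then
`(φ^i)' = i φ^(i-1) φ'` and `Ψ (ft s ^ i) = φ^i`. -/
def ODK : Prop :=
  ∀ s i p : ℕ, p.Prime →
    (1 - PowerSeries.C (((((p : ℚ) ^ s)⁻¹) : ℚ) ^ 2) * PowerSeries.X ^ 2) *
        PowerSeries.derivative ℚ (PowerSeries.mk fun c => (ft s ^ i) (p ^ c)) =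
      -(PowerSeries.C (2 * (i : ℚ) * ((p : ℚ) ^ s)⁻¹) *
        PowerSeries.mk fun c => (ft s ^ i) (p ^ c))

/-- STK (EASY from FAK, ODK, MUK and `SK_main` of `RW/ZK1.lean`): the step for one prime. `f i =
ft s ^ σ i`; FAK gives `w`; with `φ i = mk fun c => f i (p^c)`, `ρ = p^(-s)`, `e = up u p - κ p`:
`∑_i σ_i^j AK f u i (κ + m + single p a) = SK σ (fun i => w i * φ i) j a`. -/
def STK : Prop :=
  ∀ (d s : ℕ) (σ : Fin (d + 1) → ℕ) (u : Fin (d + 1) → Rg) (κ m : Ex) (p : Nat.Primes)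
    (b a : ℕ), m p = 0 → up u p - κ p < b →
    (∀ i, ∀ y ∈ (u i).support, (∀ q, q ≠ p → y q ≤ κ q + m q) → κ p ≤ y p) →
    (∀ j' a', j' < b → j' + a' ≤ b + a →
      ∑ i, (σ i : ℚ) ^ j' * AK (fun i => ft s ^ σ i) u i (κ + m + Finsupp.single p a') = 0) →
    ∑ i, (σ i : ℚ) ^ b * AK (fun i => ft s ^ σ i) u i (κ + m + Finsupp.single p a) = 0

/-- KAK (EASY-MEDIUM): the choice of `κ`. Let `W` be the union of the supports of the `u_i`, a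
nonempty finite set of exponents, and `L` larger than all `y p`, `y ∈ W` (all but finitely many are `0`).
Choose `κ ∈ W` with the smallest `∑_{p ∈ F} κ_p L^p`, `F` the union of the supports of the elements of
`W`. If `y ∈ W`, `y ≠ κ`, let `π` be the largest prime with `y π ≠ κ π`; if `y π < κ π` then
`∑_p y_p L^p - ∑_p κ_p L^p ≤ -L^π + ∑_{p < π} (L-1) L^p < 0`, a contradiction. (Or: minimal element for the
colexicographic order; or induction on the number of primes in `F`, taking at each step the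
elements of `W` with the smallest coordinate at the largest prime.) -/
def KAK : Prop :=
  ∀ (d : ℕ) (u : Fin (d + 1) → Rg), (∃ i, u i ≠ 0) → ∃ κ : Ex, (∃ i, κ ∈ (u i).support) ∧ KM u κ

/-- CLK (MEDIUM, from STK, AKU): the induction on `b`, for all `j ≤ b` and all `m`. If `j < b`: the
induction hypothesis for `b - 1` (the conditions for `b` imply those for `b - 1`). `b = j = 0`:
`∑_i AK f u i (κ + m) = uvJ f u (N(κ + m)) = 0` by AKU as `N(κ + m) = N(κ) N(m) < k₃`. Let `j = b ≥ 1`,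
`p = P b`, `a = m p`, `m' = m.erase p`, `m = m' + single p a`. STK applies: (i) `m' p = 0`; (ii) by
hypothesis; (iii) if `y ∈ supp u_i`, `y q ≤ κ q + m' q` for `q ≠ p` and `y p < κ p`, then `y ≠ κ`; let `π` be as
in `KM`. `κ π < y π` so `π ≠ p`; if `π < p` then `y p = κ p`, a contradiction; if `π > p` then
`m' π = 0` (all primes in the support of `m` are `≤ P b = p`), and `y π ≤ κ π`, a contradiction.
(iv) for `j' < b`, `j' + a' ≤ b + a`: the induction hypothesis for `j'` (pair `(j', j')`) at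
`m' + single p a'`: its support is contained in that of `m` and `p`, and `p = P b ≤ P B` for
`B ≤ b`; and `N(m') p^(a') ∏_{B ≤ j'} P B ≤ N(m') p^(a + b - j') ∏_{B ≤ j'} P B ≤
N(m') p^a ∏_{B ≤ b} P B = N(m) ∏_{B ≤ b} P B`. (Strong induction on `b`.) -/
def CLK : Prop :=
  ∀ (d s : ℕ) (σ : Fin (d + 1) → ℕ) (u : Fin (d + 1) → Rg) (κ : Ex) (P : ℕ → Nat.Primes)
    (k₃ : ℕ), KM u κ → (∀ B, 1 ≤ B → up u (P B) - κ (P B) < B) →
    (∀ B B', B ≤ B' → (P B' : ℕ) ≤ P B) →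
    (∀ k' < k₃, uvJ (fun i => ft s ^ σ i) u k' = 0) →
    ∀ b j : ℕ, j ≤ b → ∀ m : Ex, (∀ B ∈ Finset.Icc 1 b, ∀ q ∈ m.support, (q : ℕ) ≤ P B) →
      nn κ * nn m * ∏ B ∈ Finset.Icc 1 b, (P B : ℕ) < k₃ →
      ∑ i, (σ i : ℚ) ^ j * AK (fun i => ft s ^ σ i) u i (κ + m) = 0

/-- ARK (EASY-MEDIUM): the primes `P B`. `P B` is the smallest prime `q` with `U q - κ q < B` (for `B ≥ 1`
there are such `q`: all but finitely many have `U q = 0`; `Nat.find`, `Nat.exists_infinite_primes`); for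
`B = 0` put `P 0 = P 1`. Clearly `P` is decreasing. Bertrand (`Nat.exists_prime_lt_and_le_two_mul`):
`P B ≤ 2 ∏_{q < P B} q`: true if `P B = 2`; otherwise let `q'` be the largest prime `< P B` (or the
product of all the primes `< P B`, which is `≥ q'`); there is a prime in `(q', 2q']`, which is
`≥ P B`. For a prime `q < P B` we have `U q - κ q ≥ B`. So `κ + ∑_{B=1}^r ∑_{q < P B} single q 1 ≤ U`: at the
prime `q` the double sum is the number of the `B ∈ [1, r]` with `q < P B`, and all these `B` are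
`≤ U q - κ q`. So `N(κ) ∏_{B=1}^r ∏_{q < P B} q ≤ N(U)` (NB; lemmas `Z4q_nn_sum`, `Z4q_sum_single` of
`Z4q.lean`), and `N(κ) ∏_B P B ≤ 2^r N(U)`. -/
def ARK : Prop :=
  ∀ κ U : Ex, κ ≤ U → ∃ P : ℕ → Nat.Primes, (∀ B, 1 ≤ B → U (P B) - κ (P B) < B) ∧
    (∀ B B', B ≤ B' → (P B' : ℕ) ≤ P B) ∧
    ∀ r : ℕ, nn κ * ∏ B ∈ Finset.Icc 1 r, (P B : ℕ) ≤ 2 ^ r * nn U

/-- ZKF (EASY-MEDIUM, from KAK, ARK, CLK, MUK, UB): THE SHARP ZERO ESTIMATE. Let `κ` be as in KAK,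
`κ ≤ up u` (UB), `P` as in ARK for `U = up u`. Claim: there is no `k₃ > N(κ) ∏_{B ≤ r} P B` with
`uvJ f u k' = 0` for all `k' < k₃`. Otherwise CLK with `b = r`, `m = 0` gives
`∑_i σ_i^j AK f u i κ = 0` for `j ≤ r`. And `AK f u i κ = coeff_κ(u_i)`: in the sum over
`y.1 + y.2 = κ` a term with `y.1 ∈ supp u_i`, `y.1 ≠ κ` would have `κ π < y.1 π` for some `π` (KM), but
`y.1 ≤ κ`; so only `y = (κ, 0)` remains, `f_i(N(0)) = f_i(1) = 1`. So `z_i = coeff_κ(u_i)` satisfies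
`∑ z_i t_i = 0` for all `t ∈ T r` (`t_i = ∑_{j ≤ r} c_j σ_i^j`), and `∑_i z_i a_l(i) = coeff_κ(dt u (a l)) = 0`
(lemma `Z2_coeff_dt` of `Z2.lean`), so `z = 0`, contradicting `κ ∈ supp u_i`. So some
`uvJ f u k' ≠ 0`, the smallest such `k'` is `k₃` (`Nat.find`), and
`k₃ ≤ N(κ) ∏_{B ≤ r} P B ≤ 2^r N(up u)`. -/
def ZKF : Prop :=
  D10b → ∀ (d s : ℕ) (σ : Fin (d + 1) → ℕ) (f : Fin (d + 1) → ArithmeticFunction ℚ)
    (T : ℕ → Submodule ℚ (Fin (d + 1) → ℚ)), (∀ i, f i = ft s ^ σ i) →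
    (∀ r ≤ d, ∀ t ∈ T r, ∃ c : ℕ → ℚ, ∀ i, t i = ∑ j ∈ range (r + 1), c j * (σ i : ℚ) ^ j) →
    ZE d f T fun r => 2 ^ r

/-! ## Part L: assembly with an abstract zero estimate -/

/-- ZEA (EASY): the zero estimate of the first round. Z4J gives `k₃` and `q`. If `c r = 0` then
`k₃ ≤ N(up u)`. If `c r ≥ 1` then `k₃ pb q ≤ q^(c r + k) N(up u) ≤ 2^((c+k)(c+k+1)/2) pb q N(up u)` by PBJ
with `i = c r + k`, and `pb q > 0` cancels. -/
def ZEA : Prop :=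
  ∀ (k d : ℕ) (f : Fin (d + 1) → ArithmeticFunction ℚ) (T : ℕ → Submodule ℚ (Fin (d + 1) → ℚ))
    (c : ℕ → ℕ), ZL k d f T c →
    ZE d f T fun r => if c r = 0 then 1 else 2 ^ ((c r + k) * (c r + k + 1) / 2)

/-- CRK (EASY, copy of `CRJ.lean`, Z4J and `CRJ_main` replaced by `ZE`): the core. The only change:
`k₃ ≤ ζ r N(up u)` with `k₃ ≥ 1`, `N(up u) ≥ 1` gives `ζ r > 0` and `N(up u)/k₃ ≥ 1/ζ r`, so
`(N(up u)/k₃)^n H_n^r ≥ H_n^r / ζ(r)^n ≥ 1`. -/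
def CRK : Prop :=
  ∀ (d : ℕ) (f : Fin (d + 1) → ArithmeticFunction ℚ) (T : ℕ → Submodule ℚ (Fin (d + 1) → ℚ))
    (ζ : ℕ → ℝ), (∀ i, PG (f i)) → (∀ r ≤ d, Module.finrank ℚ (T r) = r + 1) → ZE d f T ζ →
    ∀ (𝒰 : Ultrafilter ℕ) (x : ℕ → Fin (d + 1) → ℤ) (H : ℕ → ℝ) (B ε : ℝ),
    (𝒰 : Filter ℕ) ≤ atTop → 0 < ε →
    (∀ᶠ n : ℕ in (𝒰 : Filter ℕ), x n ≠ 0 ∧ (∀ i, |(x n i : ℝ)| ≤ H n) ∧
      (∀ r ≤ d, ζ r ^ n ≤ H n ^ r) ∧ H n ≤ B ^ n) →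
    ∀ᶠ n : ℕ in (𝒰 : Filter ℕ),
      Real.exp (-(ε * n)) * (H n ^ d)⁻¹ ≤ |∑ i, (x n i : ℝ) * val (f i) n|

/-- MRK (EASY, copy of `MRJ.lean`): the real form, from CRK. -/
def MRK : Prop :=
  ∀ (d : ℕ) (f : Fin (d + 1) → ArithmeticFunction ℚ) (T : ℕ → Submodule ℚ (Fin (d + 1) → ℚ))
    (ζ : ℕ → ℝ), (∀ i, PG (f i)) → (∀ r ≤ d, Module.finrank ℚ (T r) = r + 1) → ZE d f T ζ →
    ∀ (B ε : ℝ), 0 < ε → ∃ M : ℕ, ∀ n ≥ M, ∀ (x : Fin (d + 1) → ℤ) (H : ℝ), x ≠ 0 →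
    (∀ i, |(x i : ℝ)| ≤ H) → (∀ r ≤ d, ζ r ^ n ≤ H ^ r) → H ≤ B ^ n →
    Real.exp (-(ε * n)) * (H ^ d)⁻¹ ≤ |∑ i, (x i : ℝ) * val (f i) n|

/-- T0K (EASY-MEDIUM): the case `k = 0` is of the form ZKF: `fI s A i = ft (s 0) ^ (A i 0)` (product over
`Fin 1`), so `σ i = A i 0 = wt (A i)`. For `l ≤ r ≤ d` we have `wt (A l) ≤ cJ A r` (monotone) and
`cJ A r ≤ r`: by NUJ `nu 0 D (cJ A r) ≤ r` and `cJ A r ≤ D`, and `nu 0 D c = c` for `c ≤ D` (the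
functions `Fin 1 → Fin (D + 1)` with value `< c`). So `bi (A l) (A i) = C(σ_i, l')` with
`l' = A l 0 ≤ r`, a polynomial of degree `l' ≤ r` in `σ_i` (e.g. `C(x, l') = x(x-1)..(x-l'+1)/l'!`,
`Nat.descFactorial`/`descPochhammer`, `Nat.cast_choose_eq_ascPochhammer_div`; or by induction on `l'`:
`(l'+1) C(x, l'+1) = (x - l') C(x, l')`). The vectors of this form are a submodule
(`Submodule.span_induction`: sums and multiples of polynomials of degree `≤ r`). -/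
def T0K : Prop :=
  ∀ (D d : ℕ) (s : Fin 1 → ℕ) (A : Fin (d + 1) ≃ (Fin 1 → Fin (D + 1))),
    (Monotone fun i => wt (A i)) →
    (∀ i, fI (k := 0) s A i = ft (s 0) ^ (A i 0 : ℕ)) ∧
    ∀ r ≤ d, ∀ t ∈ TJ (k := 0) A r, ∃ c : ℕ → ℚ, ∀ i,
      t i = ∑ j ∈ range (r + 1), c j * ((A i 0 : ℕ) : ℚ) ^ j

/-- THK (EASY-MEDIUM, from ZKF, T0K, ZEA, LBJ, NUJ, N1J): zero estimate and threshold, uniformly in
`k`. `k = 0`: `ζ r = 2^r`, `(2^r)^n = (2^n)^r ≤ H^r`, `(0+1)(0+2)/2 = 1`. `k ≥ 1`: ZEA with `c = cJ A`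
(LBJ): if `c r = 0` then `ζ r = 1 ≤ H^r`; if `c = c r ≥ 1` then `c ≤ (k+1) D` and `nu k D c ≤ r` (NUJ), and by
N1J `(c+k)(c+k+1) ≤ (k+1)(k+2) nu k D c ≤ (k+1)(k+2) r`, so `(c+k)(c+k+1)/2 ≤ ((k+1)(k+2)/2) r`
(`(k+1)(k+2)` is even), so `ζ(r)^n ≤ (2^((k+1)(k+2)/2 * n))^r ≤ H^r`. -/
def THK : Prop :=
  D10b → ∀ (k D d : ℕ) (s : Fin (k + 1) → ℕ) (A : Fin (d + 1) ≃ (Fin (k + 1) → Fin (D + 1))),
    Function.Injective s → (Monotone fun i => wt (A i)) →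
    ∃ ζ : ℕ → ℝ, ZE d (fI s A) (TJ A) ζ ∧ ∀ (n : ℕ) (H : ℝ),
      2 ^ ((k + 1) * (k + 2) / 2 * n) ≤ H → ∀ r ≤ d, ζ r ^ n ≤ H ^ r

/-- MTK (EASY, copy of `MTJ.lean`): THEOREM WJ, final form, from ORJ, DIJ, VLJ, PLJ, MRK, THK. -/
def MTK : Prop :=
  ∀ (k D : ℕ) (s : Fin (k + 1) → ℕ) (B ε : ℝ), Function.Injective s → 0 < ε →
    ∃ M : ℕ, ∀ n ≥ M, ∀ (P : MvPolynomial (Fin (k + 1)) ℤ) (H : ℝ), P ≠ 0 →
      (∀ j, P.degreeOf j ≤ D) → (∀ I, |((P.coeff I : ℤ) : ℝ)| ≤ H) →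
      2 ^ ((k + 1) * (k + 2) / 2 * n) ≤ H → H ≤ B ^ n →
      Real.exp (-(ε * n)) * (H ^ ((D + 1) ^ (k + 1) - 1))⁻¹ ≤
        ‖MvPolynomial.aeval (fun j => riemannZeta (2 * ((n + s j : ℕ) : ℂ)) /
          riemannZeta ((n + s j : ℕ) : ℂ) ^ 2) P‖

end Pool.Agent.Work.MP_f1a024_nt.RW
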