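import Pool.Agent.Work.MP_f1a024_nt.RW.StmtsK

/-!
# Block WS: statements (sharp threshold and sharp exponent for polynomials of bounded total degree)

THEOREM WS. Let `t(n) = ζ(2n)/ζ(n)^2`, `s_0, .., s_k` different integers `≥ 0`, `k, D ≥ 0`,
`N = C(D + k + 1, k + 1)`. For every `B`, `ε > 0` and all large `n`, all `H` with `2^n ≤ H ≤ B^n` and all
nonzero `P ∈ ℤ[X_0, .., X_k]` of total degree at most `D` with coefficients at most `H`,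
`|P(t(n + s_0), .., t(n + s_k))| ≥ e^(-εn) H^(-(N-1))`. Both the exponent and the threshold `2^n` are
optimal for all `k`, `D ≥ 1`: for all `H ≥ 1` there is such a `P` with
`|P(..)| ≤ C H^(-(N-1)) min(1, H/2^n)`.

`k = 0` is MTK. For `k ≥ 1`: the flags now depend on `k + 1` primes `q_0 < .. < q_k`. `SX k D` is the set of
the exponents of weight `≤ D`; `A` numbers them such that `phi (A i) ≤ i`,
`phi α = |α|(|α|+1)/2 + ∑_j j α_j`.

Every item may assume the items it quotes, as hypotheses (`theorem prfFRS (h : LLS) : FRS`), also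
items of `RW/Stmts.lean`, `RW/StmtsJ.lean`, `RW/StmtsK.lean` (NB, UB, LBJ, Z2J, PBJ, ...). Please put the
name of your item in the names of all auxiliary lemmas (they are all in the same namespace).
-/

namespace Pool.Agent.Work.MP_f1a024_nt.RW

open Finset MvPolynomial Filter
open Pool.Agent.Work.MP_f1a024_nt.AH (tau PG val D1 D2 D4 D10a D10b)

/-- the zero estimate `k₃ ≤ ζ(r) N(up u)` for a family `f` and several flags `T j` -/
def ZF (d : ℕ) (f : Fin (d + 1) → ArithmeticFunction ℚ) (ι : Type)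
    (T : ι → ℕ → Submodule ℚ (Fin (d + 1) → ℚ)) (ζ : ℕ → ℝ) : Prop :=
  ∀ (r m : ℕ) (u : Fin (d + 1) → Rg) (a : Fin m → Fin (d + 1) → ℤ), r ≤ d → (∃ i, u i ≠ 0) →
    (∀ (j : ι) (z : Fin (d + 1) → ℚ), (∀ t ∈ T j r, ∑ i, z i * t i = 0) →
      (∀ l, ∑ i, z i * (a l i : ℚ) = 0) → z = 0) →
    (∀ l, dt u (a l) = 0) →
    ∃ k₃ : ℕ, uvJ f u k₃ ≠ 0 ∧ (∀ k' < k₃, uvJ f u k' = 0) ∧ (k₃ : ℝ) ≤ ζ r * nn (up u)

/-- the exponents of weight at most `D` -/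
abbrev SX (k D : ℕ) : Type := {α : Fin (k + 1) → Fin (D + 1) // wt α ≤ D}

/-- `|α|(|α|+1)/2 + ∑_j j α_j` -/
def phi {k D : ℕ} (α : Fin (k + 1) → Fin (D + 1)) : ℕ :=
  wt α * (wt α + 1) / 2 + ∑ j : Fin (k + 1), (j : ℕ) * (α j : ℕ)

/-- the family of the products `∏_j (f_{s_j}) ^ {α_j}`, `|α| ≤ D` -/
noncomputable def fS {k D d : ℕ} (s : Fin (k + 1) → ℕ) (A : Fin (d + 1) ≃ SX k D)
    (i : Fin (d + 1)) : ArithmeticFunction ℚ :=
  ∏ j, ft (s j) ^ ((A i).1 j : ℕ)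

/-- the flag of the primes `q_0, .., q_k`: the span of the vectors `(f_i(∏_j q_j^((A l)_j)))_i`,
`l ≤ r` -/
def TS {k D d : ℕ} (s : Fin (k + 1) → ℕ) (A : Fin (d + 1) ≃ SX k D) (q : Fin (k + 1) → ℕ)
    (r : ℕ) : Submodule ℚ (Fin (d + 1) → ℚ) :=
  Submodule.span ℚ {t | ∃ l : Fin (d + 1), (l : ℕ) ≤ r ∧
    t = fun i => fS s A i (∏ j, q j ^ ((A l).1 j : ℕ))}

/-- the tuples of `k + 1` primes `q_0 < .. < q_k < Q` -/
abbrev QT (k Q : ℕ) : Type :=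
  {q : Fin (k + 1) → Fin Q // StrictMono q ∧ ∀ j, ((q j : ℕ)).Prime}

/-- the product of the primes below `q_k` different from all `q_j` -/
def ga (k : ℕ) (q : Fin (k + 1) → ℕ) : ℕ :=
  ∏ p ∈ (range (q (Fin.last k))).filter (fun p => p.Prime ∧ ∀ j, q j ≠ p), p

/-! ## Part M: several flags -/

/-- P1F (EASY-MEDIUM, copy of `P1.lean`): choice of the vectors `a_l` for finitely many flags. As in P1:
by induction on `j ≤ m` there are integer vectors `a_1, .., a_j` with (i) `∑ c_l a_l ∈ V`, `c ∈ F^j`,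
implies `c = 0` and (ii) for every `j' : ι`, `∑ c_l a_l ∈ T j' r`, `c ∈ ℚ^j`, implies `c = 0`. Step: AVD for the
finite family of the proper subspaces `P1_rat (V + span_F(a))` and `T j' r + span_ℚ(a)`, `j' : ι` (AVD is
for families indexed by `Fin n`; use `Fintype.equivFin (Option ι)`). At the end, for each `j'` the last part
of the proof of `prfP1`. The lemmas `P1_step`, `P1_dim`, `P1_rat_ne_top`, `P1_sum` can be cited. -/
def P1F : Prop :=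
  ∀ (F : Type) [Field F] [CharZero F] (d : ℕ) (V : Submodule F (Fin (d + 1) → F)) (ι : Type)
    [Fintype ι] (T : ι → ℕ → Submodule ℚ (Fin (d + 1) → ℚ)), V ≠ ⊤ →
    (∀ j, ∀ r ≤ d, Module.finrank ℚ (T j r) = r + 1) →
    ∃ (m r : ℕ) (a : Fin m → Fin (d + 1) → ℤ), m + r = d ∧ r = Module.finrank F V ∧
      (∀ c : Fin m → F, (fun i => ∑ l, c l * ((a l i : ℤ) : F)) ∈ V → c = 0) ∧
      ∀ (j : ι) (z : Fin (d + 1) → ℚ), (∀ t ∈ T j r, ∑ i, z i * t i = 0) →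
        (∀ l, ∑ i, z i * ((a l i : ℤ) : ℚ) = 0) → z = 0

/-- P6F (EASY, copy of `P6J.lean`): the same proof with P1F in place of P1; the last property of P1F
for all `j` gives `hspan` for `T j₀` and the last property. -/
def P6F : Prop :=
  ∀ (d : ℕ) (ι : Type) [Fintype ι] (T : ι → ℕ → Submodule ℚ (Fin (d + 1) → ℚ)) (j₀ : ι)
    (W : Submodule Rg (Fin (d + 1) → Rg)),
    (∀ j, ∀ r ≤ d, Module.finrank ℚ (T j r) = r + 1) → W ≠ ⊤ →
    (∀ (t : Rg) (c : Fin (d + 1) → Rg), t ≠ 0 → t • c ∈ W → c ∈ W) →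
    ∃ D : PDJ d (T j₀) W, ∀ (j : ι) (z : Fin (d + 1) → ℚ), (∀ t ∈ T j D.r, ∑ i, z i * t i = 0) →
      (∀ l : Fin D.m, ∑ i, z i * (D.y l.succ.succ i : ℚ) = 0) → z = 0

/-- CRF (EASY, copy of `CRK.lean`): the core. P6F (for any `j₀ : ι`) gives `D : PDJ d (T j₀) W` and the
spanning property for all `j`, which is the hypothesis of `ZF`. Everything else is unchanged. -/
def CRF : Prop :=
  ∀ (d : ℕ) (f : Fin (d + 1) → ArithmeticFunction ℚ) (ι : Type) [Fintype ι] [Nonempty ι]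
    (T : ι → ℕ → Submodule ℚ (Fin (d + 1) → ℚ))
    (ζ : ℕ → ℝ), (∀ i, PG (f i)) → (∀ j, ∀ r ≤ d, Module.finrank ℚ (T j r) = r + 1) →
    ZF d f ι T ζ →
    ∀ (𝒰 : Ultrafilter ℕ) (x : ℕ → Fin (d + 1) → ℤ) (H : ℕ → ℝ) (B ε : ℝ),
    (𝒰 : Filter ℕ) ≤ atTop → 0 < ε →
    (∀ᶠ n : ℕ in (𝒰 : Filter ℕ), x n ≠ 0 ∧ (∀ i, |(x n i : ℝ)| ≤ H n) ∧
      (∀ r ≤ d, ζ r ^ n ≤ H n ^ r) ∧ H n ≤ B ^ n) →
    ∀ᶠ n : ℕ in (𝒰 : Filter ℕ),
      Real.exp (-(ε * n)) * (H n ^ d)⁻¹ ≤ |∑ i, (x n i : ℝ) * val (f i) n|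

/-- MRF (EASY, copy of `MRK.lean`): the real form, from CRF. -/
def MRF : Prop :=
  ∀ (d : ℕ) (f : Fin (d + 1) → ArithmeticFunction ℚ) (ι : Type) [Fintype ι] [Nonempty ι]
    (T : ι → ℕ → Submodule ℚ (Fin (d + 1) → ℚ))
    (ζ : ℕ → ℝ), (∀ i, PG (f i)) → (∀ j, ∀ r ≤ d, Module.finrank ℚ (T j r) = r + 1) →
    ZF d f ι T ζ →
    ∀ (B ε : ℝ), 0 < ε → ∃ M : ℕ, ∀ n ≥ M, ∀ (x : Fin (d + 1) → ℤ) (H : ℝ), x ≠ 0 →
    (∀ i, |(x i : ℝ)| ≤ H) → (∀ r ≤ d, ζ r ^ n ≤ H ^ r) → H ≤ B ^ n →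
    Real.exp (-(ε * n)) * (H ^ d)⁻¹ ≤ |∑ i, (x i : ℝ) * val (f i) n|

/-! ## Part B: numbers -/

/-- GML (MEDIUM): a Bertrand inequality. Strong induction on `X`. Write `c = #I`,
`n(y) = #{q ∈ Q : q < y}`, `A(X)` for the last product (all factors are `≥ 1`, and it increases with
`X`). If `X ≤ 2`: `∏ x_i ≤ 2^c ≤ 2^(c(c+1)/2)`. Let `X ≥ 3`, `p` the largest prime `< X`
(`Nat.findGreatest Nat.Prime (X - 1)`). By Bertrand (`Nat.exists_prime_lt_and_le_two_mul`) there is a prime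
in `(p, 2p]`, which is `≥ X`: so `X ≤ 2p`. Put `y_i = min(x_i, p)`; so `x_i ≤ 2 y_i` for all `i ∈ I`.
(a) `p ∈ Q`. Then `x_i 2^(n(y_i)) ≤ y_i 2^(n(x_i))`: clear if `x_i ≤ p`; if `x_i > p` then `y_i = p`,
`x_i ≤ 2p` and `n(x_i) ≥ n(p) + 1` because `p ∈ Q`. The product over `i` and the induction hypothesis for
`p`, `y`: `∏ x_i 2^(∑ n(y_i)) ≤ 2^(∑ n(x_i)) ∏ y_i ≤ 2^(∑ n(x_i)) 2^(c(c+1)/2 + ∑ n(y_i)) A(p)`; cancel
`2^(∑ n(y_i))`, `A(p) ≤ A(X)`.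
(b) `p ∉ Q`. If `x_i ≤ p` for all `i ∈ I`, the induction hypothesis for `p`, `x`. Otherwise take `i₁ ∈ I` with
`p < x_{i₁}` and `I' = I \ {i₁}`: by the induction hypothesis for `p`, `y` on `I'`
`∏_I x_i ≤ 2p 2^(c-1) ∏_{I'} y_i ≤ 2^c p 2^((c-1)c/2 + ∑_{I'} n(y_i)) A(p)`, and `c + (c-1)c/2 = c(c+1)/2`,
`n(y_i) ≤ n(x_i)`, `p A(p) ≤ A(X)` as `p < X` is a prime not in `Q`. -/
def GML : Prop :=
  ∀ (Q : Finset ℕ) (X : ℕ) (ι : Type) (I : Finset ι) (x : ι → ℕ), (∀ i ∈ I, x i ≤ X) →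
    ∏ i ∈ I, x i ≤ 2 ^ (I.card * (I.card + 1) / 2 + ∑ i ∈ I, (Q.filter (· < x i)).card) *
      ∏ p ∈ (range X).filter (fun p => p.Prime ∧ p ∉ Q), p

/-- GMC (EASY-MEDIUM, from GML): `Q = {q_0, .., q_k}` (`univ.image q`), `X = q_k`,
`I = univ : Finset (Σ j : Fin (k + 1), Fin (e j))`, `x ⟨j, _⟩ = q_j`. Then `∏_I x = ∏ q_j^(e_j)`,
`#I = ∑ e_j`, and `#{q ∈ Q : q < q_j} = j` (the `q_j` are increasing: it is the image of `Iio j`). -/
def GMC : Prop :=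
  ∀ (k : ℕ) (q e : Fin (k + 1) → ℕ), StrictMono q →
    ∏ j, q j ^ e j ≤
      2 ^ ((∑ j, e j) * ((∑ j, e j) + 1) / 2 + ∑ j : Fin (k + 1), (j : ℕ) * e j) * ga k q

/-- PQS (EASY-MEDIUM): for large `q_k` there is much room. Let `q = q_k`. PBJ with `i = D + k + 1`:
`q^(D+k+1) ≤ 2^((D+k+1)(D+k+2)/2) pb q ≤ q pb q`, so `q^(D+k) ≤ pb q`. The primes below `q` are `q_0, .., q_{k-1}`
(at most: `q_j` for `j ≠ Fin.last k`) and those counted in `ga k q`; so `pb q ≤ q^k ga`. Cancel `q^k`. -/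
def PQS : Prop :=
  ∀ (k D : ℕ) (q : Fin (k + 1) → ℕ), StrictMono q → (∀ j, (q j).Prime) →
    2 ^ ((D + k + 1) * (D + k + 2) / 2) ≤ q (Fin.last k) → q (Fin.last k) ^ D ≤ ga k q

/-- KQS (MEDIUM): the `k + 1` smallest primes with `U p = κ p`. Let `G` be the set of the numbers `p` such
that `p` is prime and `U p = κ p`. It is infinite (outside the support of `U` both are `0`). Put
`q_j = Nat.nth (· ∈ G) j` (`Nat.nth_strictMono`, `Nat.nth_mem_of_infinite`). If `p < q_k` is a prime different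
from all `q_j` then `p ∉ G` (otherwise `p = nth (count p)` with `count p ≤ k`: `Nat.nth_count`,
`Nat.lt_nth_iff_count_lt`), so `U p ≥ κ p + 1`. So `κ + ∑_p single p 1 ≤ U`, the sum over these primes, and
`N(κ) ∏ p` divides `N(U)` (NB; `Z4J_nn_sum`, `Z4J_sum_single`; model: the end of `Z4J.lean`). -/
def KQS : Prop :=
  ∀ (k : ℕ) (κ U : Ex), κ ≤ U → ∃ q : Fin (k + 1) → Nat.Primes,
    (StrictMono fun j => (q j : ℕ)) ∧ (∀ j, U (q j) = κ (q j)) ∧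
      nn κ * ga k (fun j => (q j : ℕ)) ≤ nn U

/-! ## Part O: the order of the exponents -/

/-- PHD (EASY-MEDIUM): `phi` can be lowered by one. Let `phi α ≠ 0`, so `wt α ≠ 0`. If `α_l ≠ 0` for
some `l ≥ 1`, move one unit from `l` to `l - 1`: the weight is the same, `∑ j α_j` goes down by one
(the coordinates stay `≤ D` because the weight is `≤ D`). Otherwise `α = (c, 0, .., 0)`, `c ≥ 1`, `phi α = c(c+1)/2`,
and `β = (0, c - 1, 0, .., 0)` (`k ≥ 1`) has `phi β = (c-1)c/2 + (c-1) = c(c+1)/2 - 1`. -/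
def PHD : Prop :=
  ∀ k D : ℕ, 1 ≤ k → ∀ α : SX k D, phi α.1 ≠ 0 → ∃ β : SX k D, phi β.1 + 1 = phi α.1

/-- SRT (EASY-MEDIUM, from PHD): the numbering. Sort by `phi` (as in `ORJ.lean`, `Tuple.sort`). Suppose
`i < phi (A i) = v`. By PHD every `w ≤ v` is a value `phi β_w`. For `w ≤ i` the position `l` of `β_w`
satisfies `l < i` (`i ≤ l` would give `v ≤ w ≤ i`). So `i + 1` different exponents have positions `< i`, a
contradiction. -/
def SRT : Prop :=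
  ∀ k D d : ℕ, 1 ≤ k → Fintype.card (SX k D) = d + 1 →
    ∃ A : Fin (d + 1) ≃ SX k D, ∀ i, phi (A i).1 ≤ i

/-- CDS (EASY-MEDIUM): the number of the exponents. For example: `SX k D` is in bijection with
`Finset.piAntidiag (univ : Finset (Fin (k + 2))) D` (add the coordinate `D - wt α`), or with
`Sym (Fin (k + 2)) D` (`Sym.card_sym_eq_choose`, `Nat.choose_symm_diff`), or count with the
stars and bars lemmas of Mathlib; or prove by induction on `k`: fix the last coordinate `b`,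
`∑_{b ≤ D} C(D - b + k, k) = C(D + k + 1, k + 1)` (`Nat.sum_range_choose` / hockey stick
`Nat.sum_Icc_choose`, `Finset.sum_range_choose...`). -/
def CDS : Prop := ∀ k D : ℕ, Fintype.card (SX k D) = (D + k + 1).choose (k + 1)

/-! ## Part Z: the zero estimate -/

/-- LLS (MEDIUM, from LBJ, ORJ): the local lemma for the simplex. Let `A'` be as in ORJ for the box
(`d' = (D+1)^(k+1) - 1`), and `z' i' = z (A.symm α)` if `α = A' i'` has weight `≤ D`, `0` otherwise. Then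
`∑ z'_{i'} fI s A' i' (m) = ∑ z_i fS s A i (m)` for all `m`. Let `α : SX k D`, `r = A'.symm α`, so
`cJ A' r = wt α ≤ D`; by LBJ (its condition holds, `∑ e ≤ wt α ≤ D`) `z'` is orthogonal to
`(bi α (A' i'))_{i'} ∈ TJ A' r`, that is `∑_i z_i bi α (A i) = 0` (*). Suppose `z ≠ 0`; let `i₀` be such that
`z i₀ ≠ 0` and `wt (A i₀)` is largest. Take (*) for `α = A i₀`: a term `z_i bi α (A i) ≠ 0` has
`α_j ≤ (A i)_j` for all `j`, so `wt α ≤ wt (A i) ≤ wt α`, so `A i = α`. So `0 = z_{i₀} bi α α = z_{i₀}`. -/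
def LLS : Prop :=
  D10b → ∀ (k D d : ℕ) (s : Fin (k + 1) → ℕ) (A : Fin (d + 1) ≃ SX k D), Function.Injective s →
    ∀ q : Fin (k + 1) → ℕ, Function.Injective q → (∀ j, (q j).Prime) → ∀ z : Fin (d + 1) → ℚ,
      (∀ e : Fin (k + 1) → ℕ, ∑ j, e j ≤ D → ∑ i, z i * fS s A i (∏ j, q j ^ e j) = 0) → z = 0

/-- FRS (EASY-MEDIUM, from LLS): the dimension of the flag. The square matrix
`M l i = fS s A i (∏ q_j^((A l)_j))` satisfies `M z = 0 ⟹ z = 0` (LLS: every `e` with `∑ e ≤ D` is `(A l)` for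
some `l`). So it is invertible and its rows are linearly independent
(`Matrix.mulVec_injective_iff_isUnit`, `Matrix.linearIndependent_rows_iff_isUnit`), in particular
the rows with `l ≤ r`, which span `TS s A q r` (`finrank_span_eq_card`; model `DIJ.lean`). -/
def FRS : Prop :=
  D10b → ∀ (k D d : ℕ) (s : Fin (k + 1) → ℕ) (A : Fin (d + 1) ≃ SX k D), Function.Injective s →
    ∀ q : Fin (k + 1) → ℕ, Function.Injective q → (∀ j, (q j).Prime) →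
      ∀ r ≤ d, Module.finrank ℚ (TS s A q r) = r + 1

/-- ZSF (MEDIUM, from NB, UB, Z2J, LLS, GMC, PQS, KQS): THE ZERO ESTIMATE. Let `κ` be an exponent of
smallest `nn` in the union of the supports of the `u_i` (as in `Z4J.lean`), `κ ≤ up u` (UB), and
`q_0 < .. < q_k` as in KQS for `U = up u`. `z_i = coeff_κ(u_i)` is not zero, and
`∑_i z_i a_l(i) = coeff_κ(dt u (a l)) = 0` (`Z2_coeff_dt`). By Z2J
`uvJ f u (N(κ) ∏ q_j^(e_j)) = ∑_i z_i f_i(∏ q_j^(e_j))` for all `e` (*).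
Case `q_k < Q`: the `q_j` are an element of `QT k Q`, and by the spanning hypothesis `z` is not
orthogonal to `TS s A q r`; so (span) there is `l ≤ r` with `∑_i z_i f_i(∏ q_j^((A l)_j)) ≠ 0`. So by (*) there is
a smallest `k₃` with `uvJ f u k₃ ≠ 0` (`Nat.find`), and by GMC, `phi (A l) ≤ l ≤ r` and KQS
`k₃ ≤ N(κ) ∏ q_j^((A l)_j) ≤ N(κ) 2^(phi (A l)) ga ≤ 2^r N(up u)`.
Case `q_k ≥ Q`: by LLS and (*) there is `e` with `∑ e ≤ D` and `uvJ f u (N(κ) ∏ q_j^(e_j)) ≠ 0`, so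
`k₃ ≤ N(κ) ∏ q_j^(e_j) ≤ N(κ) q_k^D ≤ N(κ) ga ≤ N(up u)` by PQS and KQS. -/
def ZSF : Prop :=
  D10b → ∀ (k D d Q : ℕ) (s : Fin (k + 1) → ℕ) (A : Fin (d + 1) ≃ SX k D),
    Function.Injective s → (∀ i, phi (A i).1 ≤ i) → 2 ^ ((D + k + 1) * (D + k + 2) / 2) ≤ Q →
    ZF d (fS s A) (QT k Q) (fun j => TS s A fun i => (j.1 i : ℕ)) fun r => 2 ^ r

/-! ## Part E: the end -/

/-- VLS (EASY, copy of `VLJ.lean`; its lemmas `VLJ_prod`, `VLJ_pow`, `VLJ_pg_ft`, `VLJ_val_ft` can be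
cited): values of the family. -/
def VLS : Prop :=
  D1 → D2 → D10a → ∀ (k D d : ℕ) (s : Fin (k + 1) → ℕ) (A : Fin (d + 1) ≃ SX k D),
    (∀ i, PG (fS s A i)) ∧ ∃ M : ℕ, ∀ n ≥ M, ∀ i, ((val (fS s A i) n : ℝ) : ℂ) =
      ∏ j, (riemannZeta (2 * ((n + s j : ℕ) : ℂ)) / riemannZeta ((n + s j : ℕ) : ℂ) ^ 2) ^
        ((A i).1 j : ℕ)

/-- PLS (EASY-MEDIUM, copy of `PLJ.lean`): polynomials as sums over the simplex. If `P.totalDegree ≤ D`
every exponent `b` in the support satisfies `∑ b_j ≤ D` (`MvPolynomial.le_totalDegree`), so it is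
`(A i)` for some `i`. -/
def PLS : Prop :=
  ∀ (k D d : ℕ) (A : Fin (d + 1) ≃ SX k D) (P : MvPolynomial (Fin (k + 1)) ℤ),
    P.totalDegree ≤ D →
    (P ≠ 0 → (fun i => P.coeff (Finsupp.equivFunOnFinite.symm fun j => ((A i).1 j : ℕ))) ≠ 0) ∧
    ∀ t : Fin (k + 1) → ℂ, MvPolynomial.aeval t P =
      ∑ i, ((P.coeff (Finsupp.equivFunOnFinite.symm fun j => ((A i).1 j : ℕ)) : ℤ) : ℂ) *
        ∏ j, t j ^ ((A i).1 j : ℕ)

/-- MTS (EASY-MEDIUM, model `MTK.lean`, from MTK, CDS, SRT, FRS, ZSF, VLS, PLS, MRF): THEOREM WS. `k = 0`: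
MTK (`P.degreeOf j ≤ P.totalDegree`: `MvPolynomial.degreeOf_le_totalDegree`;
`(D + 1)^(0 + 1) - 1 = D = C(D + 1, 1) - 1`; `(0+1)(0+2)/2 = 1`). `k ≥ 1`: `d + 1 = C(D+k+1, k+1)` (positive), `A`
from SRT (CDS), `Q = 2^((D+k+1)(D+k+2)/2) + Nat.nth Nat.Prime k + 1`, so `QT k Q` is not empty
(`q_j = Nat.nth Nat.Prime j`); MRF for `f = fS s A`, `ι = QT k Q`, `T = fun j => TS s A fun i => (j.1 i : ℕ)`,
`ζ r = 2^r`: FRS, ZSF; `(2^r)^n = (2^n)^r ≤ H^r`. -/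
def MTS : Prop :=
  ∀ (k D : ℕ) (s : Fin (k + 1) → ℕ) (B ε : ℝ), Function.Injective s → 0 < ε →
    ∃ M : ℕ, ∀ n ≥ M, ∀ (P : MvPolynomial (Fin (k + 1)) ℤ) (H : ℝ), P ≠ 0 →
      P.totalDegree ≤ D → (∀ I, |((P.coeff I : ℤ) : ℝ)| ≤ H) → 2 ^ n ≤ H → H ≤ B ^ n →
      Real.exp (-(ε * n)) * (H ^ ((D + k + 1).choose (k + 1) - 1))⁻¹ ≤
        ‖MvPolynomial.aeval (fun j => riemannZeta (2 * ((n + s j : ℕ) : ℂ)) /
          riemannZeta ((n + s j : ℕ) : ℂ) ^ 2) P‖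

/-! ## Part U: both parameters are optimal -/

/-- SIG (MEDIUM): Dirichlet's pigeonhole. Let `h = ⌊H⌋ ≥ 1`, `δ = 2 (M+1) Y / (h+1)^M`. If `Y = 0` all
`y i = 0`: take `x = (1, 0, ..)`. Let `Y > 0`. For `v ∈ {0..h}^(M+1)` let `F(v) = ∑ v_i y_i`; all `F(v)` are in
`[-(M+1) h Y, (M+1) h Y]`, so `G(v) = ⌊(F(v) + (M+1) h Y)/δ⌋` is an integer in `[0, h (h+1)^M]`, and there are
`(h+1)^(M+1) = h (h+1)^M + (h+1)^M` vectors, at least one more than `h (h+1)^M`. To have fewer values than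
vectors: the number of values is at most `h (h+1)^M + 1 ≤ (h+1)^(M+1)`, with equality only for `M = 0`
(then `x = (1)` satisfies the claim: `|y 0| ≤ Y`). For `M ≥ 1`: `(h+1)^M ≥ 2`, so
`h (h+1)^M + 1 < (h+1)^(M+1)` and two different `v, v'` have `G(v) = G(v')` (pigeonhole,
`Finset.exists_ne_map_eq_of_card_lt_of_maps_to`), so `|F(v) - F(v')| ≤ δ ≤ 2 (M+1) Y / H^M` as `h + 1 > H`; take
`x = v - v'`. -/
def SIG : Prop :=
  ∀ (M : ℕ) (y : Fin (M + 1) → ℝ) (Y H : ℝ), (∀ i, |y i| ≤ Y) → 1 ≤ H →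
    ∃ x : Fin (M + 1) → ℤ, x ≠ 0 ∧ (∀ i, |(x i : ℝ)| ≤ H) ∧
      |∑ i, (x i : ℝ) * y i| ≤ 2 * (M + 1) * Y * (H ^ M)⁻¹

/-- NRS (EASY-MEDIUM, from `OPK_near` of `OPK.lean` and D10a): the values are real (`= val tau (n + s_j)`, D10a) and
near `1`. For `I : SX k D` the product `∏_j t_j^(I_j)` of real numbers with `|t_j - 1| ≤ C 2^(-n) ≤ C`
satisfies `|∏ - 1| ≤ C' 2^(-n)` (induction on the number of factors: `|ab - 1| ≤ |a - 1| |b| + |b - 1|`). -/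
def NRS : Prop :=
  D4 → D10a → D10b → ∀ (k D : ℕ) (s : Fin (k + 1) → ℕ), ∃ (C : ℝ) (M : ℕ), 0 < C ∧ ∀ n ≥ M,
    ∃ t : Fin (k + 1) → ℝ, (∀ j, ((t j : ℝ) : ℂ) = riemannZeta (2 * ((n + s j : ℕ) : ℂ)) /
        riemannZeta ((n + s j : ℕ) : ℂ) ^ 2) ∧
      ∀ I : SX k D, |∏ j, t j ^ (I.1 j : ℕ) - 1| ≤ C * (1 / 2 : ℝ) ^ n

/-- OPS (MEDIUM, from SIG, NRS, CDS, PLS): both parameters are optimal. Let `N = #(SX k D) ≥ 2` (`D ≥ 1`), `C` as
in NRS, `t` the values (real numbers), `m_I = ∏ t_j^(I_j)`, so `|m_I - 1| ≤ C 2^(-n)` and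
`|m_I| ≤ 1 + C`. (i) SIG with `M + 1 = N`, `y = (m_I)`, `Y = 1 + C`: a nonzero `P₁ = ∑ x_I X^I` with
`|P₁(t)| ≤ 2N(1+C) H^(-(N-1))`. (ii) if `H ≥ N`: SIG with `M + 1 = N - 1`, `y = (m_I - 1)_{I ≠ 0}`,
`Y = C 2^(-n)` and `H/N` in place of `H`: `P₂ = ∑_{I ≠ 0} x_I (X^I - 1)` has coefficients at most `H`
(the constant one is `-∑ x_I`), is not zero and `|P₂(t)| ≤ 2N C 2^(-n) N^N H^(-(N-2))`. If `H < N` take
`P₂ = X_0 - 1`: `|P₂(t)| ≤ C 2^(-n) ≤ C 2^(-n) N^N H^(-(N-2))`. So `P₁` or `P₂` satisfies the claim with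
`C' = 2N (1+C) N^N` (`P₁` if `2^n ≤ H`, `P₂` otherwise). -/
def OPS : Prop :=
  D4 → D10a → D10b → ∀ (k D : ℕ) (s : Fin (k + 1) → ℕ), 1 ≤ D → ∃ (C : ℝ) (M : ℕ), ∀ n ≥ M,
    ∀ H : ℝ, 1 ≤ H → ∃ P : MvPolynomial (Fin (k + 1)) ℤ, P ≠ 0 ∧ P.totalDegree ≤ D ∧
      (∀ I, |((P.coeff I : ℤ) : ℝ)| ≤ H) ∧
      ‖MvPolynomial.aeval (fun j => riemannZeta (2 * ((n + s j : ℕ) : ℂ)) /
          riemannZeta ((n + s j : ℕ) : ℂ) ^ 2) P‖ ≤
        C * (H ^ ((D + k + 1).choose (k + 1) - 1))⁻¹ * min 1 (H / 2 ^ n)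

end Pool.Agent.Work.MP_f1a024_nt.RW
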