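import Pool.Agent.Work.MP_f1a024_nt.RW.Stmts

/-!
# Block RW: item TX
-/

namespace Pool.Agent.Work.MP_f1a024_nt.RW

open Finset MvPolynomial

theorem TX_fin {ι : Type} [Fintype ι] (w : ι → Rg) (p : Nat.Primes) (k : ι)
    (h : ∃ β ∈ (w k).support, β p = up w p) :
    ∃ (k : ι) (α : Ex), α ∈ (w k).support ∧ α p = up w p ∧
      ∀ β ∈ (w k).support, β p = up w p → nn β ≤ nn α := by
  classical
  obtain ⟨β₀, hβ₀, hβ₁⟩ := h
  obtain ⟨α, hα, hmax⟩ := Finset.exists_max_image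
    ((w k).support.filter fun β => β p = up w p) nn ⟨β₀, Finset.mem_filter.2 ⟨hβ₀, hβ₁⟩⟩
  rw [Finset.mem_filter] at hα
  exact ⟨k, α, hα.1, hα.2, fun β hβ hβ' => hmax β (Finset.mem_filter.2 ⟨hβ, hβ'⟩)⟩

theorem prfTX (hUB : UB) : TX := by
  obtain ⟨-, -, -, h4, h5, h6, -⟩ := hUB
  intro ι _ w p k₀ hk₀
  have hne : Nonempty ι := ⟨k₀⟩
  obtain ⟨k₁, hk₁⟩ := h6 ι w p
  by_cases hw : w k₁ = 0
  · have h0 : up w p = 0 := by
      rw [hk₁, hw]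
      have e : up1 (0 : Rg) = 0 := by
        unfold up1
        rw [MvPolynomial.support_zero, Finset.sup_empty]
        rfl
      rw [e]
      rfl
    obtain ⟨β, hβ, hβp⟩ := h4 (w k₀) p hk₀
    refine TX_fin w p k₀ ⟨β, hβ, ?_⟩
    have h1 : up1 (w k₀) p ≤ up w p := h5 ι w k₀ p
    omega
  · obtain ⟨β, hβ, hβp⟩ := h4 (w k₁) p hw
    exact TX_fin w p k₁ ⟨β, hβ, by rw [hβp, hk₁]⟩

end Pool.Agent.Work.MP_f1a024_nt.RW
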