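import Pool.Agent.Work.MP_f1a024_nt.RW.Stmts

/-!
Block RW, item Z1a: the values of the powers of `tau` at prime powers.
-/

namespace Pool.Agent.Work.MP_f1a024_nt.RW

open Finset MvPolynomial Filter
open Pool.Agent.Work.MP_f1a024_nt.AH (tau PG val D1 D2 D4 D10a D10b)

theorem Z1a_mul (f g : ArithmeticFunction ℚ) {p : ℕ} (hp : p.Prime) (a : ℕ) :
    (f * g) (p ^ a) = ∑ x ∈ range (a + 1), f (p ^ x) * g (p ^ (a - x)) := by
  rw [ArithmeticFunction.mul_apply, Nat.sum_divisorsAntidiagonal (fun i j => f i * g j),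
    Nat.sum_divisors_prime_pow hp]
  refine Finset.sum_congr rfl fun x hx => ?_
  rw [Finset.mem_range] at hx
  rw [Nat.pow_div (by omega) hp.pos]

theorem Z1a_zero (f : ArithmeticFunction ℚ) (h1 : f 1 = 0) {p : ℕ} (hp : p.Prime) :
    ∀ l a : ℕ, a < l → (f ^ l) (p ^ a) = 0 := by
  intro l
  induction l with
  | zero =>
    intro a ha
    omega
  | succ l ih =>
    intro a ha
    rw [pow_succ', Z1a_mul f (f ^ l) hp]
    refine Finset.sum_eq_zero fun x hx => ?_
    rw [Finset.mem_range] at hx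
    rcases Nat.eq_zero_or_pos x with hx0 | hx0
    · rw [hx0, pow_zero, h1, zero_mul]
    · rw [ih (a - x) (by omega), mul_zero]

theorem Z1a_diag (f : ArithmeticFunction ℚ) (h1 : f 1 = 0) {p : ℕ} (hp : p.Prime) :
    ∀ l : ℕ, (f ^ l) (p ^ l) = f p ^ l := by
  intro l
  induction l with
  | zero =>
    rw [pow_zero, pow_zero, pow_zero]
    exact ArithmeticFunction.one_one
  | succ l ih =>
    rw [pow_succ' f l, Z1a_mul f (f ^ l) hp, Finset.sum_eq_single 1]
    · rw [pow_one, Nat.add_sub_cancel, ih, pow_succ' (f p)]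
    · intro x hx hx1
      rw [Finset.mem_range] at hx
      rcases Nat.eq_zero_or_pos x with hx0 | hx0
      · rw [hx0, pow_zero, h1, zero_mul]
      · rw [Z1a_zero f h1 hp l (l + 1 - x) (by omega), mul_zero]
    · intro h
      exact absurd (Finset.mem_range.2 (by omega)) h

/-- Evaluation at `n`, as an additive homomorphism. -/
def Z1a_ev (n : ℕ) : ArithmeticFunction ℚ →+ ℚ where
  toFun f := f n
  map_zero' := rfl
  map_add' _ _ := ArithmeticFunction.add_apply

theorem prfZ1a : Z1a := by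
  intro hD p hp a
  have h1 : (tau - 1) 1 = 0 := by
    have := hD.1.map_one
    show Z1a_ev 1 (tau - 1) = 0
    rw [map_sub]
    show tau 1 - (1 : ArithmeticFunction ℚ) 1 = 0
    rw [this, ArithmeticFunction.one_one, sub_self]
  have h2 : (tau - 1) p = -2 := by
    show Z1a_ev p (tau - 1) = -2
    rw [map_sub]
    show tau p - (1 : ArithmeticFunction ℚ) p = -2
    rw [hD.2 p hp, ArithmeticFunction.one_apply_ne hp.one_lt.ne', sub_zero]
  refine ⟨?_, ?_⟩
  · rw [Z1a_diag (tau - 1) h1 hp, h2]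
  · intro i
    have e : tau ^ i = ∑ l ∈ range (i + 1), (i.choose l) • (tau - 1) ^ l := by
      have e1 : tau = (tau - 1) + 1 := by ring
      conv_lhs => rw [e1]
      rw [add_pow]
      refine Finset.sum_congr rfl fun l _ => ?_
      rw [one_pow, mul_one, nsmul_eq_mul, mul_comm]
    have e2 : (tau ^ i) (p ^ a) =
        ∑ l ∈ range (i + 1), ((i.choose l : ℕ) : ℚ) * ((tau - 1) ^ l) (p ^ a) := by
      show Z1a_ev (p ^ a) (tau ^ i) = _
      rw [e, map_sum]
      refine Finset.sum_congr rfl fun l _ => ?_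
      rw [map_nsmul, nsmul_eq_mul]
      rfl
    rw [e2]
    have e3 : ∑ l ∈ range (i + 1), ((i.choose l : ℕ) : ℚ) * ((tau - 1) ^ l) (p ^ a) =
        ∑ l ∈ range (i + 1 + (a + 1)), ((i.choose l : ℕ) : ℚ) * ((tau - 1) ^ l) (p ^ a) := by
      refine Finset.sum_subset (Finset.range_subset_range.2 (by omega)) fun l _ hl => ?_
      rw [Finset.mem_range] at hl
      rw [Nat.choose_eq_zero_of_lt (by omega), Nat.cast_zero, zero_mul]
    have e4 : ∑ l ∈ range (a + 1), ((i.choose l : ℕ) : ℚ) * ((tau - 1) ^ l) (p ^ a) =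
        ∑ l ∈ range (i + 1 + (a + 1)), ((i.choose l : ℕ) : ℚ) * ((tau - 1) ^ l) (p ^ a) := by
      refine Finset.sum_subset (Finset.range_subset_range.2 (by omega)) fun l _ hl => ?_
      rw [Finset.mem_range] at hl
      rw [Z1a_zero (tau - 1) h1 hp l a (by omega), mul_zero]
    rw [e3, e4]

end Pool.Agent.Work.MP_f1a024_nt.RW
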