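import Pool.Agent.Work.MP_f1a024_nt.RW.Stmts2

/-! # Block RW, item Z4: the bound for `k₃` -/

set_option autoImplicit false

namespace Pool.Agent.Work.MP_f1a024_nt.RW

open Finset MvPolynomial Filter
open Pool.Agent.Work.MP_f1a024_nt.AH (tau PG val D1 D2 D4 D10a D10b)

theorem Z4_nn_sum (hNB : NB) (T : Finset Nat.Primes) :
    nn (∑ q ∈ T, Finsupp.single q 1) = ∏ q ∈ T, (q : ℕ) := by
  classical
  obtain ⟨h0, h1, -, -, -, -, -, -, h2, -⟩ := hNB
  induction T using Finset.induction_on with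
  | empty => rw [Finset.sum_empty, Finset.prod_empty, h0]
  | insert q T hq ih =>
    rw [Finset.sum_insert hq, Finset.prod_insert hq, h1, ih, h2, pow_one]

theorem Z4_sum_single (T : Finset Nat.Primes) (q : Nat.Primes) :
    (∑ q' ∈ T, Finsupp.single q' 1 : Ex) q = if q ∈ T then 1 else 0 := by
  classical
  rw [Finsupp.finsetSum_apply]
  simp only [Finsupp.single_apply]
  rw [Finset.sum_ite_eq']

/-- the common part -/
theorem Z4_common (hNB : NB) (hUB : UB) (hZ2 : Z2) (d r m : ℕ) (u : Fin (d + 1) → Rg)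
    (a : Fin m → Fin (d + 1) → ℤ) (hu : ∃ i, u i ≠ 0)
    (hspan : ∀ p : Nat.Primes, ∀ z : Fin (d + 1) → ℚ,
      (∀ e ≤ r, ∑ i, z i * (tau ^ (i : ℕ)) ((p : ℕ) ^ e) = 0) →
      (∀ l, ∑ i, z i * (a l i : ℚ) = 0) → z = 0)
    (hdt : ∀ l, dt u (a l) = 0) :
    ∃ (κ : Ex) (k₃ : ℕ) (p0 : Nat.Primes), κ ≤ up u ∧ up u p0 = 0 ∧ uv u k₃ ≠ 0 ∧
      (∀ k < k₃, uv u k = 0) ∧ nn κ ≤ k₃ ∧
      ∀ p : Nat.Primes, nn κ * (p : ℕ) ^ r < k₃ → κ p + 1 ≤ up u p := by
  classical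
  obtain ⟨-, -, -, -, nex, -, -, -, -, -⟩ := id hNB
  obtain ⟨-, -, u3, -, u5, -, -⟩ := hUB
  -- the lowest exponent
  obtain ⟨i0, hi0⟩ := hu
  set S : Finset Ex := univ.biUnion fun i => (u i).support with hS
  have hSne : S.Nonempty := by
    obtain ⟨b, hb⟩ := MvPolynomial.support_nonempty.2 hi0
    exact ⟨b, Finset.mem_biUnion.2 ⟨i0, Finset.mem_univ _, hb⟩⟩
  obtain ⟨κ, hκ, hκmin⟩ := Finset.exists_min_image S nn hSne
  obtain ⟨i1, -, hi1⟩ := Finset.mem_biUnion.1 hκ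
  have h1 : ∃ i, κ ∈ (u i).support := ⟨i1, hi1⟩
  have h2 : ∀ i, ∀ b ∈ (u i).support, nn κ ≤ nn b := fun i b hb =>
    hκmin b (Finset.mem_biUnion.2 ⟨i, Finset.mem_univ _, hb⟩)
  have hκup : κ ≤ up u := (u3 (u i1) κ hi1).trans (u5 _ u i1)
  have hz : ∀ p : Nat.Primes, up u p = κ p → ∃ e ≤ r, uv u (nn κ * (p : ℕ) ^ e) ≠ 0 := fun p hp =>
    hZ2 d r m u a κ p h1 h2 hp (hspan p) hdt
  -- a prime outside the support
  obtain ⟨p0, hp0⟩ := Infinite.exists_notMem_finset (up u).support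
  have hp0' : up u p0 = 0 := Finsupp.notMem_support_iff.1 hp0
  have hκp0 : κ p0 = 0 := Nat.le_zero.1 (hp0' ▸ hκup p0)
  obtain ⟨e0, -, he0⟩ := hz p0 (by rw [hp0', hκp0])
  have hex : ∃ k, uv u k ≠ 0 := ⟨_, he0⟩
  set k₃ := Nat.find hex with hk₃
  have hk1 : uv u k₃ ≠ 0 := Nat.find_spec hex
  have hk2 : ∀ k < k₃, uv u k = 0 := fun k hk => by
    by_contra h
    exact Nat.find_min hex hk h
  -- below `nn κ` everything vanishes
  have hlow : ∀ k < nn κ, uv u k = 0 := by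
    intro k hk
    unfold uv
    refine Finset.sum_eq_zero fun ab hab => Finset.sum_eq_zero fun i _ => ?_
    obtain ⟨h3, h4⟩ := Nat.mem_divisorsAntidiagonal.1 hab
    have hpos : 0 < ab.1 := Nat.pos_of_ne_zero fun h => h4 (by rw [← h3, h, Nat.zero_mul])
    have hle : ab.1 ≤ k := Nat.le_of_dvd (Nat.pos_of_ne_zero h4) ⟨ab.2, h3.symm⟩
    have h5 : (u i).coeff (ex ab.1) = 0 := by
      by_contra h6
      have h7 := h2 i (ex ab.1) (MvPolynomial.mem_support_iff.2 h6)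
      rw [nex _ hpos] at h7
      omega
    rw [h5, zero_mul]
  have hge : nn κ ≤ k₃ := by
    by_contra h
    exact hk1 (hlow k₃ (by omega))
  -- primes with `nn κ p^r < k₃`
  have hprime : ∀ p : Nat.Primes, nn κ * (p : ℕ) ^ r < k₃ → κ p + 1 ≤ up u p := by
    intro p hp
    have h3 : up u p ≠ κ p := by
      intro h4
      obtain ⟨e, he, hne⟩ := hz p h4
      refine hne (hk2 _ (lt_of_le_of_lt ?_ hp))
      exact Nat.mul_le_mul_left _ (Nat.pow_le_pow_right p.2.pos he)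
    have h4 := hκup p
    omega
  exact ⟨κ, k₃, p0, hκup, hp0', hk1, hk2, hge, hprime⟩

/-- the product over a set of primes with `κ p + 1 ≤ up u p` -/
theorem Z4_prod (hNB : NB) {d : ℕ} (u : Fin (d + 1) → Rg) (κ : Ex) (hκup : κ ≤ up u) (P : Finset ℕ)
    (hP : ∀ p ∈ P, p.Prime) (h : ∀ p : Nat.Primes, (p : ℕ) ∈ P → κ p + 1 ≤ up u p) :
    (nn κ : ℝ) * ∏ p ∈ P, (p : ℝ) ≤ nn (up u) := by
  classical
  obtain ⟨-, nadd, npos, -, -, -, nle, -, -, -⟩ := id hNB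
  set T : Finset Nat.Primes := P.subtype (fun p => p.Prime) with hT
  have hPT : ∏ q ∈ T, (q : ℕ) = ∏ p ∈ P, p := by
    have := Finset.prod_subtype_of_mem (s := P) (fun p : ℕ => p) (p := fun p => p.Prime) hP
    exact this
  have hη : κ + ∑ q ∈ T, Finsupp.single q 1 ≤ up u := by
    intro q
    rw [Finsupp.add_apply, Z4_sum_single]
    split_ifs with hq
    · exact h q (Finset.mem_subtype.1 hq)
    · exact hκup q
  have h3 : nn κ * ∏ p ∈ P, p ≤ nn (up u) := by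
    have h4 := Nat.le_of_dvd (npos _) ((nle _ _).1 hη)
    rw [nadd, Z4_nn_sum hNB, hPT] at h4
    exact h4
  have : ((nn κ * ∏ p ∈ P, p : ℕ) : ℝ) ≤ (nn (up u) : ℝ) := by exact_mod_cast h3
  rw [Nat.cast_mul, Nat.cast_prod] at this
  exact this

theorem Z4_zero (hNB : NB) {d : ℕ} (u : Fin (d + 1) → Rg) (κ : Ex) (k₃ : ℕ) (p0 : Nat.Primes)
    (hκup : κ ≤ up u) (hp0 : up u p0 = 0)
    (hprime : ∀ p : Nat.Primes, nn κ * (p : ℕ) ^ 0 < k₃ → κ p + 1 ≤ up u p) :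
    (k₃ : ℝ) ≤ nn (up u) := by
  obtain ⟨-, -, npos, -, -, -, nle, -, -, -⟩ := id hNB
  have h3 : k₃ ≤ nn κ := by
    by_contra h4
    have h5 := hprime p0 (by rw [pow_zero, Nat.mul_one]; omega)
    rw [hp0] at h5
    omega
  have h4 : nn κ ≤ nn (up u) := Nat.le_of_dvd (npos _) ((nle _ _).1 hκup)
  exact_mod_cast h3.trans h4

theorem prfZ4 (hNB : NB) (hUB : UB) (hZ2 : Z2) (hZ3 : Z3) : Z4 := by
  classical
  intro d r m u a hu hspan hdt
  obtain ⟨κ, k₃, p0, hκup, hp0, hk1, hk2, hge, hprime⟩ :=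
    Z4_common hNB hUB hZ2 d r m u a hu hspan hdt
  refine ⟨k₃, hk1, hk2, ?_⟩
  rcases Nat.eq_zero_or_pos r with hr | hr
  · subst hr
    have h5 := Z4_zero hNB u κ k₃ p0 hκup hp0 hprime
    simpa using h5
  · have h4 := hZ3 r k₃ (nn κ) hr (hNB.2.2.1 κ) hge
    refine h4.trans ?_
    have h5 := Z4_prod hNB u κ hκup ((range k₃).filter (fun p => p.Prime ∧ nn κ * p ^ r < k₃))
      (fun p hp => (Finset.mem_filter.1 hp).2.1) (fun p hp => hprime p (Finset.mem_filter.1 hp).2.2)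
    rw [mul_assoc]
    exact mul_le_mul_of_nonneg_left h5 (by positivity)

theorem prfZ4q (hNB : NB) (hUB : UB) (hZ2 : Z2) : Z4q := by
  classical
  intro d r m u a hu hspan hdt
  obtain ⟨κ, k₃, p0, hκup, hp0, hk1, hk2, -, hprime⟩ :=
    Z4_common hNB hUB hZ2 d r m u a hu hspan hdt
  rcases Nat.eq_zero_or_pos r with hr | hr
  · subst hr
    refine ⟨k₃, 2, Nat.prime_two, hk1, hk2, ?_⟩
    have h5 := Z4_zero hNB u κ k₃ p0 hκup hp0 hprime
    have h6 : pb 2 = 1 := by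
      unfold pb
      have : (range 2).filter Nat.Prime = ∅ := by decide
      rw [this, Finset.prod_empty]
    rw [h6]
    simpa using h5
  · have hex : ∃ q : ℕ, q.Prime ∧ k₃ ≤ nn κ * q ^ r := by
      obtain ⟨q, hq1, hq2⟩ := Nat.exists_infinite_primes k₃
      refine ⟨q, hq2, hq1.trans ?_⟩
      calc q = 1 * q ^ 1 := by ring
        _ ≤ nn κ * q ^ r := Nat.mul_le_mul (hNB.2.2.1 κ) (Nat.pow_le_pow_right hq2.pos hr)
    set q := Nat.find hex with hq
    obtain ⟨hq1, hq2⟩ := Nat.find_spec hex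
    refine ⟨k₃, q, hq1, hk1, hk2, ?_⟩
    have h5 := Z4_prod hNB u κ hκup ((range q).filter Nat.Prime)
      (fun p hp => (Finset.mem_filter.1 hp).2) (fun p hp => by
        refine hprime p ?_
        have h6 : (p : ℕ) < q := Finset.mem_range.1 (Finset.mem_filter.1 hp).1
        have h7 := Nat.find_min hex h6
        by_contra h8
        exact h7 ⟨p.2, by omega⟩)
    have h6 : (k₃ : ℝ) ≤ nn κ * (q : ℝ) ^ r := by exact_mod_cast hq2
    have h7 : 0 ≤ pb q := Finset.prod_nonneg fun p _ => Nat.cast_nonneg p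
    calc (k₃ : ℝ) * pb q ≤ nn κ * (q : ℝ) ^ r * pb q := mul_le_mul_of_nonneg_right h6 h7
      _ = (q : ℝ) ^ r * (nn κ * pb q) := by ring
      _ ≤ (q : ℝ) ^ r * nn (up u) := mul_le_mul_of_nonneg_left h5 (by positivity)

end Pool.Agent.Work.MP_f1a024_nt.RW
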